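import Pool.Agent.Helper98.NB.OmBasic

/-!
# NB-2: elementary properties of the branch `W`
-/

set_option autoImplicit false

namespace IsingNB

open Complex Set MeasureTheory Filter Topology
open scoped Real

noncomputable section

/-- the closed segment `[-1,1]` -/
def Seg : Set ℂ := {u | u.im = 0 ∧ -1 ≤ u.re ∧ u.re ≤ 1}

theorem W_mul (u : ℂ) :
    W u * (u + (u - 1) ^ (1 / 2 : ℂ) * (u + 1) ^ (1 / 2 : ℂ)) = 1 := by
  have hs := half_pow_sq (u - 1)
  have ht := half_pow_sq (u + 1)
  unfold W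
  linear_combination (-(((u + 1) ^ (1 / 2 : ℂ)) ^ 2)) * hs - (u - 1) * ht

theorem W_ne_zero (u : ℂ) : W u ≠ 0 := by
  intro h
  have := W_mul u
  rw [h, zero_mul] at this
  exact zero_ne_one this

theorem W_add_inv (u : ℂ) : W u + (W u)⁻¹ = 2 * u := by
  rw [inv_eq_of_mul_eq_one_right (W_mul u)]
  unfold W
  ring

theorem norm_W_le_one (u : ℂ) : ‖W u‖ ≤ 1 :=
  (norm_sub_roots (half_pow_sq (u - 1)) (half_pow_sq (u + 1))).1 roots_inner.1

theorem norm_W_lt_one {u : ℂ} (hu : u ∉ Seg) : ‖W u‖ < 1 :=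
  (norm_sub_roots (half_pow_sq (u - 1)) (half_pow_sq (u + 1))).2 (roots_inner.2 hu)

theorem W_unique {u w : ℂ} (hw : ‖w‖ < 1) (h : w + w⁻¹ = 2 * u) (h0 : w ≠ 0) : w = W u := by
  have h1 := W_add_inv u
  have h2 := W_ne_zero u
  have h3 : (w - W u) * (w * W u - 1) = 0 := by
    have h4 : w + w⁻¹ = W u + (W u)⁻¹ := by rw [h, h1]
    field_simp at h4
    linear_combination h4
  rcases mul_eq_zero.1 h3 with h5 | h5
  · exact sub_eq_zero.1 h5
  · exfalso
    have h6 : ‖w‖ * ‖W u‖ = 1 := by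
      rw [← norm_mul, sub_eq_zero.1 h5, norm_one]
    have h7 := norm_W_le_one u
    have h8 : 0 ≤ ‖w‖ := norm_nonneg _
    nlinarith

theorem neg_notMem_Seg {u : ℂ} (hu : u ∉ Seg) : -u ∉ Seg := by
  rintro ⟨h1, h2, h3⟩
  rw [Complex.neg_im] at h1
  rw [Complex.neg_re] at h2 h3
  exact hu ⟨by linarith, by linarith, by linarith⟩

theorem W_neg {u : ℂ} (hu : u ∉ Seg) : W (-u) = -W u := by
  symm
  apply W_unique
  · rw [norm_neg]
    exact norm_W_lt_one hu
  · rw [inv_neg]
    linear_combination -(W_add_inv u)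
  · exact neg_ne_zero.2 (W_ne_zero u)

theorem W_conj {u : ℂ} (hu : u ∉ Seg) : W (starRingEnd ℂ u) = starRingEnd ℂ (W u) := by
  symm
  apply W_unique
  · rw [Complex.norm_conj]
    exact norm_W_lt_one hu
  · rw [← map_inv₀, ← map_add, W_add_inv, map_mul, Complex.conj_ofNat]
  · exact (map_ne_zero _).2 (W_ne_zero u)

theorem W_eq_om {z : ℂ} (hz : 0 < z.im) : W z = om z :=
  (W_unique (norm_om_lt_one_of_im hz) (om_add_inv z) (om_ne_zero z)).symm

theorem isClosed_Seg : IsClosed Seg := by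
  have h1 : IsClosed {z : ℂ | z.im = 0} := isClosed_eq Complex.continuous_im continuous_const
  have h2 : IsClosed {z : ℂ | -1 ≤ z.re} := isClosed_le continuous_const Complex.continuous_re
  have h3 : IsClosed {z : ℂ | z.re ≤ 1} := isClosed_le Complex.continuous_re continuous_const
  exact h1.inter (h2.inter h3)

theorem W_differentiableAt_aux {u : ℂ} (h : u.im ≠ 0 ∨ 1 < u.re) : DifferentiableAt ℂ W u := by
  have hm : u - 1 ∈ Complex.slitPlane := by
    rw [Complex.mem_slitPlane_iff]
    rcases h with h | h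
    · right; simpa using h
    · left; simpa using h
  have hp : u + 1 ∈ Complex.slitPlane := by
    rw [Complex.mem_slitPlane_iff]
    rcases h with h | h
    · right; simpa using h
    · left
      rw [Complex.add_re, Complex.one_re]
      linarith
  have h1 : DifferentiableAt ℂ (fun z : ℂ => (z - 1) ^ (1 / 2 : ℂ)) u :=
    DifferentiableAt.cpow (f := fun z : ℂ => z - 1) (g := fun _ => (1 / 2 : ℂ))
      (by fun_prop) (differentiableAt_const _) hm
  have h2 : DifferentiableAt ℂ (fun z : ℂ => (z + 1) ^ (1 / 2 : ℂ)) u :=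
    DifferentiableAt.cpow (f := fun z : ℂ => z + 1) (g := fun _ => (1 / 2 : ℂ))
      (by fun_prop) (differentiableAt_const _) hp
  exact differentiableAt_id.sub (h1.mul h2)

theorem W_differentiableAt {u : ℂ} (hu : u ∉ Seg) : DifferentiableAt ℂ W u := by
  by_cases h : u.im ≠ 0 ∨ 1 < u.re
  · exact W_differentiableAt_aux h
  · push Not at h
    obtain ⟨h1, h2⟩ := h
    have h3 : 1 < (-u).re := by
      rw [Complex.neg_re]
      by_contra h4
      exact hu ⟨h1, by linarith, h2⟩
    have h4 : DifferentiableAt ℂ (fun v : ℂ => -W (-v)) u := by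
      have h5 := W_differentiableAt_aux (u := -u) (Or.inr h3)
      exact (h5.comp u differentiableAt_id.neg).neg
    apply h4.congr_of_eventuallyEq
    have h6 : Segᶜ ∈ 𝓝 u := isClosed_Seg.isOpen_compl.mem_nhds hu
    filter_upwards [h6] with v hv
    have := W_neg (neg_notMem_Seg hv)
    rw [neg_neg] at this
    exact this

theorem W_analytic : AnalyticOnNhd ℂ W Segᶜ := by
  apply DifferentiableOn.analyticOnNhd _ isClosed_Seg.isOpen_compl
  intro z hz
  exact (W_differentiableAt hz).differentiableWithinAt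

theorem sub_cos_notMem_Seg {c : ℂ} (hc : c.im ≠ 0 ∨ 2 < c.re ∨ c.re < -2) (t : ℝ) :
    c - Complex.cos t ∉ Seg := by
  rintro ⟨h1, h2, h3⟩
  rw [← Complex.ofReal_cos] at h1 h2 h3
  rw [Complex.sub_im, Complex.ofReal_im, sub_zero] at h1
  rw [Complex.sub_re, Complex.ofReal_re] at h2 h3
  have h4 := Real.cos_le_one t
  have h5 := Real.neg_one_le_cos t
  rcases hc with h | h | h
  · exact h h1
  · linarith
  · linarith

end

end IsingNB
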