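import Pool.Agent.Helper98.NB.Defs

set_option autoImplicit false

namespace IsingNB

open scoped ComplexOrder

theorem had_amgm {n : ℕ} (hn : 0 < n) (z : Fin n → ℝ) (hz : ∀ i, 0 ≤ z i) (T : ℝ)
    (hT : ∑ i, z i ≤ n * T) : ∏ i, z i ≤ T ^ n := by
  have hn' : (0 : ℝ) < n := by exact_mod_cast hn
  have h := Real.geom_mean_le_arith_mean (Finset.univ : Finset (Fin n)) (fun _ => (1 : ℝ)) z
    (fun _ _ => zero_le_one) (by simpa using hn') (fun i _ => hz i)
  simp only [Real.rpow_one, Finset.sum_const, Finset.card_univ, Fintype.card_fin, nsmul_eq_mul,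
    mul_one, one_mul] at h
  have hp : 0 ≤ ∏ i, z i := Finset.prod_nonneg fun i _ => hz i
  have h2 : (∏ i, z i) ^ ((n : ℝ)⁻¹) ≤ T := by
    refine h.trans ?_
    rw [div_le_iff₀ hn', mul_comm]
    exact hT
  calc ∏ i, z i = ((∏ i, z i) ^ ((n : ℝ)⁻¹)) ^ n := by
        rw [← Real.rpow_natCast, ← Real.rpow_mul hp, inv_mul_cancel₀ hn'.ne', Real.rpow_one]
    _ ≤ T ^ n := pow_le_pow_left₀ (Real.rpow_nonneg hp _) h2 n

theorem norm_det_sq_le {n : ℕ} (A : Matrix (Fin n) (Fin n) ℂ) (B : ℝ) (hA : ∀ i k, ‖A i k‖ ≤ B) :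
    ‖A.det‖ ^ 2 ≤ B ^ (2 * n) * (n : ℝ) ^ n := by
  rcases Nat.eq_zero_or_pos n with rfl | hn
  · simp
  have hP := Matrix.posSemidef_self_mul_conjTranspose A
  have hH := hP.isHermitian
  have hdet : ((‖A.det‖ ^ 2 : ℝ) : ℂ) = ((∏ i, hH.eigenvalues i : ℝ) : ℂ) := by
    have h1 := hH.det_eq_prod_eigenvalues
    rw [Matrix.det_mul, Matrix.det_conjTranspose] at h1
    push_cast
    rw [← Complex.mul_conj']
    exact h1
  have htr : ((∑ i, hH.eigenvalues i : ℝ) : ℂ) = ((∑ i, ∑ k, ‖A i k‖ ^ 2 : ℝ) : ℂ) := by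
    have h1 := hH.trace_eq_sum_eigenvalues
    push_cast
    refine Eq.trans h1.symm ?_
    simp only [Matrix.trace, Matrix.diag_apply, Matrix.mul_apply, Matrix.conjTranspose_apply]
    refine Finset.sum_congr rfl fun i _ => Finset.sum_congr rfl fun k _ => ?_
    exact Complex.mul_conj' _
  have hdet' : ‖A.det‖ ^ 2 = ∏ i, hH.eigenvalues i := by exact_mod_cast hdet
  have htr' : ∑ i, hH.eigenvalues i = ∑ i, ∑ k, ‖A i k‖ ^ 2 := by exact_mod_cast htr
  have hle : ∑ i, hH.eigenvalues i ≤ n * (n * B ^ 2) := by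
    rw [htr']
    have : ∀ i ∈ (Finset.univ : Finset (Fin n)), ∑ k, ‖A i k‖ ^ 2 ≤ n * B ^ 2 := by
      intro i _
      have : ∀ k ∈ (Finset.univ : Finset (Fin n)), ‖A i k‖ ^ 2 ≤ B ^ 2 := fun k _ =>
        pow_le_pow_left₀ (norm_nonneg _) (hA i k) 2
      refine (Finset.sum_le_card_nsmul _ _ _ this).trans (le_of_eq ?_)
      simp
    refine (Finset.sum_le_card_nsmul _ _ _ this).trans (le_of_eq ?_)
    simp
  rw [hdet']
  refine (had_amgm hn _ (fun i => hP.eigenvalues_nonneg i) _ hle).trans (le_of_eq ?_)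
  rw [mul_pow, ← pow_mul, mul_comm]

end IsingNB
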