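import Pool.Agent.Helper98.NB.Pfaff
import Pool.Agent.Helper98.NB.Hadamard

/-!
# NB-9: the bound for the product of the pair factors
-/

namespace IsingNB

open Complex Set MeasureTheory Filter Topology
open scoped Real

noncomputable section

/-- Splitting the points into two blocks. -/
theorem pairs_split (r q : ℕ) (x w : Fin (r + q) → ℂ) :
    pairs x w = pairs (fun i : Fin r => x (Fin.castAdd q i)) (fun i : Fin r => w (Fin.castAdd q i)) *
      (∏ i : Fin r, ∏ k : Fin q, HH (x (Fin.castAdd q i)) (w (Fin.castAdd q i))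
        (x (Fin.natAdd r k)) (w (Fin.natAdd r k))) *
      pairs (fun i : Fin q => x (Fin.natAdd r i)) (fun i : Fin q => w (Fin.natAdd r i)) := by
  have key : ∀ {n : ℕ} (f : Fin n → Fin n → ℂ), (∏ i, ∏ k ∈ Finset.Ioi i, f i k) =
      ∏ i, ∏ k, if i < k then f i k else 1 := by
    intro n f
    refine Finset.prod_congr rfl fun i _ => ?_
    rw [← Finset.prod_filter]
    refine Finset.prod_congr ?_ fun _ _ => rfl
    ext k
    simp
  unfold pairs
  rw [key, key, key, Fin.prod_univ_add]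
  have h1 : ∀ i : Fin r, (∏ k : Fin (r + q), if Fin.castAdd q i < k then
      HH (x (Fin.castAdd q i)) (w (Fin.castAdd q i)) (x k) (w k) else 1) =
      (∏ k : Fin r, if i < k then HH (x (Fin.castAdd q i)) (w (Fin.castAdd q i))
        (x (Fin.castAdd q k)) (w (Fin.castAdd q k)) else 1) *
      ∏ k : Fin q, HH (x (Fin.castAdd q i)) (w (Fin.castAdd q i))
        (x (Fin.natAdd r k)) (w (Fin.natAdd r k)) := by
    intro i
    rw [Fin.prod_univ_add]
    congr 1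
    refine Finset.prod_congr rfl fun k _ => ?_
    rw [if_pos]
    rw [Fin.lt_def, Fin.val_castAdd, Fin.val_natAdd]
    have := i.2
    omega
  have h2 : ∀ i : Fin q, (∏ k : Fin (r + q), if Fin.natAdd r i < k then
      HH (x (Fin.natAdd r i)) (w (Fin.natAdd r i)) (x k) (w k) else 1) =
      ∏ k : Fin q, if i < k then HH (x (Fin.natAdd r i)) (w (Fin.natAdd r i))
        (x (Fin.natAdd r k)) (w (Fin.natAdd r k)) else 1 := by
    intro i
    rw [Fin.prod_univ_add]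
    have h3 : (∏ k : Fin r, if Fin.natAdd r i < Fin.castAdd q k then
        HH (x (Fin.natAdd r i)) (w (Fin.natAdd r i)) (x (Fin.castAdd q k))
          (w (Fin.castAdd q k)) else 1) = 1 := by
      refine Finset.prod_eq_one fun k _ => ?_
      rw [if_neg]
      rw [Fin.lt_def, Fin.val_castAdd, Fin.val_natAdd]
      have := k.2
      omega
    rw [h3, one_mul]
    refine Finset.prod_congr rfl fun k _ => ?_
    have h4 : (Fin.natAdd r i < Fin.natAdd r k) ↔ i < k := by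
      rw [Fin.lt_def, Fin.lt_def, Fin.val_natAdd, Fin.val_natAdd]
      omega
    simp only [h4]
  simp only [h1, h2]
  rw [Finset.prod_mul_distrib]

theorem norm_HH_le {x w x' w' : ℂ} {B : ℝ} (hB : 0 ≤ B) (hg : ‖(x - x') / (1 - w * w')‖ ≤ B)
    (hq : ‖w / x‖ ≤ B) (hq' : ‖w' / x'‖ ≤ B) : ‖HH x w x' w'‖ ≤ B ^ 4 := by
  have h1 : HH x w x' w' = -(((x - x') / (1 - w * w')) ^ 2 * ((w / x) * (w' / x'))) := by
    unfold HH
    rw [div_pow, div_mul_div_comm, div_mul_div_comm, neg_div, mul_comm (x * x')]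
  rw [h1, norm_neg, norm_mul, norm_pow, norm_mul]
  calc ‖(x - x') / (1 - w * w')‖ ^ 2 * (‖w / x‖ * ‖w' / x'‖) ≤ B ^ 2 * (B * B) := by
        gcongr
    _ = B ^ 4 := by ring

/-- Even number of points. -/
private theorem pairs_even {B : ℝ} (hB : 1 ≤ B) (k : ℕ) (c : ℂ) (x w : Fin (2 * k) → ℂ)
    (hx : ∀ i, x i ≠ 0) (hw : ∀ i, w i ≠ 0)
    (hr : ∀ i, x i + (x i)⁻¹ + w i + (w i)⁻¹ = 2 * c) (hd : ∀ i l, 1 - w i * w l ≠ 0)
    (hg : ∀ i l, ‖(x i - x l) / (1 - w i * w l)‖ ≤ B) (hq : ∀ i, ‖w i / x i‖ ≤ B) :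
    ‖pairs x w‖ ^ 2 ≤ B ^ (4 * (2 * k)) * ((2 * k : ℕ) : ℝ) ^ (2 * k) := by
  rw [pairs_eq_det c x w hx hw hr hd, norm_mul, norm_mul, norm_pow, norm_neg, norm_one, one_pow,
    one_mul, mul_pow]
  have h1 : ‖∏ i, w i / x i‖ ≤ B ^ (2 * k) := by
    rw [norm_prod]
    calc ∏ i, ‖w i / x i‖ ≤ ∏ _i : Fin (2 * k), B :=
          Finset.prod_le_prod (fun _ _ => norm_nonneg _) fun i _ => hq i
      _ = B ^ (2 * k) := by rw [Finset.prod_const, Finset.card_univ, Fintype.card_fin]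
  have h2 := norm_det_sq_le (Matrix.of fun i l => (x i - x l) / (1 - w i * w l)) B
    (fun i l => hg i l)
  calc ‖∏ i, w i / x i‖ ^ 2 * ‖(Matrix.of fun i l => (x i - x l) / (1 - w i * w l)).det‖ ^ 2
      ≤ (B ^ (2 * k)) ^ 2 * (B ^ (2 * (2 * k)) * ((2 * k : ℕ) : ℝ) ^ (2 * k)) := by
        gcongr
    _ = B ^ (4 * (2 * k)) * ((2 * k : ℕ) : ℝ) ^ (2 * k) := by
        rw [← mul_assoc, ← pow_mul, ← pow_add]
        congr 2
        ring

private theorem cross_le {B : ℝ} (hB : 1 ≤ B) (r q : ℕ) (x w : Fin (r + q) → ℂ)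
    (hg : ∀ i l, ‖(x i - x l) / (1 - w i * w l)‖ ≤ B) (hq : ∀ i, ‖w i / x i‖ ≤ B) :
    ‖∏ i : Fin r, ∏ k : Fin q, HH (x (Fin.castAdd q i)) (w (Fin.castAdd q i))
        (x (Fin.natAdd r k)) (w (Fin.natAdd r k))‖ ≤ B ^ (4 * r * q) := by
  have hB0 : 0 ≤ B := by linarith
  rw [norm_prod]
  calc ∏ i : Fin r, ‖∏ k : Fin q, HH (x (Fin.castAdd q i)) (w (Fin.castAdd q i))
        (x (Fin.natAdd r k)) (w (Fin.natAdd r k))‖ ≤ ∏ _i : Fin r, (B ^ 4) ^ q := by
        refine Finset.prod_le_prod (fun _ _ => norm_nonneg _) fun i _ => ?_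
        rw [norm_prod]
        calc ∏ k : Fin q, ‖HH (x (Fin.castAdd q i)) (w (Fin.castAdd q i))
              (x (Fin.natAdd r k)) (w (Fin.natAdd r k))‖ ≤ ∏ _k : Fin q, B ^ 4 :=
              Finset.prod_le_prod (fun _ _ => norm_nonneg _) fun k _ =>
                norm_HH_le hB0 (hg _ _) (hq _) (hq _)
          _ = (B ^ 4) ^ q := by rw [Finset.prod_const, Finset.card_univ, Fintype.card_fin]
    _ = B ^ (4 * r * q) := by
        rw [Finset.prod_const, Finset.card_univ, Fintype.card_fin, ← pow_mul, ← pow_mul]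
        congr 1
        ring

private theorem pairs_any {B : ℝ} (hB : 1 ≤ B) (q : ℕ) (c : ℂ) (x w : Fin q → ℂ)
    (hx : ∀ i, x i ≠ 0) (hw : ∀ i, w i ≠ 0)
    (hr : ∀ i, x i + (x i)⁻¹ + w i + (w i)⁻¹ = 2 * c) (hd : ∀ i l, 1 - w i * w l ≠ 0)
    (hg : ∀ i l, ‖(x i - x l) / (1 - w i * w l)‖ ≤ B) (hq : ∀ i, ‖w i / x i‖ ≤ B) :
    ‖pairs x w‖ ^ 2 ≤ B ^ (12 * q) * (q : ℝ) ^ q := by
  rcases Nat.even_or_odd' q with ⟨k, hk | hk⟩
  · subst hk
    refine (pairs_even hB k c x w hx hw hr hd hg hq).trans ?_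
    exact mul_le_mul_of_nonneg_right (pow_le_pow_right₀ hB (by omega)) (by positivity)
  · obtain rfl : q = 1 + 2 * k := by omega
    rw [pairs_split 1 (2 * k) x w]
    have h0 : pairs (fun i : Fin 1 => x (Fin.castAdd (2 * k) i))
        (fun i : Fin 1 => w (Fin.castAdd (2 * k) i)) = 1 := by
      unfold pairs
      simp
    rw [h0, one_mul, norm_mul, mul_pow]
    have h1 := cross_le hB 1 (2 * k) x w hg hq
    have h2 := pairs_even hB k c (fun i => x (Fin.natAdd 1 i)) (fun i => w (Fin.natAdd 1 i))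
      (fun i => hx _) (fun i => hw _) (fun i => hr _) (fun i l => hd _ _) (fun i l => hg _ _)
      (fun i => hq _)
    calc _ ≤ (B ^ (4 * 1 * (2 * k))) ^ 2 *
          (B ^ (4 * (2 * k)) * ((2 * k : ℕ) : ℝ) ^ (2 * k)) := by
          gcongr
      _ = B ^ (12 * (2 * k)) * ((2 * k : ℕ) : ℝ) ^ (2 * k) := by
          rw [← mul_assoc, ← pow_mul, ← pow_add]
          congr 2
          ring
      _ ≤ B ^ (12 * (1 + 2 * k)) * ((1 + 2 * k : ℕ) : ℝ) ^ (1 + 2 * k) := by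
          have h3 : ((2 * k : ℕ) : ℝ) ^ (2 * k) ≤ ((1 + 2 * k : ℕ) : ℝ) ^ (1 + 2 * k) := by
            have h4 : (2 * k) ^ (2 * k) ≤ (1 + 2 * k) ^ (1 + 2 * k) :=
              (Nat.pow_le_pow_left (by omega) _).trans (Nat.pow_le_pow_right (by omega) (by omega))
            exact_mod_cast h4
          have h5 : B ^ (12 * (2 * k)) ≤ B ^ (12 * (1 + 2 * k)) :=
            pow_le_pow_right₀ hB (by omega)
          gcongr

theorem pairs_bound (B : ℝ) (hB : 1 ≤ B) (r0 : ℕ) :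
    ∃ A : ℝ, 1 ≤ A ∧ ∀ (q : ℕ) (c : ℂ) (x w : Fin (r0 + q) → ℂ), (∀ i, x i ≠ 0) → (∀ i, w i ≠ 0) →
      (∀ i, x i + (x i)⁻¹ + w i + (w i)⁻¹ = 2 * c) → (∀ i l, 1 - w i * w l ≠ 0) →
      (∀ i l, ‖(x i - x l) / (1 - w i * w l)‖ ≤ B) → (∀ i, ‖w i / x i‖ ≤ B) →
      ‖pairs x w‖ ^ 2 ≤ A ^ (r0 + q) * ((r0 + q : ℕ) : ℝ) ^ (r0 + q) *
        ‖pairs (fun i : Fin r0 => x (Fin.castAdd q i)) (fun i : Fin r0 => w (Fin.castAdd q i))‖ ^ 2 := by
  refine ⟨B ^ (8 * r0 + 12), one_le_pow₀ hB, ?_⟩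
  intro q c x w hx hw hr hd hg hq
  rw [pairs_split r0 q x w, norm_mul, norm_mul, mul_pow, mul_pow]
  have h1 := cross_le hB r0 q x w hg hq
  have h2 := pairs_any hB q c (fun i => x (Fin.natAdd r0 i)) (fun i => w (Fin.natAdd r0 i))
    (fun i => hx _) (fun i => hw _) (fun i => hr _) (fun i l => hd _ _) (fun i l => hg _ _)
    (fun i => hq _)
  set P := ‖pairs (fun i : Fin r0 => x (Fin.castAdd q i)) (fun i : Fin r0 => w (Fin.castAdd q i))‖
    with hP
  have hq1 : (q : ℝ) ^ q ≤ ((r0 + q : ℕ) : ℝ) ^ (r0 + q) := by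
    rcases Nat.eq_zero_or_pos (r0 + q) with h | h
    · have h3 : q = 0 := by omega
      have h4 : r0 = 0 := by omega
      subst h3; subst h4; simp
    · have h4 : q ^ q ≤ (r0 + q) ^ (r0 + q) :=
        (Nat.pow_le_pow_left (by omega) _).trans (Nat.pow_le_pow_right h (by omega))
      exact_mod_cast h4
  calc _ ≤ P ^ 2 * (B ^ (4 * r0 * q)) ^ 2 * (B ^ (12 * q) * (q : ℝ) ^ q) := by
        gcongr
    _ = B ^ ((8 * r0 + 12) * q) * (q : ℝ) ^ q * P ^ 2 := by
        have e : B ^ ((8 * r0 + 12) * q) = (B ^ (4 * r0 * q)) ^ 2 * B ^ (12 * q) := by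
          rw [← pow_mul, ← pow_add]
          congr 1
          ring
        rw [e]
        ring
    _ ≤ (B ^ (8 * r0 + 12)) ^ (r0 + q) * ((r0 + q : ℕ) : ℝ) ^ (r0 + q) * P ^ 2 := by
        have h3 : B ^ ((8 * r0 + 12) * q) ≤ (B ^ (8 * r0 + 12)) ^ (r0 + q) := by
          rw [← pow_mul]
          exact pow_le_pow_right₀ hB (Nat.mul_le_mul_left _ (by omega))
        gcongr

theorem summable_bd (A : ℝ) : Summable (bd A) := by
  set y : ℝ := A ^ 2 * Real.exp 1 with hy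
  have h1 : Summable fun j : ℕ => ((4 * y) ^ j / (j.factorial : ℝ) + (1 / 4 : ℝ) ^ j) / 2 :=
    ((Real.summable_pow_div_factorial _).add
      (summable_geometric_of_lt_one (by norm_num) (by norm_num))).div_const 2
  refine Summable.of_norm_bounded h1 fun j => ?_
  have hf : (0 : ℝ) < (j.factorial : ℝ) := by exact_mod_cast Nat.factorial_pos j
  have h2 : ((j : ℝ) ^ j) ≤ Real.exp 1 ^ j * (j.factorial : ℝ) := by
    have h3 := Real.pow_div_factorial_le_exp (j : ℝ) (Nat.cast_nonneg j) j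
    rw [div_le_iff₀ hf] at h3
    rwa [← Real.exp_nat_mul, mul_one]
  have h4 : ‖bd A j‖ ≤ Real.sqrt (y ^ j / (j.factorial : ℝ)) := by
    rw [Real.norm_eq_abs]
    refine Real.le_sqrt_of_sq_le ?_
    rw [sq_abs]
    unfold bd
    rw [div_pow, mul_pow, Real.sq_sqrt (by positivity), div_le_div_iff₀ (by positivity) hf]
    calc (A ^ j) ^ 2 * (j : ℝ) ^ j * (j.factorial : ℝ)
        ≤ (A ^ j) ^ 2 * (Real.exp 1 ^ j * (j.factorial : ℝ)) * (j.factorial : ℝ) := by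
          gcongr
      _ = y ^ j * (j.factorial : ℝ) ^ 2 := by
          rw [hy, mul_pow, ← pow_mul, ← pow_mul, mul_comm j 2]
          ring
  refine h4.trans ?_
  have hy0 : 0 ≤ y := by positivity
  have h5 : y ^ j / (j.factorial : ℝ) =
      ((4 * y) ^ j / (j.factorial : ℝ)) * (1 / 4 : ℝ) ^ j := by
    rw [mul_pow 4 y j]
    have : (4 : ℝ) ^ j * (1 / 4 : ℝ) ^ j = 1 := by
      rw [← mul_pow]; norm_num
    calc y ^ j / (j.factorial : ℝ) = y ^ j / (j.factorial : ℝ) * ((4 : ℝ) ^ j * (1 / 4 : ℝ) ^ j) := by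
          rw [this, mul_one]
      _ = _ := by ring
  rw [h5]
  set u := (4 * y) ^ j / (j.factorial : ℝ) with hu
  set v := (1 / 4 : ℝ) ^ j with hv
  have hu0 : 0 ≤ u := by positivity
  have hv0 : 0 ≤ v := by positivity
  refine Real.sqrt_le_iff.2 ⟨by positivity, ?_⟩
  nlinarith [sq_nonneg (u - v)]

end

end IsingNB
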