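import Pool.Agent.Helper98.NB.Defs
import Pool.Agent.Helper98.NB.WBasic
import Pool.Agent.Helper98.NB.PairBound

/-!
NB-17a: analyticity and local bounds of the terms `chi`.
-/

set_option autoImplicit false

namespace IsingNB

open Complex Set MeasureTheory Filter Topology
open scoped Real

noncomputable section

/-- Holomorphic dependence of an integral over a compact set on a parameter. -/
theorem cb_diff_integral {d : ℕ} {U : Set ℂ} (hU : IsOpen U) {K : Set (Fin d → ℝ)} (hK : IsCompact K)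
    {Φ : ℂ → (Fin d → ℝ) → ℂ}
    (hc : ContinuousOn (fun p : ℂ × (Fin d → ℝ) => Φ p.1 p.2) (U ×ˢ K))
    (hd : ∀ t ∈ K, DifferentiableOn ℂ (fun s => Φ s t) U) :
    DifferentiableOn ℂ (fun s => ∫ t in K, Φ s t) U := by
  intro s₀ hs₀
  apply DifferentiableAt.differentiableWithinAt
  obtain ⟨δ', hδ', hball'⟩ := Metric.nhds_basis_closedBall.mem_iff.1 (hU.mem_nhds hs₀)
  set δ : ℝ := δ' / 2 with hδdef
  have hδ : 0 < δ := by positivity
  have hKm : MeasurableSet K := hK.measurableSet
  have hball : Metric.closedBall s₀ (2 * δ) ⊆ U := by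
    have : 2 * δ = δ' := by rw [hδdef]; ring
    rw [this]
    exact hball'
  have hsec : ∀ s ∈ U, ContinuousOn (Φ s) K := by
    intro s hs
    have : ContinuousOn (fun t : Fin d → ℝ => (s, t)) K := by fun_prop
    exact hc.comp this (fun t ht => ⟨hs, ht⟩)
  have hmeas : ∀ s ∈ U, AEStronglyMeasurable (Φ s) (volume.restrict K) := by
    intro s hs
    exact (hsec s hs).aestronglyMeasurable hKm
  have hcomp : IsCompact (Metric.closedBall s₀ (2 * δ) ×ˢ K) :=
    (isCompact_closedBall _ _).prod hK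
  obtain ⟨M, hM⟩ := hcomp.exists_bound_of_continuousOn
    (hc.mono (prod_mono_left hball))
  have hsub : Metric.ball s₀ δ ⊆ U := fun x hx => hball (by
    rw [Metric.mem_closedBall]
    rw [Metric.mem_ball] at hx
    linarith)
  have hderiv : ∀ t ∈ K, ∀ s ∈ Metric.ball s₀ δ,
      HasDerivAt (fun x => Φ x t) (deriv (fun x => Φ x t) s) s := by
    intro t ht s hs
    exact ((hd t ht).differentiableAt (hU.mem_nhds (hsub hs))).hasDerivAt
  have hfinK : IsFiniteMeasure (volume.restrict K) :=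
    ⟨by rw [Measure.restrict_apply_univ]; exact hK.measure_lt_top⟩
  have key := hasDerivAt_integral_of_dominated_loc_of_deriv_le (μ := volume.restrict K)
    (F := Φ) (F' := fun s t => deriv (fun x => Φ x t) s) (x₀ := s₀) (s := Metric.ball s₀ δ)
    (bound := fun _ => M / δ) (Metric.ball_mem_nhds s₀ hδ)
    (by
      filter_upwards [hU.mem_nhds hs₀] with s hs
      exact hmeas s hs)
    ((hsec s₀ hs₀).integrableOn_compact hK)
    (by
      have hh : Tendsto (fun n : ℕ => ((δ / (n + 1) : ℝ) : ℂ)) atTop (𝓝[≠] 0) := by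
        rw [tendsto_nhdsWithin_iff]
        constructor
        · rw [← ofReal_zero]
          apply (continuous_ofReal.tendsto 0).comp
          exact tendsto_const_nhds.div_atTop (tendsto_natCast_atTop_atTop.atTop_add tendsto_const_nhds)
        · apply Eventually.of_forall
          intro n
          simp only [mem_compl_iff, mem_singleton_iff]
          have : (δ / (n + 1) : ℝ) ≠ 0 := by positivity
          exact_mod_cast this
      apply aestronglyMeasurable_of_tendsto_ae (u := (atTop : Filter ℕ))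
        (f := fun n t => ((δ / (n + 1) : ℝ) : ℂ)⁻¹ • (Φ (s₀ + ((δ / (n + 1) : ℝ) : ℂ)) t - Φ s₀ t))
      · intro n
        refine (AEStronglyMeasurable.sub (hmeas _ ?_) (hmeas s₀ hs₀)).const_smul
          (((δ / (n + 1) : ℝ) : ℂ)⁻¹)
        apply hball
        rw [Metric.mem_closedBall, dist_eq_norm, add_sub_cancel_left, norm_real,
          Real.norm_of_nonneg (by positivity)]
        have : δ / (n + 1) ≤ δ := div_le_self hδ.le (by linarith [(Nat.cast_nonneg n : (0 : ℝ) ≤ n)])
        linarith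
      · rw [ae_restrict_iff' hKm]
        apply Eventually.of_forall
        intro t ht
        have h1 := hderiv t ht s₀ (Metric.mem_ball_self hδ)
        rw [hasDerivAt_iff_tendsto_slope_zero] at h1
        exact h1.comp hh)
    (by
      rw [ae_restrict_iff' hKm]
      apply Eventually.of_forall
      intro t ht s hs
      apply norm_deriv_le_of_forall_mem_sphere_norm_le hδ
      · have hsub2 : Metric.closedBall s δ ⊆ Metric.closedBall s₀ (2 * δ) := by
          intro x hx
          rw [Metric.mem_closedBall] at hx ⊢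
          rw [Metric.mem_ball] at hs
          have := dist_triangle x s s₀
          linarith
        have : DifferentiableOn ℂ (fun x => Φ x t) (closure (Metric.ball s δ)) := by
          apply (hd t ht).mono
          exact Metric.closure_ball_subset_closedBall.trans (hsub2.trans hball)
        exact this.diffContOnCl
      · intro z hz
        apply hM (z, t)
        refine ⟨?_, ht⟩
        simp only
        rw [Metric.mem_closedBall]
        rw [Metric.mem_sphere] at hz
        rw [Metric.mem_ball] at hs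
        have := dist_triangle z s s₀
        linarith)
    (integrable_const _)
    (by
      rw [ae_restrict_iff' hKm]
      apply Eventually.of_forall
      intro t ht s hs
      exact hderiv t ht s hs)
  exact key.2.differentiableAt

/-- The domain of the parameter. -/
def cbU : Set ℂ := {c | c.im ≠ 0 ∨ 2 < c.re ∨ c.re < -2}

theorem cbU_open : IsOpen cbU := by
  have h1 : IsOpen {c : ℂ | c.im ≠ 0} := isOpen_ne_fun Complex.continuous_im continuous_const
  have h2 : IsOpen {c : ℂ | 2 < c.re} := isOpen_lt continuous_const Complex.continuous_re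
  have h3 : IsOpen {c : ℂ | c.re < -2} := isOpen_lt Complex.continuous_re continuous_const
  exact h1.union (h2.union h3)

theorem cb_tau (ϑ : ℝ) : ‖tau ϑ‖ = 1 := by
  unfold tau
  rw [mul_comm, Complex.norm_exp_ofReal_mul_I]

theorem cb_den {w w' : ℂ} (h : ‖w‖ < 1) (h' : ‖w'‖ < 1) : 1 - w * w' ≠ 0 := by
  intro h0
  have h1 : w * w' = 1 := (sub_eq_zero.1 h0).symm
  have h2 : ‖w * w'‖ = 1 := by rw [h1, norm_one]
  rw [norm_mul] at h2
  have : ‖w‖ * ‖w'‖ < 1 := by nlinarith [norm_nonneg w, norm_nonneg w']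
  linarith

theorem cb_continuousOn_W : ContinuousOn W Segᶜ := W_analytic.continuousOn

/-- continuity and differentiability of the building blocks -/
theorem cb_prodw_lt {j : ℕ} (hj : 0 < j) {c : ℂ} (hc : c ∈ cbU) (T : Fin j → ℝ) :
    ‖prodw W c (cv T)‖ < 1 := by
  unfold prodw cv
  rw [norm_prod]
  have h : ∀ i ∈ (Finset.univ : Finset (Fin j)), ‖W (c - Complex.cos (T i : ℂ))‖ < 1 := fun i _ =>
    norm_W_lt_one (sub_cos_notMem_Seg hc (T i))
  have h0 : (Finset.univ : Finset (Fin j)).Nonempty := ⟨⟨0, hj⟩, Finset.mem_univ _⟩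
  calc ∏ i, ‖W (c - Complex.cos (T i : ℂ))‖ < ∏ _i : Fin j, (1 : ℝ) := by
        apply Finset.prod_lt_prod_of_nonempty (fun i _ => ?_) (fun i hi => h i hi) h0
        exact norm_pos_iff.2 (W_ne_zero _)
    _ = 1 := by simp

theorem cb_den2 {j : ℕ} (hj : 0 < j) (ϑ : ℝ) {c : ℂ} (hc : c ∈ cbU) (T : Fin j → ℝ) :
    1 - tau ϑ * prodw W c (cv T) ≠ 0 := by
  intro h0
  have h1 : tau ϑ * prodw W c (cv T) = 1 := (sub_eq_zero.1 h0).symm
  have h2 : ‖tau ϑ * prodw W c (cv T)‖ = 1 := by rw [h1, norm_one]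
  rw [norm_mul, cb_tau, one_mul] at h2
  have := cb_prodw_lt hj hc T
  linarith

theorem cb_full_cont {d : ℕ} (ϑ : ℝ) (i : Fin (d + 1)) :
    Continuous (fun t : Fin d → ℝ => full ϑ t i) := by
  unfold full
  refine Fin.lastCases ?_ (fun i => ?_) i
  · simp only [Fin.snoc_last]
    fun_prop
  · simp only [Fin.snoc_castSucc]
    fun_prop

theorem cb_cont {X : Type*} [TopologicalSpace X] {j : ℕ} (hj : 0 < j) (ϑ : ℝ) {S : Set X}
    {C : X → ℂ} {T : X → Fin j → ℝ} (hC : ContinuousOn C S) (hT : ∀ i, Continuous fun x => T x i)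
    (hS : ∀ x ∈ S, C x ∈ cbU) :
    ContinuousOn (fun x => ker W (C x) (cv (T x)) *
      ((1 + tau ϑ * prodw W (C x) (cv (T x))) / (1 - tau ϑ * prodw W (C x) (cv (T x))))) S := by
  have hW : ∀ i, ContinuousOn (fun x => W (C x - Complex.cos (T x i : ℂ))) S := by
    intro i
    refine cb_continuousOn_W.comp (t := Segᶜ) (hC.sub ?_) (fun x hx => sub_cos_notMem_Seg (hS x hx) _)
    exact (Complex.continuous_cos.comp (Complex.continuous_ofReal.comp (hT i))).continuousOn
  have hE : ∀ i, ContinuousOn (fun x => Complex.exp (I * (T x i : ℂ))) S := by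
    intro i
    exact (Complex.continuous_exp.comp
      (continuous_const.mul (Complex.continuous_ofReal.comp (hT i)))).continuousOn
  have hlt : ∀ x ∈ S, ∀ i, ‖W (C x - Complex.cos (T x i : ℂ))‖ < 1 := fun x hx i =>
    norm_W_lt_one (sub_cos_notMem_Seg (hS x hx) _)
  have hP : ContinuousOn (fun x => prodw W (C x) (cv (T x))) S := by
    unfold prodw cv
    exact continuousOn_finsetProd _ fun i _ => hW i
  refine ContinuousOn.mul ?_ ((continuousOn_const.add (continuousOn_const.mul hP)).div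
    (continuousOn_const.sub (continuousOn_const.mul hP)) fun x hx => cb_den2 hj ϑ (hS x hx) _)
  unfold ker pairs HH cv
  refine ContinuousOn.mul (continuousOn_finsetProd _ fun i _ => ?_)
    (continuousOn_finsetProd _ fun i _ => continuousOn_finsetProd _ fun k _ => ?_)
  · refine (continuousOn_const.mul (hW i)).div (continuousOn_const.sub ((hW i).pow 2)) fun x hx => ?_
    rw [pow_two]
    exact cb_den (hlt x hx i) (hlt x hx i)
  · refine ContinuousOn.div (((((hE i).sub (hE k)).pow 2).mul ((hW i).mul (hW k))).neg)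
      (((hE i).mul (hE k)).mul ((continuousOn_const.sub ((hW i).mul (hW k))).pow 2)) fun x hx => ?_
    exact mul_ne_zero (mul_ne_zero (Complex.exp_ne_zero _) (Complex.exp_ne_zero _))
      (pow_ne_zero _ (cb_den (hlt x hx i) (hlt x hx k)))

theorem cb_diff {j : ℕ} (hj : 0 < j) (ϑ : ℝ) (T : Fin j → ℝ) :
    DifferentiableOn ℂ (fun c => ker W c (cv T) *
      ((1 + tau ϑ * prodw W c (cv T)) / (1 - tau ϑ * prodw W c (cv T)))) cbU := by
  have hW : ∀ i, DifferentiableOn ℂ (fun c => W (c - Complex.cos (T i : ℂ))) cbU := by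
    intro i
    refine (W_analytic.differentiableOn).comp (t := Segᶜ) ?_
      (fun x hx => sub_cos_notMem_Seg hx _)
    exact differentiableOn_id.sub_const _
  have hlt : ∀ x ∈ cbU, ∀ i, ‖W (x - Complex.cos (T i : ℂ))‖ < 1 := fun x hx i =>
    norm_W_lt_one (sub_cos_notMem_Seg hx _)
  have hP : DifferentiableOn ℂ (fun x => prodw W x (cv T)) cbU := by
    unfold prodw cv
    exact DifferentiableOn.fun_finsetProd fun i _ => hW i
  refine DifferentiableOn.mul ?_ (((differentiableOn_const _).add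
    ((differentiableOn_const _).mul hP)).div
    ((differentiableOn_const _).sub ((differentiableOn_const _).mul hP))
      fun x hx => cb_den2 hj ϑ hx _)
  unfold ker pairs HH cv
  refine DifferentiableOn.mul (DifferentiableOn.fun_finsetProd fun i _ => ?_)
    (DifferentiableOn.fun_finsetProd fun i _ => DifferentiableOn.fun_finsetProd fun k _ => ?_)
  · refine ((differentiableOn_const _).mul (hW i)).div
      ((differentiableOn_const _).sub ((hW i).pow 2)) fun x hx => ?_
    rw [pow_two]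
    exact cb_den (hlt x hx i) (hlt x hx i)
  · refine DifferentiableOn.div (((differentiableOn_const _).mul ((hW i).mul (hW k))).neg)
      ((differentiableOn_const _).mul (((differentiableOn_const _).sub
        ((hW i).mul (hW k))).pow 2)) fun x hx => ?_
    exact mul_ne_zero (mul_ne_zero (Complex.exp_ne_zero _) (Complex.exp_ne_zero _))
      (pow_ne_zero _ (cb_den (hlt x hx i) (hlt x hx k)))

theorem cb_box_compact (d : ℕ) : IsCompact (box d) := by
  unfold box
  exact isCompact_Icc

theorem chi_diff (d : ℕ) (ϑ : ℝ) :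
    DifferentiableOn ℂ (chi d ϑ) {c | c.im ≠ 0 ∨ 2 < c.re ∨ c.re < -2} := by
  change DifferentiableOn ℂ (chi d ϑ) cbU
  unfold chi
  refine DifferentiableOn.const_mul ?_ _
  refine cb_diff_integral cbU_open (cb_box_compact d) ?_ ?_
  · exact cb_cont (Nat.succ_pos d) ϑ (C := fun p : ℂ × (Fin d → ℝ) => p.1)
      (T := fun p => full ϑ p.2) continuousOn_fst
      (fun i => (cb_full_cont ϑ i).comp continuous_snd) (fun p hp => hp.1)
  · intro t _
    exact cb_diff (Nat.succ_pos d) ϑ (full ϑ t)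

theorem cb_pairs_bound (B : ℝ) (hB : 1 ≤ B) :
    ∃ A : ℝ, 1 ≤ A ∧ ∀ (j : ℕ) (c : ℂ) (x w : Fin j → ℂ), (∀ i, x i ≠ 0) → (∀ i, w i ≠ 0) →
      (∀ i, x i + (x i)⁻¹ + w i + (w i)⁻¹ = 2 * c) → (∀ i l, 1 - w i * w l ≠ 0) →
      (∀ i l, ‖(x i - x l) / (1 - w i * w l)‖ ≤ B) → (∀ i, ‖w i / x i‖ ≤ B) →
      ‖pairs x w‖ ^ 2 ≤ A ^ j * (j : ℝ) ^ j := by
  obtain ⟨A, hA, h⟩ := pairs_bound B hB 0
  refine ⟨A, hA, fun j c => ?_⟩
  have h1 := h j c
  have h2 : ∀ (x w : Fin (0 + j) → ℂ), (∀ i, x i ≠ 0) → (∀ i, w i ≠ 0) →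
      (∀ i, x i + (x i)⁻¹ + w i + (w i)⁻¹ = 2 * c) → (∀ i l, 1 - w i * w l ≠ 0) →
      (∀ i l, ‖(x i - x l) / (1 - w i * w l)‖ ≤ B) → (∀ i, ‖w i / x i‖ ≤ B) →
      ‖pairs x w‖ ^ 2 ≤ A ^ (0 + j) * ((0 + j : ℕ) : ℝ) ^ (0 + j) := by
    intro x w a1 a2 a3 a4 a5 a6
    refine (h1 x w a1 a2 a3 a4 a5 a6).trans (le_of_eq ?_)
    have : pairs (fun i : Fin 0 => x (Fin.castAdd j i)) (fun i : Fin 0 => w (Fin.castAdd j i)) = 1 := by
      unfold pairs
      simp
    rw [this]
    simp
  rw [Nat.zero_add] at h2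
  exact h2

theorem cb_exists_q {c1 : ℂ} (hc : c1 ∈ cbU) :
    ∃ δ > 0, Metric.closedBall c1 δ ⊆ cbU ∧ ∃ q : ℝ, 0 < q ∧ q < 1 ∧
      ∀ c ∈ Metric.closedBall c1 δ, ∀ t : ℝ, ‖W (c - Complex.cos t)‖ ≤ q := by
  obtain ⟨δ, hδ, hball⟩ := Metric.nhds_basis_closedBall.mem_iff.1 (cbU_open.mem_nhds hc)
  refine ⟨δ, hδ, hball, ?_⟩
  set K : Set ℂ := (fun p : ℂ × ℝ => p.1 - Complex.cos (p.2 : ℂ)) ''
    (Metric.closedBall c1 δ ×ˢ Icc (-π) π) with hK
  have hKc : IsCompact K := by
    apply ((isCompact_closedBall c1 δ).prod isCompact_Icc).image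
    exact continuous_fst.sub (Complex.continuous_cos.comp
      (Complex.continuous_ofReal.comp continuous_snd))
  have hKs : K ⊆ Segᶜ := by
    rintro _ ⟨p, hp, rfl⟩
    exact sub_cos_notMem_Seg (hball hp.1) _
  have hKne : K.Nonempty := ⟨_, (c1, 0), ⟨Metric.mem_closedBall_self hδ.le,
    ⟨by linarith [Real.pi_pos], Real.pi_pos.le⟩⟩, rfl⟩
  obtain ⟨u0, hu0, hmax⟩ := hKc.exists_isMaxOn hKne
    ((cb_continuousOn_W.mono hKs).norm)
  refine ⟨‖W u0‖, norm_pos_iff.2 (W_ne_zero _), norm_W_lt_one (hKs hu0), fun c hc' t => ?_⟩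
  obtain ⟨y, hy, hyt⟩ : ∃ y ∈ Icc (-π) π, Real.cos y = Real.cos t :=
    ⟨Real.arccos (Real.cos t), ⟨by linarith [Real.arccos_nonneg (Real.cos t), Real.pi_pos],
      Real.arccos_le_pi _⟩, Real.cos_arccos (Real.neg_one_le_cos t) (Real.cos_le_one t)⟩
  have h1 : c - Complex.cos t ∈ K := by
    refine ⟨(c, y), ⟨hc', hy⟩, ?_⟩
    simp only
    rw [← Complex.ofReal_cos, ← Complex.ofReal_cos, hyt]
  exact hmax h1

theorem chi_loc_bound (ϑ : ℝ) {c1 : ℂ} (hc : c1.im ≠ 0 ∨ 2 < c1.re ∨ c1.re < -2) :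
    ∃ δ > 0, ∃ A : ℝ, 1 ≤ A ∧ ∀ d : ℕ, ∀ c ∈ Metric.ball c1 δ, ‖chi d ϑ c‖ ≤ bd A (d + 1) := by
  obtain ⟨δ, hδ, hball, q, hq0, hq1, hq⟩ := cb_exists_q (show c1 ∈ cbU from hc)
  set D : ℝ := 2 / (1 - q) with hD
  have h1q : 0 < 1 - q := by linarith
  have hD1 : 1 ≤ D := by
    rw [hD, le_div_iff₀ h1q]
    linarith
  obtain ⟨A, hA, hp⟩ := cb_pairs_bound D hD1
  have hsA : 1 ≤ Real.sqrt A := by
    rw [Real.one_le_sqrt]
    exact hA
  refine ⟨δ, hδ, D * Real.sqrt A * D, ?_, fun d c hcb => ?_⟩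
  · have : 1 ≤ D * Real.sqrt A := by nlinarith
    nlinarith
  have hcc : c ∈ Metric.closedBall c1 δ := Metric.ball_subset_closedBall hcb
  have hcU : c ∈ cbU := hball hcc
  -- norm of `1 - w w'`
  have hden : ∀ w w' : ℂ, ‖w‖ ≤ q → ‖w'‖ ≤ 1 → 1 - q ≤ ‖1 - w * w'‖ := by
    intro w w' h h'
    have h3 : ‖w * w'‖ ≤ q := by
      rw [norm_mul]
      nlinarith [norm_nonneg w, norm_nonneg w']
    have h4 := norm_sub_norm_le (1 : ℂ) (w * w')
    rw [norm_one] at h4
    linarith
  have hG : ∀ T : Fin (d + 1) → ℝ, ‖ker W c (cv T) *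
      ((1 + tau ϑ * prodw W c (cv T)) / (1 - tau ϑ * prodw W c (cv T)))‖ ≤
        (D * Real.sqrt A * D) ^ (d + 1) * Real.sqrt (((d + 1 : ℕ) : ℝ) ^ (d + 1)) := by
    intro T
    have hw : ∀ i, ‖W (c - Complex.cos (T i : ℂ))‖ ≤ q := fun i => hq c hcc (T i)
    have hE : ∀ i, ‖Complex.exp (I * (T i : ℂ))‖ = 1 := fun i => by
      rw [mul_comm, Complex.norm_exp_ofReal_mul_I]
    have hpairs : ‖pairs (fun i => Complex.exp (I * (cv T i))) (fun i => W (c - Complex.cos (cv T i)))‖ ≤
        Real.sqrt (A ^ (d + 1) * ((d + 1 : ℕ) : ℝ) ^ (d + 1)) := by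
      apply Real.le_sqrt_of_sq_le
      apply hp (d + 1) c
      · intro i; exact Complex.exp_ne_zero _
      · intro i; exact W_ne_zero _
      · intro i
        have h1 := W_add_inv (c - Complex.cos (cv T i))
        have h2 : Complex.exp (I * cv T i) + (Complex.exp (I * cv T i))⁻¹ = 2 * Complex.cos (cv T i) := by
          rw [← Complex.exp_neg, Complex.two_cos, mul_comm I, neg_mul]
        linear_combination h1 + h2
      · intro i l
        exact cb_den ((hw i).trans_lt hq1) ((hw l).trans_lt hq1)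
      · intro i l
        rw [norm_div, hD]
        have h1 : ‖Complex.exp (I * cv T i) - Complex.exp (I * cv T l)‖ ≤ 2 := by
          refine (norm_sub_le _ _).trans ?_
          unfold cv
          rw [hE i, hE l]
          norm_num
        have h2 := hden _ _ (hw i) ((hw l).trans hq1.le)
        exact div_le_div₀ (by norm_num) h1 h1q h2
      · intro i
        rw [norm_div]
        unfold cv
        rw [hE i, div_one]
        exact (hw i).trans (hq1.le.trans hD1)
    have hprod : ‖∏ i, 2 * W (c - Complex.cos (cv T i)) / (1 - W (c - Complex.cos (cv T i)) ^ 2)‖ ≤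
        D ^ (d + 1) := by
      rw [norm_prod]
      calc _ ≤ ∏ _i : Fin (d + 1), D := by
            apply Finset.prod_le_prod (fun i _ => norm_nonneg _)
            intro i _
            rw [norm_div, norm_mul, pow_two, hD]
            have h2 := hden _ _ (hw i) ((hw i).trans hq1.le)
            have h3 : ‖(2 : ℂ)‖ * ‖W (c - Complex.cos (cv T i))‖ ≤ 2 := by
              have : ‖(2 : ℂ)‖ = 2 := by norm_num
              rw [this]
              have := hw i
              unfold cv
              linarith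
            exact div_le_div₀ (by norm_num) h3 h1q h2
        _ = D ^ (d + 1) := by simp
    have hpw : ‖prodw W c (cv T)‖ ≤ q := by
      unfold prodw cv
      rw [norm_prod, Fin.prod_univ_succ]
      have h1 : ∏ i : Fin d, ‖W (c - Complex.cos (T i.succ : ℂ))‖ ≤ 1 :=
        Finset.prod_le_one (fun i _ => norm_nonneg _) (fun i _ => (hw _).trans hq1.le)
      calc _ ≤ q * 1 := mul_le_mul (hw 0) h1 (Finset.prod_nonneg fun i _ => norm_nonneg _) hq0.le
        _ = q := mul_one q
    have hfrac : ‖(1 + tau ϑ * prodw W c (cv T)) / (1 - tau ϑ * prodw W c (cv T))‖ ≤ D := by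
      rw [norm_div, hD]
      have h1 : ‖tau ϑ * prodw W c (cv T)‖ ≤ q := by rw [norm_mul, cb_tau, one_mul]; exact hpw
      have h2 : ‖1 + tau ϑ * prodw W c (cv T)‖ ≤ 2 := by
        refine (norm_add_le _ _).trans ?_
        rw [norm_one]
        linarith
      have h3 : 1 - q ≤ ‖1 - tau ϑ * prodw W c (cv T)‖ := by
        have h4 := norm_sub_norm_le (1 : ℂ) (tau ϑ * prodw W c (cv T))
        rw [norm_one] at h4
        linarith
      exact div_le_div₀ (by norm_num) h2 h1q h3
    have hD0 : 0 ≤ D := by linarith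
    rw [norm_mul]
    have hker : ‖ker W c (cv T)‖ ≤ D ^ (d + 1) *
        Real.sqrt (A ^ (d + 1) * ((d + 1 : ℕ) : ℝ) ^ (d + 1)) := by
      unfold ker
      rw [norm_mul]
      exact mul_le_mul hprod hpairs (norm_nonneg _) (by positivity)
    have hsq : Real.sqrt (A ^ (d + 1) * ((d + 1 : ℕ) : ℝ) ^ (d + 1)) =
        Real.sqrt A ^ (d + 1) * Real.sqrt (((d + 1 : ℕ) : ℝ) ^ (d + 1)) := by
      rw [Real.sqrt_mul (by positivity)]
      congr 1
      rw [Real.sqrt_eq_iff_mul_self_eq (by positivity) (by positivity), ← mul_pow,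
        Real.mul_self_sqrt (by linarith)]
    rw [hsq] at hker
    have hDD : D ≤ D ^ (d + 1) := by
      calc D = D ^ 1 := (pow_one D).symm
        _ ≤ D ^ (d + 1) := pow_le_pow_right₀ hD1 (by omega)
    calc ‖ker W c (cv T)‖ * _ ≤ (D ^ (d + 1) * (Real.sqrt A ^ (d + 1) *
          Real.sqrt (((d + 1 : ℕ) : ℝ) ^ (d + 1)))) * D ^ (d + 1) :=
          mul_le_mul hker (hfrac.trans hDD) (norm_nonneg _) (by positivity)
      _ = _ := by rw [mul_pow, mul_pow]; ring
  -- the integral
  unfold chi bd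
  rw [norm_mul, norm_mul]
  have hvol : (volume.restrict (box d)).real univ = (2 * π) ^ d := by
    have h1 : volume (box d) = ENNReal.ofReal (∏ _i : Fin d, (π - (-π))) := by
      unfold box
      rw [Real.volume_Icc_pi, ENNReal.ofReal_prod_of_nonneg]
      intro i _
      linarith [Real.pi_pos]
    rw [Measure.real, Measure.restrict_apply_univ, h1, ENNReal.toReal_ofReal]
    · rw [Finset.prod_const, Finset.card_univ, Fintype.card_fin]
      congr 1
      ring
    · apply Finset.prod_nonneg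
      intro i _
      linarith [Real.pi_pos]
  have hint : ‖∫ t in box d, ker W c (cv (full ϑ t)) *
      ((1 + tau ϑ * prodw W c (cv (full ϑ t))) / (1 - tau ϑ * prodw W c (cv (full ϑ t))))‖ ≤
      ((D * Real.sqrt A * D) ^ (d + 1) * Real.sqrt (((d + 1 : ℕ) : ℝ) ^ (d + 1))) * (2 * π) ^ d := by
    have hfin : IsFiniteMeasure (volume.restrict (box d)) :=
      ⟨by rw [Measure.restrict_apply_univ]; exact (cb_box_compact d).measure_lt_top⟩
    have := norm_integral_le_of_norm_le_const (μ := volume.restrict (box d))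
      (f := fun t => ker W c (cv (full ϑ t)) *
        ((1 + tau ϑ * prodw W c (cv (full ϑ t))) / (1 - tau ϑ * prodw W c (cv (full ϑ t)))))
      (Eventually.of_forall fun t => hG (full ϑ t))
    rw [hvol] at this
    exact this
  have hn1 : ‖(1 / ((d + 1).factorial : ℂ))‖ = 1 / ((d + 1).factorial : ℝ) := by
    rw [norm_div, norm_one, Complex.norm_natCast]
  have hn2 : ‖((1 : ℂ) / (2 * π)) ^ d‖ = 1 / (2 * π) ^ d := by
    rw [norm_pow, norm_div, norm_one, norm_mul, Complex.norm_real, Real.norm_of_nonneg Real.pi_pos.le]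
    have : ‖(2 : ℂ)‖ = 2 := by norm_num
    rw [this, div_pow, one_pow]
  rw [hn1, hn2]
  have hpi : (0 : ℝ) < (2 * π) ^ d := by positivity
  calc _ ≤ 1 / ((d + 1).factorial : ℝ) * (1 / (2 * π) ^ d) *
        (((D * Real.sqrt A * D) ^ (d + 1) * Real.sqrt (((d + 1 : ℕ) : ℝ) ^ (d + 1))) * (2 * π) ^ d) :=
        mul_le_mul_of_nonneg_left hint (by positivity)
    _ = _ := by
      field_simp

end

end IsingNB
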