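import Mathlib

/-!
# Holomorphic dependence on a parameter of an integral over a compact set
-/

namespace IsingNB

open Complex Set MeasureTheory Filter Topology Metric

/-- An integral over a compact set depends holomorphically on a parameter if the integrand
is jointly continuous and holomorphic in the parameter. -/
theorem Dfm.differentiableOn_setIntegral {X : Type*} [TopologicalSpace X]
    [MeasurableSpace X] [OpensMeasurableSpace X] [T2Space X] {μ : Measure X} [IsFiniteMeasureOnCompacts μ]
    [SecondCountableTopology X] {K : Set X} (hK : IsCompact K) {V : Set ℂ} (hV : IsOpen V)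
    {G : ℂ → X → ℂ} (hG : ContinuousOn (fun p : ℂ × X => G p.1 p.2) (V ×ˢ K))
    (hd : ∀ x ∈ K, DifferentiableOn ℂ (fun z => G z x) V) :
    DifferentiableOn ℂ (fun z => ∫ x in K, G z x ∂μ) V := by
  intro z₀ hz₀
  apply DifferentiableAt.differentiableWithinAt
  obtain ⟨δ', hδ', hball'⟩ := Metric.nhds_basis_closedBall.mem_iff.1 (hV.mem_nhds hz₀)
  set δ : ℝ := δ' / 2 with hδdef
  have hδ : 0 < δ := by positivity
  have hball : closedBall z₀ (2 * δ) ⊆ V := by
    have : 2 * δ = δ' := by rw [hδdef]; ring
    rw [this]
    exact hball'
  have hKm : MeasurableSet K := hK.measurableSet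
  have hsec : ∀ z ∈ V, ContinuousOn (G z) K := by
    intro z hz
    have : ContinuousOn (fun x : X => (z, x)) K := by fun_prop
    exact hG.comp this (fun t ht => ⟨hz, ht⟩)
  have hmeas : ∀ z ∈ V, AEStronglyMeasurable (G z) (μ.restrict K) := by
    intro z hz
    exact (hsec z hz).aestronglyMeasurable hKm
  have hcomp : IsCompact (closedBall z₀ (2 * δ) ×ˢ K) := (isCompact_closedBall _ _).prod hK
  obtain ⟨M, hM⟩ := hcomp.exists_bound_of_continuousOn (hG.mono (prod_mono_left hball))
  have hsub : ball z₀ δ ⊆ V := fun x hx => hball (by
    rw [mem_closedBall]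
    rw [mem_ball] at hx
    linarith)
  have hderiv : ∀ t ∈ K, ∀ s ∈ ball z₀ δ,
      HasDerivAt (fun x => G x t) (deriv (fun x => G x t) s) s := by
    intro t ht s hs
    exact ((hd t ht).differentiableAt (hV.mem_nhds (hsub hs))).hasDerivAt
  have key := hasDerivAt_integral_of_dominated_loc_of_deriv_le (μ := μ.restrict K)
    (F := G) (F' := fun s t => deriv (fun x => G x t) s) (x₀ := z₀) (s := ball z₀ δ)
    (bound := fun _ => M / δ) (ball_mem_nhds z₀ hδ)
    (by
      filter_upwards [hV.mem_nhds hz₀] with s hs
      exact hmeas s hs)
    ((hsec z₀ hz₀).integrableOn_compact hK)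
    (by
      have hh : Tendsto (fun n : ℕ => ((δ / (n + 1) : ℝ) : ℂ)) atTop (𝓝[≠] 0) := by
        rw [tendsto_nhdsWithin_iff]
        constructor
        · rw [← ofReal_zero]
          apply (continuous_ofReal.tendsto 0).comp
          exact tendsto_const_nhds.div_atTop (tendsto_natCast_atTop_atTop.atTop_add tendsto_const_nhds)
        · apply Eventually.of_forall
          intro n
          simp only [mem_compl_iff, mem_singleton_iff]
          have : (δ / (n + 1) : ℝ) ≠ 0 := by positivity
          exact_mod_cast this
      apply aestronglyMeasurable_of_tendsto_ae (u := (atTop : Filter ℕ))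
        (f := fun n t => ((δ / (n + 1) : ℝ) : ℂ)⁻¹ • (G (z₀ + ((δ / (n + 1) : ℝ) : ℂ)) t - G z₀ t))
      · intro n
        refine (AEStronglyMeasurable.sub (hmeas _ ?_) (hmeas z₀ hz₀)).const_smul
          (((δ / (n + 1) : ℝ) : ℂ)⁻¹)
        apply hball
        rw [mem_closedBall, dist_eq_norm, add_sub_cancel_left, norm_real, Real.norm_of_nonneg (by positivity)]
        have : δ / (n + 1) ≤ δ := div_le_self hδ.le (by linarith [(Nat.cast_nonneg n : (0 : ℝ) ≤ n)])
        linarith
      · rw [ae_restrict_iff' hKm]
        apply Eventually.of_forall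
        intro t ht
        have h1 := hderiv t ht z₀ (mem_ball_self hδ)
        rw [hasDerivAt_iff_tendsto_slope_zero] at h1
        exact h1.comp hh)
    (by
      rw [ae_restrict_iff' hKm]
      apply Eventually.of_forall
      intro t ht s hs
      apply norm_deriv_le_of_forall_mem_sphere_norm_le hδ
      · have hsub2 : closedBall s δ ⊆ V := by
          intro x hx
          apply hball
          rw [mem_closedBall] at hx ⊢
          rw [mem_ball] at hs
          calc dist x z₀ ≤ dist x s + dist s z₀ := dist_triangle _ _ _
            _ ≤ 2 * δ := by linarith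
        exact ((hd t ht).mono hsub2).diffContOnCl_ball (Subset.refl _)
      · intro z hz
        have : (z, t) ∈ closedBall z₀ (2 * δ) ×ˢ K := by
          refine ⟨?_, ht⟩
          rw [mem_closedBall]
          rw [mem_sphere] at hz
          rw [mem_ball] at hs
          calc dist z z₀ ≤ dist z s + dist s z₀ := dist_triangle _ _ _
            _ ≤ 2 * δ := by linarith
        exact hM (z, t) this)
    ((continuousOn_const (c := M / δ)).integrableOn_compact hK)
    (by
      rw [ae_restrict_iff' hKm]
      exact Eventually.of_forall (fun t ht s hs => hderiv t ht s hs))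
  exact key.2.differentiableAt

end IsingNB
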