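import Pool.Agent.Helper98.NB.Defs

/-!
# NB-10: change of variables on the torus
-/

namespace IsingNB

open Complex Set MeasureTheory Filter Topology
open scoped Real

noncomputable section

namespace RC

/-- The half open cube. -/
def hbox (d : ℕ) : Set (Fin d → ℝ) := Set.pi univ (fun _ => Ico (-π) π)

/-- The lattice of the periods. -/
def Lat (d : ℕ) : AddSubgroup (Fin d → ℝ) :=
  AddSubgroup.closure (range fun i : Fin d => Pi.single i (2 * π))

theorem single_mem {d : ℕ} (i : Fin d) : (Pi.single i (2 * π) : Fin d → ℝ) ∈ Lat d :=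
  AddSubgroup.subset_closure ⟨i, rfl⟩

/-- lattice vectors have coordinates in `2πℤ` -/
theorem coord {d : ℕ} {g : Fin d → ℝ} (hg : g ∈ Lat d) (i : Fin d) : ∃ k : ℤ, g i = k * (2 * π) := by
  induction hg using AddSubgroup.closure_induction with
  | mem x hx =>
    obtain ⟨l, rfl⟩ := hx
    by_cases h : i = l
    · subst h
      exact ⟨1, by simp⟩
    · exact ⟨0, by simp [h]⟩
  | zero => exact ⟨0, by simp⟩
  | add x y _ _ hx hy =>
    obtain ⟨k, hk⟩ := hx
    obtain ⟨l, hl⟩ := hy
    exact ⟨k + l, by rw [Pi.add_apply, hk, hl]; push_cast; ring⟩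
  | neg x _ hx =>
    obtain ⟨k, hk⟩ := hx
    exact ⟨-k, by rw [Pi.neg_apply, hk]; push_cast; ring⟩

/-- every vector with coordinates in `2πℤ` is in the lattice -/
theorem mem_of {d : ℕ} (k : Fin d → ℤ) : (fun i => (k i : ℝ) * (2 * π)) ∈ Lat d := by
  have h : (fun i => (k i : ℝ) * (2 * π)) = ∑ l, k l • (Pi.single l (2 * π) : Fin d → ℝ) := by
    funext i
    rw [Finset.sum_apply, Finset.sum_eq_single i]
    · simp
    · intro l _ hl
      simp [Ne.symm hl]
    · intro h
      exact absurd (Finset.mem_univ i) h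
  rw [h]
  exact sum_mem fun l _ => zsmul_mem (single_mem l) _

theorem exists_unique_mem {d : ℕ} (x : Fin d → ℝ) : ∃! g : Lat d, g +ᵥ x ∈ hbox d := by
  have h2 : (0 : ℝ) < 2 * π := by positivity
  have hex : ∀ i, ∃ k : ℤ, (k : ℝ) * (2 * π) + x i ∈ Ico (-π) π := by
    intro i
    obtain ⟨m, hm, -⟩ := existsUnique_add_zsmul_mem_Ico h2 (x i) (-π)
    refine ⟨m, ?_⟩
    have h3 : (m : ℝ) * (2 * π) + x i = x i + m • (2 * π) := by
      rw [zsmul_eq_mul]
      ring
    rw [h3]
    have h4 : -π + 2 * π = π := by ring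
    rw [h4] at hm
    exact hm
  choose k hk using hex
  refine ⟨⟨fun i => (k i : ℝ) * (2 * π), mem_of k⟩, ?_, ?_⟩
  · intro i _
    exact hk i
  · rintro ⟨g, hg⟩ hgx
    apply Subtype.ext
    funext i
    obtain ⟨l, hl⟩ := coord hg i
    have h5 : g i + x i ∈ Ico (-π) π := hgx i (mem_univ i)
    rw [hl] at h5
    show g i = (k i : ℝ) * (2 * π)
    rw [hl]
    have h6 := hk i
    have h7 : |(l : ℝ) - k i| * (2 * π) < 2 * π := by
      rw [← abs_of_pos h2, ← abs_mul, abs_of_pos h2, abs_lt]
      constructor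
      · nlinarith [h5.1, h5.2, h6.1, h6.2]
      · nlinarith [h5.1, h5.2, h6.1, h6.2]
    have h8 : |(l : ℝ) - k i| < 1 := by
      by_contra hcon
      push Not at hcon
      nlinarith
    have h9 : |l - k i| < 1 := by exact_mod_cast h8
    have h10 : l = k i := by
      rw [Int.abs_lt_one_iff] at h9
      omega
    rw [h10]

instance countable_Lat (d : ℕ) : Countable (Lat d) := by
  have hs : Function.Surjective (fun k : Fin d → ℤ =>
      (⟨fun i => (k i : ℝ) * (2 * π), mem_of k⟩ : Lat d)) := by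
    rintro ⟨g, hg⟩
    choose k hk using fun i => coord hg i
    refine ⟨k, Subtype.ext ?_⟩
    funext i
    exact (hk i).symm
  exact hs.countable

theorem measurableSet_hbox (d : ℕ) : MeasurableSet (hbox d) :=
  MeasurableSet.univ_pi fun _ => measurableSet_Ico

theorem isFundamental_hbox (d : ℕ) : IsAddFundamentalDomain (Lat d) (hbox d) volume :=
  IsAddFundamentalDomain.mk' (measurableSet_hbox d).nullMeasurableSet exists_unique_mem

theorem per_all {d : ℕ} {X : Type*} {F : (Fin d → ℝ) → X}
    (hper : ∀ t i, F (t + Pi.single i (2 * π)) = F t) {g : Fin d → ℝ} (hg : g ∈ Lat d) :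
    ∀ t, F (t + g) = F t := by
  induction hg using AddSubgroup.closure_induction with
  | mem x hx =>
    obtain ⟨l, rfl⟩ := hx
    intro t
    exact hper t l
  | zero => intro t; rw [add_zero]
  | add x y _ _ hx hy =>
    intro t
    rw [← add_assoc, hy, hx]
  | neg x _ hx =>
    intro t
    have := hx (t + -x)
    rw [neg_add_cancel_right] at this
    exact this.symm

theorem box_ae_eq (d : ℕ) : (hbox d : Set (Fin d → ℝ)) =ᵐ[volume] box d :=
  Measure.univ_pi_Ico_ae_eq_Icc

end RC

open RC

theorem real_change {d : ℕ} (F : (Fin d → ℝ) → ℂ) (_hF : Continuous F)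
    (hper : ∀ t i, F (t + Pi.single i (2 * π)) = F t)
    (e : (Fin d → ℝ) → (Fin d → ℝ)) (L : (Fin d → ℝ) → (Fin d → ℝ) →L[ℝ] (Fin d → ℝ))
    (hL : ∀ t, HasFDerivAt e (L t) t) (_hLc : Continuous L)
    (heper : ∀ t i, e (t + Pi.single i (2 * π)) = e t) (hsmall : ∀ t, ‖L t‖ ≤ 1 / 2) :
    ∫ t in box d, F (t + e t) *
        ((Matrix.det (1 + Matrix.of fun i k => L t (Pi.single k 1) i) : ℝ) : ℂ) =
      ∫ t in box d, F t := by
  classical
  -- `e` is a contraction
  have hlip : LipschitzWith (1 / 2) e := by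
    apply lipschitzWith_of_nnnorm_fderiv_le (𝕜 := ℝ) (fun t => (hL t).differentiableAt)
    intro t
    rw [(hL t).fderiv, ← NNReal.coe_le_coe, coe_nnnorm]
    simpa using hsmall t
  have hlip' : ∀ s t, ‖e s - e t‖ ≤ 1 / 2 * ‖s - t‖ := by
    intro s t
    have := hlip.dist_le_mul s t
    rw [dist_eq_norm, dist_eq_norm] at this
    simpa using this
  set Ψ : (Fin d → ℝ) → (Fin d → ℝ) := fun t => t + e t with hΨ
  have hinj : Function.Injective Ψ := by
    intro s t hst
    have h1 : s - t = -(e s - e t) := by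
      have h2 : s + e s = t + e t := hst
      have h3 : s - t = e t - e s := by
        rw [sub_eq_sub_iff_add_eq_add, h2, add_comm]
      rw [h3, neg_sub]
    have h2 : ‖s - t‖ ≤ 1 / 2 * ‖s - t‖ := by
      calc ‖s - t‖ = ‖e s - e t‖ := by rw [h1, norm_neg]
        _ ≤ _ := hlip' s t
    have h3 : ‖s - t‖ = 0 := by linarith [norm_nonneg (s - t)]
    exact sub_eq_zero.mp (norm_eq_zero.mp h3)
  have hsurj : Function.Surjective Ψ := by
    intro y
    have hc : ContractingWith (1 / 2) (fun t => y - e t) := by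
      refine ⟨by norm_num, ?_⟩
      apply LipschitzWith.of_dist_le_mul
      intro s t
      rw [dist_eq_norm, dist_eq_norm]
      have h1 : y - e s - (y - e t) = -(e s - e t) := by abel
      rw [h1, norm_neg]
      simpa using hlip' s t
    have hfix : y - e (hc.fixedPoint (fun t => y - e t)) = hc.fixedPoint (fun t => y - e t) :=
      hc.fixedPoint_isFixedPt
    refine ⟨hc.fixedPoint (fun t => y - e t), ?_⟩
    show hc.fixedPoint (fun t => y - e t) + e (hc.fixedPoint (fun t => y - e t)) = y
    nth_rewrite 1 [← hfix]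
    abel
  have hder : ∀ t, HasFDerivAt Ψ (ContinuousLinearMap.id ℝ _ + L t) t := fun t =>
    (hasFDerivAt_id t).add (hL t)
  have hcont : Continuous Ψ := continuous_iff_continuousAt.mpr fun t => (hder t).continuousAt
  -- determinants
  have hdet : ∀ t, Matrix.det (1 + Matrix.of fun i k => L t (Pi.single k 1) i) =
      (ContinuousLinearMap.id ℝ _ + L t).det := by
    intro t
    have h1 : (1 + Matrix.of fun i k => L t (Pi.single k 1) i) =
        LinearMap.toMatrix' ((ContinuousLinearMap.id ℝ (Fin d → ℝ) + L t :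
          (Fin d → ℝ) →L[ℝ] (Fin d → ℝ)) : (Fin d → ℝ) →ₗ[ℝ] (Fin d → ℝ)) := by
      ext i k
      rw [LinearMap.toMatrix'_apply]
      simp only [Matrix.add_apply, Matrix.of_apply, ContinuousLinearMap.coe_coe,
        _root_.add_apply, ContinuousLinearMap.id_apply, Pi.add_apply]
      congr 1
      by_cases h : i = k
      · subst h; simp
      · simp [h]
    rw [h1, LinearMap.det_toMatrix']
  have hpos : ∀ t, 0 < (ContinuousLinearMap.id ℝ (Fin d → ℝ) + L t).det := by
    intro t
    rw [← hdet]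
    set A : Matrix (Fin d) (Fin d) ℝ := Matrix.of fun i k => L t (Pi.single k 1) i with hA
    by_contra hneg
    push Not at hneg
    have hc : Continuous (fun s : ℝ => Matrix.det (1 + s • A)) := by
      apply Continuous.matrix_det
      fun_prop
    have h0 : Matrix.det (1 + (0 : ℝ) • A) = 1 := by simp
    have h1 : Matrix.det (1 + (1 : ℝ) • A) ≤ 0 := by simpa using hneg
    obtain ⟨s, hs, hs0⟩ := intermediate_value_Icc' (zero_le_one (α := ℝ)) hc.continuousOn
      (show (0 : ℝ) ∈ Icc _ _ from ⟨h1, by rw [h0]; exact zero_le_one⟩)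
    obtain ⟨v, hv, hv0⟩ := Matrix.exists_mulVec_eq_zero_iff.mpr hs0
    have hAv : A.mulVec v = L t v := by
      have h3 : A = LinearMap.toMatrix' ((L t : (Fin d → ℝ) →L[ℝ] (Fin d → ℝ)) :
          (Fin d → ℝ) →ₗ[ℝ] (Fin d → ℝ)) := by
        ext i k
        rw [LinearMap.toMatrix'_apply]
        rfl
      rw [h3, ← Matrix.toLin'_apply, Matrix.toLin'_toMatrix']
      rfl
    rw [Matrix.add_mulVec, Matrix.one_mulVec, Matrix.smul_mulVec, hAv] at hv0
    have h4 : ‖v‖ ≤ 1 / 2 * ‖v‖ := by
      have h5 : v = -(s • L t v) := eq_neg_of_add_eq_zero_left hv0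
      calc ‖v‖ = ‖s • L t v‖ := by
            conv_lhs => rw [h5]
            rw [norm_neg]
        _ = |s| * ‖L t v‖ := by rw [norm_smul, Real.norm_eq_abs]
        _ ≤ 1 * (‖L t‖ * ‖v‖) := by
            apply mul_le_mul _ ((L t).le_opNorm v) (norm_nonneg _) zero_le_one
            rw [abs_le]
            constructor <;> linarith [hs.1, hs.2]
        _ ≤ 1 / 2 * ‖v‖ := by
            rw [one_mul]
            exact mul_le_mul_of_nonneg_right (hsmall t) (norm_nonneg _)
    have h6 : ‖v‖ = 0 := by linarith [norm_nonneg v]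
    exact hv (norm_eq_zero.mp h6)
  -- the image of the cube is a fundamental domain
  have hfund : IsAddFundamentalDomain (Lat d) (Ψ '' hbox d) volume := by
    apply IsAddFundamentalDomain.mk'
    · exact ((measurableSet_hbox d).image_of_continuousOn_injOn hcont.continuousOn
        hinj.injOn).nullMeasurableSet
    · intro x
      obtain ⟨t, rfl⟩ := hsurj x
      have hequiv : ∀ g : Lat d, g +ᵥ Ψ t ∈ Ψ '' hbox d ↔ g +ᵥ t ∈ hbox d := by
        intro g
        have h1 : g +ᵥ Ψ t = Ψ (g +ᵥ t) := by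
          show (g : Fin d → ℝ) + (t + e t) = ((g : Fin d → ℝ) + t) + e ((g : Fin d → ℝ) + t)
          rw [add_comm (g : Fin d → ℝ) t, per_all heper g.2 t]
          abel
        rw [h1, hinj.mem_set_image]
      obtain ⟨g, hg, huniq⟩ := exists_unique_mem t
      refine ⟨g, (hequiv g).mpr hg, ?_⟩
      intro g' hg'
      exact huniq g' ((hequiv g').mp hg')
  have hFper : ∀ (g : Lat d) (x : Fin d → ℝ), F (g +ᵥ x) = F x := by
    intro g x
    show F ((g : Fin d → ℝ) + x) = F x
    rw [add_comm]
    exact per_all hper g.2 x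
  have key := (isFundamental_hbox d).setIntegral_eq hfund hFper
  rw [← setIntegral_congr_set (box_ae_eq d), ← setIntegral_congr_set (box_ae_eq d), key,
    integral_image_eq_integral_abs_det_fderiv_smul volume (measurableSet_hbox d)
      (fun t _ => (hder t).hasFDerivWithinAt) hinj.injOn]
  apply setIntegral_congr_fun (measurableSet_hbox d)
  intro t _
  show F (t + e t) * ((Matrix.det (1 + Matrix.of fun i k => L t (Pi.single k 1) i) : ℝ) : ℂ) =
    |(ContinuousLinearMap.id ℝ (Fin d → ℝ) + L t).det| • F (t + e t)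
  rw [hdet, abs_of_pos (hpos t), Complex.real_smul, mul_comm]

end

end IsingNB
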