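import Pool.Agent.Helper98.NB.Defs
import Pool.Agent.Helper98.NB.Param
import Pool.Agent.Helper98.NB.RealChange

/-!
# The deformation lemma
-/

namespace IsingNB

open Complex Set MeasureTheory Filter Topology
open scoped Real

noncomputable section

namespace Dfm

theorem isCompact_box (d : ℕ) : IsCompact (box d) := isCompact_Icc

theorem continuous_cv {d : ℕ} : Continuous (cv : (Fin d → ℝ) → (Fin d → ℂ)) :=
  continuous_pi fun i => continuous_ofReal.comp (continuous_apply i)

theorem isOpen_good {d : ℕ} {U : Set (Fin d → ℂ)} (hU : IsOpen U)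
    {a b : (Fin d → ℝ) → (Fin d → ℂ)} (ha : Continuous a) (hb : Continuous b) :
    IsOpen {z : ℂ | ∀ t ∈ box d, a t + z • b t ∈ U} := by
  rw [isOpen_iff_mem_nhds]
  intro z₀ hz₀
  have hc : Continuous fun p : ℂ × (Fin d → ℝ) => a p.2 + p.1 • b p.2 := by fun_prop
  refine (isCompact_box d).eventually_forall_of_forall_eventually
    (P := fun z t => a t + z • b t ∈ U) fun t ht => ?_
  exact (hU.preimage hc).mem_nhds (hz₀ t ht)

theorem exists_good_pair {d : ℕ} {U : Set (Fin d → ℂ)} (hU : IsOpen U)
    {a b c : (Fin d → ℝ) → (Fin d → ℂ)} (ha : Continuous a) (hb : Continuous b) (hc : Continuous c)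
    (h0 : ∀ t ∈ box d, a t ∈ U) :
    ∃ r > 0, ∀ z w : ℂ, ‖z‖ < r → ‖w‖ < r → ∀ t ∈ box d, a t + z • b t + w • c t ∈ U := by
  have hcont : Continuous fun p : (ℂ × ℂ) × (Fin d → ℝ) => a p.2 + p.1.1 • b p.2 + p.1.2 • c p.2 := by
    fun_prop
  have h1 : ∀ᶠ p : ℂ × ℂ in 𝓝 (0, 0), ∀ t ∈ box d, a t + p.1 • b t + p.2 • c t ∈ U := by
    refine (isCompact_box d).eventually_forall_of_forall_eventually
      (P := fun (p : ℂ × ℂ) t => a t + p.1 • b t + p.2 • c t ∈ U) fun t ht => ?_
    refine (hU.preimage hcont).mem_nhds ?_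
    simpa using h0 t ht
  obtain ⟨r, hr, h2⟩ := Metric.eventually_nhds_iff.1 h1
  refine ⟨r, hr, fun z w hz hw => h2 (y := (z, w)) ?_⟩
  rw [Prod.dist_eq, max_lt_iff]
  simpa using ⟨hz, hw⟩

theorem deform_aux {d : ℕ} {U : Set (Fin d → ℂ)} {F : (Fin d → ℂ) → ℂ}
    (hF : AnalyticOnNhd ℂ F U) {a b : (Fin d → ℝ) → (Fin d → ℂ)} (ha : Continuous a)
    (hb : Continuous b) {A B : (Fin d → ℝ) → Matrix (Fin d) (Fin d) ℂ} (hA : Continuous A)
    (hB : Continuous B) {V : Set ℂ} (hV : IsOpen V)
    (hVU : ∀ z ∈ V, ∀ t ∈ box d, a t + z • b t ∈ U) :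
    DifferentiableOn ℂ (fun z => ∫ t in box d, F (a t + z • b t) * Matrix.det (A t + z • B t)) V := by
  apply differentiableOn_setIntegral (isCompact_box d) hV
  · apply ContinuousOn.mul
    · have h1 : Continuous fun p : ℂ × (Fin d → ℝ) => a p.2 + p.1 • b p.2 := by fun_prop
      exact hF.continuousOn.comp h1.continuousOn fun p hp => hVU p.1 hp.1 p.2 hp.2
    · have h2 : Continuous fun p : ℂ × (Fin d → ℝ) => Matrix.det (A p.2 + p.1 • B p.2) :=
        Continuous.matrix_det (by fun_prop)
      exact h2.continuousOn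
  · intro t ht
    apply DifferentiableOn.mul
    · intro z hz
      have h1 : DifferentiableAt ℂ F (a t + z • b t) := (hF _ (hVU z hz t ht)).differentiableAt
      have h2 : DifferentiableAt ℂ (fun z : ℂ => a t + z • b t) z := by fun_prop
      exact (h1.comp z h2).differentiableWithinAt
    · have h3 : Differentiable ℂ fun z : ℂ => Matrix.det (A t + z • B t) := by
        simp only [Matrix.det_apply, Matrix.add_apply, Matrix.smul_apply, smul_eq_mul]
        fun_prop
      exact h3.differentiableOn

theorem eq_of_real_eq {f : ℂ → ℂ} {r : ℝ} (hr : 0 < r) (hf : DifferentiableOn ℂ f (Metric.ball 0 r))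
    {c : ℂ} (h : ∀ x : ℝ, |x| < r → f x = c) : ∀ z, ‖z‖ < r → f z = c := by
  have h1 : AnalyticOnNhd ℂ f (Metric.ball 0 r) := hf.analyticOnNhd Metric.isOpen_ball
  have h2 : AnalyticOnNhd ℂ (fun _ : ℂ => c) (Metric.ball 0 r) := analyticOnNhd_const
  have h3 : ∃ᶠ z in 𝓝[≠] (0 : ℂ), f z = c := by
    have hh : Tendsto (fun n : ℕ => ((r / (n + 2) : ℝ) : ℂ)) atTop (𝓝[≠] 0) := by
      rw [tendsto_nhdsWithin_iff]
      constructor
      · rw [← ofReal_zero]
        apply (continuous_ofReal.tendsto 0).comp
        exact tendsto_const_nhds.div_atTop (tendsto_natCast_atTop_atTop.atTop_add tendsto_const_nhds)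
      · apply Eventually.of_forall
        intro n
        simp only [mem_compl_iff, mem_singleton_iff]
        have : (r / (n + 2) : ℝ) ≠ 0 := by positivity
        exact_mod_cast this
    refine hh.frequently (Eventually.frequently (Eventually.of_forall fun n => ?_))
    apply h
    rw [abs_of_pos (by positivity)]
    apply div_lt_self hr
    have : (0 : ℝ) ≤ n := Nat.cast_nonneg n
    linarith
  have h4 := h1.eqOn_of_preconnected_of_frequently_eq h2 (convex_ball 0 r).isPreconnected
    (Metric.mem_ball_self hr) h3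
  intro z hz
  exact h4 (by simpa using hz)

theorem periodic_add_sum {d : ℕ} {X : Type*} {g : (Fin d → ℝ) → X}
    (hg : ∀ t i, g (t + Pi.single i (2 * π)) = g t) (n : Fin d → ℤ) (s : Finset (Fin d))
    (t : Fin d → ℝ) : g (t + ∑ i ∈ s, n i • (Pi.single i (2 * π) : Fin d → ℝ)) = g t := by
  classical
  induction s using Finset.induction_on with
  | empty => simp
  | insert i s his ih =>
    rw [Finset.sum_insert his, add_comm (n i • _), ← add_assoc]
    have hp : Function.Periodic g (Pi.single i (2 * π) : Fin d → ℝ) := fun t => hg t i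
    rw [(hp.zsmul (n i)) _, ih]

theorem exists_mem_box {d : ℕ} {X : Type*} {g : (Fin d → ℝ) → X}
    (hg : ∀ t i, g (t + Pi.single i (2 * π)) = g t) (t : Fin d → ℝ) : ∃ s ∈ box d, g s = g t := by
  classical
  refine ⟨_, ?_, periodic_add_sum hg (fun i => -round (t i / (2 * π))) Finset.univ t⟩
  have hval : ∀ j, (t + ∑ i : Fin d, (-round (t i / (2 * π))) •
      (Pi.single i (2 * π) : Fin d → ℝ)) j = t j - round (t j / (2 * π)) * (2 * π) := by
    intro j
    rw [Pi.add_apply, Finset.sum_apply, Finset.sum_eq_single j]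
    · simp only [Pi.smul_apply, Pi.single_eq_same, zsmul_eq_mul, Int.cast_neg]
      ring
    · intro i _ hij
      simp [Pi.single_eq_of_ne' hij]
    · simp
  have hb : ∀ j, |t j - round (t j / (2 * π)) * (2 * π)| ≤ π := by
    intro j
    have h1 := abs_sub_round (t j / (2 * π))
    have h2 : t j - round (t j / (2 * π)) * (2 * π) =
        (t j / (2 * π) - round (t j / (2 * π))) * (2 * π) := by
      field_simp
    rw [h2, abs_mul, abs_of_pos (by positivity : (0 : ℝ) < 2 * π)]
    nlinarith [Real.pi_pos]
  rw [box, mem_Icc]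
  constructor
  · intro j
    rw [hval j]
    exact (abs_le.1 (hb j)).1
  · intro j
    rw [hval j]
    exact (abs_le.1 (hb j)).2

/-- real part as a real linear map -/
def reL (d : ℕ) : (Fin d → ℂ) →L[ℝ] (Fin d → ℝ) :=
  ContinuousLinearMap.pi fun i => Complex.reCLM.comp (ContinuousLinearMap.proj i)

/-- imaginary part as a real linear map -/
def imL (d : ℕ) : (Fin d → ℂ) →L[ℝ] (Fin d → ℝ) :=
  ContinuousLinearMap.pi fun i => Complex.imCLM.comp (ContinuousLinearMap.proj i)

@[simp] theorem reL_apply {d : ℕ} (z : Fin d → ℂ) (i : Fin d) : reL d z i = (z i).re := rfl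
@[simp] theorem imL_apply {d : ℕ} (z : Fin d → ℂ) (i : Fin d) : imL d z i = (z i).im := rfl

theorem cv_add {d : ℕ} (s t : Fin d → ℝ) : cv (s + t) = cv s + cv t := by
  funext i
  simp [cv]

theorem cv_smul {d : ℕ} (x : ℝ) (t : Fin d → ℝ) : cv (x • t) = (x : ℂ) • cv t := by
  funext i
  simp [cv]

theorem cv_single {d : ℕ} (i : Fin d) (x : ℝ) : cv (Pi.single i x : Fin d → ℝ) = Pi.single i (x : ℂ) := by
  funext j
  by_cases h : j = i
  · subst h; simp [cv]
  · simp [cv, Pi.single_eq_of_ne h]

theorem cv_re_add_im {d : ℕ} (z : Fin d → ℂ) : cv (reL d z) + I • cv (imL d z) = z := by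
  funext i
  simp only [cv, Pi.add_apply, Pi.smul_apply, reL_apply, imL_apply, smul_eq_mul]
  rw [mul_comm I]
  exact Complex.re_add_im (z i)

end Dfm

open Dfm

theorem deform {d : ℕ} (U : Set (Fin d → ℂ)) (hU : IsOpen U) (F : (Fin d → ℂ) → ℂ)
    (hF : AnalyticOnNhd ℂ F U)
    (hper : ∀ z ∈ U, ∀ i, z + Pi.single i (2 * π : ℂ) ∈ U → F (z + Pi.single i (2 * π : ℂ)) = F z)
    (e : (Fin d → ℝ) → (Fin d → ℂ)) (L : (Fin d → ℝ) → (Fin d → ℝ) →L[ℝ] (Fin d → ℂ))
    (hL : ∀ t, HasFDerivAt e (L t) t) (hLc : Continuous L)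
    (heper : ∀ t i, e (t + Pi.single i (2 * π)) = e t)
    (hpath : ∀ s ∈ Icc (0 : ℝ) 1, ∀ t, cv t + (s : ℂ) • e t ∈ U) :
    ∫ t in box d, F (cv t + e t) * Matrix.det (1 + Matrix.of fun i k => L t (Pi.single k 1) i) =
      ∫ t in box d, F (cv t) := by
  classical
  have hec : Continuous e := continuous_iff_continuousAt.2 fun t => (hL t).continuousAt
  set e1 : (Fin d → ℝ) → (Fin d → ℂ) := fun t => cv (reL d (e t)) with he1
  set e2 : (Fin d → ℝ) → (Fin d → ℂ) := fun t => cv (imL d (e t)) with he2
  have he1c : Continuous e1 := continuous_cv.comp ((reL d).continuous.comp hec)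
  have he2c : Continuous e2 := continuous_cv.comp ((imL d).continuous.comp hec)
  have hcvU : ∀ t : Fin d → ℝ, cv t ∈ U := by
    intro t
    have := hpath 0 ⟨le_refl _, zero_le_one⟩ t
    simpa using this
  set M1 : (Fin d → ℝ) → Matrix (Fin d) (Fin d) ℂ :=
    fun t => Matrix.of fun i k => ((reL d (L t (Pi.single k 1)) i : ℝ) : ℂ) with hM1
  set M2 : (Fin d → ℝ) → Matrix (Fin d) (Fin d) ℂ :=
    fun t => Matrix.of fun i k => ((imL d (L t (Pi.single k 1)) i : ℝ) : ℂ) with hM2
  have hLk : ∀ k, Continuous fun t => L t (Pi.single k 1) := fun k => hLc.clm_apply continuous_const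
  have hM1c : Continuous M1 := by
    refine continuous_matrix fun i k => ?_
    exact continuous_ofReal.comp ((continuous_apply i).comp ((reL d).continuous.comp (hLk k)))
  have hM2c : Continuous M2 := by
    refine continuous_matrix fun i k => ?_
    exact continuous_ofReal.comp ((continuous_apply i).comp ((imL d).continuous.comp (hLk k)))
  -- periodicity of the derivative
  have hLper : ∀ t i, L (t + Pi.single i (2 * π)) = L t := by
    intro t i
    have h1 : HasFDerivAt (fun s : Fin d → ℝ => s + (Pi.single i (2 * π) : Fin d → ℝ))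
        (ContinuousLinearMap.id ℝ (Fin d → ℝ)) t := (hasFDerivAt_id t).add_const _
    have h2 := (hL (t + Pi.single i (2 * π))).comp t h1
    have h3 : (e ∘ fun s : Fin d → ℝ => s + (Pi.single i (2 * π) : Fin d → ℝ)) = e := by
      funext s
      exact heper s i
    rw [h3, ContinuousLinearMap.comp_id] at h2
    exact h2.unique (hL t)
  obtain ⟨C, hC⟩ := (isCompact_box d).exists_bound_of_continuousOn hLc.continuousOn
  have hCall : ∀ t, ‖L t‖ ≤ C := by
    intro t
    obtain ⟨s, hs, hst⟩ := exists_mem_box hLper t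
    rw [← hst]
    exact hC s hs
  -- the real case
  set J : ℂ → ℂ → ℂ := fun z w => ∫ t in box d, F (cv t + z • e1 t + w • e2 t) *
    Matrix.det (1 + z • M1 t + w • M2 t) with hJ
  set J0 : ℂ := ∫ t in box d, F (cv t) with hJ0
  obtain ⟨r1, hr1, hgood⟩ := exists_good_pair hU continuous_cv he1c he2c (fun t _ => hcvU t)
  set B : ℝ := ‖reL d‖ + ‖imL d‖ + 1 with hB
  have hBpos : 0 < B := by positivity
  have hC0 : 0 ≤ |C| := abs_nonneg C
  set r : ℝ := min r1 (1 / (2 * B * (|C| + 1))) with hr
  have hrpos : 0 < r := lt_min hr1 (by positivity)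
  have hreal : ∀ x y : ℝ, |x| < r → |y| < r → J x y = J0 := by
    intro x y hx hy
    have hFc : Continuous fun t : Fin d → ℝ => F (cv t) :=
      hF.continuousOn.comp_continuous continuous_cv hcvU
    have hFper : ∀ (t : Fin d → ℝ) (i : Fin d), F (cv (t + Pi.single i (2 * π))) = F (cv t) := by
      intro t i
      have h1 : cv (t + Pi.single i (2 * π) : Fin d → ℝ) = cv t + Pi.single i (2 * π : ℂ) := by
        rw [cv_add, cv_single]
        push_cast
        rfl
      rw [h1]
      refine hper _ (hcvU t) i ?_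
      rw [← h1]
      exact hcvU _
    have key := real_change (fun t => F (cv t)) hFc hFper
      (fun t => x • reL d (e t) + y • imL d (e t))
      (fun t => x • (reL d).comp (L t) + y • (imL d).comp (L t))
      (fun t => (((reL d).hasFDerivAt.comp t (hL t)).const_smul x).add
        (((imL d).hasFDerivAt.comp t (hL t)).const_smul y))
      (by
        have h1 : Continuous fun t => (reL d).comp (L t) := continuous_const.clm_comp hLc
        have h2 : Continuous fun t => (imL d).comp (L t) := continuous_const.clm_comp hLc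
        exact (h1.const_smul x).add (h2.const_smul y))
      (by
        intro t i
        simp only [heper])
      (by
        intro t
        have h1 : ‖(reL d).comp (L t)‖ ≤ ‖reL d‖ * |C| :=
          (ContinuousLinearMap.opNorm_comp_le _ _).trans
            (mul_le_mul_of_nonneg_left ((hCall t).trans (le_abs_self C)) (norm_nonneg _))
        have h2 : ‖(imL d).comp (L t)‖ ≤ ‖imL d‖ * |C| :=
          (ContinuousLinearMap.opNorm_comp_le _ _).trans
            (mul_le_mul_of_nonneg_left ((hCall t).trans (le_abs_self C)) (norm_nonneg _))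
        have hx' : |x| ≤ 1 / (2 * B * (|C| + 1)) := (hx.le).trans (min_le_right _ _)
        have hy' : |y| ≤ 1 / (2 * B * (|C| + 1)) := (hy.le).trans (min_le_right _ _)
        calc ‖x • (reL d).comp (L t) + y • (imL d).comp (L t)‖
            ≤ ‖x • (reL d).comp (L t)‖ + ‖y • (imL d).comp (L t)‖ := norm_add_le _ _
          _ = |x| * ‖(reL d).comp (L t)‖ + |y| * ‖(imL d).comp (L t)‖ := by
              rw [norm_smul, norm_smul, Real.norm_eq_abs, Real.norm_eq_abs]
          _ ≤ 1 / (2 * B * (|C| + 1)) * (‖reL d‖ * |C|) + 1 / (2 * B * (|C| + 1)) * (‖imL d‖ * |C|) := by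
              gcongr
          _ = ((‖reL d‖ + ‖imL d‖) * |C|) / (2 * (B * (|C| + 1))) := by
              field_simp
          _ ≤ (B * (|C| + 1)) / (2 * (B * (|C| + 1))) := by
              gcongr
              · linarith [norm_nonneg (imL d)]
              · linarith
          _ = 1 / 2 := by
              field_simp)
    rw [hJ0, ← key, hJ]
    refine integral_congr_ae (Eventually.of_forall fun t => ?_)
    simp only
    congr 1
    · congr 1
      rw [cv_add, cv_add, cv_smul, cv_smul, add_assoc]
    · have hdet : ∀ N : Matrix (Fin d) (Fin d) ℝ,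
          ((N.det : ℝ) : ℂ) = (Complex.ofRealHom.mapMatrix N).det :=
        fun N => RingHom.map_det Complex.ofRealHom N
      rw [hdet]
      congr 1
      ext i k
      simp only [hM1, hM2, Matrix.add_apply, Matrix.smul_apply, Matrix.of_apply, RingHom.mapMatrix_apply,
        Matrix.map_apply, _root_.add_apply, _root_.smul_apply,
        ContinuousLinearMap.comp_apply, Pi.add_apply, Pi.smul_apply, smul_eq_mul,
        Complex.ofRealHom_eq_coe, Complex.ofReal_add, Complex.ofReal_mul, Matrix.one_apply]
      split_ifs <;> simp [add_assoc]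
  -- first variable real, second variable complex
  have hstep1 : ∀ x : ℝ, |x| < r → ∀ w : ℂ, ‖w‖ < r → J x w = J0 := by
    intro x hx
    have hd : DifferentiableOn ℂ (fun w => J x w) (Metric.ball 0 r) := by
      have := deform_aux hF (a := fun t => cv t + (x : ℂ) • e1 t) (b := e2)
        (A := fun t => 1 + (x : ℂ) • M1 t) (B := M2) (continuous_cv.add (he1c.fun_const_smul _)) he2c (by fun_prop) hM2c
        (V := Metric.ball 0 r) Metric.isOpen_ball (by
          intro z hz t ht
          apply hgood
          · rw [Complex.norm_real]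
            exact lt_of_lt_of_le hx (min_le_left _ _)
          · rw [Metric.mem_ball, dist_zero_right] at hz
            exact lt_of_lt_of_le hz (min_le_left _ _)
          · exact ht)
      exact this
    exact eq_of_real_eq hrpos hd fun y hy => hreal x y hx hy
  -- both variables complex
  have hstep2 : ∀ z w : ℂ, ‖z‖ < r → ‖w‖ < r → J z w = J0 := by
    intro z w hz hw
    have hd : DifferentiableOn ℂ (fun z => J z w) (Metric.ball 0 r) := by
      have := deform_aux hF (a := fun t => cv t + w • e2 t) (b := e1)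
        (A := fun t => 1 + w • M2 t) (B := M1) (continuous_cv.add (he2c.fun_const_smul _)) he1c (by fun_prop) hM1c
        (V := Metric.ball 0 r) Metric.isOpen_ball (by
          intro z hz t ht
          have h := hgood z w (by
            rw [Metric.mem_ball, dist_zero_right] at hz
            exact lt_of_lt_of_le hz (min_le_left _ _)) (lt_of_lt_of_le hw (min_le_left _ _)) t ht
          rw [add_right_comm] at h
          exact h)
      refine this.congr fun z _ => ?_
      simp only [hJ]
      refine integral_congr_ae (Eventually.of_forall fun t => ?_)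
      simp only
      rw [add_right_comm (cv t), add_right_comm (1 : Matrix (Fin d) (Fin d) ℂ)]
    exact eq_of_real_eq hrpos hd (fun x hx => hstep1 x hx w hw) z hz
  -- the path
  set De : (Fin d → ℝ) → Matrix (Fin d) (Fin d) ℂ :=
    fun t => Matrix.of fun i k => L t (Pi.single k 1) i with hDe
  have hDec : Continuous De := by
    refine continuous_matrix fun i k => ?_
    exact (continuous_apply i).comp (hLk k)
  set Om : Set ℂ := {z : ℂ | ∀ t ∈ box d, cv t + z • e t ∈ U} with hOm
  have hOmo : IsOpen Om := isOpen_good hU continuous_cv hec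
  set S : Set ℂ := segment ℝ (0 : ℂ) 1 with hS
  have hScomp : IsCompact S := by
    rw [hS, segment_eq_image ℝ]
    exact isCompact_Icc.image (by fun_prop)
  have hSsub : S ⊆ Om := by
    intro z hz
    rw [hS, segment_eq_image ℝ] at hz
    obtain ⟨s, hs, rfl⟩ := hz
    intro t _
    have := hpath s hs t
    simpa using this
  obtain ⟨δ, hδ, hthick⟩ := hScomp.exists_thickening_subset_open hOmo hSsub
  set V : Set ℂ := Metric.thickening δ S with hV
  have hVconv : Convex ℝ V := (convex_segment _ _).thickening δ
  have hVo : IsOpen V := Metric.isOpen_thickening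
  have h0V : (0 : ℂ) ∈ V := Metric.self_subset_thickening hδ _ (left_mem_segment ℝ _ _)
  have h1V : (1 : ℂ) ∈ V := Metric.self_subset_thickening hδ _ (right_mem_segment ℝ _ _)
  have hjd : DifferentiableOn ℂ (fun z => ∫ t in box d, F (cv t + z • e t) *
      Matrix.det (1 + z • De t)) V :=
    deform_aux hF continuous_cv hec continuous_const hDec hVo fun z hz => hthick hz
  have hja := hjd.analyticOnNhd hVo
  have hsmall : ∀ z : ℂ, ‖z‖ < r → ∫ t in box d, F (cv t + z • e t) *
      Matrix.det (1 + z • De t) = J0 := by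
    intro z hz
    rw [← hstep2 z (z * I) hz (by rw [norm_mul, Complex.norm_I, mul_one]; exact hz)]
    simp only [hJ]
    refine integral_congr_ae (Eventually.of_forall fun t => ?_)
    simp only
    congr 2
    · rw [add_assoc, mul_smul, ← smul_add]
      congr 2
      exact (cv_re_add_im (e t)).symm
    · rw [add_assoc, mul_smul, ← smul_add]
      congr 2
      ext i k
      have h5 := congrFun (cv_re_add_im (L t (Pi.single k 1))) i
      simp only [cv, Pi.add_apply, Pi.smul_apply, smul_eq_mul] at h5
      simp only [hDe, hM1, hM2, Matrix.add_apply, Matrix.smul_apply, Matrix.of_apply, smul_eq_mul]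
      exact h5.symm
  have hconst : AnalyticOnNhd ℂ (fun _ : ℂ => J0) V := analyticOnNhd_const
  have hev : ∃ᶠ z in 𝓝[≠] (0 : ℂ), (∫ t in box d, F (cv t + z • e t) *
      Matrix.det (1 + z • De t)) = J0 := by
    apply Eventually.frequently
    apply eventually_nhdsWithin_of_eventually_nhds
    filter_upwards [Metric.ball_mem_nhds (0 : ℂ) hrpos] with z hz
    exact hsmall z (by simpa using hz)
  have hfin := hja.eqOn_of_preconnected_of_frequently_eq hconst hVconv.isPreconnected h0V hev h1V
  simpa using hfin

end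

end IsingNB
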