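import Pool.Agent.Helper98.NB.WBasic

/-!
# NB-13: the susceptibility terms as Fourier series
-/

namespace IsingNB

open Complex Set MeasureTheory Filter Topology
open scoped Real

noncomputable section

/-! ### General lemmas on Fourier coefficients of partial integrals -/

theorem four_isCompact_box (d : ℕ) : IsCompact (box d) := isCompact_Icc

theorem four_full_eq {d : ℕ} (s : ℝ) (t : Fin d → ℝ) :
    full s t = Fin.snoc (α := fun _ => ℝ) t (s - ∑ i, t i) := rfl

theorem four_sum_full {d : ℕ} (s : ℝ) (t : Fin d → ℝ) : ∑ i, full s t i = s := by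
  unfold full
  rw [Fin.sum_univ_castSucc]
  simp

theorem four_continuous_snoc (d : ℕ) :
    Continuous fun p : (Fin d → ℝ) × ℝ => (Fin.snoc (α := fun _ => ℝ) p.1 p.2 : Fin (d + 1) → ℝ) := by
  refine continuous_pi fun i => ?_
  induction i using Fin.lastCases with
  | last => simpa using continuous_snd
  | cast i =>
    simp only [Fin.snoc_castSucc]
    exact (continuous_apply i).comp continuous_fst

/-- The integral over the cube as an iterated integral. -/
theorem four_box_succ {d : ℕ} (Ψ : (Fin (d + 1) → ℝ) → ℂ) (hΨ : Continuous Ψ) :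
    ∫ v in box (d + 1), Ψ v =
      ∫ t in box d, ∫ s in (-π)..π, Ψ (Fin.snoc (α := fun _ => ℝ) t s) := by
  have hmp := (volume_preserving_piFinSuccAbove (fun _ : Fin (d + 1) => ℝ) (Fin.last d))
  have hsymm : ∀ p : ℝ × (Fin d → ℝ),
      (MeasurableEquiv.piFinSuccAbove (fun _ : Fin (d + 1) => ℝ) (Fin.last d)).symm p =
        (Fin.snoc (α := fun _ => ℝ) p.2 p.1 : Fin (d + 1) → ℝ) := by
    intro p
    rw [← Fin.insertNth_last']
    rfl
  have hpre : (MeasurableEquiv.piFinSuccAbove (fun _ : Fin (d + 1) => ℝ) (Fin.last d)).symm ⁻¹'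
      (box (d + 1)) = Icc (-π) π ×ˢ box d := by
    ext p
    rw [mem_preimage, hsymm]
    simp only [box, mem_Icc, mem_prod, Pi.le_def]
    constructor
    · rintro ⟨h1, h2⟩
      refine ⟨⟨?_, ?_⟩, ?_, ?_⟩
      · simpa using h1 (Fin.last d)
      · simpa using h2 (Fin.last d)
      · intro i; simpa using h1 (Fin.castSucc i)
      · intro i; simpa using h2 (Fin.castSucc i)
    · rintro ⟨⟨h1, h2⟩, h3, h4⟩
      constructor
      · intro i
        induction i using Fin.lastCases with
        | last => simpa using h1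
        | cast i => simpa using h3 i
      · intro i
        induction i using Fin.lastCases with
        | last => simpa using h2
        | cast i => simpa using h4 i
  have h1 := hmp.symm.setIntegral_preimage_emb
    (MeasurableEquiv.piFinSuccAbove (fun _ : Fin (d + 1) => ℝ) (Fin.last d)).symm.measurableEmbedding
    Ψ (box (d + 1))
  rw [← h1, hpre]
  simp only [hsymm]
  have hcont : Continuous fun p : ℝ × (Fin d → ℝ) =>
      Ψ (Fin.snoc (α := fun _ => ℝ) p.2 p.1 : Fin (d + 1) → ℝ) :=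
    hΨ.comp ((four_continuous_snoc d).comp (continuous_snd.prodMk continuous_fst))
  have hint : IntegrableOn (fun p : ℝ × (Fin d → ℝ) =>
      Ψ (Fin.snoc (α := fun _ => ℝ) p.2 p.1 : Fin (d + 1) → ℝ)) (Icc (-π) π ×ˢ box d)
      ((volume : Measure ℝ).prod (volume : Measure (Fin d → ℝ))) :=
    hcont.continuousOn.integrableOn_compact (isCompact_Icc.prod (four_isCompact_box d))
  rw [show (volume : Measure (ℝ × (Fin d → ℝ))) =
    (volume : Measure ℝ).prod (volume : Measure (Fin d → ℝ)) from rfl, setIntegral_prod _ hint]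
  have hint' : Integrable (Function.uncurry fun (s : ℝ) (t : Fin d → ℝ) =>
      Ψ (Fin.snoc (α := fun _ => ℝ) t s : Fin (d + 1) → ℝ))
      ((volume.restrict (Icc (-π) π)).prod (volume.restrict (box d))) := by
    rw [Measure.prod_restrict]
    exact hint
  rw [integral_integral_swap hint']
  refine integral_congr_ae (Eventually.of_forall fun t => ?_)
  simp only
  rw [intervalIntegral.integral_of_le (by linarith [Real.pi_pos]), integral_Icc_eq_integral_Ioc]

/-- The partial integral over the hyperplane of the angles with sum `s`. -/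
def four_g {d : ℕ} (Φ : (Fin (d + 1) → ℝ) → ℂ) (s : ℝ) : ℂ := ∫ t in box d, Φ (full s t)

theorem four_continuous_full (d : ℕ) :
    Continuous fun p : ℝ × (Fin d → ℝ) => (full p.1 p.2 : Fin (d + 1) → ℝ) := by
  have h : Continuous fun p : ℝ × (Fin d → ℝ) => (p.2, p.1 - ∑ i, p.2 i) := by
    refine continuous_snd.prodMk (continuous_fst.sub ?_)
    exact continuous_finsetSum _ fun i _ => (continuous_apply i).comp continuous_snd
  exact (four_continuous_snoc d).comp h

theorem four_g_continuous {d : ℕ} {Φ : (Fin (d + 1) → ℝ) → ℂ} (hΦ : Continuous Φ) :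
    Continuous (four_g Φ) := by
  unfold four_g
  refine continuous_parametric_integral_of_continuous ?_ (four_isCompact_box d)
  exact hΦ.comp (four_continuous_full d)

theorem four_g_periodic {d : ℕ} {Φ : (Fin (d + 1) → ℝ) → ℂ}
    (hper : ∀ (t : Fin d → ℝ) (s : ℝ), Φ (Fin.snoc (α := fun _ => ℝ) t (s + 2 * π)) =
      Φ (Fin.snoc (α := fun _ => ℝ) t s)) : Function.Periodic (four_g Φ) (2 * π) := by
  intro s
  unfold four_g
  refine integral_congr_ae (Eventually.of_forall fun t => ?_)
  simp only [four_full_eq]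
  have h : s + 2 * π - ∑ i, t i = (s - ∑ i, t i) + 2 * π := by ring
  rw [h, hper]

/-- The Fourier coefficients of the partial integral. -/
theorem four_g_coeff {d : ℕ} {Φ : (Fin (d + 1) → ℝ) → ℂ} (hΦ : Continuous Φ)
    (hper : ∀ (t : Fin d → ℝ) (s : ℝ), Φ (Fin.snoc (α := fun _ => ℝ) t (s + 2 * π)) =
      Φ (Fin.snoc (α := fun _ => ℝ) t s)) (M : ℤ) :
    ∫ s in (-π)..π, Complex.exp (I * M * s) * four_g Φ s =
      ∫ v in box (d + 1), Φ v * Complex.exp (I * M * ∑ i, (v i : ℂ)) := by
  have hΨc : Continuous fun v : Fin (d + 1) → ℝ =>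
      Φ v * Complex.exp (I * M * ∑ i, (v i : ℂ)) := by
    refine hΦ.mul (Complex.continuous_exp.comp (continuous_const.mul ?_))
    exact continuous_finsetSum _ fun i _ => Complex.continuous_ofReal.comp (continuous_apply i)
  rw [four_box_succ _ hΨc]
  -- the left side as an iterated integral
  have h1 : ∀ s : ℝ, Complex.exp (I * M * s) * four_g Φ s =
      ∫ t in box d, Φ (full s t) * Complex.exp (I * M * ∑ i, (full s t i : ℂ)) := by
    intro s
    unfold four_g
    rw [← integral_const_mul]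
    refine integral_congr_ae (Eventually.of_forall fun t => ?_)
    simp only
    rw [← Complex.ofReal_sum, four_sum_full, mul_comm]
  simp only [h1]
  rw [intervalIntegral.integral_of_le (by linarith [Real.pi_pos])]
  have hcont : Continuous fun p : ℝ × (Fin d → ℝ) =>
      Φ (full p.1 p.2) * Complex.exp (I * M * ∑ i, (full p.1 p.2 i : ℂ)) :=
    hΨc.comp (four_continuous_full d)
  have hint' : Integrable (Function.uncurry fun (s : ℝ) (t : Fin d → ℝ) =>
      Φ (full s t) * Complex.exp (I * M * ∑ i, (full s t i : ℂ)))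
      ((volume.restrict (Ioc (-π) π)).prod (volume.restrict (box d))) := by
    rw [Measure.prod_restrict]
    have h2 : IntegrableOn (fun p : ℝ × (Fin d → ℝ) =>
        Φ (full p.1 p.2) * Complex.exp (I * M * ∑ i, (full p.1 p.2 i : ℂ)))
        (Icc (-π) π ×ˢ box d) ((volume : Measure ℝ).prod (volume : Measure (Fin d → ℝ))) :=
      hcont.continuousOn.integrableOn_compact (isCompact_Icc.prod (four_isCompact_box d))
    exact h2.mono_set (prod_mono Ioc_subset_Icc_self (subset_refl _))
  rw [integral_integral_swap hint']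
  refine integral_congr_ae (Eventually.of_forall fun t => ?_)
  simp only
  rw [← intervalIntegral.integral_of_le (by linarith [Real.pi_pos])]
  -- shift by the sum of `t`
  have hP : Function.Periodic (fun u : ℝ => Φ (Fin.snoc (α := fun _ => ℝ) t u) *
      Complex.exp (I * M * ∑ i, ((Fin.snoc (α := fun _ => ℝ) t u : Fin (d + 1) → ℝ) i : ℂ)))
      (2 * π) := by
    intro u
    simp only
    rw [hper]
    congr 1
    rw [Fin.sum_univ_castSucc, Fin.sum_univ_castSucc]
    simp only [Fin.snoc_castSucc, Fin.snoc_last]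
    have h3 : I * (M : ℂ) * (∑ i, (t i : ℂ) + ((u + 2 * π : ℝ) : ℂ)) =
        I * M * (∑ i, (t i : ℂ) + (u : ℂ)) + M * (2 * π * I) := by
      push_cast
      ring
    rw [h3, Complex.exp_add, Complex.exp_int_mul_two_pi_mul_I, mul_one]
  have h4 : ∀ s : ℝ, Φ (full s t) * Complex.exp (I * M * ∑ i, (full s t i : ℂ)) =
      (fun u : ℝ => Φ (Fin.snoc (α := fun _ => ℝ) t u) *
      Complex.exp (I * M * ∑ i, ((Fin.snoc (α := fun _ => ℝ) t u : Fin (d + 1) → ℝ) i : ℂ)))
      (s - ∑ i, t i) := fun s => rfl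
  simp only [h4]
  rw [intervalIntegral.integral_comp_sub_right (fun u : ℝ =>
    Φ (Fin.snoc (α := fun _ => ℝ) t u) *
      Complex.exp (I * M * ∑ i, ((Fin.snoc (α := fun _ => ℝ) t u : Fin (d + 1) → ℝ) i : ℂ)))]
  have h5 := hP.intervalIntegral_add_eq (-π - ∑ i, t i) (-π)
  have e1 : -π - ∑ i, t i + 2 * π = π - ∑ i, t i := by ring
  have e2 : -π + 2 * π = π := by ring
  rw [e1, e2] at h5
  exact h5

/-- Fourier inversion. -/
theorem four_inversion {d : ℕ} {Φ : (Fin (d + 1) → ℝ) → ℂ} (hΦ : Continuous Φ)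
    (hper : ∀ (t : Fin d → ℝ) (s : ℝ), Φ (Fin.snoc (α := fun _ => ℝ) t (s + 2 * π)) =
      Φ (Fin.snoc (α := fun _ => ℝ) t s)) (a : ℤ → ℂ) (ha : Summable a)
    (hcoef : ∀ M : ℤ, ∫ v in box (d + 1), Φ v * Complex.exp (I * M * ∑ i, (v i : ℂ)) =
      2 * π * a M) (s : ℝ) :
    HasSum (fun M : ℤ => a M * Complex.exp (-(I * M * s))) (four_g Φ s) := by
  have hT : Fact (0 < 2 * π) := ⟨by positivity⟩
  have hcl : Continuous (four_g_periodic hper).lift :=
    continuous_coinduced_dom.mpr (four_g_continuous hΦ)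
  let f : C(AddCircle (2 * π), ℂ) := ⟨(four_g_periodic hper).lift, hcl⟩
  have hf : ∀ x : ℝ, f (x : AddCircle (2 * π)) = four_g Φ x := fun x => rfl
  have hco : ∀ n : ℤ, fourierCoeff f n = a (-n) := by
    intro n
    rw [fourierCoeff_eq_intervalIntegral (f : AddCircle (2 * π) → ℂ) n (-π)]
    have e2 : -π + 2 * π = π := by ring
    rw [e2]
    have h1 : ∀ x : ℝ, fourier (-n) (x : AddCircle (2 * π)) • f (x : AddCircle (2 * π)) =
        Complex.exp (I * ((-n : ℤ) : ℂ) * x) * four_g Φ x := by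
      intro x
      rw [fourier_coe_apply, hf, smul_eq_mul]
      congr 2
      have hpi : (π : ℂ) ≠ 0 := by exact_mod_cast Real.pi_ne_zero
      push_cast
      field_simp
    simp only [h1]
    rw [four_g_coeff hΦ hper, hcoef]
    have hpi : (π : ℂ) ≠ 0 := by exact_mod_cast Real.pi_ne_zero
    rw [Complex.real_smul]
    push_cast
    field_simp
  have hsum : Summable (fourierCoeff f) := by
    have : fourierCoeff (f : AddCircle (2 * π) → ℂ) = a ∘ (Equiv.neg ℤ) := by
      funext n
      exact hco n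
    rw [this]
    exact (Equiv.neg ℤ).summable_iff.2 ha
  have h2 := has_pointwise_sum_fourier_series_of_summable hsum (s : AddCircle (2 * π))
  rw [hf] at h2
  have h3 := (Equiv.neg ℤ).hasSum_iff.2 h2
  have h4 : (fun M : ℤ => a M * Complex.exp (-(I * M * s))) =
      (fun i => fourierCoeff f i • fourier i (s : AddCircle (2 * π))) ∘ (Equiv.neg ℤ) := by
    funext M
    change _ = fourierCoeff f (-M) • fourier (-M) (s : AddCircle (2 * π))
    rw [hco, neg_neg, smul_eq_mul, fourier_coe_apply]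
    congr 2
    have hpi : (π : ℂ) ≠ 0 := by exact_mod_cast Real.pi_ne_zero
    push_cast
    field_simp
  rw [h4]
  exact h3

/-! ### The integrand -/

theorem four_cont_W {c : ℂ} (hc : 0 < c.im) : Continuous fun t : ℝ => W (c - Complex.cos t) := by
  refine W_analytic.continuousOn.comp_continuous ?_ fun t => sub_cos_notMem_Seg (Or.inl hc.ne') t
  exact continuous_const.sub (Complex.continuous_cos.comp Complex.continuous_ofReal)

theorem four_norm_W {c : ℂ} (hc : 0 < c.im) (t : ℝ) : ‖W (c - Complex.cos t)‖ < 1 :=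
  norm_W_lt_one (sub_cos_notMem_Seg (Or.inl hc.ne') t)

theorem four_one_sub_ne {z : ℂ} (hz : ‖z‖ < 1) : 1 - z ≠ 0 := by
  intro h
  have h1 : z = 1 := (sub_eq_zero.1 h).symm
  rw [h1, norm_one] at hz
  exact lt_irrefl _ hz

theorem four_cont_prodw {c : ℂ} (hc : 0 < c.im) (j : ℕ) :
    Continuous fun v : Fin j → ℝ => prodw W c (cv v) := by
  unfold prodw cv
  exact continuous_finsetProd _ fun i _ => (four_cont_W hc).comp (continuous_apply i)

theorem four_norm_prodw {c : ℂ} (hc : 0 < c.im) {d : ℕ} (v : Fin (d + 1) → ℝ) :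
    ‖prodw W c (cv v)‖ < 1 := by
  unfold prodw cv
  rw [Fin.prod_univ_succ, norm_mul, norm_prod]
  have h1 : ∏ i : Fin d, ‖W (c - Complex.cos ((v i.succ : ℝ) : ℂ))‖ ≤ 1 :=
    Finset.prod_le_one (fun _ _ => norm_nonneg _) fun i _ => (four_norm_W hc _).le
  have h2 := four_norm_W hc (v 0)
  calc _ ≤ ‖W (c - Complex.cos ((v 0 : ℝ) : ℂ))‖ * 1 :=
        mul_le_mul_of_nonneg_left h1 (norm_nonneg _)
    _ < 1 := by rw [mul_one]; exact h2

theorem four_cont_ker {c : ℂ} (hc : 0 < c.im) (j : ℕ) :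
    Continuous fun v : Fin j → ℝ => ker W c (cv v) := by
  have hW : ∀ i : Fin j, Continuous fun v : Fin j → ℝ => W (c - Complex.cos (cv v i)) :=
    fun i => (four_cont_W hc).comp (continuous_apply i)
  have hX : ∀ i : Fin j, Continuous fun v : Fin j → ℝ => Complex.exp (I * cv v i) := fun i =>
    Complex.continuous_exp.comp (continuous_const.mul
      (Complex.continuous_ofReal.comp (continuous_apply i)))
  have hn : ∀ (v : Fin j → ℝ) (i k : Fin j),
      1 - W (c - Complex.cos (cv v i)) * W (c - Complex.cos (cv v k)) ≠ 0 := by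
    intro v i k
    refine four_one_sub_ne ?_
    rw [norm_mul]
    have h1 : ‖W (c - Complex.cos (cv v i))‖ < 1 := four_norm_W hc (v i)
    have h2 : ‖W (c - Complex.cos (cv v k))‖ < 1 := four_norm_W hc (v k)
    nlinarith [norm_nonneg (W (c - Complex.cos (cv v i))),
      norm_nonneg (W (c - Complex.cos (cv v k)))]
  unfold ker pairs HH
  refine Continuous.mul ?_ ?_
  · refine continuous_finsetProd _ fun i _ => ?_
    refine ((continuous_const.mul (hW i))).div (continuous_const.sub ((hW i).pow 2)) fun v => ?_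
    have := hn v i i
    rwa [← sq] at this
  · refine continuous_finsetProd _ fun i _ => continuous_finsetProd _ fun k _ => ?_
    refine Continuous.div ?_ ?_ fun v => ?_
    · exact ((((hX i).sub (hX k)).pow 2).mul ((hW i).mul (hW k))).neg
    · exact ((hX i).mul (hX k)).mul ((continuous_const.sub ((hW i).mul (hW k))).pow 2)
    · exact mul_ne_zero (mul_ne_zero (Complex.exp_ne_zero _) (Complex.exp_ne_zero _))
        (pow_ne_zero 2 (hn v i k))

theorem four_ker_congr {f : ℂ → ℂ} {j : ℕ} {c : ℂ} {φ φ' : Fin j → ℂ}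
    (h1 : ∀ i, Complex.cos (φ i) = Complex.cos (φ' i))
    (h2 : ∀ i, Complex.exp (I * φ i) = Complex.exp (I * φ' i)) :
    ker f c φ = ker f c φ' ∧ prodw f c φ = prodw f c φ' := by
  unfold ker prodw
  simp only [h1, h2, and_self]

/-- The full integrand. -/
def four_Phi (d : ℕ) (ϑ : ℝ) (c : ℂ) (v : Fin (d + 1) → ℝ) : ℂ :=
  ker W c (cv v) * ((1 + tau ϑ * prodw W c (cv v)) / (1 - tau ϑ * prodw W c (cv v)))

theorem four_norm_tau (ϑ : ℝ) : ‖tau ϑ‖ = 1 := by
  unfold tau
  rw [mul_comm]
  exact Complex.norm_exp_ofReal_mul_I ϑ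

theorem four_tau_sq {ϑ : ℝ} (hϑ : ϑ = 0 ∨ ϑ = π) : tau ϑ * tau ϑ = 1 := by
  unfold tau
  rcases hϑ with rfl | rfl
  · simp
  · rw [mul_comm I, Complex.exp_pi_mul_I]
    norm_num

theorem four_tau_ne (ϑ : ℝ) : tau ϑ ≠ 0 := Complex.exp_ne_zero _

theorem four_tau_natAbs {ϑ : ℝ} (hϑ : ϑ = 0 ∨ ϑ = π) (N : ℤ) :
    tau ϑ ^ N.natAbs = tau ϑ ^ N := by
  rcases Int.natAbs_eq N with h | h
  · conv_rhs => rw [h, zpow_natCast]
  · conv_rhs => rw [h, zpow_neg, zpow_natCast]
    refine (inv_eq_of_mul_eq_one_left ?_).symm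
    rw [← mul_pow, four_tau_sq hϑ, one_pow]

theorem four_cont_Phi {c : ℂ} (hc : 0 < c.im) (d : ℕ) (ϑ : ℝ) : Continuous (four_Phi d ϑ c) := by
  unfold four_Phi
  have hP := four_cont_prodw hc (d + 1)
  refine (four_cont_ker hc (d + 1)).mul (Continuous.div (continuous_const.add
    (continuous_const.mul hP)) (continuous_const.sub (continuous_const.mul hP)) fun v => ?_)
  refine four_one_sub_ne ?_
  rw [norm_mul, four_norm_tau, one_mul]
  exact four_norm_prodw hc v

theorem four_per_Phi (c : ℂ) (d : ℕ) (ϑ : ℝ) (t : Fin d → ℝ) (s : ℝ) :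
    four_Phi d ϑ c (Fin.snoc (α := fun _ => ℝ) t (s + 2 * π)) =
      four_Phi d ϑ c (Fin.snoc (α := fun _ => ℝ) t s) := by
  have h := four_ker_congr (f := W) (c := c)
    (φ := cv (Fin.snoc (α := fun _ => ℝ) t (s + 2 * π) : Fin (d + 1) → ℝ))
    (φ' := cv (Fin.snoc (α := fun _ => ℝ) t s : Fin (d + 1) → ℝ)) (fun i => by
      induction i using Fin.lastCases with
      | last =>
        simp only [cv, Fin.snoc_last]
        push_cast
        exact Complex.cos_add_two_pi _
      | cast i => simp only [cv, Fin.snoc_castSucc]) (fun i => by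
      induction i using Fin.lastCases with
      | last =>
        simp only [cv, Fin.snoc_last]
        push_cast
        have : I * ((s : ℂ) + 2 * π) = I * s + 2 * π * I := by ring
        rw [this, Complex.exp_periodic]
      | cast i => simp only [cv, Fin.snoc_castSucc])
  unfold four_Phi
  rw [h.1, h.2]

/-- The two sided geometric series. -/
theorem four_geom {z : ℂ} (hz : ‖z‖ < 1) :
    HasSum (fun N : ℤ => z ^ N.natAbs) ((1 + z) / (1 - z)) := by
  have h1 : HasSum (fun n : ℕ => z ^ (n : ℤ).natAbs) (1 - z)⁻¹ := by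
    simpa using hasSum_geometric_of_norm_lt_one hz
  have h2 : HasSum (fun n : ℕ => z ^ (-((n : ℤ) + 1)).natAbs) (z * (1 - z)⁻¹) := by
    have h3 : ∀ n : ℕ, z ^ (-((n : ℤ) + 1)).natAbs = z * z ^ n := by
      intro n
      have : (-((n : ℤ) + 1)).natAbs = n + 1 := by omega
      rw [this, pow_succ, mul_comm]
    simp only [h3]
    exact (hasSum_geometric_of_norm_lt_one hz).mul_left z
  have h3 := HasSum.of_nat_of_neg_add_one (f := fun N : ℤ => z ^ N.natAbs) h1 h2
  have h4 : (1 + z) / (1 - z) = (1 - z)⁻¹ + z * (1 - z)⁻¹ := by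
    rw [div_eq_mul_inv]
    ring
  rw [h4]
  exact h3

theorem four_geom_real {x : ℝ} (hx0 : 0 ≤ x) (hx : x < 1) :
    HasSum (fun N : ℤ => x ^ N.natAbs) ((1 + x) / (1 - x)) := by
  have h1 : HasSum (fun n : ℕ => x ^ (n : ℤ).natAbs) (1 - x)⁻¹ := by
    simpa using hasSum_geometric_of_lt_one hx0 hx
  have h2 : HasSum (fun n : ℕ => x ^ (-((n : ℤ) + 1)).natAbs) (x * (1 - x)⁻¹) := by
    have h3 : ∀ n : ℕ, x ^ (-((n : ℤ) + 1)).natAbs = x * x ^ n := by
      intro n
      have : (-((n : ℤ) + 1)).natAbs = n + 1 := by omega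
      rw [this, pow_succ, mul_comm]
    simp only [h3]
    exact (hasSum_geometric_of_lt_one hx0 hx).mul_left x
  have h3 := HasSum.of_nat_of_neg_add_one (f := fun N : ℤ => x ^ N.natAbs) h1 h2
  have h4 : (1 + x) / (1 - x) = (1 - x)⁻¹ + x * (1 - x)⁻¹ := by
    rw [div_eq_mul_inv]
    ring
  rw [h4]
  exact h3

/-- The Fourier coefficients of the full integrand. -/
theorem four_coeff_Phi {c : ℂ} (hc : 0 < c.im) (d : ℕ) {ϑ : ℝ} (hϑ : ϑ = 0 ∨ ϑ = π) (M : ℤ) :
    HasSum (fun N : ℤ => ((d + 1).factorial : ℂ) * (2 * π) ^ (d + 1) *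
      (tau ϑ ^ N * FF (d + 1) M N.natAbs c))
      (∫ v in box (d + 1), four_Phi d ϑ c v * Complex.exp (I * M * ∑ i, (v i : ℂ))) := by
  have hP := four_cont_prodw hc (d + 1)
  have hK := four_cont_ker hc (d + 1)
  have hE : Continuous fun v : Fin (d + 1) → ℝ => Complex.exp (I * M * ∑ i, (v i : ℂ)) :=
    Complex.continuous_exp.comp (continuous_const.mul
      (continuous_finsetSum _ fun i _ => Complex.continuous_ofReal.comp (continuous_apply i)))
  have hEn : ∀ v : Fin (d + 1) → ℝ, ‖Complex.exp (I * M * ∑ i, (v i : ℂ))‖ = 1 := by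
    intro v
    have : I * (M : ℂ) * ∑ i, (v i : ℂ) = ((M * ∑ i, v i : ℝ) : ℂ) * I := by
      push_cast
      ring
    rw [this]
    exact Complex.norm_exp_ofReal_mul_I _
  have hzn : ∀ v : Fin (d + 1) → ℝ, ‖tau ϑ * prodw W c (cv v)‖ < 1 := by
    intro v
    rw [norm_mul, four_norm_tau, one_mul]
    exact four_norm_prodw hc v
  have hint : ∀ N : ℤ, ∫ v in box (d + 1), ker W c (cv v) * Complex.exp (I * M * ∑ i, (v i : ℂ)) *
      (tau ϑ * prodw W c (cv v)) ^ N.natAbs =
      ((d + 1).factorial : ℂ) * (2 * π) ^ (d + 1) * (tau ϑ ^ N * FF (d + 1) M N.natAbs c) := by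
    intro N
    have h1 : ∀ v : Fin (d + 1) → ℝ, ker W c (cv v) * Complex.exp (I * M * ∑ i, (v i : ℂ)) *
        (tau ϑ * prodw W c (cv v)) ^ N.natAbs = tau ϑ ^ N * (ker W c (cv v) *
          Complex.exp (I * M * ∑ i, (v i : ℂ)) * prodw W c (cv v) ^ N.natAbs) := by
      intro v
      rw [mul_pow, four_tau_natAbs hϑ]
      ring
    simp only [h1]
    rw [integral_const_mul]
    unfold FF
    have hpi : (π : ℂ) ≠ 0 := by exact_mod_cast Real.pi_ne_zero
    have hf : ((d + 1).factorial : ℂ) ≠ 0 := by exact_mod_cast Nat.factorial_ne_zero _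
    have h2 : ((2 : ℂ) * π) ^ (d + 1) * (1 / (2 * π)) ^ (d + 1) = 1 := by
      rw [← mul_pow, mul_one_div_cancel (mul_ne_zero two_ne_zero hpi), one_pow]
    set J := ∫ t in box (d + 1), ker W c (cv t) * Complex.exp (I * M * ∑ i, (t i : ℂ)) *
      prodw W c (cv t) ^ N.natAbs with hJ
    calc tau ϑ ^ N * J = tau ϑ ^ N * J * (((2 : ℂ) * π) ^ (d + 1) * (1 / (2 * π)) ^ (d + 1)) *
          (((d + 1).factorial : ℂ) * (1 / ((d + 1).factorial : ℂ))) := by
          rw [h2, mul_one_div_cancel hf]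
          ring
      _ = _ := by ring
  simp only [← hint]
  refine hasSum_integral_of_dominated_convergence
    (fun N v => ‖ker W c (cv v)‖ * ‖prodw W c (cv v)‖ ^ N.natAbs) ?_ ?_ ?_ ?_ ?_
  · intro N
    exact ((hK.mul hE).mul ((continuous_const.mul hP).pow _)).aestronglyMeasurable
  · intro N
    refine Eventually.of_forall fun v => le_of_eq ?_
    rw [norm_mul, norm_mul, hEn, mul_one, norm_pow, norm_mul, four_norm_tau, one_mul]
  · refine Eventually.of_forall fun v => ?_
    exact ((four_geom_real (norm_nonneg _) (four_norm_prodw hc v)).summable).mul_left _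
  · have h1 : (fun v : Fin (d + 1) → ℝ =>
        ∑' N : ℤ, ‖ker W c (cv v)‖ * ‖prodw W c (cv v)‖ ^ N.natAbs) =
        fun v => ‖ker W c (cv v)‖ * ((1 + ‖prodw W c (cv v)‖) / (1 - ‖prodw W c (cv v)‖)) := by
      funext v
      exact ((four_geom_real (norm_nonneg _) (four_norm_prodw hc v)).mul_left _).tsum_eq
    rw [h1]
    refine ContinuousOn.integrableOn_compact (four_isCompact_box (d + 1)) ?_
    refine Continuous.continuousOn (hK.norm.mul (Continuous.div (continuous_const.add hP.norm)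
      (continuous_const.sub hP.norm) fun v => ?_))
    have := four_norm_prodw hc v
    linarith
  · refine Eventually.of_forall fun v => ?_
    have h1 := (four_geom (hzn v)).mul_left
      (ker W c (cv v) * Complex.exp (I * M * ∑ i, (v i : ℂ)))
    have h2 : four_Phi d ϑ c v * Complex.exp (I * M * ∑ i, (v i : ℂ)) =
        ker W c (cv v) * Complex.exp (I * M * ∑ i, (v i : ℂ)) *
          ((1 + tau ϑ * prodw W c (cv v)) / (1 - tau ϑ * prodw W c (cv v))) := by
      unfold four_Phi
      ring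
    rw [h2]
    exact h1

theorem chi_hasSum (d : ℕ) {ϑ : ℝ} (hϑ : ϑ = 0 ∨ ϑ = π) {c : ℂ} (hc : 0 < c.im)
    (hs : Summable fun p : ℤ × ℤ => ‖FF (d + 1) p.1 p.2.natAbs c‖) :
    HasSum (fun p : ℤ × ℤ => tau ϑ ^ (p.1 + p.2) * FF (d + 1) p.1 p.2.natAbs c) (chi d ϑ c) := by
  have hτ0 := four_tau_ne ϑ
  have hτn : ∀ n : ℤ, ‖tau ϑ ^ n‖ = 1 := by
    intro n
    rw [norm_zpow, four_norm_tau, one_zpow]
  set G : ℤ × ℤ → ℂ := fun p => tau ϑ ^ (p.1 + p.2) * FF (d + 1) p.1 p.2.natAbs c with hG
  have hGs : Summable G := by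
    refine Summable.of_norm (hs.congr fun p => ?_)
    rw [hG, norm_mul, hτn, one_mul]
  set b : ℤ → ℂ := fun M => ∑' N : ℤ, G (M, N) with hb
  have hfib : ∀ M : ℤ, HasSum (fun N : ℤ => G (M, N)) (b M) := fun M =>
    (hGs.prod_factor M).hasSum
  have hbS : HasSum b (∑' p, G p) := hGs.hasSum.prod_fiberwise hfib
  have hpi : (π : ℂ) ≠ 0 := by exact_mod_cast Real.pi_ne_zero
  have hf : ((d + 1).factorial : ℂ) ≠ 0 := by exact_mod_cast Nat.factorial_ne_zero _
  set C : ℂ := ((d + 1).factorial : ℂ) * (2 * π) ^ d with hC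
  set a : ℤ → ℂ := fun M => C * (tau ϑ ^ (-M) * b M) with ha
  have has : Summable a := by
    refine Summable.mul_left C ?_
    refine Summable.of_norm (hbS.summable.norm.congr fun M => ?_)
    rw [norm_mul, hτn, one_mul]
  have hcoef : ∀ M : ℤ, ∫ v in box (d + 1), four_Phi d ϑ c v *
      Complex.exp (I * M * ∑ i, (v i : ℂ)) = 2 * π * a M := by
    intro M
    have h1 := four_coeff_Phi hc d hϑ M
    have h2 : HasSum (fun N : ℤ => ((d + 1).factorial : ℂ) * (2 * π) ^ (d + 1) *
        (tau ϑ ^ N * FF (d + 1) M N.natAbs c)) (2 * π * a M) := by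
      have h3 := (hfib M).mul_left (2 * π * C * tau ϑ ^ (-M))
      have h4 : 2 * π * a M = 2 * π * C * tau ϑ ^ (-M) * b M := by
        rw [ha]
        ring
      rw [h4]
      have h5 : (fun N : ℤ => ((d + 1).factorial : ℂ) * (2 * π) ^ (d + 1) *
          (tau ϑ ^ N * FF (d + 1) M N.natAbs c)) =
          fun N : ℤ => 2 * π * C * tau ϑ ^ (-M) * G (M, N) := by
        funext N
        have h6 : tau ϑ ^ (M + N) = tau ϑ ^ M * tau ϑ ^ N := zpow_add₀ hτ0 M N
        have h7 : tau ϑ ^ (-M) * tau ϑ ^ M = 1 := by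
          rw [← zpow_add₀ hτ0, neg_add_cancel, zpow_zero]
        have h8 : G (M, N) = tau ϑ ^ (M + N) * FF (d + 1) M N.natAbs c := rfl
        rw [h8, h6, hC]
        calc ((d + 1).factorial : ℂ) * (2 * π) ^ (d + 1) *
              (tau ϑ ^ N * FF (d + 1) M N.natAbs c) =
              ((d + 1).factorial : ℂ) * (2 * π) ^ (d + 1) *
              (tau ϑ ^ N * FF (d + 1) M N.natAbs c) * (tau ϑ ^ (-M) * tau ϑ ^ M) := by
              rw [h7, mul_one]
          _ = _ := by ring
      rw [h5]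
      exact h3
    exact h1.unique h2
  have hinv := four_inversion (four_cont_Phi hc d ϑ) (four_per_Phi c d ϑ) a has hcoef ϑ
  have h5 : HasSum (fun M : ℤ => C * b M) (four_g (four_Phi d ϑ c) ϑ) := by
    have h6 : (fun M : ℤ => a M * Complex.exp (-(I * M * ϑ))) = fun M => C * b M := by
      funext M
      have h7 : Complex.exp (-(I * M * ϑ)) = tau ϑ ^ (-M) := by
        unfold tau
        rw [← Complex.exp_int_mul]
        congr 1
        push_cast
        ring
      have h8 : tau ϑ ^ (-M) * tau ϑ ^ (-M) = 1 := by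
        rw [← mul_zpow, four_tau_sq hϑ, one_zpow]
      rw [h7, ha]
      calc C * (tau ϑ ^ (-M) * b M) * tau ϑ ^ (-M) =
            C * b M * (tau ϑ ^ (-M) * tau ϑ ^ (-M)) := by ring
        _ = C * b M := by rw [h8, mul_one]
    rw [← h6]
    exact hinv
  have h9 : four_g (four_Phi d ϑ c) ϑ = C * ∑' p, G p := h5.unique (hbS.mul_left C)
  have h10 : chi d ϑ c = ∑' p, G p := by
    have h11 : chi d ϑ c = (1 / ((d + 1).factorial : ℂ)) * (1 / (2 * π)) ^ d *
        four_g (four_Phi d ϑ c) ϑ := rfl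
    have h12 : ((1 : ℂ) / (2 * π)) ^ d * (2 * π) ^ d = 1 := by
      rw [← mul_pow, one_div_mul_cancel (mul_ne_zero two_ne_zero hpi), one_pow]
    rw [h11, h9, hC]
    calc (1 / ((d + 1).factorial : ℂ)) * (1 / (2 * π)) ^ d *
          (((d + 1).factorial : ℂ) * (2 * π) ^ d * ∑' p, G p) =
          ((1 / ((d + 1).factorial : ℂ)) * ((d + 1).factorial : ℂ)) *
            ((1 / (2 * π)) ^ d * (2 * π) ^ d) * ∑' p, G p := by ring
      _ = ∑' p, G p := by rw [h12, one_div_mul_cancel hf]; ring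
  rw [h10]
  exact hGs.hasSum

end

end IsingNB
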