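import Pool.Agent.Helper98.NB.Defs

/-!
# NB-7 Pfaff: the product of the pair factors is a determinant
-/

namespace IsingNB

open Complex Set MeasureTheory Filter Topology
open scoped Real

noncomputable section

/-- the four point identity -/
private theorem pf_four {c x1 x2 x3 x4 w1 w2 w3 w4 : ℂ} (hx1 : x1 ≠ 0) (hx2 : x2 ≠ 0)
    (hx3 : x3 ≠ 0) (hx4 : x4 ≠ 0)
    (h1 : x1 * (1 + w1 ^ 2) = w1 * (2 * c * x1 - x1 ^ 2 - 1))
    (h2 : x2 * (1 + w2 ^ 2) = w2 * (2 * c * x2 - x2 ^ 2 - 1))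
    (h3 : x3 * (1 + w3 ^ 2) = w3 * (2 * c * x3 - x3 ^ 2 - 1))
    (h4 : x4 * (1 + w4 ^ 2) = w4 * (2 * c * x4 - x4 ^ 2 - 1))
    (d12 : 1 - w1 * w2 ≠ 0) (d13 : 1 - w1 * w3 ≠ 0) (d14 : 1 - w1 * w4 ≠ 0)
    (d23 : 1 - w2 * w3 ≠ 0) (d24 : 1 - w2 * w4 ≠ 0) (d34 : 1 - w3 * w4 ≠ 0) :
    (x1 - x2) / (1 - w1 * w2) * ((x3 - x4) / (1 - w3 * w4)) -
      (x1 - x3) / (1 - w1 * w3) * ((x2 - x4) / (1 - w2 * w4)) +
      (x1 - x4) / (1 - w1 * w4) * ((x2 - x3) / (1 - w2 * w3)) =
    (w1 / x1) * (w2 / x2) * (w3 / x3) * (w4 / x4) *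
      ((x1 - x2) / (1 - w1 * w2) * ((x1 - x3) / (1 - w1 * w3)) * ((x1 - x4) / (1 - w1 * w4)) *
        ((x2 - x3) / (1 - w2 * w3)) * ((x2 - x4) / (1 - w2 * w4)) *
        ((x3 - x4) / (1 - w3 * w4))) := by
  set N : ℂ := (x1 - x2) * (x3 - x4) * ((1 - w1 * w3) * (1 - w2 * w4) * ((1 - w1 * w4) *
      (1 - w2 * w3))) - (x1 - x3) * (x2 - x4) * ((1 - w1 * w2) * (1 - w3 * w4) * ((1 - w1 * w4) *
      (1 - w2 * w3))) + (x1 - x4) * (x2 - x3) * ((1 - w1 * w2) * (1 - w3 * w4) * ((1 - w1 * w3) *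
      (1 - w2 * w4))) with hN
  have key : N * (x1 * x2 * x3 * x4) = (w1 * w2 * w3 * w4) *
      ((x1 - x2) * (x1 - x3) * (x1 - x4) * (x2 - x3) * (x2 - x4) * (x3 - x4)) := by
    have e1 : N * (x1 * x2 * x3 * x4) =
        (x1 - x2) * (x3 - x4) * (w3 * w4 * x3 * x4 * ((x1 * (1 + w1 ^ 2)) * (x2 * (1 + w2 ^ 2))) +
          w1 * w2 * x1 * x2 * ((x3 * (1 + w3 ^ 2)) * (x4 * (1 + w4 ^ 2)))) -
        (x1 - x3) * (x2 - x4) * (w2 * w4 * x2 * x4 * ((x1 * (1 + w1 ^ 2)) * (x3 * (1 + w3 ^ 2))) +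
          w1 * w3 * x1 * x3 * ((x2 * (1 + w2 ^ 2)) * (x4 * (1 + w4 ^ 2)))) +
        (x1 - x4) * (x2 - x3) * (w2 * w3 * x2 * x3 * ((x1 * (1 + w1 ^ 2)) * (x4 * (1 + w4 ^ 2))) +
          w1 * w4 * x1 * x4 * ((x2 * (1 + w2 ^ 2)) * (x3 * (1 + w3 ^ 2)))) := by
      rw [hN]
      ring
    rw [e1, h1, h2, h3, h4]
    ring
  have eL : (x1 - x2) / (1 - w1 * w2) * ((x3 - x4) / (1 - w3 * w4)) -
      (x1 - x3) / (1 - w1 * w3) * ((x2 - x4) / (1 - w2 * w4)) +
      (x1 - x4) / (1 - w1 * w4) * ((x2 - x3) / (1 - w2 * w3)) =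
      N / ((1 - w1 * w2) * (1 - w1 * w3) * (1 - w1 * w4) * (1 - w2 * w3) * (1 - w2 * w4) *
        (1 - w3 * w4)) := by
    rw [hN]
    generalize 1 - w1 * w2 = D12 at *
    generalize 1 - w1 * w3 = D13 at *
    generalize 1 - w1 * w4 = D14 at *
    generalize 1 - w2 * w3 = D23 at *
    generalize 1 - w2 * w4 = D24 at *
    generalize 1 - w3 * w4 = D34 at *
    field_simp
  have eR : (w1 / x1) * (w2 / x2) * (w3 / x3) * (w4 / x4) *
      ((x1 - x2) / (1 - w1 * w2) * ((x1 - x3) / (1 - w1 * w3)) * ((x1 - x4) / (1 - w1 * w4)) *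
        ((x2 - x3) / (1 - w2 * w3)) * ((x2 - x4) / (1 - w2 * w4)) *
        ((x3 - x4) / (1 - w3 * w4))) =
      ((w1 * w2 * w3 * w4) *
        ((x1 - x2) * (x1 - x3) * (x1 - x4) * (x2 - x3) * (x2 - x4) * (x3 - x4)) /
        (x1 * x2 * x3 * x4)) /
      ((1 - w1 * w2) * (1 - w1 * w3) * (1 - w1 * w4) * (1 - w2 * w3) * (1 - w2 * w4) *
        (1 - w3 * w4)) := by
    generalize 1 - w1 * w2 = D12 at *
    generalize 1 - w1 * w3 = D13 at *
    generalize 1 - w1 * w4 = D14 at *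
    generalize 1 - w2 * w3 = D23 at *
    generalize 1 - w2 * w4 = D24 at *
    generalize 1 - w3 * w4 = D34 at *
    field_simp
  rw [eL, eR]
  congr 1
  rw [eq_div_iff (mul_ne_zero (mul_ne_zero (mul_ne_zero hx1 hx2) hx3) hx4)]
  exact key

/-- Schur complement of a 2x2 block -/
private theorem pf_schur {n : ℕ} (G : Matrix (Fin (n + 2)) (Fin (n + 2)) ℂ) (h00 : G 0 0 = 0)
    (h11 : G 1 1 = 0) (h10 : G 1 0 = -G 0 1) (h01 : G 0 1 ≠ 0) :
    G.det = (G 0 1) ^ 2 * (Matrix.of fun i j : Fin n => G i.succ.succ j.succ.succ -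
      (G i.succ.succ 1 * G 0 j.succ.succ - G i.succ.succ 0 * G 1 j.succ.succ) / G 0 1).det := by
  set e : Fin 2 ⊕ Fin n ≃ Fin (n + 2) :=
    finSumFinEquiv.trans (finCongr (Nat.add_comm 2 n)) with he
  have e0 : e (Sum.inl 0) = 0 := by
    apply Fin.ext
    simp [he]
  have e1 : e (Sum.inl 1) = 1 := by
    apply Fin.ext
    simp [he]
  have er : ∀ i : Fin n, e (Sum.inr i) = i.succ.succ := by
    intro i
    apply Fin.ext
    simp [he]
  set g : ℂ := G 0 1 with hg
  set A : Matrix (Fin 2) (Fin 2) ℂ := !![0, g; -g, 0] with hA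
  set Ai : Matrix (Fin 2) (Fin 2) ℂ := !![0, -g⁻¹; g⁻¹, 0] with hAi
  set B : Matrix (Fin 2) (Fin n) ℂ := Matrix.of fun a j => G (e (Sum.inl a)) j.succ.succ with hB
  set C : Matrix (Fin n) (Fin 2) ℂ := Matrix.of fun i a => G i.succ.succ (e (Sum.inl a)) with hC
  set D : Matrix (Fin n) (Fin n) ℂ := Matrix.of fun i j => G i.succ.succ j.succ.succ with hD
  have hsub : G.submatrix e e = Matrix.fromBlocks A B C D := by
    ext i j
    rcases i with i | i <;> rcases j with j | j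
    · simp only [Matrix.submatrix_apply, Matrix.fromBlocks_apply₁₁]
      fin_cases i <;> fin_cases j
      · simpa [e0, hA] using h00
      · simp [e0, e1, hA, hg]
      · simpa [e0, e1, hA] using h10
      · simpa [e1, hA] using h11
    · simp [er, hB]
    · simp [er, hC]
    · simp [er, hD]
  have hAA : A * Ai = 1 := by
    rw [hA, hAi]
    ext i j
    fin_cases i <;> fin_cases j <;> simp [Matrix.mul_apply, Fin.sum_univ_two, h01]
  have hAA' : Ai * A = 1 := by
    rw [hA, hAi]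
    ext i j
    fin_cases i <;> fin_cases j <;> simp [Matrix.mul_apply, Fin.sum_univ_two, h01]
  let _ : Invertible A := ⟨Ai, hAA', hAA⟩
  have hinv : ⅟A = Ai := rfl
  rw [← Matrix.det_submatrix_equiv_self e G, hsub, Matrix.det_fromBlocks₁₁, hinv]
  have hdetA : A.det = g ^ 2 := by
    rw [hA, Matrix.det_fin_two_of]
    ring
  rw [hdetA]
  congr 2
  ext i j
  rw [Matrix.sub_apply, Matrix.mul_apply, Fin.sum_univ_two, Matrix.mul_apply, Matrix.mul_apply,
    Fin.sum_univ_two, Fin.sum_univ_two]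
  simp only [hB, hC, hD, hAi, Matrix.of_apply, e0, e1, Matrix.cons_val', Matrix.cons_val_zero,
    Matrix.cons_val_one, Matrix.cons_val_fin_one]
  field_simp
  ring

/-- removing two points from the determinant -/
private theorem pf_det_step {n : ℕ} (c : ℂ) (x w : Fin (n + 2) → ℂ) (hx : ∀ i, x i ≠ 0)
    (hw : ∀ i, w i ≠ 0) (hr : ∀ i, x i + (x i)⁻¹ + w i + (w i)⁻¹ = 2 * c)
    (hd : ∀ i l, 1 - w i * w l ≠ 0) :
    Matrix.det (Matrix.of fun i l => (x i - x l) / (1 - w i * w l)) =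
      ((x 0 - x 1) / (1 - w 0 * w 1)) ^ 2 * (w 0 / x 0 * (w 1 / x 1)) ^ n *
      (∏ i : Fin n, (w i.succ.succ / x i.succ.succ *
        ((x 0 - x i.succ.succ) / (1 - w 0 * w i.succ.succ)) *
        ((x 1 - x i.succ.succ) / (1 - w 1 * w i.succ.succ)))) ^ 2 *
      Matrix.det (Matrix.of fun i l : Fin n => (x i.succ.succ - x l.succ.succ) /
        (1 - w i.succ.succ * w l.succ.succ)) := by
  have hpol : ∀ i, x i * (1 + w i ^ 2) = w i * (2 * c * x i - x i ^ 2 - 1) := by
    intro i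
    have h1 := hr i
    have h2 := hx i
    have h3 := hw i
    rw [← h1]
    field_simp
    ring
  set G : Matrix (Fin (n + 2)) (Fin (n + 2)) ℂ :=
    Matrix.of fun i l => (x i - x l) / (1 - w i * w l) with hG
  have hGa : ∀ i l, G i l = (x i - x l) / (1 - w i * w l) := fun i l => rfl
  have hanti : ∀ i l, G l i = -G i l := by
    intro i l
    rw [hGa, hGa, mul_comm (w l), ← neg_div, neg_sub]
  have hdiag : ∀ i, G i i = 0 := fun i => by rw [hGa, sub_self, zero_div]
  by_cases h01 : G 0 1 = 0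
  · -- two equal rows
    have hx01 : x 0 = x 1 := by
      rw [hGa, div_eq_zero_iff] at h01
      exact sub_eq_zero.1 (h01.resolve_right (hd 0 1))
    have hw01 : w 0 = w 1 := by
      have h2 := hr 0
      rw [← hr 1, hx01] at h2
      have h3 : w 0 + (w 0)⁻¹ = w 1 + (w 1)⁻¹ := by linear_combination h2
      have hw0 := hw 0
      have hw1 := hw 1
      have h4 : (w 0 - w 1) * (1 - w 0 * w 1) = 0 := by
        field_simp at h3
        linear_combination -h3
      exact sub_eq_zero.1 ((mul_eq_zero.1 h4).resolve_right (hd 0 1))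
    have hdet : G.det = 0 := by
      refine Matrix.det_zero_of_row_eq (i := 0) (j := 1) (by simp) ?_
      funext l
      show G 0 l = G 1 l
      rw [hGa, hGa, hx01, hw01]
    rw [hdet, hx01, sub_self, zero_div]
    simp
  · rw [pf_schur G (hdiag 0) (hdiag 1) (hanti 0 1) h01, hGa 0 1]
    set g : ℂ := (x 0 - x 1) / (1 - w 0 * w 1) with hg
    set a : Fin n → ℂ := fun i => w i.succ.succ / x i.succ.succ *
        ((x 0 - x i.succ.succ) / (1 - w 0 * w i.succ.succ)) *
        ((x 1 - x i.succ.succ) / (1 - w 1 * w i.succ.succ)) with ha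
    set q : ℂ := w 0 / x 0 * (w 1 / x 1) with hq
    set G' : Matrix (Fin n) (Fin n) ℂ := Matrix.of fun i l : Fin n =>
      (x i.succ.succ - x l.succ.succ) / (1 - w i.succ.succ * w l.succ.succ) with hG'
    have hg0 : g ≠ 0 := h01
    have hmat : (Matrix.of fun i j : Fin n => G i.succ.succ j.succ.succ -
        (G i.succ.succ 1 * G 0 j.succ.succ - G i.succ.succ 0 * G 1 j.succ.succ) / g) =
        Matrix.of fun i j : Fin n => (q * a i) * (Matrix.of fun i j : Fin n => a j * G' i j) i j := by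
      ext i j
      simp only [Matrix.of_apply]
      have h4 := pf_four (c := c) (hx 0) (hx 1) (hx i.succ.succ) (hx j.succ.succ) (hpol 0) (hpol 1)
        (hpol i.succ.succ) (hpol j.succ.succ) (hd 0 1) (hd 0 i.succ.succ) (hd 0 j.succ.succ)
        (hd 1 i.succ.succ) (hd 1 j.succ.succ) (hd i.succ.succ j.succ.succ)
      rw [hanti 1 i.succ.succ, hanti 0 i.succ.succ]
      simp only [← hGa] at h4
      have e5 : G 0 1 = g := rfl
      rw [e5] at h4
      have e6 : G' i j = G i.succ.succ j.succ.succ := rfl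
      have e7 : ∀ i, a i = w i.succ.succ / x i.succ.succ * G 0 i.succ.succ * G 1 i.succ.succ :=
        fun i => rfl
      rw [e6, e7, e7, hq]
      have h5 : G i.succ.succ j.succ.succ -
          (-G 1 i.succ.succ * G 0 j.succ.succ - -G 0 i.succ.succ * G 1 j.succ.succ) / g =
          (g * G i.succ.succ j.succ.succ - G 0 i.succ.succ * G 1 j.succ.succ +
            G 0 j.succ.succ * G 1 i.succ.succ) / g := by
        rw [eq_div_iff hg0, sub_mul, div_mul_cancel₀ _ hg0]
        ring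
      rw [h5, h4, div_eq_iff hg0]
      generalize G 0 i.succ.succ = G0i
      generalize G 0 j.succ.succ = G0j
      generalize G 1 i.succ.succ = G1i
      generalize G 1 j.succ.succ = G1j
      generalize G i.succ.succ j.succ.succ = Gij
      ring
    rw [hmat, Matrix.det_mul_column, Matrix.det_mul_row, Finset.prod_mul_distrib,
      Finset.prod_const, Finset.card_univ, Fintype.card_fin]
    ring

private theorem pf_pairs_succ {n : ℕ} (x w : Fin (n + 1) → ℂ) :
    pairs x w = (∏ j : Fin n, HH (x 0) (w 0) (x j.succ) (w j.succ)) *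
      pairs (fun i => x i.succ) (fun i => w i.succ) := by
  unfold pairs
  rw [Fin.prod_univ_succ, Fin.prod_Ioi_zero]
  congr 1
  refine Finset.prod_congr rfl fun i _ => ?_
  rw [Fin.prod_Ioi_succ]

private theorem pf_HH (x w x' w' : ℂ) :
    HH x w x' w' = -(w / x * (w' / x')) * ((x - x') / (1 - w * w')) ^ 2 := by
  unfold HH
  rw [div_pow, div_mul_div_comm, ← neg_div, div_mul_div_comm]
  congr 1
  ring

theorem pairs_eq_det {k : ℕ} (c : ℂ) (x w : Fin (2 * k) → ℂ) (hx : ∀ i, x i ≠ 0) (hw : ∀ i, w i ≠ 0)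
    (hr : ∀ i, x i + (x i)⁻¹ + w i + (w i)⁻¹ = 2 * c) (hd : ∀ i l, 1 - w i * w l ≠ 0) :
    pairs x w = (-1) ^ k * (∏ i, w i / x i) *
      Matrix.det (Matrix.of fun i l => (x i - x l) / (1 - w i * w l)) := by
  induction k with
  | zero =>
    have : IsEmpty (Fin (2 * 0)) := Fin.isEmpty
    unfold pairs
    rw [Matrix.det_isEmpty]
    simp
  | succ k ih =>
    have ih' := ih (fun i => x i.succ.succ) (fun i => w i.succ.succ) (fun i => hx _)
      (fun i => hw _) (fun i => hr _) (fun i l => hd _ _)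
    have hdet := pf_det_step (n := 2 * k) c x w hx hw hr hd
    have hp1 := pf_pairs_succ (n := 2 * k + 1) x w
    have hp2 := pf_pairs_succ (n := 2 * k) (fun i => x i.succ) (fun i => w i.succ)
    rw [ih'] at hp2
    have hq : (∏ i : Fin (2 * (k + 1)), w i / x i) = w 0 / x 0 * (w 1 / x 1 *
        ∏ i : Fin (2 * k), w i.succ.succ / x i.succ.succ) := by
      have h1 := Fin.prod_univ_succ (n := 2 * k + 1) (fun i => w i / x i)
      have h2 := Fin.prod_univ_succ (n := 2 * k) (fun i => w i.succ / x i.succ)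
      rw [h2] at h1
      exact h1
    have hHH : (∏ j : Fin (2 * k + 1), HH (x 0) (w 0) (x j.succ) (w j.succ)) =
        HH (x 0) (w 0) (x 1) (w 1) *
          ∏ j : Fin (2 * k), HH (x 0) (w 0) (x j.succ.succ) (w j.succ.succ) := by
      rw [Fin.prod_univ_succ]
      rfl
    rw [hp1, hp2, hHH, hq]
    refine Eq.trans ?_ (congrArg (fun z => (-1) ^ (k + 1) * (w 0 / x 0 * (w 1 / x 1 *
        ∏ i : Fin (2 * k), w i.succ.succ / x i.succ.succ)) * z) hdet.symm)
    have e1 : (∏ j : Fin (2 * k), HH (x 0) (w 0) (x j.succ.succ) (w j.succ.succ)) =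
        (w 0 / x 0) ^ (2 * k) * (∏ i : Fin (2 * k), w i.succ.succ / x i.succ.succ) *
        (∏ i : Fin (2 * k), ((x 0 - x i.succ.succ) / (1 - w 0 * w i.succ.succ))) ^ 2 := by
      have h1 : ∀ i ∈ (Finset.univ : Finset (Fin (2 * k))),
          HH (x 0) (w 0) (x i.succ.succ) (w i.succ.succ) =
          (-1) * ((w 0 / x 0) * ((w i.succ.succ / x i.succ.succ) *
            ((x 0 - x i.succ.succ) / (1 - w 0 * w i.succ.succ)) ^ 2)) := by
        intro i _
        rw [pf_HH]
        ring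
      rw [Finset.prod_congr rfl h1, Finset.prod_mul_distrib, Finset.prod_mul_distrib,
        Finset.prod_mul_distrib, Finset.prod_pow, Finset.prod_const, Finset.prod_const,
        Finset.card_univ, Fintype.card_fin, pow_mul (-1 : ℂ), neg_one_sq, one_pow]
      ring
    have e2 : (∏ j : Fin (2 * k), HH (x 1) (w 1) (x j.succ.succ) (w j.succ.succ)) =
        (w 1 / x 1) ^ (2 * k) * (∏ i : Fin (2 * k), w i.succ.succ / x i.succ.succ) *
        (∏ i : Fin (2 * k), ((x 1 - x i.succ.succ) / (1 - w 1 * w i.succ.succ))) ^ 2 := by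
      have h1 : ∀ i ∈ (Finset.univ : Finset (Fin (2 * k))),
          HH (x 1) (w 1) (x i.succ.succ) (w i.succ.succ) =
          (-1) * ((w 1 / x 1) * ((w i.succ.succ / x i.succ.succ) *
            ((x 1 - x i.succ.succ) / (1 - w 1 * w i.succ.succ)) ^ 2)) := by
        intro i _
        rw [pf_HH]
        ring
      rw [Finset.prod_congr rfl h1, Finset.prod_mul_distrib, Finset.prod_mul_distrib,
        Finset.prod_mul_distrib, Finset.prod_pow, Finset.prod_const, Finset.prod_const,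
        Finset.card_univ, Fintype.card_fin, pow_mul (-1 : ℂ), neg_one_sq, one_pow]
      ring
    have e3 : (∏ j : Fin (2 * k), HH (x (0 : Fin (2 * k + 1)).succ) (w (0 : Fin (2 * k + 1)).succ)
        (x j.succ.succ) (w j.succ.succ)) =
        ∏ j : Fin (2 * k), HH (x 1) (w 1) (x j.succ.succ) (w j.succ.succ) := rfl
    rw [e3, e1, e2, pf_HH, Finset.prod_mul_distrib, Finset.prod_mul_distrib, mul_pow (w 0 / x 0)]
    ring

end

end IsingNB
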