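import Pool.Agent.Helper98.NB.Defs

/-!
# Balance of the deformed torus (NB-18a)
-/

set_option autoImplicit false

namespace IsingNB

open Complex Set MeasureTheory Filter Topology
open scoped Real

noncomputable section

namespace Bal

/-! ### the shape function on the unit circle -/

/-- the shape function as function of a point of the unit circle -/
def betc (b : ℝ) (z : ℂ) : ℝ := z.im / (1 - b * z.re)

theorem betc_den_pos {b : ℝ} (hb1 : -1 < b) (hb2 : b < 1) {z : ℂ} (hz : ‖z‖ = 1) :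
    0 < 1 - b * z.re := by
  have h1 := Complex.abs_re_le_norm z
  rw [hz] at h1
  have h2 : |b * z.re| ≤ |b| := by
    rw [abs_mul]
    calc |b| * |z.re| ≤ |b| * 1 := mul_le_mul_of_nonneg_left h1 (abs_nonneg b)
      _ = |b| := mul_one _
  have h3 : |b| < 1 := abs_lt.2 ⟨hb1, hb2⟩
  have h4 := le_abs_self (b * z.re)
  linarith

theorem betc_sq {b : ℝ} (hb1 : -1 < b) (hb2 : b < 1) {z : ℂ} (hz : ‖z‖ = 1) :
    (1 - b ^ 2) * betc b z ^ 2 + ((z.re - b) / (1 - b * z.re)) ^ 2 = 1 := by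
  have hd := betc_den_pos hb1 hb2 hz
  have h1 : z.re ^ 2 + z.im ^ 2 = 1 := by
    have := Complex.sq_norm z
    rw [hz, Complex.normSq_apply] at this
    nlinarith
  unfold betc
  have hne : (1 - b * z.re) ^ 2 ≠ 0 := (pow_pos hd 2).ne'
  rw [div_pow, div_pow, ← mul_div_assoc, ← add_div, div_eq_one_iff_eq hne]
  have h2 : z.im ^ 2 = 1 - z.re ^ 2 := by linarith
  rw [h2]
  ring

/-- the maximum of the shape function -/
def bmax (b : ℝ) : ℝ := (Real.sqrt (1 - b ^ 2))⁻¹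

theorem one_sub_sq_pos {b : ℝ} (hb1 : -1 < b) (hb2 : b < 1) : 0 < 1 - b ^ 2 := by
  nlinarith

theorem bmax_pos {b : ℝ} (hb1 : -1 < b) (hb2 : b < 1) : 0 < bmax b :=
  inv_pos.2 (Real.sqrt_pos.2 (one_sub_sq_pos hb1 hb2))

theorem bmax_sq {b : ℝ} (hb1 : -1 < b) (hb2 : b < 1) : (1 - b ^ 2) * bmax b ^ 2 = 1 := by
  unfold bmax
  have h := one_sub_sq_pos hb1 hb2
  rw [inv_pow, Real.sq_sqrt h.le, mul_inv_cancel₀ h.ne']

theorem abs_betc_le {b : ℝ} (hb1 : -1 < b) (hb2 : b < 1) {z : ℂ} (hz : ‖z‖ = 1) :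
    |betc b z| ≤ bmax b := by
  have h1 := betc_sq hb1 hb2 hz
  have h2 := bmax_sq hb1 hb2
  have h3 := one_sub_sq_pos hb1 hb2
  have h4 : betc b z ^ 2 ≤ bmax b ^ 2 := by
    have h5 : (1 - b ^ 2) * betc b z ^ 2 ≤ (1 - b ^ 2) * bmax b ^ 2 := by
      nlinarith [sq_nonneg ((z.re - b) / (1 - b * z.re))]
    exact le_of_mul_le_mul_left h5 h3
  have h6 := sq_le_sq.1 h4
  rwa [abs_of_pos (bmax_pos hb1 hb2)] at h6

theorem re_eq_of_betc_sq {b : ℝ} (hb1 : -1 < b) (hb2 : b < 1) {z : ℂ} (hz : ‖z‖ = 1)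
    (h : betc b z ^ 2 = bmax b ^ 2) : z.re = b := by
  have h1 := betc_sq hb1 hb2 hz
  have h2 := bmax_sq hb1 hb2
  rw [h, h2] at h1
  have hd := betc_den_pos hb1 hb2 hz
  have h3 : ((z.re - b) / (1 - b * z.re)) ^ 2 = 0 := by linarith
  have h4 : (z.re - b) / (1 - b * z.re) = 0 := by
    exact pow_eq_zero_iff (two_ne_zero) |>.1 h3
  rcases div_eq_zero_iff.1 h4 with h5 | h5
  · linarith
  · exact absurd h5 hd.ne'

theorem im_eq_of_betc {b : ℝ} (hb1 : -1 < b) (hb2 : b < 1) {z : ℂ} (hre : z.re = b) :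
    z.im = betc b z * (1 - b ^ 2) := by
  unfold betc
  rw [hre]
  have h3 := one_sub_sq_pos hb1 hb2
  have h4 : 1 - b * b = 1 - b ^ 2 := by ring
  rw [h4, div_mul_cancel₀ _ h3.ne']

theorem bmax_mul {b : ℝ} (hb1 : -1 < b) (hb2 : b < 1) :
    bmax b * (1 - b ^ 2) = Real.sqrt (1 - b ^ 2) := by
  have h3 := one_sub_sq_pos hb1 hb2
  unfold bmax
  have h4 : Real.sqrt (1 - b ^ 2) ≠ 0 := (Real.sqrt_pos.2 h3).ne'
  calc (Real.sqrt (1 - b ^ 2))⁻¹ * (1 - b ^ 2)
      = (Real.sqrt (1 - b ^ 2))⁻¹ * (Real.sqrt (1 - b ^ 2) * Real.sqrt (1 - b ^ 2)) := by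
        rw [Real.mul_self_sqrt h3.le]
    _ = Real.sqrt (1 - b ^ 2) := by
        rw [← mul_assoc, inv_mul_cancel₀ h4, one_mul]

theorem eq_exp_of_betc_eq_bmax {b : ℝ} (hb1 : -1 < b) (hb2 : b < 1) {z : ℂ} (hz : ‖z‖ = 1)
    (h : betc b z = bmax b) : z = Complex.exp (I * (Real.arccos b : ℝ)) := by
  have hre := re_eq_of_betc_sq hb1 hb2 hz (by rw [h])
  have him := im_eq_of_betc hb1 hb2 hre
  rw [h, bmax_mul hb1 hb2] at him
  apply Complex.ext
  · rw [mul_comm I, Complex.exp_ofReal_mul_I_re, Real.cos_arccos hb1.le hb2.le, hre]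
  · rw [mul_comm I, Complex.exp_ofReal_mul_I_im, Real.sin_arccos, him]

theorem eq_exp_of_betc_eq_neg_bmax {b : ℝ} (hb1 : -1 < b) (hb2 : b < 1) {z : ℂ} (hz : ‖z‖ = 1)
    (h : betc b z = -bmax b) :
    z = starRingEnd ℂ (Complex.exp (I * (Real.arccos b : ℝ))) := by
  have h1 : ‖starRingEnd ℂ z‖ = 1 := by rw [Complex.norm_conj, hz]
  have h2 : betc b (starRingEnd ℂ z) = bmax b := by
    unfold betc at h ⊢
    rw [Complex.conj_im, Complex.conj_re, neg_div, h, neg_neg]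
  rw [← eq_exp_of_betc_eq_bmax hb1 hb2 h1 h2, Complex.conj_conj]

theorem betc_exp (c0 t : ℝ) : betc (c0 - 1) (Complex.exp (I * t)) = bet c0 t := by
  unfold betc bet
  rw [mul_comm I, Complex.exp_ofReal_mul_I_re, Complex.exp_ofReal_mul_I_im]

/-- the last point -/
def lastc {d : ℕ} (τ : ℂ) (x : Fin d → ℂ) : ℂ := τ * starRingEnd ℂ (∏ i, x i)

theorem norm_tau (ϑ : ℝ) : ‖tau ϑ‖ = 1 := by
  unfold tau
  rw [mul_comm I, Complex.norm_exp_ofReal_mul_I]

theorem norm_lastc {d : ℕ} {τ : ℂ} (hτ : ‖τ‖ = 1) {x : Fin d → ℂ} (hx : ∀ i, ‖x i‖ = 1) :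
    ‖lastc τ x‖ = 1 := by
  unfold lastc
  rw [norm_mul, hτ, one_mul, Complex.norm_conj, norm_prod]
  exact Finset.prod_eq_one fun i _ => hx i

/-- the mean of the shape function over the points -/
def avgc {d : ℕ} (b : ℝ) (τ : ℂ) (x : Fin d → ℂ) : ℝ :=
  ((∑ i, betc b (x i)) + betc b (lastc τ x)) / (d + 1)

theorem avgc_exp {d : ℕ} (c0 ϑ : ℝ) (t : Fin d → ℝ) :
    avgc (c0 - 1) (tau ϑ) (fun i => Complex.exp (I * t i)) = avg c0 (full ϑ t) := by
  have hlast : lastc (tau ϑ) (fun i => Complex.exp (I * t i)) =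
      Complex.exp (I * ((ϑ - ∑ i, t i : ℝ) : ℂ)) := by
    unfold lastc tau
    rw [← Complex.exp_sum, ← Complex.exp_conj, ← Complex.exp_add]
    congr 1
    rw [map_sum]
    simp only [map_mul, Complex.conj_I, Complex.conj_ofReal]
    push_cast
    rw [mul_sub, Finset.mul_sum, sub_eq_add_neg, ← Finset.sum_neg_distrib]
    congr 1
    apply Finset.sum_congr rfl
    intro i _
    ring
  unfold avgc avg
  rw [hlast, Fin.sum_univ_castSucc]
  simp only [betc_exp, full, Fin.snoc_castSucc, Fin.snoc_last]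
  push_cast
  rfl

theorem avgc_le {d : ℕ} {b : ℝ} (hb1 : -1 < b) (hb2 : b < 1) {τ : ℂ} (hτ : ‖τ‖ = 1)
    {x : Fin d → ℂ} (hx : ∀ i, ‖x i‖ = 1) : |avgc b τ x| ≤ bmax b := by
  have hd : (0 : ℝ) < d + 1 := by positivity
  unfold avgc
  rw [abs_div, abs_of_pos hd, div_le_iff₀ hd]
  calc |(∑ i, betc b (x i)) + betc b (lastc τ x)|
      ≤ |∑ i, betc b (x i)| + |betc b (lastc τ x)| := abs_add_le _ _
    _ ≤ (∑ i, |betc b (x i)|) + bmax b :=
        add_le_add (Finset.abs_sum_le_sum_abs _ _) (abs_betc_le hb1 hb2 (norm_lastc hτ hx))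
    _ ≤ (∑ _i : Fin d, bmax b) + bmax b := by
        gcongr with i
        exact abs_betc_le hb1 hb2 (hx i)
    _ = bmax b * (d + 1) := by
        rw [Finset.sum_const, Finset.card_univ, Fintype.card_fin, nsmul_eq_mul]
        ring

/-- equality forces all points to be equal to a value where the bound is attained -/
theorem eq_of_avgc {d : ℕ} {τ : ℂ} {x : Fin d → ℂ} {B : ℝ} (g : ℂ → ℝ)
    (hg : ∀ i, g (x i) ≤ B) (hgl : g (lastc τ x) ≤ B)
    (h : (∑ i, g (x i)) + g (lastc τ x) = (d + 1) * B) :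
    (∀ i, g (x i) = B) ∧ g (lastc τ x) = B := by
  have h1 : ∑ i, (B - g (x i)) + (B - g (lastc τ x)) = 0 := by
    rw [Finset.sum_sub_distrib, Finset.sum_const, Finset.card_univ, Fintype.card_fin, nsmul_eq_mul]
    linarith
  have h2 : 0 ≤ ∑ i, (B - g (x i)) := Finset.sum_nonneg fun i _ => by linarith [hg i]
  have h3 : ∑ i, (B - g (x i)) = 0 := by linarith
  have h4 := (Finset.sum_eq_zero_iff_of_nonneg (fun i _ => by linarith [hg i])).1 h3
  constructor
  · intro i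
    have := h4 i (Finset.mem_univ i)
    linarith
  · linarith

theorem prod_mul_lastc {d : ℕ} {τ : ℂ} {x : Fin d → ℂ} (hx : ∀ i, ‖x i‖ = 1) :
    (∏ i, x i) * lastc τ x = τ := by
  unfold lastc
  have h1 : ‖∏ i, x i‖ = 1 := by
    rw [norm_prod]
    exact Finset.prod_eq_one fun i _ => hx i
  have h2 : (∏ i, x i) * starRingEnd ℂ (∏ i, x i) = 1 := by
    rw [Complex.mul_conj, Complex.normSq_eq_norm_sq, h1]
    norm_num
  calc (∏ i, x i) * (τ * starRingEnd ℂ (∏ i, x i))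
      = τ * ((∏ i, x i) * starRingEnd ℂ (∏ i, x i)) := by ring
    _ = τ := by rw [h2, mul_one]

theorem avgc_lt {d : ℕ} {b : ℝ} (hb1 : -1 < b) (hb2 : b < 1) {τ : ℂ} (hτ : ‖τ‖ = 1)
    (hτr : starRingEnd ℂ τ = τ)
    (he : Complex.exp (I * ((d + 1 : ℕ) * (Real.arccos b : ℝ))) ≠ τ)
    {x : Fin d → ℂ} (hx : ∀ i, ‖x i‖ = 1) : |avgc b τ x| < bmax b := by
  refine lt_of_le_of_ne (avgc_le hb1 hb2 hτ hx) fun heq => ?_
  have hd : (0 : ℝ) < d + 1 := by positivity
  have hexp : Complex.exp (I * (Real.arccos b : ℝ)) ^ (d + 1) =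
      Complex.exp (I * ((d + 1 : ℕ) * (Real.arccos b : ℝ))) := by
    rw [← Complex.exp_nat_mul]
    congr 1
    ring
  rcases abs_cases (avgc b τ x) with ⟨h1, _⟩ | ⟨h1, _⟩
  · rw [h1] at heq
    have h2 : (∑ i, betc b (x i)) + betc b (lastc τ x) = (d + 1) * bmax b := by
      unfold avgc at heq
      rw [div_eq_iff hd.ne'] at heq
      rw [heq]; ring
    obtain ⟨h3, h4⟩ := eq_of_avgc (betc b)
      (fun i => (le_abs_self _).trans (abs_betc_le hb1 hb2 (hx i)))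
      ((le_abs_self _).trans (abs_betc_le hb1 hb2 (norm_lastc hτ hx))) h2
    have h5 := prod_mul_lastc (τ := τ) hx
    have h6 : ∀ i, x i = Complex.exp (I * (Real.arccos b : ℝ)) := fun i =>
      eq_exp_of_betc_eq_bmax hb1 hb2 (hx i) (h3 i)
    rw [eq_exp_of_betc_eq_bmax hb1 hb2 (norm_lastc hτ hx) h4, Finset.prod_congr rfl fun i _ => h6 i,
      Finset.prod_const, Finset.card_univ, Fintype.card_fin, ← pow_succ, hexp] at h5
    exact he h5
  · rw [h1] at heq
    have h2 : (∑ i, (-betc b (x i))) + (-betc b (lastc τ x)) = (d + 1) * bmax b := by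
      have heq' : avgc b τ x = -bmax b := by linarith
      unfold avgc at heq'
      rw [div_eq_iff hd.ne'] at heq'
      rw [Finset.sum_neg_distrib]
      linarith
    obtain ⟨h3, h4⟩ := eq_of_avgc (fun z => -betc b z)
      (fun i => (neg_le_abs _).trans (abs_betc_le hb1 hb2 (hx i)))
      ((neg_le_abs _).trans (abs_betc_le hb1 hb2 (norm_lastc hτ hx))) h2
    have h5 := prod_mul_lastc (τ := τ) hx
    have h6 : ∀ i, x i = starRingEnd ℂ (Complex.exp (I * (Real.arccos b : ℝ))) := fun i =>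
      eq_exp_of_betc_eq_neg_bmax hb1 hb2 (hx i) (by linarith [h3 i])
    rw [eq_exp_of_betc_eq_neg_bmax hb1 hb2 (norm_lastc hτ hx) (by linarith [h4]),
      Finset.prod_congr rfl fun i _ => h6 i,
      Finset.prod_const, Finset.card_univ, Fintype.card_fin, ← pow_succ, ← map_pow, hexp] at h5
    have h7 := congrArg (starRingEnd ℂ) h5
    rw [Complex.conj_conj, hτr] at h7
    exact he h7

theorem exists_avgc_bound {d : ℕ} {b : ℝ} (hb1 : -1 < b) (hb2 : b < 1) {τ : ℂ} (hτ : ‖τ‖ = 1)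
    (hτr : starRingEnd ℂ τ = τ)
    (he : Complex.exp (I * ((d + 1 : ℕ) * (Real.arccos b : ℝ))) ≠ τ) :
    ∃ η < bmax b, 0 ≤ η ∧ ∀ x : Fin d → ℂ, (∀ i, ‖x i‖ = 1) → |avgc b τ x| ≤ η := by
  have hcomp : IsCompact (Set.pi Set.univ fun _ : Fin d => Metric.sphere (0 : ℂ) 1) :=
    isCompact_univ_pi fun _ => isCompact_sphere 0 1
  have hmem : ∀ x : Fin d → ℂ, x ∈ (Set.pi Set.univ fun _ : Fin d => Metric.sphere (0 : ℂ) 1) ↔
      ∀ i, ‖x i‖ = 1 := by
    intro x
    simp [Set.mem_pi]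
  have hne : (Set.pi Set.univ fun _ : Fin d => Metric.sphere (0 : ℂ) 1).Nonempty :=
    ⟨fun _ => 1, (hmem _).2 fun _ => norm_one⟩
  have hbetc : ContinuousOn (betc b) (Metric.sphere (0 : ℂ) 1) := by
    apply ContinuousOn.div
    · exact Complex.continuous_im.continuousOn
    · exact (continuous_const.sub (continuous_const.mul Complex.continuous_re)).continuousOn
    · intro z hz
      exact (betc_den_pos hb1 hb2 (mem_sphere_zero_iff_norm.1 hz)).ne'
  have hcont : ContinuousOn (fun x : Fin d → ℂ => |avgc b τ x|)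
      (Set.pi Set.univ fun _ : Fin d => Metric.sphere (0 : ℂ) 1) := by
    apply ContinuousOn.abs
    unfold avgc
    apply ContinuousOn.div_const
    apply ContinuousOn.add
    · apply continuousOn_finsetSum
      intro i _
      apply hbetc.comp (continuous_apply i).continuousOn
      intro x hx
      exact mem_sphere_zero_iff_norm.2 ((hmem x).1 hx i)
    · apply hbetc.comp
      · apply Continuous.continuousOn
        unfold lastc
        exact continuous_const.mul (Complex.continuous_conj.comp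
          (continuous_finsetProd _ fun i _ => continuous_apply i))
      · intro x hx
        exact mem_sphere_zero_iff_norm.2 (norm_lastc hτ ((hmem x).1 hx))
  obtain ⟨x0, hx0, hmax⟩ := hcomp.exists_isMaxOn hne hcont
  refine ⟨|avgc b τ x0|, avgc_lt hb1 hb2 hτ hτr he ((hmem x0).1 hx0), abs_nonneg _, fun x hx => ?_⟩
  exact hmax ((hmem x).2 hx)

theorem conj_tau {ϑ : ℝ} (hϑ : ϑ = 0 ∨ ϑ = π) : starRingEnd ℂ (tau ϑ) = tau ϑ := by
  unfold tau
  rcases hϑ with rfl | rfl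
  · simp
  · rw [mul_comm I, Complex.exp_pi_mul_I]
    simp

theorem bet_continuous {c0 : ℝ} (h0 : 0 < c0) (h2 : c0 < 2) : Continuous (bet c0) := by
  unfold bet
  apply Continuous.div Real.continuous_sin
  · exact continuous_const.sub (continuous_const.mul Real.continuous_cos)
  · intro t
    have h := betc_den_pos (b := c0 - 1) (by linarith) (by linarith)
      (z := Complex.exp (t * I)) (Complex.norm_exp_ofReal_mul_I t)
    rw [Complex.exp_ofReal_mul_I_re] at h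
    exact h.ne'

theorem bet_neg (c0 t : ℝ) : bet c0 (-t) = -bet c0 t := by
  unfold bet
  rw [Real.sin_neg, Real.cos_neg, neg_div]

theorem bet_fe {c0 : ℝ} (h0 : 0 < c0) (h2 : c0 < 2) : bet c0 (fe c0) = bmax (c0 - 1) := by
  unfold bet fe
  have hb1 : -1 < c0 - 1 := by linarith
  have hb2 : c0 - 1 < 1 := by linarith
  rw [Real.sin_arccos, Real.cos_arccos hb1.le hb2.le]
  have h3 := one_sub_sq_pos hb1 hb2
  have h4 : 1 - (c0 - 1) * (c0 - 1) = 1 - (c0 - 1) ^ 2 := by ring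
  rw [h4, ← bmax_mul hb1 hb2, mul_div_assoc, div_self h3.ne', mul_one]

theorem fe_pos {c0 : ℝ} (h2 : c0 < 2) : 0 < fe c0 := by
  unfold fe
  exact Real.arccos_pos.2 (by linarith)

end Bal

open Bal

theorem exists_balance (d : ℕ) {ϑ : ℝ} (hϑ : ϑ = 0 ∨ ϑ = π) {c0 : ℝ} (h0 : 0 < c0) (h2 : c0 < 2)
    (he : Complex.exp (I * ((d + 1 : ℕ) * fe c0)) ≠ tau ϑ) :
    ∃ r ∈ Ioo 0 (fe c0), ∀ t : Fin d → ℝ, ∃ a ∈ Icc (-(fe c0 - r)) (fe c0 - r),
      bet c0 a = avg c0 (full ϑ t) := by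
  have hb1 : -1 < c0 - 1 := by linarith
  have hb2 : c0 - 1 < 1 := by linarith
  obtain ⟨η, hη1, hη0, hη⟩ := exists_avgc_bound (d := d) hb1 hb2 (norm_tau ϑ) (conj_tau hϑ) he
  have hfe := fe_pos h2
  have hcont := bet_continuous h0 h2
  have hb0 : bet c0 0 = 0 := by
    unfold bet
    rw [Real.sin_zero, zero_div]
  have hmid : (η + bmax (c0 - 1)) / 2 ∈ Icc (bet c0 0) (bet c0 (fe c0)) := by
    rw [hb0, bet_fe h0 h2]
    constructor <;> linarith
  obtain ⟨y, hy, hyη⟩ := intermediate_value_Icc hfe.le hcont.continuousOn hmid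
  have hy0 : y ≠ 0 := by
    rintro rfl
    rw [hb0] at hyη
    linarith
  have hyfe : y ≠ fe c0 := by
    rintro rfl
    rw [bet_fe h0 h2] at hyη
    linarith
  have hy0' : 0 < y := lt_of_le_of_ne hy.1 hy0.symm
  have hyfe' : y < fe c0 := lt_of_le_of_ne hy.2 hyfe
  refine ⟨fe c0 - y, ⟨by linarith, by linarith⟩, fun t => ?_⟩
  have h1 : fe c0 - (fe c0 - y) = y := by ring
  rw [h1]
  have h3 : |avg c0 (full ϑ t)| ≤ η := by
    rw [← avgc_exp]
    apply hη
    intro i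
    rw [mul_comm I, Complex.norm_exp_ofReal_mul_I]
  have h4 : avg c0 (full ϑ t) ∈ Icc (bet c0 (-y)) (bet c0 y) := by
    rw [bet_neg, hyη]
    have := abs_le.1 h3
    constructor <;> linarith [this.1, this.2]
  obtain ⟨a, ha, haa⟩ := intermediate_value_Icc (by linarith : -y ≤ y) hcont.continuousOn h4
  exact ⟨a, ha, haa⟩

/-! ### the product of the `w` on the deformed torus -/

theorem Bal.om_ne_zero_aux (z : ℂ) : om z ≠ 0 := by
  have h1 : Rt z ^ 2 = z ^ 2 - 1 := by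
    unfold Rt
    rw [mul_pow, mul_pow]
    have h2 : ((-I * (z - 1)) ^ (1 / 2 : ℂ)) ^ 2 = -I * (z - 1) := by
      have := Complex.cpow_nat_inv_pow (-I * (z - 1)) (n := 2) two_ne_zero
      convert this using 3
      norm_num
    have h3 : ((z + 1) ^ (1 / 2 : ℂ)) ^ 2 = z + 1 := by
      have := Complex.cpow_nat_inv_pow (z + 1) (n := 2) two_ne_zero
      convert this using 3
      norm_num
    have h4 : Complex.exp (I * (π / 4)) ^ 2 = I := by
      rw [← Complex.exp_nat_mul]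
      have : ((2 : ℕ) : ℂ) * (I * (π / 4)) = π / 2 * I := by push_cast; ring
      rw [this, Complex.exp_pi_div_two_mul_I]
    rw [h2, h3, h4]
    ring_nf
    rw [Complex.I_sq]
    ring
  intro h
  have h5 : (z - Rt z) * (z + Rt z) = 1 := by
    have : (z - Rt z) * (z + Rt z) = z ^ 2 - Rt z ^ 2 := by ring
    rw [this, h1]
    ring
  unfold om at h
  rw [h, zero_mul] at h5
  exact zero_ne_one h5

theorem Bal.tor_eq_lam {c0 κ ϑ : ℝ} {d : ℕ} (t : Fin d → ℝ) {a : ℝ}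
    (hab : bet c0 a = avg c0 (full ϑ t)) (m : Fin (d + 1)) :
    tor c0 κ ϑ t m = lam c0 κ a (full ϑ t m) := by
  unfold tor lam
  rw [hab]

theorem log_prodw_le {c0 r κ μ C ρ : ℝ} {K : Set ℂ} (hP : KeyPkg c0 r κ μ C ρ K) (d : ℕ) (ϑ : ℝ)
    (t : Fin d → ℝ) {a : ℝ} (ha : a ∈ Icc (-(fe c0 - r)) (fe c0 - r))
    (hab : bet c0 a = avg c0 (full ϑ t)) {ε : ℝ} (hε : ε ∈ Icc 0 ρ) {ζ : ℂ} (hζ : ‖ζ‖ ≤ ρ) :
    Real.log ‖prodw om (c0 + ε * I + ζ) (tor c0 κ ϑ t)‖ ≤
      -μ * ((∑ i, ch (full ϑ t i) a) + (d + 1) * ε) + C * (d + 1) * ‖ζ‖ := by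
  unfold prodw
  rw [norm_prod, Real.log_prod (fun i _ => norm_ne_zero_iff.2 (om_ne_zero_aux _))]
  have h1 : ∀ i, Real.log ‖om (c0 + ε * I + ζ - Complex.cos (tor c0 κ ϑ t i))‖ ≤
      -μ * (ch (full ϑ t i) a + ε) + C * ‖ζ‖ + vel c0 a * (κ * (bet c0 (full ϑ t i) - bet c0 a)) := by
    intro i
    have := hP.ineq a ha (full ϑ t i) ε hε ζ hζ
    rw [tor_eq_lam t hab i]
    linarith
  refine (Finset.sum_le_sum fun i _ => h1 i).trans (le_of_eq ?_)
  have h2 : ∑ i, (bet c0 (full ϑ t i) - bet c0 a) = 0 := by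
    rw [Finset.sum_sub_distrib, Finset.sum_const, Finset.card_univ, Fintype.card_fin, nsmul_eq_mul,
      hab]
    unfold avg
    have hd : ((d + 1 : ℕ) : ℝ) ≠ 0 := by positivity
    rw [mul_div_cancel₀ _ hd, sub_self]
  rw [Finset.sum_add_distrib, Finset.sum_add_distrib, ← Finset.mul_sum, ← Finset.mul_sum,
    ← Finset.mul_sum, ← Finset.mul_sum, h2, Finset.sum_add_distrib, Finset.sum_const, Finset.sum_const,
    Finset.card_univ, Fintype.card_fin, nsmul_eq_mul, nsmul_eq_mul]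
  push_cast
  ring

end

end IsingNB
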