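import Pool.Agent.Helper98.NB.OmBasic

/-!
# NB-5: the key inequality away from the coincidence interval
-/

namespace IsingNB

open Complex Set MeasureTheory Filter Topology
open scoped Real

noncomputable section

namespace KF

lemma z_re (c0 κ a t : ℝ) : ((c0 : ℂ) - Complex.cos (lam c0 κ a t)).re =
    c0 - Real.cos t * Real.cosh (κ * (bet c0 t - bet c0 a)) := by
  rw [lam, mul_comm I, Complex.cos_add_mul_I]
  rw [← Complex.ofReal_cos, ← Complex.ofReal_cosh, ← Complex.ofReal_sin, ← Complex.ofReal_sinh]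
  simp [-Complex.ofReal_cos, -Complex.ofReal_cosh, -Complex.ofReal_sin, -Complex.ofReal_sinh]

lemma z_im (c0 κ a t : ℝ) : ((c0 : ℂ) - Complex.cos (lam c0 κ a t)).im =
    Real.sin t * Real.sinh (κ * (bet c0 t - bet c0 a)) := by
  rw [lam, mul_comm I, Complex.cos_add_mul_I]
  rw [← Complex.ofReal_cos, ← Complex.ofReal_cosh, ← Complex.ofReal_sin, ← Complex.ofReal_sinh]
  simp [-Complex.ofReal_cos, -Complex.ofReal_cosh, -Complex.ofReal_sin, -Complex.ofReal_sinh]

lemma cosh_le {x : ℝ} (hx : |x| ≤ 1) : Real.cosh x ≤ 1 + x ^ 2 := by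
  have h0 : x ^ 2 ≤ 1 := by
    rw [← sq_abs]
    exact pow_le_one₀ (abs_nonneg _) hx
  have h1 := Real.cosh_le_exp_half_sq x
  have h2 := Real.exp_bound_div_one_sub_of_interval (x := x ^ 2 / 2) (by positivity) (by linarith)
  refine (h1.trans h2).trans ?_
  rw [div_le_iff₀ (by linarith)]
  nlinarith [sq_nonneg x, mul_nonneg (sq_nonneg x) (sub_nonneg.2 h0)]

/-- Lower bounds of the sum of the distances to the foci. -/
lemma log_om_le {z : ℂ} {x : ℝ} (hx : 0 ≤ x) (h1 : ‖om z‖ ≤ 1)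
    (h : 2 * Real.cosh x ≤ ‖z + 1‖ + ‖z - 1‖) : Real.log ‖om z‖ ≤ -x := by
  have hp : 0 < ‖om z‖ := norm_pos_iff.2 (om_ne_zero z)
  have hα : Real.log ‖om z‖ ≤ 0 := Real.log_nonpos hp.le h1
  have h2 : Real.cosh (-Real.log ‖om z‖) = (‖om z‖ + ‖om z‖⁻¹) / 2 := by
    rw [Real.cosh_eq, neg_neg, Real.exp_neg, Real.exp_log hp]
    ring
  have h3 : Real.cosh x ≤ Real.cosh (-Real.log ‖om z‖) := by
    rw [h2, norm_om_add_inv]
    linarith
  have h4 := Real.cosh_le_cosh.1 h3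
  rw [abs_of_nonneg hx, abs_of_nonneg (by linarith)] at h4
  linarith

lemma fe_mem {c0 : ℝ} (h0 : 0 < c0) (h2 : c0 < 2) : 0 < fe c0 ∧ fe c0 < π ∧
    Real.cos (fe c0) = c0 - 1 := by
  refine ⟨Real.arccos_pos.2 (by linarith), ?_, Real.cos_arccos (by linarith) (by linarith)⟩
  refine lt_of_le_of_ne (Real.arccos_le_pi _) fun h => ?_
  change Real.arccos (c0 - 1) = π at h
  have h3 := Real.cos_arccos (x := c0 - 1) (by linarith) (by linarith)
  rw [h, Real.cos_pi] at h3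
  linarith

lemma den_pos (c0 t : ℝ) :
    1 - |c0 - 1| ≤ 1 - (c0 - 1) * Real.cos t := by
  have h3 : (c0 - 1) * Real.cos t ≤ |c0 - 1| := by
    calc (c0 - 1) * Real.cos t ≤ |(c0 - 1) * Real.cos t| := le_abs_self _
      _ = |c0 - 1| * |Real.cos t| := abs_mul _ _
      _ ≤ |c0 - 1| * 1 := mul_le_mul_of_nonneg_left (Real.abs_cos_le_one t) (abs_nonneg _)
      _ = |c0 - 1| := mul_one _
  linarith

lemma b_lt {c0 : ℝ} (h0 : 0 < c0) (h2 : c0 < 2) : |c0 - 1| < 1 :=
  abs_lt.2 ⟨by linarith, by linarith⟩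

lemma bet_deriv {c0 : ℝ} (h0 : 0 < c0) (h2 : c0 < 2) (t : ℝ) :
    HasDerivAt (bet c0) (dbet c0 t) t := by
  have hd : 0 < 1 - (c0 - 1) * Real.cos t := by
    have := den_pos c0 t
    have := b_lt h0 h2
    linarith
  have h : HasDerivAt (bet c0) _ t := (Real.hasDerivAt_sin t).div
    (((Real.hasDerivAt_cos t).const_mul (c0 - 1)).const_sub 1) hd.ne'
  refine h.congr_deriv ?_
  unfold dbet
  have h3 : Real.sin t ^ 2 = 1 - Real.cos t ^ 2 := by
    have := Real.sin_sq_add_cos_sq t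
    linarith
  congr 1
  linear_combination -(c0 - 1) * h3

lemma bet_cont {c0 : ℝ} (h0 : 0 < c0) (h2 : c0 < 2) : Continuous (bet c0) :=
  continuous_iff_continuousAt.2 fun t => (bet_deriv h0 h2 t).continuousAt

lemma cos_gt {f t : ℝ} (hf : f ≤ π) (ht : |t| < f) : Real.cos f < Real.cos t := by
  rw [← Real.cos_abs t]
  exact Real.cos_lt_cos_of_nonneg_of_le_pi (abs_nonneg _) hf ht

lemma bet_mono {c0 : ℝ} (h0 : 0 < c0) (h2 : c0 < 2) :
    StrictMonoOn (bet c0) (Icc (-(fe c0)) (fe c0)) := by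
  obtain ⟨hf0, hfπ, hcf⟩ := fe_mem h0 h2
  refine strictMonoOn_of_deriv_pos (convex_Icc _ _) (bet_cont h0 h2).continuousOn ?_
  intro t ht
  rw [interior_Icc] at ht
  rw [(bet_deriv h0 h2 t).deriv]
  have h3 := cos_gt hfπ.le (abs_lt.2 ht)
  have hd : 0 < 1 - (c0 - 1) * Real.cos t := by
    have := den_pos c0 t
    have := b_lt h0 h2
    linarith
  unfold dbet
  rw [hcf] at h3
  have : 0 < Real.cos t - (c0 - 1) := by linarith
  positivity

lemma bet_le {c0 : ℝ} (h0 : 0 < c0) (h2 : c0 < 2) (t : ℝ) : |bet c0 t| ≤ 1 / (1 - |c0 - 1|) := by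
  have h3 := den_pos c0 t
  have h4 := b_lt h0 h2
  unfold bet
  rw [abs_div, abs_of_pos (show 0 < 1 - (c0 - 1) * Real.cos t by linarith)]
  exact div_le_div₀ zero_le_one (Real.abs_sin_le_one t) (by linarith) h3

lemma bet_neg (c0 t : ℝ) : bet c0 (-t) = -bet c0 t := by
  unfold bet
  rw [Real.sin_neg, Real.cos_neg, neg_div]

lemma vel_neg (c0 a : ℝ) : vel c0 (-a) = -vel c0 a := by
  unfold vel del
  rw [Real.sin_neg, Real.cos_neg]
  ring

/-- the function which is estimated -/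
def G (c0 κ a t : ℝ) : ℝ := -(vel c0 a) * (κ * (bet c0 t - bet c0 a)) +
  Real.log ‖om ((c0 : ℂ) - Complex.cos (lam c0 κ a t))‖

lemma G_neg (c0 κ a t : ℝ) : G c0 κ (-a) (-t) = G c0 κ a t := by
  have h : lam c0 κ (-a) (-t) = -lam c0 κ a t := by
    unfold lam
    rw [bet_neg, bet_neg]
    push_cast
    ring
  unfold G
  rw [h, Complex.cos_neg, bet_neg, bet_neg, vel_neg]
  ring

lemma vel_bound {c0 r : ℝ} (h0 : 0 < c0) (h2 : c0 < 2) (hr : 0 < r) :
    ∃ Θ : ℝ, 1 ≤ Θ ∧ ∀ a ∈ Icc (-(fe c0 - r)) (fe c0 - r), |vel c0 a| ≤ Θ := by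
  obtain ⟨hf0, hfπ, hcf⟩ := fe_mem h0 h2
  have hc : ContinuousOn (vel c0) (Icc (-(fe c0 - r)) (fe c0 - r)) := by
    unfold vel del
    refine ContinuousOn.div (by fun_prop) ?_ ?_
    · exact (Real.continuous_sin.comp (Real.continuous_arccos.comp (by fun_prop))).continuousOn
    · intro a ha
      have h3 : Real.cos (fe c0) < Real.cos a := by
        refine cos_gt hfπ.le (abs_lt.2 ⟨?_, ?_⟩)
        · linarith [ha.1]
        · linarith [ha.2]
      have h4 := Real.cos_le_one a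
      rw [hcf] at h3
      rw [Real.sin_arccos]
      have h5 : 0 < 1 - (c0 - Real.cos a) ^ 2 := by nlinarith
      exact (Real.sqrt_pos.2 h5).ne'
  obtain ⟨C, hC⟩ := isCompact_Icc.exists_bound_of_continuousOn hc
  exact ⟨max 1 C, le_max_left _ _, fun a ha => (hC a ha).trans (le_max_right _ _)⟩

lemma near_norm {z : ℂ} {Θ c4 η H : ℝ} (hΘ1 : 1 ≤ Θ) (hc40 : 0 < c4) (hη0 : 0 < η)
    (hY : c4 * η ≤ z.im) (hX : |z.re - 1| ≤ c4 ^ 2 / (32 * Θ ^ 2) + η ^ 2)
    (hηsq : η ^ 2 ≤ H) (hH4 : H * (160 * Θ ^ 4) ≤ c4 ^ 2) :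
    8 * Θ ^ 2 * η ^ 2 - (z.re - 1) ≤ ‖z - 1‖ := by
  have hΘ0 : 0 < Θ := by linarith
  by_cases hneg : 8 * Θ ^ 2 * η ^ 2 - (z.re - 1) ≤ 0
  · exact hneg.trans (norm_nonneg _)
  push Not at hneg
  rw [Complex.norm_def]
  refine Real.le_sqrt_of_sq_le ?_
  have h3 : Complex.normSq (z - 1) = (z.re - 1) ^ 2 + z.im ^ 2 := by
    rw [Complex.normSq_apply]
    simp
    ring
  rw [h3]
  have h4 : (8 * Θ ^ 2 * η ^ 2) ^ 2 + 2 * (8 * Θ ^ 2 * η ^ 2) * |z.re - 1| ≤ z.im ^ 2 := by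
    have h5 : (c4 * η) ^ 2 ≤ z.im ^ 2 := pow_le_pow_left₀ (by positivity) hY 2
    refine le_trans ?_ h5
    have h6 : 2 * (8 * Θ ^ 2 * η ^ 2) * |z.re - 1| ≤
        2 * (8 * Θ ^ 2 * η ^ 2) * (c4 ^ 2 / (32 * Θ ^ 2) + η ^ 2) :=
      mul_le_mul_of_nonneg_left hX (by positivity)
    have h7 : (8 * Θ ^ 2 * η ^ 2) ^ 2 +
        2 * (8 * Θ ^ 2 * η ^ 2) * (c4 ^ 2 / (32 * Θ ^ 2) + η ^ 2) =
        η ^ 2 * (c4 ^ 2 / 2 + η ^ 2 * (64 * Θ ^ 4 + 16 * Θ ^ 2)) := by
      field_simp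
      ring
    have h8 : η ^ 2 * (64 * Θ ^ 4 + 16 * Θ ^ 2) ≤ c4 ^ 2 / 2 := by
      have h9 : 16 * Θ ^ 2 ≤ 16 * Θ ^ 4 := by
        have h91 : 1 ≤ Θ ^ 2 := one_le_pow₀ hΘ1
        have h92 : Θ ^ 2 * 1 ≤ Θ ^ 2 * Θ ^ 2 := mul_le_mul_of_nonneg_left h91 (by positivity)
        have h93 : Θ ^ 2 * Θ ^ 2 = Θ ^ 4 := by ring
        linarith
      have hH0 : 0 ≤ H := (sq_nonneg η).trans hηsq
      calc η ^ 2 * (64 * Θ ^ 4 + 16 * Θ ^ 2) ≤ H * (80 * Θ ^ 4) := by
            refine mul_le_mul hηsq (by linarith) (by positivity) hH0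
        _ ≤ c4 ^ 2 / 2 := by linarith
    have h10 : η ^ 2 * (c4 ^ 2 / 2 + η ^ 2 * (64 * Θ ^ 4 + 16 * Θ ^ 2)) ≤
        η ^ 2 * c4 ^ 2 := mul_le_mul_of_nonneg_left (by linarith) (by positivity)
    have h11 : (c4 * η) ^ 2 = η ^ 2 * c4 ^ 2 := by ring
    linarith
  have h12 : -(2 * (8 * Θ ^ 2 * η ^ 2) * (z.re - 1)) ≤
      2 * (8 * Θ ^ 2 * η ^ 2) * |z.re - 1| := by
    have h13 : -(z.re - 1) ≤ |z.re - 1| := neg_le_abs _
    have h14 := mul_le_mul_of_nonneg_left h13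
      (show 0 ≤ 2 * (8 * Θ ^ 2 * η ^ 2) by positivity)
    linarith
  have h15 : (8 * Θ ^ 2 * η ^ 2 - (z.re - 1)) ^ 2 = (8 * Θ ^ 2 * η ^ 2) ^ 2 +
      -(2 * (8 * Θ ^ 2 * η ^ 2) * (z.re - 1)) + (z.re - 1) ^ 2 := by ring
  rw [h15]
  linarith

end KF

open KF in
theorem key_far {c0 r : ℝ} (h0 : 0 < c0) (h2 : c0 < 2) (hr : 0 < r) (hr' : r < fe c0) :
    ∃ r2 ∈ Ioo 0 r, ∃ κ0 > 0, ∀ κ ∈ Ioc (0 : ℝ) κ0, ∃ m > 0,
      ∀ a ∈ Icc (-(fe c0 - r)) (fe c0 - r), ∀ t ∈ Icc (-π) π, fe c0 - r2 ≤ |t| →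
      -(vel c0 a) * (κ * (bet c0 t - bet c0 a)) +
        Real.log ‖om ((c0 : ℂ) - Complex.cos (lam c0 κ a t))‖ ≤ -m := by
  obtain ⟨hf0, hfπ, hcf⟩ := fe_mem h0 h2
  obtain ⟨Θ, hΘ1, hΘ⟩ := vel_bound h0 h2 hr
  have hΘ0 : 0 < Θ := by linarith
  set f := fe c0 with hf
  set b := c0 - 1 with hb
  set D : ℝ := 2 / (1 - |b|) with hD
  have hb1 : |b| < 1 := b_lt h0 h2
  have hD0 : 0 < D := div_pos two_pos (by linarith)
  have hDb : ∀ t a, |bet c0 t - bet c0 a| ≤ D := by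
    intro t a
    have h3 := bet_le h0 h2 t
    have h4 := bet_le h0 h2 a
    have h5 := abs_sub (bet c0 t) (bet c0 a)
    have h6 : D = 1 / (1 - |b|) + 1 / (1 - |b|) := by rw [hD]; ring
    rw [h6]
    linarith
  set β1 := bet c0 (f - r) with hβ1
  have hβlt : β1 < bet c0 f :=
    bet_mono h0 h2 ⟨by linarith, by linarith⟩ ⟨by linarith, le_rfl⟩ (by linarith)
  have hβa : ∀ a ∈ Icc (-(f - r)) (f - r), bet c0 a ≤ β1 := by
    intro a ha
    exact (bet_mono h0 h2).monotoneOn ⟨by linarith [ha.1], by linarith [ha.2]⟩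
      ⟨by linarith, by linarith⟩ ha.2
  set c3 := (bet c0 f - β1) / 2 with hc3
  have hc30 : 0 < c3 := by rw [hc3]; linarith
  have hsf : 0 < Real.sin f := Real.sin_pos_of_pos_of_lt_pi hf0 hfπ
  set c4 := Real.sin f / 2 with hc4
  have hc40 : 0 < c4 := by rw [hc4]; linarith
  -- the neighbourhood of `f`
  obtain ⟨ε, hε, hnb⟩ : ∃ ε > 0, ∀ t, |t - f| < ε → c4 < Real.sin t ∧
      |Real.cos t - b| < c4 ^ 2 / (32 * Θ ^ 2) ∧ β1 + c3 < bet c0 t := by
    have e1 : ∀ᶠ t in 𝓝 f, c4 < Real.sin t :=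
      Real.continuous_sin.continuousAt.eventually (lt_mem_nhds (by rw [hc4]; linarith))
    have e2 : ∀ᶠ t in 𝓝 f, |Real.cos t - b| < c4 ^ 2 / (32 * Θ ^ 2) := by
      have hcont : ContinuousAt (fun t => |Real.cos t - b|) f := by fun_prop
      refine hcont.eventually (gt_mem_nhds ?_)
      change |Real.cos f - b| < _
      rw [hcf, sub_self, abs_zero]
      positivity
    have e3 : ∀ᶠ t in 𝓝 f, β1 + c3 < bet c0 t :=
      (bet_cont h0 h2).continuousAt.eventually (lt_mem_nhds (by rw [hc3]; linarith))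
    obtain ⟨ε, hε, h⟩ := Metric.eventually_nhds_iff.1 (e1.and (e2.and e3))
    exact ⟨ε, hε, fun t ht => h (by rwa [Real.dist_eq])⟩
  set r2 := min (min ε r) (π - f) / 2 with hr2
  have hmin : 0 < min (min ε r) (π - f) := lt_min (lt_min hε hr) (by linarith)
  have hr20 : 0 < r2 := by rw [hr2]; linarith
  have hr2ε : r2 < ε := by
    have : min (min ε r) (π - f) ≤ ε := (min_le_left _ _).trans (min_le_left _ _)
    rw [hr2]; linarith
  have hr2r : r2 < r := by
    have : min (min ε r) (π - f) ≤ r := (min_le_left _ _).trans (min_le_right _ _)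
    rw [hr2]; linarith
  have hr2π : f + r2 < π := by
    have : min (min ε r) (π - f) ≤ π - f := min_le_right _ _
    rw [hr2]; linarith
  set m3 := b - Real.cos (f + r2) with hm3
  have hm30 : 0 < m3 := by
    rw [hm3, ← hcf]
    have := Real.cos_lt_cos_of_nonneg_of_le_pi hf0.le hr2π.le (show f < f + r2 by linarith)
    linarith
  set α0 := min 1 (m3 / 2) with hα0
  have hα00 : 0 < α0 := lt_min one_pos (by linarith)
  have hα01 : α0 ≤ 1 := min_le_left _ _
  have hα0m : Real.cosh α0 ≤ 1 + m3 / 2 := by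
    have h3 := cosh_le (x := α0) (by rw [abs_of_pos hα00]; exact hα01)
    have h4 : α0 ^ 2 ≤ α0 := by nlinarith
    have h5 : α0 ≤ m3 / 2 := min_le_right _ _
    linarith
  set H := min (m3 / 2) (min (α0 / (2 * Θ)) (min (1 / (2 * Θ)) (c4 ^ 2 / (160 * Θ ^ 4)))) with hH
  have hH0 : 0 < H := by
    refine lt_min (by linarith) (lt_min (by positivity) (lt_min (by positivity) (by positivity)))
  have hH1 : H ≤ m3 / 2 := min_le_left _ _
  have hH2 : H ≤ α0 / (2 * Θ) := (min_le_right _ _).trans (min_le_left _ _)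
  have hH3 : H ≤ 1 / (2 * Θ) :=
    (min_le_right _ _).trans ((min_le_right _ _).trans (min_le_left _ _))
  have hH4 : H ≤ c4 ^ 2 / (160 * Θ ^ 4) :=
    (min_le_right _ _).trans ((min_le_right _ _).trans (min_le_right _ _))
  rw [le_div_iff₀ (by positivity)] at hH2 hH3 hH4
  have hHone : H ≤ 1 := by nlinarith
  refine ⟨r2, ⟨hr20, hr2r⟩, H / D, by positivity, ?_⟩
  intro κ hκ
  have hκD : κ * D ≤ H := by
    have := hκ.2
    rwa [le_div_iff₀ hD0] at this
  have hκ0 := hκ.1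
  refine ⟨min (α0 / 2) (Θ * (κ * c3)), lt_min (by linarith) (by positivity), ?_⟩
  -- reduction to nonnegative `t`
  have main : ∀ a ∈ Icc (-(f - r)) (f - r), ∀ t ∈ Icc (f - r2) π,
      G c0 κ a t ≤ -min (α0 / 2) (Θ * (κ * c3)) := by
    intro a ha t ht
    set η := κ * (bet c0 t - bet c0 a) with hη
    have hηH : |η| ≤ H := by
      rw [hη, abs_mul, abs_of_pos hκ0]
      exact (mul_le_mul_of_nonneg_left (hDb t a) hκ0.le).trans hκD
    have hη1 : |η| ≤ 1 := hηH.trans hHone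
    have hvel : -(vel c0 a) * η ≤ Θ * |η| := by
      calc -(vel c0 a) * η ≤ |-(vel c0 a) * η| := le_abs_self _
        _ = |vel c0 a| * |η| := by rw [abs_mul, abs_neg]
        _ ≤ Θ * |η| := mul_le_mul_of_nonneg_right (hΘ a ha) (abs_nonneg _)
    have hch := cosh_le hη1
    have hch1 : 1 ≤ Real.cosh η := Real.one_le_cosh η
    have hηsq : η ^ 2 ≤ H := by
      rw [← sq_abs, sq]
      calc |η| * |η| ≤ 1 * H := mul_le_mul hη1 hηH (abs_nonneg _) zero_le_one
        _ = H := one_mul H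
    unfold G
    rw [← hη]
    set z : ℂ := (c0 : ℂ) - Complex.cos (lam c0 κ a t) with hz
    have hzre : z.re = c0 - Real.cos t * Real.cosh η := z_re c0 κ a t
    have hzim : z.im = Real.sin t * Real.sinh η := z_im c0 κ a t
    have hplus : z.re + 1 ≤ ‖z + 1‖ := by
      have := Complex.re_le_norm (z + 1)
      simpa using this
    by_cases hcase : f + r2 ≤ t
    · -- far from the edge angle
      have hcos : Real.cos t ≤ b - m3 := by
        have : Real.cos t ≤ Real.cos (f + r2) :=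
          Real.cos_le_cos_of_nonneg_of_le_pi (by linarith) ht.2 hcase
        rw [hm3]; linarith
      have hzr : 1 + m3 / 2 ≤ z.re := by
        rw [hzre]
        have h3 : Real.cos t * Real.cosh η ≤ Real.cos t + m3 / 2 := by
          have h4 : Real.cos t * (Real.cosh η - 1) ≤ 1 * (Real.cosh η - 1) :=
            mul_le_mul_of_nonneg_right (Real.cos_le_one t) (by linarith)
          have h5 : Real.cosh η - 1 ≤ m3 / 2 := by linarith
          have h6 : Real.cos t * (Real.cosh η - 1) = Real.cos t * Real.cosh η - Real.cos t := by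
            ring
          rw [h6] at h4
          linarith
        have h6 : c0 = 1 + b := by rw [hb]; ring
        rw [h6]
        linarith
      have hminus : z.re - 1 ≤ ‖z - 1‖ := by
        have := Complex.re_le_norm (z - 1)
        simpa using this
      have h3 : Real.log ‖om z‖ ≤ -α0 :=
        log_om_le hα00.le (norm_om_lt_one_of_re (by linarith)).le (by linarith)
      have h4 : Θ * |η| ≤ α0 / 2 := by
        have : Θ * |η| ≤ Θ * H := mul_le_mul_of_nonneg_left hηH hΘ0.le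
        linarith
      have h5 := min_le_left (α0 / 2) (Θ * (κ * c3))
      linarith
    · -- near the edge angle
      push Not at hcase
      obtain ⟨n1, n2, n3⟩ := hnb t (abs_lt.2 ⟨by linarith [ht.1], by linarith⟩)
      have hηlow : κ * c3 ≤ η := by
        rw [hη]
        refine mul_le_mul_of_nonneg_left ?_ hκ0.le
        have := hβa a ha
        linarith
      have hη0 : 0 < η := lt_of_lt_of_le (by positivity) hηlow
      rw [abs_of_pos hη0] at hηH hvel
      have hsinh : η ≤ Real.sinh η := Real.self_le_sinh_iff.2 hη0.le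
      have hY : c4 * η ≤ z.im := by
        rw [hzim]
        exact mul_le_mul n1.le hsinh hη0.le (by linarith)
      have hY0 : 0 < z.im := lt_of_lt_of_le (by positivity) hY
      have hX : |z.re - 1| ≤ c4 ^ 2 / (32 * Θ ^ 2) + η ^ 2 := by
        rw [hzre]
        have h3 : c0 - Real.cos t * Real.cosh η - 1 = -(Real.cos t - b) +
            -(Real.cos t * (Real.cosh η - 1)) := by rw [hb]; ring
        rw [h3]
        refine (abs_add_le _ _).trans (add_le_add ?_ ?_)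
        · rw [abs_neg]; exact n2.le
        · rw [abs_neg, abs_mul, abs_of_nonneg (show 0 ≤ Real.cosh η - 1 by linarith)]
          calc |Real.cos t| * (Real.cosh η - 1) ≤ 1 * (Real.cosh η - 1) :=
                mul_le_mul_of_nonneg_right (Real.abs_cos_le_one t) (by linarith)
            _ ≤ η ^ 2 := by linarith
      -- the main estimate
      have hkey : 8 * Θ ^ 2 * η ^ 2 - (z.re - 1) ≤ ‖z - 1‖ :=
        near_norm hΘ1 hc40 hη0 hY hX hηsq hH4
      have h2Θ : |2 * Θ * η| ≤ 1 := by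
        rw [abs_of_pos (by positivity)]
        have : Θ * η ≤ Θ * H := mul_le_mul_of_nonneg_left hηH hΘ0.le
        linarith
      have hch2 := cosh_le h2Θ
      have h3 : Real.log ‖om z‖ ≤ -(2 * Θ * η) := by
        refine log_om_le (by positivity) (norm_om_lt_one_of_im hY0).le ?_
        have h4 : (2 * Θ * η) ^ 2 = 4 * Θ ^ 2 * η ^ 2 := by ring
        rw [h4] at hch2
        linarith
      have h5 := min_le_right (α0 / 2) (Θ * (κ * c3))
      have h6 : Θ * (κ * c3) ≤ Θ * η := mul_le_mul_of_nonneg_left hηlow hΘ0.le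
      linarith
  intro a ha t ht hft
  show G c0 κ a t ≤ _
  rcases le_or_gt 0 t with h3 | h3
  · rw [abs_of_nonneg h3] at hft
    exact main a ha t ⟨hft, ht.2⟩
  · rw [abs_of_neg h3] at hft
    rw [← G_neg]
    exact main (-a) ⟨by linarith [ha.2], by linarith [ha.1]⟩ (-t) ⟨hft, by linarith [ht.1]⟩

end

end IsingNB
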