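import Pool.Agent.Helper98.NB.Defs

/-! NB-3: the points of the contours stay in the domain `ZZ` (key_mem). -/

namespace IsingNB

open Complex Set MeasureTheory Filter Topology
open scoped Real

noncomputable section

theorem km_re (c0 κ a t : ℝ) : ((c0 : ℂ) - Complex.cos (lam c0 κ a t)).re =
    c0 - Real.cos t * Real.cosh (κ * (bet c0 t - bet c0 a)) := by
  have h : lam c0 κ a t = (t : ℂ) + ((κ * (bet c0 t - bet c0 a) : ℝ) : ℂ) * I := by
    unfold lam; ring
  rw [h]
  generalize κ * (bet c0 t - bet c0 a) = η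
  rw [Complex.cos_add, Complex.cos_mul_I, Complex.sin_mul_I, ← Complex.ofReal_cos,
    ← Complex.ofReal_sin, ← Complex.ofReal_cosh, ← Complex.ofReal_sinh]
  simp only [Complex.sub_re, Complex.mul_re, Complex.mul_im, Complex.ofReal_re,
    Complex.ofReal_im, Complex.I_re, Complex.I_im]
  ring

theorem km_im (c0 κ a t : ℝ) : ((c0 : ℂ) - Complex.cos (lam c0 κ a t)).im =
    Real.sin t * Real.sinh (κ * (bet c0 t - bet c0 a)) := by
  have h : lam c0 κ a t = (t : ℂ) + ((κ * (bet c0 t - bet c0 a) : ℝ) : ℂ) * I := by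
    unfold lam; ring
  rw [h]
  generalize κ * (bet c0 t - bet c0 a) = η
  rw [Complex.cos_add, Complex.cos_mul_I, Complex.sin_mul_I, ← Complex.ofReal_cos,
    ← Complex.ofReal_sin, ← Complex.ofReal_cosh, ← Complex.ofReal_sinh]
  simp only [Complex.sub_im, Complex.mul_re, Complex.mul_im, Complex.ofReal_re,
    Complex.ofReal_im, Complex.I_re, Complex.I_im]
  ring

/-- The denominators of the shape function are bounded below. -/
theorem km_den (b x : ℝ) (hx : |x| ≤ 1) : 1 - |b| ≤ 1 - b * x := by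
  have h1 : b * x ≤ |b * x| := le_abs_self _
  have h2 : |b * x| ≤ |b| := by
    rw [abs_mul]
    exact mul_le_of_le_one_right (abs_nonneg _) hx
  linarith

theorem km_bet_le {c0 : ℝ} (hb : |c0 - 1| < 1) (t : ℝ) : |bet c0 t| ≤ 1 / (1 - |c0 - 1|) := by
  have hd := km_den (c0 - 1) (Real.cos t) (Real.abs_cos_le_one t)
  have hp : 0 < 1 - |c0 - 1| := by linarith
  unfold bet
  rw [abs_div, abs_of_pos (lt_of_lt_of_le hp hd)]
  exact div_le_div₀ zero_le_one (Real.abs_sin_le_one t) hp hd

/-- The square of the shape function. -/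
theorem km_bet_sq {c0 : ℝ} (hb : |c0 - 1| < 1) (t : ℝ) : (1 - (c0 - 1) ^ 2) * bet c0 t ^ 2 =
    1 - ((Real.cos t - (c0 - 1)) / (1 - (c0 - 1) * Real.cos t)) ^ 2 := by
  have hd := km_den (c0 - 1) (Real.cos t) (Real.abs_cos_le_one t)
  have hp : (1 - (c0 - 1) * Real.cos t) ≠ 0 := by
    have : 0 < 1 - |c0 - 1| := by linarith
    exact (lt_of_lt_of_le this hd).ne'
  unfold bet
  rw [div_pow, div_pow, Real.sin_sq]
  field_simp
  ring

theorem key_mem {c0 r : ℝ} (h0 : 0 < c0) (h2 : c0 < 2) (hr : 0 < r) (hr' : r < fe c0) :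
    ∃ κ0 > 0, ∃ m0 > 0, ∀ κ ∈ Icc (0 : ℝ) κ0, ∀ a ∈ Icc (-(fe c0 - r)) (fe c0 - r), ∀ t : ℝ,
      -1 + m0 ≤ ((c0 : ℂ) - Complex.cos (lam c0 κ a t)).re ∧
      (0 ≤ ((c0 : ℂ) - Complex.cos (lam c0 κ a t)).im ∨
        m0 ≤ |((c0 : ℂ) - Complex.cos (lam c0 κ a t)).re - 1|) := by
  have hb : |c0 - 1| < 1 := by rw [abs_lt]; constructor <;> linarith
  have hb1 : 0 < 1 - |c0 - 1| := by linarith
  have hfe : Real.cos (fe c0) = c0 - 1 := by
    unfold fe
    exact Real.cos_arccos (by linarith) (by linarith)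
  have hfe_le : fe c0 ≤ π := Real.arccos_le_pi _
  -- cos a ≥ cos (fe - r) > c0 - 1
  have hcr : c0 - 1 < Real.cos (fe c0 - r) := by
    rw [← hfe]
    exact Real.cos_lt_cos_of_nonneg_of_le_pi (by linarith) hfe_le (by linarith)
  have hca : ∀ a ∈ Icc (-(fe c0 - r)) (fe c0 - r), Real.cos (fe c0 - r) ≤ Real.cos a := by
    intro a ha
    rw [← Real.cos_abs a]
    exact Real.cos_le_cos_of_nonneg_of_le_pi (abs_nonneg _) (by linarith) (abs_le.mpr ha)
  have hdr := km_den (c0 - 1) (Real.cos (fe c0 - r)) (Real.abs_cos_le_one _)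
  set m1 : ℝ := Real.cos (fe c0 - r) - (c0 - 1) with hm1
  have hm1p : 0 < m1 := by rw [hm1]; linarith
  set p0 : ℝ := m1 / 2 with hp0
  have hp0p : 0 < p0 := by positivity
  set m2 : ℝ := p0 * (1 - |c0 - 1|) with hm2
  have hm2p : 0 < m2 := mul_pos hp0p hb1
  set ε : ℝ := min (c0 / 2) (m2 / 2) with hε
  have hεp : 0 < ε := lt_min (by linarith) (by linarith)
  obtain ⟨δ, hδ, hδ'⟩ := (Metric.continuousAt_iff.mp (Real.continuous_cosh.continuousAt (x := 0))) ε hεp
  refine ⟨δ * (1 - |c0 - 1|) / 4, by positivity, ε, hεp, ?_⟩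
  intro κ hκ a ha t
  set η : ℝ := κ * (bet c0 t - bet c0 a) with hη
  have hηb : |η| < δ := by
    have h1 := km_bet_le hb t
    have h2 := km_bet_le hb a
    have h3 : |bet c0 t - bet c0 a| ≤ 2 / (1 - |c0 - 1|) := by
      calc |bet c0 t - bet c0 a| ≤ |bet c0 t| + |bet c0 a| := abs_sub _ _
        _ ≤ 1 / (1 - |c0 - 1|) + 1 / (1 - |c0 - 1|) := add_le_add h1 h2
        _ = 2 / (1 - |c0 - 1|) := by ring
    rw [hη, abs_mul, abs_of_nonneg hκ.1]
    calc κ * |bet c0 t - bet c0 a| ≤ (δ * (1 - |c0 - 1|) / 4) * (2 / (1 - |c0 - 1|)) :=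
          mul_le_mul hκ.2 h3 (abs_nonneg _) (by positivity)
      _ = δ / 2 := by field_simp; ring
      _ < δ := by linarith
  have hch : |Real.cosh η - 1| < ε := by
    have := hδ' (x := η) (by rw [Real.dist_eq, sub_zero]; exact hηb)
    rwa [Real.dist_eq, Real.cosh_zero] at this
  have hch1 : 1 ≤ Real.cosh η := Real.one_le_cosh η
  have hch2 : Real.cosh η - 1 < ε := lt_of_le_of_lt (le_abs_self _) hch
  have hcos := Real.abs_cos_le_one t
  rw [km_re, km_im, ← hη]
  constructor
  · have h3 : Real.cos t * Real.cosh η ≤ 1 * Real.cosh η :=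
      mul_le_mul_of_nonneg_right (Real.cos_le_one t) (by linarith)
    have h4 : ε ≤ c0 / 2 := min_le_left _ _
    linarith
  · by_cases hs : 0 ≤ Real.sin t * η
    · left
      rcases lt_trichotomy η 0 with h | h | h
      · have h5 : Real.sin t ≤ 0 := by
          by_contra h6
          push Not at h6
          nlinarith [mul_neg_of_pos_of_neg h6 h]
        exact mul_nonneg_of_nonpos_of_nonpos h5 (Real.sinh_nonpos_iff.mpr h.le)
      · rw [h]; simp
      · have h5 : 0 ≤ Real.sin t := by
          by_contra h6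
          push Not at h6
          nlinarith [mul_neg_of_neg_of_pos h6 h]
        exact mul_nonneg h5 (Real.sinh_nonneg_iff.mpr h.le)
    · right
      push Not at hs
      -- the square of bet t is less than the square of bet a
      have hκp : 0 < κ := by
        rcases hκ.1.eq_or_lt with h | h
        · rw [hη, ← h] at hs; simp at hs
        · exact h
      have hdt : 0 < 1 - (c0 - 1) * Real.cos t :=
        lt_of_lt_of_le hb1 (km_den _ _ (Real.abs_cos_le_one t))
      have hda : 0 < 1 - (c0 - 1) * Real.cos a :=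
        lt_of_lt_of_le hb1 (km_den _ _ (Real.abs_cos_le_one a))
      have hsb : Real.sin t * (bet c0 t - bet c0 a) < 0 := by
        have h5 : κ * (Real.sin t * (bet c0 t - bet c0 a)) < 0 := by
          rw [hη] at hs; linarith
        by_contra h6
        push Not at h6
        nlinarith [mul_nonneg hκp.le h6]
      have hst : Real.sin t = (1 - (c0 - 1) * Real.cos t) * bet c0 t := by
        unfold bet; field_simp
      have hlt : bet c0 t ^ 2 < bet c0 a ^ 2 := by
        rw [hst] at hsb
        have h5 : bet c0 t * (bet c0 t - bet c0 a) < 0 := by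
          by_contra h6
          push Not at h6
          nlinarith [mul_nonneg hdt.le h6]
        nlinarith [sq_nonneg (bet c0 t - bet c0 a)]
      have hc1 : 0 < 1 - (c0 - 1) ^ 2 := by
        have := abs_lt.mp hb
        nlinarith
      have hP := km_bet_sq hb t
      have hQ := km_bet_sq hb a
      set P : ℝ := (Real.cos t - (c0 - 1)) / (1 - (c0 - 1) * Real.cos t) with hPdef
      set Q : ℝ := (Real.cos a - (c0 - 1)) / (1 - (c0 - 1) * Real.cos a) with hQdef
      have hPQ : Q ^ 2 < P ^ 2 := by nlinarith [mul_lt_mul_of_pos_left hlt hc1]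
      have hQ0 : p0 ≤ Q := by
        rw [hQdef, le_div_iff₀ hda]
        have h5 := hca a ha
        have h6 : 1 - (c0 - 1) * Real.cos a ≤ 2 := by
          have h7 : |(c0 - 1) * Real.cos a| ≤ 1 := by
            rw [abs_mul]
            exact mul_le_one₀ hb.le (abs_nonneg _) (Real.abs_cos_le_one a)
          linarith [(abs_le.mp h7).1]
        calc p0 * (1 - (c0 - 1) * Real.cos a) ≤ p0 * 2 := mul_le_mul_of_nonneg_left h6 hp0p.le
          _ = m1 := by rw [hp0]; ring
          _ ≤ Real.cos a - (c0 - 1) := by rw [hm1]; linarith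
      have hPabs : p0 ≤ |P| := by
        have h5 : |Q| < |P| := sq_lt_sq.mp hPQ
        have h6 : Q ≤ |Q| := le_abs_self _
        linarith
      have hx : m2 ≤ |Real.cos t - (c0 - 1)| := by
        have h5 : |Real.cos t - (c0 - 1)| = |P| * (1 - (c0 - 1) * Real.cos t) := by
          rw [hPdef, abs_div, abs_of_pos hdt, div_mul_cancel₀ _ hdt.ne']
        rw [h5, hm2]
        exact mul_le_mul hPabs (km_den _ _ (Real.abs_cos_le_one t)) hb1.le (abs_nonneg _)
      have h7 : Real.cos t - (c0 - 1) =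
          -((c0 - Real.cos t * Real.cosh η) - 1) - Real.cos t * (Real.cosh η - 1) := by ring
      have h8 : |Real.cos t - (c0 - 1)| ≤ |(c0 - Real.cos t * Real.cosh η) - 1| +
          |Real.cos t * (Real.cosh η - 1)| := by
        rw [h7]
        refine (abs_sub _ _).trans ?_
        rw [abs_neg]
      have h9 : |Real.cos t * (Real.cosh η - 1)| ≤ ε := by
        rw [abs_mul]
        calc |Real.cos t| * |Real.cosh η - 1| ≤ 1 * ε :=
              mul_le_mul hcos hch.le (abs_nonneg _) zero_le_one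
          _ = ε := one_mul _
      have h10 : ε ≤ m2 / 2 := min_le_right _ _
      linarith

end

end IsingNB
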