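import Pool.Agent.Helper98.NB.OmBasic

namespace IsingNB

open Complex Set MeasureTheory Filter Topology
open scoped Real

noncomputable section

/-- The logarithmic derivative of `om` along vertical lines. -/
def knLam (c0 : ℝ) (φ : ℂ) : ℂ := -(I * Complex.sin φ) / Rt ((c0 : ℂ) - Complex.cos φ)

/-- The strip on which everything is regular. -/
def knD (c0 : ℝ) : Set ℂ :=
  {φ | -1 < ((c0 : ℂ) - Complex.cos φ).re ∧ ((c0 : ℂ) - Complex.cos φ).re < 1}

theorem knD_open (c0 : ℝ) : IsOpen (knD c0) := by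
  have h1 : Continuous fun φ : ℂ => ((c0 : ℂ) - Complex.cos φ).re :=
    Complex.continuous_re.comp (continuous_const.sub Complex.continuous_cos)
  exact (isOpen_lt continuous_const h1).inter (isOpen_lt h1 continuous_const)

theorem knD_mem_ZZ {c0 : ℝ} {φ : ℂ} (h : φ ∈ knD c0) : (c0 : ℂ) - Complex.cos φ ∈ ZZ :=
  ⟨h.1, Or.inr h.2.ne⟩

theorem knLam_diff {c0 : ℝ} {φ : ℂ} (h : φ ∈ knD c0) : DifferentiableAt ℂ (knLam c0) φ := by
  unfold knLam
  have hZ := knD_mem_ZZ h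
  have h1 : DifferentiableAt ℂ (fun φ : ℂ => (c0 : ℂ) - Complex.cos φ) φ := by fun_prop
  have h2 : DifferentiableAt ℂ (fun φ : ℂ => Rt ((c0 : ℂ) - Complex.cos φ)) φ :=
    DifferentiableAt.comp (g := Rt) φ (Rt_hasDerivAt hZ).differentiableAt h1
  have h3 : DifferentiableAt ℂ (fun φ : ℂ => -(I * Complex.sin φ)) φ := by fun_prop
  exact h3.fun_div h2 (Rt_ne_zero hZ)

/-- Facts about the edge angle. -/
theorem knFe {c0 : ℝ} (h0 : 0 < c0) (h2 : c0 < 2) :
    Real.cos (fe c0) = c0 - 1 ∧ 0 < fe c0 ∧ fe c0 < π := by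
  unfold fe
  refine ⟨Real.cos_arccos (by linarith) (by linarith), Real.arccos_pos.2 (by linarith), ?_⟩
  rcases (Real.arccos_le_pi (c0 - 1)).lt_or_eq with h | h
  · exact h
  · exfalso
    have h3 := Real.cos_arccos (x := c0 - 1) (by linarith) (by linarith)
    rw [h, Real.cos_pi] at h3
    linarith

theorem knCos {c0 r t : ℝ} (h0 : 0 < c0) (h2 : c0 < 2) (hr : 0 < r) (hr' : r < fe c0)
    (ht : t ∈ Icc (-(fe c0 - r)) (fe c0 - r)) :
    c0 - 1 < Real.cos (fe c0 - r) ∧ Real.cos (fe c0 - r) ≤ Real.cos t := by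
  obtain ⟨hf1, hf2, hf3⟩ := knFe h0 h2
  constructor
  · rw [← hf1]
    exact Real.cos_lt_cos_of_nonneg_of_le_pi (by linarith) hf3.le (by linarith)
  · rw [← Real.cos_abs t]
    exact Real.cos_le_cos_of_nonneg_of_le_pi (abs_nonneg t) (by linarith)
      (abs_le.2 ⟨ht.1, ht.2⟩)

/-- On the real segment. -/
theorem knReal {c0 r t : ℝ} (h0 : 0 < c0) (h2 : c0 < 2) (hr : 0 < r) (hr' : r < fe c0)
    (ht : t ∈ Icc (-(fe c0 - r)) (fe c0 - r)) :
    -1 < c0 - Real.cos t ∧ c0 - Real.cos t < 1 := by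
  obtain ⟨h3, h4⟩ := knCos h0 h2 hr hr' ht
  exact ⟨by linarith [Real.cos_le_one t], by linarith⟩

theorem knDel {c0 r t : ℝ} (h0 : 0 < c0) (h2 : c0 < 2) (hr : 0 < r) (hr' : r < fe c0)
    (ht : t ∈ Icc (-(fe c0 - r)) (fe c0 - r)) :
    0 < del c0 t ∧ del c0 t < π ∧ Real.cos (del c0 t) = c0 - Real.cos t := by
  obtain ⟨h3, h4⟩ := knReal h0 h2 hr hr' ht
  unfold del
  refine ⟨Real.arccos_pos.2 h4, ?_, Real.cos_arccos h3.le h4.le⟩
  rcases (Real.arccos_le_pi (c0 - Real.cos t)).lt_or_eq with h | h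
  · exact h
  · exfalso
    have h5 := Real.cos_arccos h3.le h4.le
    rw [h, Real.cos_pi] at h5
    linarith

theorem knD_real {c0 r t : ℝ} (h0 : 0 < c0) (h2 : c0 < 2) (hr : 0 < r) (hr' : r < fe c0)
    (ht : t ∈ Icc (-(fe c0 - r)) (fe c0 - r)) : (t : ℂ) ∈ knD c0 := by
  obtain ⟨h3, h4⟩ := knReal h0 h2 hr hr' ht
  have h5 : ((c0 : ℂ) - Complex.cos t).re = c0 - Real.cos t := by
    rw [← Complex.ofReal_cos, ← Complex.ofReal_sub, Complex.ofReal_re]
  unfold knD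
  rw [Set.mem_ofPred_eq, h5]
  exact ⟨h3, h4⟩

theorem knLam_real {c0 r t : ℝ} (h0 : 0 < c0) (h2 : c0 < 2) (hr : 0 < r) (hr' : r < fe c0)
    (ht : t ∈ Icc (-(fe c0 - r)) (fe c0 - r)) : knLam c0 t = (vel c0 t : ℂ) := by
  obtain ⟨h3, h4, h5⟩ := knDel h0 h2 hr hr' ht
  have h6 : (c0 : ℂ) - Complex.cos t = ((Real.cos (del c0 t) : ℝ) : ℂ) := by
    rw [h5]
    push_cast
    rfl
  have h7 : ((Real.sin (del c0 t) : ℝ) : ℂ) ≠ 0 := by
    exact_mod_cast (Real.sin_pos_of_pos_of_lt_pi h3 h4).ne'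
  unfold knLam vel
  rw [h6, Rt_cos h3 h4]
  rw [Complex.ofReal_div, Complex.ofReal_neg, Complex.ofReal_sin t]
  field_simp

/-- The derivative of `log |om|` along the vertical line. -/
theorem knLog_deriv {c0 : ℝ} {t s : ℝ} (h : (t : ℂ) + I * s ∈ knD c0) :
    HasDerivAt (fun s : ℝ => Real.log ‖om ((c0 : ℂ) - Complex.cos ((t : ℂ) + I * s))‖)
      (knLam c0 ((t : ℂ) + I * s)).re s := by
  have hZ := knD_mem_ZZ h
  have h1 : HasDerivAt (fun s : ℝ => (c0 : ℂ) - Complex.cos ((t : ℂ) + I * s))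
      (Complex.sin ((t : ℂ) + I * s) * I) s := by
    have h2 : HasDerivAt (fun z : ℂ => (c0 : ℂ) - Complex.cos ((t : ℂ) + I * z))
        (Complex.sin ((t : ℂ) + I * s) * I) (s : ℂ) := by
      have h3 : HasDerivAt (fun z : ℂ => (t : ℂ) + I * z) I (s : ℂ) := by
        simpa using ((hasDerivAt_id (s : ℂ)).const_mul I).const_add (t : ℂ)
      have h4 := (h3.ccos).const_sub (c0 : ℂ)
      refine h4.congr_deriv ?_
      ring
    exact h2.comp_ofReal
  have h5 : HasDerivAt (fun s : ℝ => om ((c0 : ℂ) - Complex.cos ((t : ℂ) + I * s)))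
      (-(om ((c0 : ℂ) - Complex.cos ((t : ℂ) + I * s))) /
        Rt ((c0 : ℂ) - Complex.cos ((t : ℂ) + I * s)) * (Complex.sin ((t : ℂ) + I * s) * I)) s :=
    HasDerivAt.comp_of_eq (h₂ := om) s (om_hasDerivAt hZ) h1 rfl
  have hne : om ((c0 : ℂ) - Complex.cos ((t : ℂ) + I * s)) ≠ 0 := om_ne_zero _
  have h6 := h5.norm_sq
  have h7 : ‖om ((c0 : ℂ) - Complex.cos ((t : ℂ) + I * s))‖ ^ 2 ≠ 0 := by
    exact pow_ne_zero 2 (norm_ne_zero_iff.2 hne)
  have h8 := (h6.log h7).div_const 2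
  have h9 : (fun s : ℝ => Real.log ‖om ((c0 : ℂ) - Complex.cos ((t : ℂ) + I * s))‖) =
      fun s : ℝ => Real.log (‖om ((c0 : ℂ) - Complex.cos ((t : ℂ) + I * s))‖ ^ 2) / 2 := by
    funext u
    rw [Real.log_pow]
    push_cast
    ring
  rw [h9]
  refine h8.congr_deriv ?_
  have h10 : ∀ u v : ℂ, inner ℝ u v = (v * (starRingEnd ℂ) u).re := fun u v => by
    rw [Complex.inner]
  rw [h10]
  have h11 : -(om ((c0 : ℂ) - Complex.cos ((t : ℂ) + I * s))) /
      Rt ((c0 : ℂ) - Complex.cos ((t : ℂ) + I * s)) * (Complex.sin ((t : ℂ) + I * s) * I) =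
      om ((c0 : ℂ) - Complex.cos ((t : ℂ) + I * s)) * knLam c0 ((t : ℂ) + I * s) := by
    unfold knLam
    ring
  rw [h11]
  have h12 : om ((c0 : ℂ) - Complex.cos ((t : ℂ) + I * s)) * knLam c0 ((t : ℂ) + I * s) *
      (starRingEnd ℂ) (om ((c0 : ℂ) - Complex.cos ((t : ℂ) + I * s))) =
      ((‖om ((c0 : ℂ) - Complex.cos ((t : ℂ) + I * s))‖ ^ 2 : ℝ) : ℂ) *
        knLam c0 ((t : ℂ) + I * s) := by
    rw [mul_right_comm, Complex.mul_conj, Complex.normSq_eq_norm_sq]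
  rw [h12, Complex.re_ofReal_mul]
  field_simp

/-- Second order estimate of `log |om|`. -/
theorem knLog_le {c0 r : ℝ} (h0 : 0 < c0) (h2 : c0 < 2) (hr : 0 < r) (hr' : r < fe c0) :
    ∃ δ > 0, ∃ C > 0, ∀ t ∈ Icc (-(fe c0 - r)) (fe c0 - r), ∀ η : ℝ, |η| ≤ δ →
      Real.log ‖om ((c0 : ℂ) - Complex.cos ((t : ℂ) + I * η))‖ ≤ η * vel c0 t + C * η ^ 2 := by
  set K : Set ℂ := (fun t : ℝ => (t : ℂ)) '' Icc (-(fe c0 - r)) (fe c0 - r) with hK
  have hKc : IsCompact K := isCompact_Icc.image Complex.continuous_ofReal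
  have hKconv : Convex ℝ K := (convex_Icc _ _).is_linear_image Complex.ofRealCLM.isLinear
  have hKD : K ⊆ knD c0 := by
    rintro _ ⟨t, ht, rfl⟩
    exact knD_real h0 h2 hr hr' ht
  obtain ⟨δ, hδ, hδD⟩ := hKc.exists_cthickening_subset_open (knD_open c0) hKD
  have hcomp : IsCompact (Metric.cthickening δ K) := hKc.cthickening
  have hdiff : DifferentiableOn ℂ (knLam c0) (knD c0) := fun φ hφ =>
    (knLam_diff hφ).differentiableWithinAt
  have hcont : ContinuousOn (deriv (knLam c0)) (Metric.cthickening δ K) :=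
    ((hdiff.deriv (knD_open c0)).continuousOn).mono hδD
  obtain ⟨C, hC⟩ := hcomp.exists_bound_of_continuousOn hcont
  refine ⟨δ, hδ, |C| + 1, by positivity, fun t ht η hη => ?_⟩
  have hmem : ∀ s : ℝ, |s| ≤ |η| → (t : ℂ) + I * s ∈ Metric.cthickening δ K := by
    intro s hs
    refine Metric.mem_cthickening_of_dist_le _ (t : ℂ) δ K ⟨t, ht, rfl⟩ ?_
    rw [dist_eq_norm, add_sub_cancel_left, norm_mul, Complex.norm_I, one_mul, Complex.norm_real,
      Real.norm_eq_abs]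
    exact hs.trans hη
  have ht0 : (t : ℂ) ∈ Metric.cthickening δ K := Metric.self_subset_cthickening K ⟨t, ht, rfl⟩
  have hlip : ∀ s : ℝ, |s| ≤ |η| → ‖knLam c0 ((t : ℂ) + I * s) - knLam c0 t‖ ≤ C * |s| := by
    intro s hs
    have h3 := (hKconv.cthickening δ).norm_image_sub_le_of_norm_deriv_le (f := knLam c0) (C := C)
      (fun x hx => knLam_diff (hδD hx)) (fun x hx => hC x hx) ht0 (hmem s hs)
    rw [add_sub_cancel_left, norm_mul, Complex.norm_I, one_mul, Complex.norm_real,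
      Real.norm_eq_abs] at h3
    exact h3
  -- the function h(s) = E(s) - s vel
  have hder : ∀ s ∈ Icc (-|η|) |η|, HasDerivWithinAt
      (fun s : ℝ => Real.log ‖om ((c0 : ℂ) - Complex.cos ((t : ℂ) + I * s))‖ - s * vel c0 t)
      ((knLam c0 ((t : ℂ) + I * s)).re - vel c0 t) (Icc (-|η|) |η|) s := by
    intro s hs
    have h3 := knLog_deriv (c0 := c0) (t := t) (s := s) (hδD (hmem s (abs_le.2 hs)))
    have h4 : HasDerivAt (fun s : ℝ => s * vel c0 t) (vel c0 t) s := by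
      simpa using (hasDerivAt_id s).mul_const (vel c0 t)
    exact (h3.sub h4).hasDerivWithinAt
  have hbound : ∀ s ∈ Icc (-|η|) |η|,
      ‖(knLam c0 ((t : ℂ) + I * s)).re - vel c0 t‖ ≤ (|C| + 1) * |η| := by
    intro s hs
    have h5 := hlip s (abs_le.2 hs)
    rw [knLam_real h0 h2 hr hr' ht] at h5
    have h6 : (knLam c0 ((t : ℂ) + I * s)).re - vel c0 t =
        (knLam c0 ((t : ℂ) + I * s) - (vel c0 t : ℂ)).re := by
      rw [Complex.sub_re, Complex.ofReal_re]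
    rw [h6, Real.norm_eq_abs]
    refine (Complex.abs_re_le_norm _).trans (h5.trans ?_)
    have h7 : |s| ≤ |η| := abs_le.2 hs
    have h8 : C ≤ |C| + 1 := by linarith [le_abs_self C]
    calc C * |s| ≤ (|C| + 1) * |s| := mul_le_mul_of_nonneg_right h8 (abs_nonneg s)
      _ ≤ (|C| + 1) * |η| := mul_le_mul_of_nonneg_left h7 (by positivity)
  have hη0 : (0 : ℝ) ∈ Icc (-|η|) |η| := ⟨by simp, abs_nonneg η⟩
  have hη1 : η ∈ Icc (-|η|) |η| := ⟨neg_abs_le η, le_abs_self η⟩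
  have h9 := (convex_Icc (-|η|) |η|).norm_image_sub_le_of_norm_hasDerivWithin_le hder hbound hη0 hη1
  have h10 : Real.log ‖om ((c0 : ℂ) - Complex.cos ((t : ℂ) + I * (0 : ℝ)))‖ = 0 := by
    obtain ⟨h3, h4, h5⟩ := knDel h0 h2 hr hr' ht
    have h6 : (c0 : ℂ) - Complex.cos ((t : ℂ) + I * (0 : ℝ)) = ((Real.cos (del c0 t) : ℝ) : ℂ) := by
      rw [h5]
      push_cast
      simp
    rw [h6, om_cos h3 h4, Complex.norm_exp]
    simp
  simp only [h10, zero_mul, sub_zero] at h9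
  rw [Real.norm_eq_abs, Real.norm_eq_abs] at h9
  have h11 := (abs_le.1 h9).2
  have h12 : |η| * |η| = η ^ 2 := by rw [← sq, sq_abs]
  have h13 : (|C| + 1) * |η| * |η| = (|C| + 1) * η ^ 2 := by rw [mul_assoc, h12]
  linarith

/-- The derivative of the velocity. -/
theorem knVel_deriv {c0 r t : ℝ} (h0 : 0 < c0) (h2 : c0 < 2) (hr : 0 < r) (hr' : r < fe c0)
    (ht : t ∈ Icc (-(fe c0 - r)) (fe c0 - r)) :
    HasDerivAt (vel c0) (-(c0 * (1 - Real.cos t * Real.cos (del c0 t))) /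
      Real.sin (del c0 t) ^ 3) t := by
  obtain ⟨h3, h4, h5⟩ := knDel h0 h2 hr hr' ht
  obtain ⟨h6, h7⟩ := knReal h0 h2 hr hr' ht
  have hs := Real.sin_pos_of_pos_of_lt_pi h3 h4
  -- derivative of del
  have hdel : HasDerivAt (del c0) (-Real.sin t / Real.sin (del c0 t)) t := by
    have h8 : HasDerivAt (fun x : ℝ => c0 - Real.cos x) (Real.sin t) t := by
      have := (Real.hasDerivAt_cos t).const_sub c0
      simpa using this
    have h9 := Real.hasDerivAt_arccos h6.ne' h7.ne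
    have h10 := h9.comp t h8
    unfold del
    have h11 : Real.sin (Real.arccos (c0 - Real.cos t)) =
        Real.sqrt (1 - (c0 - Real.cos t) ^ 2) := Real.sin_arccos _
    rw [h11]
    refine h10.congr_deriv ?_
    ring
  unfold vel
  have h12 := (Real.hasDerivAt_sin t).fun_neg.fun_div (hdel.sin) hs.ne'
  refine h12.congr_deriv ?_
  have h13 : Real.sin (del c0 t) ^ 2 = 1 - Real.cos (del c0 t) ^ 2 := by
    have := Real.sin_sq_add_cos_sq (del c0 t)
    linarith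
  have h14 : Real.sin t ^ 2 = 1 - Real.cos t ^ 2 := by
    have := Real.sin_sq_add_cos_sq t
    linarith
  have h15 : c0 = Real.cos t + Real.cos (del c0 t) := by rw [h5]; ring
  have h16 : (-Real.cos t * Real.sin (del c0 t) -
      -Real.sin t * (Real.cos (del c0 t) * (-Real.sin t / Real.sin (del c0 t)))) /
      Real.sin (del c0 t) ^ 2 =
      -(Real.cos t * Real.sin (del c0 t) ^ 2 + Real.sin t ^ 2 * Real.cos (del c0 t)) /
        Real.sin (del c0 t) ^ 3 := by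
    field_simp
    ring
  rw [h16]
  congr 1
  rw [h13, h14]
  linear_combination (1 - Real.cos t * Real.cos (del c0 t)) * h15

theorem knVel_le {c0 r : ℝ} (h0 : 0 < c0) (h2 : c0 < 2) (hr : 0 < r) (hr' : r < fe c0) :
    ∃ c1 > 0, ∀ a ∈ Icc (-(fe c0 - r)) (fe c0 - r), ∀ t ∈ Icc (-(fe c0 - r)) (fe c0 - r), a ≤ t →
      vel c0 t - vel c0 a ≤ -c1 * (t - a) := by
  obtain ⟨hf1, hf2, hf3⟩ := knFe h0 h2
  set m : ℝ := min c0 (Real.cos (fe c0 - r) - (c0 - 1)) with hm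
  have hmpos : 0 < m := by
    refine lt_min h0 ?_
    have h3 := (knCos h0 h2 hr hr' (t := 0) ⟨by linarith, by linarith⟩).1
    linarith
  refine ⟨c0 * m, mul_pos h0 hmpos, fun a ha t ht hat => ?_⟩
  have hd : ∀ x ∈ Icc (-(fe c0 - r)) (fe c0 - r), deriv (vel c0) x ≤ -(c0 * m) := by
    intro x hx
    rw [(knVel_deriv h0 h2 hr hr' hx).deriv]
    obtain ⟨h3, h4, h5⟩ := knDel h0 h2 hr hr' hx
    obtain ⟨h6, h7⟩ := knCos h0 h2 hr hr' hx
    have hs := Real.sin_pos_of_pos_of_lt_pi h3 h4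
    have h8 : |Real.cos (del c0 x)| ≤ 1 - m := by
      rw [h5, abs_le]
      constructor
      · have : m ≤ c0 := min_le_left _ _
        linarith [Real.cos_le_one x]
      · have : m ≤ Real.cos (fe c0 - r) - (c0 - 1) := min_le_right _ _
        linarith
    have h9 : |Real.cos x * Real.cos (del c0 x)| ≤ 1 - m := by
      rw [abs_mul]
      calc |Real.cos x| * |Real.cos (del c0 x)| ≤ 1 * |Real.cos (del c0 x)| :=
            mul_le_mul_of_nonneg_right (Real.abs_cos_le_one x) (abs_nonneg _)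
        _ ≤ 1 - m := by rw [one_mul]; exact h8
    have h10 : m ≤ 1 - Real.cos x * Real.cos (del c0 x) := by
      linarith [le_abs_self (Real.cos x * Real.cos (del c0 x))]
    have h11 : Real.sin (del c0 x) ^ 3 ≤ 1 := pow_le_one₀ hs.le (Real.sin_le_one _)
    have h12 : 0 < Real.sin (del c0 x) ^ 3 := pow_pos hs 3
    rw [div_le_iff₀ h12]
    have h13 : c0 * m ≤ c0 * (1 - Real.cos x * Real.cos (del c0 x)) :=
      mul_le_mul_of_nonneg_left h10 h0.le
    have h14 : c0 * m * Real.sin (del c0 x) ^ 3 ≤ c0 * m * 1 :=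
      mul_le_mul_of_nonneg_left h11 (mul_pos h0 hmpos).le
    linarith
  refine (convex_Icc (-(fe c0 - r)) (fe c0 - r)).image_sub_le_mul_sub_of_deriv_le
    (f := vel c0) (fun x hx => (knVel_deriv h0 h2 hr hr' hx).continuousAt.continuousWithinAt)
    (fun x hx => (knVel_deriv h0 h2 hr hr'
      (interior_subset hx)).differentiableAt.differentiableWithinAt)
    (fun x hx => hd x (interior_subset hx)) a ha t ht hat

theorem knBet_deriv {c0 t : ℝ} (h0 : 0 < c0) (h2 : c0 < 2) : HasDerivAt (bet c0) (dbet c0 t) t := by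
  have h3 : 0 < 1 - (c0 - 1) * Real.cos t := by
    have h4 : |(c0 - 1) * Real.cos t| < 1 := by
      rw [abs_mul]
      calc |c0 - 1| * |Real.cos t| ≤ |c0 - 1| * 1 :=
            mul_le_mul_of_nonneg_left (Real.abs_cos_le_one t) (abs_nonneg _)
        _ < 1 := by rw [mul_one]; exact abs_lt.2 ⟨by linarith, by linarith⟩
    linarith [le_abs_self ((c0 - 1) * Real.cos t)]
  have h4 : HasDerivAt (fun x : ℝ => 1 - (c0 - 1) * Real.cos x) ((c0 - 1) * Real.sin t) t := by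
    have := ((Real.hasDerivAt_cos t).const_mul (c0 - 1)).const_sub 1
    refine this.congr_deriv ?_
    ring
  unfold bet dbet
  refine ((Real.hasDerivAt_sin t).fun_div h4 h3.ne').congr_deriv ?_
  congr 1
  have h5 := Real.sin_sq_add_cos_sq t
  have h6 : Real.sin t ^ 2 = 1 - Real.cos t ^ 2 := by linarith
  calc Real.cos t * (1 - (c0 - 1) * Real.cos t) - Real.sin t * ((c0 - 1) * Real.sin t) =
      Real.cos t - (c0 - 1) * Real.cos t ^ 2 - (c0 - 1) * Real.sin t ^ 2 := by ring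
    _ = Real.cos t - (c0 - 1) := by rw [h6]; ring

theorem knBet_le {c0 r : ℝ} (h0 : 0 < c0) (h2 : c0 < 2) (hr : 0 < r) (hr' : r < fe c0) :
    ∃ c2 > 0, ∃ C2 > 0, ∀ a ∈ Icc (-(fe c0 - r)) (fe c0 - r),
      ∀ t ∈ Icc (-(fe c0 - r)) (fe c0 - r), a ≤ t →
      c2 * (t - a) ≤ bet c0 t - bet c0 a ∧ bet c0 t - bet c0 a ≤ C2 * (t - a) := by
  obtain ⟨hf1, hf2, hf3⟩ := knFe h0 h2
  have hb : |c0 - 1| < 1 := abs_lt.2 ⟨by linarith, by linarith⟩
  set m : ℝ := Real.cos (fe c0 - r) - (c0 - 1) with hm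
  have hmpos : 0 < m := by
    have h3 := (knCos h0 h2 hr hr' (t := 0) ⟨by linarith, by linarith⟩).1
    rw [hm]
    linarith
  have hden : ∀ x : ℝ, 1 - |c0 - 1| ≤ 1 - (c0 - 1) * Real.cos x ∧
      1 - (c0 - 1) * Real.cos x ≤ 2 := by
    intro x
    have h4 : |(c0 - 1) * Real.cos x| ≤ |c0 - 1| := by
      rw [abs_mul]
      calc |c0 - 1| * |Real.cos x| ≤ |c0 - 1| * 1 :=
            mul_le_mul_of_nonneg_left (Real.abs_cos_le_one x) (abs_nonneg _)
        _ = |c0 - 1| := mul_one _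
    have h5 := abs_le.1 h4
    exact ⟨by linarith [h5.2], by linarith [h5.1]⟩
  have hB : 0 < 1 - |c0 - 1| := by linarith
  have hder : ∀ x ∈ Icc (-(fe c0 - r)) (fe c0 - r), m / 4 ≤ deriv (bet c0) x ∧
      deriv (bet c0) x ≤ 2 / (1 - |c0 - 1|) ^ 2 := by
    intro x hx
    rw [(knBet_deriv (t := x) h0 h2).deriv]
    obtain ⟨h3, h4⟩ := hden x
    obtain ⟨h6, h7⟩ := knCos h0 h2 hr hr' hx
    have h8 : 0 < 1 - (c0 - 1) * Real.cos x := lt_of_lt_of_le hB h3
    have h9 : m ≤ Real.cos x - (c0 - 1) := by rw [hm]; linarith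
    unfold dbet
    constructor
    · rw [div_le_div_iff₀ (by norm_num) (pow_pos h8 2)]
      have h10 : (1 - (c0 - 1) * Real.cos x) ^ 2 ≤ 4 := by nlinarith
      calc m * (1 - (c0 - 1) * Real.cos x) ^ 2 ≤ m * 4 := mul_le_mul_of_nonneg_left h10 hmpos.le
        _ ≤ (Real.cos x - (c0 - 1)) * 4 := by linarith
    · have h11 : Real.cos x - (c0 - 1) ≤ 2 := by linarith [Real.cos_le_one x]
      have h12 : (1 - |c0 - 1|) ^ 2 ≤ (1 - (c0 - 1) * Real.cos x) ^ 2 :=
        pow_le_pow_left₀ hB.le h3 2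
      rw [div_le_div_iff₀ (pow_pos h8 2) (pow_pos hB 2)]
      have h13 : 0 ≤ Real.cos x - (c0 - 1) := by linarith
      calc (Real.cos x - (c0 - 1)) * (1 - |c0 - 1|) ^ 2
          ≤ (Real.cos x - (c0 - 1)) * (1 - (c0 - 1) * Real.cos x) ^ 2 :=
            mul_le_mul_of_nonneg_left h12 h13
        _ ≤ 2 * (1 - (c0 - 1) * Real.cos x) ^ 2 :=
            mul_le_mul_of_nonneg_right h11 (by positivity)
  have hcont : ContinuousOn (bet c0) (Icc (-(fe c0 - r)) (fe c0 - r)) := fun x _ =>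
    (knBet_deriv (t := x) h0 h2).continuousAt.continuousWithinAt
  have hdiff : DifferentiableOn ℝ (bet c0) (interior (Icc (-(fe c0 - r)) (fe c0 - r))) := fun x _ =>
    (knBet_deriv (t := x) h0 h2).differentiableAt.differentiableWithinAt
  refine ⟨m / 4, by positivity, 2 / (1 - |c0 - 1|) ^ 2, by positivity, fun a ha t ht hat => ⟨?_, ?_⟩⟩
  · exact (convex_Icc (-(fe c0 - r)) (fe c0 - r)).mul_sub_le_image_sub_of_le_deriv
      hcont hdiff (fun x hx => (hder x (interior_subset hx)).1) a ha t ht hat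
  · exact (convex_Icc (-(fe c0 - r)) (fe c0 - r)).image_sub_le_mul_sub_of_deriv_le
      hcont hdiff (fun x hx => (hder x (interior_subset hx)).2) a ha t ht hat

/-- The elementary inequality behind `key_near`. -/
theorem knArith {κ c1 c2 C2 C D B V : ℝ} (hκ : 0 < κ) (hC : 0 < C) (hc1 : 0 < c1)
    (hκ2 : κ * (C * C2) ≤ c1 / 2) (hB1 : c2 * D ≤ B) (hB0 : 0 ≤ B) (hD : 0 ≤ D)
    (hB2 : B ≤ C2 * D) (hV : V ≤ -c1 * D) :
    κ * B * V + C * (κ * B) ^ 2 ≤ -(κ * c2 * c1 / 2) * D ^ 2 := by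
  have h1 : κ * B * V ≤ κ * B * (-c1 * D) := mul_le_mul_of_nonneg_left hV (by positivity)
  have h2 : C * (κ * B) ^ 2 ≤ C * κ ^ 2 * B * (C2 * D) := by
    have h3 : C * (κ * B) ^ 2 = C * κ ^ 2 * B * B := by ring
    rw [h3]
    exact mul_le_mul_of_nonneg_left hB2 (by positivity)
  have h4 : C * κ ^ 2 * B * (C2 * D) = (κ * (C * C2)) * (κ * B * D) := by ring
  have h5 : (κ * (C * C2)) * (κ * B * D) ≤ c1 / 2 * (κ * B * D) :=
    mul_le_mul_of_nonneg_right hκ2 (by positivity)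
  have h6 : κ * c1 / 2 * D * (c2 * D) ≤ κ * c1 / 2 * D * B :=
    mul_le_mul_of_nonneg_left hB1 (by positivity)
  nlinarith

theorem key_near {c0 r : ℝ} (h0 : 0 < c0) (h2 : c0 < 2) (hr : 0 < r) (hr' : r < fe c0) :
    ∃ κ0 > 0, ∀ κ ∈ Ioc (0 : ℝ) κ0, ∃ μ > 0, ∀ a ∈ Icc (-(fe c0 - r)) (fe c0 - r),
      ∀ t ∈ Icc (-(fe c0 - r)) (fe c0 - r),
      -(vel c0 a) * (κ * (bet c0 t - bet c0 a)) +
        Real.log ‖om ((c0 : ℂ) - Complex.cos (lam c0 κ a t))‖ ≤ -μ * (t - a) ^ 2 := by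
  obtain ⟨hf1, hf2, hf3⟩ := knFe h0 h2
  obtain ⟨δ, hδ, C, hC, hE⟩ := knLog_le h0 h2 hr hr'
  obtain ⟨c1, hc1, hv⟩ := knVel_le h0 h2 hr hr'
  obtain ⟨c2, hc2, C2, hC2, hb⟩ := knBet_le h0 h2 hr hr'
  refine ⟨min (δ / (2 * π * C2)) (c1 / 2 / (C * C2)), lt_min (by positivity) (by positivity),
    fun κ hκ => ⟨κ * c2 * c1 / 2, by have := hκ.1; positivity, fun a ha t ht => ?_⟩⟩
  have hκ0 := hκ.1
  have hκ1 : κ * (2 * π * C2) ≤ δ := by
    rw [← le_div_iff₀ (by positivity)]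
    exact hκ.2.trans (min_le_left _ _)
  have hκ2 : κ * (C * C2) ≤ c1 / 2 := by
    rw [← le_div_iff₀ (by positivity)]
    exact hκ.2.trans (min_le_right _ _)
  have hlam : lam c0 κ a t = (t : ℂ) + I * ((κ * (bet c0 t - bet c0 a) : ℝ) : ℂ) := by
    unfold lam
    rfl
  -- bound on the size of the shift
  have hsize : |bet c0 t - bet c0 a| ≤ C2 * (2 * π) := by
    rcases le_total a t with h | h
    · obtain ⟨h3, h4⟩ := hb a ha t ht h
      have h5 : 0 ≤ bet c0 t - bet c0 a := le_trans (mul_nonneg hc2.le (by linarith)) h3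
      rw [abs_of_nonneg h5]
      refine h4.trans (mul_le_mul_of_nonneg_left ?_ hC2.le)
      linarith [ha.1, ht.2]
    · obtain ⟨h3, h4⟩ := hb t ht a ha h
      have h5 : 0 ≤ bet c0 a - bet c0 t := le_trans (mul_nonneg hc2.le (by linarith)) h3
      rw [abs_sub_comm, abs_of_nonneg h5]
      refine h4.trans (mul_le_mul_of_nonneg_left ?_ hC2.le)
      linarith [ht.1, ha.2]
  have hη : |κ * (bet c0 t - bet c0 a)| ≤ δ := by
    rw [abs_mul, abs_of_pos hκ0]
    calc κ * |bet c0 t - bet c0 a| ≤ κ * (C2 * (2 * π)) := mul_le_mul_of_nonneg_left hsize hκ0.le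
      _ = κ * (2 * π * C2) := by ring
      _ ≤ δ := hκ1
  have h6 := hE t ht _ hη
  rw [hlam]
  rcases le_total a t with h | h
  · obtain ⟨h3, h4⟩ := hb a ha t ht h
    have h5 : 0 ≤ bet c0 t - bet c0 a := le_trans (mul_nonneg hc2.le (by linarith)) h3
    have h7 := knArith hκ0 hC hc1 hκ2 h3 h5 (by linarith : (0 : ℝ) ≤ t - a) h4 (hv a ha t ht h)
    nlinarith
  · obtain ⟨h3, h4⟩ := hb t ht a ha h
    have h5 : 0 ≤ bet c0 a - bet c0 t := le_trans (mul_nonneg hc2.le (by linarith)) h3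
    have h7 := knArith hκ0 hC hc1 hκ2 h3 h5 (by linarith : (0 : ℝ) ≤ a - t) h4 (hv t ht a ha h)
    nlinarith

end

end IsingNB
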