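import Pool.Agent.Helper98.NB.Defs

/-!
# NB-1: elementary properties of the branch `om`
-/

set_option autoImplicit false

namespace IsingNB

open Complex Set MeasureTheory Filter Topology
open scoped Real

noncomputable section

theorem half_pow_sq (x : ℂ) : (x ^ (1 / 2 : ℂ)) ^ 2 = x := by
  have h := Complex.cpow_nat_inv_pow x (n := 2) two_ne_zero
  have h2 : ((2 : ℕ) : ℂ)⁻¹ = (1 / 2 : ℂ) := by norm_num
  rwa [h2] at h

theorem exp_pi_four_sq : Complex.exp (I * (π / 4)) ^ 2 = I := by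
  rw [← Complex.exp_nat_mul]
  have h : ((2 : ℕ) : ℂ) * (I * (π / 4)) = π / 2 * I := by push_cast; ring
  rw [h, Complex.exp_pi_div_two_mul_I]

theorem Rt_sq (z : ℂ) : Rt z ^ 2 = z ^ 2 - 1 := by
  unfold Rt
  rw [mul_pow, mul_pow, half_pow_sq, half_pow_sq, exp_pi_four_sq]
  linear_combination (-(z - 1) * (z + 1)) * Complex.I_mul_I

theorem om_mul_add (z : ℂ) : om z * (z + Rt z) = 1 := by
  unfold om
  linear_combination -(Rt_sq z)

theorem om_ne_zero (z : ℂ) : om z ≠ 0 := by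
  intro h
  have := om_mul_add z
  rw [h, zero_mul] at this
  exact zero_ne_one this

theorem om_inv (z : ℂ) : (om z)⁻¹ = z + Rt z := inv_eq_of_mul_eq_one_right (om_mul_add z)

theorem om_add_inv (z : ℂ) : om z + (om z)⁻¹ = 2 * z := by
  rw [om_inv]
  unfold om
  ring

/-- The elliptic coordinate identity. -/
theorem norm_add_inv_of {w z : ℂ} (hw : w ≠ 0) (h : w + w⁻¹ = 2 * z) :
    ‖w‖ + ‖w‖⁻¹ = ‖z + 1‖ + ‖z - 1‖ := by
  have hz : z = (w + w⁻¹) / 2 := by rw [h]; ring
  have h1 : z + 1 = (w + 1) ^ 2 / (2 * w) := by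
    rw [hz]; field_simp; ring
  have h2 : z - 1 = (w - 1) ^ 2 / (2 * w) := by
    rw [hz]; field_simp; ring
  have hpar : ‖w + 1‖ ^ 2 + ‖w - 1‖ ^ 2 = 2 * ‖w‖ ^ 2 + 2 := by
    rw [← Complex.normSq_eq_norm_sq, ← Complex.normSq_eq_norm_sq, ← Complex.normSq_eq_norm_sq,
      Complex.normSq_apply, Complex.normSq_apply, Complex.normSq_apply]
    simp only [Complex.add_re, Complex.add_im, Complex.sub_re, Complex.sub_im, Complex.one_re,
      Complex.one_im]
    ring
  have hw0 : 0 < ‖w‖ := norm_pos_iff.2 hw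
  rw [h1, h2, norm_div, norm_div, norm_pow, norm_pow, norm_mul, Complex.norm_ofNat, ← add_div,
    hpar]
  field_simp

theorem norm_om_add_inv (z : ℂ) : ‖om z‖ + ‖om z‖⁻¹ = ‖z + 1‖ + ‖z - 1‖ :=
  norm_add_inv_of (om_ne_zero z) (om_add_inv z)

theorem isOpen_ZZ : IsOpen ZZ := by
  have h1 : IsOpen {z : ℂ | -1 < z.re} := isOpen_lt continuous_const Complex.continuous_re
  have h2 : IsOpen {z : ℂ | 0 < z.im} := isOpen_lt continuous_const Complex.continuous_im
  have h3 : IsOpen {z : ℂ | z.re ≠ 1} := isOpen_ne_fun Complex.continuous_re continuous_const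
  exact h1.inter (h2.union h3)

theorem sq_ne_one_of_mem {z : ℂ} (hz : z ∈ ZZ) : z ≠ 1 ∧ z ≠ -1 := by
  obtain ⟨h1, h2⟩ := hz
  constructor
  · rintro rfl
    simp at h2
  · rintro rfl
    simp at h1

theorem Rt_ne_zero {z : ℂ} (hz : z ∈ ZZ) : Rt z ≠ 0 := by
  intro h
  have h1 := Rt_sq z
  rw [h] at h1
  have h2 : (z - 1) * (z + 1) = 0 := by linear_combination -h1
  rcases mul_eq_zero.1 h2 with h3 | h3
  · exact (sq_ne_one_of_mem hz).1 (sub_eq_zero.1 h3)
  · exact (sq_ne_one_of_mem hz).2 (eq_neg_of_add_eq_zero_left h3)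

theorem slit_one {z : ℂ} (hz : z ∈ ZZ) : -I * (z - 1) ∈ Complex.slitPlane := by
  rw [Complex.mem_slitPlane_iff]
  obtain ⟨_, h2⟩ := hz
  have hre : (-I * (z - 1)).re = z.im := by simp
  have him : (-I * (z - 1)).im = -(z.re - 1) := by simp
  rw [hre, him]
  rcases h2 with h2 | h2
  · exact Or.inl h2
  · right
    intro h
    apply h2
    linarith

theorem slit_two {z : ℂ} (hz : z ∈ ZZ) : z + 1 ∈ Complex.slitPlane := by
  rw [Complex.mem_slitPlane_iff]
  left
  have := hz.1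
  rw [Complex.add_re, Complex.one_re]
  linarith

theorem Rt_differentiableAt {z : ℂ} (hz : z ∈ ZZ) : DifferentiableAt ℂ Rt z := by
  unfold Rt
  have h1 : DifferentiableAt ℂ (fun z : ℂ => (-I * (z - 1)) ^ (1 / 2 : ℂ)) z :=
    DifferentiableAt.cpow (f := fun z : ℂ => -I * (z - 1)) (g := fun _ => (1 / 2 : ℂ))
      (by fun_prop) (differentiableAt_const _) (slit_one hz)
  have h2 : DifferentiableAt ℂ (fun z : ℂ => (z + 1) ^ (1 / 2 : ℂ)) z :=
    DifferentiableAt.cpow (f := fun z : ℂ => z + 1) (g := fun _ => (1 / 2 : ℂ))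
      (by fun_prop) (differentiableAt_const _) (slit_two hz)
  exact ((differentiableAt_const _).mul h1).mul h2

theorem Rt_hasDerivAt {z : ℂ} (hz : z ∈ ZZ) : HasDerivAt Rt (z / Rt z) z := by
  have h := (Rt_differentiableAt hz).hasDerivAt
  have h2 : HasDerivAt (Rt ^ 2) (2 * Rt z * deriv Rt z) z := by
    have := h.pow 2
    simpa using this
  have h3 : HasDerivAt (Rt ^ 2) (2 * z) z := by
    have h4 : (Rt ^ 2) = fun z => z ^ 2 - 1 := by
      funext z
      exact Rt_sq z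
    rw [h4]
    have := (hasDerivAt_pow 2 z).sub_const 1
    simpa using this
  have h5 := h2.unique h3
  have h6 : deriv Rt z = z / Rt z := by
    rw [eq_div_iff (Rt_ne_zero hz)]
    linear_combination h5 / 2
  rwa [h6] at h

theorem om_hasDerivAt {z : ℂ} (hz : z ∈ ZZ) : HasDerivAt om (-(om z) / Rt z) z := by
  have h := (hasDerivAt_id z).sub (Rt_hasDerivAt hz)
  have h2 : (1 : ℂ) - z / Rt z = -(om z) / Rt z := by
    unfold om
    field_simp [Rt_ne_zero hz]
    ring
  rw [h2] at h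
  exact h

theorem om_analytic : AnalyticOnNhd ℂ om ZZ := by
  apply DifferentiableOn.analyticOnNhd _ isOpen_ZZ
  intro z hz
  exact (om_hasDerivAt hz).differentiableAt.differentiableWithinAt

theorem om_sq_ne_one {z : ℂ} (hz : z ∈ ZZ) : om z ^ 2 ≠ 1 := by
  intro h
  have h1 := om_add_inv z
  rw [sq, mul_self_eq_one_iff] at h
  rcases h with h2 | h2
  · rw [h2, inv_one] at h1
    exact (sq_ne_one_of_mem hz).1 (by linear_combination -h1 / 2)
  · rw [h2, inv_neg, inv_one] at h1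
    exact (sq_ne_one_of_mem hz).2 (by linear_combination -h1 / 2)

theorem one_sub_om_sq_ne {z : ℂ} (hz : z ∈ ZZ) : 1 - om z ^ 2 ≠ 0 := fun h =>
  om_sq_ne_one hz (sub_eq_zero.1 h).symm

theorem one_sub_om_mul_ne {z z' : ℂ} (hz : z ∈ ZZ) (hz' : z' ∈ ZZ) : 1 - om z * om z' ≠ 0 := by
  intro h
  have h0 : om z * om z' = 1 := (sub_eq_zero.1 h).symm
  have h1 : (om z)⁻¹ = om z' := inv_eq_of_mul_eq_one_right h0
  have h2 : (om z')⁻¹ = om z := by rw [← h1, inv_inv]
  have h3 := om_add_inv z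
  have h4 := om_add_inv z'
  rw [h1] at h3
  rw [h2] at h4
  have h5 : z = z' := by linear_combination (h4 - h3) / 2
  rw [← h5] at h0
  exact om_sq_ne_one hz (by rw [sq, h0])

/-- The principal square root has nonnegative real part and the imaginary part has the sign of the
imaginary part of the argument. -/
theorem half_pow_re_im (x : ℂ) : 0 ≤ (x ^ (1 / 2 : ℂ)).re ∧
    (0 ≤ x.im → 0 ≤ (x ^ (1 / 2 : ℂ)).im) ∧ (x.im < 0 → (x ^ (1 / 2 : ℂ)).im < 0) ∧
    (x.im ≠ 0 → 0 < (x ^ (1 / 2 : ℂ)).re) ∧ (0 < x.im → 0 < (x ^ (1 / 2 : ℂ)).im) := by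
  by_cases hx : x = 0
  · subst hx
    rw [Complex.zero_cpow (by norm_num)]
    simp
  have hdef : x ^ (1 / 2 : ℂ) = Complex.exp (Complex.log x / 2) := by
    rw [Complex.cpow_def_of_ne_zero hx]
    congr 1
    ring
  have hre : (Complex.log x / 2).re = Real.log ‖x‖ / 2 := by
    rw [Complex.div_ofNat_re, Complex.log_re]
  have him : (Complex.log x / 2).im = x.arg / 2 := by
    rw [Complex.div_ofNat_im, Complex.log_im]
  have h1 : (x ^ (1 / 2 : ℂ)).re = Real.exp (Real.log ‖x‖ / 2) * Real.cos (x.arg / 2) := by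
    rw [hdef, Complex.exp_re, hre, him]
  have h2 : (x ^ (1 / 2 : ℂ)).im = Real.exp (Real.log ‖x‖ / 2) * Real.sin (x.arg / 2) := by
    rw [hdef, Complex.exp_im, hre, him]
  have he : 0 < Real.exp (Real.log ‖x‖ / 2) := Real.exp_pos _
  have hl := Complex.neg_pi_lt_arg x
  have hu := Complex.arg_le_pi x
  have hpi := Real.pi_pos
  refine ⟨?_, ?_, ?_, ?_, ?_⟩
  · rw [h1]
    exact mul_nonneg he.le (Real.cos_nonneg_of_neg_pi_div_two_le_of_le (by linarith) (by linarith))
  · intro h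
    rw [h2]
    have := Complex.arg_nonneg_iff.2 h
    exact mul_nonneg he.le (Real.sin_nonneg_of_nonneg_of_le_pi (by linarith) (by linarith))
  · intro h
    rw [h2]
    have := Complex.arg_neg_iff.2 h
    exact mul_neg_of_pos_of_neg he (Real.sin_neg_of_neg_of_neg_pi_lt (by linarith) (by linarith))
  · intro h
    rw [h1]
    apply mul_pos he
    apply Real.cos_pos_of_mem_Ioo
    constructor
    · linarith
    · have hne : x.arg ≠ π := by
        intro h3
        rw [Complex.arg_eq_pi_iff] at h3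
        exact h h3.2
      have := lt_of_le_of_ne hu hne
      linarith
  · intro h
    rw [h2]
    have h3 := Complex.arg_nonneg_iff.2 h.le
    have hne : x.arg ≠ 0 := by
      intro h4
      rw [Complex.arg_eq_zero_iff] at h4
      linarith [h4.2]
    have := lt_of_le_of_ne h3 hne.symm
    exact mul_pos he (Real.sin_pos_of_pos_of_lt_pi (by linarith) (by linarith))

/-- The product `Re (t conj s)` for the two square roots. -/
theorem roots_inner {u : ℂ} :
    0 ≤ ((u + 1) ^ (1 / 2 : ℂ)).re * ((u - 1) ^ (1 / 2 : ℂ)).re +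
      ((u + 1) ^ (1 / 2 : ℂ)).im * ((u - 1) ^ (1 / 2 : ℂ)).im ∧
    (¬ (u.im = 0 ∧ -1 ≤ u.re ∧ u.re ≤ 1) →
    0 < ((u + 1) ^ (1 / 2 : ℂ)).re * ((u - 1) ^ (1 / 2 : ℂ)).re +
      ((u + 1) ^ (1 / 2 : ℂ)).im * ((u - 1) ^ (1 / 2 : ℂ)).im) := by
  have hs := half_pow_re_im (u - 1)
  have ht := half_pow_re_im (u + 1)
  have hs2 := half_pow_sq (u - 1)
  have ht2 := half_pow_sq (u + 1)
  have hims : (u - 1).im = u.im := by simp
  have himt : (u + 1).im = u.im := by simp
  rw [hims] at hs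
  rw [himt] at ht
  set s := (u - 1) ^ (1 / 2 : ℂ) with hsdef
  set t := (u + 1) ^ (1 / 2 : ℂ) with htdef
  obtain ⟨hs1, hs3, hs4, hs5, hs6⟩ := hs
  obtain ⟨ht1, ht3, ht4, ht5, ht6⟩ := ht
  have hsr : s.re ^ 2 - s.im ^ 2 = u.re - 1 := by
    have := congrArg Complex.re hs2
    rw [sq, Complex.mul_re, Complex.sub_re, Complex.one_re] at this
    nlinarith
  have htr : t.re ^ 2 - t.im ^ 2 = u.re + 1 := by
    have := congrArg Complex.re ht2
    rw [sq, Complex.mul_re, Complex.add_re, Complex.one_re] at this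
    nlinarith
  rcases lt_trichotomy u.im 0 with h | h | h
  · have h1 := hs4 h
    have h2 := ht4 h
    have h3 : 0 < t.im * s.im := mul_pos_of_neg_of_neg h2 h1
    have h4 : 0 ≤ t.re * s.re := mul_nonneg ht1 hs1
    exact ⟨by linarith, fun _ => by linarith⟩
  · have h1 := hs3 h.ge
    have h2 := ht3 h.ge
    have h3 : 0 ≤ t.im * s.im := mul_nonneg h2 h1
    have h4 : 0 ≤ t.re * s.re := mul_nonneg ht1 hs1
    refine ⟨by linarith, fun hn => ?_⟩
    by_cases h5 : -1 ≤ u.re
    · have h6 : 1 < u.re := by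
        by_contra h7
        exact hn ⟨h, h5, not_lt.1 h7⟩
      have h8 : 0 < s.re := by
        apply lt_of_le_of_ne hs1
        intro h9
        rw [← h9] at hsr
        nlinarith
      have h10 : 0 < t.re := by
        apply lt_of_le_of_ne ht1
        intro h9
        rw [← h9] at htr
        nlinarith
      have := mul_pos h10 h8
      linarith
    · have h6 : u.re < -1 := not_le.1 h5
      have h8 : 0 < s.im := by
        apply lt_of_le_of_ne h1
        intro h9
        rw [← h9] at hsr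
        nlinarith
      have h10 : 0 < t.im := by
        apply lt_of_le_of_ne h2
        intro h9
        rw [← h9] at htr
        nlinarith
      have := mul_pos h10 h8
      linarith
  · have h1 := hs6 h
    have h2 := ht6 h
    have h3 : 0 < t.im * s.im := mul_pos h2 h1
    have h4 : 0 ≤ t.re * s.re := mul_nonneg ht1 hs1
    exact ⟨by linarith, fun _ => by linarith⟩

/-- The two roots have product one, and the norms are compared by the inner product. -/
theorem norm_sub_roots {s t u : ℂ} (hs : s ^ 2 = u - 1) (ht : t ^ 2 = u + 1) :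
    (0 ≤ t.re * s.re + t.im * s.im → ‖u - s * t‖ ≤ 1) ∧
    (0 < t.re * s.re + t.im * s.im → ‖u - s * t‖ < 1) := by
  have h1 : (u - s * t) * (u + s * t) = 1 := by
    linear_combination (-(t ^ 2)) * hs - (u - 1) * ht
  have h2 : u - s * t = (t - s) ^ 2 / 2 := by
    linear_combination -(hs + ht) / 2
  have h3 : u + s * t = (t + s) ^ 2 / 2 := by
    linear_combination -(hs + ht) / 2
  have h4 : ‖u - s * t‖ * ‖u + s * t‖ = 1 := by
    rw [← norm_mul, h1, norm_one]
  have h5 : ‖u + s * t‖ - ‖u - s * t‖ = 2 * (t.re * s.re + t.im * s.im) := by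
    rw [h2, h3, norm_div, norm_div, norm_pow, norm_pow, Complex.norm_ofNat,
      ← Complex.normSq_eq_norm_sq, ← Complex.normSq_eq_norm_sq,
      Complex.normSq_apply, Complex.normSq_apply]
    simp only [Complex.add_re, Complex.add_im, Complex.sub_re, Complex.sub_im]
    ring
  have h6 : 0 ≤ ‖u - s * t‖ := norm_nonneg _
  constructor
  · intro h
    by_contra h7
    have h8 : 1 < ‖u - s * t‖ := not_le.1 h7
    have h9 : ‖u - s * t‖ ≤ ‖u + s * t‖ := by linarith
    nlinarith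
  · intro h
    by_contra h7
    have h8 : 1 ≤ ‖u - s * t‖ := not_lt.1 h7
    have h9 : ‖u - s * t‖ < ‖u + s * t‖ := by linarith
    nlinarith

theorem Rt_eq {z : ℂ} (h : 0 < z.im ∨ 1 < z.re) :
    Rt z = (z - 1) ^ (1 / 2 : ℂ) * (z + 1) ^ (1 / 2 : ℂ) := by
  have hz1 : z - 1 ≠ 0 := by
    intro h1
    have h2 : z = 1 := sub_eq_zero.1 h1
    subst h2
    simp at h
  have harg : -(π / 2) < (z - 1).arg := by
    rcases h with h | h
    · have h1 : 0 ≤ (z - 1).arg := Complex.arg_nonneg_iff.2 (by simpa using h.le)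
      linarith [Real.pi_pos]
    · have h1 : |(z - 1).arg| < π / 2 :=
        Complex.abs_arg_lt_pi_div_two_iff.2 (Or.inl (by simpa using h))
      exact (abs_lt.1 h1).1
  have hI : (-I : ℂ) ≠ 0 := neg_ne_zero.2 Complex.I_ne_zero
  have hlog : Complex.log (-I * (z - 1)) = Complex.log (-I) + Complex.log (z - 1) := by
    rw [Complex.log_mul_eq_add_log_iff hI hz1, Complex.arg_neg_I]
    constructor
    · linarith
    · linarith [Complex.arg_le_pi (z - 1), Real.pi_pos]
  have h1 : (-I * (z - 1)) ^ (1 / 2 : ℂ) =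
      Complex.exp (-(I * (π / 4))) * (z - 1) ^ (1 / 2 : ℂ) := by
    rw [Complex.cpow_def_of_ne_zero (mul_ne_zero hI hz1), Complex.cpow_def_of_ne_zero hz1, hlog,
      Complex.log_neg_I, ← Complex.exp_add]
    congr 1
    ring
  unfold Rt
  rw [h1, ← mul_assoc, ← Complex.exp_add, add_neg_cancel, Complex.exp_zero, one_mul]

theorem norm_om_lt_one_aux {z : ℂ} (h : 0 < z.im ∨ 1 < z.re) : ‖om z‖ < 1 := by
  unfold om
  rw [Rt_eq h]
  apply (norm_sub_roots (half_pow_sq (z - 1)) (half_pow_sq (z + 1))).2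
  apply roots_inner.2
  rintro ⟨h1, h2, h3⟩
  rcases h with h | h <;> linarith

theorem norm_om_lt_one_of_im {z : ℂ} (h : 0 < z.im) : ‖om z‖ < 1 := norm_om_lt_one_aux (Or.inl h)

theorem norm_om_lt_one_of_re {z : ℂ} (h : 1 < z.re) : ‖om z‖ < 1 := norm_om_lt_one_aux (Or.inr h)

theorem Rt_cos {δ : ℝ} (h0 : 0 < δ) (hπ : δ < π) :
    Rt (Real.cos δ : ℝ) = I * (Real.sin δ : ℝ) := by
  have hc1 : 0 ≤ 1 - Real.cos δ := by linarith [Real.cos_le_one δ]
  have hc2 : 0 ≤ 1 + Real.cos δ := by linarith [Real.neg_one_le_cos δ]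
  have hs : 0 ≤ Real.sin δ := (Real.sin_pos_of_pos_of_lt_pi h0 hπ).le
  have h1 : -I * (((Real.cos δ : ℝ) : ℂ) - 1) = ((1 - Real.cos δ : ℝ) : ℂ) * I := by
    push_cast; ring
  have h2 : (((1 - Real.cos δ : ℝ) : ℂ) * I) ^ (1 / 2 : ℂ) =
      ((Real.sqrt (1 - Real.cos δ) : ℝ) : ℂ) * Complex.exp (I * (π / 4)) := by
    rcases hc1.eq_or_lt with h4 | h4
    · rw [← h4, Real.sqrt_zero, Complex.ofReal_zero, zero_mul, zero_mul,
        Complex.zero_cpow (by norm_num)]
    · have h5 : ((1 - Real.cos δ : ℝ) : ℂ) * I ≠ 0 :=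
        mul_ne_zero (Complex.ofReal_ne_zero.2 h4.ne') Complex.I_ne_zero
      rw [Complex.cpow_def_of_ne_zero h5, Complex.log_ofReal_mul h4 Complex.I_ne_zero,
        Complex.log_I, Real.sqrt_eq_rpow, Real.rpow_def_of_pos h4, Complex.ofReal_exp,
        ← Complex.exp_add]
      congr 1
      push_cast
      ring
  have h3 : (((Real.cos δ : ℝ) : ℂ) + 1) ^ (1 / 2 : ℂ) = ((Real.sqrt (1 + Real.cos δ) : ℝ) : ℂ) := by
    rw [Real.sqrt_eq_rpow, Complex.ofReal_cpow hc2]
    push_cast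
    rw [add_comm]
  have h6 : Real.sqrt (1 - Real.cos δ) * Real.sqrt (1 + Real.cos δ) = Real.sin δ := by
    rw [← Real.sqrt_mul hc1]
    have h7 : (1 - Real.cos δ) * (1 + Real.cos δ) = Real.sin δ ^ 2 := by
      nlinarith [Real.sin_sq_add_cos_sq δ]
    rw [h7, Real.sqrt_sq hs]
  unfold Rt
  rw [h1, h2, h3, ← h6]
  push_cast
  linear_combination (((Real.sqrt (1 - Real.cos δ) : ℝ) : ℂ) *
    ((Real.sqrt (1 + Real.cos δ) : ℝ) : ℂ)) * exp_pi_four_sq

theorem om_cos {δ : ℝ} (h0 : 0 < δ) (hπ : δ < π) :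
    om (Real.cos δ : ℝ) = Complex.exp (-(I * δ)) := by
  unfold om
  rw [Rt_cos h0 hπ]
  have h : -(I * (δ : ℂ)) = ((-δ : ℝ) : ℂ) * I := by push_cast; ring
  rw [h, Complex.exp_mul_I]
  push_cast
  rw [Complex.cos_neg, Complex.sin_neg]
  ring

theorem dens_om {z : ℂ} (hz : z ∈ ZZ) : 2 * om z / (1 - om z ^ 2) = 1 / Rt z := by
  rw [div_eq_div_iff (one_sub_om_sq_ne hz) (Rt_ne_zero hz)]
  have h := om_mul_add z
  have h2 : om z = z - Rt z := rfl
  linear_combination h + om z * h2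

end

end IsingNB
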