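import Pool.Agent.Helper98.NB.Defs
import Pool.Agent.Helper98.NB.OmBasic
import Pool.Agent.Helper98.NB.KeyMem
import Pool.Agent.Helper98.NB.KeyNear
import Pool.Agent.Helper98.NB.KeyFar

/-! NB-6: the package of properties of the contours -/

namespace IsingNB

open Complex Set MeasureTheory Filter Topology Metric
open scoped Real

noncomputable section

theorem kp_mulI_im (x : ℝ) : ((x : ℂ) * I).im = x := by simp

theorem kp_mulI_re (x : ℝ) : ((x : ℂ) * I).re = 0 := by simp

theorem kp_cos_split (t η : ℝ) : Complex.cos ((t : ℂ) + I * (η : ℂ)) =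
    ((Real.cos t * Real.cosh η : ℝ) : ℂ) - ((Real.sin t * Real.sinh η : ℝ) : ℂ) * I := by
  rw [mul_comm I, Complex.cos_add_mul_I]
  push_cast
  ring

theorem kp_sq_one {x : ℝ} (h : x ^ 2 = 1) : x = 1 ∨ x = -1 := by
  have h1 : (x - 1) * (x + 1) = 0 := by linarith [sq x, h]
  rcases mul_eq_zero.1 h1 with h2 | h2
  · left; linarith
  · right; linarith

theorem kp_den_pos {c0 : ℝ} (h0 : 0 < c0) (h2 : c0 < 2) (t : ℝ) :
    1 - |c0 - 1| ≤ 1 - (c0 - 1) * Real.cos t ∧ 0 < 1 - |c0 - 1| := by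
  have h1 : |(c0 - 1) * Real.cos t| ≤ |c0 - 1| := by
    rw [abs_mul]
    exact mul_le_of_le_one_right (abs_nonneg _) (Real.abs_cos_le_one t)
  have h3 : |c0 - 1| < 1 := by rw [abs_lt]; constructor <;> linarith
  constructor
  · linarith [(abs_le.1 h1).2]
  · linarith

theorem kp_bet_cont {c0 : ℝ} (h0 : 0 < c0) (h2 : c0 < 2) : Continuous (bet c0) := by
  unfold bet
  refine Real.continuous_sin.div (continuous_const.sub (continuous_const.mul Real.continuous_cos))
    fun t => ?_
  obtain ⟨h1, h3⟩ := kp_den_pos h0 h2 t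
  exact (lt_of_lt_of_le h3 h1).ne'

theorem kp_bet_le {c0 : ℝ} (h0 : 0 < c0) (h2 : c0 < 2) (t : ℝ) :
    |bet c0 t| ≤ 1 / (1 - |c0 - 1|) := by
  obtain ⟨h1, h3⟩ := kp_den_pos h0 h2 t
  rw [bet, abs_div, abs_of_pos (lt_of_lt_of_le h3 h1)]
  exact div_le_div₀ zero_le_one (Real.abs_sin_le_one t) h3 h1

theorem kp_period (c0 κ a t : ℝ) (k : ℤ) :
    bet c0 (t + k * (2 * π)) = bet c0 t ∧
    Complex.cos (lam c0 κ a (t + k * (2 * π))) = Complex.cos (lam c0 κ a t) ∧
    ch (t + k * (2 * π)) a = ch t a := by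
  have hb : bet c0 (t + k * (2 * π)) = bet c0 t := by
    rw [bet, bet, Real.sin_add_int_mul_two_pi, Real.cos_add_int_mul_two_pi]
  refine ⟨hb, ?_, ?_⟩
  · have : lam c0 κ a (t + k * (2 * π)) = lam c0 κ a t + k * (2 * π) := by
      rw [lam, lam, hb]
      push_cast
      ring
    rw [this, Complex.cos_add_int_mul_two_pi]
  · rw [ch, ch]
    have : Complex.exp (I * ((t + k * (2 * π) : ℝ) : ℂ)) = Complex.exp (I * t) := by
      have h1 : I * ((t + k * (2 * π) : ℝ) : ℂ) = I * t + k * (2 * π * I) := by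
        push_cast
        ring
      rw [h1, Complex.exp_add, Complex.exp_int_mul_two_pi_mul_I, mul_one]
    rw [this]

theorem kp_reduce (t : ℝ) : ∃ t' ∈ Icc (-π) π, ∃ k : ℤ, t = t' + k * (2 * π) := by
  refine ⟨toIocMod Real.two_pi_pos (-π) t, ?_, toIocDiv Real.two_pi_pos (-π) t, ?_⟩
  · have h := toIocMod_mem_Ioc Real.two_pi_pos (-π) t
    exact ⟨h.1.le, h.2.trans (by linarith)⟩
  · have h := toIocMod_add_toIocDiv_zsmul Real.two_pi_pos (-π) t
    rw [zsmul_eq_mul] at h
    exact h.symm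

theorem kp_ch_le (t a : ℝ) : ch t a ≤ (t - a) ^ 2 ∧ ch t a ≤ 4 ∧ 0 ≤ ch t a := by
  have h0 : ‖Complex.exp (I * t) - Complex.exp (I * a)‖ ≤ |t - a| := by
    have h1 : Complex.exp (I * t) - Complex.exp (I * a) =
        Complex.exp (I * a) * (Complex.exp (I * ((t - a : ℝ) : ℂ)) - 1) := by
      rw [mul_sub, ← Complex.exp_add, mul_one]
      congr 2
      push_cast
      ring
    rw [h1, norm_mul, mul_comm I (a : ℂ), Complex.norm_exp_ofReal_mul_I, one_mul]
    have := Real.norm_exp_I_mul_ofReal_sub_one_le (x := t - a)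
    rwa [Real.norm_eq_abs] at this
  have h2 : ‖Complex.exp (I * t) - Complex.exp (I * a)‖ ≤ 2 := by
    refine (norm_sub_le _ _).trans ?_
    rw [mul_comm I (a : ℂ), mul_comm I (t : ℂ), Complex.norm_exp_ofReal_mul_I,
      Complex.norm_exp_ofReal_mul_I]
    norm_num
  have h3 := norm_nonneg (Complex.exp (I * t) - Complex.exp (I * a))
  refine ⟨?_, ?_, ?_⟩
  · rw [ch, ← sq_abs (t - a)]
    exact pow_le_pow_left₀ h3 h0 2
  · rw [ch]
    nlinarith
  · rw [ch]
    positivity

theorem kp_ch_cont : Continuous fun p : ℝ × ℝ => ch p.2 p.1 := by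
  unfold ch
  fun_prop

theorem kp_zf_cont {c0 κ : ℝ} (h0 : 0 < c0) (h2 : c0 < 2) :
    Continuous fun p : ℝ × ℝ => (c0 : ℂ) - Complex.cos (lam c0 κ p.1 p.2) := by
  have hb := kp_bet_cont h0 h2
  unfold lam
  fun_prop

theorem kp_Rt_cont : ContinuousOn Rt ZZ := fun z hz =>
  (Rt_hasDerivAt hz).continuousAt.continuousWithinAt

theorem kp_om_cont : ContinuousOn om ZZ := fun z hz =>
  (om_hasDerivAt hz).continuousAt.continuousWithinAt

theorem kp_lip {Z : Set ℂ} {δ : ℝ} (hZ : IsCompact Z) (hK : cthickening δ Z ⊆ ZZ) :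
    ∃ C > 0, ∀ z0 ∈ Z, ∀ u v : ℂ, ‖u‖ ≤ δ → ‖v‖ ≤ δ →
      Real.log ‖om (z0 + v)‖ ≤ Real.log ‖om (z0 + u)‖ + C * ‖v - u‖ := by
  have hKc : IsCompact (cthickening δ Z) := hZ.cthickening
  have c1 : ContinuousOn (fun z => -(om z) / Rt z) (cthickening δ Z) :=
    (kp_om_cont.neg.div kp_Rt_cont fun z hz => Rt_ne_zero hz).mono hK
  have c2 : ContinuousOn (fun z => (om z)⁻¹) (cthickening δ Z) :=
    (kp_om_cont.inv₀ fun z _ => om_ne_zero z).mono hK
  obtain ⟨L, hL⟩ := hKc.exists_bound_of_continuousOn c1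
  obtain ⟨B, hB⟩ := hKc.exists_bound_of_continuousOn c2
  refine ⟨|L| * |B| + 1, by positivity, ?_⟩
  intro z0 hz0 u v hu hv
  have hsub : closedBall z0 δ ⊆ cthickening δ Z := closedBall_subset_cthickening hz0 δ
  have hu' : z0 + u ∈ closedBall z0 δ := by
    rw [mem_closedBall, dist_eq_norm, add_sub_cancel_left]; exact hu
  have hv' : z0 + v ∈ closedBall z0 δ := by
    rw [mem_closedBall, dist_eq_norm, add_sub_cancel_left]; exact hv
  have h1 : ‖om (z0 + v) - om (z0 + u)‖ ≤ L * ‖(z0 + v) - (z0 + u)‖ := by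
    refine Convex.norm_image_sub_le_of_norm_hasDerivWithin_le (f := om)
      (f' := fun z => -(om z) / Rt z) (s := closedBall z0 δ)
      (fun z hz => (om_hasDerivAt (hK (hsub hz))).hasDerivWithinAt)
      (fun z hz => hL z (hsub hz)) (convex_closedBall z0 δ) hu' hv'
  have h2 : (z0 + v) - (z0 + u) = v - u := by ring
  rw [h2] at h1
  have pu : 0 < ‖om (z0 + u)‖ := norm_pos_iff.2 (om_ne_zero _)
  have pv : 0 < ‖om (z0 + v)‖ := norm_pos_iff.2 (om_ne_zero _)
  have h3 := hB (z0 + u) (hsub hu')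
  rw [norm_inv] at h3
  have h4 : Real.log ‖om (z0 + v)‖ - Real.log ‖om (z0 + u)‖ ≤
      ‖om (z0 + v)‖ / ‖om (z0 + u)‖ - 1 := by
    rw [← Real.log_div pv.ne' pu.ne']
    exact Real.log_le_sub_one_of_pos (div_pos pv pu)
  have h5 : ‖om (z0 + v)‖ / ‖om (z0 + u)‖ - 1 =
      (‖om (z0 + v)‖ - ‖om (z0 + u)‖) * ‖om (z0 + u)‖⁻¹ := by
    field_simp
  have h6 : ‖om (z0 + v)‖ - ‖om (z0 + u)‖ ≤ |L| * ‖v - u‖ :=
    (norm_sub_norm_le _ _).trans (h1.trans
      (mul_le_mul_of_nonneg_right (le_abs_self L) (norm_nonneg _)))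
  have h7 : (‖om (z0 + v)‖ - ‖om (z0 + u)‖) * ‖om (z0 + u)‖⁻¹ ≤ (|L| * ‖v - u‖) * |B| := by
    refine (mul_le_mul_of_nonneg_right h6 (inv_nonneg.2 pu.le)).trans ?_
    exact mul_le_mul_of_nonneg_left (h3.trans (le_abs_self B)) (by positivity)
  have h8 : (|L| * ‖v - u‖) * |B| ≤ (|L| * |B| + 1) * ‖v - u‖ := by
    nlinarith [norm_nonneg (v - u)]
  linarith

theorem kp_gain {z0 : ℂ} {ε : ℝ} (hε : 0 ≤ ε)
    (h : ∀ x ∈ Icc (0 : ℝ) ε, z0 + x * I ∈ ZZ ∧ (-I / Rt (z0 + x * I)).re ≤ -(1 / 2)) :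
    Real.log ‖om (z0 + ε * I)‖ ≤ Real.log ‖om z0‖ - ε / 2 := by
  have hd : ∀ x ∈ Icc (0 : ℝ) ε, HasDerivAt (fun x : ℝ => ‖om (z0 + x * I)‖ ^ 2 * Real.exp x)
      (‖om (z0 + x * I)‖ ^ 2 * Real.exp x * (2 * (-I / Rt (z0 + x * I)).re + 1)) x := by
    intro x hx
    obtain ⟨h1, -⟩ := h x hx
    have d0 : HasDerivAt (fun x : ℝ => z0 + (x : ℂ) * I) I x := by
      have := ((Complex.ofRealCLM.hasDerivAt (x := x)).mul_const I).const_add z0
      simpa using this
    have d1 : HasDerivAt (fun x : ℝ => om (z0 + x * I)) (-(om (z0 + x * I)) /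
        Rt (z0 + x * I) * I) x :=
      HasDerivAt.comp (h₂ := om) (h := fun x : ℝ => z0 + (x : ℂ) * I) x (om_hasDerivAt h1) d0
    have d2 := d1.norm_sq.mul (Real.hasDerivAt_exp x)
    refine d2.congr_deriv ?_
    have e1 : inner ℝ (om (z0 + x * I)) (-(om (z0 + x * I)) / Rt (z0 + x * I) * I) =
        ‖om (z0 + x * I)‖ ^ 2 * (-I / Rt (z0 + x * I)).re := by
      rw [Complex.inner, ← Complex.normSq_eq_norm_sq, ← Complex.re_ofReal_mul,
        Complex.normSq_eq_conj_mul_self]
      congr 1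
      ring
    show 2 * inner ℝ (om (z0 + x * I)) (-(om (z0 + x * I)) / Rt (z0 + x * I) * I) *
      Real.exp x + ‖om (z0 + x * I)‖ ^ 2 * Real.exp x = _
    rw [e1]
    ring
  have hanti : AntitoneOn (fun x : ℝ => ‖om (z0 + x * I)‖ ^ 2 * Real.exp x) (Icc 0 ε) := by
    apply antitoneOn_of_deriv_nonpos (convex_Icc 0 ε)
    · exact fun x hx => (hd x hx).continuousAt.continuousWithinAt
    · intro x hx
      rw [interior_Icc] at hx
      exact (hd x ⟨hx.1.le, hx.2.le⟩).differentiableAt.differentiableWithinAt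
    · intro x hx
      rw [interior_Icc] at hx
      have hx' : x ∈ Icc (0 : ℝ) ε := ⟨hx.1.le, hx.2.le⟩
      rw [(hd x hx').deriv]
      have h2 := (h x hx').2
      exact mul_nonpos_of_nonneg_of_nonpos (by positivity) (by linarith)
  have h3 := hanti ⟨le_rfl, hε⟩ ⟨hε, le_rfl⟩ hε
  simp only [Complex.ofReal_zero, zero_mul, add_zero, Real.exp_zero, mul_one] at h3
  have p0 : 0 < ‖om z0‖ := norm_pos_iff.2 (om_ne_zero _)
  have p1 : 0 < ‖om (z0 + ε * I)‖ := norm_pos_iff.2 (om_ne_zero _)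
  have h4 := Real.log_le_log (by positivity) h3
  rw [Real.log_mul (by positivity) (by positivity), Real.log_exp, Real.log_pow, Real.log_pow] at h4
  push_cast at h4
  linarith

theorem kp_real {c0 a : ℝ} (h0 : 0 < c0) (h2 : c0 < 2) (ha : |a| < fe c0) :
    ((c0 : ℂ) - Complex.cos a) ∈ ZZ ∧ (-I / Rt ((c0 : ℂ) - Complex.cos a)).re ≤ -1 := by
  have hfe : fe c0 ≤ π := Real.arccos_le_pi _
  have hcf : Real.cos (fe c0) = c0 - 1 := Real.cos_arccos (by linarith) (by linarith)
  have h1 : c0 - 1 < Real.cos a := by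
    rw [← hcf, ← Real.cos_abs a]
    exact Real.cos_lt_cos_of_nonneg_of_le_pi (abs_nonneg a) hfe ha
  have h3 := Real.cos_le_one a
  have hz : (c0 : ℂ) - Complex.cos a = ((c0 - Real.cos a : ℝ) : ℂ) := by
    push_cast
    rfl
  rw [hz]
  constructor
  · constructor
    · rw [Complex.ofReal_re]; linarith
    · right
      rw [Complex.ofReal_re]
      intro h
      linarith
  · set x := c0 - Real.cos a with hx
    have hx1 : -1 < x := by linarith
    have hx2 : x < 1 := by linarith
    have hδ0 : 0 < Real.arccos x := Real.arccos_pos.2 hx2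
    have hδπ : Real.arccos x < π := by
      refine lt_of_le_of_ne (Real.arccos_le_pi x) fun h => ?_
      rw [Real.arccos_eq_pi] at h
      linarith
    have hcos : Real.cos (Real.arccos x) = x := Real.cos_arccos hx1.le hx2.le
    have hR := Rt_cos hδ0 hδπ
    rw [hcos] at hR
    rw [hR]
    have hs : 0 < Real.sin (Real.arccos x) := Real.sin_pos_of_pos_of_lt_pi hδ0 hδπ
    have hs1 := Real.sin_le_one (Real.arccos x)
    have e1 : -I / (I * (Real.sin (Real.arccos x) : ℂ)) =
        ((-(1 / Real.sin (Real.arccos x)) : ℝ) : ℂ) := by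
      push_cast
      have hs' : (Real.sin (Real.arccos x) : ℂ) ≠ 0 := by exact_mod_cast hs.ne'
      have hI := I_ne_zero
      push_cast at hs'
      field_simp
    rw [e1, Complex.ofReal_re]
    have : 1 ≤ 1 / Real.sin (Real.arccos x) := by
      rw [le_div_iff₀ hs]
      linarith
    linarith

theorem exists_keyPkg {c0 r : ℝ} (h0 : 0 < c0) (h2 : c0 < 2) (hr : 0 < r) (hr' : r < fe c0) :
    ∃ κ μ C ρ : ℝ, ∃ K : Set ℂ, KeyPkg c0 r κ μ C ρ K := by
  obtain ⟨κ1, hκ1, m0, hm0, hmem⟩ := key_mem h0 h2 hr hr'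
  obtain ⟨r2, hr2, κ2, hκ2, hfar⟩ := key_far h0 h2 hr hr'
  obtain ⟨κ3, hκ3, hnear⟩ := key_near h0 h2 hr2.1 (hr2.2.trans hr')
  obtain ⟨-, hden⟩ := kp_den_pos h0 h2 0
  have hfe : fe c0 ≤ π := Real.arccos_le_pi _
  -- the parameter
  obtain ⟨κ, hκ, hκ1', hκ2', hκ3', hκ4, hκ5⟩ : ∃ κ : ℝ, 0 < κ ∧ κ ≤ κ1 ∧ κ ≤ κ2 ∧ κ ≤ κ3 ∧
      κ ≤ 1 ∧ κ ≤ (1 - |c0 - 1|) / 2 :=
    ⟨min (min κ1 κ2) (min κ3 (min 1 ((1 - |c0 - 1|) / 2))),
      lt_min (lt_min hκ1 hκ2) (lt_min hκ3 (lt_min one_pos (by linarith))),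
      (min_le_left _ _).trans (min_le_left _ _), (min_le_left _ _).trans (min_le_right _ _),
      (min_le_right _ _).trans (min_le_left _ _),
      ((min_le_right _ _).trans (min_le_right _ _)).trans (min_le_left _ _),
      ((min_le_right _ _).trans (min_le_right _ _)).trans (min_le_right _ _)⟩
  obtain ⟨m, hm, hfar⟩ := hfar κ ⟨hκ, hκ2'⟩
  obtain ⟨μ1, hμ1, hnear⟩ := hnear κ ⟨hκ, hκ3'⟩
  set J := Icc (-(fe c0 - r)) (fe c0 - r) with hJ
  have hJabs : ∀ a ∈ J, |a| < fe c0 := by
    intro a ha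
    rw [abs_lt]
    constructor <;> linarith [ha.1, ha.2]
  -- the basic inequality
  obtain ⟨μ0, hμ0, hbase⟩ : ∃ μ0 > 0, ∀ a ∈ J, ∀ t ∈ Icc (-π) π,
      -(vel c0 a) * (κ * (bet c0 t - bet c0 a)) +
        Real.log ‖om ((c0 : ℂ) - Complex.cos (lam c0 κ a t))‖ ≤ -μ0 * ch t a := by
    refine ⟨min μ1 (m / 4), lt_min hμ1 (by positivity), ?_⟩
    intro a ha t ht
    obtain ⟨hc1, hc2, hc3⟩ := kp_ch_le t a
    by_cases hfart : fe c0 - r2 ≤ |t|
    · refine (hfar a ha t ht hfart).trans ?_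
      have h3 : min μ1 (m / 4) * ch t a ≤ m / 4 * 4 :=
        mul_le_mul (min_le_right _ _) hc2 hc3 (by positivity)
      linarith
    · push Not at hfart
      rw [abs_lt] at hfart
      have ha' : a ∈ Icc (-(fe c0 - r2)) (fe c0 - r2) := by
        constructor <;> linarith [ha.1, ha.2, hr2.2]
      refine (hnear a ha' t ⟨by linarith [hfart.1], hfart.2.le⟩).trans ?_
      have h3 : min μ1 (m / 4) * ch t a ≤ μ1 * (t - a) ^ 2 :=
        mul_le_mul (min_le_left _ _) hc1 hc3 hμ1.le
      linarith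
  -- the compact set of base points
  set Z : Set ℂ := (fun p : ℝ × ℝ => (c0 : ℂ) - Complex.cos (lam c0 κ p.1 p.2)) ''
    (J ×ˢ Icc (-π) π) with hZdef
  have hZ : IsCompact Z := (isCompact_Icc.prod isCompact_Icc).image (kp_zf_cont h0 h2)
  have hZmem : ∀ a ∈ J, ∀ t ∈ Icc (-π) π, (c0 : ℂ) - Complex.cos (lam c0 κ a t) ∈ Z :=
    fun a ha t ht => ⟨(a, t), ⟨ha, ht⟩, rfl⟩
  have hZZ : Z ⊆ ZZ := by
    rintro z ⟨⟨a, t⟩, ⟨ha, ht⟩, rfl⟩
    simp only at ha ht ⊢
    obtain ⟨h3, h4⟩ := hmem κ ⟨hκ.le, hκ1'⟩ a ha t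
    refine ⟨by linarith, ?_⟩
    rcases h4 with h4 | h4
    · rcases h4.eq_or_lt with h5 | h5
      · right
        intro h6
        -- `z = 1`
        set η := κ * (bet c0 t - bet c0 a) with hη
        have hcos : Complex.cos (lam c0 κ a t) =
            ((Real.cos t * Real.cosh η : ℝ) : ℂ) - ((Real.sin t * Real.sinh η : ℝ) : ℂ) * I := by
          rw [lam, kp_cos_split]
        have him : ((c0 : ℂ) - Complex.cos (lam c0 κ a t)).im = Real.sin t * Real.sinh η := by
          rw [hcos, Complex.sub_im, Complex.sub_im, Complex.ofReal_im, Complex.ofReal_im,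
            kp_mulI_im]
          ring
        have hre : ((c0 : ℂ) - Complex.cos (lam c0 κ a t)).re = c0 - Real.cos t * Real.cosh η := by
          rw [hcos, Complex.sub_re, Complex.sub_re, Complex.ofReal_re, Complex.ofReal_re,
            kp_mulI_re]
          ring
        have h7 : Real.sin t * Real.sinh η = 0 := by
          rw [← him]
          exact h5.symm
        have h8 : c0 - Real.cos t * Real.cosh η = 1 := by
          rw [← hre]
          exact h6
        have hch := Real.one_le_cosh η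
        rcases mul_eq_zero.1 h7 with h9 | h9
        · have h10 : Real.cos t ^ 2 = 1 := by
            have := Real.sin_sq_add_cos_sq t
            rw [h9] at this
            linarith
          rcases kp_sq_one h10 with h11 | h11
          · rw [h11] at h8
            linarith
          · rw [h11] at h8
            linarith
        · rw [Real.sinh_eq_zero] at h9
          rw [h9, Real.cosh_zero, mul_one] at h8
          have h10 := hbase a ha t ht
          have h11 : (c0 : ℂ) - Complex.cos (lam c0 κ a t) = 1 := by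
            apply Complex.ext
            · rw [hre, h9, Real.cosh_zero, mul_one, h8, Complex.one_re]
            · rw [him, h9, Real.sinh_zero, mul_zero, Complex.one_im]
          rw [h11] at h10
          have hom1 : om 1 = 1 := by
            have := Rt_sq 1
            have h12 : Rt 1 = 0 := by
              have : Rt 1 ^ 2 = 0 := by rw [Rt_sq]; ring
              exact pow_eq_zero_iff (two_ne_zero) |>.1 this
            rw [om, h12, sub_zero]
          rw [hom1, ← hη, h9, mul_zero, norm_one, Real.log_one, add_zero] at h10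
          have h12 : ch t a = 0 := by
            have := (kp_ch_le t a).2.2
            nlinarith
          have h13 : Real.cos t = Real.cos a := by
            have h14 : Complex.exp (I * t) = Complex.exp (I * a) := by
              rw [ch] at h12
              have h15 : ‖Complex.exp (I * t) - Complex.exp (I * a)‖ = 0 :=
                pow_eq_zero_iff (two_ne_zero) |>.1 h12
              exact sub_eq_zero.1 (norm_eq_zero.1 h15)
            have h15 := congrArg Complex.re h14
            rw [mul_comm I, mul_comm I, Complex.exp_ofReal_mul_I_re,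
              Complex.exp_ofReal_mul_I_re] at h15
            exact h15
          have h14 := (kp_real h0 h2 (hJabs a ha)).1.2
          rcases h14 with h15 | h15
          · rw [← Complex.ofReal_cos, ← Complex.ofReal_sub, Complex.ofReal_im] at h15
            exact lt_irrefl _ h15
          · apply h15
            rw [← Complex.ofReal_cos, ← Complex.ofReal_sub, Complex.ofReal_re, ← h13]
            exact h8
      · left; exact h5
    · right
      intro h5
      rw [h5, sub_self, abs_zero] at h4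
      linarith
  obtain ⟨δ, hδ, hKδ⟩ := hZ.exists_cthickening_subset_open isOpen_ZZ hZZ
  obtain ⟨C, hC, hlip⟩ := kp_lip hZ hKδ
  -- the real segment
  set S0 : Set ℂ := (fun a : ℝ => (c0 : ℂ) - Complex.cos a) '' J with hS0
  have hS0c : IsCompact S0 := by
    refine isCompact_Icc.image ?_
    fun_prop
  set U : Set ℂ := ZZ ∩ (fun z => (-I / Rt z).re) ⁻¹' Iio (-(1 / 2)) with hU
  have hUo : IsOpen U := by
    refine ContinuousOn.isOpen_inter_preimage ?_ isOpen_ZZ isOpen_Iio
    exact Complex.continuous_re.comp_continuousOn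
      (continuousOn_const.div kp_Rt_cont fun z hz => Rt_ne_zero hz)
  have hS0U : S0 ⊆ U := by
    rintro z ⟨a, ha, rfl⟩
    obtain ⟨h3, h4⟩ := kp_real h0 h2 (hJabs a ha)
    refine ⟨h3, ?_⟩
    show (-I / Rt ((c0 : ℂ) - Complex.cos a)).re < -(1 / 2)
    linarith
  obtain ⟨δ1, hδ1, hKδ1⟩ := hS0c.exists_cthickening_subset_open hUo hS0U
  -- closeness
  obtain ⟨s0, hs0, hclose⟩ : ∃ s0 > 0, ∀ a ∈ J, ∀ t ∈ Icc (-π) π, ch t a < s0 →
      ‖((c0 : ℂ) - Complex.cos (lam c0 κ a t)) - ((c0 : ℂ) - Complex.cos a)‖ < δ1 / 2 := by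
    set g : ℝ × ℝ → ℝ := fun p =>
      ‖((c0 : ℂ) - Complex.cos (lam c0 κ p.1 p.2)) - ((c0 : ℂ) - Complex.cos p.1)‖ with hg
    have hgc : Continuous g := by
      refine ((kp_zf_cont h0 h2).sub ?_).norm
      fun_prop
    have hbad : IsCompact ((J ×ˢ Icc (-π) π) ∩ g ⁻¹' Ici (δ1 / 2)) :=
      (isCompact_Icc.prod isCompact_Icc).inter_right (isClosed_Ici.preimage hgc)
    obtain ⟨s0, hs0, hs0'⟩ := hbad.exists_forall_le' (f := fun p : ℝ × ℝ => ch p.2 p.1)
      (a := 0) kp_ch_cont.continuousOn (by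
        rintro ⟨a, t⟩ ⟨⟨ha, ht⟩, hgt⟩
        simp only at ha ht ⊢
        refine lt_of_le_of_ne (kp_ch_le t a).2.2 fun h12 => ?_
        have h14 : Complex.exp (I * t) = Complex.exp (I * a) := by
          rw [ch] at h12
          have h15 : ‖Complex.exp (I * t) - Complex.exp (I * a)‖ = 0 :=
            pow_eq_zero_iff (two_ne_zero) |>.1 h12.symm
          exact sub_eq_zero.1 (norm_eq_zero.1 h15)
        have h15 : t = a := by
          rw [Complex.exp_eq_exp_iff_exists_int] at h14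
          obtain ⟨n, hn⟩ := h14
          have h16 : t = a + n * (2 * π) := by
            have h17 : I * ((t : ℂ) - (a + n * (2 * π))) = 0 := by
              rw [mul_sub, hn]
              ring
            have h18 := (mul_eq_zero.1 h17).resolve_left I_ne_zero
            have h19 : (t : ℂ) = ((a + n * (2 * π) : ℝ) : ℂ) := by
              push_cast
              exact sub_eq_zero.1 h18
            exact_mod_cast h19
          have h17 := hJabs a ha
          rw [abs_lt] at h17
          have h18 : (n : ℝ) * (2 * π) < 2 * π := by linarith [ht.2]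
          have h19 : -(2 * π) < (n : ℝ) * (2 * π) := by linarith [ht.1]
          have hpi := Real.pi_pos
          have h20 : (n : ℝ) < 1 := by
            by_contra hcon
            push Not at hcon
            nlinarith
          have h21 : (-1 : ℝ) < n := by
            by_contra hcon
            push Not at hcon
            nlinarith
          have h22 : n < 1 := by exact_mod_cast h20
          have h23 : -1 < n := by exact_mod_cast h21
          have h24 : n = 0 := by omega
          rw [h16, h24]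
          simp
        have h16 : g (a, t) = 0 := by
          rw [hg]
          simp only [h15, lam, sub_self, mul_zero, Complex.ofReal_zero, add_zero, norm_zero]
        have h17 : δ1 / 2 ≤ g (a, t) := hgt
        rw [h16] at h17
        linarith)
    refine ⟨s0, hs0, fun a ha t ht hlt => ?_⟩
    by_contra hcon
    push Not at hcon
    have := hs0' (a, t) ⟨⟨ha, ht⟩, hcon⟩
    exact absurd hlt (not_lt.2 this)
  -- the constants
  obtain ⟨μ, hμ, hμa, hμb⟩ : ∃ μ : ℝ, 0 < μ ∧ μ ≤ μ0 / 2 ∧ μ ≤ 1 / 2 :=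
    ⟨min (μ0 / 2) (1 / 2), lt_min (by positivity) (by norm_num), min_le_left _ _,
      min_le_right _ _⟩
  obtain ⟨ρ, hρ, hρ1, hρ2, hρ3, hρ4, hρ5⟩ : ∃ ρ : ℝ, 0 < ρ ∧ ρ ≤ 1 ∧ ρ ≤ δ / 2 ∧ ρ ≤ δ1 / 2 ∧
      ρ ≤ m0 / 4 ∧ ρ ≤ μ0 * s0 / 2 / (C + 1) :=
    ⟨min (min 1 (δ / 2)) (min (δ1 / 2) (min (m0 / 4) (μ0 * s0 / 2 / (C + 1)))),
      lt_min (lt_min one_pos (by positivity)) (lt_min (by positivity)
        (lt_min (by positivity) (by positivity))),
      (min_le_left _ _).trans (min_le_left _ _), (min_le_left _ _).trans (min_le_right _ _),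
      (min_le_right _ _).trans (min_le_left _ _),
      ((min_le_right _ _).trans (min_le_right _ _)).trans (min_le_left _ _),
      ((min_le_right _ _).trans (min_le_right _ _)).trans (min_le_right _ _)⟩
  refine ⟨κ, μ, C, ρ, cthickening δ Z, ?_⟩
  refine { κ_pos := hκ, κ_le := hκ4, small := ?_, μ_pos := hμ, C_pos := hC, ρ_pos := hρ,
           ρ_le := hρ1, K_compact := hZ.cthickening, K_sub := hKδ, mem := ?_, ineq := ?_,
           path := ?_ }
  · intro t a
    have h3 : |bet c0 t - bet c0 a| ≤ 2 / (1 - |c0 - 1|) := by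
      refine (abs_sub _ _).trans ?_
      have := kp_bet_le h0 h2 t
      have := kp_bet_le h0 h2 a
      have e : 2 / (1 - |c0 - 1|) = 1 / (1 - |c0 - 1|) + 1 / (1 - |c0 - 1|) := by ring
      linarith
    rw [abs_mul, abs_of_pos hκ]
    calc κ * |bet c0 t - bet c0 a| ≤ (1 - |c0 - 1|) / 2 * (2 / (1 - |c0 - 1|)) :=
          mul_le_mul hκ5 h3 (abs_nonneg _) (by linarith)
      _ = 1 := by field_simp
  · intro a ha t c hc
    obtain ⟨t', ht', k, rfl⟩ := kp_reduce t
    obtain ⟨-, hp2, -⟩ := kp_period c0 κ a t' k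
    rw [hp2]
    apply mem_cthickening_of_dist_le _ _ _ _ (hZmem a ha t' ht')
    rw [dist_eq_norm]
    have e : (c - Complex.cos (lam c0 κ a t')) - ((c0 : ℂ) - Complex.cos (lam c0 κ a t')) =
        c - c0 := by ring
    rw [e]
    linarith
  · intro a ha t ε hε ζ hζ
    obtain ⟨t', ht', k, rfl⟩ := kp_reduce t
    obtain ⟨hp1, hp2, hp3⟩ := kp_period c0 κ a t' k
    rw [hp1, hp2, hp3]
    set z0 := (c0 : ℂ) - Complex.cos (lam c0 κ a t') with hz0
    have hz0Z : z0 ∈ Z := hZmem a ha t' ht'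
    have hb := hbase a ha t' ht'
    rw [← hz0] at hb
    have hch0 := (kp_ch_le t' a).2.2
    have e1 : (c0 : ℂ) + ε * I + ζ - Complex.cos (lam c0 κ a t') = z0 + (ε * I + ζ) := by
      rw [hz0]; ring
    rw [e1]
    have nε : ‖(ε : ℂ) * I‖ = ε := by
      rw [norm_mul, norm_I, mul_one, Complex.norm_real, Real.norm_eq_abs, abs_of_nonneg hε.1]
    have hl1 := hlip z0 hz0Z (ε * I) (ε * I + ζ) (by rw [nε]; linarith [hε.2])
      ((norm_add_le _ _).trans (by rw [nε]; linarith [hε.2]))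
    rw [add_sub_cancel_left] at hl1
    by_cases hs : ch t' a < s0
    · have hg := kp_gain (z0 := z0) (ε := ε) hε.1 (by
        intro x hx
        have hin : z0 + x * I ∈ cthickening δ1 S0 := by
          apply mem_cthickening_of_dist_le _ ((c0 : ℂ) - Complex.cos a) _ _
            (show (c0 : ℂ) - Complex.cos (a : ℂ) ∈ S0 from ⟨a, ha, rfl⟩)
          rw [dist_eq_norm]
          have e2 : z0 + x * I - ((c0 : ℂ) - Complex.cos a) =
              (z0 - ((c0 : ℂ) - Complex.cos a)) + x * I := by ring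
          rw [e2]
          refine (norm_add_le _ _).trans ?_
          have h5 := hclose a ha t' ht' hs
          rw [← hz0] at h5
          have h6 : ‖(x : ℂ) * I‖ = x := by
            rw [norm_mul, norm_I, mul_one, Complex.norm_real, Real.norm_eq_abs,
              abs_of_nonneg hx.1]
          rw [h6]
          linarith [hx.2, hε.2]
        have h7 := hKδ1 hin
        exact ⟨h7.1, le_of_lt h7.2⟩)
      nlinarith [mul_nonneg hμ.le hε.1, mul_nonneg hch0 (by linarith : (0 : ℝ) ≤ μ0 - μ),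
        mul_nonneg hε.1 (by linarith : (0 : ℝ) ≤ 1 / 2 - μ)]
    · push Not at hs
      have hl2 := hlip z0 hz0Z 0 (ε * I) (by rw [norm_zero]; exact hδ.le)
        (by rw [nε]; linarith [hε.2])
      rw [add_zero, sub_zero, nε] at hl2
      have h5 : (C + 1) * ρ ≤ μ0 * s0 / 2 := by
        have := mul_le_mul_of_nonneg_left hρ5 (by linarith : (0 : ℝ) ≤ C + 1)
        calc (C + 1) * ρ ≤ (C + 1) * (μ0 * s0 / 2 / (C + 1)) := this
          _ = μ0 * s0 / 2 := by field_simp
      have h6 : (C + μ) * ε ≤ μ0 * s0 / 2 := by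
        refine le_trans ?_ h5
        exact mul_le_mul (by linarith) hε.2 hε.1 (by linarith)
      have h7 : μ0 * s0 / 2 ≤ μ0 / 2 * ch t' a := by nlinarith
      have h8 : μ * ch t' a ≤ μ0 / 2 * ch t' a := mul_le_mul_of_nonneg_right hμa hch0
      nlinarith
  · intro a ha t s hs c hc hc'
    have hsκ : s * κ ∈ Icc (0 : ℝ) κ1 :=
      ⟨mul_nonneg hs.1 hκ.le, (mul_le_of_le_one_left hκ.le hs.2).trans hκ1'⟩
    obtain ⟨h3, h4⟩ := hmem (s * κ) hsκ a ha t
    set z1 := (c0 : ℂ) - Complex.cos (lam c0 (s * κ) a t) with hz1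
    have e1 : c - Complex.cos (lam c0 (s * κ) a t) = z1 + (c - c0) := by rw [hz1]; ring
    have h5 : |(c - c0).re| ≤ 2 * ρ := (abs_re_le_norm _).trans hc'
    have h6 := abs_le.1 h5
    rw [e1]
    refine ⟨?_, ?_⟩
    · rw [add_re]
      linarith [h6.1]
    · rcases h4 with h4 | h4
      · left
        have hcim : (c - (c0 : ℂ)).im = c.im := by
          rw [sub_im, Complex.ofReal_im, sub_zero]
        rw [add_im, hcim]
        linarith
      · right
        rw [add_re]
        intro h7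
        have h8 : z1.re - 1 = -(c - c0).re := by linarith
        rw [h8, abs_neg] at h4
        linarith

end

end IsingNB
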