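import Mathlib

/-!
# Natural boundary of the Ising susceptibility: definitions for the form factor series

All functions are functions of `c = v + 1/v`.
`W u` is the root of `w + 1/w = 2u` with `|w| < 1` (for `u` off the segment `[-1,1]`).
`om z` is the branch of the same root which is analytic on
`ZZ = {Re z > -1} minus the half line 1 - i[0,oo)`.
-/

namespace IsingNB

open Complex Set MeasureTheory
open scoped Real

noncomputable section

/-- The root of `w + 1/w = 2u` of modulus less than one, for `u` not in the real segment `[-1,1]`. -/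
def W (u : ℂ) : ℂ := u - (u - 1) ^ (1 / 2 : ℂ) * (u + 1) ^ (1 / 2 : ℂ)

/-- The square root of `z^2 - 1` on `ZZ`. -/
def Rt (z : ℂ) : ℂ :=
  Complex.exp (I * (π / 4)) * (-I * (z - 1)) ^ (1 / 2 : ℂ) * (z + 1) ^ (1 / 2 : ℂ)

/-- The branch of the root of `w + 1/w = 2z` on `ZZ`. -/
def om (z : ℂ) : ℂ := z - Rt z

/-- The half plane `Re z > -1` with the half line going down from `1` removed. -/
def ZZ : Set ℂ := {z | -1 < z.re ∧ (0 < z.im ∨ z.re ≠ 1)}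

/-- The pair factor. -/
def HH (x w x' w' : ℂ) : ℂ := -((x - x') ^ 2 * (w * w')) / ((x * x') * (1 - w * w') ^ 2)

/-- The product of the pair factors over all pairs. -/
def pairs {j : ℕ} (x w : Fin j → ℂ) : ℂ := ∏ i, ∏ k ∈ Finset.Ioi i, HH (x i) (w i) (x k) (w k)

/-- The product of one particle densities and of pair factors at the complex angles `φ`,
for a branch function `f` (`W` or `om`). -/
def ker (f : ℂ → ℂ) {j : ℕ} (c : ℂ) (φ : Fin j → ℂ) : ℂ :=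
  (∏ i, 2 * f (c - Complex.cos (φ i)) / (1 - f (c - Complex.cos (φ i)) ^ 2)) *
    pairs (fun i => Complex.exp (I * φ i)) (fun i => f (c - Complex.cos (φ i)))

/-- The product of the `w`'s. -/
def prodw (f : ℂ → ℂ) {j : ℕ} (c : ℂ) (φ : Fin j → ℂ) : ℂ := ∏ i, f (c - Complex.cos (φ i))

/-- The cube `[-π,π]^d`. -/
def box (d : ℕ) : Set (Fin d → ℝ) := Set.Icc (fun _ => -π) (fun _ => π)

/-- Real angles `t 0, ..., t (d-1)` completed by the last angle `ϑ - Σ t`. -/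
def full {d : ℕ} (ϑ : ℝ) (t : Fin d → ℝ) : Fin (d + 1) → ℝ :=
  Fin.snoc (α := fun _ => ℝ) t (ϑ - ∑ i, t i)

/-- Real vector as complex vector. -/
def cv {j : ℕ} (t : Fin j → ℝ) : Fin j → ℂ := fun i => (t i : ℂ)

/-- The sign `exp (iϑ)` (used with `ϑ = 0` or `ϑ = π`). -/
def tau (ϑ : ℝ) : ℂ := Complex.exp (I * ϑ)

/-- The `(d+1)`-particle contribution to the susceptibility (normalised without the prefactor),
twisted by `ϑ` (`ϑ = 0` is the susceptibility itself). -/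
def chi (d : ℕ) (ϑ : ℝ) (c : ℂ) : ℂ :=
  (1 / ((d + 1).factorial : ℂ)) * (1 / (2 * π)) ^ d *
    ∫ t in box d, ker W c (cv (full ϑ t)) *
      ((1 + tau ϑ * prodw W c (cv (full ϑ t))) / (1 - tau ϑ * prodw W c (cv (full ϑ t))))

/-- The `j`-particle contribution to the two point function at the site `(M,N)`. -/
def FF (j : ℕ) (M : ℤ) (N : ℕ) (c : ℂ) : ℂ :=
  (1 / (j.factorial : ℂ)) * (1 / (2 * π)) ^ j *
    ∫ t in box j, ker W c (cv t) * Complex.exp (I * M * ∑ i, (t i : ℂ)) * prodw W c (cv t) ^ N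

/-! ### The saddle contours for a real point `c0 ∈ (0,2)` -/

/-- The edge angle, `cos (fe c0) = c0 - 1`. -/
def fe (c0 : ℝ) : ℝ := Real.arccos (c0 - 1)

/-- The shape function of the contours. -/
def bet (c0 t : ℝ) : ℝ := Real.sin t / (1 - (c0 - 1) * Real.cos t)

/-- Its derivative. -/
def dbet (c0 t : ℝ) : ℝ := (Real.cos t - (c0 - 1)) / (1 - (c0 - 1) * Real.cos t) ^ 2

/-- The point of the contour with base point `a` and parameter `t`. -/
def lam (c0 κ a t : ℝ) : ℂ := t + I * (κ * (bet c0 t - bet c0 a) : ℝ)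

/-- The dual angle, `cos (del c0 a) = c0 - cos a`. -/
def del (c0 a : ℝ) : ℝ := Real.arccos (c0 - Real.cos a)

/-- The group velocity at `a`. -/
def vel (c0 a : ℝ) : ℝ := -Real.sin a / Real.sin (del c0 a)

/-- squared chord distance on the circle -/
def ch (t a : ℝ) : ℝ := ‖Complex.exp (I * t) - Complex.exp (I * a)‖ ^ 2

/-- All properties of the contours which are used later. -/
structure KeyPkg (c0 r κ μ C ρ : ℝ) (K : Set ℂ) : Prop where
  κ_pos : 0 < κ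
  κ_le : κ ≤ 1
  small : ∀ t a : ℝ, |κ * (bet c0 t - bet c0 a)| ≤ 1
  μ_pos : 0 < μ
  C_pos : 0 < C
  ρ_pos : 0 < ρ
  ρ_le : ρ ≤ 1
  K_compact : IsCompact K
  K_sub : K ⊆ ZZ
  mem : ∀ a ∈ Icc (-(fe c0 - r)) (fe c0 - r), ∀ t : ℝ, ∀ c : ℂ, ‖c - c0‖ ≤ 2 * ρ →
    c - Complex.cos (lam c0 κ a t) ∈ K
  ineq : ∀ a ∈ Icc (-(fe c0 - r)) (fe c0 - r), ∀ t : ℝ, ∀ ε ∈ Icc (0 : ℝ) ρ, ∀ ζ : ℂ, ‖ζ‖ ≤ ρ →
    -(vel c0 a) * (κ * (bet c0 t - bet c0 a)) +
        Real.log ‖om (c0 + ε * I + ζ - Complex.cos (lam c0 κ a t))‖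
      ≤ -μ * (ch t a + ε) + C * ‖ζ‖
  path : ∀ a ∈ Icc (-(fe c0 - r)) (fe c0 - r), ∀ t : ℝ, ∀ s ∈ Icc (0 : ℝ) 1, ∀ c : ℂ,
    0 < c.im → ‖c - c0‖ ≤ 2 * ρ → c - Complex.cos (lam c0 (s * κ) a t) ∈ ZZ

/-- The two point function term, on the product contour with base point `a`. -/
def FD (j : ℕ) (c0 κ a : ℝ) (M : ℤ) (N : ℕ) (c : ℂ) : ℂ :=
  (1 / (j.factorial : ℂ)) * (1 / (2 * π)) ^ j *
    ∫ t in box j, (∏ i, (1 + I * (κ * dbet c0 (t i) : ℝ))) *
      (ker om c (fun i => lam c0 κ a (t i)) *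
        Complex.exp (I * M * ∑ i, lam c0 κ a (t i)) *
        prodw om c (fun i => lam c0 κ a (t i)) ^ N)

/-- The mean of the shape function. -/
def avg (c0 : ℝ) {j : ℕ} (t : Fin j → ℝ) : ℝ := (∑ i, bet c0 (t i)) / j

/-- The deformed torus. -/
def tor {d : ℕ} (c0 κ ϑ : ℝ) (t : Fin d → ℝ) : Fin (d + 1) → ℂ := fun m =>
  (full ϑ t m : ℂ) + I * (κ * (bet c0 (full ϑ t m) - avg c0 (full ϑ t)) : ℝ)

/-- The Jacobian determinant of the deformed torus. -/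
def jac {d : ℕ} (c0 κ ϑ : ℝ) (t : Fin d → ℝ) : ℂ :=
  Matrix.det (Matrix.of fun m k : Fin d =>
    (if m = k then (1 : ℂ) + I * (κ * dbet c0 (t m) : ℝ) else 0) -
      I * (κ * ((dbet c0 (t k) - dbet c0 (full ϑ t (Fin.last d))) / (d + 1)) : ℝ))

/-- The integrand on the deformed torus. -/
def XI (d : ℕ) (c0 κ ϑ : ℝ) (c : ℂ) (t : Fin d → ℝ) : ℂ :=
  jac c0 κ ϑ t * (ker om c (tor c0 κ ϑ t) *
      ((1 + tau ϑ * prodw om c (tor c0 κ ϑ t)) / (1 - tau ϑ * prodw om c (tor c0 κ ϑ t))))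

/-- The `(d+1)`-particle contribution, on the deformed torus. -/
def chiD (d : ℕ) (c0 κ ϑ : ℝ) (c : ℂ) : ℂ :=
  (1 / ((d + 1).factorial : ℂ)) * (1 / (2 * π)) ^ d * ∫ t in box d, XI d c0 κ ϑ c t

/-- Squared Vandermonde of chords. -/
def V2c {j : ℕ} (T : Fin j → ℝ) : ℝ := ∏ i, ∏ k ∈ Finset.Ioi i, ch (T i) (T k)

/-- Squared distance of the angles `full ϑ t` to the two coincidence points `±δ0`. -/
def DD {d : ℕ} (ϑ δ0 : ℝ) (t : Fin d → ℝ) : ℝ :=
  min (∑ i, ch (full ϑ t i) δ0) (∑ i, ch (full ϑ t i) (-δ0))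

/-- Squared Vandermonde of `y 0, ..., y (d-1), -Σ y`. -/
def V2 {d : ℕ} (y : Fin d → ℝ) : ℝ :=
  ∏ i, ∏ k ∈ Finset.Ioi i, (full 0 y i - full 0 y k) ^ 2

/-- Sum of the squares of `y 0, ..., y (d-1), -Σ y`. -/
def QQ {d : ℕ} (y : Fin d → ℝ) : ℝ := ∑ i, (full 0 y i) ^ 2

/-- The bound for the `j`-particle terms. -/
def bd (A : ℝ) (j : ℕ) : ℝ := A ^ j * Real.sqrt ((j : ℝ) ^ j) / (j.factorial : ℝ)

/-- Sum of the terms with an odd number of particles (high temperature phase). -/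
def Sodd (ϑ : ℝ) (c : ℂ) : ℂ := ∑' k : ℕ, chi (2 * k) ϑ c

/-- Sum of the terms with an even number `≥ 2` of particles (low temperature phase). -/
def Seven (ϑ : ℝ) (c : ℂ) : ℂ := ∑' k : ℕ, chi (2 * k + 1) ϑ c

/-- Nonresonance of order `j`: no two angles `φ, δ` with `jφ ≡ jδ ≡ ϑ (mod 2π)` and
`cos φ + cos δ = c0`, and the edge angle is not resonant. -/
def NonRes (j : ℕ) (ϑ c0 : ℝ) : Prop :=
  (∀ φ δ : ℝ, Complex.exp (I * (j * φ)) = tau ϑ → Complex.exp (I * (j * δ)) = tau ϑ →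
    Real.cos φ + Real.cos δ ≠ c0) ∧ Complex.exp (I * (j * fe c0)) ≠ tau ϑ

/-- Diagonal resonance of order `j` at `c0 = 2 cos δ0`: `jδ0 ≡ ϑ`, and every resonant pair of angles
is diagonal; the edge angle is not resonant. -/
def DiagRes (j : ℕ) (ϑ c0 δ0 : ℝ) : Prop :=
  0 < δ0 ∧ δ0 < π / 2 ∧ c0 = 2 * Real.cos δ0 ∧ Complex.exp (I * (j * δ0)) = tau ϑ ∧
  (∀ φ δ : ℝ, Complex.exp (I * (j * φ)) = tau ϑ → Complex.exp (I * (j * δ)) = tau ϑ →
    Real.cos φ + Real.cos δ = c0 → Real.cos φ = Real.cos δ0 ∧ Real.cos δ = Real.cos δ0) ∧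
  Complex.exp (I * (j * fe c0)) ≠ tau ϑ

end

end IsingNB
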