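import Mathlib
import Pool.Agent.Helper98.NB.Defs

/-!
# Nonvanishing of the model integral (NB-23)

`Y(l) = ∫ V2 y / (l + B QQ y)^k` is analytic on the right half plane and homogeneous under positive
scalings, so if it vanished at a positive real number it would vanish on the positive real axis,
hence on the half plane, hence at `B`.
-/

namespace IsingNB

open Complex Set MeasureTheory
open scoped Real

noncomputable section

namespace Model

theorem full_zero_smul {d : ℕ} (r : ℝ) (y : Fin d → ℝ) (i : Fin (d + 1)) :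
    full 0 (r • y) i = r * full 0 y i := by
  refine Fin.lastCases ?_ (fun j => ?_) i
  · simp only [full, Fin.snoc_last, Pi.smul_apply, smul_eq_mul, ← Finset.mul_sum]
    ring
  · simp only [full, Fin.snoc_castSucc, Pi.smul_apply, smul_eq_mul]

theorem continuous_full_zero {d : ℕ} (i : Fin (d + 1)) :
    Continuous (fun y : Fin d → ℝ => full 0 y i) := by
  refine Fin.lastCases ?_ (fun j => ?_) i
  · simp only [full, Fin.snoc_last]
    fun_prop
  · simp only [full, Fin.snoc_castSucc]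
    fun_prop

theorem continuous_V2 {d : ℕ} : Continuous (fun y : Fin d → ℝ => V2 y) := by
  unfold V2
  refine continuous_finsetProd _ fun i _ => continuous_finsetProd _ fun k _ => ?_
  exact ((continuous_full_zero i).sub (continuous_full_zero k)).pow 2

theorem continuous_QQ {d : ℕ} : Continuous (fun y : Fin d → ℝ => QQ y) := by
  unfold QQ
  exact continuous_finsetSum _ fun i _ => (continuous_full_zero i).pow 2

theorem V2_nonneg {d : ℕ} (y : Fin d → ℝ) : 0 ≤ V2 y :=
  Finset.prod_nonneg fun _ _ => Finset.prod_nonneg fun _ _ => sq_nonneg _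

theorem QQ_nonneg {d : ℕ} (y : Fin d → ℝ) : 0 ≤ QQ y :=
  Finset.sum_nonneg fun _ _ => sq_nonneg _

theorem V2_smul {d : ℕ} (r : ℝ) (y : Fin d → ℝ) :
    V2 (r • y) = (∏ i : Fin (d + 1), ∏ _k ∈ Finset.Ioi i, r ^ 2) * V2 y := by
  unfold V2
  rw [← Finset.prod_mul_distrib]
  refine Finset.prod_congr rfl fun i _ => ?_
  rw [← Finset.prod_mul_distrib]
  refine Finset.prod_congr rfl fun k _ => ?_
  rw [full_zero_smul, full_zero_smul]
  ring

theorem QQ_smul {d : ℕ} (r : ℝ) (y : Fin d → ℝ) : QQ (r • y) = r ^ 2 * QQ y := by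
  unfold QQ
  rw [Finset.mul_sum]
  refine Finset.sum_congr rfl fun i _ => ?_
  rw [full_zero_smul]
  ring

theorem sq_full_le_QQ {d : ℕ} (y : Fin d → ℝ) (i : Fin (d + 1)) : (full 0 y i) ^ 2 ≤ QQ y :=
  Finset.single_le_sum (f := fun i => (full 0 y i) ^ 2) (fun _ _ => sq_nonneg _)
    (Finset.mem_univ i)

theorem norm_sq_le_QQ {d : ℕ} (y : Fin d → ℝ) : ‖y‖ ^ 2 ≤ QQ y := by
  have h : ‖y‖ ≤ Real.sqrt (QQ y) := by
    rw [pi_norm_le_iff_of_nonneg (Real.sqrt_nonneg _)]
    intro i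
    refine Real.le_sqrt_of_sq_le ?_
    have h1 := sq_full_le_QQ y i.castSucc
    simp only [full, Fin.snoc_castSucc] at h1
    rw [Real.norm_eq_abs, sq_abs]
    exact h1
  calc ‖y‖ ^ 2 ≤ Real.sqrt (QQ y) ^ 2 := by gcongr
    _ = QQ y := Real.sq_sqrt (QQ_nonneg y)

/-- The number of pairs. -/
def npairs (d : ℕ) : ℕ := ∑ i : Fin (d + 1), (Finset.Ioi i).card

theorem two_npairs (d : ℕ) : 2 * npairs d = d * (d + 1) := by
  unfold npairs
  have h1 : ∀ i : Fin (d + 1), (Finset.Ioi i).card = d - (i : ℕ) := by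
    intro i
    rw [Fin.card_Ioi]
    omega
  simp only [h1]
  rw [Fin.sum_univ_eq_sum_range (fun i => d - i) (d + 1)]
  have h2 := Finset.sum_range_reflect (fun i => i) (d + 1)
  simp only [Nat.add_sub_cancel] at h2
  have h3 := Finset.sum_range_id_mul_two (d + 1)
  simp only [Nat.add_sub_cancel] at h3
  rw [show (∑ i ∈ Finset.range (d + 1), (d - i)) = ∑ i ∈ Finset.range (d + 1), i from h2]
  rw [mul_comm, h3, mul_comm]

theorem V2_le {d : ℕ} (y : Fin d → ℝ) : V2 y ≤ (4 * QQ y) ^ npairs d := by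
  unfold V2 npairs
  rw [← Finset.prod_pow_eq_pow_sum]
  refine Finset.prod_le_prod (fun _ _ => Finset.prod_nonneg fun _ _ => sq_nonneg _) fun i _ => ?_
  rw [← Finset.prod_const]
  refine Finset.prod_le_prod (fun _ _ => sq_nonneg _) fun k _ => ?_
  have h1 := sq_full_le_QQ y i
  have h2 := sq_full_le_QQ y k
  nlinarith [sq_nonneg (full 0 y i + full 0 y k)]

theorem integrable_model {d k : ℕ} (hk : (d + 1) ^ 2 < 2 * k + 1) :
    Integrable (fun y : Fin d → ℝ => V2 y / (1 + QQ y) ^ k) := by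
  have hP := two_npairs d
  have hkP : npairs d ≤ k := by nlinarith
  obtain ⟨m, rfl⟩ := Nat.exists_eq_add_of_le hkP
  have hm : d < 2 * m := by nlinarith
  have hint : Integrable (fun y : Fin d → ℝ => 4 ^ npairs d * (1 + ‖y‖ ^ 2) ^ (-((2 * m : ℕ) : ℝ) / 2)) := by
    refine Integrable.const_mul ?_ _
    refine integrable_rpow_neg_one_add_norm_sq ?_
    rw [Module.finrank_fin_fun]
    exact_mod_cast hm
  refine hint.mono' ?_ (Filter.Eventually.of_forall fun y => ?_)
  · refine Continuous.aestronglyMeasurable ?_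
    refine continuous_V2.div ((continuous_const.add continuous_QQ).pow _) fun y => ?_
    have := QQ_nonneg y
    positivity
  · have hQ := QQ_nonneg y
    have hV := V2_nonneg y
    have hn := norm_sq_le_QQ y
    rw [Real.norm_eq_abs, abs_of_nonneg (by positivity)]
    have h1 : (1 + ‖y‖ ^ 2) ^ (-((2 * m : ℕ) : ℝ) / 2) = ((1 + ‖y‖ ^ 2) ^ m)⁻¹ := by
      rw [show -((2 * m : ℕ) : ℝ) / 2 = -(m : ℝ) by push_cast; ring,
        Real.rpow_neg (by positivity), Real.rpow_natCast]
    rw [h1, div_le_iff₀ (by positivity)]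
    have h2 : V2 y ≤ 4 ^ npairs d * (1 + QQ y) ^ npairs d := by
      refine (V2_le y).trans ?_
      rw [← mul_pow]
      gcongr
      linarith
    have h3 : 1 ≤ ((1 + ‖y‖ ^ 2) ^ m)⁻¹ * (1 + QQ y) ^ m := by
      rw [← div_eq_inv_mul, le_div_iff₀ (by positivity), one_mul]
      gcongr
    calc V2 y ≤ 4 ^ npairs d * (1 + QQ y) ^ npairs d := h2
      _ = (4 ^ npairs d * (1 + QQ y) ^ npairs d) * 1 := by ring
      _ ≤ (4 ^ npairs d * (1 + QQ y) ^ npairs d) *
          (((1 + ‖y‖ ^ 2) ^ m)⁻¹ * (1 + QQ y) ^ m) := by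
        gcongr
      _ = 4 ^ npairs d * ((1 + ‖y‖ ^ 2) ^ m)⁻¹ * (1 + QQ y) ^ (npairs d + m) := by
        rw [pow_add]; ring

theorem integral_model_pos {d k : ℕ} (hk : (d + 1) ^ 2 < 2 * k + 1) :
    0 < ∫ y : Fin d → ℝ, V2 y / (1 + QQ y) ^ k := by
  rw [integral_pos_iff_support_of_nonneg _ (integrable_model hk)]
  · have hopen : IsOpen (Function.support (fun y : Fin d → ℝ => V2 y / (1 + QQ y) ^ k)) := by
      refine Continuous.isOpen_support ?_
      refine continuous_V2.div ((continuous_const.add continuous_QQ).pow _) fun y => ?_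
      have := QQ_nonneg y
      positivity
    refine hopen.measure_pos volume ?_
    refine ⟨fun i => (i : ℝ) + 1, ?_⟩
    rw [Function.mem_support]
    have hQ := QQ_nonneg (fun i : Fin d => (i : ℝ) + 1)
    refine div_ne_zero ?_ (by positivity)
    unfold V2
    rw [Finset.prod_ne_zero_iff]
    intro i _
    rw [Finset.prod_ne_zero_iff]
    intro k hk'
    have hik : i < k := Finset.mem_Ioi.1 hk'
    refine pow_ne_zero 2 (sub_ne_zero.2 ?_)
    -- the values are pairwise different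
    obtain ⟨i', rfl⟩ : ∃ i' : Fin d, i = i'.castSucc := by
      refine ⟨i.castPred (fun h => ?_), by simp⟩
      rw [h] at hik
      exact absurd hik (not_lt.2 (Fin.le_last k))
    have e1 : full 0 (fun i : Fin d => (i : ℝ) + 1) i'.castSucc = (i' : ℝ) + 1 := by
      simp [full]
    rw [e1]
    rcases Fin.eq_castSucc_or_eq_last k with ⟨k', rfl⟩ | rfl
    · have e2 : full 0 (fun i : Fin d => (i : ℝ) + 1) k'.castSucc = (k' : ℝ) + 1 := by
        simp [full]
      rw [e2]
      have h1 : (i' : ℕ) < (k' : ℕ) := by simpa using hik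
      have h2 : ((i' : ℕ) : ℝ) < ((k' : ℕ) : ℝ) := by exact_mod_cast h1
      intro h3
      linarith
    · have e2 : full 0 (fun i : Fin d => (i : ℝ) + 1) (Fin.last d) =
          0 - ∑ i : Fin d, ((i : ℝ) + 1) := by
        simp only [full, Fin.snoc_last]
      rw [e2]
      have h1 : 0 ≤ ∑ i : Fin d, ((i : ℝ) + 1) := Finset.sum_nonneg fun i _ => by positivity
      have h2 : (0 : ℝ) ≤ ((i' : ℕ) : ℝ) := by positivity
      intro h3
      linarith
  · intro y
    have := QQ_nonneg y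
    have := V2_nonneg y
    simp only [Pi.zero_apply]
    positivity

/-- Lower bound for the denominator. -/
theorem model_low {l B : ℂ} {δ Q : ℝ} (hδ : δ ≤ l.re) (hδB : δ ≤ B.re) (hQ : 0 ≤ Q) :
    δ * (1 + Q) ≤ ‖l + B * Q‖ := by
  have h1 : (l + B * Q).re = l.re + B.re * Q := by simp
  have h2 : (l + B * Q).re ≤ ‖l + B * Q‖ := Complex.re_le_norm _
  rw [h1] at h2
  nlinarith

/-- The model function. -/
def YY (d k : ℕ) (B l : ℂ) : ℂ := ∫ y : Fin d → ℝ, (V2 y : ℂ) / (l + B * QQ y) ^ k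

theorem model_ne {l B : ℂ} (hl : 0 < l.re) (hB : 0 < B.re) {Q : ℝ} (hQ : 0 ≤ Q) :
    l + B * Q ≠ 0 := by
  intro h
  have h1 : (l + B * Q).re = l.re + B.re * Q := by simp
  rw [h] at h1
  simp only [zero_re] at h1
  nlinarith [mul_nonneg hB.le hQ]

theorem continuous_model {d : ℕ} {l B : ℂ} (hl : 0 < l.re) (hB : 0 < B.re) (k : ℕ) :
    Continuous (fun y : Fin d → ℝ => (V2 y : ℂ) / (l + B * QQ y) ^ k) := by
  refine Continuous.div (Complex.continuous_ofReal.comp continuous_V2) ?_ fun y => ?_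
  · exact (continuous_const.add (continuous_const.mul
      (Complex.continuous_ofReal.comp continuous_QQ))).pow _
  · exact pow_ne_zero _ (model_ne hl hB (QQ_nonneg y))

theorem norm_model_le {d : ℕ} {l B : ℂ} {δ : ℝ} (hδ0 : 0 < δ) (hδ : δ ≤ l.re) (hδB : δ ≤ B.re)
    (k : ℕ) (y : Fin d → ℝ) :
    ‖(V2 y : ℂ) / (l + B * QQ y) ^ k‖ ≤ (δ ^ k)⁻¹ * (V2 y / (1 + QQ y) ^ k) := by
  have hQ := QQ_nonneg y
  have hV := V2_nonneg y
  have h1 := model_low hδ hδB hQ
  rw [norm_div, norm_pow, Complex.norm_real, Real.norm_eq_abs, abs_of_nonneg hV]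
  have h2 : (δ * (1 + QQ y)) ^ k ≤ ‖l + B * QQ y‖ ^ k := by gcongr
  calc V2 y / ‖l + B * QQ y‖ ^ k ≤ V2 y / (δ * (1 + QQ y)) ^ k := by gcongr
    _ = (δ ^ k)⁻¹ * (V2 y / (1 + QQ y) ^ k) := by
      rw [mul_pow]
      field_simp

theorem integrable_model_complex {d k : ℕ} (hk : (d + 1) ^ 2 < 2 * k + 1) {l B : ℂ}
    (hl : 0 < l.re) (hB : 0 < B.re) :
    Integrable (fun y : Fin d → ℝ => (V2 y : ℂ) / (l + B * QQ y) ^ k) := by
  have hδ : 0 < min l.re B.re := lt_min hl hB
  refine ((integrable_model hk).const_mul (((min l.re B.re) ^ k)⁻¹)).mono'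
    (continuous_model hl hB k).aestronglyMeasurable (Filter.Eventually.of_forall fun y => ?_)
  exact norm_model_le hδ (min_le_left _ _) (min_le_right _ _) k y

theorem differentiableAt_YY {d k : ℕ} (hk : (d + 1) ^ 2 < 2 * k + 1) {l B : ℂ}
    (hl : 0 < l.re) (hB : 0 < B.re) : DifferentiableAt ℂ (YY d k B) l := by
  set δ : ℝ := min (l.re / 2) B.re with hδdef
  have hδ : 0 < δ := lt_min (by linarith) hB
  have hs : {z : ℂ | l.re / 2 < z.re} ∈ nhds l :=
    (isOpen_lt continuous_const Complex.continuous_re).mem_nhds (by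
      simp only [mem_ofPred_eq]; linarith)
  have hk1 : (d + 1) ^ 2 < 2 * (k + 1) + 1 := by omega
  have h := hasDerivAt_integral_of_dominated_loc_of_deriv_le (𝕜 := ℂ) (μ := (volume : Measure (Fin d → ℝ)))
    (F := fun z y => (V2 y : ℂ) / (z + B * QQ y) ^ k)
    (F' := fun z y => -(k : ℂ) * ((V2 y : ℂ) / (z + B * QQ y) ^ (k + 1)))
    (x₀ := l) (s := {z : ℂ | l.re / 2 < z.re})
    (bound := fun y => (k : ℝ) * ((δ ^ (k + 1))⁻¹ * (V2 y / (1 + QQ y) ^ (k + 1)))) hs ?_ ?_ ?_ ?_ ?_ ?_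
  · exact h.2.differentiableAt
  · refine Filter.eventually_of_mem hs fun z hz => ?_
    simp only [mem_ofPred_eq] at hz
    exact (continuous_model (by linarith) hB k).aestronglyMeasurable
  · exact integrable_model_complex hk hl hB
  · exact ((continuous_model hl hB (k + 1)).const_mul _).aestronglyMeasurable
  · refine Filter.Eventually.of_forall fun y z hz => ?_
    simp only [mem_ofPred_eq] at hz
    rw [norm_mul, norm_neg, Complex.norm_natCast]
    refine mul_le_mul_of_nonneg_left ?_ (Nat.cast_nonneg k)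
    exact norm_model_le hδ ((min_le_left _ _).trans hz.le) (min_le_right _ _) (k + 1) y
  · exact ((integrable_model hk1).const_mul _).const_mul _
  · refine Filter.Eventually.of_forall fun y z hz => ?_
    simp only [mem_ofPred_eq] at hz
    have hne : z + B * QQ y ≠ 0 := model_ne (by linarith) hB (QQ_nonneg y)
    have h1 : HasDerivAt (fun z : ℂ => z + B * QQ y) 1 z := (hasDerivAt_id z).add_const _
    have h2 : HasDerivAt (fun z : ℂ => (V2 y : ℂ) * ((z + B * QQ y) ^ k)⁻¹)
        ((V2 y : ℂ) * (-((k : ℂ) * (z + B * QQ y) ^ (k - 1) * 1) / ((z + B * QQ y) ^ k) ^ 2)) z :=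
      ((h1.pow k).inv (pow_ne_zero k hne)).const_mul (V2 y : ℂ)
    have h3 : (V2 y : ℂ) * (-((k : ℂ) * (z + B * QQ y) ^ (k - 1) * 1) / ((z + B * QQ y) ^ k) ^ 2) =
        -(k : ℂ) * ((V2 y : ℂ) / (z + B * QQ y) ^ (k + 1)) := by
      rcases Nat.eq_zero_or_pos k with hk0 | hk0
      · subst hk0; simp
      · obtain ⟨m, rfl⟩ : ∃ m, k = m + 1 := ⟨k - 1, by omega⟩
        simp only [Nat.add_sub_cancel]
        field_simp
        ring
    rw [h3] at h2
    simpa only [div_eq_mul_inv] using h2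

theorem YY_scale {d k : ℕ} {A : ℝ} (hA : 0 < A) {B : ℂ} (h0 : YY d k B A = 0) {s : ℝ}
    (hs : 0 < s) : YY d k B s = 0 := by
  set r : ℝ := Real.sqrt (s / A) with hr
  have hr0 : 0 < r := Real.sqrt_pos.2 (by positivity)
  have hr2 : r ^ 2 = s / A := Real.sq_sqrt (by positivity)
  have hsA : (s : ℂ) = (r : ℂ) ^ 2 * A := by
    have : s = r ^ 2 * A := by rw [hr2]; field_simp
    rw [this]; push_cast; ring
  have h1 := Measure.integral_comp_smul (volume : Measure (Fin d → ℝ))
    (fun y : Fin d → ℝ => (V2 y : ℂ) / (s + B * QQ y) ^ k) r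
  have h2 : ∀ y : Fin d → ℝ, (V2 (r • y) : ℂ) / (s + B * QQ (r • y)) ^ k =
      (((∏ i : Fin (d + 1), ∏ _k ∈ Finset.Ioi i, r ^ 2 : ℝ) : ℂ) / ((r : ℂ) ^ 2) ^ k) *
        ((V2 y : ℂ) / (A + B * QQ y) ^ k) := by
    intro y
    rw [V2_smul, QQ_smul, hsA]
    have h3 : (r : ℂ) ^ 2 * A + B * ((r ^ 2 * QQ y : ℝ) : ℂ) = (r : ℂ) ^ 2 * (A + B * QQ y) := by
      push_cast; ring
    rw [h3, mul_pow, Complex.ofReal_mul, mul_div_mul_comm]
  simp only [h2] at h1
  rw [integral_const_mul] at h1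
  unfold YY at h0 ⊢
  rw [h0, mul_zero] at h1
  have h4 : |(r ^ Module.finrank ℝ (Fin d → ℝ))⁻¹| ≠ 0 := by positivity
  exact (smul_eq_zero.1 h1.symm).resolve_left h4

end Model

open Model in
theorem model_ne_zero {d k : ℕ} (hd : 1 ≤ d) (hk : (d + 1) ^ 2 < 2 * k + 1) {A : ℝ} (hA : 0 < A)
    {B : ℂ} (hB : 0 < B.re) :
    Integrable (fun y : Fin d → ℝ => V2 y / (1 + QQ y) ^ k) ∧
      ∫ y : Fin d → ℝ, (V2 y : ℂ) / (A + B * QQ y) ^ k ≠ 0 := by
  refine ⟨integrable_model hk, fun h0 => ?_⟩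
  have h0' : YY d k B A = 0 := h0
  set U : Set ℂ := {z : ℂ | 0 < z.re} with hU
  have hUo : IsOpen U := isOpen_lt continuous_const Complex.continuous_re
  have hUc : IsPreconnected U := (convex_halfSpace_re_gt 0).isPreconnected
  have hdiff : DifferentiableOn ℂ (YY d k B) U := fun z hz =>
    (differentiableAt_YY hk hz hB).differentiableWithinAt
  have han : AnalyticOnNhd ℂ (YY d k B) U := hdiff.analyticOnNhd hUo
  have h1U : (1 : ℂ) ∈ U := by simp [hU]
  have hfreq : ∃ᶠ z in nhdsWithin (1 : ℂ) {1}ᶜ, YY d k B z = 0 := by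
    have hseq : Filter.Tendsto (fun n : ℕ => ((1 + 1 / ((n : ℝ) + 1) : ℝ) : ℂ)) Filter.atTop
        (nhdsWithin (1 : ℂ) {1}ᶜ) := by
      refine tendsto_nhdsWithin_iff.2 ⟨?_, Filter.Eventually.of_forall fun n => ?_⟩
      · have h2 : Filter.Tendsto (fun n : ℕ => (1 + 1 / ((n : ℝ) + 1) : ℝ)) Filter.atTop
            (nhds (1 + 0)) :=
          tendsto_const_nhds.add tendsto_one_div_add_atTop_nhds_zero_nat
        rw [add_zero] at h2
        have h3 : Filter.Tendsto (fun n : ℕ => ((1 + 1 / ((n : ℝ) + 1) : ℝ) : ℂ)) Filter.atTop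
            (nhds ((1 : ℝ) : ℂ)) := (Complex.continuous_ofReal.tendsto (1 : ℝ)).comp h2
        rw [Complex.ofReal_one] at h3
        exact h3
      · simp only [mem_compl_iff, mem_singleton_iff]
        intro h4
        have h5 : (1 + 1 / ((n : ℝ) + 1) : ℝ) = 1 := by exact_mod_cast h4
        have h6 : (0 : ℝ) < 1 / ((n : ℝ) + 1) := by positivity
        linarith
    refine hseq.frequently (Filter.Eventually.frequently (Filter.Eventually.of_forall fun n => ?_))
    exact YY_scale hA h0' (by positivity)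
  have hzero := han.eqOn_zero_of_preconnected_of_frequently_eq_zero hUc h1U hfreq
  have hB0 : YY d k B B = 0 := hzero hB
  have hpos := integral_model_pos (d := d) hk
  have hBne : B ≠ 0 := fun h => by rw [h] at hB; simp at hB
  have h7 : YY d k B B = (B ^ k)⁻¹ * ((∫ y : Fin d → ℝ, V2 y / (1 + QQ y) ^ k : ℝ) : ℂ) := by
    unfold YY
    rw [← integral_complex_ofReal, ← integral_const_mul]
    refine integral_congr_ae (Filter.Eventually.of_forall fun y => ?_)
    have h8 : B + B * (QQ y : ℂ) = B * (1 + QQ y) := by ring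
    have h9 : (1 + (QQ y : ℂ)) ≠ 0 := by
      have h10 : (1 + QQ y : ℝ) ≠ 0 := by have := QQ_nonneg y; positivity
      exact_mod_cast h10
    simp only
    rw [h8, mul_pow]
    push_cast
    field_simp
  rw [h7] at hB0
  rcases mul_eq_zero.1 hB0 with h | h
  · exact pow_ne_zero k hBne (inv_eq_zero.1 h)
  · exact hpos.ne' (by exact_mod_cast h)

end

end IsingNB
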