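import Pool.Agent.Helper98.NB.Balance
import Pool.Agent.Helper98.NB.OmBasic

/-!
# NB-20: bound for the derivatives of the integrand on the deformed torus (helper67)
-/

namespace IsingNB

open Complex Set MeasureTheory Filter Topology
open scoped Real

noncomputable section

namespace XIB

lemma ch_eq (t a : ℝ) : ch t a = 2 - 2 * Real.cos (t - a) := by
  unfold ch
  rw [← Complex.normSq_eq_norm_sq, Complex.normSq_apply, mul_comm I, mul_comm I]
  simp only [Complex.sub_re, Complex.sub_im, Complex.exp_ofReal_mul_I_re,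
    Complex.exp_ofReal_mul_I_im, Real.cos_sub]
  have h1 := Real.sin_sq_add_cos_sq t
  have h2 := Real.sin_sq_add_cos_sq a
  nlinarith [h1, h2]

lemma ch_nonneg (t a : ℝ) : 0 ≤ ch t a := by unfold ch; positivity

lemma ch_le_four (t a : ℝ) : ch t a ≤ 4 := by
  rw [ch_eq]; have := Real.neg_one_le_cos (t - a); linarith

lemma ch_upper (u : ℝ) : 2 - 2 * Real.cos u ≤ u ^ 2 := by
  have := Real.one_sub_sq_div_two_le_cos (x := u); linarith

lemma ch_lower {u : ℝ} (hu : |u| ≤ π) : 4 / π ^ 2 * u ^ 2 ≤ 2 - 2 * Real.cos u := by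
  have := Real.cos_le_one_sub_mul_cos_sq hu
  have e : 4 / π ^ 2 * u ^ 2 = 2 * (2 / π ^ 2 * u ^ 2) := by ring
  rw [e]; linarith

lemma abs_sin_sub_le (t s : ℝ) : |Real.sin (t - s)| ≤ Real.sqrt (ch t s) := by
  apply Real.le_sqrt_of_sq_le
  rw [sq_abs, ch_eq]
  have h1 := Real.sin_sq_add_cos_sq (t - s)
  have h2 := Real.cos_le_one (t - s)
  nlinarith [h1, h2]

lemma abs_sin_sub_sin_le (t s : ℝ) : |Real.sin t - Real.sin s| ≤ Real.sqrt (ch t s) := by
  apply Real.le_sqrt_of_sq_le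
  rw [sq_abs, ch_eq, Real.cos_sub]
  have h1 := Real.sin_sq_add_cos_sq t
  have h2 := Real.sin_sq_add_cos_sq s
  nlinarith [h1, h2, sq_nonneg (Real.cos t - Real.cos s)]

lemma den_ge {c0 : ℝ} (t : ℝ) : 1 - |c0 - 1| ≤ 1 - (c0 - 1) * Real.cos t := by
  have h : (c0 - 1) * Real.cos t ≤ |c0 - 1| := by
    calc (c0 - 1) * Real.cos t ≤ |(c0 - 1) * Real.cos t| := le_abs_self _
      _ = |c0 - 1| * |Real.cos t| := abs_mul _ _
      _ ≤ |c0 - 1| * 1 := mul_le_mul_of_nonneg_left (Real.abs_cos_le_one t) (abs_nonneg _)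
      _ = |c0 - 1| := mul_one _
  linarith

lemma abs_lt_one {c0 : ℝ} (h0 : 0 < c0) (h2 : c0 < 2) : |c0 - 1| < 1 := by
  rw [abs_lt]; constructor <;> linarith

lemma den_pos {c0 : ℝ} (h0 : 0 < c0) (h2 : c0 < 2) (t : ℝ) : 0 < 1 - (c0 - 1) * Real.cos t := by
  have := den_ge (c0 := c0) t
  have := abs_lt_one h0 h2
  linarith

lemma continuous_bet {c0 : ℝ} (h0 : 0 < c0) (h2 : c0 < 2) : Continuous (bet c0) := by
  unfold bet
  exact Real.continuous_sin.div (by fun_prop) (fun t => (den_pos h0 h2 t).ne')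

lemma continuous_dbet {c0 : ℝ} (h0 : 0 < c0) (h2 : c0 < 2) : Continuous (dbet c0) := by
  unfold dbet
  exact Continuous.div (by fun_prop) (by fun_prop) (fun t => (pow_pos (den_pos h0 h2 t) 2).ne')

/-- Lipschitz bound for the shape function in terms of chords. -/
lemma bet_lip {c0 : ℝ} (h0 : 0 < c0) (h2 : c0 < 2) (t s : ℝ) :
    |bet c0 t - bet c0 s| ≤ 2 / (1 - |c0 - 1|) ^ 2 * Real.sqrt (ch t s) := by
  have hb := abs_lt_one h0 h2
  have hm : 0 < 1 - |c0 - 1| := by linarith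
  have ht := den_pos h0 h2 t
  have hs := den_pos h0 h2 s
  have e : bet c0 t - bet c0 s = ((Real.sin t - Real.sin s) - (c0 - 1) * Real.sin (t - s)) /
      ((1 - (c0 - 1) * Real.cos t) * (1 - (c0 - 1) * Real.cos s)) := by
    unfold bet
    rw [div_sub_div _ _ ht.ne' hs.ne', Real.sin_sub]
    congr 1
    ring
  rw [e, abs_div, abs_of_pos (mul_pos ht hs)]
  have hden : (1 - |c0 - 1|) ^ 2 ≤ (1 - (c0 - 1) * Real.cos t) * (1 - (c0 - 1) * Real.cos s) := by
    rw [sq]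
    exact mul_le_mul (den_ge t) (den_ge s) hm.le ht.le
  have hnum : |(Real.sin t - Real.sin s) - (c0 - 1) * Real.sin (t - s)| ≤
      2 * Real.sqrt (ch t s) := by
    calc |(Real.sin t - Real.sin s) - (c0 - 1) * Real.sin (t - s)|
        ≤ |Real.sin t - Real.sin s| + |(c0 - 1) * Real.sin (t - s)| := abs_sub _ _
      _ ≤ Real.sqrt (ch t s) + 1 * Real.sqrt (ch t s) := by
          refine add_le_add (abs_sin_sub_sin_le t s) ?_
          rw [abs_mul]
          exact mul_le_mul hb.le (abs_sin_sub_le t s) (abs_nonneg _) zero_le_one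
      _ = 2 * Real.sqrt (ch t s) := by ring
  calc |(Real.sin t - Real.sin s) - (c0 - 1) * Real.sin (t - s)| /
        ((1 - (c0 - 1) * Real.cos t) * (1 - (c0 - 1) * Real.cos s))
      ≤ (2 * Real.sqrt (ch t s)) / (1 - |c0 - 1|) ^ 2 :=
        div_le_div₀ (by positivity) hnum (by positivity) hden
    _ = 2 / (1 - |c0 - 1|) ^ 2 * Real.sqrt (ch t s) := by ring

lemma full_castSucc {d : ℕ} (ϑ : ℝ) (t : Fin d → ℝ) (i : Fin d) :
    full ϑ t (Fin.castSucc i) = t i := by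
  unfold full; simp

lemma full_last {d : ℕ} (ϑ : ℝ) (t : Fin d → ℝ) :
    full ϑ t (Fin.last d) = ϑ - ∑ i, t i := by
  unfold full; simp

lemma sum_full {d : ℕ} (ϑ : ℝ) (t : Fin d → ℝ) : ∑ i, full ϑ t i = ϑ := by
  rw [Fin.sum_univ_castSucc]
  simp [full_castSucc, full_last]

lemma continuous_full {d : ℕ} (ϑ : ℝ) (m : Fin (d + 1)) :
    Continuous (fun t : Fin d → ℝ => full ϑ t m) := by
  refine Fin.lastCases ?_ (fun i => ?_) m
  · simp only [full_last]; fun_prop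
  · simp only [full_castSucc]; fun_prop

lemma continuous_avg {d : ℕ} {c0 : ℝ} (h0 : 0 < c0) (h2 : c0 < 2) (ϑ : ℝ) :
    Continuous (fun t : Fin d → ℝ => avg c0 (full ϑ t)) := by
  unfold avg
  refine Continuous.div_const ?_ _
  refine continuous_finsetSum _ (fun i _ => ?_)
  exact (continuous_bet h0 h2).comp (continuous_full ϑ i)

lemma continuous_tor {d : ℕ} {c0 : ℝ} (h0 : 0 < c0) (h2 : c0 < 2) (κ ϑ : ℝ) (m : Fin (d + 1)) :
    Continuous (fun t : Fin d → ℝ => tor c0 κ ϑ t m) := by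
  unfold tor
  have h1 := continuous_full (d := d) ϑ m
  have h3 := (continuous_bet h0 h2).comp h1
  have h4 := continuous_avg (d := d) h0 h2 ϑ
  refine (Complex.continuous_ofReal.comp h1).add (continuous_const.mul ?_)
  exact Complex.continuous_ofReal.comp (continuous_const.mul (h3.sub h4))

lemma continuous_jac {d : ℕ} {c0 : ℝ} (h0 : 0 < c0) (h2 : c0 < 2) (κ ϑ : ℝ) :
    Continuous (fun t : Fin d → ℝ => jac c0 κ ϑ t) := by
  unfold jac
  have hd := continuous_dbet h0 h2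
  refine Continuous.matrix_det ?_
  refine continuous_matrix (fun m k => ?_)
  simp only [Matrix.of_apply]
  refine Continuous.sub ?_ ?_
  · split_ifs
    · refine continuous_const.add (continuous_const.mul ?_)
      exact Complex.continuous_ofReal.comp (continuous_const.mul (hd.comp (continuous_apply m)))
    · exact continuous_const
  · refine continuous_const.mul ?_
    refine Complex.continuous_ofReal.comp (continuous_const.mul ?_)
    refine Continuous.div_const ?_ _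
    exact (hd.comp (continuous_apply k)).sub (hd.comp (continuous_full ϑ _))

lemma tor_eq_lam {d : ℕ} {c0 κ ϑ a : ℝ} {t : Fin d → ℝ}
    (hab : bet c0 a = avg c0 (full ϑ t)) (m : Fin (d + 1)) :
    tor c0 κ ϑ t m = lam c0 κ a (full ϑ t m) := by
  unfold tor lam; rw [hab]

lemma DD_nonneg {d : ℕ} (ϑ δ0 : ℝ) (t : Fin d → ℝ) : 0 ≤ DD ϑ δ0 t := by
  unfold DD
  exact le_min (Finset.sum_nonneg fun i _ => ch_nonneg _ _)
    (Finset.sum_nonneg fun i _ => ch_nonneg _ _)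

lemma DD_le {d : ℕ} (ϑ δ0 : ℝ) (t : Fin d → ℝ) : DD ϑ δ0 t ≤ 4 * (d + 1) := by
  unfold DD
  refine (min_le_left _ _).trans ?_
  calc ∑ i, ch (full ϑ t i) δ0 ≤ ∑ _i : Fin (d + 1), (4 : ℝ) :=
        Finset.sum_le_sum fun i _ => ch_le_four _ _
    _ = 4 * (d + 1) := by simp; ring

lemma continuous_ch (s : ℝ) : Continuous (fun t => ch t s) := by
  unfold ch; fun_prop

lemma continuous_DD {d : ℕ} (ϑ δ0 : ℝ) : Continuous (fun t : Fin d → ℝ => DD ϑ δ0 t) := by
  unfold DD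
  refine Continuous.min ?_ ?_ <;>
  · refine continuous_finsetSum _ (fun i _ => ?_)
    exact (continuous_ch _).comp (continuous_full ϑ i)

lemma V2c_nonneg {j : ℕ} (T : Fin j → ℝ) : 0 ≤ V2c T := by
  unfold V2c
  exact Finset.prod_nonneg fun i _ => Finset.prod_nonneg fun k _ => ch_nonneg _ _

lemma c0_bounds {c0 δ0 ϑ : ℝ} {n : ℕ} (hD : DiagRes n ϑ c0 δ0) : 0 < c0 ∧ c0 < 2 := by
  obtain ⟨h1, h2, h3, -⟩ := hD
  have hc : 0 < Real.cos δ0 := Real.cos_pos_of_mem_Ioo ⟨by linarith [Real.pi_pos], h2⟩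
  have hc' : Real.cos δ0 < 1 := by
    have := Real.cos_lt_cos_of_nonneg_of_le_pi_div_two (le_refl (0 : ℝ)) h2.le h1
    rwa [Real.cos_zero] at this
  constructor <;> rw [h3] <;> linarith

lemma cos_fe {c0 : ℝ} (h0 : 0 < c0) (h2 : c0 < 2) : Real.cos (fe c0) = c0 - 1 := by
  unfold fe
  exact Real.cos_arccos (by linarith) (by linarith)

lemma fe_bounds {c0 : ℝ} (h0 : 0 < c0) (h2 : c0 < 2) : 0 < fe c0 ∧ fe c0 < π := by
  unfold fe
  constructor
  · rw [Real.arccos_pos]; linarith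
  · have h := Real.arccos_le_pi (c0 - 1)
    refine lt_of_le_of_ne h (fun h' => ?_)
    have := Real.cos_arccos (x := c0 - 1) (by linarith) (by linarith)
    rw [h', Real.cos_pi] at this
    linarith

/-- `r` is positive for every package. -/
lemma r_pos {c0 r κ μ C ρ : ℝ} {K : Set ℂ} (h0 : 0 < c0) (h2 : c0 < 2)
    (hP : KeyPkg c0 r κ μ C ρ K) : 0 < r := by
  by_contra hr
  push Not at hr
  have hf := fe_bounds h0 h2
  have h := hP.mem (fe c0) ⟨by linarith, by linarith⟩ (fe c0) c0 (by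
    simp; exact hP.ρ_pos.le)
  have h' := hP.K_sub h
  have e : (c0 : ℂ) - Complex.cos (lam c0 κ (fe c0) (fe c0)) = 1 := by
    unfold lam
    rw [sub_self, mul_zero, Complex.ofReal_zero, mul_zero, add_zero, ← Complex.ofReal_cos,
      cos_fe h0 h2]
    push_cast
    ring
  rw [e] at h'
  unfold ZZ at h'
  simp at h'

/-! ### Comparison of the chord sums near the coincidence points -/

lemma sqrt_ch_eq (t s : ℝ) : Real.sqrt (ch t s) = ‖Complex.exp (I * t) - Complex.exp (I * s)‖ := by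
  unfold ch; rw [Real.sqrt_sq (norm_nonneg _)]

/-- If all angles are close to `s`, the total angle is the right one and `a` is not opposite to `s`,
then the chord sum at `a` dominates the chord sum at `s`. -/
lemma near_aux {n : ℕ} {s a ϑ h : ℝ} (T : Fin n → ℝ) (hT : ∑ i, T i = ϑ)
    (hs : Complex.exp (I * (n * s)) = Complex.exp (I * ϑ)) (hh : 0 ≤ h)
    (h1 : ∀ i, Real.sqrt (ch (T i) s) ≤ h) (h2 : n * (π / 2 * h) < 2 * π)
    (h3 : |a - s| + π / 2 * h ≤ π) :
    4 / π ^ 2 * ∑ i, ch (T i) s ≤ ∑ i, ch (T i) a := by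
  have hpi := Real.pi_pos
  -- representatives
  let k : Fin n → ℤ := fun i => round ((T i - s) / (2 * π))
  let y : Fin n → ℝ := fun i => T i - s - k i * (2 * π)
  have hyi : ∀ i, y i = T i - s - k i * (2 * π) := fun i => rfl
  have hy : ∀ i, |y i| ≤ π := by
    intro i
    have := abs_sub_round ((T i - s) / (2 * π))
    have e : y i = ((T i - s) / (2 * π) - round ((T i - s) / (2 * π))) * (2 * π) := by
      rw [hyi]
      have e2 : T i - s = (T i - s) / (2 * π) * (2 * π) := by field_simp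
      rw [sub_mul, ← e2]
    rw [e, abs_mul, abs_of_pos (by positivity : (0 : ℝ) < 2 * π)]
    nlinarith
  have hcs : ∀ i, ch (T i) s = 2 - 2 * Real.cos (y i) := by
    intro i
    rw [ch_eq, hyi, Real.cos_sub_int_mul_two_pi]
  have hca : ∀ i, ch (T i) a = 2 - 2 * Real.cos (y i - (a - s)) := by
    intro i
    rw [ch_eq, hyi]
    have : T i - s - k i * (2 * π) - (a - s) = T i - a - k i * (2 * π) := by ring
    rw [this, Real.cos_sub_int_mul_two_pi]
  have hys : ∀ i, |y i| ≤ π / 2 * h := by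
    intro i
    have e1 := ch_lower (hy i)
    rw [← hcs i] at e1
    have e2 : ch (T i) s ≤ h ^ 2 := by
      have := h1 i
      calc ch (T i) s = Real.sqrt (ch (T i) s) ^ 2 := (Real.sq_sqrt (ch_nonneg _ _)).symm
        _ ≤ h ^ 2 := pow_le_pow_left₀ (Real.sqrt_nonneg _) this 2
    have e3 : y i ^ 2 ≤ (π / 2 * h) ^ 2 := by
      have : 4 / π ^ 2 * y i ^ 2 ≤ h ^ 2 := e1.trans e2
      have e4 : y i ^ 2 = (π / 2) ^ 2 * (4 / π ^ 2 * y i ^ 2) := by field_simp; ring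
      rw [e4, mul_pow]
      exact mul_le_mul_of_nonneg_left this (by positivity)
    exact abs_le_of_sq_le_sq e3 (by positivity)
  -- the sum of the representatives vanishes
  have hsum : ∑ i, y i = 0 := by
    have e1 : (∑ i, y i) = ϑ - n * s - (∑ i, (k i : ℝ)) * (2 * π) := by
      simp only [hyi, Finset.sum_sub_distrib, hT, Finset.sum_const, Finset.card_univ,
        Fintype.card_fin, nsmul_eq_mul, Finset.sum_mul]
    have e2 : Complex.exp ((∑ i, y i : ℝ) * I) = 1 := by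
      rw [e1]
      have e3 : (((ϑ - n * s - (∑ i, (k i : ℝ)) * (2 * π) : ℝ) : ℂ)) * I =
          I * ϑ - I * (n * s) - ((∑ i, k i : ℤ) : ℂ) * (2 * π * I) := by
        push_cast; ring
      rw [e3, Complex.exp_sub, Complex.exp_sub, hs, Complex.exp_int_mul_two_pi_mul_I, div_one,
        div_self (Complex.exp_ne_zero _)]
    rw [Complex.exp_eq_one_iff] at e2
    obtain ⟨m, hm⟩ := e2
    have hm' : (∑ i, y i) = m * (2 * π) := by
      have h5 := congrArg Complex.im hm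
      simp at h5
      exact_mod_cast h5
    have habs : |∑ i, y i| < 2 * π := by
      calc |∑ i, y i| ≤ ∑ i, |y i| := Finset.abs_sum_le_sum_abs _ _
        _ ≤ ∑ _i : Fin n, π / 2 * h := Finset.sum_le_sum fun i _ => hys i
        _ = n * (π / 2 * h) := by simp
        _ < 2 * π := h2
    rw [hm', abs_mul, abs_of_pos (by positivity : (0 : ℝ) < 2 * π)] at habs
    have hm0 : m = 0 := by
      by_contra hne
      have : (1 : ℝ) ≤ |(m : ℝ)| := by exact_mod_cast Int.one_le_abs hne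
      nlinarith
    rw [hm', hm0]; simp
  have hlow : ∀ i, 4 / π ^ 2 * (y i - (a - s)) ^ 2 ≤ ch (T i) a := by
    intro i
    rw [hca i]
    apply ch_lower
    calc |y i - (a - s)| ≤ |y i| + |a - s| := abs_sub _ _
      _ ≤ π := by linarith [hys i]
  calc 4 / π ^ 2 * ∑ i, ch (T i) s ≤ 4 / π ^ 2 * ∑ i, y i ^ 2 := by
        refine mul_le_mul_of_nonneg_left (Finset.sum_le_sum fun i _ => ?_) (by positivity)
        rw [hcs i]; exact ch_upper _
    _ ≤ 4 / π ^ 2 * ∑ i, (y i - (a - s)) ^ 2 := by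
        refine mul_le_mul_of_nonneg_left ?_ (by positivity)
        have : ∀ b : ℝ, ∑ i, (y i - b) ^ 2 = ∑ i, y i ^ 2 - 2 * b * ∑ i, y i + n * b ^ 2 := by
          intro b
          simp only [sub_sq, Finset.sum_add_distrib, Finset.sum_sub_distrib, Finset.mul_sum,
            Finset.sum_const, Finset.card_univ, Fintype.card_fin, nsmul_eq_mul]
          congr 2
          exact Finset.sum_congr rfl fun i _ => by ring
        rw [this, hsum]
        have : 0 ≤ (n : ℝ) * (a - s) ^ 2 := by positivity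
        linarith
    _ = ∑ i, 4 / π ^ 2 * (y i - (a - s)) ^ 2 := Finset.mul_sum _ _ _
    _ ≤ ∑ i, ch (T i) a := Finset.sum_le_sum fun i _ => hlow i

/-- Closeness of the shape values forces equality of signs. -/
lemma abs_sub_le_of_bet {c0 a s b : ℝ} (h0 : 0 < c0) (h2 : c0 < 2) (hs : 0 < |s|) (hsb : |s| ≤ b)
    (hab : |a| ≤ b) (hb : b < π) (h : |bet c0 a - bet c0 s| < |bet c0 s|) : |a - s| ≤ b := by
  have hda := den_pos h0 h2 a
  have hds := den_pos h0 h2 s
  have hs' := abs_le.1 hsb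
  have ha' := abs_le.1 hab
  rcases lt_or_gt_of_ne (abs_pos.1 hs) with hneg | hpos
  · have hss : Real.sin s < 0 := Real.sin_neg_of_neg_of_neg_pi_lt hneg (by linarith)
    have hbs : bet c0 s < 0 := by unfold bet; exact div_neg_of_neg_of_pos hss hds
    have hba : bet c0 a < 0 := by
      rw [abs_of_neg hbs] at h
      have := (abs_lt.1 h).2
      linarith
    have hsa : Real.sin a < 0 := by
      unfold bet at hba
      by_contra hc
      push Not at hc
      have := div_nonneg hc hda.le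
      linarith
    have han : a < 0 := by
      by_contra hc
      push Not at hc
      have := Real.sin_nonneg_of_nonneg_of_le_pi hc (by linarith)
      linarith
    rw [abs_le]; constructor <;> linarith [hs'.1, ha'.1]
  · have hss : 0 < Real.sin s := Real.sin_pos_of_pos_of_lt_pi hpos (by linarith)
    have hbs : 0 < bet c0 s := by unfold bet; exact div_pos hss hds
    have hba : 0 < bet c0 a := by
      rw [abs_of_pos hbs] at h
      have := (abs_lt.1 h).1
      linarith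
    have hsa : 0 < Real.sin a := by
      unfold bet at hba
      by_contra hc
      push Not at hc
      have := div_nonpos_of_nonpos_of_nonneg hc hda.le
      linarith
    have han : 0 < a := by
      by_contra hc
      push Not at hc
      have := Real.sin_nonpos_of_nonpos_of_neg_pi_le hc (by linarith)
      linarith
    rw [abs_le]; constructor <;> linarith [hs'.2, ha'.2]

lemma bet_neg (c0 s : ℝ) : bet c0 (-s) = -bet c0 s := by
  unfold bet; rw [Real.sin_neg, Real.cos_neg, neg_div]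

lemma tau_conj {ϑ : ℝ} (hϑ : ϑ = 0 ∨ ϑ = π) : (tau ϑ)⁻¹ = tau ϑ := by
  rcases hϑ with rfl | rfl
  · simp [tau]
  · have : Complex.exp (I * π) = -1 := by rw [mul_comm]; exact Complex.exp_pi_mul_I
    simp only [tau, this]
    norm_num

/-- The chord sum at the balanced angle dominates `DD` near the coincidence points. -/
lemma near {c0 r δ0 : ℝ} (d : ℕ) {ϑ : ℝ} (hϑ : ϑ = 0 ∨ ϑ = π) (hr : 0 < r)
    (hD : DiagRes (d + 1) ϑ c0 δ0) :
    ∃ η > 0, ∀ t : Fin d → ℝ, ∀ a ∈ Icc (-(fe c0 - r)) (fe c0 - r),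
      bet c0 a = avg c0 (full ϑ t) → DD ϑ δ0 t ≤ η →
      4 / π ^ 2 * DD ϑ δ0 t ≤ ∑ i, ch (full ϑ t i) a := by
  obtain ⟨h0, h2⟩ := c0_bounds hD
  have hpi := Real.pi_pos
  have hfe := fe_bounds h0 h2
  have hδ := hD.1
  have hδ' := hD.2.1
  set b := max (fe c0 - r) δ0 with hb
  have hbπ : b < π := by rw [hb]; exact max_lt (by linarith) (by linarith)
  have hbet : 0 < bet c0 δ0 := by
    unfold bet
    exact div_pos (Real.sin_pos_of_pos_of_lt_pi hδ (by linarith)) (den_pos h0 h2 _)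
  set L := 2 / (1 - |c0 - 1|) ^ 2 with hL
  have hLpos : 0 < L := by
    have := abs_lt_one h0 h2
    have : 0 < 1 - |c0 - 1| := by linarith
    positivity
  -- the radius
  obtain ⟨h, hh, hh1, hh2, hh3⟩ : ∃ h : ℝ, 0 < h ∧ ((d + 1 : ℕ) : ℝ) * (π / 2 * h) < 2 * π ∧
      b + π / 2 * h ≤ π ∧ L * h < bet c0 δ0 := by
    refine ⟨min (min (1 / (d + 1)) ((π - b) / (π / 2))) (bet c0 δ0 / (2 * L)), ?_, ?_, ?_, ?_⟩
    · refine lt_min (lt_min (by positivity) (div_pos (by linarith) (by positivity))) (by positivity)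
    · have h5 : min (min (1 / (d + 1 : ℝ)) ((π - b) / (π / 2))) (bet c0 δ0 / (2 * L)) ≤
          1 / (d + 1) := (min_le_left _ _).trans (min_le_left _ _)
      have h6 : (0 : ℝ) < d + 1 := by positivity
      calc ((d + 1 : ℕ) : ℝ) * (π / 2 * min (min (1 / (d + 1 : ℝ)) ((π - b) / (π / 2)))
            (bet c0 δ0 / (2 * L))) ≤ ((d + 1 : ℕ) : ℝ) * (π / 2 * (1 / (d + 1))) := by
            refine mul_le_mul_of_nonneg_left (mul_le_mul_of_nonneg_left h5 (by positivity))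
              (by positivity)
        _ = π / 2 := by push_cast; field_simp
        _ < 2 * π := by linarith
    · have h5 : min (min (1 / (d + 1 : ℝ)) ((π - b) / (π / 2))) (bet c0 δ0 / (2 * L)) ≤
          (π - b) / (π / 2) := (min_le_left _ _).trans (min_le_right _ _)
      have : π / 2 * min (min (1 / (d + 1 : ℝ)) ((π - b) / (π / 2))) (bet c0 δ0 / (2 * L)) ≤
          π / 2 * ((π - b) / (π / 2)) := mul_le_mul_of_nonneg_left h5 (by positivity)
      have e : π / 2 * ((π - b) / (π / 2)) = π - b := by field_simp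
      linarith
    · have h5 : min (min (1 / (d + 1 : ℝ)) ((π - b) / (π / 2))) (bet c0 δ0 / (2 * L)) ≤
          bet c0 δ0 / (2 * L) := min_le_right _ _
      have : L * min (min (1 / (d + 1 : ℝ)) ((π - b) / (π / 2))) (bet c0 δ0 / (2 * L)) ≤
          L * (bet c0 δ0 / (2 * L)) := mul_le_mul_of_nonneg_left h5 hLpos.le
      have e : L * (bet c0 δ0 / (2 * L)) = bet c0 δ0 / 2 := by field_simp
      linarith
  refine ⟨h ^ 2, by positivity, ?_⟩
  intro t a ha hbal hDD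
  -- reduce to a statement for one sign
  have key : ∀ s : ℝ, |s| = δ0 → Complex.exp (I * ((d + 1 : ℕ) * s)) = tau ϑ →
      ∑ i, ch (full ϑ t i) s ≤ h ^ 2 →
      4 / π ^ 2 * ∑ i, ch (full ϑ t i) s ≤ ∑ i, ch (full ϑ t i) a := by
    intro s hs hsτ hsum
    have hsi : ∀ i, Real.sqrt (ch (full ϑ t i) s) ≤ h := by
      intro i
      have : ch (full ϑ t i) s ≤ h ^ 2 :=
        (Finset.single_le_sum (f := fun i => ch (full ϑ t i) s)
          (fun i _ => ch_nonneg _ _) (Finset.mem_univ i)).trans hsum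
      calc Real.sqrt (ch (full ϑ t i) s) ≤ Real.sqrt (h ^ 2) := Real.sqrt_le_sqrt this
        _ = h := Real.sqrt_sq hh.le
    have hbs : |bet c0 s| = bet c0 δ0 := by
      rcases abs_eq hδ.le |>.1 hs with h' | h'
      · rw [h']; exact abs_of_pos hbet
      · rw [h', bet_neg, abs_neg]; exact abs_of_pos hbet
    have hlt : |bet c0 a - bet c0 s| < |bet c0 s| := by
      rw [hbal, hbs]
      have e : avg c0 (full ϑ t) - bet c0 s =
          (∑ i, (bet c0 (full ϑ t i) - bet c0 s)) / ((d + 1 : ℕ) : ℝ) := by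
        unfold avg
        rw [Finset.sum_sub_distrib]
        simp only [Finset.sum_const, Finset.card_univ, Fintype.card_fin, nsmul_eq_mul]
        rw [sub_div, mul_div_assoc, mul_div_cancel₀ _ (by positivity)]
      rw [e, abs_div, abs_of_pos (by positivity : (0 : ℝ) < ((d + 1 : ℕ) : ℝ)),
        div_lt_iff₀ (by positivity)]
      calc |∑ i, (bet c0 (full ϑ t i) - bet c0 s)|
          ≤ ∑ i, |bet c0 (full ϑ t i) - bet c0 s| := Finset.abs_sum_le_sum_abs _ _
        _ ≤ ∑ _i : Fin (d + 1), L * h := by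
            refine Finset.sum_le_sum fun i _ => ?_
            exact (bet_lip h0 h2 _ _).trans (mul_le_mul_of_nonneg_left (hsi i) hLpos.le)
        _ = ((d + 1 : ℕ) : ℝ) * (L * h) := by simp
        _ < bet c0 δ0 * ((d + 1 : ℕ) : ℝ) := by
            rw [mul_comm]
            exact mul_lt_mul_of_pos_right hh3 (by positivity)
    have hab : |a - s| ≤ b := by
      refine abs_sub_le_of_bet h0 h2 (by rw [hs]; exact hδ) (by rw [hs]; exact le_max_right _ _)
        ?_ hbπ hlt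
      exact (abs_le.2 ⟨by linarith [ha.1], ha.2⟩ : |a| ≤ fe c0 - r).trans (le_max_left _ _)
    refine near_aux (h := h) (full ϑ t) (sum_full ϑ t) ?_ hh.le hsi hh1 (by linarith)
    rw [hsτ]; rfl
  have hτ1 : Complex.exp (I * ((d + 1 : ℕ) * δ0)) = tau ϑ := hD.2.2.2.1
  have hτ2 : Complex.exp (I * ((d + 1 : ℕ) * (-δ0 : ℝ))) = tau ϑ := by
    have : I * ((d + 1 : ℕ) * ((-δ0 : ℝ) : ℂ)) = -(I * ((d + 1 : ℕ) * δ0)) := by push_cast; ring
    rw [this, Complex.exp_neg, hτ1, tau_conj hϑ]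
  have hfac : (0 : ℝ) ≤ 4 / π ^ 2 := by positivity
  unfold DD at hDD ⊢
  rcases le_total (∑ i, ch (full ϑ t i) δ0) (∑ i, ch (full ϑ t i) (-δ0)) with hle | hle
  · rw [min_eq_left hle] at hDD ⊢
    exact key δ0 (abs_of_pos hδ) hτ1 hDD
  · rw [min_eq_right hle] at hDD ⊢
    exact key (-δ0) (by rw [abs_neg, abs_of_pos hδ]) hτ2 hDD

/-! ### Resonances -/

lemma tor_mem {c0 r κ μ C ρ ϑ : ℝ} {K : Set ℂ} (hP : KeyPkg c0 r κ μ C ρ K) {d : ℕ}
    (hbal : ∀ t : Fin d → ℝ, ∃ a ∈ Icc (-(fe c0 - r)) (fe c0 - r), bet c0 a = avg c0 (full ϑ t))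
    (t : Fin d → ℝ) {c : ℂ} (hc : ‖c - c0‖ ≤ 2 * ρ) (m : Fin (d + 1)) :
    c - Complex.cos (tor c0 κ ϑ t m) ∈ K := by
  obtain ⟨a, ha, hab⟩ := hbal t
  rw [tor_eq_lam hab]
  exact hP.mem a ha _ c hc

lemma norm_tau {ϑ : ℝ} : ‖tau ϑ‖ = 1 := by
  unfold tau
  rw [mul_comm]
  exact Complex.norm_exp_ofReal_mul_I ϑ

lemma prodw_ne_zero {j : ℕ} (c : ℂ) (φ : Fin j → ℂ) : prodw om c φ ≠ 0 := by
  unfold prodw
  exact Finset.prod_ne_zero_iff.2 fun i _ => om_ne_zero _

/-- On the deformed torus at `c0` the resonance denominator vanishes only at the coincidence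
points. -/
lemma zero_DD {c0 r κ μ C ρ δ0 : ℝ} {K : Set ℂ}
    (hP : KeyPkg c0 r κ μ C ρ K) (d : ℕ) {ϑ : ℝ}
    (hbal : ∀ t : Fin d → ℝ, ∃ a ∈ Icc (-(fe c0 - r)) (fe c0 - r), bet c0 a = avg c0 (full ϑ t))
    (hD : DiagRes (d + 1) ϑ c0 δ0) (t : Fin d → ℝ)
    (hz : 1 - tau ϑ * prodw om c0 (tor c0 κ ϑ t) = 0) : DD ϑ δ0 t = 0 := by
  obtain ⟨h0, h2⟩ := c0_bounds hD
  have hpi := Real.pi_pos
  have hfe := fe_bounds h0 h2
  have hr := r_pos h0 h2 hP
  obtain ⟨a, ha, hab⟩ := hbal t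
  have hW1 : tau ϑ * prodw om c0 (tor c0 κ ϑ t) = 1 := (sub_eq_zero.1 hz).symm
  have hWn : ‖prodw om (c0 : ℂ) (tor c0 κ ϑ t)‖ = 1 := by
    have := congrArg norm hW1
    rwa [norm_mul, norm_tau, one_mul, norm_one] at this
  have hlog := log_prodw_le hP d ϑ t ha hab (ε := 0) ⟨le_rfl, hP.ρ_pos.le⟩ (ζ := 0)
    (by rw [norm_zero]; exact hP.ρ_pos.le)
  have e0 : (c0 : ℂ) + ((0 : ℝ) : ℂ) * I + 0 = c0 := by simp
  rw [e0, hWn, Real.log_one, norm_zero] at hlog
  have hS : ∑ i, ch (full ϑ t i) a = 0 := by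
    apply le_antisymm _ (Finset.sum_nonneg fun i _ => ch_nonneg _ _)
    have : 0 ≤ -μ * ∑ i, ch (full ϑ t i) a := by linarith
    by_contra hc
    push Not at hc
    have := mul_pos hP.μ_pos hc
    linarith
  have hchi : ∀ i, ch (full ϑ t i) a = 0 := by
    intro i
    exact (Finset.sum_eq_zero_iff_of_nonneg (fun i _ => ch_nonneg _ _)).1 hS i (Finset.mem_univ i)
  have hexp : ∀ i, Complex.exp (I * full ϑ t i) = Complex.exp (I * a) := by
    intro i
    have := hchi i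
    unfold ch at this
    exact sub_eq_zero.1 (norm_eq_zero.1 (pow_eq_zero_iff two_ne_zero |>.1 this))
  have hcos : ∀ i, Real.cos (full ϑ t i) = Real.cos a := by
    intro i
    have := congrArg Complex.re (hexp i)
    rwa [mul_comm I, mul_comm I, Complex.exp_ofReal_mul_I_re, Complex.exp_ofReal_mul_I_re] at this
  have hsin : ∀ i, Real.sin (full ϑ t i) = Real.sin a := by
    intro i
    have := congrArg Complex.im (hexp i)
    rwa [mul_comm I, mul_comm I, Complex.exp_ofReal_mul_I_im, Complex.exp_ofReal_mul_I_im] at this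
  have hbt : ∀ i, bet c0 (full ϑ t i) = bet c0 a := by
    intro i; unfold bet; rw [hcos, hsin]
  have hlam : ∀ i, Complex.cos (tor c0 κ ϑ t i) = ((Real.cos a : ℝ) : ℂ) := by
    intro i
    rw [tor_eq_lam hab]
    unfold lam
    rw [hbt i, sub_self, mul_zero, Complex.ofReal_zero, mul_zero, add_zero, ← Complex.ofReal_cos,
      hcos i]
  have hprod : prodw om (c0 : ℂ) (tor c0 κ ϑ t) = om ((c0 - Real.cos a : ℝ) : ℂ) ^ (d + 1) := by
    unfold prodw
    simp only [hlam]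
    rw [Finset.prod_const, Finset.card_univ, Fintype.card_fin, Complex.ofReal_sub]
  -- the dual angle
  have hca : c0 - 1 < Real.cos a := by
    rw [← cos_fe h0 h2, ← Real.cos_abs a]
    have habs : |a| ≤ fe c0 - r := abs_le.2 ⟨by linarith [ha.1], ha.2⟩
    exact Real.cos_lt_cos_of_nonneg_of_le_pi (abs_nonneg a) hfe.2.le (by linarith)
  have hca1 : Real.cos a ≤ 1 := Real.cos_le_one a
  have hdel0 : 0 < del c0 a := by unfold del; rw [Real.arccos_pos]; linarith
  have hcosdel : Real.cos (del c0 a) = c0 - Real.cos a := by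
    unfold del; exact Real.cos_arccos (by linarith) (by linarith)
  have hdelπ : del c0 a < π := by
    refine lt_of_le_of_ne (Real.arccos_le_pi _) (fun h' => ?_)
    have h6 := hcosdel
    have h7 : del c0 a = π := h'
    rw [h7, Real.cos_pi] at h6
    linarith
  have hom : om ((c0 - Real.cos a : ℝ) : ℂ) = Complex.exp (-(I * del c0 a)) := by
    rw [← hcosdel]; exact om_cos hdel0 hdelπ
  have hres1 : Complex.exp (I * ((d + 1 : ℕ) * a)) = tau ϑ := by
    have e1 : ∏ i, Complex.exp (I * full ϑ t i) = Complex.exp (I * ϑ) := by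
      rw [← Complex.exp_sum, ← Finset.mul_sum, ← Complex.ofReal_sum, sum_full]
    have e2 : ∏ i, Complex.exp (I * full ϑ t i) = Complex.exp (I * a) ^ (d + 1) := by
      simp only [hexp]
      rw [Finset.prod_const, Finset.card_univ, Fintype.card_fin]
    rw [e2, ← Complex.exp_nat_mul] at e1
    rw [tau, ← e1]
    congr 1
    ring
  have hres2 : Complex.exp (I * ((d + 1 : ℕ) * del c0 a)) = tau ϑ := by
    rw [hprod, hom, ← Complex.exp_nat_mul] at hW1
    have e3 : ((d + 1 : ℕ) : ℂ) * -(I * del c0 a) = -(I * ((d + 1 : ℕ) * del c0 a)) := by ring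
    rw [e3, Complex.exp_neg] at hW1
    have := mul_inv_eq_one₀ (Complex.exp_ne_zero _) |>.1 hW1
    exact this.symm
  have hcc := (hD.2.2.2.2.1 a (del c0 a) hres1 hres2 (by rw [hcosdel]; ring)).1
  have habs : |a| = δ0 := by
    have h8 : Real.cos |a| = Real.cos δ0 := by rw [Real.cos_abs, hcc]
    have hale : |a| ≤ π := (abs_le.2 ⟨by linarith [ha.1], ha.2⟩ : |a| ≤ fe c0 - r).trans
      (by linarith)
    exact Real.injOn_cos ⟨abs_nonneg a, hale⟩ ⟨hD.1.le, by linarith [hD.2.1]⟩ h8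
  apply le_antisymm _ (DD_nonneg _ _ _)
  unfold DD
  rcases abs_eq hD.1.le |>.1 habs with h' | h'
  · rw [h'] at hS
    exact (min_le_left _ _).trans hS.le
  · rw [h'] at hS
    exact (min_le_right _ _).trans hS.le

lemma continuousOn_prodw {c0 r κ μ C ρ ϑ : ℝ} {K : Set ℂ} (h0 : 0 < c0) (h2 : c0 < 2)
    (hP : KeyPkg c0 r κ μ C ρ K) {d : ℕ}
    (hbal : ∀ t : Fin d → ℝ, ∃ a ∈ Icc (-(fe c0 - r)) (fe c0 - r), bet c0 a = avg c0 (full ϑ t)) :
    ContinuousOn (fun p : (Fin d → ℝ) × ℝ × ℂ =>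
      prodw om (c0 + p.2.1 * I + p.2.2) (tor c0 κ ϑ p.1))
      {p | p.2.1 ∈ Icc 0 ρ ∧ ‖p.2.2‖ ≤ ρ} := by
  unfold prodw
  refine continuousOn_finsetProd _ (fun i _ => ?_)
  intro p hp
  have hmem : ((c0 : ℂ) + p.2.1 * I + p.2.2) - Complex.cos (tor c0 κ ϑ p.1 i) ∈ ZZ := by
    refine hP.K_sub (tor_mem hP hbal p.1 ?_ i)
    have e : (c0 : ℂ) + p.2.1 * I + p.2.2 - c0 = p.2.1 * I + p.2.2 := by ring
    rw [e]
    calc ‖(p.2.1 : ℂ) * I + p.2.2‖ ≤ ‖(p.2.1 : ℂ) * I‖ + ‖p.2.2‖ := norm_add_le _ _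
      _ = |p.2.1| + ‖p.2.2‖ := by rw [norm_mul, Complex.norm_I, mul_one, Complex.norm_real]; rfl
      _ ≤ 2 * ρ := by rw [abs_of_nonneg hp.1.1]; linarith [hp.1.2, hp.2]
  have hc : ContinuousAt om (((c0 : ℂ) + p.2.1 * I + p.2.2) - Complex.cos (tor c0 κ ϑ p.1 i)) :=
    (om_hasDerivAt hmem).continuousAt
  have hin : Continuous (fun p : (Fin d → ℝ) × ℝ × ℂ =>
      ((c0 : ℂ) + p.2.1 * I + p.2.2) - Complex.cos (tor c0 κ ϑ p.1 i)) := by
    have h3 := (continuous_tor (d := d) h0 h2 κ ϑ i).comp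
      (continuous_fst : Continuous (Prod.fst : (Fin d → ℝ) × ℝ × ℂ → (Fin d → ℝ)))
    have h4 : Continuous (fun p : (Fin d → ℝ) × ℝ × ℂ => (c0 : ℂ) + p.2.1 * I + p.2.2) := by
      fun_prop
    exact h4.sub (Complex.continuous_cos.comp h3)
  exact (ContinuousAt.comp (f := fun p : (Fin d → ℝ) × ℝ × ℂ =>
      ((c0 : ℂ) + p.2.1 * I + p.2.2) - Complex.cos (tor c0 κ ϑ p.1 i)) hc
      hin.continuousAt).continuousWithinAt

lemma isCompact_box (d : ℕ) : IsCompact (box d) := by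
  unfold box; exact isCompact_Icc

/-- Away from the coincidence points the denominator is bounded below. -/
lemma outer {c0 r κ μ C ρ δ0 : ℝ} {K : Set ℂ}
    (hP : KeyPkg c0 r κ μ C ρ K) (d : ℕ) {ϑ : ℝ}
    (hbal : ∀ t : Fin d → ℝ, ∃ a ∈ Icc (-(fe c0 - r)) (fe c0 - r), bet c0 a = avg c0 (full ϑ t))
    (hD : DiagRes (d + 1) ϑ c0 δ0) {η : ℝ} (hη : 0 < η) :
    ∃ m > 0, m ≤ ρ ∧ ∀ t ∈ box d, η ≤ DD ϑ δ0 t → ∀ ε ∈ Icc 0 m, ∀ ζ : ℂ, ‖ζ‖ ≤ m →
      m ≤ ‖1 - tau ϑ * prodw om (c0 + ε * I + ζ) (tor c0 κ ϑ t)‖ := by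
  obtain ⟨h0, h2⟩ := c0_bounds hD
  have hρ := hP.ρ_pos
  set X : Set ((Fin d → ℝ) × ℝ × ℂ) :=
    (box d ∩ {t | η ≤ DD ϑ δ0 t}) ×ˢ (Icc (0 : ℝ) ρ ×ˢ Metric.closedBall (0 : ℂ) ρ) with hX
  have hXc : IsCompact X := by
    refine IsCompact.prod ?_ (isCompact_Icc.prod (isCompact_closedBall _ _))
    exact (isCompact_box d).inter_right (isClosed_le continuous_const (continuous_DD _ _))
  let F : (Fin d → ℝ) × ℝ × ℂ → ℝ := fun p =>
    ‖1 - tau ϑ * prodw om (c0 + p.2.1 * I + p.2.2) (tor c0 κ ϑ p.1)‖ + |p.2.1| + ‖p.2.2‖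
  have hF : ContinuousOn F X := by
    have h3 : ContinuousOn (fun p : (Fin d → ℝ) × ℝ × ℂ =>
        prodw om (c0 + p.2.1 * I + p.2.2) (tor c0 κ ϑ p.1)) X :=
      (continuousOn_prodw h0 h2 hP hbal).mono (fun p hp =>
        ⟨hp.2.1, by simpa using hp.2.2⟩)
    refine ContinuousOn.add (ContinuousOn.add ?_ ?_) ?_
    · exact (continuousOn_const.sub (continuousOn_const.mul h3)).norm
    · exact Continuous.continuousOn (by fun_prop)
    · exact Continuous.continuousOn (by fun_prop)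
  have hpos : ∀ p ∈ X, 0 < F p := by
    intro p hp
    have h4 : 0 ≤ ‖1 - tau ϑ * prodw om (c0 + p.2.1 * I + p.2.2) (tor c0 κ ϑ p.1)‖ := norm_nonneg _
    have h5 : 0 ≤ |p.2.1| := abs_nonneg _
    have h6 : 0 ≤ ‖p.2.2‖ := norm_nonneg _
    by_contra hc
    push Not at hc
    have hc' : ‖1 - tau ϑ * prodw om (c0 + p.2.1 * I + p.2.2) (tor c0 κ ϑ p.1)‖ +
      |p.2.1| + ‖p.2.2‖ ≤ 0 := hc
    have h7 : |p.2.1| = 0 := by linarith
    have h8 : ‖p.2.2‖ = 0 := by linarith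
    have h9 : ‖1 - tau ϑ * prodw om (c0 + p.2.1 * I + p.2.2) (tor c0 κ ϑ p.1)‖ = 0 := by linarith
    rw [abs_eq_zero] at h7
    rw [norm_eq_zero] at h8 h9
    rw [h7, h8] at h9
    have e0 : (c0 : ℂ) + ((0 : ℝ) : ℂ) * I + 0 = c0 := by simp
    rw [e0] at h9
    have h10 := zero_DD hP d hbal hD p.1 h9
    have h11 : η ≤ DD ϑ δ0 p.1 := hp.1.2
    linarith
  rcases X.eq_empty_or_nonempty with hemp | hne
  · refine ⟨ρ, hρ, le_rfl, ?_⟩
    intro t ht hDt
    exfalso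
    have : ((t, (0, 0)) : (Fin d → ℝ) × ℝ × ℂ) ∈ X := by
      refine ⟨⟨ht, hDt⟩, ⟨⟨le_rfl, hρ.le⟩, ?_⟩⟩
      simp [hρ.le]
    rw [hemp] at this
    exact this
  · obtain ⟨p0, hp0, hmin⟩ := hXc.exists_isMinOn hne hF
    have hm0 := hpos p0 hp0
    refine ⟨min ρ (F p0 / 3), lt_min hρ (by positivity), min_le_left _ _, ?_⟩
    intro t ht hDt ε hε ζ hζ
    have hp : ((t, (ε, ζ)) : (Fin d → ℝ) × ℝ × ℂ) ∈ X := by
      refine ⟨⟨ht, hDt⟩, ⟨⟨hε.1, hε.2.trans (min_le_left _ _)⟩, ?_⟩⟩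
      simpa using hζ.trans (min_le_left _ _)
    have h12 : F p0 ≤ F (t, (ε, ζ)) := hmin hp
    have h13 : F (t, (ε, ζ)) =
      ‖1 - tau ϑ * prodw om (c0 + ε * I + ζ) (tor c0 κ ϑ t)‖ + |ε| + ‖ζ‖ := rfl
    have h14 : |ε| ≤ F p0 / 3 := by
      rw [abs_of_nonneg hε.1]; exact hε.2.trans (min_le_right _ _)
    have h15 : ‖ζ‖ ≤ F p0 / 3 := hζ.trans (min_le_right _ _)
    have h16 : min ρ (F p0 / 3) ≤ F p0 / 3 := min_le_right _ _
    linarith

/-- The lower bound for the resonance denominator. -/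
lemma lower {c0 r κ μ C ρ δ0 : ℝ} {K : Set ℂ}
    (hP : KeyPkg c0 r κ μ C ρ K) (d : ℕ) {ϑ : ℝ} (hϑ : ϑ = 0 ∨ ϑ = π)
    (hbal : ∀ t : Fin d → ℝ, ∃ a ∈ Icc (-(fe c0 - r)) (fe c0 - r), bet c0 a = avg c0 (full ϑ t))
    (hD : DiagRes (d + 1) ϑ c0 δ0) :
    ∃ c1 > 0, ∃ σ > 0, ∃ ε1 > 0, ε1 ≤ ρ ∧ ∀ ε ∈ Icc 0 ε1, ∀ t ∈ box d,
      σ * (ε + DD ϑ δ0 t) ≤ ρ ∧ ∀ ζ : ℂ, ‖ζ‖ ≤ σ * (ε + DD ϑ δ0 t) →
      c1 * (ε + DD ϑ δ0 t) ≤ ‖1 - tau ϑ * prodw om (c0 + ε * I + ζ) (tor c0 κ ϑ t)‖ := by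
  obtain ⟨h0, h2⟩ := c0_bounds hD
  have hpi := Real.pi_pos
  have hr := r_pos h0 h2 hP
  have hρ := hP.ρ_pos
  have hμ := hP.μ_pos
  have hC := hP.C_pos
  obtain ⟨η, hη, hnear⟩ := near d hϑ hr hD
  obtain ⟨m, hm, hmρ, hout⟩ := outer hP d hbal hD hη
  set D : ℝ := 4 * (d + 1) + 1 with hDdef
  have hDpos : 0 < D := by positivity
  set q : ℝ := min (4 / π ^ 2) 1 with hq
  have hqpos : 0 < q := lt_min (by positivity) one_pos
  have hq1 : q ≤ 1 := min_le_right _ _
  have hq4 : q ≤ 4 / π ^ 2 := min_le_left _ _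
  have hd1 : (0 : ℝ) < d + 1 := by positivity
  set α : ℝ := μ * q / 2 with hα
  have hαpos : 0 < α := by positivity
  set σ : ℝ := min (m / D) (α / (C * (d + 1))) with hσ
  have hσpos : 0 < σ := lt_min (by positivity) (by positivity)
  have hσ1 : σ * D ≤ m := by
    calc σ * D ≤ m / D * D := mul_le_mul_of_nonneg_right (min_le_left _ _) hDpos.le
      _ = m := by field_simp
  have hσ2 : C * (d + 1) * σ ≤ α := by
    calc C * (d + 1) * σ ≤ C * (d + 1) * (α / (C * (d + 1))) :=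
          mul_le_mul_of_nonneg_left (min_le_right _ _) (by positivity)
      _ = α := by field_simp
  set c1 : ℝ := min (m / D) (α / (1 + α * D)) with hc1
  have hc1pos : 0 < c1 := lt_min (by positivity) (by positivity)
  refine ⟨c1, hc1pos, σ, hσpos, min 1 m, lt_min one_pos hm, (min_le_right _ _).trans hmρ, ?_⟩
  intro ε hε t ht
  have hε1 : ε ≤ 1 := hε.2.trans (min_le_left _ _)
  have hεm : ε ≤ m := hε.2.trans (min_le_right _ _)
  have hDD0 := DD_nonneg ϑ δ0 t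
  have hDD4 := DD_le ϑ δ0 t
  set x := ε + DD ϑ δ0 t with hx
  have hx0 : 0 ≤ x := add_nonneg hε.1 hDD0
  have hxD : x ≤ D := by rw [hx, hDdef]; linarith
  have hσx : σ * x ≤ m := (mul_le_mul_of_nonneg_left hxD hσpos.le).trans hσ1
  refine ⟨hσx.trans hmρ, ?_⟩
  intro ζ hζ
  rcases le_or_gt η (DD ϑ δ0 t) with hcase | hcase
  · refine le_trans ?_ (hout t ht hcase ε ⟨hε.1, hεm⟩ ζ (hζ.trans hσx))
    calc c1 * x ≤ m / D * D := mul_le_mul (min_le_left _ _) hxD hx0 (by positivity)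
      _ = m := by field_simp
  · obtain ⟨a, ha, hab⟩ := hbal t
    have hS := hnear t a ha hab hcase.le
    have hlog := log_prodw_le hP d ϑ t ha hab (ε := ε) ⟨hε.1, hεm.trans hmρ⟩ (ζ := ζ)
      ((hζ.trans hσx).trans hmρ)
    set W := prodw om (c0 + ε * I + ζ) (tor c0 κ ϑ t) with hW
    have hWpos : 0 < ‖W‖ := norm_pos_iff.2 (prodw_ne_zero _ _)
    have hlog2 : Real.log ‖W‖ ≤ -(α * x) := by
      refine hlog.trans ?_
      have h3 : q * DD ϑ δ0 t ≤ ∑ i, ch (full ϑ t i) a :=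
        (mul_le_mul_of_nonneg_right hq4 hDD0).trans hS
      have h4 : q * ε ≤ (d + 1) * ε := by
        refine mul_le_mul_of_nonneg_right ?_ hε.1
        have : (0 : ℝ) ≤ d := Nat.cast_nonneg d
        linarith
      have h5 : q * x ≤ (∑ i, ch (full ϑ t i) a) + (d + 1) * ε := by
        rw [hx, mul_add]; linarith
      have h6 : μ * (q * x) ≤ μ * ((∑ i, ch (full ϑ t i) a) + (d + 1) * ε) :=
        mul_le_mul_of_nonneg_left h5 hμ.le
      have h7 : C * (d + 1) * ‖ζ‖ ≤ α * x := by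
        calc C * (d + 1) * ‖ζ‖ ≤ C * (d + 1) * (σ * x) :=
              mul_le_mul_of_nonneg_left hζ (by positivity)
          _ = C * (d + 1) * σ * x := by ring
          _ ≤ α * x := mul_le_mul_of_nonneg_right hσ2 hx0
      have h8 : μ * (q * x) = 2 * (α * x) := by rw [hα]; ring
      linarith
    have hWle : ‖W‖ ≤ Real.exp (-(α * x)) := (Real.log_le_iff_le_exp hWpos).1 hlog2
    have hαx : 0 ≤ α * x := by positivity
    have hexp : Real.exp (-(α * x)) ≤ 1 / (1 + α * x) := by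
      rw [Real.exp_neg, ← one_div]
      refine one_div_le_one_div_of_le (by positivity) ?_
      have := Real.add_one_le_exp (α * x)
      linarith
    have h9 : c1 * x ≤ 1 - 1 / (1 + α * x) := by
      have e1 : 1 - 1 / (1 + α * x) = α / (1 + α * x) * x := by field_simp; ring
      rw [e1]
      refine mul_le_mul_of_nonneg_right ((min_le_right _ _).trans ?_) hx0
      refine div_le_div_of_nonneg_left hαpos.le (by positivity) ?_
      have := mul_le_mul_of_nonneg_left hxD hαpos.le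
      linarith
    have h10 : 1 - ‖W‖ ≤ ‖1 - tau ϑ * W‖ := by
      have := norm_sub_norm_le (1 : ℂ) (tau ϑ * W)
      rwa [norm_one, norm_mul, norm_tau, one_mul] at this
    linarith

/-! ### The numerator -/

lemma exp_sub_exp_le {u v : ℝ} (hu : u ≤ 1) (hv : v ≤ 1) :
    |Real.exp u - Real.exp v| ≤ Real.exp 1 * |u - v| := by
  have key : ∀ x y : ℝ, x ≤ 1 → Real.exp x - Real.exp y ≤ Real.exp 1 * |x - y| := by
    intro x y hx
    have h1 : 1 + (y - x) ≤ Real.exp (y - x) := by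
      have := Real.add_one_le_exp (y - x); linarith
    have h2 : Real.exp y = Real.exp x * Real.exp (y - x) := by
      rw [← Real.exp_add]; congr 1; ring
    have h3 : Real.exp x - Real.exp y ≤ Real.exp x * (x - y) := by
      rw [h2]
      have := mul_le_mul_of_nonneg_left h1 (Real.exp_pos x).le
      nlinarith
    have h4 : Real.exp x ≤ Real.exp 1 := Real.exp_le_exp.2 hx
    calc Real.exp x - Real.exp y ≤ Real.exp x * (x - y) := h3
      _ ≤ Real.exp x * |x - y| := mul_le_mul_of_nonneg_left (le_abs_self _) (Real.exp_pos x).le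
      _ ≤ Real.exp 1 * |x - y| := mul_le_mul_of_nonneg_right h4 (abs_nonneg _)
  rw [abs_le]
  constructor
  · have := key v u hv
    rw [abs_sub_comm v u] at this
    linarith
  · exact key u v hu

/-- The points `exp (i φ)` on the deformed torus. -/
lemma exp_tor {d : ℕ} (c0 κ ϑ : ℝ) (t : Fin d → ℝ) (m : Fin (d + 1)) :
    Complex.exp (I * tor c0 κ ϑ t m) =
      (Real.exp (-(κ * (bet c0 (full ϑ t m) - avg c0 (full ϑ t)))) : ℝ) *
        Complex.exp (I * full ϑ t m) := by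
  unfold tor
  rw [Complex.ofReal_exp, ← Complex.exp_add]
  congr 1
  have : I * (I * ((κ * (bet c0 (full ϑ t m) - avg c0 (full ϑ t)) : ℝ) : ℂ)) =
      -((κ * (bet c0 (full ϑ t m) - avg c0 (full ϑ t)) : ℝ) : ℂ) := by
    rw [← mul_assoc, Complex.I_mul_I]; ring
  rw [mul_add, this, Complex.ofReal_neg]
  ring

lemma norm_exp_I (x : ℝ) : ‖Complex.exp (I * x)‖ = 1 := by
  rw [mul_comm]; exact Complex.norm_exp_ofReal_mul_I x

lemma small_tor {c0 r κ μ C ρ ϑ : ℝ} {K : Set ℂ} (hP : KeyPkg c0 r κ μ C ρ K) {d : ℕ}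
    (hbal : ∀ t : Fin d → ℝ, ∃ a ∈ Icc (-(fe c0 - r)) (fe c0 - r), bet c0 a = avg c0 (full ϑ t))
    (t : Fin d → ℝ) (m : Fin (d + 1)) :
    |κ * (bet c0 (full ϑ t m) - avg c0 (full ϑ t))| ≤ 1 := by
  obtain ⟨a, -, hab⟩ := hbal t
  rw [← hab]
  exact hP.small _ _

/-- Lower bound for the points of the deformed torus. -/
lemma norm_exp_tor_ge {c0 r κ μ C ρ ϑ : ℝ} {K : Set ℂ} (hP : KeyPkg c0 r κ μ C ρ K) {d : ℕ}
    (hbal : ∀ t : Fin d → ℝ, ∃ a ∈ Icc (-(fe c0 - r)) (fe c0 - r), bet c0 a = avg c0 (full ϑ t))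
    (t : Fin d → ℝ) (m : Fin (d + 1)) :
    Real.exp (-1) ≤ ‖Complex.exp (I * tor c0 κ ϑ t m)‖ := by
  rw [exp_tor, norm_mul, norm_exp_I, mul_one, Complex.norm_real, Real.norm_eq_abs,
    abs_of_pos (Real.exp_pos _)]
  refine Real.exp_le_exp.2 ?_
  have := (abs_le.1 (small_tor hP hbal t m)).2
  linarith

/-- Differences of the points of the deformed torus. -/
lemma norm_exp_tor_sub {c0 r κ μ C ρ ϑ : ℝ} {K : Set ℂ} (h0 : 0 < c0) (h2 : c0 < 2)
    (hP : KeyPkg c0 r κ μ C ρ K) {d : ℕ}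
    (hbal : ∀ t : Fin d → ℝ, ∃ a ∈ Icc (-(fe c0 - r)) (fe c0 - r), bet c0 a = avg c0 (full ϑ t))
    (t : Fin d → ℝ) (m k : Fin (d + 1)) :
    ‖Complex.exp (I * tor c0 κ ϑ t m) - Complex.exp (I * tor c0 κ ϑ t k)‖ ^ 2 ≤
      (Real.exp 1 * (1 + 2 / (1 - |c0 - 1|) ^ 2)) ^ 2 * ch (full ϑ t m) (full ϑ t k) := by
  have hb := abs_lt_one h0 h2
  have hm' : 0 < 1 - |c0 - 1| := by linarith
  set L := 2 / (1 - |c0 - 1|) ^ 2 with hL
  have hLpos : 0 < L := by positivity
  set u := -(κ * (bet c0 (full ϑ t m) - avg c0 (full ϑ t))) with hu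
  set v := -(κ * (bet c0 (full ϑ t k) - avg c0 (full ϑ t))) with hv
  have hsm := abs_le.1 (small_tor hP hbal t m)
  have hsk := abs_le.1 (small_tor hP hbal t k)
  have hu1 : u ≤ 1 := by rw [hu]; linarith
  have hv1 : v ≤ 1 := by rw [hv]; linarith
  have e : Complex.exp (I * tor c0 κ ϑ t m) - Complex.exp (I * tor c0 κ ϑ t k) =
      (Real.exp u : ℝ) * (Complex.exp (I * full ϑ t m) - Complex.exp (I * full ϑ t k)) +
      ((Real.exp u - Real.exp v : ℝ) : ℂ) * Complex.exp (I * full ϑ t k) := by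
    rw [exp_tor, exp_tor, Complex.ofReal_sub]; ring
  have huv : |u - v| ≤ L * Real.sqrt (ch (full ϑ t m) (full ϑ t k)) := by
    have e1 : u - v = -(κ * (bet c0 (full ϑ t m) - bet c0 (full ϑ t k))) := by rw [hu, hv]; ring
    rw [e1, abs_neg, abs_mul, abs_of_pos hP.κ_pos]
    calc κ * |bet c0 (full ϑ t m) - bet c0 (full ϑ t k)|
        ≤ 1 * |bet c0 (full ϑ t m) - bet c0 (full ϑ t k)| :=
          mul_le_mul_of_nonneg_right hP.κ_le (abs_nonneg _)
      _ ≤ L * Real.sqrt (ch (full ϑ t m) (full ϑ t k)) := by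
          rw [one_mul]; exact bet_lip h0 h2 _ _
  have hmain : ‖Complex.exp (I * tor c0 κ ϑ t m) - Complex.exp (I * tor c0 κ ϑ t k)‖ ≤
      Real.exp 1 * (1 + L) * Real.sqrt (ch (full ϑ t m) (full ϑ t k)) := by
    rw [e]
    refine (norm_add_le _ _).trans ?_
    rw [norm_mul, norm_mul, norm_exp_I, mul_one, Complex.norm_real, Complex.norm_real,
      Real.norm_eq_abs, Real.norm_eq_abs, abs_of_pos (Real.exp_pos _), ← sqrt_ch_eq]
    have h1 : Real.exp u * Real.sqrt (ch (full ϑ t m) (full ϑ t k)) ≤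
        Real.exp 1 * Real.sqrt (ch (full ϑ t m) (full ϑ t k)) :=
      mul_le_mul_of_nonneg_right (Real.exp_le_exp.2 hu1) (Real.sqrt_nonneg _)
    have h3 : |Real.exp u - Real.exp v| ≤
        Real.exp 1 * (L * Real.sqrt (ch (full ϑ t m) (full ϑ t k))) :=
      (exp_sub_exp_le hu1 hv1).trans (mul_le_mul_of_nonneg_left huv (Real.exp_pos 1).le)
    calc Real.exp u * Real.sqrt (ch (full ϑ t m) (full ϑ t k)) + |Real.exp u - Real.exp v|
        ≤ Real.exp 1 * Real.sqrt (ch (full ϑ t m) (full ϑ t k)) +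
          Real.exp 1 * (L * Real.sqrt (ch (full ϑ t m) (full ϑ t k))) := add_le_add h1 h3
      _ = Real.exp 1 * (1 + L) * Real.sqrt (ch (full ϑ t m) (full ϑ t k)) := by ring
  calc ‖Complex.exp (I * tor c0 κ ϑ t m) - Complex.exp (I * tor c0 κ ϑ t k)‖ ^ 2
      ≤ (Real.exp 1 * (1 + L) * Real.sqrt (ch (full ϑ t m) (full ϑ t k))) ^ 2 :=
        pow_le_pow_left₀ (norm_nonneg _) hmain 2
    _ = (Real.exp 1 * (1 + L)) ^ 2 * ch (full ϑ t m) (full ϑ t k) := by
        rw [mul_pow, Real.sq_sqrt (ch_nonneg _ _)]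

/-- Bound for the numerator of the integrand. -/
lemma numer {c0 r κ μ C ρ ϑ : ℝ} {K : Set ℂ} (h0 : 0 < c0) (h2 : c0 < 2)
    (hP : KeyPkg c0 r κ μ C ρ K) (d : ℕ)
    (hbal : ∀ t : Fin d → ℝ, ∃ a ∈ Icc (-(fe c0 - r)) (fe c0 - r), bet c0 a = avg c0 (full ϑ t)) :
    ∃ B > 0, ∀ t ∈ box d, ∀ c : ℂ, ‖c - c0‖ ≤ 2 * ρ →
      ‖jac c0 κ ϑ t‖ * (‖ker om c (tor c0 κ ϑ t)‖ *
        ‖1 + tau ϑ * prodw om c (tor c0 κ ϑ t)‖) ≤ B * V2c (full ϑ t) := by
  have homK : ContinuousOn om K := fun z hz =>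
    (om_hasDerivAt (hP.K_sub hz)).continuousAt.continuousWithinAt
  obtain ⟨B1, hB1⟩ := hP.K_compact.exists_bound_of_continuousOn homK
  obtain ⟨B2, hB2⟩ := hP.K_compact.exists_bound_of_continuousOn
    (f := fun z => 2 * om z / (1 - om z ^ 2))
    ((continuousOn_const.mul homK).div (continuousOn_const.sub (homK.pow 2))
      (fun z hz => one_sub_om_sq_ne (hP.K_sub hz)))
  have hf1 : ContinuousOn (fun p : ℂ × ℂ => om p.1) (K ×ˢ K) :=
    homK.comp continuous_fst.continuousOn (fun p hp => hp.1)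
  have hf2 : ContinuousOn (fun p : ℂ × ℂ => om p.2) (K ×ˢ K) :=
    homK.comp continuous_snd.continuousOn (fun p hp => hp.2)
  obtain ⟨B3, hB3⟩ := (hP.K_compact.prod hP.K_compact).exists_bound_of_continuousOn
    (f := fun p : ℂ × ℂ => (om p.1 * om p.2) / (1 - om p.1 * om p.2) ^ 2)
    ((hf1.mul hf2).div ((continuousOn_const.sub (hf1.mul hf2)).pow 2)
      (fun p hp => pow_ne_zero 2 (one_sub_om_mul_ne (hP.K_sub hp.1) (hP.K_sub hp.2))))
  obtain ⟨B4, hB4⟩ := (isCompact_box d).exists_bound_of_continuousOn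
    (continuous_jac (d := d) h0 h2 κ ϑ).continuousOn
  have hb := abs_lt_one h0 h2
  have hm' : 0 < 1 - |c0 - 1| := by linarith
  set L1 := (Real.exp 1 * (1 + 2 / (1 - |c0 - 1|) ^ 2)) ^ 2 with hL1
  have hL1pos : 0 < L1 := by positivity
  set CH : ℝ := L1 * (|B3| + 1) * Real.exp 2 with hCH
  have hCHpos : 0 < CH := by positivity
  set Cp : ℝ := ∏ i : Fin (d + 1), ∏ _k ∈ Finset.Ioi i, CH with hCp
  have hCppos : 0 < Cp := Finset.prod_pos fun i _ => Finset.prod_pos fun k _ => hCHpos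
  refine ⟨(|B4| + 1) * (((|B2| + 1) ^ (d + 1) * Cp) * (1 + (|B1| + 1) ^ (d + 1))), by positivity, ?_⟩
  intro t ht c hc
  have hmem : ∀ m, c - Complex.cos (tor c0 κ ϑ t m) ∈ K := fun m => tor_mem hP hbal t hc m
  have hj : ‖jac c0 κ ϑ t‖ ≤ |B4| + 1 := (hB4 t ht).trans ((le_abs_self _).trans (by linarith))
  have hone : ‖1 + tau ϑ * prodw om c (tor c0 κ ϑ t)‖ ≤ 1 + (|B1| + 1) ^ (d + 1) := by
    refine (norm_add_le _ _).trans ?_
    rw [norm_one, norm_mul, norm_tau, one_mul]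
    refine add_le_add le_rfl ?_
    unfold prodw
    rw [norm_prod]
    calc ∏ i, ‖om (c - Complex.cos (tor c0 κ ϑ t i))‖ ≤ ∏ _i : Fin (d + 1), (|B1| + 1) :=
          Finset.prod_le_prod (fun i _ => norm_nonneg _) (fun i _ =>
            (hB1 _ (hmem i)).trans ((le_abs_self _).trans (by linarith)))
      _ = (|B1| + 1) ^ (d + 1) := by
          rw [Finset.prod_const, Finset.card_univ, Fintype.card_fin]
  have hdens : ‖∏ i, 2 * om (c - Complex.cos (tor c0 κ ϑ t i)) /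
      (1 - om (c - Complex.cos (tor c0 κ ϑ t i)) ^ 2)‖ ≤ (|B2| + 1) ^ (d + 1) := by
    rw [norm_prod]
    calc ∏ i, ‖2 * om (c - Complex.cos (tor c0 κ ϑ t i)) /
          (1 - om (c - Complex.cos (tor c0 κ ϑ t i)) ^ 2)‖ ≤ ∏ _i : Fin (d + 1), (|B2| + 1) :=
          Finset.prod_le_prod (fun i _ => norm_nonneg _) (fun i _ =>
            (hB2 _ (hmem i)).trans ((le_abs_self _).trans (by linarith)))
      _ = (|B2| + 1) ^ (d + 1) := by
          rw [Finset.prod_const, Finset.card_univ, Fintype.card_fin]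
  have hHH : ∀ i k, ‖HH (Complex.exp (I * tor c0 κ ϑ t i)) (om (c - Complex.cos (tor c0 κ ϑ t i)))
      (Complex.exp (I * tor c0 κ ϑ t k)) (om (c - Complex.cos (tor c0 κ ϑ t k)))‖ ≤
      CH * ch (full ϑ t i) (full ϑ t k) := by
    intro i k
    set x := Complex.exp (I * tor c0 κ ϑ t i) with hx
    set x' := Complex.exp (I * tor c0 κ ϑ t k) with hx'
    set w := om (c - Complex.cos (tor c0 κ ϑ t i)) with hw
    set w' := om (c - Complex.cos (tor c0 κ ϑ t k)) with hw'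
    have hxn : Real.exp (-1) ≤ ‖x‖ := norm_exp_tor_ge hP hbal t i
    have hxn' : Real.exp (-1) ≤ ‖x'‖ := norm_exp_tor_ge hP hbal t k
    have hdiff : ‖x - x'‖ ^ 2 ≤ L1 * ch (full ϑ t i) (full ϑ t k) :=
      norm_exp_tor_sub h0 h2 hP hbal t i k
    have hww : ‖(w * w') / (1 - w * w') ^ 2‖ ≤ |B3| + 1 :=
      (hB3 (c - Complex.cos (tor c0 κ ϑ t i), c - Complex.cos (tor c0 κ ϑ t k))
        ⟨hmem i, hmem k⟩).trans ((le_abs_self _).trans (by linarith))
    have hxx : Real.exp (-2) ≤ ‖x * x'‖ := by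
      rw [norm_mul]
      calc Real.exp (-2) = Real.exp (-1) * Real.exp (-1) := by rw [← Real.exp_add]; norm_num
        _ ≤ ‖x‖ * ‖x'‖ := mul_le_mul hxn hxn' (Real.exp_pos _).le (norm_nonneg _)
    have hinv : ‖(x * x')⁻¹‖ ≤ Real.exp 2 := by
      rw [norm_inv]
      calc ‖x * x'‖⁻¹ ≤ (Real.exp (-2))⁻¹ := inv_anti₀ (Real.exp_pos _) hxx
        _ = Real.exp 2 := by rw [Real.exp_neg, inv_inv]
    have e : HH x w x' w' = -((x - x') ^ 2 * ((w * w') / (1 - w * w') ^ 2) * (x * x')⁻¹) := by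
      unfold HH
      rw [neg_div, div_eq_mul_inv, div_eq_mul_inv, mul_inv]
      ring
    rw [e, norm_neg, norm_mul, norm_mul, norm_pow]
    calc ‖x - x'‖ ^ 2 * ‖(w * w') / (1 - w * w') ^ 2‖ * ‖(x * x')⁻¹‖
        ≤ (L1 * ch (full ϑ t i) (full ϑ t k)) * (|B3| + 1) * Real.exp 2 := by
          refine mul_le_mul (mul_le_mul hdiff hww (norm_nonneg _) ?_) hinv (norm_nonneg _) ?_
          · exact mul_nonneg hL1pos.le (ch_nonneg _ _)
          · exact mul_nonneg (mul_nonneg hL1pos.le (ch_nonneg _ _)) (by positivity)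
      _ = CH * ch (full ϑ t i) (full ϑ t k) := by rw [hCH]; ring
  have hpairs : ‖pairs (fun i => Complex.exp (I * tor c0 κ ϑ t i))
      (fun i => om (c - Complex.cos (tor c0 κ ϑ t i)))‖ ≤ Cp * V2c (full ϑ t) := by
    unfold pairs V2c
    rw [norm_prod, hCp, ← Finset.prod_mul_distrib]
    refine Finset.prod_le_prod (fun i _ => norm_nonneg _) (fun i _ => ?_)
    rw [norm_prod, ← Finset.prod_mul_distrib]
    exact Finset.prod_le_prod (fun k _ => norm_nonneg _) (fun k _ => hHH i k)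
  have hV := V2c_nonneg (full ϑ t)
  have hker : ‖ker om c (tor c0 κ ϑ t)‖ ≤ (|B2| + 1) ^ (d + 1) * (Cp * V2c (full ϑ t)) := by
    unfold ker
    rw [norm_mul]
    exact mul_le_mul hdens hpairs (norm_nonneg _) (by positivity)
  calc ‖jac c0 κ ϑ t‖ * (‖ker om c (tor c0 κ ϑ t)‖ *
        ‖1 + tau ϑ * prodw om c (tor c0 κ ϑ t)‖)
      ≤ (|B4| + 1) * (((|B2| + 1) ^ (d + 1) * (Cp * V2c (full ϑ t))) *
        (1 + (|B1| + 1) ^ (d + 1))) := by
        refine mul_le_mul hj (mul_le_mul hker hone (norm_nonneg _) ?_) (by positivity)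
          (by positivity)
        positivity
    _ = (|B4| + 1) * (((|B2| + 1) ^ (d + 1) * Cp) * (1 + (|B1| + 1) ^ (d + 1))) *
        V2c (full ϑ t) := by ring

/-! ### Differentiability -/

lemma om_diff {φ : ℂ} {c : ℂ} (h : c - Complex.cos φ ∈ ZZ) :
    DifferentiableAt ℂ (fun c => om (c - Complex.cos φ)) c := by
  have h1 := (om_hasDerivAt h).differentiableAt
  exact DifferentiableAt.comp (f := fun c => c - Complex.cos φ) c h1
    (differentiableAt_id.sub_const _)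

lemma prodw_diff {j : ℕ} {φ : Fin j → ℂ} {c : ℂ} (h : ∀ i, c - Complex.cos (φ i) ∈ ZZ) :
    DifferentiableAt ℂ (fun c => prodw om c φ) c := by
  unfold prodw
  exact DifferentiableAt.fun_finsetProd (fun i _ => om_diff (h i))

lemma ker_diff {j : ℕ} {φ : Fin j → ℂ} {c : ℂ} (h : ∀ i, c - Complex.cos (φ i) ∈ ZZ) :
    DifferentiableAt ℂ (fun c => ker om c φ) c := by
  unfold ker pairs HH
  refine DifferentiableAt.mul ?_ ?_
  · refine DifferentiableAt.fun_finsetProd (fun i _ => ?_)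
    refine DifferentiableAt.div ((om_diff (h i)).const_mul 2) ?_ (one_sub_om_sq_ne (h i))
    exact ((om_diff (h i)).pow 2).const_sub 1
  · refine DifferentiableAt.fun_finsetProd (fun i _ => ?_)
    refine DifferentiableAt.fun_finsetProd (fun k _ => ?_)
    have hmul := (om_diff (h i)).mul (om_diff (h k))
    refine DifferentiableAt.div (hmul.const_mul _).neg ?_ ?_
    · exact ((hmul.const_sub 1).pow 2).const_mul _
    · exact mul_ne_zero (mul_ne_zero (Complex.exp_ne_zero _) (Complex.exp_ne_zero _))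
        (pow_ne_zero 2 (one_sub_om_mul_ne (h i) (h k)))

end XIB

/-- NB-20: bound for the derivatives of the integrand on the deformed torus. -/
theorem XI_deriv_bound {c0 r κ μ C ρ δ0 : ℝ} {K : Set ℂ}
    (hP : KeyPkg c0 r κ μ C ρ K) (d ℓ : ℕ) {ϑ : ℝ} (hϑ : ϑ = 0 ∨ ϑ = π)
    (hbal : ∀ t : Fin d → ℝ, ∃ a ∈ Icc (-(fe c0 - r)) (fe c0 - r), bet c0 a = avg c0 (full ϑ t))
    (hD : DiagRes (d + 1) ϑ c0 δ0) :
    ∃ C1 > 0, ∃ ε1 > 0, ∀ ε ∈ Ioo (0 : ℝ) ε1, ∀ t ∈ box d,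
      ‖iteratedDeriv ℓ (fun c => XI d c0 κ ϑ c t) (c0 + ε * I)‖ ≤
        C1 * V2c (full ϑ t) / (ε + DD ϑ δ0 t) ^ (ℓ + 1) := by
  obtain ⟨h0, h2⟩ := XIB.c0_bounds hD
  have hρ := hP.ρ_pos
  obtain ⟨c1, hc1, σ, hσ, ε1, hε1, hε1ρ, hlow⟩ := XIB.lower hP d hϑ hbal hD
  obtain ⟨B, hB, hnum⟩ := XIB.numer h0 h2 hP d hbal
  refine ⟨ℓ.factorial * (B / c1) / σ ^ ℓ, by positivity, ε1, hε1, ?_⟩
  intro ε hε t ht
  obtain ⟨hσρ, hlow'⟩ := hlow ε ⟨hε.1.le, hε.2.le⟩ t ht
  have hDD := XIB.DD_nonneg ϑ δ0 t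
  have hV := XIB.V2c_nonneg (full ϑ t)
  set x := ε + DD ϑ δ0 t with hx
  have hx0 : 0 < x := by rw [hx]; linarith [hε.1]
  have hR : 0 < σ * x := by positivity
  -- points of the closed ball
  have hpt : ∀ c ∈ Metric.closedBall ((c0 : ℂ) + ε * I) (σ * x),
      ‖c - c0‖ ≤ 2 * ρ ∧ c1 * x ≤ ‖1 - tau ϑ * prodw om c (tor c0 κ ϑ t)‖ := by
    intro c hc
    have hζ : ‖c - ((c0 : ℂ) + ε * I)‖ ≤ σ * x := by
      rwa [Metric.mem_closedBall, dist_eq_norm] at hc
    have e : (c0 : ℂ) + ε * I + (c - ((c0 : ℂ) + ε * I)) = c := by ring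
    refine ⟨?_, ?_⟩
    · have e1 : c - c0 = (c - ((c0 : ℂ) + ε * I)) + ε * I := by ring
      rw [e1]
      refine (norm_add_le _ _).trans ?_
      rw [norm_mul, Complex.norm_I, mul_one, Complex.norm_real, Real.norm_eq_abs,
        abs_of_pos hε.1]
      linarith [hε.2]
    · have := hlow' (c - ((c0 : ℂ) + ε * I)) hζ
      rwa [e] at this
  have hdiff : ∀ c ∈ Metric.closedBall ((c0 : ℂ) + ε * I) (σ * x),
      DifferentiableAt ℂ (fun c => XI d c0 κ ϑ c t) c := by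
    intro c hc
    obtain ⟨h3, h4⟩ := hpt c hc
    have hmem : ∀ m, c - Complex.cos (tor c0 κ ϑ t m) ∈ ZZ := fun m =>
      hP.K_sub (XIB.tor_mem hP hbal t h3 m)
    have hne : 1 - tau ϑ * prodw om c (tor c0 κ ϑ t) ≠ 0 := by
      rw [← norm_pos_iff]
      exact lt_of_lt_of_le (by positivity) h4
    unfold XI
    have hp := XIB.prodw_diff hmem
    refine DifferentiableAt.const_mul ?_ _
    refine (XIB.ker_diff hmem).mul ?_
    exact ((hp.const_mul _).const_add 1).div ((hp.const_mul _).const_sub 1) hne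
  have hbound : ∀ c ∈ Metric.sphere ((c0 : ℂ) + ε * I) (σ * x),
      ‖XI d c0 κ ϑ c t‖ ≤ B / c1 * V2c (full ϑ t) / x := by
    intro c hc
    obtain ⟨h3, h4⟩ := hpt c (Metric.sphere_subset_closedBall hc)
    have h5 := hnum t ht c h3
    unfold XI
    rw [norm_mul, norm_mul, norm_div]
    calc ‖jac c0 κ ϑ t‖ * (‖ker om c (tor c0 κ ϑ t)‖ *
          (‖1 + tau ϑ * prodw om c (tor c0 κ ϑ t)‖ / ‖1 - tau ϑ * prodw om c (tor c0 κ ϑ t)‖))
        = (‖jac c0 κ ϑ t‖ * (‖ker om c (tor c0 κ ϑ t)‖ *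
          ‖1 + tau ϑ * prodw om c (tor c0 κ ϑ t)‖)) / ‖1 - tau ϑ * prodw om c (tor c0 κ ϑ t)‖ := by
          ring
      _ ≤ (B * V2c (full ϑ t)) / (c1 * x) :=
          div_le_div₀ (by positivity) h5 (by positivity) h4
      _ = B / c1 * V2c (full ϑ t) / x := by field_simp
  have hdc : DiffContOnCl ℂ (fun c => XI d c0 κ ϑ c t)
      (Metric.ball ((c0 : ℂ) + ε * I) (σ * x)) := by
    refine DifferentiableOn.diffContOnCl (fun c hc => ?_)
    exact (hdiff c (Metric.closure_ball_subset_closedBall hc)).differentiableWithinAt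
  have hfin := Complex.norm_iteratedDeriv_le_of_forall_mem_sphere_norm_le ℓ hR hdc hbound
  refine hfin.trans (le_of_eq ?_)
  field_simp
  ring_nf

end

end IsingNB
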