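import Pool.Agent.Helper98.NB.Deform
import Pool.Agent.Helper98.NB.Balance
import Pool.Agent.Helper98.NB.OmBasic
import Pool.Agent.Helper98.NB.WBasic

/-!
# NB-18b: the deformed torus
-/

namespace IsingNB

open Complex Set MeasureTheory Filter Topology
open scoped Real

noncomputable section

namespace Torus

/-- complex angles completed by the last one -/
def fullC {d : ℕ} (ϑ : ℝ) (φ : Fin d → ℂ) : Fin (d + 1) → ℂ :=
  Fin.snoc (α := fun _ => ℂ) φ (ϑ - ∑ i, φ i)

theorem fullC_castSucc {d : ℕ} (ϑ : ℝ) (φ : Fin d → ℂ) (i : Fin d) :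
    fullC ϑ φ i.castSucc = φ i := by
  simp [fullC]

theorem fullC_last {d : ℕ} (ϑ : ℝ) (φ : Fin d → ℂ) :
    fullC ϑ φ (Fin.last d) = ϑ - ∑ i, φ i := by
  simp [fullC]

theorem full_castSucc {d : ℕ} (ϑ : ℝ) (t : Fin d → ℝ) (i : Fin d) :
    full ϑ t i.castSucc = t i := by
  simp [full]

theorem full_last {d : ℕ} (ϑ : ℝ) (t : Fin d → ℝ) :
    full ϑ t (Fin.last d) = ϑ - ∑ i, t i := by
  simp [full]

theorem fullC_cv {d : ℕ} (ϑ : ℝ) (t : Fin d → ℝ) : fullC ϑ (cv t) = cv (full ϑ t) := by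
  funext m
  refine Fin.lastCases ?_ (fun i => ?_) m
  · rw [fullC_last, cv, full_last]
    push_cast
    rfl
  · rw [fullC_castSucc, cv, cv, full_castSucc]

/-- the deformation field -/
def ef {d : ℕ} (c0 κ ϑ : ℝ) (t : Fin d → ℝ) : Fin d → ℂ := fun i =>
  I * (κ * (bet c0 (t i) - avg c0 (full ϑ t)) : ℝ)

theorem sum_bet {d : ℕ} (c0 ϑ : ℝ) (t : Fin d → ℝ) :
    ∑ i, (bet c0 (t i) - avg c0 (full ϑ t)) =
      -(bet c0 (full ϑ t (Fin.last d)) - avg c0 (full ϑ t)) := by
  have h1 : avg c0 (full ϑ t) * (d + 1) = ∑ i, bet c0 (full ϑ t i) := by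
    rw [avg]
    push_cast
    field_simp
  rw [Fin.sum_univ_castSucc] at h1
  simp only [full_castSucc] at h1
  rw [Finset.sum_sub_distrib, Finset.sum_const, Finset.card_univ, Fintype.card_fin, nsmul_eq_mul]
  linarith

/-- the path of deformation in the coordinates of all angles -/
theorem fullC_path {d : ℕ} (c0 κ ϑ s : ℝ) (t : Fin d → ℝ) (m : Fin (d + 1)) :
    fullC ϑ (cv t + (s : ℂ) • ef c0 κ ϑ t) m =
      (full ϑ t m : ℂ) + I * ((s * κ) * (bet c0 (full ϑ t m) - avg c0 (full ϑ t)) : ℝ) := by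
  refine Fin.lastCases ?_ (fun i => ?_) m
  · rw [fullC_last]
    have h := sum_bet c0 ϑ t
    simp only [Pi.add_apply, Pi.smul_apply, smul_eq_mul, Finset.sum_add_distrib]
    have h2 : ∑ i, (s : ℂ) * ef c0 κ ϑ t i =
        I * ((s * κ) * ∑ i, (bet c0 (t i) - avg c0 (full ϑ t)) : ℝ) := by
      rw [Finset.mul_sum, Complex.ofReal_sum, Finset.mul_sum]
      apply Finset.sum_congr rfl
      intro i _
      simp only [ef]
      push_cast
      ring
    rw [h2, h, full_last]
    simp only [cv]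
    push_cast
    ring
  · rw [fullC_castSucc, full_castSucc]
    simp only [Pi.add_apply, Pi.smul_apply, smul_eq_mul, cv, ef]
    push_cast
    ring

theorem fullC_ef {d : ℕ} (c0 κ ϑ : ℝ) (t : Fin d → ℝ) :
    fullC ϑ (cv t + ef c0 κ ϑ t) = tor c0 κ ϑ t := by
  funext m
  have := fullC_path c0 κ ϑ 1 t m
  rw [Complex.ofReal_one, one_smul, one_mul] at this
  rw [this, tor]

/-- the domain of the integrand -/
def UU (d : ℕ) (ϑ : ℝ) (c : ℂ) : Set (Fin d → ℂ) :=
  {φ | ∀ m, c - Complex.cos (fullC ϑ φ m) ∈ ZZ}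

theorem analyticAt_fullC {d : ℕ} (ϑ : ℝ) (m : Fin (d + 1)) (φ : Fin d → ℂ) :
    AnalyticAt ℂ (fun φ : Fin d → ℂ => fullC ϑ φ m) φ := by
  have hp : ∀ i : Fin d, AnalyticAt ℂ (fun φ : Fin d → ℂ => φ i) φ := fun i =>
    (ContinuousLinearMap.proj (R := ℂ) (φ := fun _ : Fin d => ℂ) i).analyticAt φ
  refine Fin.lastCases ?_ (fun i => ?_) m
  · simp only [fullC_last]
    exact analyticAt_const.sub (Finset.analyticAt_fun_sum _ fun i _ => hp i)
  · simp only [fullC_castSucc]
    exact hp i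

theorem isOpen_UU (d : ℕ) (ϑ : ℝ) (c : ℂ) : IsOpen (UU d ϑ c) := by
  have : UU d ϑ c = ⋂ m, (fun φ : Fin d → ℂ => c - Complex.cos (fullC ϑ φ m)) ⁻¹' ZZ := by
    ext φ
    simp [UU]
  rw [this]
  apply isOpen_iInter_of_finite
  intro m
  apply isOpen_ZZ.preimage
  have h : Continuous (fun φ : Fin d → ℂ => fullC ϑ φ m) :=
    continuous_iff_continuousAt.mpr fun φ => (analyticAt_fullC ϑ m φ).continuousAt
  fun_prop

theorem analyticAt_om {d : ℕ} {ϑ : ℝ} {c : ℂ} {φ : Fin d → ℂ} (hφ : φ ∈ UU d ϑ c)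
    (m : Fin (d + 1)) :
    AnalyticAt ℂ (fun φ : Fin d → ℂ => om (c - Complex.cos (fullC ϑ φ m))) φ := by
  have h1 : AnalyticAt ℂ (fun φ : Fin d → ℂ => c - Complex.cos (fullC ϑ φ m)) φ := by
    apply analyticAt_const.sub
    exact AnalyticAt.fun_comp (g := Complex.cos) (f := fun φ : Fin d → ℂ => fullC ϑ φ m)
      Complex.analyticAt_cos (analyticAt_fullC ϑ m φ)
  exact AnalyticAt.fun_comp (g := om) (f := fun φ : Fin d → ℂ => c - Complex.cos (fullC ϑ φ m))
    (om_analytic _ (hφ m)) h1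

theorem analyticAt_prodw {d : ℕ} {ϑ : ℝ} {c : ℂ} {φ : Fin d → ℂ} (hφ : φ ∈ UU d ϑ c) :
    AnalyticAt ℂ (fun φ : Fin d → ℂ => prodw om c (fullC ϑ φ)) φ := by
  simp only [prodw]
  exact Finset.analyticAt_fun_prod _ fun m _ => analyticAt_om hφ m

theorem analyticAt_ker {d : ℕ} {ϑ : ℝ} {c : ℂ} {φ : Fin d → ℂ} (hφ : φ ∈ UU d ϑ c) :
    AnalyticAt ℂ (fun φ : Fin d → ℂ => ker om c (fullC ϑ φ)) φ := by
  have hom := fun m => analyticAt_om hφ m
  have hexp : ∀ m, AnalyticAt ℂ (fun φ : Fin d → ℂ => Complex.exp (I * fullC ϑ φ m)) φ :=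
    fun m => (analyticAt_const.mul (analyticAt_fullC ϑ m φ)).cexp'
  simp only [ker, pairs, HH]
  apply AnalyticAt.mul
  · apply Finset.analyticAt_fun_prod
    intro m _
    apply AnalyticAt.div
    · exact analyticAt_const.mul (hom m)
    · exact analyticAt_const.sub ((hom m).pow 2)
    · exact one_sub_om_sq_ne (hφ m)
  · apply Finset.analyticAt_fun_prod
    intro m _
    apply Finset.analyticAt_fun_prod
    intro k _
    apply AnalyticAt.div
    · exact ((((hexp m).sub (hexp k)).pow 2).mul ((hom m).mul (hom k))).neg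
    · exact ((hexp m).mul (hexp k)).mul ((analyticAt_const.sub ((hom m).mul (hom k))).pow 2)
    · apply mul_ne_zero
      · exact mul_ne_zero (Complex.exp_ne_zero _) (Complex.exp_ne_zero _)
      · exact pow_ne_zero 2 (one_sub_om_mul_ne (hφ m) (hφ k))

theorem ker_congr {j : ℕ} {f : ℂ → ℂ} {c : ℂ} {φ ψ : Fin j → ℂ}
    (h1 : ∀ m, Complex.exp (I * φ m) = Complex.exp (I * ψ m))
    (h2 : ∀ m, Complex.cos (φ m) = Complex.cos (ψ m)) : ker f c φ = ker f c ψ := by
  simp only [ker, h1, h2]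

theorem prodw_congr {j : ℕ} {f : ℂ → ℂ} {c : ℂ} {φ ψ : Fin j → ℂ}
    (h2 : ∀ m, Complex.cos (φ m) = Complex.cos (ψ m)) : prodw f c φ = prodw f c ψ := by
  simp only [prodw, h2]

theorem fullC_add_single {d : ℕ} (ϑ : ℝ) (φ : Fin d → ℂ) (i : Fin d) (m : Fin (d + 1)) :
    fullC ϑ (φ + Pi.single i (2 * π : ℂ)) m = fullC ϑ φ m ∨
      fullC ϑ (φ + Pi.single i (2 * π : ℂ)) m = fullC ϑ φ m + 2 * π ∨
      fullC ϑ (φ + Pi.single i (2 * π : ℂ)) m = fullC ϑ φ m - 2 * π := by
  refine Fin.lastCases ?_ (fun k => ?_) m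
  · right; right
    rw [fullC_last, fullC_last]
    simp only [Pi.add_apply, Finset.sum_add_distrib]
    rw [Finset.sum_pi_single']
    simp only [Finset.mem_univ, if_true]
    ring
  · rw [fullC_castSucc, fullC_castSucc, Pi.add_apply]
    by_cases h : k = i
    · subst h
      right; left
      simp
    · left
      simp [h]

theorem per_aux {x y : ℂ} (h : x = y ∨ x = y + 2 * π ∨ x = y - 2 * π) :
    Complex.exp (I * x) = Complex.exp (I * y) ∧ Complex.cos x = Complex.cos y := by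
  rcases h with h | h | h
  · rw [h]; exact ⟨rfl, rfl⟩
  · rw [h]
    refine ⟨?_, Complex.cos_add_two_pi y⟩
    have : I * (y + 2 * π) = I * y + 2 * π * I := by ring
    rw [this, Complex.exp_periodic]
  · rw [h]
    refine ⟨?_, Complex.cos_sub_two_pi y⟩
    have : I * (y - 2 * π) = I * y - 2 * π * I := by ring
    rw [this, Complex.exp_periodic.sub_eq]

/-! ### the deformation field is smooth -/

theorem den_pos {c0 : ℝ} (h0 : 0 < c0) (h2 : c0 < 2) (t : ℝ) : 0 < 1 - (c0 - 1) * Real.cos t := by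
  have h3 := Real.neg_one_le_cos t
  have h4 := Real.cos_le_one t
  have h5 : |(c0 - 1) * Real.cos t| < 1 := by
    rw [abs_mul]
    have h6 : |c0 - 1| < 1 := by
      rw [abs_lt]; constructor <;> linarith
    have h7 : |Real.cos t| ≤ 1 := Real.abs_cos_le_one t
    calc |c0 - 1| * |Real.cos t| ≤ |c0 - 1| * 1 :=
          mul_le_mul_of_nonneg_left h7 (abs_nonneg _)
      _ < 1 := by rw [mul_one]; exact h6
  have := (abs_lt.mp h5).2
  linarith

theorem bet_hasDerivAt {c0 : ℝ} (h0 : 0 < c0) (h2 : c0 < 2) (t : ℝ) :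
    HasDerivAt (bet c0) (dbet c0 t) t := by
  have hd := (den_pos h0 h2 t).ne'
  have h1 : HasDerivAt (fun t => 1 - (c0 - 1) * Real.cos t) ((c0 - 1) * Real.sin t) t := by
    have := ((Real.hasDerivAt_cos t).const_mul (c0 - 1)).const_sub 1
    refine this.congr_deriv ?_
    ring
  have h3 := (Real.hasDerivAt_sin t).div h1 hd
  refine h3.congr_deriv ?_
  rw [dbet]
  congr 1
  have := Real.sin_sq_add_cos_sq t
  linear_combination (-(c0 - 1)) * this

theorem contDiff_bet {c0 : ℝ} (h0 : 0 < c0) (h2 : c0 < 2) : ContDiff ℝ 1 (bet c0) := by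
  unfold bet
  apply ContDiff.div
  · exact Real.contDiff_sin
  · exact contDiff_const.sub (contDiff_const.mul Real.contDiff_cos)
  · intro t
    exact (den_pos h0 h2 t).ne'

theorem contDiff_full {d : ℕ} (ϑ : ℝ) (m : Fin (d + 1)) :
    ContDiff ℝ 1 (fun t : Fin d → ℝ => full ϑ t m) := by
  refine Fin.lastCases ?_ (fun k => ?_) m
  · simp only [full_last]
    apply contDiff_const.sub
    exact ContDiff.sum fun i _ => contDiff_apply ℝ ℝ i
  · simp only [full_castSucc]
    exact contDiff_apply ℝ ℝ k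

theorem contDiff_avg {d : ℕ} {c0 : ℝ} (h0 : 0 < c0) (h2 : c0 < 2) (ϑ : ℝ) :
    ContDiff ℝ 1 (fun t : Fin d → ℝ => avg c0 (full ϑ t)) := by
  unfold avg
  apply ContDiff.div_const
  exact ContDiff.sum fun i _ => (contDiff_bet h0 h2).comp (contDiff_full ϑ i)

theorem contDiff_ef {d : ℕ} {c0 : ℝ} (h0 : 0 < c0) (h2 : c0 < 2) (κ ϑ : ℝ) :
    ContDiff ℝ 1 (ef (d := d) c0 κ ϑ) := by
  rw [contDiff_pi]
  intro i
  simp only [ef]
  apply contDiff_const.mul
  apply Complex.ofRealCLM.contDiff.comp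
  exact contDiff_const.mul (((contDiff_bet h0 h2).comp (contDiff_apply ℝ ℝ i)).sub
    (contDiff_avg h0 h2 ϑ))

/-- entries of the derivative -/
theorem fderiv_ef {d : ℕ} {c0 : ℝ} (h0 : 0 < c0) (h2 : c0 < 2) (κ ϑ : ℝ) (t : Fin d → ℝ)
    (i k : Fin d) : fderiv ℝ (ef c0 κ ϑ) t (Pi.single k 1) i =
      I * (κ * ((if i = k then dbet c0 (t i) else 0) -
        (dbet c0 (t k) - dbet c0 (full ϑ t (Fin.last d))) / (d + 1)) : ℝ) := by
  have hdiff : DifferentiableAt ℝ (ef c0 κ ϑ) t :=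
    (contDiff_ef h0 h2 κ ϑ).differentiable (by norm_num) t
  -- derivative along the line
  have hline : HasDerivAt (fun s : ℝ => t + s • (Pi.single k 1 : Fin d → ℝ)) (Pi.single k 1) 0 := by
    have := ((hasDerivAt_id (0 : ℝ)).smul_const (Pi.single k 1 : Fin d → ℝ)).const_add t
    simpa using this
  have h1 : HasDerivAt (fun s : ℝ => ef c0 κ ϑ (t + s • (Pi.single k 1 : Fin d → ℝ)) i)
      (fderiv ℝ (ef c0 κ ϑ) t (Pi.single k 1) i) 0 := by
    have h3 : HasFDerivAt (ef c0 κ ϑ) (fderiv ℝ (ef c0 κ ϑ) t)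
        (t + (0 : ℝ) • (Pi.single k 1 : Fin d → ℝ)) := by
      rw [zero_smul, add_zero]
      exact hdiff.hasFDerivAt
    have h4 := h3.comp_hasDerivAt (0 : ℝ) hline
    exact (hasDerivAt_pi.mp h4) i
  -- the coordinates along the line
  have hcoord : ∀ l : Fin d, HasDerivAt (fun s : ℝ =>
      (t + s • (Pi.single k 1 : Fin d → ℝ)) l) (if l = k then 1 else 0) 0 := by
    intro l
    have := (hasDerivAt_pi.mp hline) l
    by_cases hl : l = k
    · subst hl
      simpa using this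
    · simpa [hl] using this
  have hb : ∀ l : Fin d, HasDerivAt (fun s : ℝ =>
      bet c0 ((t + s • (Pi.single k 1 : Fin d → ℝ)) l)) (if l = k then dbet c0 (t l) else 0) 0 := by
    intro l
    have h5 : HasDerivAt (bet c0) (dbet c0 (t l))
        ((t + (0 : ℝ) • (Pi.single k 1 : Fin d → ℝ)) l) := by
      rw [zero_smul, add_zero]
      exact bet_hasDerivAt h0 h2 (t l)
    have h6 := h5.comp (0 : ℝ) (hcoord l)
    refine h6.congr_deriv ?_
    by_cases hl : l = k
    · simp [hl]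
    · simp [hl]
  have hlast : HasDerivAt (fun s : ℝ =>
      bet c0 (full ϑ (t + s • (Pi.single k 1 : Fin d → ℝ)) (Fin.last d)))
      (-dbet c0 (full ϑ t (Fin.last d))) 0 := by
    have h5 : HasDerivAt (fun s : ℝ => full ϑ (t + s • (Pi.single k 1 : Fin d → ℝ)) (Fin.last d))
        (-1) 0 := by
      simp only [full_last]
      have h6 : HasDerivAt (fun s : ℝ => ∑ l, (t + s • (Pi.single k 1 : Fin d → ℝ)) l)
          (∑ l, if l = k then (1 : ℝ) else 0) 0 :=
        HasDerivAt.fun_sum fun l _ => hcoord l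
      rw [Finset.sum_ite_eq' Finset.univ k] at h6
      simp only [Finset.mem_univ, if_true] at h6
      exact h6.const_sub ϑ
    have h7 : HasDerivAt (bet c0) (dbet c0 (full ϑ t (Fin.last d)))
        (full ϑ (t + (0 : ℝ) • (Pi.single k 1 : Fin d → ℝ)) (Fin.last d)) := by
      rw [zero_smul, add_zero]
      exact bet_hasDerivAt h0 h2 _
    have h8 := h7.comp (0 : ℝ) h5
    refine h8.congr_deriv ?_
    ring
  have havg : HasDerivAt (fun s : ℝ => avg c0 (full ϑ (t + s • (Pi.single k 1 : Fin d → ℝ))))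
      ((dbet c0 (t k) - dbet c0 (full ϑ t (Fin.last d))) / (d + 1)) 0 := by
    have h5 : (fun s : ℝ => avg c0 (full ϑ (t + s • (Pi.single k 1 : Fin d → ℝ)))) =
        fun s : ℝ => ((∑ l, bet c0 ((t + s • (Pi.single k 1 : Fin d → ℝ)) l)) +
          bet c0 (full ϑ (t + s • (Pi.single k 1 : Fin d → ℝ)) (Fin.last d))) / (d + 1) := by
      funext s
      rw [avg, Fin.sum_univ_castSucc]
      simp only [full_castSucc]
      push_cast
      rfl
    rw [h5]
    have h6 := ((HasDerivAt.fun_sum (u := Finset.univ) fun l _ => hb l).add hlast).div_const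
      ((d : ℝ) + 1)
    refine h6.congr_deriv ?_
    rw [Finset.sum_ite_eq' Finset.univ k]
    simp only [Finset.mem_univ, if_true]
    ring
  have h9 : HasDerivAt (fun s : ℝ => ef c0 κ ϑ (t + s • (Pi.single k 1 : Fin d → ℝ)) i)
      (I * (κ * ((if i = k then dbet c0 (t i) else 0) -
        (dbet c0 (t k) - dbet c0 (full ϑ t (Fin.last d))) / (d + 1)) : ℝ)) 0 := by
    have h10 := ((hb i).sub havg).const_mul κ
    exact (h10.ofReal_comp).const_mul I
  exact h1.unique h9

/-- the Jacobian -/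
theorem det_eq_jac {d : ℕ} {c0 : ℝ} (h0 : 0 < c0) (h2 : c0 < 2) (κ ϑ : ℝ) (t : Fin d → ℝ) :
    Matrix.det (1 + Matrix.of fun i k => fderiv ℝ (ef c0 κ ϑ) t (Pi.single k 1) i) =
      jac c0 κ ϑ t := by
  rw [jac]
  congr 1
  ext i k
  simp only [Matrix.add_apply, Matrix.of_apply, fderiv_ef h0 h2]
  by_cases h : i = k
  · subst h
    simp only [Matrix.one_apply_eq, if_true]
    push_cast
    ring
  · simp only [Matrix.one_apply_ne h, h, if_false]
    push_cast
    ring

theorem bet_periodic (c0 : ℝ) (t : ℝ) : bet c0 (t + 2 * π) = bet c0 t ∧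
    bet c0 (t - 2 * π) = bet c0 t := by
  simp [bet, Real.sin_add_two_pi, Real.cos_add_two_pi, Real.sin_sub_two_pi, Real.cos_sub_two_pi]

theorem ef_periodic {d : ℕ} (c0 κ ϑ : ℝ) (t : Fin d → ℝ) (i : Fin d) :
    ef c0 κ ϑ (t + Pi.single i (2 * π)) = ef c0 κ ϑ t := by
  have hc : ∀ k : Fin d, bet c0 ((t + Pi.single i (2 * π) : Fin d → ℝ) k) = bet c0 (t k) := by
    intro k
    by_cases h : k = i
    · subst h
      simp [(bet_periodic c0 (t k)).1]
    · simp [h]
  have hl : bet c0 (full ϑ (t + Pi.single i (2 * π)) (Fin.last d)) =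
      bet c0 (full ϑ t (Fin.last d)) := by
    rw [full_last, full_last]
    simp only [Pi.add_apply, Finset.sum_add_distrib]
    rw [Finset.sum_pi_single']
    simp only [Finset.mem_univ, if_true]
    have : ϑ - (∑ i, t i + 2 * π) = (ϑ - ∑ i, t i) - 2 * π := by ring
    rw [this, (bet_periodic c0 _).2]
  have ha : avg c0 (full ϑ (t + Pi.single i (2 * π))) = avg c0 (full ϑ t) := by
    rw [avg, avg, Fin.sum_univ_castSucc, Fin.sum_univ_castSucc, hl]
    simp only [full_castSucc, hc]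
  funext k
  simp only [ef, ha]
  rw [hc k]

/-! ### geometric series -/

theorem geom_integral {d : ℕ} {A B : (Fin d → ℝ) → ℂ} (hA : Continuous A) (hB : Continuous B)
    {q : ℝ} (hq0 : 0 ≤ q) (hq : q < 1) (hBq : ∀ t ∈ box d, ‖B t‖ ≤ q) :
    HasSum (fun N : ℕ => ∫ t in box d, A t * B t ^ N) (∫ t in box d, A t * (1 - B t)⁻¹) := by
  have hcomp : IsCompact (box d) := isCompact_Icc
  obtain ⟨M, hM⟩ := hcomp.exists_bound_of_continuousOn hA.continuousOn
  have hfin : (volume (box d)) < ⊤ := hcomp.measure_lt_top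
  have hmeas : MeasurableSet (box d) := measurableSet_Icc
  have hint : ∀ N : ℕ, Integrable (fun t => A t * B t ^ N) (volume.restrict (box d)) := fun N =>
    ((hA.mul (hB.pow N)).continuousOn).integrableOn_compact hcomp
  have hsum : Summable fun N : ℕ => ∫ t in box d, ‖A t * B t ^ N‖ := by
    refine Summable.of_nonneg_of_le (fun N => integral_nonneg fun t => norm_nonneg _)
      (fun N => ?_) ((summable_geometric_of_lt_one hq0 hq).mul_left (M * volume.real (box d)))
    calc ∫ t in box d, ‖A t * B t ^ N‖ ≤ ∫ t in box d, M * q ^ N := by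
          apply setIntegral_mono_on (hint N).norm
            (integrableOn_const hfin.ne) hmeas
          intro t ht
          rw [norm_mul, norm_pow]
          exact mul_le_mul (hM t ht) (pow_le_pow_left₀ (norm_nonneg _) (hBq t ht) N)
            (by positivity) ((norm_nonneg _).trans (hM t ht))
      _ = M * volume.real (box d) * q ^ N := by
          rw [setIntegral_const, smul_eq_mul]
          ring
  have key := hasSum_integral_of_summable_integral_norm hint hsum
  have heq : ∫ t in box d, A t * (1 - B t)⁻¹ = ∫ t in box d, ∑' N : ℕ, A t * B t ^ N := by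
    apply setIntegral_congr_fun hmeas
    intro t ht
    have h1 : ‖B t‖ < 1 := (hBq t ht).trans_lt hq
    show A t * (1 - B t)⁻¹ = ∑' N : ℕ, A t * B t ^ N
    rw [tsum_mul_left, tsum_geometric_of_norm_lt_one h1]
  rw [heq]
  exact key

theorem integral_half {d : ℕ} {A B : (Fin d → ℝ) → ℂ} (hA : Continuous A) (hB : Continuous B)
    {q : ℝ} (hq : q < 1) (hBq : ∀ t ∈ box d, ‖B t‖ ≤ q) :
    ∫ t in box d, A t * ((1 + B t) / (1 - B t)) =
      2 * (∫ t in box d, A t * (1 - B t)⁻¹) - ∫ t in box d, A t := by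
  have hcomp : IsCompact (box d) := isCompact_Icc
  have hmeas : MeasurableSet (box d) := measurableSet_Icc
  have hne : ∀ t ∈ box d, 1 - B t ≠ 0 := by
    intro t ht h
    have h1 : B t = 1 := (sub_eq_zero.mp h).symm
    have h2 := hBq t ht
    rw [h1, norm_one] at h2
    linarith
  have hi1 : IntegrableOn (fun t => A t * (1 - B t)⁻¹) (box d) := by
    have hcont : ContinuousOn (fun t => A t * (1 - B t)⁻¹) (box d) :=
      hA.continuousOn.mul ((continuous_const.sub hB).continuousOn.inv₀ hne)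
    exact hcont.integrableOn_compact hcomp
  have hi2 : IntegrableOn A (box d) := hA.continuousOn.integrableOn_compact hcomp
  rw [← integral_const_mul, ← integral_sub (hi1.const_mul 2) hi2]
  apply setIntegral_congr_fun hmeas
  intro t ht
  have h := hne t ht
  show A t * ((1 + B t) / (1 - B t)) = 2 * (A t * (1 - B t)⁻¹) - A t
  field_simp
  ring

end Torus

open Torus

theorem chi_eq_chiD {c0 r κ μ C ρ : ℝ} {K : Set ℂ} (h0 : 0 < c0) (h2 : c0 < 2)
    (hP : KeyPkg c0 r κ μ C ρ K) (d : ℕ) {ϑ : ℝ} (_hϑ : ϑ = 0 ∨ ϑ = π)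
    (hbal : ∀ t : Fin d → ℝ, ∃ a ∈ Icc (-(fe c0 - r)) (fe c0 - r), bet c0 a = avg c0 (full ϑ t))
    {ε : ℝ} (hε : ε ∈ Ioc 0 ρ) {ζ : ℂ} (hζ : ‖ζ‖ ≤ ρ) (hζ' : C * ‖ζ‖ < μ * ε)
    (him : 0 < ((c0 : ℂ) + ε * I + ζ).im) :
    chi d ϑ (c0 + ε * I + ζ) = chiD d c0 κ ϑ (c0 + ε * I + ζ) := by
  set c : ℂ := c0 + ε * I + ζ with hc
  have hcomp : IsCompact (box d) := isCompact_Icc
  have hmeas : MeasurableSet (box d) := measurableSet_Icc
  have hcdist : ‖c - c0‖ ≤ 2 * ρ := by
    have h3 : c - c0 = ε * I + ζ := by rw [hc]; ring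
    rw [h3]
    calc ‖(ε : ℂ) * I + ζ‖ ≤ ‖(ε : ℂ) * I‖ + ‖ζ‖ := norm_add_le _ _
      _ ≤ ρ + ρ := by
          apply add_le_add _ hζ
          rw [norm_mul, Complex.norm_I, mul_one, Complex.norm_real, Real.norm_eq_abs,
            abs_of_pos hε.1]
          exact hε.2
      _ = 2 * ρ := by ring
  -- the path stays in the domain
  have hpath : ∀ s ∈ Icc (0 : ℝ) 1, ∀ t : Fin d → ℝ, cv t + (s : ℂ) • ef c0 κ ϑ t ∈ UU d ϑ c := by
    intro s hs t m
    obtain ⟨a, ha, hab⟩ := hbal t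
    rw [fullC_path, ← hab]
    exact hP.path a ha (full ϑ t m) s hs c him hcdist
  have hU0 : ∀ t : Fin d → ℝ, cv t ∈ UU d ϑ c := by
    intro t
    have := hpath 0 ⟨le_rfl, zero_le_one⟩ t
    rwa [Complex.ofReal_zero, zero_smul, add_zero] at this
  have hU1 : ∀ t : Fin d → ℝ, cv t + ef c0 κ ϑ t ∈ UU d ϑ c := by
    intro t
    have := hpath 1 ⟨zero_le_one, le_rfl⟩ t
    rwa [Complex.ofReal_one, one_smul] at this
  have hcv : Continuous (cv : (Fin d → ℝ) → (Fin d → ℂ)) := by
    apply continuous_pi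
    intro i
    exact Complex.continuous_ofReal.comp (continuous_apply i)
  have hefc : Continuous (ef (d := d) c0 κ ϑ) := (contDiff_ef h0 h2 κ ϑ).continuous
  have hker : ContinuousOn (fun φ : Fin d → ℂ => ker om c (fullC ϑ φ)) (UU d ϑ c) := fun φ hφ =>
    (analyticAt_ker hφ).continuousAt.continuousWithinAt
  have hpw : ContinuousOn (fun φ : Fin d → ℂ => prodw om c (fullC ϑ φ)) (UU d ϑ c) := fun φ hφ =>
    (analyticAt_prodw hφ).continuousAt.continuousWithinAt
  -- the functions on the two tori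
  set A1 : (Fin d → ℝ) → ℂ := fun t => ker om c (cv (full ϑ t)) with hA1
  set B1 : (Fin d → ℝ) → ℂ := fun t => tau ϑ * prodw om c (cv (full ϑ t)) with hB1
  set A2 : (Fin d → ℝ) → ℂ := fun t => jac c0 κ ϑ t * ker om c (tor c0 κ ϑ t) with hA2
  set B2 : (Fin d → ℝ) → ℂ := fun t => tau ϑ * prodw om c (tor c0 κ ϑ t) with hB2
  have hA1c : Continuous A1 := by
    have : Continuous (fun t : Fin d → ℝ => ker om c (fullC ϑ (cv t))) :=
      hker.comp_continuous hcv hU0
    simpa only [fullC_cv] using this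
  have hB1c : Continuous B1 := by
    have : Continuous (fun t : Fin d → ℝ => prodw om c (fullC ϑ (cv t))) :=
      hpw.comp_continuous hcv hU0
    simp only [fullC_cv] at this
    exact continuous_const.mul this
  have hLc : Continuous (fderiv ℝ (ef (d := d) c0 κ ϑ)) :=
    (contDiff_ef h0 h2 κ ϑ).continuous_fderiv (by norm_num)
  have hjacc : Continuous (fun t : Fin d → ℝ => jac c0 κ ϑ t) := by
    have h3 : (fun t : Fin d → ℝ => jac c0 κ ϑ t) = fun t =>
        Matrix.det (1 + Matrix.of fun i k => fderiv ℝ (ef c0 κ ϑ) t (Pi.single k 1) i) := by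
      funext t
      rw [det_eq_jac h0 h2]
    rw [h3]
    apply Continuous.matrix_det
    apply continuous_const.add
    apply continuous_matrix
    intro i k
    exact (continuous_apply i).comp (hLc.clm_apply continuous_const)
  have hA2c : Continuous A2 := by
    have : Continuous (fun t : Fin d → ℝ => ker om c (fullC ϑ (cv t + ef c0 κ ϑ t))) :=
      hker.comp_continuous (hcv.add hefc) hU1
    simp only [fullC_ef] at this
    exact hjacc.mul this
  have hB2c : Continuous B2 := by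
    have : Continuous (fun t : Fin d → ℝ => prodw om c (fullC ϑ (cv t + ef c0 κ ϑ t))) :=
      hpw.comp_continuous (hcv.add hefc) hU1
    simp only [fullC_ef] at this
    exact continuous_const.mul this
  -- bounds of the products
  have htau : ‖tau ϑ‖ = 1 := by
    rw [tau, mul_comm, Complex.norm_exp_ofReal_mul_I]
  have hbd1 : ∃ q : ℝ, 0 ≤ q ∧ q < 1 ∧ ∀ t ∈ box d, ‖B1 t‖ ≤ q := by
    have hne : (box d).Nonempty := ⟨fun _ => 0, by
      constructor
      · intro i; simp only; linarith [Real.pi_pos]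
      · intro i; simp only; linarith [Real.pi_pos]⟩
    obtain ⟨t0, ht0, hmax⟩ := hcomp.exists_isMaxOn hne hB1c.norm.continuousOn
    refine ⟨‖B1 t0‖, norm_nonneg _, ?_, fun t ht => hmax ht⟩
    rw [hB1]
    simp only
    rw [norm_mul, htau, one_mul, prodw, norm_prod]
    have h3 : ∀ m : Fin (d + 1), ‖om (c - Complex.cos (cv (full ϑ t0) m))‖ < 1 := by
      intro m
      apply norm_om_lt_one_of_im
      have h4 : (c - Complex.cos (cv (full ϑ t0) m)).im = c.im := by
        rw [cv, Complex.sub_im, ← Complex.ofReal_cos, Complex.ofReal_im, sub_zero]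
      rw [h4]
      exact him
    rw [Fin.prod_univ_castSucc]
    have h5 : ∏ i : Fin d, ‖om (c - Complex.cos (cv (full ϑ t0) i.castSucc))‖ ≤ 1 :=
      Finset.prod_le_one (fun i _ => norm_nonneg _) fun i _ => (h3 _).le
    calc _ ≤ 1 * ‖om (c - Complex.cos (cv (full ϑ t0) (Fin.last d)))‖ :=
          mul_le_mul_of_nonneg_right h5 (norm_nonneg _)
      _ < 1 := by rw [one_mul]; exact h3 _
  have hprod_ne : ∀ t : Fin d → ℝ, 0 < ‖prodw om c (tor c0 κ ϑ t)‖ := by
    intro t
    rw [norm_pos_iff, prodw, Finset.prod_ne_zero_iff]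
    intro m _
    exact om_ne_zero _
  set q2 : ℝ := Real.exp (((d : ℝ) + 1) * (C * ‖ζ‖ - μ * ε)) with hq2
  have hd1 : (0 : ℝ) < (d : ℝ) + 1 := by positivity
  have hq2lt : q2 < 1 := by
    rw [hq2, Real.exp_lt_one_iff]
    apply mul_neg_of_pos_of_neg hd1
    linarith
  have hbd2 : ∀ t : Fin d → ℝ, ‖B2 t‖ ≤ q2 := by
    intro t
    rw [hB2]
    simp only
    rw [norm_mul, htau, one_mul]
    obtain ⟨a, ha, hab⟩ := hbal t
    have h3 := log_prodw_le hP d ϑ t ha hab ⟨hε.1.le, hε.2⟩ hζ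
    have h4 : 0 ≤ ∑ i, ch (full ϑ t i) a := Finset.sum_nonneg fun i _ => by
      rw [ch]; positivity
    rw [← Real.exp_log (hprod_ne t), hq2]
    apply Real.exp_le_exp.mpr
    refine h3.trans ?_
    have h5 : 0 ≤ μ * ∑ i, ch (full ϑ t i) a := mul_nonneg hP.μ_pos.le h4
    nlinarith
  obtain ⟨q1, hq10, hq11, hq1b⟩ := hbd1
  -- equality of the terms
  have hterm : ∀ N : ℕ, ∫ t in box d, A2 t * B2 t ^ N = ∫ t in box d, A1 t * B1 t ^ N := by
    intro N
    have hF : AnalyticOnNhd ℂ (fun φ : Fin d → ℂ =>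
        ker om c (fullC ϑ φ) * (tau ϑ * prodw om c (fullC ϑ φ)) ^ N) (UU d ϑ c) := fun φ hφ =>
      (analyticAt_ker hφ).mul ((analyticAt_const.mul (analyticAt_prodw hφ)).pow N)
    have hdef := deform (UU d ϑ c) (isOpen_UU d ϑ c) _ hF (by
      intro z _ i _
      have h3 := fun m => per_aux (fullC_add_single ϑ z i m)
      rw [ker_congr (fun m => (h3 m).1) (fun m => (h3 m).2), prodw_congr (fun m => (h3 m).2)])
      (ef c0 κ ϑ) (fderiv ℝ (ef c0 κ ϑ))
      (fun t => ((contDiff_ef h0 h2 κ ϑ).differentiable (by norm_num) t).hasFDerivAt)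
      hLc (ef_periodic c0 κ ϑ) hpath
    simp only [fullC_cv, fullC_ef, det_eq_jac h0 h2] at hdef
    rw [← hdef]
    congr 1
    funext t
    rw [hA2, hB2]
    simp only
    ring
  -- summation
  have hs1 := geom_integral hA1c hB1c hq10 hq11 hq1b
  have hs2 := geom_integral hA2c hB2c (Real.exp_pos _).le hq2lt (fun t _ => hbd2 t)
  have hinv : ∫ t in box d, A2 t * (1 - B2 t)⁻¹ = ∫ t in box d, A1 t * (1 - B1 t)⁻¹ := by
    have h3 : (fun N : ℕ => ∫ t in box d, A2 t * B2 t ^ N) =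
        fun N : ℕ => ∫ t in box d, A1 t * B1 t ^ N := funext hterm
    rw [h3] at hs2
    exact hs2.unique hs1
  have hzero : ∫ t in box d, A2 t = ∫ t in box d, A1 t := by
    have := hterm 0
    simpa using this
  rw [chi, chiD]
  congr 1
  have e1 : ∫ t in box d, ker W c (cv (full ϑ t)) *
      ((1 + tau ϑ * prodw W c (cv (full ϑ t))) / (1 - tau ϑ * prodw W c (cv (full ϑ t)))) =
      ∫ t in box d, A1 t * ((1 + B1 t) / (1 - B1 t)) := by
    congr 1
    funext t
    have hw : ∀ m, W (c - Complex.cos (cv (full ϑ t) m)) = om (c - Complex.cos (cv (full ϑ t) m)) := by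
      intro m
      apply W_eq_om
      have h4 : (c - Complex.cos (cv (full ϑ t) m)).im = c.im := by
        rw [cv, Complex.sub_im, ← Complex.ofReal_cos, Complex.ofReal_im, sub_zero]
      rw [h4]
      exact him
    have hk : ker W c (cv (full ϑ t)) = A1 t := by
      rw [hA1]
      simp only [ker, hw]
    have hp : prodw W c (cv (full ϑ t)) = prodw om c (cv (full ϑ t)) := by
      simp only [prodw, hw]
    rw [hk, hp]
  have e2 : ∫ t in box d, XI d c0 κ ϑ c t = ∫ t in box d, A2 t * ((1 + B2 t) / (1 - B2 t)) := by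
    congr 1
    funext t
    rw [XI, hA2, hB2]
    simp only
    ring
  rw [e1, e2, integral_half hA1c hB1c hq11 hq1b, integral_half hA2c hB2c hq2lt (fun t _ => hbd2 t),
    hinv, hzero]

end

end IsingNB
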