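import Pool.Agent.Helper98.NB.OmBasic
import Pool.Agent.Helper98.NB.Balance
import Pool.Agent.Helper98.NB.Torus

/-!
# NB-21: derivatives of the terms of the series, as integrals over the deformed torus
-/

set_option autoImplicit false

namespace IsingNB

open Complex Set MeasureTheory Filter Topology
open scoped Real

noncomputable section

namespace XD

/-- Iterated derivatives under the integral sign. -/
theorem iteratedDeriv_integral {X : Type*} [MeasurableSpace X] (ν : Measure X) [IsFiniteMeasure ν]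
    (ℓ : ℕ) : ∀ (f : ℂ → X → ℂ) (z : ℂ) (δ M : ℝ), 0 < δ →
      (∀ c ∈ Metric.ball z δ, AEStronglyMeasurable (f c) ν) →
      (∀ᵐ t ∂ν, DifferentiableOn ℂ (fun c => f c t) (Metric.ball z δ)) →
      (∀ᵐ t ∂ν, ∀ c ∈ Metric.ball z δ, ‖f c t‖ ≤ M) →
      iteratedDeriv ℓ (fun c => ∫ t, f c t ∂ν) z =
        ∫ t, iteratedDeriv ℓ (fun c => f c t) z ∂ν := by
  induction ℓ with
  | zero => intro f z δ M _ _ _ _; simp
  | succ ℓ ih =>
    intro f z δ M hδ hm hd hb
    have hsub : ∀ c ∈ Metric.ball z (δ / 2), Metric.closedBall c (δ / 4) ⊆ Metric.ball z δ := by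
      intro c hc x hx
      rw [Metric.mem_ball] at hc ⊢
      rw [Metric.mem_closedBall] at hx
      have := dist_triangle x c z
      linarith
    have hbd : ∀ᵐ t ∂ν, ∀ c ∈ Metric.ball z (δ / 2), ‖deriv (fun c => f c t) c‖ ≤ M / (δ / 4) := by
      filter_upwards [hd, hb] with t h1 h2 c hc
      refine norm_deriv_le_of_forall_mem_sphere_norm_le (by positivity)
        (h1.diffContOnCl_ball (hsub c hc)) fun x hx => ?_
      exact h2 x (hsub c hc (Metric.sphere_subset_closedBall hx))
    have hder : ∀ᵐ t ∂ν, ∀ c ∈ Metric.ball z (δ / 2),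
        HasDerivAt (fun c => f c t) (deriv (fun c => f c t) c) c := by
      filter_upwards [hd] with t h1 c hc
      refine (h1.differentiableAt ?_).hasDerivAt
      exact Metric.isOpen_ball.mem_nhds (Metric.ball_subset_ball (by linarith) hc)
    have hmeas : ∀ c ∈ Metric.ball z (δ / 2),
        AEStronglyMeasurable (fun t => deriv (fun c => f c t) c) ν := by
      intro c hc
      have hh : ∀ n : ℕ, 0 < δ / 2 / (n + 1) ∧ δ / 2 / (n + 1) ≤ δ / 2 := by
        intro n
        refine ⟨by positivity, ?_⟩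
        rw [div_le_iff₀ (by positivity)]
        have : (0 : ℝ) ≤ δ / 2 * n := by positivity
        linarith
      have hlim : Tendsto (fun n : ℕ => ((δ / 2 / (n + 1) : ℝ) : ℂ)) atTop (𝓝[≠] 0) := by
        rw [tendsto_nhdsWithin_iff]
        refine ⟨?_, Eventually.of_forall fun n => ?_⟩
        · have h1 : Tendsto (fun n : ℕ => (δ / 2) * (1 / ((n : ℝ) + 1))) atTop (𝓝 (δ / 2 * 0)) :=
            tendsto_one_div_add_atTop_nhds_zero_nat.const_mul _
          rw [mul_zero] at h1
          have h2 := (Complex.continuous_ofReal.tendsto 0).comp h1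
          rw [Complex.ofReal_zero] at h2
          refine h2.congr fun n => ?_
          simp only [Function.comp_apply]
          congr 1
          ring
        · exact Complex.ofReal_ne_zero.2 (hh n).1.ne'
      refine aestronglyMeasurable_of_tendsto_ae (atTop : Filter ℕ)
        (f := fun n t => ((δ / 2 / (n + 1) : ℝ) : ℂ)⁻¹ •
          (f (c + ((δ / 2 / (n + 1) : ℝ) : ℂ)) t - f c t)) (fun n => ?_) ?_
      · refine AEStronglyMeasurable.fun_const_smul ((hm _ ?_).fun_sub (hm c ?_)) _
        · rw [Metric.mem_ball] at hc ⊢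
          have h1 := dist_triangle (c + ((δ / 2 / (n + 1) : ℝ) : ℂ)) c z
          have h2 : dist (c + ((δ / 2 / (n + 1) : ℝ) : ℂ)) c ≤ δ / 2 := by
            rw [dist_self_add_left, Complex.norm_real, Real.norm_of_nonneg (hh n).1.le]
            exact (hh n).2
          linarith
        · exact Metric.ball_subset_ball (by linarith) hc
      · filter_upwards [hder] with t ht
        exact (ht c hc).tendsto_slope_zero.comp hlim
    have key : ∀ c ∈ Metric.ball z (δ / 2), HasDerivAt (fun c => ∫ t, f c t ∂ν)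
        (∫ t, deriv (fun c => f c t) c ∂ν) c := by
      intro c hc
      have hs : Metric.ball z (δ / 2) ∈ 𝓝 c := Metric.isOpen_ball.mem_nhds hc
      refine (hasDerivAt_integral_of_dominated_loc_of_deriv_le (s := Metric.ball z (δ / 2))
        (F := f) (F' := fun c t => deriv (fun c => f c t) c) (bound := fun _ => M / (δ / 4))
        hs ?_ ?_ (hmeas c hc) hbd (integrable_const _) hder).2
      · filter_upwards [hs] with x hx
        exact hm x (Metric.ball_subset_ball (by linarith) hx)
      · refine Integrable.of_bound (hm c (Metric.ball_subset_ball (by linarith) hc)) M ?_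
        filter_upwards [hb] with t ht
        exact ht c (Metric.ball_subset_ball (by linarith) hc)
    have hev : deriv (fun c => ∫ t, f c t ∂ν) =ᶠ[𝓝 z]
        fun c => ∫ t, deriv (fun c => f c t) c ∂ν := by
      filter_upwards [Metric.ball_mem_nhds z (half_pos hδ)] with c hc
      exact (key c hc).deriv
    rw [iteratedDeriv_succ', hev.iteratedDeriv_eq ℓ,
      ih (fun c t => deriv (fun c => f c t) c) z (δ / 2) (M / (δ / 4)) (half_pos hδ) hmeas ?_ hbd]
    · refine integral_congr_ae (Eventually.of_forall fun t => ?_)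
      simp only [iteratedDeriv_succ']
    · filter_upwards [hd] with t ht
      exact (ht.mono (Metric.ball_subset_ball (by linarith))).deriv Metric.isOpen_ball

theorem full_cont {d : ℕ} (ϑ : ℝ) (m : Fin (d + 1)) :
    Continuous fun t : Fin d → ℝ => full ϑ t m := by
  refine Fin.lastCases ?_ (fun i => ?_) m
  · simp only [full, Fin.snoc_last]
    fun_prop
  · simp only [full, Fin.snoc_castSucc]
    fun_prop

theorem den_ne {c0 : ℝ} (h0 : 0 < c0) (h2 : c0 < 2) (t : ℝ) : 1 - (c0 - 1) * Real.cos t ≠ 0 := by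
  have h3 := Real.neg_one_le_cos t
  have h4 := Real.cos_le_one t
  rcases le_or_gt 0 (c0 - 1) with h | h
  · have : (c0 - 1) * Real.cos t ≤ (c0 - 1) * 1 := mul_le_mul_of_nonneg_left h4 h
    have : 0 < 1 - (c0 - 1) * Real.cos t := by linarith
    exact this.ne'
  · have : (c0 - 1) * Real.cos t ≤ (c0 - 1) * (-1) := mul_le_mul_of_nonpos_left h3 h.le
    have : 0 < 1 - (c0 - 1) * Real.cos t := by linarith
    exact this.ne'

theorem bet_cont {c0 : ℝ} (h0 : 0 < c0) (h2 : c0 < 2) : Continuous (bet c0) := by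
  unfold bet
  exact Continuous.div (by fun_prop) (by fun_prop) (den_ne h0 h2)

theorem dbet_cont {c0 : ℝ} (h0 : 0 < c0) (h2 : c0 < 2) : Continuous (dbet c0) := by
  unfold dbet
  exact Continuous.div (by fun_prop) (by fun_prop) fun t => pow_ne_zero 2 (den_ne h0 h2 t)

theorem avg_cont {c0 : ℝ} (h0 : 0 < c0) (h2 : c0 < 2) (d : ℕ) (ϑ : ℝ) :
    Continuous fun t : Fin d → ℝ => avg c0 (full ϑ t) := by
  unfold avg
  refine Continuous.div_const (continuous_finsetSum _ fun i _ => ?_) _
  exact (bet_cont h0 h2).comp (full_cont ϑ i)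

theorem tor_cont {c0 : ℝ} (h0 : 0 < c0) (h2 : c0 < 2) (κ : ℝ) (d : ℕ) (ϑ : ℝ) (m : Fin (d + 1)) :
    Continuous fun t : Fin d → ℝ => tor c0 κ ϑ t m := by
  unfold tor
  have h1 := full_cont (d := d) ϑ m
  have h3 := (bet_cont h0 h2).comp h1
  have h4 := avg_cont h0 h2 d ϑ
  have h5 : Continuous fun t : Fin d → ℝ =>
    κ * (bet c0 (full ϑ t m) - avg c0 (full ϑ t)) := continuous_const.mul (h3.sub h4)
  exact (Complex.continuous_ofReal.comp h1).add
    (continuous_const.mul (Complex.continuous_ofReal.comp h5))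

theorem jac_cont {c0 : ℝ} (h0 : 0 < c0) (h2 : c0 < 2) (κ : ℝ) (d : ℕ) (ϑ : ℝ) :
    Continuous fun t : Fin d → ℝ => jac c0 κ ϑ t := by
  unfold jac
  refine Continuous.matrix_det ?_
  refine continuous_matrix fun m k => ?_
  simp only [Matrix.of_apply]
  have h1 := (dbet_cont h0 h2).comp (continuous_apply (A := fun _ : Fin d => ℝ) m)
  have h1' := (dbet_cont h0 h2).comp (continuous_apply (A := fun _ : Fin d => ℝ) k)
  have h3 := (dbet_cont h0 h2).comp (full_cont (d := d) ϑ (Fin.last d))
  refine Continuous.sub ?_ ?_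
  · by_cases hmk : m = k
    · simp only [if_pos hmk]
      exact continuous_const.add (continuous_const.mul
        (Complex.continuous_ofReal.comp (continuous_const.mul h1)))
    · simp only [if_neg hmk]
      exact continuous_const
  · exact continuous_const.mul (Complex.continuous_ofReal.comp
      (continuous_const.mul ((h1'.sub h3).div_const _)))

/-- The point of the contour lies in the domain. -/
theorem arg_mem {c0 r κ μ C ρ : ℝ} {K : Set ℂ} (hP : KeyPkg c0 r κ μ C ρ K) {d : ℕ} {ϑ : ℝ}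
    (hbal : ∀ t : Fin d → ℝ, ∃ a ∈ Icc (-(fe c0 - r)) (fe c0 - r), bet c0 a = avg c0 (full ϑ t))
    {c : ℂ} (hc : ‖c - c0‖ ≤ 2 * ρ) (t : Fin d → ℝ) (m : Fin (d + 1)) :
    c - Complex.cos (tor c0 κ ϑ t m) ∈ ZZ := by
  obtain ⟨a, ha, hab⟩ := hbal t
  have h := hP.K_sub (hP.mem a ha (full ϑ t m) c hc)
  have h1 : tor c0 κ ϑ t m = lam c0 κ a (full ϑ t m) := by
    unfold tor lam
    rw [hab]
  rw [h1]
  exact h

theorem norm_tau (ϑ : ℝ) : ‖tau ϑ‖ = 1 := by
  unfold tau
  rw [mul_comm]
  exact Complex.norm_exp_ofReal_mul_I ϑ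

theorem prodw_ne_zero {d : ℕ} (c : ℂ) (φ : Fin d → ℂ) : prodw om c φ ≠ 0 :=
  Finset.prod_ne_zero_iff.2 fun _ _ => om_ne_zero _

theorem den_prod_ne {c0 r κ μ C ρ : ℝ} {K : Set ℂ} (hP : KeyPkg c0 r κ μ C ρ K) {d : ℕ} {ϑ : ℝ}
    (hbal : ∀ t : Fin d → ℝ, ∃ a ∈ Icc (-(fe c0 - r)) (fe c0 - r), bet c0 a = avg c0 (full ϑ t))
    {ε : ℝ} (hε : ε ∈ Ioo 0 ρ) {ζ : ℂ} (hζ : ‖ζ‖ ≤ ρ) (hζ' : C * ‖ζ‖ < μ * ε) (t : Fin d → ℝ) :
    1 - tau ϑ * prodw om (c0 + ε * I + ζ) (tor c0 κ ϑ t) ≠ 0 := by
  obtain ⟨a, ha, hab⟩ := hbal t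
  have h := log_prodw_le hP d ϑ t ha hab ⟨hε.1.le, hε.2.le⟩ hζ
  have h1 : 0 ≤ ∑ i, ch (full ϑ t i) a := Finset.sum_nonneg fun i _ => by
    unfold ch
    positivity
  have h2 : Real.log ‖prodw om (c0 + ε * I + ζ) (tor c0 κ ϑ t)‖ < 0 := by
    refine lt_of_le_of_lt h ?_
    have h3 : 0 ≤ μ * ∑ i, ch (full ϑ t i) a := mul_nonneg hP.μ_pos.le h1
    have h4 : (0 : ℝ) < d + 1 := by positivity
    have h5 : (d + 1) * (C * ‖ζ‖) < (d + 1) * (μ * ε) := mul_lt_mul_of_pos_left hζ' h4
    linarith
  have h3 : ‖prodw om (c0 + ε * I + ζ) (tor c0 κ ϑ t)‖ < 1 :=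
    (Real.log_neg_iff (norm_pos_iff.2 (prodw_ne_zero _ _))).1 h2
  intro h4
  have h5 : tau ϑ * prodw om (c0 + ε * I + ζ) (tor c0 κ ϑ t) = 1 := (sub_eq_zero.1 h4).symm
  have h6 := congrArg norm h5
  rw [norm_mul, norm_tau, one_mul, norm_one] at h6
  exact absurd h6 h3.ne

end XD

open XD in
theorem chi_deriv_eq {c0 r κ μ C ρ : ℝ} {K : Set ℂ} (h0 : 0 < c0) (h2 : c0 < 2)
    (hP : KeyPkg c0 r κ μ C ρ K) (d ℓ : ℕ) {ϑ : ℝ} (hϑ : ϑ = 0 ∨ ϑ = π)
    (hbal : ∀ t : Fin d → ℝ, ∃ a ∈ Icc (-(fe c0 - r)) (fe c0 - r), bet c0 a = avg c0 (full ϑ t))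
    {ε : ℝ} (hε : ε ∈ Ioo 0 ρ) :
    iteratedDeriv ℓ (chi d ϑ) (c0 + ε * I) =
      (1 / ((d + 1).factorial : ℂ)) * (1 / (2 * π)) ^ d *
        ∫ t in box d, iteratedDeriv ℓ (fun c => XI d c0 κ ϑ c t) (c0 + ε * I) := by
  set z0 : ℂ := c0 + ε * I with hz0
  have hC := hP.C_pos
  have hμ := hP.μ_pos
  have hρ := hP.ρ_pos
  have hε0 := hε.1
  set δ : ℝ := min ρ (min (μ * ε / (2 * C)) (ε / 2)) with hδ
  have hδ0 : 0 < δ := lt_min hρ (lt_min (by positivity) (by positivity))
  have hδ1 : δ ≤ ρ := min_le_left _ _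
  have hδ2 : δ ≤ μ * ε / (2 * C) := (min_le_right _ _).trans (min_le_left _ _)
  have hδ3 : δ ≤ ε / 2 := (min_le_right _ _).trans (min_le_right _ _)
  have hζ : ∀ c ∈ Metric.closedBall z0 δ, ‖c - z0‖ ≤ ρ ∧ C * ‖c - z0‖ < μ * ε ∧
      ‖c - c0‖ ≤ 2 * ρ ∧ 0 < c.im := by
    intro c hc
    rw [Metric.mem_closedBall, dist_eq_norm] at hc
    refine ⟨hc.trans hδ1, ?_, ?_, ?_⟩
    · have h3 : C * ‖c - z0‖ ≤ C * (μ * ε / (2 * C)) :=
        mul_le_mul_of_nonneg_left (hc.trans hδ2) hC.le
      have h4 : C * (μ * ε / (2 * C)) = μ * ε / 2 := by field_simp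
      have h5 : 0 < μ * ε := by positivity
      linarith
    · have h3 : c - c0 = (c - z0) + ε * I := by rw [hz0]; ring
      rw [h3]
      refine (norm_add_le _ _).trans ?_
      have h4 : ‖(ε : ℂ) * I‖ = ε := by
        rw [norm_mul, Complex.norm_I, mul_one, Complex.norm_real, Real.norm_of_nonneg hε0.le]
      rw [h4]
      linarith [hε.2]
    · have h3 : (c - z0).im = c.im - ε := by rw [hz0]; simp
      have h4 := Complex.abs_im_le_norm (c - z0)
      rw [h3] at h4
      have h5 := (abs_le.1 (h4.trans (hc.trans hδ3))).1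
      linarith
  -- properties of the roots
  have harg : ∀ c ∈ Metric.closedBall z0 δ, ∀ (t : Fin d → ℝ) (m : Fin (d + 1)),
      c - Complex.cos (tor c0 κ ϑ t m) ∈ ZZ := fun c hc t m => arg_mem hP hbal (hζ c hc).2.2.1 t m
  have hden : ∀ c ∈ Metric.closedBall z0 δ, ∀ t : Fin d → ℝ,
      1 - tau ϑ * prodw om c (tor c0 κ ϑ t) ≠ 0 := by
    intro c hc t
    have h3 := den_prod_ne hP hbal hε (hζ c hc).1 (hζ c hc).2.1 t
    rwa [← hz0, add_sub_cancel] at h3
  -- continuity
  have hom : ∀ m : Fin (d + 1), ContinuousOn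
      (fun p : ℂ × (Fin d → ℝ) => om (p.1 - Complex.cos (tor c0 κ ϑ p.2 m)))
      (Metric.closedBall z0 δ ×ˢ univ) := by
    intro m
    refine om_analytic.continuousOn.comp ?_ fun p hp => harg p.1 hp.1 p.2 m
    exact (continuous_fst.sub (Complex.continuous_cos.comp
      ((tor_cont h0 h2 κ d ϑ m).comp continuous_snd))).continuousOn
  have hcont : ContinuousOn (fun p : ℂ × (Fin d → ℝ) => XI d c0 κ ϑ p.1 p.2)
      (Metric.closedBall z0 δ ×ˢ univ) := by
    have htor : ∀ m : Fin (d + 1), Continuous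
        (fun p : ℂ × (Fin d → ℝ) => Complex.exp (I * tor c0 κ ϑ p.2 m)) := fun m =>
      Complex.continuous_exp.comp (continuous_const.mul
        ((tor_cont h0 h2 κ d ϑ m).comp continuous_snd))
    have hpw : ContinuousOn (fun p : ℂ × (Fin d → ℝ) => prodw om p.1 (tor c0 κ ϑ p.2))
        (Metric.closedBall z0 δ ×ˢ univ) := by
      unfold prodw
      exact continuousOn_finsetProd _ fun m _ => hom m
    unfold XI
    refine ((jac_cont h0 h2 κ d ϑ).comp continuous_snd).continuousOn.mul
      (ContinuousOn.mul ?_ (ContinuousOn.div ?_ ?_ fun p hp => hden p.1 hp.1 p.2))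
    · unfold ker pairs HH
      refine ContinuousOn.mul (continuousOn_finsetProd _ fun m _ => ?_)
        (continuousOn_finsetProd _ fun m _ => continuousOn_finsetProd _ fun k _ => ?_)
      · exact ContinuousOn.div (continuousOn_const.mul (hom m))
          (continuousOn_const.sub ((hom m).pow 2)) fun p hp =>
            one_sub_om_sq_ne (harg p.1 hp.1 p.2 m)
      · refine ContinuousOn.div ?_ ?_ ?_
        · exact (((((htor m).sub (htor k)).pow 2).continuousOn).mul ((hom m).mul (hom k))).neg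
        · exact ((htor m).mul (htor k)).continuousOn.mul
            ((continuousOn_const.sub ((hom m).mul (hom k))).pow 2)
        · intro p hp
          exact mul_ne_zero (mul_ne_zero (Complex.exp_ne_zero _) (Complex.exp_ne_zero _))
            (pow_ne_zero 2 (one_sub_om_mul_ne (harg p.1 hp.1 p.2 m) (harg p.1 hp.1 p.2 k)))
    · exact continuousOn_const.add (continuousOn_const.mul hpw)
    · exact continuousOn_const.sub (continuousOn_const.mul hpw)
  -- differentiability
  have hdiff : ∀ t : Fin d → ℝ, DifferentiableOn ℂ (fun c => XI d c0 κ ϑ c t)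
      (Metric.ball z0 δ) := by
    intro t
    have hb : ∀ c ∈ Metric.ball z0 δ, c ∈ Metric.closedBall z0 δ :=
      fun c hc => Metric.ball_subset_closedBall hc
    have homd : ∀ m : Fin (d + 1), DifferentiableOn ℂ
        (fun c : ℂ => om (c - Complex.cos (tor c0 κ ϑ t m))) (Metric.ball z0 δ) := by
      intro m
      refine om_analytic.differentiableOn.comp (by fun_prop) fun c hc => harg c (hb c hc) t m
    have hpw : DifferentiableOn ℂ (fun c : ℂ => prodw om c (tor c0 κ ϑ t))
        (Metric.ball z0 δ) := by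
      unfold prodw
      exact DifferentiableOn.fun_finsetProd fun m _ => homd m
    unfold XI
    refine (differentiableOn_const _).mul
      (DifferentiableOn.mul ?_ (DifferentiableOn.div ?_ ?_ fun c hc => hden c (hb c hc) t))
    · unfold ker pairs HH
      refine DifferentiableOn.mul (DifferentiableOn.fun_finsetProd fun m _ => ?_)
        (DifferentiableOn.fun_finsetProd fun m _ => DifferentiableOn.fun_finsetProd fun k _ => ?_)
      · exact DifferentiableOn.div ((differentiableOn_const _).mul (homd m))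
          ((differentiableOn_const _).sub ((homd m).pow 2)) fun c hc =>
            one_sub_om_sq_ne (harg c (hb c hc) t m)
      · refine DifferentiableOn.div ?_ ?_ ?_
        · exact ((differentiableOn_const _).mul ((homd m).mul (homd k))).neg
        · exact (differentiableOn_const _).mul
            (((differentiableOn_const _).sub ((homd m).mul (homd k))).pow 2)
        · intro c hc
          exact mul_ne_zero (mul_ne_zero (Complex.exp_ne_zero _) (Complex.exp_ne_zero _))
            (pow_ne_zero 2 (one_sub_om_mul_ne (harg c (hb c hc) t m) (harg c (hb c hc) t k)))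
    · exact (differentiableOn_const _).add ((differentiableOn_const _).mul hpw)
    · exact (differentiableOn_const _).sub ((differentiableOn_const _).mul hpw)
  -- the bound
  have hbc : IsCompact (box d) := isCompact_Icc
  obtain ⟨M, hM⟩ := (((isCompact_closedBall z0 δ).prod hbc).exists_bound_of_continuousOn
    (hcont.mono (Set.prod_mono subset_rfl (subset_univ _))))
  have hfin : IsFiniteMeasure (volume.restrict (box d)) :=
    ⟨by rw [Measure.restrict_apply_univ]; exact hbc.measure_lt_top⟩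
  have hev : chi d ϑ =ᶠ[𝓝 z0] chiD d c0 κ ϑ := by
    filter_upwards [Metric.closedBall_mem_nhds z0 hδ0] with c hc
    obtain ⟨h3, h4, -, h5⟩ := hζ c hc
    have h6 : z0 + (c - z0) = c := by ring
    have h7 := chi_eq_chiD h0 h2 hP d hϑ hbal (ε := ε) ⟨hε.1, hε.2.le⟩ (ζ := c - z0) h3 h4
      (by rw [← hz0, h6]; exact h5)
    rwa [← hz0, h6] at h7
  rw [hev.iteratedDeriv_eq ℓ]
  unfold chiD
  rw [iteratedDeriv_const_mul_field]
  congr 1
  refine iteratedDeriv_integral (volume.restrict (box d)) ℓ (fun c t => XI d c0 κ ϑ c t) z0 δ M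
    hδ0 ?_ (Eventually.of_forall hdiff) ?_
  · intro c hc
    have h3 : ContinuousOn (fun t : Fin d → ℝ => XI d c0 κ ϑ c t) (box d) := by
      refine (hcont.comp (f := fun t : Fin d → ℝ => (c, t)) (by fun_prop) ?_)
      intro t _
      exact ⟨Metric.ball_subset_closedBall hc, mem_univ _⟩
    exact h3.aestronglyMeasurable measurableSet_Icc
  · filter_upwards [ae_restrict_mem measurableSet_Icc] with t ht c hc
    exact hM (c, t) ⟨Metric.ball_subset_closedBall hc, ht⟩

end

end IsingNB
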