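import Pool.Agent.Helper98.NB.OmBasic

/-!
# NB-22: the limit of the scaled derivatives of the resonant integrand
-/

namespace IsingNB

open Complex Set MeasureTheory Filter Topology Asymptotics
open scoped Real

noncomputable section

/-- iterated derivatives and affine changes of the variable -/
private theorem itd_affine (f : ℂ → ℂ) (a e b : ℂ) (n : ℕ) :
    iteratedDeriv n (fun u => a * f (b + e * u)) =
      fun u => a * e ^ n * iteratedDeriv n f (b + e * u) := by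
  induction n with
  | zero => simp
  | succ n ih =>
    rw [iteratedDeriv_succ, ih]
    funext u
    rw [deriv_const_mul_field, iteratedDeriv_succ]
    have h1 := deriv_comp_mul_left e (fun v => iteratedDeriv n f (b + v)) u
    have h2 := deriv_comp_const_add (iteratedDeriv n f) b (e * u)
    rw [h2, smul_eq_mul] at h1
    rw [h1]
    ring

private theorem itd_inv (a α β : ℂ) (n : ℕ) (u : ℂ) :
    iteratedDeriv n (fun u => a * (α * u + β)⁻¹) u =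
      a * ((-1) ^ n * n.factorial * α ^ n) / (α * u + β) ^ (n + 1) := by
  have h1 := itd_affine (fun v => (α * v + β)⁻¹) a 1 0 n
  simp only [zero_add, one_mul, one_pow, mul_one] at h1
  rw [h1, iteratedDeriv_eq_iterate, iter_deriv_inv_linear]
  simp only
  have h2 : (α * u + β) ^ (-1 - (n : ℤ)) = ((α * u + β) ^ (n + 1))⁻¹ := by
    rw [show (-1 - (n : ℤ)) = -((n + 1 : ℕ) : ℤ) by push_cast; ring, zpow_neg, zpow_natCast]
  rw [h2]
  ring

/-- convergence of derivatives -/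
private theorem tendsto_itd {F : ℝ → ℂ → ℂ} {G : ℂ → ℂ} {U : Set ℂ} (hU : IsOpen U)
    {l : Filter ℝ}
    (h1 : ∀ u0 ∈ U, Tendsto (fun q : ℝ × ℂ => F q.1 q.2) (l ×ˢ 𝓝 u0) (𝓝 (G u0)))
    (hG : ContinuousOn G U)
    (h2 : ∀ u0 ∈ U, ∀ᶠ q : ℝ × ℂ in l ×ˢ 𝓝 u0, DifferentiableAt ℂ (F q.1) q.2) (n : ℕ)
    {u0 : ℂ} (hu0 : u0 ∈ U) :
    Tendsto (fun ε => iteratedDeriv n (F ε) u0) l (𝓝 (iteratedDeriv n G u0)) := by
  obtain ⟨η, hη, hηU⟩ := Metric.isOpen_iff.mp hU u0 hu0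
  set K := Metric.closedBall u0 (η / 2) with hK
  have hKU : K ⊆ U := (Metric.closedBall_subset_ball (by linarith)).trans hηU
  have hKc : IsCompact K := isCompact_closedBall _ _
  set B := Metric.ball u0 (η / 2) with hB
  have hBK : B ⊆ K := Metric.ball_subset_closedBall
  have hBo : IsOpen B := Metric.isOpen_ball
  have hd : ∀ᶠ ε in l, DifferentiableOn ℂ (F ε) B := by
    have h3 : {q : ℝ × ℂ | DifferentiableAt ℂ (F q.1) q.2} ∈ l ×ˢ 𝓝ˢ K :=
      hKc.mem_prod_nhdsSet_of_forall fun y hy => h2 y (hKU hy)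
    have h4 : ∀ᶠ q : ℝ × ℂ in l ×ˢ 𝓝ˢ K, DifferentiableAt ℂ (F q.1) q.2 := h3
    have h5 := h4.curry
    filter_upwards [h5] with ε hε
    intro u hu
    exact (hε.self_of_nhdsSet u (hBK hu)).differentiableWithinAt
  have hl : TendstoLocallyUniformlyOn F G l B := by
    rw [hBo.tendstoLocallyUniformlyOn_iff_forall_tendsto]
    intro x hx
    have hxU : x ∈ U := hKU (hBK hx)
    have h3 : Tendsto (fun q : ℝ × ℂ => G q.2) (l ×ˢ 𝓝 x) (𝓝 (G x)) :=
      (hG.continuousAt (hU.mem_nhds hxU)).tendsto.comp tendsto_snd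
    have h4 := h3.prodMk_nhds (h1 x hxU)
    exact h4.trans (by rw [nhds_prod_eq] at *; exact (nhds_prod_eq (x := G x) (y := G x)) ▸
      (nhds_le_uniformity (G x)))
  have hall : ∀ n, TendstoLocallyUniformlyOn (fun ε => iteratedDeriv n (F ε)) (iteratedDeriv n G)
      l B ∧ ∀ᶠ ε in l, DifferentiableOn ℂ (iteratedDeriv n (F ε)) B := by
    intro n
    induction n with
    | zero => exact ⟨by simpa using hl, by simpa using hd⟩
    | succ n ih =>
      refine ⟨?_, ?_⟩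
      · have h3 := ih.1.deriv ih.2 hBo
        have e1 : (deriv ∘ fun ε => iteratedDeriv n (F ε)) = fun ε => iteratedDeriv (n + 1) (F ε) := by
          funext ε
          rw [iteratedDeriv_succ]
          rfl
        rw [e1, ← iteratedDeriv_succ] at h3
        exact h3
      · filter_upwards [ih.2] with ε hε
        rw [iteratedDeriv_succ]
        exact hε.deriv hBo
  exact (hall n).1.tendsto_at (Metric.mem_ball_self (by linarith))

/-- second order Taylor expansion -/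
private theorem taylor2 {f f' : ℂ → ℂ} {b : ℂ} (h1 : ∀ᶠ h in 𝓝 (0 : ℂ), HasDerivAt f (f' h) h)
    (h2 : HasDerivAt f' b 0) :
    (fun h => f h - f 0 - f' 0 * h - b / 2 * h ^ 2) =o[𝓝 0] (fun h : ℂ => h ^ 2) := by
  rw [isLittleO_iff]
  intro c hc
  have h3 := (hasDerivAt_iff_isLittleO.mp h2)
  rw [isLittleO_iff] at h3
  have h4 := h3 hc
  obtain ⟨η, hη, hball⟩ := Metric.eventually_nhds_iff_ball.mp (h1.and h4)
  filter_upwards [Metric.ball_mem_nhds (0 : ℂ) hη] with h hh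
  rw [mem_ball_zero_iff] at hh
  set g : ℂ → ℂ := fun x => f x - f 0 - f' 0 * x - b / 2 * x ^ 2 with hg
  have hgd : ∀ x ∈ Metric.closedBall (0 : ℂ) ‖h‖,
      HasDerivWithinAt g (f' x - f' 0 - b * x) (Metric.closedBall (0 : ℂ) ‖h‖) x := by
    intro x hx
    have hx' : x ∈ Metric.ball (0 : ℂ) η := by
      rw [mem_closedBall_zero_iff] at hx
      rw [mem_ball_zero_iff]
      linarith
    have e1 := (hball x hx').1
    have e2 : HasDerivAt g (f' x - 0 - f' 0 * 1 - b / 2 * ((2 : ℕ) * x ^ (2 - 1) * 1)) x := by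
      apply HasDerivAt.sub
      · apply HasDerivAt.sub
        · exact e1.sub (hasDerivAt_const _ _)
        · exact (hasDerivAt_id x).const_mul _
      · exact ((hasDerivAt_id x).pow 2).const_mul _
    have e3 : f' x - 0 - f' 0 * 1 - b / 2 * ((2 : ℕ) * x ^ (2 - 1) * 1) = f' x - f' 0 - b * x := by
      push_cast
      ring
    rw [e3] at e2
    exact e2.hasDerivWithinAt
  have hbd : ∀ x ∈ Metric.closedBall (0 : ℂ) ‖h‖, ‖f' x - f' 0 - b * x‖ ≤ c * ‖h‖ := by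
    intro x hx
    rw [mem_closedBall_zero_iff] at hx
    have hx' : x ∈ Metric.ball (0 : ℂ) η := by
      rw [mem_ball_zero_iff]
      linarith
    have e1 := (hball x hx').2
    rw [sub_zero, smul_eq_mul] at e1
    have e2 : f' x - f' 0 - b * x = f' x - f' 0 - x * b := by ring
    rw [e2]
    exact e1.trans (mul_le_mul_of_nonneg_left hx hc.le)
  have h5 := Convex.norm_image_sub_le_of_norm_hasDerivWithin_le hgd hbd (convex_closedBall _ _)
    (Metric.mem_closedBall_self (norm_nonneg _))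
    (by rw [mem_closedBall_zero_iff] : h ∈ Metric.closedBall (0 : ℂ) ‖h‖)
  have e0 : g 0 = 0 := by simp [hg]
  rw [e0, sub_zero, sub_zero] at h5
  calc ‖f h - f 0 - f' 0 * h - b / 2 * h ^ 2‖ = ‖g h‖ := rfl
    _ ≤ c * ‖h‖ * ‖h‖ := h5
    _ = c * ‖h ^ 2‖ := by rw [norm_pow]; ring

/-- the local logarithm of `om` -/
private def LL (z0 z : ℂ) : ℂ := Complex.log (om z / om z0)

private theorem LL_self (z0 : ℂ) : LL z0 z0 = 0 := by
  unfold LL
  rw [div_self (om_ne_zero z0), Complex.log_one]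

private theorem ev_slit {z0 : ℂ} (h0 : z0 ∈ ZZ) :
    ∀ᶠ z in 𝓝 z0, z ∈ ZZ ∧ om z / om z0 ∈ Complex.slitPlane := by
  have h1 : ∀ᶠ z in 𝓝 z0, z ∈ ZZ := isOpen_ZZ.mem_nhds h0
  have h2 : ContinuousAt (fun z => om z / om z0) z0 :=
    (om_hasDerivAt h0).continuousAt.div_const _
  have h3 : om z0 / om z0 ∈ Complex.slitPlane := by
    rw [div_self (om_ne_zero z0)]
    exact Complex.one_mem_slitPlane
  exact h1.and (h2.eventually (Complex.isOpen_slitPlane.mem_nhds h3))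

private theorem exp_LL {z0 z : ℂ} : om z = om z0 * Complex.exp (LL z0 z) := by
  unfold LL
  rw [Complex.exp_log (div_ne_zero (om_ne_zero z) (om_ne_zero z0))]
  field_simp [om_ne_zero z0]

private theorem LL_hasDerivAt {z0 z : ℂ} (h : z ∈ ZZ ∧ om z / om z0 ∈ Complex.slitPlane) :
    HasDerivAt (LL z0) (-(1 / Rt z)) z := by
  have h1 : HasDerivAt (fun z => om z / om z0) (-(om z) / Rt z / om z0) z :=
    (om_hasDerivAt h.1).div_const _
  have h2 := h1.clog h.2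
  have h3 : -(om z) / Rt z / om z0 / (om z / om z0) = -(1 / Rt z) := by
    have := om_ne_zero z
    have := om_ne_zero z0
    have := Rt_ne_zero h.1
    field_simp
  rw [h3] at h2
  exact h2

/-- the strict derivative of `LL` -/
private theorem LL_strict {z0 : ℂ} (h0 : z0 ∈ ZZ) :
    HasStrictDerivAt (LL z0) (-(1 / Rt z0)) z0 := by
  have h1 : ∀ᶠ z in 𝓝 z0, DifferentiableAt ℂ (LL z0) z :=
    (ev_slit h0).mono fun z hz => (LL_hasDerivAt hz).differentiableAt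
  have h2 : AnalyticAt ℂ (LL z0) z0 := analyticAt_iff_eventually_differentiableAt.mpr h1
  have h3 := h2.hasStrictDerivAt
  rwa [(LL_hasDerivAt (ev_slit h0).self_of_nhds).deriv] at h3

private theorem den_ne {c0 : ℝ} (h0 : 0 < c0) (h2 : c0 < 2) (t : ℝ) :
    1 - (c0 - 1) * Real.cos t ≠ 0 := by
  have h1 : |(c0 - 1) * Real.cos t| < 1 := by
    rw [abs_mul]
    have e1 : |c0 - 1| < 1 := by
      rw [abs_lt]
      constructor <;> linarith
    have e2 : |Real.cos t| ≤ 1 := Real.abs_cos_le_one t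
    calc |c0 - 1| * |Real.cos t| ≤ |c0 - 1| * 1 := mul_le_mul_of_nonneg_left e2 (abs_nonneg _)
      _ < 1 := by linarith
  have h3 := (abs_lt.mp h1).2
  intro h
  linarith

private theorem bet_hasDerivAt {c0 : ℝ} (h0 : 0 < c0) (h2 : c0 < 2) (t : ℝ) :
    HasDerivAt (bet c0) (dbet c0 t) t := by
  have h1 : HasDerivAt (fun t => 1 - (c0 - 1) * Real.cos t) (0 - (c0 - 1) * (-Real.sin t)) t :=
    (hasDerivAt_const _ _).sub ((Real.hasDerivAt_cos t).const_mul _)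
  have h3 := (Real.hasDerivAt_sin t).div h1 (den_ne h0 h2 t)
  have h4 : (Real.cos t * (1 - (c0 - 1) * Real.cos t) -
      Real.sin t * (0 - (c0 - 1) * (-Real.sin t))) / (1 - (c0 - 1) * Real.cos t) ^ 2 =
      dbet c0 t := by
    unfold dbet
    congr 1
    have := Real.sin_sq_add_cos_sq t
    linear_combination (-(c0 - 1)) * this
  rw [h4] at h3
  exact h3

private theorem bet_int (c0 t : ℝ) (k : ℤ) : bet c0 (t + 2 * π * k) = bet c0 t := by
  unfold bet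
  rw [mul_comm (2 * π) (k : ℝ), Real.sin_add_int_mul_two_pi, Real.cos_add_int_mul_two_pi]

private theorem dbet_int (c0 t : ℝ) (k : ℤ) : dbet c0 (t + 2 * π * k) = dbet c0 t := by
  unfold dbet
  rw [mul_comm (2 * π) (k : ℝ), Real.cos_add_int_mul_two_pi]

private theorem continuous_dbet {c0 : ℝ} (h0 : 0 < c0) (h2 : c0 < 2) : Continuous (dbet c0) := by
  unfold dbet
  apply Continuous.div
  · exact Real.continuous_cos.sub continuous_const
  · exact (continuous_const.sub (continuous_const.mul Real.continuous_cos)).pow 2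
  · intro t
    exact pow_ne_zero 2 (den_ne h0 h2 t)

private theorem full_lin {d : ℕ} (ϑ a0 s : ℝ) (y : Fin d → ℝ) (k : ℤ)
    (hk : ϑ = (d + 1) * a0 + 2 * π * k) (m : Fin (d + 1)) :
    ∃ k' : ℤ, full ϑ (fun i => a0 + s * y i) m = a0 + s * full 0 y m + 2 * π * k' := by
  unfold full
  refine Fin.lastCases ?_ (fun i => ?_) m
  · refine ⟨k, ?_⟩
    rw [Fin.snoc_last, Fin.snoc_last, Finset.sum_add_distrib, Finset.sum_const, Finset.card_univ,
      Fintype.card_fin, nsmul_eq_mul, ← Finset.mul_sum, hk]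
    ring
  · refine ⟨0, ?_⟩
    rw [Fin.snoc_castSucc, Fin.snoc_castSucc]
    simp

private theorem sum_full_zero {d : ℕ} (y : Fin d → ℝ) : ∑ m, full 0 y m = 0 := by
  unfold full
  rw [Fin.sum_univ_castSucc]
  simp

/-- the deviation of the angles -/
private def hh (c0 κ a0 : ℝ) {n : ℕ} (Y : Fin n → ℝ) (m : Fin n) (s : ℝ) : ℂ :=
  (s * Y m : ℝ) + I * (κ * (bet c0 (a0 + s * Y m) - (∑ l, bet c0 (a0 + s * Y l)) / n) : ℝ)

private theorem tor_eq {d : ℕ} (c0 κ ϑ a0 s : ℝ) (y : Fin d → ℝ) (k : ℤ)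
    (hk : ϑ = (d + 1) * a0 + 2 * π * k) (m : Fin (d + 1)) :
    ∃ k' : ℤ, tor c0 κ ϑ (fun i => a0 + s * y i) m =
      (a0 : ℂ) + hh c0 κ a0 (full 0 y) m s + k' * (2 * π) := by
  obtain ⟨k', hk'⟩ := full_lin ϑ a0 s y k hk m
  refine ⟨k', ?_⟩
  have hb : ∀ l, bet c0 (full ϑ (fun i => a0 + s * y i) l) = bet c0 (a0 + s * full 0 y l) := by
    intro l
    obtain ⟨k'', hk''⟩ := full_lin ϑ a0 s y k hk l
    rw [hk'', bet_int]
  unfold tor hh avg
  rw [Finset.sum_congr rfl (fun l _ => hb l), hb m, hk']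
  push_cast
  ring

private theorem hh_zero (c0 κ a0 : ℝ) {d : ℕ} (Y : Fin (d + 1) → ℝ) (m : Fin (d + 1)) :
    hh c0 κ a0 Y m 0 = 0 := by
  have h1 : (((d + 1 : ℕ)) : ℝ) ≠ 0 := by positivity
  have e : κ * (bet c0 (a0 + 0 * Y m) - (∑ l, bet c0 (a0 + 0 * Y l)) / ((d + 1 : ℕ) : ℝ)) = 0 := by
    simp only [zero_mul, add_zero]
    rw [Finset.sum_const, Finset.card_univ, Fintype.card_fin, nsmul_eq_mul,
      mul_div_cancel_left₀ _ h1, sub_self, mul_zero]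
  unfold hh
  rw [e]
  simp

private theorem sum_hh (c0 κ a0 : ℝ) {d : ℕ} (Y : Fin (d + 1) → ℝ) (hY : ∑ m, Y m = 0) (s : ℝ) :
    ∑ m, hh c0 κ a0 Y m s = 0 := by
  unfold hh
  rw [Finset.sum_add_distrib, ← Finset.mul_sum, ← Complex.ofReal_sum, ← Complex.ofReal_sum,
    ← Finset.mul_sum, ← Finset.mul_sum, hY, Finset.sum_sub_distrib, Finset.sum_const,
    Finset.card_univ, Fintype.card_fin, nsmul_eq_mul]
  have : ((d : ℝ) + 1) ≠ 0 := by positivity
  have e1 : ((d + 1 : ℕ) : ℝ) * ((∑ l, bet c0 (a0 + s * Y l)) / ((d + 1 : ℕ) : ℝ)) =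
      ∑ l, bet c0 (a0 + s * Y l) := by
    push_cast
    field_simp
  rw [e1]
  simp

private theorem hh_hasDerivAt {c0 : ℝ} (h0 : 0 < c0) (h2 : c0 < 2) (κ a0 : ℝ) {d : ℕ}
    (Y : Fin (d + 1) → ℝ) (hY : ∑ m, Y m = 0) (m : Fin (d + 1)) :
    HasDerivAt (hh c0 κ a0 Y m) ((1 + I * (κ * dbet c0 a0 : ℝ)) * Y m) 0 := by
  have hb : ∀ l, HasDerivAt (fun s : ℝ => bet c0 (a0 + s * Y l)) (dbet c0 a0 * Y l) 0 := by
    intro l
    have e1 : HasDerivAt (fun s : ℝ => a0 + s * Y l) (0 + 1 * Y l) 0 :=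
      (hasDerivAt_const _ _).add ((hasDerivAt_id (0 : ℝ)).mul_const _)
    have e2 : HasDerivAt (bet c0) (dbet c0 a0) (a0 + 0 * Y l) := by
      rw [zero_mul, add_zero]
      exact bet_hasDerivAt h0 h2 a0
    have e3 := HasDerivAt.comp (0 : ℝ) e2 e1
    rw [zero_add, one_mul] at e3
    exact e3
  have hs : HasDerivAt (fun s : ℝ => ∑ l, bet c0 (a0 + s * Y l)) (∑ l, dbet c0 a0 * Y l) 0 :=
    HasDerivAt.fun_sum fun l _ => hb l
  rw [← Finset.mul_sum, hY, mul_zero] at hs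
  have h3 : HasDerivAt (fun s : ℝ => (s * Y m : ℝ)) (1 * Y m) 0 :=
    (hasDerivAt_id (0 : ℝ)).mul_const _
  have h4 : HasDerivAt (fun s : ℝ => κ * (bet c0 (a0 + s * Y m) -
      (∑ l, bet c0 (a0 + s * Y l)) / ((d + 1 : ℕ) : ℝ)))
      (κ * (dbet c0 a0 * Y m - 0 / ((d + 1 : ℕ) : ℝ))) 0 :=
    ((hb m).sub (hs.div_const _)).const_mul _
  have h5 := h3.ofReal_comp.add (h4.ofReal_comp.const_mul I)
  have e : (((1 * Y m : ℝ) : ℂ) + I * ((κ * (dbet c0 a0 * Y m - 0 / ((d + 1 : ℕ) : ℝ)) : ℝ) : ℂ)) =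
      (1 + I * (κ * dbet c0 a0 : ℝ)) * Y m := by
    push_cast
    ring
  rw [e] at h5
  exact h5

/-- the basic data: `a0 = ± δ0` -/
private structure Dat (c0 δ0 a0 : ℝ) : Prop where
  pos : 0 < δ0
  lt : δ0 < π / 2
  hc : c0 = 2 * Real.cos δ0
  hcos : Real.cos a0 = Real.cos δ0
  hsin : Real.sin a0 ^ 2 = Real.sin δ0 ^ 2

private theorem Dat.cos_pos {c0 δ0 a0 : ℝ} (h : Dat c0 δ0 a0) : 0 < Real.cos δ0 :=
  Real.cos_pos_of_mem_Ioo ⟨by linarith [h.pos, Real.pi_pos], h.lt⟩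

private theorem Dat.sin_pos {c0 δ0 a0 : ℝ} (h : Dat c0 δ0 a0) : 0 < Real.sin δ0 :=
  Real.sin_pos_of_pos_of_lt_pi h.pos (by linarith [h.lt, Real.pi_pos])

private theorem Dat.cos_lt {c0 δ0 a0 : ℝ} (h : Dat c0 δ0 a0) : Real.cos δ0 < 1 := by
  have h1 := Real.sin_sq_add_cos_sq δ0
  have h2 := h.sin_pos
  have h3 := h.cos_pos
  nlinarith

private theorem Dat.c_pos {c0 δ0 a0 : ℝ} (h : Dat c0 δ0 a0) : 0 < c0 := by
  rw [h.hc]
  linarith [h.cos_pos]

private theorem Dat.c_lt {c0 δ0 a0 : ℝ} (h : Dat c0 δ0 a0) : c0 < 2 := by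
  rw [h.hc]
  linarith [h.cos_lt]

private theorem Dat.mem {c0 δ0 a0 : ℝ} (h : Dat c0 δ0 a0) : ((Real.cos δ0 : ℝ) : ℂ) ∈ ZZ := by
  refine ⟨?_, Or.inr ?_⟩
  · rw [Complex.ofReal_re]
    linarith [h.cos_pos]
  · rw [Complex.ofReal_re]
    exact ne_of_lt h.cos_lt

private theorem Dat.Rt_eq {c0 δ0 a0 : ℝ} (h : Dat c0 δ0 a0) :
    Rt (Real.cos δ0 : ℝ) = I * (Real.sin δ0 : ℝ) :=
  Rt_cos h.pos (by linarith [h.lt, Real.pi_pos])

private theorem Dat.base {c0 δ0 a0 : ℝ} (h : Dat c0 δ0 a0) :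
    (c0 : ℂ) - Complex.cos (a0 : ℂ) = (Real.cos δ0 : ℝ) := by
  rw [← Complex.ofReal_cos, h.hcos, h.hc]
  push_cast
  ring

/-- the filter -/
private def lf (u0 : ℂ) : Filter (ℝ × ℂ) := (𝓝[>] (0 : ℝ)) ×ˢ 𝓝 u0

private theorem lf_fst (u0 : ℂ) : Tendsto (fun q : ℝ × ℂ => q.1) (lf u0) (𝓝[>] 0) := tendsto_fst

private theorem lf_snd (u0 : ℂ) : Tendsto (fun q : ℝ × ℂ => q.2) (lf u0) (𝓝 u0) := tendsto_snd

private theorem lf_pos (u0 : ℂ) : ∀ᶠ q : ℝ × ℂ in lf u0, 0 < q.1 :=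
  (lf_fst u0).eventually self_mem_nhdsWithin

private theorem lf_fst' (u0 : ℂ) : Tendsto (fun q : ℝ × ℂ => q.1) (lf u0) (𝓝 0) :=
  (lf_fst u0).mono_right nhdsWithin_le_nhds

private theorem lf_cast (u0 : ℂ) : Tendsto (fun q : ℝ × ℂ => (q.1 : ℂ)) (lf u0) (𝓝 0) := by
  have := (Complex.continuous_ofReal.tendsto 0).comp (lf_fst' u0)
  rwa [Complex.ofReal_zero] at this

private theorem lf_sqrt (u0 : ℂ) : Tendsto (fun q : ℝ × ℂ => Real.sqrt q.1) (lf u0) (𝓝[≠] 0) := by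
  rw [tendsto_nhdsWithin_iff]
  constructor
  · have := (Real.continuous_sqrt.tendsto 0).comp (lf_fst' u0)
    rwa [Real.sqrt_zero] at this
  · filter_upwards [lf_pos u0] with q hq
    exact (Real.sqrt_pos.mpr hq).ne'

private theorem lf_sqrt' (u0 : ℂ) : Tendsto (fun q : ℝ × ℂ => Real.sqrt q.1) (lf u0) (𝓝 0) :=
  (lf_sqrt u0).mono_right nhdsWithin_le_nhds

/-- quotients of a differentiable function which vanishes at `0` -/
private theorem lf_slope (u0 : ℂ) {f : ℝ → ℂ} {f' : ℂ} (hf : HasDerivAt f f' 0) (hf0 : f 0 = 0) :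
    Tendsto (fun q : ℝ × ℂ => f (Real.sqrt q.1) / (Real.sqrt q.1 : ℝ)) (lf u0) (𝓝 f') := by
  have h1 := hasDerivAt_iff_tendsto_slope_zero.mp hf
  have h2 := h1.comp (lf_sqrt u0)
  refine h2.congr fun q => ?_
  simp only [Function.comp, zero_add, hf0, sub_zero]
  rw [Complex.real_smul, Complex.ofReal_inv]
  field_simp

private theorem lf_sq (u0 : ℂ) : ∀ᶠ q : ℝ × ℂ in lf u0,
    ((Real.sqrt q.1 : ℝ) : ℂ) ^ 2 = (q.1 : ℂ) := by
  filter_upwards [lf_pos u0] with q hq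
  rw [← Complex.ofReal_pow, Real.sq_sqrt hq.le]

variable {c0 δ0 a0 κ : ℝ} {d : ℕ} (Y : Fin (d + 1) → ℝ)

/-- the point `z` for the particle `m` -/
private def zz (c0 κ a0 : ℝ) {d : ℕ} (Y : Fin (d + 1) → ℝ) (m : Fin (d + 1)) (q : ℝ × ℂ) : ℂ :=
  c0 + q.1 * q.2 - Complex.cos (a0 + hh c0 κ a0 Y m (Real.sqrt q.1))

private theorem hh_tendsto (h : Dat c0 δ0 a0) (hY : ∑ m, Y m = 0) (m : Fin (d + 1)) (u0 : ℂ) :
    Tendsto (fun q : ℝ × ℂ => hh c0 κ a0 Y m (Real.sqrt q.1)) (lf u0) (𝓝 0) := by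
  have h1 := (hh_hasDerivAt h.c_pos h.c_lt κ a0 Y hY m).continuousAt.tendsto.comp (lf_sqrt' u0)
  rwa [hh_zero] at h1

private theorem zz_tendsto (h : Dat c0 δ0 a0) (hY : ∑ m, Y m = 0) (m : Fin (d + 1)) (u0 : ℂ) :
    Tendsto (zz c0 κ a0 Y m) (lf u0) (𝓝 (Real.cos δ0 : ℝ)) := by
  have h1 : Tendsto (fun q : ℝ × ℂ => (q.1 : ℂ) * q.2) (lf u0) (𝓝 (0 * u0)) :=
    (lf_cast u0).mul (lf_snd u0)
  have h2 : Tendsto (fun q : ℝ × ℂ => Complex.cos (a0 + hh c0 κ a0 Y m (Real.sqrt q.1))) (lf u0)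
      (𝓝 (Complex.cos (a0 + 0))) :=
    (Complex.continuous_cos.tendsto _).comp
      (tendsto_const_nhds.add (hh_tendsto Y h hY m u0))
  have h3 : Tendsto (zz c0 κ a0 Y m) (lf u0) (𝓝 (c0 + 0 * u0 - Complex.cos (a0 + 0))) :=
    (tendsto_const_nhds.add h1).sub h2
  have e : (c0 : ℂ) + 0 * u0 - Complex.cos (a0 + 0) = (Real.cos δ0 : ℝ) := by
    rw [zero_mul, add_zero, add_zero]
    exact h.base
  rwa [e] at h3

/-- (D) the influence of `ε u` -/
private theorem part_u (h : Dat c0 δ0 a0) (hY : ∑ m, Y m = 0) (m : Fin (d + 1)) (u0 : ℂ) :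
    Tendsto (fun q : ℝ × ℂ => (LL (Real.cos δ0 : ℝ) (zz c0 κ a0 Y m q) -
        LL (Real.cos δ0 : ℝ) (zz c0 κ a0 Y m q - q.1 * q.2)) / q.1) (lf u0)
      (𝓝 (-(1 / Rt (Real.cos δ0 : ℝ)) * u0)) := by
  have hz := zz_tendsto (κ := κ) Y h hY m u0
  have h1 : Tendsto (fun q : ℝ × ℂ => (q.1 : ℂ) * q.2) (lf u0) (𝓝 0) := by
    have := (lf_cast u0).mul (lf_snd u0)
    rwa [zero_mul] at this
  have hz2 : Tendsto (fun q : ℝ × ℂ => zz c0 κ a0 Y m q - q.1 * q.2) (lf u0)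
      (𝓝 (Real.cos δ0 : ℝ)) := by
    have := hz.sub h1
    rwa [sub_zero] at this
  have hs := (LL_strict h.mem).hasStrictFDerivAt.isLittleO
  have hs2 := hs.comp_tendsto (hz.prodMk_nhds hz2)
  have hO : (fun q : ℝ × ℂ => (q.1 : ℂ) * q.2) =O[lf u0] fun q : ℝ × ℂ => (q.1 : ℂ) := by
    have e1 : (fun q : ℝ × ℂ => q.2) =O[lf u0] fun _ => (1 : ℂ) :=
      (lf_snd u0).isBigO_one ℂ
    have e2 := (isBigO_refl (fun q : ℝ × ℂ => (q.1 : ℂ)) (lf u0)).mul e1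
    simpa using e2
  have hs3 : (fun q : ℝ × ℂ => LL (Real.cos δ0 : ℝ) (zz c0 κ a0 Y m q) -
        LL (Real.cos δ0 : ℝ) (zz c0 κ a0 Y m q - q.1 * q.2) -
        (-(1 / Rt (Real.cos δ0 : ℝ))) * (q.1 * q.2)) =o[lf u0] fun q : ℝ × ℂ => (q.1 : ℂ) := by
    refine IsLittleO.trans_isBigO ?_ hO
    refine (hs2.congr (fun q => ?_) (fun q => ?_))
    · simp [Function.comp, mul_comm]
    · simp [Function.comp]
  have h4 := hs3.tendsto_div_nhds_zero
  have h5 : Tendsto (fun q : ℝ × ℂ => -(1 / Rt (Real.cos δ0 : ℝ)) * q.2) (lf u0)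
      (𝓝 (-(1 / Rt (Real.cos δ0 : ℝ)) * u0)) := tendsto_const_nhds.mul (lf_snd u0)
  have h6 := h4.add h5
  rw [zero_add] at h6
  refine h6.congr' ?_
  filter_upwards [lf_pos u0] with q hq
  have hq' : (q.1 : ℂ) ≠ 0 := by exact_mod_cast hq.ne'
  field_simp
  ring

private theorem lam_f' (h : Dat c0 δ0 a0) :
    ∀ᶠ x in 𝓝 (0 : ℂ), HasDerivAt (fun x => LL (Real.cos δ0 : ℝ) (c0 - Complex.cos (a0 + x)))
      (-(1 / Rt (c0 - Complex.cos (a0 + x))) * Complex.sin (a0 + x)) x := by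
  have hcont : Continuous (fun x : ℂ => (c0 : ℂ) - Complex.cos (a0 + x)) := by fun_prop
  have h1 : Tendsto (fun x : ℂ => (c0 : ℂ) - Complex.cos (a0 + x)) (𝓝 0)
      (𝓝 (Real.cos δ0 : ℝ)) := by
    have := hcont.tendsto 0
    simp only [add_zero] at this
    rwa [h.base] at this
  filter_upwards [h1.eventually (ev_slit h.mem)] with x hx
  have h2 : HasDerivAt (fun x : ℂ => (c0 : ℂ) - Complex.cos (a0 + x)) (Complex.sin (a0 + x)) x := by
    have e1 : HasDerivAt (fun x : ℂ => (a0 : ℂ) + x) 1 x := (hasDerivAt_id x).const_add _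
    have e2 := (Complex.hasDerivAt_cos ((a0 : ℂ) + x)).comp x e1
    have e3 := e2.const_sub (c0 : ℂ)
    simpa using e3
  have e4 : HasDerivAt (LL (Real.cos δ0 : ℝ) ∘ fun x : ℂ => (c0 : ℂ) - Complex.cos (a0 + x))
      (-(1 / Rt (c0 - Complex.cos (a0 + x))) * Complex.sin (a0 + x)) x :=
    HasDerivAt.comp x (LL_hasDerivAt hx) h2
  exact e4

private theorem lam_f'' (h : Dat c0 δ0 a0) :
    HasDerivAt (fun x => -(1 / Rt (c0 - Complex.cos (a0 + x))) * Complex.sin (a0 + x))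
      (2 * I * (Real.cos δ0 / Real.sin δ0 : ℝ)) 0 := by
  have h2 : HasDerivAt (fun x : ℂ => (c0 : ℂ) - Complex.cos (a0 + x))
      (Complex.sin (a0 + 0)) 0 := by
    have e1 : HasDerivAt (fun x : ℂ => (a0 : ℂ) + x) 1 0 := (hasDerivAt_id 0).const_add _
    have e2 := (Complex.hasDerivAt_cos ((a0 : ℂ) + 0)).comp 0 e1
    have e3 := e2.const_sub (c0 : ℂ)
    simpa using e3
  have h3 : HasDerivAt (fun x : ℂ => Complex.sin (a0 + x)) (Complex.cos (a0 + 0)) 0 := by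
    have e1 : HasDerivAt (fun x : ℂ => (a0 : ℂ) + x) 1 0 := (hasDerivAt_id 0).const_add _
    have e2 : HasDerivAt (fun x : ℂ => Complex.sin (a0 + x)) (Complex.cos (a0 + 0) * 1) 0 :=
      (Complex.hasDerivAt_sin ((a0 : ℂ) + 0)).comp 0 e1
    rwa [mul_one] at e2
  have hbase : (c0 : ℂ) - Complex.cos (a0 + 0) = (Real.cos δ0 : ℝ) := by
    rw [add_zero]
    exact h.base
  have hR : HasDerivAt (fun x : ℂ => Rt (c0 - Complex.cos (a0 + x)))
      ((Real.cos δ0 : ℝ) / Rt (Real.cos δ0 : ℝ) * Complex.sin (a0 + 0)) 0 := by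
    have e1 : HasDerivAt Rt ((Real.cos δ0 : ℝ) / Rt (Real.cos δ0 : ℝ))
        ((c0 : ℂ) - Complex.cos (a0 + 0)) := by
      rw [hbase]
      exact Rt_hasDerivAt h.mem
    exact e1.comp 0 h2
  have hRne : Rt ((c0 : ℂ) - Complex.cos (a0 + 0)) ≠ 0 := by
    rw [hbase]
    exact Rt_ne_zero h.mem
  have h4 := ((hR.inv hRne).neg.mul h3)
  have h5 : (fun x : ℂ => -(1 / Rt (c0 - Complex.cos (a0 + x))) * Complex.sin (a0 + x)) =
      (-(fun x : ℂ => Rt (c0 - Complex.cos (a0 + x)))⁻¹ * fun x : ℂ => Complex.sin (a0 + x)) := by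
    funext x
    simp
  rw [h5]
  refine h4.congr_deriv ?_
  have hs : ((Real.sin δ0 : ℝ) : ℂ) ≠ 0 := by exact_mod_cast h.sin_pos.ne'
  have e6 : Complex.sin ((a0 : ℂ) + 0) ^ 2 = ((Real.sin δ0 : ℝ) : ℂ) ^ 2 := by
    rw [add_zero, ← Complex.ofReal_sin, ← Complex.ofReal_pow, h.hsin, Complex.ofReal_pow]
  have e7 : Complex.cos ((a0 : ℂ) + 0) = ((Real.cos δ0 : ℝ) : ℂ) := by
    rw [add_zero, ← Complex.ofReal_cos, h.hcos]
  simp only [Pi.neg_apply, Pi.inv_apply]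
  rw [hbase, h.Rt_eq, e7, Complex.ofReal_div]
  generalize Complex.sin ((a0 : ℂ) + 0) = x at e6 ⊢
  generalize ((Real.cos δ0 : ℝ) : ℂ) = cd
  generalize ((Real.sin δ0 : ℝ) : ℂ) = sd at e6 hs ⊢
  have hI : (I : ℂ) ^ 2 = -1 := I_sq
  have e8 : -(-(cd / (I * sd) * x) / (I * sd) ^ 2) * x + -(I * sd)⁻¹ * cd =
      cd * x ^ 2 / ((I * sd) * (I ^ 2 * sd ^ 2)) - cd / (I * sd) := by
    field_simp
    ring
  rw [e8, e6, hI]
  field_simp
  rw [hI]
  ring

/-- (E) the part which depends on `s` only -/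
private theorem part_s (h : Dat c0 δ0 a0) (hY : ∑ m, Y m = 0) (u0 : ℂ) :
    Tendsto (fun q : ℝ × ℂ => (∑ m, LL (Real.cos δ0 : ℝ) (zz c0 κ a0 Y m q - q.1 * q.2)) / q.1)
      (lf u0) (𝓝 (I * (Real.cos δ0 / Real.sin δ0 : ℝ) *
        ∑ m, ((1 + I * (κ * dbet c0 a0 : ℝ)) * Y m) ^ 2)) := by
  set f : ℂ → ℂ := fun x => LL (Real.cos δ0 : ℝ) (c0 - Complex.cos (a0 + x)) with hf
  have hf0 : f 0 = 0 := by
    rw [hf]
    simp only
    rw [add_zero, h.base, LL_self]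
  have ht := taylor2 (lam_f' h) (lam_f'' h)
  set a1 : ℂ := -(1 / Rt (c0 - Complex.cos (a0 + 0))) * Complex.sin (a0 + 0) with ha1
  set b2 : ℂ := 2 * I * (Real.cos δ0 / Real.sin δ0 : ℝ) with hb2
  -- squares of the deviations
  have hsq : ∀ m, Tendsto (fun q : ℝ × ℂ => (hh c0 κ a0 Y m (Real.sqrt q.1)) ^ 2 / q.1) (lf u0)
      (𝓝 (((1 + I * (κ * dbet c0 a0 : ℝ)) * Y m) ^ 2)) := by
    intro m
    have h1 := (lf_slope u0 (hh_hasDerivAt h.c_pos h.c_lt κ a0 Y hY m)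
      (hh_zero c0 κ a0 Y m)).pow 2
    refine h1.congr' ?_
    filter_upwards [lf_sq u0] with q hq
    rw [div_pow, hq]
  -- errors
  have herr : ∀ m, Tendsto (fun q : ℝ × ℂ => (f (hh c0 κ a0 Y m (Real.sqrt q.1)) - f 0 -
      a1 * hh c0 κ a0 Y m (Real.sqrt q.1) - b2 / 2 * (hh c0 κ a0 Y m (Real.sqrt q.1)) ^ 2) / q.1)
      (lf u0) (𝓝 0) := by
    intro m
    have h1 := ht.comp_tendsto (hh_tendsto (κ := κ) Y h hY m u0)
    have h2 : (fun q : ℝ × ℂ => (hh c0 κ a0 Y m (Real.sqrt q.1)) ^ 2) =O[lf u0]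
        fun q : ℝ × ℂ => (q.1 : ℂ) := by
      have e1 := ((hsq m).isBigO_one ℂ).mul (isBigO_refl (fun q : ℝ × ℂ => (q.1 : ℂ)) (lf u0))
      refine (e1.congr' ?_ ?_)
      · filter_upwards [lf_pos u0] with q hq
        have hq' : (q.1 : ℂ) ≠ 0 := by exact_mod_cast hq.ne'
        field_simp
      · filter_upwards with q
        rw [one_mul]
    exact (h1.trans_isBigO h2).tendsto_div_nhds_zero
  have h3 : Tendsto (fun q : ℝ × ℂ => ∑ m, ((f (hh c0 κ a0 Y m (Real.sqrt q.1)) - f 0 -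
      a1 * hh c0 κ a0 Y m (Real.sqrt q.1) - b2 / 2 * (hh c0 κ a0 Y m (Real.sqrt q.1)) ^ 2) / q.1 +
      b2 / 2 * ((hh c0 κ a0 Y m (Real.sqrt q.1)) ^ 2 / q.1))) (lf u0)
      (𝓝 (∑ m, (0 + b2 / 2 * ((1 + I * (κ * dbet c0 a0 : ℝ)) * Y m) ^ 2))) :=
    tendsto_finsetSum _ fun m _ => (herr m).add ((hsq m).const_mul _)
  have e4 : ∑ m, (0 + b2 / 2 * ((1 + I * (κ * dbet c0 a0 : ℝ)) * Y m) ^ 2) =
      I * (Real.cos δ0 / Real.sin δ0 : ℝ) * ∑ m, ((1 + I * (κ * dbet c0 a0 : ℝ)) * Y m) ^ 2 := by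
    rw [Finset.mul_sum]
    refine Finset.sum_congr rfl fun m _ => ?_
    rw [hb2]
    ring
  rw [e4] at h3
  refine h3.congr' ?_
  filter_upwards with q
  have e5 : ∀ m, LL (Real.cos δ0 : ℝ) (zz c0 κ a0 Y m q - q.1 * q.2) =
      f (hh c0 κ a0 Y m (Real.sqrt q.1)) := by
    intro m
    rw [hf]
    simp only
    congr 1
    unfold zz
    ring
  rw [Finset.sum_congr rfl (fun m _ => e5 m), Finset.sum_div]
  have e6 : ∀ m, (f (hh c0 κ a0 Y m (Real.sqrt q.1)) - f 0 -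
      a1 * hh c0 κ a0 Y m (Real.sqrt q.1) - b2 / 2 * (hh c0 κ a0 Y m (Real.sqrt q.1)) ^ 2) / q.1 +
      b2 / 2 * ((hh c0 κ a0 Y m (Real.sqrt q.1)) ^ 2 / q.1) =
      f (hh c0 κ a0 Y m (Real.sqrt q.1)) / q.1 - a1 / q.1 * hh c0 κ a0 Y m (Real.sqrt q.1) := by
    intro m
    rw [hf0]
    ring
  rw [Finset.sum_congr rfl (fun m _ => e6 m), Finset.sum_sub_distrib, ← Finset.mul_sum,
    sum_hh c0 κ a0 Y hY, mul_zero, sub_zero]

/-- the sum of the logarithms -/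
private def XX (c0 δ0 κ a0 : ℝ) {d : ℕ} (Y : Fin (d + 1) → ℝ) (q : ℝ × ℂ) : ℂ :=
  ∑ m, LL (Real.cos δ0 : ℝ) (zz c0 κ a0 Y m q)

private theorem XX_div (h : Dat c0 δ0 a0) (hY : ∑ m, Y m = 0) (u0 : ℂ) :
    Tendsto (fun q : ℝ × ℂ => XX c0 δ0 κ a0 Y q / q.1) (lf u0)
      (𝓝 (((d + 1 : ℕ) : ℂ) * (-(1 / Rt (Real.cos δ0 : ℝ)) * u0) +
        I * (Real.cos δ0 / Real.sin δ0 : ℝ) *
        ∑ m, ((1 + I * (κ * dbet c0 a0 : ℝ)) * Y m) ^ 2)) := by
  have h1 : Tendsto (fun q : ℝ × ℂ => ∑ m, (LL (Real.cos δ0 : ℝ) (zz c0 κ a0 Y m q) -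
        LL (Real.cos δ0 : ℝ) (zz c0 κ a0 Y m q - q.1 * q.2)) / q.1) (lf u0)
      (𝓝 (∑ _m : Fin (d + 1), -(1 / Rt (Real.cos δ0 : ℝ)) * u0)) :=
    tendsto_finsetSum _ fun m _ => part_u Y h hY m u0
  rw [Finset.sum_const, Finset.card_univ, Fintype.card_fin, nsmul_eq_mul] at h1
  have h2 := h1.add (part_s (κ := κ) Y h hY u0)
  refine h2.congr fun q => ?_
  unfold XX
  rw [Finset.sum_div, Finset.sum_div, ← Finset.sum_add_distrib]
  refine Finset.sum_congr rfl fun m _ => ?_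
  ring

private theorem XX_tendsto (h : Dat c0 δ0 a0) (hY : ∑ m, Y m = 0) (u0 : ℂ) :
    Tendsto (XX c0 δ0 κ a0 Y) (lf u0) (𝓝 0) := by
  have h1 := (XX_div (κ := κ) Y h hY u0).mul (lf_cast u0)
  rw [mul_zero] at h1
  refine h1.congr' ?_
  filter_upwards [lf_pos u0] with q hq
  have hq' : (q.1 : ℂ) ≠ 0 := by exact_mod_cast hq.ne'
  field_simp

private theorem exp_div (h : Dat c0 δ0 a0) (hY : ∑ m, Y m = 0) (u0 : ℂ) :
    Tendsto (fun q : ℝ × ℂ => (1 - Complex.exp (XX c0 δ0 κ a0 Y q)) / q.1) (lf u0)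
      (𝓝 (-(((d + 1 : ℕ) : ℂ) * (-(1 / Rt (Real.cos δ0 : ℝ)) * u0) +
        I * (Real.cos δ0 / Real.sin δ0 : ℝ) *
        ∑ m, ((1 + I * (κ * dbet c0 a0 : ℝ)) * Y m) ^ 2))) := by
  have h1 : Tendsto (fun q : ℝ × ℂ => dslope Complex.exp 0 (XX c0 δ0 κ a0 Y q)) (lf u0)
      (𝓝 (dslope Complex.exp 0 0)) := by
    have e1 : ContinuousAt (dslope Complex.exp 0) 0 :=
      continuousAt_dslope_same.mpr Complex.differentiable_exp.differentiableAt
    exact e1.tendsto.comp (XX_tendsto Y h hY u0)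
  rw [dslope_same, Complex.deriv_exp, Complex.exp_zero] at h1
  have h2 := ((XX_div (κ := κ) Y h hY u0).mul h1).neg
  rw [mul_one] at h2
  refine h2.congr fun q => ?_
  have h3 := sub_smul_dslope Complex.exp 0 (XX c0 δ0 κ a0 Y q)
  rw [sub_zero, Complex.exp_zero, smul_eq_mul] at h3
  have h4 : 1 - Complex.exp (XX c0 δ0 κ a0 Y q) =
      -(XX c0 δ0 κ a0 Y q * dslope Complex.exp 0 (XX c0 δ0 κ a0 Y q)) := by
    rw [h3]
    ring
  rw [h4]
  ring

/-- (I) the pair factors -/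
private theorem HH_div (h : Dat c0 δ0 a0) (hY : ∑ m, Y m = 0) (u0 : ℂ) (i k : Fin (d + 1)) :
    Tendsto (fun q : ℝ × ℂ => HH (Complex.exp (I * (a0 + hh c0 κ a0 Y i (Real.sqrt q.1))))
        (om (zz c0 κ a0 Y i q)) (Complex.exp (I * (a0 + hh c0 κ a0 Y k (Real.sqrt q.1))))
        (om (zz c0 κ a0 Y k q)) / q.1) (lf u0)
      (𝓝 (-((1 + I * (κ * dbet c0 a0 : ℝ)) ^ 2 / (4 * ((Real.sin δ0 : ℝ) : ℂ) ^ 2)) *
        (Y i - Y k) ^ 2)) := by
  set κ' : ℂ := 1 + I * (κ * dbet c0 a0 : ℝ) with hκ'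
  set x0 : ℂ := Complex.exp (I * a0) with hx0
  have hx0ne : x0 ≠ 0 := Complex.exp_ne_zero _
  -- the exponentials
  have hx : ∀ m, HasDerivAt (fun s : ℝ => Complex.exp (I * (a0 + hh c0 κ a0 Y m s)))
      (x0 * (I * (κ' * Y m))) 0 := by
    intro m
    have e1 : HasDerivAt (fun s : ℝ => I * ((a0 : ℂ) + hh c0 κ a0 Y m s)) (I * (κ' * Y m)) 0 :=
      ((hh_hasDerivAt h.c_pos h.c_lt κ a0 Y hY m).const_add _).const_mul I
    have e2 := e1.cexp
    rw [hh_zero, add_zero] at e2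
    exact e2
  have hxt : ∀ m, Tendsto (fun q : ℝ × ℂ => Complex.exp (I * (a0 + hh c0 κ a0 Y m
      (Real.sqrt q.1)))) (lf u0) (𝓝 x0) := by
    intro m
    have e1 := (hx m).continuousAt.tendsto.comp (lf_sqrt' u0)
    rw [hh_zero, add_zero] at e1
    exact e1
  have hdiff : Tendsto (fun q : ℝ × ℂ => (Complex.exp (I * (a0 + hh c0 κ a0 Y i
      (Real.sqrt q.1))) - Complex.exp (I * (a0 + hh c0 κ a0 Y k (Real.sqrt q.1)))) /
      (Real.sqrt q.1 : ℝ)) (lf u0) (𝓝 (x0 * (I * (κ' * Y i)) - x0 * (I * (κ' * Y k)))) :=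
    lf_slope u0 ((hx i).sub (hx k)) (by simp only [hh_zero, sub_self, Pi.sub_apply])
  have hw : ∀ m, Tendsto (fun q : ℝ × ℂ => om (zz c0 κ a0 Y m q)) (lf u0)
      (𝓝 (om (Real.cos δ0 : ℝ))) := fun m =>
    (om_hasDerivAt h.mem).continuousAt.tendsto.comp (zz_tendsto Y h hY m u0)
  have hne : 1 - om (Real.cos δ0 : ℝ) * om (Real.cos δ0 : ℝ) ≠ 0 := one_sub_om_mul_ne h.mem h.mem
  have hnum := (hdiff.pow 2).mul ((hw i).mul (hw k))
  have hden := ((hxt i).mul (hxt k)).mul ((((hw i).mul (hw k)).const_sub 1).pow 2)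
  have hq := (hnum.div hden (mul_ne_zero (mul_ne_zero hx0ne hx0ne) (pow_ne_zero 2 hne))).neg
  have hval : -((x0 * (I * (κ' * Y i)) - x0 * (I * (κ' * Y k))) ^ 2 *
      (om (Real.cos δ0 : ℝ) * om (Real.cos δ0 : ℝ)) / (x0 * x0 *
        (1 - om (Real.cos δ0 : ℝ) * om (Real.cos δ0 : ℝ)) ^ 2)) =
      -(κ' ^ 2 / (4 * ((Real.sin δ0 : ℝ) : ℂ) ^ 2)) * (Y i - Y k) ^ 2 := by
    have e1 := dens_om h.mem
    rw [h.Rt_eq] at e1
    have hs : ((Real.sin δ0 : ℝ) : ℂ) ≠ 0 := by exact_mod_cast h.sin_pos.ne'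
    have hne' : 1 - om (Real.cos δ0 : ℝ) ^ 2 ≠ 0 := by
      rw [pow_two]
      exact hne
    have e2 : om (Real.cos δ0 : ℝ) / (1 - om (Real.cos δ0 : ℝ) ^ 2) =
        1 / (2 * (I * (Real.sin δ0 : ℝ))) := by
      have e3 : om (Real.cos δ0 : ℝ) / (1 - om (Real.cos δ0 : ℝ) ^ 2) =
          (2 * om (Real.cos δ0 : ℝ) / (1 - om (Real.cos δ0 : ℝ) ^ 2)) / 2 := by ring
      rw [e3, e1]
      field_simp
    have e4 : -((x0 * (I * (κ' * Y i)) - x0 * (I * (κ' * Y k))) ^ 2 *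
      (om (Real.cos δ0 : ℝ) * om (Real.cos δ0 : ℝ)) / (x0 * x0 *
        (1 - om (Real.cos δ0 : ℝ) * om (Real.cos δ0 : ℝ)) ^ 2)) =
        -(I ^ 2 * κ' ^ 2 * (Y i - Y k) ^ 2) *
          (om (Real.cos δ0 : ℝ) / (1 - om (Real.cos δ0 : ℝ) ^ 2)) ^ 2 := by
      rw [← pow_two (om (Real.cos δ0 : ℝ))]
      field_simp
    rw [e4, e2]
    have hI : (I : ℂ) ^ 2 = -1 := I_sq
    have e5 : (1 / (2 * (I * ((Real.sin δ0 : ℝ) : ℂ)))) ^ 2 =
        -(1 / (4 * ((Real.sin δ0 : ℝ) : ℂ) ^ 2)) := by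
      rw [div_pow, mul_pow, mul_pow, hI]
      field_simp
      norm_num
    rw [e5, hI]
    ring
  rw [hval] at hq
  refine hq.congr' ?_
  filter_upwards [lf_sq u0] with q hq2
  simp only [Pi.div_apply]
  unfold HH
  rw [div_pow, hq2]
  ring

private theorem card_pairs (d : ℕ) :
    ∑ i : Fin (d + 1), (Finset.Ioi i).card = d * (d + 1) / 2 := by
  have h1 : ∀ i : Fin (d + 1), (Finset.Ioi i).card = d - (i : ℕ) := by
    intro i
    rw [Fin.card_Ioi]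
    omega
  rw [Finset.sum_congr rfl (fun i _ => h1 i), Fin.sum_univ_eq_sum_range (fun i => d - i)]
  have h2 : ∑ i ∈ Finset.range (d + 1), (d - i) = ∑ i ∈ Finset.range (d + 1), i := by
    have := Finset.sum_range_reflect (fun i => i) (d + 1)
    simpa using this
  rw [h2, Finset.sum_range_id]
  simp [mul_comm]

/-- scaling of all pair factors -/
private theorem prod_pairs_div {d : ℕ} (f : Fin (d + 1) → Fin (d + 1) → ℂ) (e : ℂ) :
    ∏ i, ∏ k ∈ Finset.Ioi i, (f i k / e) =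
      (∏ i, ∏ k ∈ Finset.Ioi i, f i k) / e ^ (d * (d + 1) / 2) := by
  simp_rw [Finset.prod_div_distrib, Finset.prod_const]
  rw [Finset.prod_pow_eq_pow_sum, card_pairs]

private theorem prod_pairs_mul {d : ℕ} (f : Fin (d + 1) → Fin (d + 1) → ℂ) (e : ℂ) :
    ∏ i, ∏ k ∈ Finset.Ioi i, (e * f i k) =
      e ^ (d * (d + 1) / 2) * (∏ i, ∏ k ∈ Finset.Ioi i, f i k) := by
  simp_rw [Finset.prod_mul_distrib, Finset.prod_const]
  rw [Finset.prod_pow_eq_pow_sum, card_pairs]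

private theorem cos_int (x : ℂ) (k : ℤ) : Complex.cos (x + k * (2 * π)) = Complex.cos x :=
  Complex.cos_add_int_mul_two_pi x k

private theorem exp_int (x : ℂ) (k : ℤ) :
    Complex.exp (I * (x + k * (2 * π))) = Complex.exp (I * x) := by
  have : I * (x + k * (2 * π)) = I * x + k * (2 * π * I) := by ring
  rw [this, Complex.exp_add, Complex.exp_int_mul_two_pi_mul_I, mul_one]

section fixed

variable {c0 δ0 a0 κ ϑ : ℝ} {d : ℕ} (y : Fin d → ℝ)

/-- the arguments of the deformed torus, up to multiples of `2 π` -/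
private theorem tor_cos (k : ℤ) (hk : ϑ = (d + 1) * a0 + 2 * π * k) (s : ℝ) (m : Fin (d + 1)) :
    Complex.cos (tor c0 κ ϑ (fun i => a0 + s * y i) m) =
      Complex.cos (a0 + hh c0 κ a0 (full 0 y) m s) ∧
    Complex.exp (I * tor c0 κ ϑ (fun i => a0 + s * y i) m) =
      Complex.exp (I * (a0 + hh c0 κ a0 (full 0 y) m s)) := by
  obtain ⟨k', hk'⟩ := tor_eq c0 κ ϑ a0 s y k hk m
  rw [hk', cos_int, exp_int]
  exact ⟨rfl, rfl⟩

private theorem zz_eq (k : ℤ) (hk : ϑ = (d + 1) * a0 + 2 * π * k) (q : ℝ × ℂ)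
    (m : Fin (d + 1)) :
    (c0 : ℂ) + q.1 * q.2 - Complex.cos (tor c0 κ ϑ (fun i => a0 + Real.sqrt q.1 * y i) m) =
      zz c0 κ a0 (full 0 y) m q := by
  rw [(tor_cos y k hk _ m).1]
  rfl

private theorem ker_eq (k : ℤ) (hk : ϑ = (d + 1) * a0 + 2 * π * k) (q : ℝ × ℂ)
    (hz : ∀ m, zz c0 κ a0 (full 0 y) m q ∈ ZZ) :
    ker om (c0 + q.1 * q.2) (tor c0 κ ϑ (fun i => a0 + Real.sqrt q.1 * y i)) =
      (∏ m, 1 / Rt (zz c0 κ a0 (full 0 y) m q)) * ∏ i, ∏ l ∈ Finset.Ioi i,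
        HH (Complex.exp (I * (a0 + hh c0 κ a0 (full 0 y) i (Real.sqrt q.1))))
          (om (zz c0 κ a0 (full 0 y) i q))
          (Complex.exp (I * (a0 + hh c0 κ a0 (full 0 y) l (Real.sqrt q.1))))
          (om (zz c0 κ a0 (full 0 y) l q)) := by
  unfold ker pairs
  congr 1
  · refine Finset.prod_congr rfl fun m _ => ?_
    rw [zz_eq y k hk q m, dens_om (hz m)]
  · refine Finset.prod_congr rfl fun i _ => Finset.prod_congr rfl fun l _ => ?_
    simp only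
    rw [zz_eq y k hk q i, zz_eq y k hk q l, (tor_cos y k hk _ i).2, (tor_cos y k hk _ l).2]

private theorem prodw_eq (h : Dat c0 δ0 a0) (k : ℤ) (hk : ϑ = (d + 1) * a0 + 2 * π * k)
    (hτ : Complex.exp (I * (((d + 1 : ℕ) : ℝ) * δ0)) = tau ϑ) (q : ℝ × ℂ) :
    tau ϑ * prodw om (c0 + q.1 * q.2) (tor c0 κ ϑ (fun i => a0 + Real.sqrt q.1 * y i)) =
      Complex.exp (XX c0 δ0 κ a0 (full 0 y) q) := by
  have h1 : prodw om (c0 + q.1 * q.2) (tor c0 κ ϑ (fun i => a0 + Real.sqrt q.1 * y i)) =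
      om (Real.cos δ0 : ℝ) ^ (d + 1) * Complex.exp (XX c0 δ0 κ a0 (full 0 y) q) := by
    unfold prodw XX
    rw [Complex.exp_sum]
    have e1 : ∀ m : Fin (d + 1), om (c0 + q.1 * q.2 -
        Complex.cos (tor c0 κ ϑ (fun i => a0 + Real.sqrt q.1 * y i) m)) =
        om (Real.cos δ0 : ℝ) * Complex.exp (LL (Real.cos δ0 : ℝ) (zz c0 κ a0 (full 0 y) m q)) := by
      intro m
      rw [zz_eq y k hk q m]
      exact exp_LL
    rw [Finset.prod_congr rfl (fun m _ => e1 m), Finset.prod_mul_distrib, Finset.prod_const,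
      Finset.card_univ, Fintype.card_fin]
  have h2 : tau ϑ * om (Real.cos δ0 : ℝ) ^ (d + 1) = 1 := by
    rw [← hτ, om_cos h.pos (by linarith [h.lt, Real.pi_pos]), ← Complex.exp_nat_mul,
      ← Complex.exp_add]
    have e : I * (((d + 1 : ℕ) : ℝ) * δ0) + ((d + 1 : ℕ) : ℂ) * -(I * δ0) = 0 := by
      push_cast
      ring
    rw [e, Complex.exp_zero]
  rw [h1, ← mul_assoc, h2, one_mul]

private theorem continuous_full (ϑ : ℝ) (m : Fin (d + 1)) :
    Continuous (fun t : Fin d → ℝ => full ϑ t m) := by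
  unfold full
  refine Fin.lastCases ?_ (fun i => ?_) m
  · simp only [Fin.snoc_last]
    fun_prop
  · simp only [Fin.snoc_castSucc]
    exact continuous_apply i

private theorem continuous_jac (h0 : 0 < c0) (h2 : c0 < 2) :
    Continuous (fun t : Fin d → ℝ => jac c0 κ ϑ t) := by
  have hd := continuous_dbet h0 h2
  unfold jac
  apply Continuous.matrix_det
  apply continuous_matrix
  intro m k
  simp only [Matrix.of_apply]
  apply Continuous.sub
  · by_cases hmk : m = k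
    · simp only [hmk, if_true]
      exact continuous_const.add (continuous_const.mul (Complex.continuous_ofReal.comp
        (continuous_const.mul (hd.comp (continuous_apply k)))))
    · simp only [hmk, if_false]
      exact continuous_const
  · exact continuous_const.mul (Complex.continuous_ofReal.comp (continuous_const.mul
      (((hd.comp (continuous_apply k)).sub (hd.comp (continuous_full ϑ (Fin.last d)))).div_const _)))

private theorem jac_base (k : ℤ) (hk : ϑ = (d + 1) * a0 + 2 * π * k) :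
    jac c0 κ ϑ (fun _ : Fin d => a0) = (1 + I * (κ * dbet c0 a0 : ℝ)) ^ d := by
  obtain ⟨k', hk'⟩ := full_lin ϑ a0 0 (fun _ : Fin d => (0 : ℝ)) k hk (Fin.last d)
  have e1 : (fun i : Fin d => a0 + 0 * (fun _ : Fin d => (0 : ℝ)) i) = fun _ => a0 := by
    funext i
    ring
  rw [e1] at hk'
  have e2 : dbet c0 (full ϑ (fun _ : Fin d => a0) (Fin.last d)) = dbet c0 a0 := by
    rw [hk', zero_mul, add_zero, dbet_int]
  unfold jac
  have e3 : (Matrix.of fun m k : Fin d =>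
    (if m = k then (1 : ℂ) + I * (κ * dbet c0 ((fun _ : Fin d => a0) m) : ℝ) else 0) -
      I * (κ * ((dbet c0 ((fun _ : Fin d => a0) k) -
        dbet c0 (full ϑ (fun _ : Fin d => a0) (Fin.last d))) / (d + 1)) : ℝ)) =
      Matrix.diagonal (fun _ : Fin d => 1 + I * (κ * dbet c0 a0 : ℝ)) := by
    ext m k
    rw [Matrix.of_apply, e2, Matrix.diagonal_apply]
    simp
  rw [e3, Matrix.det_diagonal, Finset.prod_const, Finset.card_univ, Fintype.card_fin]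

private theorem jac_tendsto (h : Dat c0 δ0 a0) (k : ℤ) (hk : ϑ = (d + 1) * a0 + 2 * π * k)
    (u0 : ℂ) :
    Tendsto (fun q : ℝ × ℂ => jac c0 κ ϑ (fun i => a0 + Real.sqrt q.1 * y i)) (lf u0)
      (𝓝 ((1 + I * (κ * dbet c0 a0 : ℝ)) ^ d)) := by
  rw [← jac_base (c0 := c0) (κ := κ) k hk]
  have h1 : Tendsto (fun q : ℝ × ℂ => (fun i => a0 + Real.sqrt q.1 * y i)) (lf u0)
      (𝓝 (fun _ : Fin d => a0)) := by
    rw [tendsto_pi_nhds]
    intro i
    have e1 := ((lf_sqrt' u0).mul_const (y i)).const_add a0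
    rw [zero_mul, add_zero] at e1
    exact e1
  exact ((continuous_jac h.c_pos h.c_lt).tendsto _).comp h1

/-- differentiability of the integrand in `c` -/
private theorem XI_diff {c : ℂ} {t : Fin d → ℝ}
    (hz : ∀ m, c - Complex.cos (tor c0 κ ϑ t m) ∈ ZZ)
    (h1 : 1 - tau ϑ * prodw om c (tor c0 κ ϑ t) ≠ 0) :
    DifferentiableAt ℂ (fun c => XI d c0 κ ϑ c t) c := by
  have hom : ∀ m, DifferentiableAt ℂ (fun c => om (c - Complex.cos (tor c0 κ ϑ t m))) c := by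
    intro m
    have e1 : HasDerivAt (fun c : ℂ => c - Complex.cos (tor c0 κ ϑ t m)) 1 c :=
      (hasDerivAt_id c).sub_const _
    exact ((om_hasDerivAt (hz m)).comp c e1).differentiableAt
  have hprod : DifferentiableAt ℂ (fun c => prodw om c (tor c0 κ ϑ t)) c := by
    unfold prodw
    exact DifferentiableAt.fun_finsetProd fun m _ => hom m
  have hker : DifferentiableAt ℂ (fun c => ker om c (tor c0 κ ϑ t)) c := by
    unfold ker
    apply DifferentiableAt.mul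
    · refine DifferentiableAt.fun_finsetProd fun m _ => ?_
      exact ((hom m).const_mul _).div (((hom m).pow 2).const_sub 1) (one_sub_om_sq_ne (hz m))
    · unfold pairs
      refine DifferentiableAt.fun_finsetProd fun i _ =>
        DifferentiableAt.fun_finsetProd fun l _ => ?_
      unfold HH
      apply DifferentiableAt.div
      · exact (((hom i).mul (hom l)).const_mul _).neg
      · exact ((((hom i).mul (hom l)).const_sub 1).pow 2).const_mul _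
      · exact mul_ne_zero (mul_ne_zero (Complex.exp_ne_zero _) (Complex.exp_ne_zero _))
          (pow_ne_zero 2 (one_sub_om_mul_ne (hz i) (hz l)))
  unfold XI
  exact (hker.mul (((hprod.const_mul _).const_add 1).div ((hprod.const_mul _).const_sub 1) h1)).const_mul _

end fixed

/-- the limit for one sign -/
private theorem XI_limit_one {c0 κ δ0 a0 ϑ : ℝ} (hκ : 0 < κ) {d : ℕ} (ℓ : ℕ) (h : Dat c0 δ0 a0)
    (hτ : Complex.exp (I * (((d + 1 : ℕ) : ℝ) * δ0)) = tau ϑ) (k : ℤ)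
    (hk : ϑ = (d + 1) * a0 + 2 * π * k) (y : Fin d → ℝ) :
    Tendsto (fun ε : ℝ => (ε : ℂ) ^ (ℓ + 1) / (ε : ℂ) ^ (d * (d + 1) / 2) *
          iteratedDeriv ℓ (fun c => XI d c0 κ ϑ c (fun i => a0 + Real.sqrt ε * y i)) (c0 + ε * I))
        (𝓝[>] 0)
        (𝓝 ((2 * (1 + I * (κ * dbet c0 δ0 : ℝ)) ^ d * (1 / (I * (Real.sin δ0 : ℝ))) ^ (d + 1) *
          (-((1 + I * (κ * dbet c0 δ0 : ℝ)) ^ 2 / (4 * ((Real.sin δ0 : ℝ) : ℂ) ^ 2))) ^
            (d * (d + 1) / 2) * ((-1) ^ ℓ * ℓ.factorial *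
            (-(I * ((d + 1 : ℕ) : ℂ) / (Real.sin δ0 : ℝ))) ^ ℓ)) * V2 y /
          (((d + 1) / Real.sin δ0 : ℝ) -
          I * (Real.cos δ0 / Real.sin δ0 : ℝ) * (1 + I * (κ * dbet c0 δ0 : ℝ)) ^ 2 * QQ y) ^
            (ℓ + 1))) := by
  have hY := sum_full_zero y
  set Y := full 0 y with hYdef
  have hdb : dbet c0 a0 = dbet c0 δ0 := by
    unfold dbet
    rw [h.hcos]
  set κ' : ℂ := 1 + I * (κ * dbet c0 δ0 : ℝ) with hκ'
  have hs0 := h.sin_pos
  have hs : ((Real.sin δ0 : ℝ) : ℂ) ≠ 0 := by exact_mod_cast hs0.ne'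
  set α : ℂ := -(I * ((d + 1 : ℕ) : ℂ) / (Real.sin δ0 : ℝ)) with hα
  set β : ℂ := -(I * (Real.cos δ0 / Real.sin δ0 : ℝ) * (κ' ^ 2 * QQ y)) with hβ
  set P : ℕ := d * (d + 1) / 2 with hP
  set Ac : ℂ := κ' ^ d * ((1 / (I * (Real.sin δ0 : ℝ))) ^ (d + 1) *
    ((-(κ' ^ 2 / (4 * ((Real.sin δ0 : ℝ) : ℂ) ^ 2))) ^ P * V2 y)) * 2 with hAc
  set F : ℝ → ℂ → ℂ := fun ε u => ((ε : ℂ) / (ε : ℂ) ^ P) *
    XI d c0 κ ϑ (c0 + ε * u) (fun i => a0 + Real.sqrt ε * y i) with hF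
  set G : ℂ → ℂ := fun u => Ac * (α * u + β)⁻¹ with hG
  set U : Set ℂ := {u | α * u + β ≠ 0} with hU
  have hUo : IsOpen U := isOpen_ne_fun (by fun_prop) continuous_const
  have hsq : ∑ m, ((1 + I * (κ * dbet c0 a0 : ℝ)) * (Y m : ℂ)) ^ 2 = κ' ^ 2 * QQ y := by
    unfold QQ
    rw [hdb, Complex.ofReal_sum, Finset.mul_sum]
    refine Finset.sum_congr rfl fun m _ => ?_
    rw [mul_pow, Complex.ofReal_pow]
  have hD : ∀ u0 : ℂ, -(((d + 1 : ℕ) : ℂ) * (-(1 / Rt (Real.cos δ0 : ℝ)) * u0) +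
        I * (Real.cos δ0 / Real.sin δ0 : ℝ) *
        ∑ m, ((1 + I * (κ * dbet c0 a0 : ℝ)) * (Y m : ℂ)) ^ 2) = α * u0 + β := by
    intro u0
    rw [hsq, h.Rt_eq, hα, hβ]
    have hI : (I : ℂ) * I = -1 := I_mul_I
    have e1 : (1 : ℂ) / (I * (Real.sin δ0 : ℝ)) = -(I / (Real.sin δ0 : ℝ)) := by
      field_simp
      rw [I_sq]
      norm_num
    rw [e1]
    ring
  -- eventual facts
  have hzz : ∀ u0, ∀ᶠ q : ℝ × ℂ in lf u0, ∀ m, zz c0 κ a0 Y m q ∈ ZZ := by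
    intro u0
    rw [Filter.eventually_all]
    intro m
    exact (zz_tendsto Y h hY m u0).eventually (isOpen_ZZ.mem_nhds h.mem)
  have hexp : ∀ u0 : ℂ, Tendsto (fun q : ℝ × ℂ => (1 - Complex.exp (XX c0 δ0 κ a0 Y q)) / q.1)
      (lf u0) (𝓝 (α * u0 + β)) := by
    intro u0
    have := exp_div (κ := κ) Y h hY u0
    rwa [hD u0] at this
  have hne : ∀ u0 ∈ U, ∀ᶠ q : ℝ × ℂ in lf u0, 1 - Complex.exp (XX c0 δ0 κ a0 Y q) ≠ 0 := by
    intro u0 hu0
    have h1 := (hexp u0).eventually_ne hu0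
    filter_upwards [h1] with q hq hq0
    rw [hq0, zero_div] at hq
    exact hq rfl
  -- the limit of `F`
  have h1 : ∀ u0 ∈ U, Tendsto (fun q : ℝ × ℂ => F q.1 q.2) ((𝓝[>] 0) ×ˢ 𝓝 u0) (𝓝 (G u0)) := by
    intro u0 hu0
    have t1 := jac_tendsto (c0 := c0) (κ := κ) y h k hk u0
    rw [hdb] at t1
    have t2 : Tendsto (fun q : ℝ × ℂ => ∏ m, 1 / Rt (zz c0 κ a0 Y m q)) (lf u0)
        (𝓝 ((1 / (I * (Real.sin δ0 : ℝ))) ^ (d + 1))) := by
      have e1 : ∀ m ∈ (Finset.univ : Finset (Fin (d + 1))),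
          Tendsto (fun q : ℝ × ℂ => 1 / Rt (zz c0 κ a0 Y m q)) (lf u0)
          (𝓝 (1 / (I * (Real.sin δ0 : ℝ)))) := by
        intro m _
        have e2 := (Rt_hasDerivAt h.mem).continuousAt.tendsto.comp
          (zz_tendsto (κ := κ) Y h hY m u0)
        rw [h.Rt_eq] at e2
        exact tendsto_const_nhds.div e2 (mul_ne_zero I_ne_zero hs)
      have e3 := tendsto_finsetProd _ e1
      rwa [Finset.prod_const, Finset.card_univ, Fintype.card_fin] at e3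
    have t3 : Tendsto (fun q : ℝ × ℂ => ∏ i, ∏ l ∈ Finset.Ioi i,
        (HH (Complex.exp (I * (a0 + hh c0 κ a0 Y i (Real.sqrt q.1))))
          (om (zz c0 κ a0 Y i q)) (Complex.exp (I * (a0 + hh c0 κ a0 Y l (Real.sqrt q.1))))
          (om (zz c0 κ a0 Y l q)) / q.1)) (lf u0)
        (𝓝 ((-(κ' ^ 2 / (4 * ((Real.sin δ0 : ℝ) : ℂ) ^ 2))) ^ P * V2 y)) := by
      have e1 : Tendsto (fun q : ℝ × ℂ => ∏ i, ∏ l ∈ Finset.Ioi i,
        (HH (Complex.exp (I * (a0 + hh c0 κ a0 Y i (Real.sqrt q.1))))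
          (om (zz c0 κ a0 Y i q)) (Complex.exp (I * (a0 + hh c0 κ a0 Y l (Real.sqrt q.1))))
          (om (zz c0 κ a0 Y l q)) / q.1)) (lf u0)
          (𝓝 (∏ i, ∏ l ∈ Finset.Ioi i, (-((1 + I * (κ * dbet c0 a0 : ℝ)) ^ 2 /
            (4 * ((Real.sin δ0 : ℝ) : ℂ) ^ 2)) * ((Y i : ℂ) - Y l) ^ 2))) :=
        tendsto_finsetProd _ fun i _ => tendsto_finsetProd _ fun l _ => HH_div Y h hY u0 i l
      rw [prod_pairs_mul, hdb] at e1
      have e2 : (∏ i, ∏ l ∈ Finset.Ioi i, ((Y i : ℂ) - Y l) ^ 2) = (V2 y : ℂ) := by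
        unfold V2
        push_cast
        rfl
      rw [e2] at e1
      exact e1
    have t4 : Tendsto (fun q : ℝ × ℂ => 1 + Complex.exp (XX c0 δ0 κ a0 Y q)) (lf u0) (𝓝 2) := by
      have e1 := ((Complex.continuous_exp.tendsto 0).comp
        (XX_tendsto (κ := κ) Y h hY u0)).const_add 1
      rw [Complex.exp_zero] at e1
      norm_num at e1
      exact e1
    have t5 := (hexp u0).inv₀ hu0
    have t6 := ((t1.mul (t2.mul t3)).mul t4).mul t5
    refine t6.congr' ?_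
    filter_upwards [lf_pos u0, hzz u0, hne u0 hu0] with q hq hz hq1
    have hq' : (q.1 : ℂ) ≠ 0 := by exact_mod_cast hq.ne'
    rw [prod_pairs_div, hF]
    simp only
    unfold XI
    rw [ker_eq y k hk q hz, prodw_eq y h k hk hτ q]
    have hqP : (q.1 : ℂ) ^ P ≠ 0 := pow_ne_zero _ hq'
    rw [inv_div, ← hYdef, ← hP]
    generalize (∏ m, 1 / Rt (zz c0 κ a0 Y m q)) = g1
    generalize (∏ i, ∏ l ∈ Finset.Ioi i, HH (Complex.exp (I * (a0 + hh c0 κ a0 Y i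
      (Real.sqrt q.1)))) (om (zz c0 κ a0 Y i q)) (Complex.exp (I * (a0 + hh c0 κ a0 Y l
      (Real.sqrt q.1)))) (om (zz c0 κ a0 Y l q))) = g2
    field_simp
  have hGc : ContinuousOn G U := by
    rw [hG]
    exact continuousOn_const.mul (ContinuousOn.inv₀ (by fun_prop) (fun u hu => hu))
  have h2 : ∀ u0 ∈ U, ∀ᶠ q : ℝ × ℂ in (𝓝[>] 0) ×ˢ 𝓝 u0, DifferentiableAt ℂ (F q.1) q.2 := by
    intro u0 hu0
    have e0 : ∀ᶠ q : ℝ × ℂ in lf u0, DifferentiableAt ℂ (F q.1) q.2 := by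
      filter_upwards [hzz u0, hne u0 hu0] with q hz hq1
      have e1 : DifferentiableAt ℂ (fun c => XI d c0 κ ϑ c (fun i => a0 + Real.sqrt q.1 * y i))
          (c0 + q.1 * q.2) := by
        apply XI_diff
        · intro m
          rw [zz_eq y k hk q m]
          exact hz m
        · rw [prodw_eq y h k hk hτ q]
          exact hq1
      have e2 : DifferentiableAt ℂ (fun u : ℂ => (c0 : ℂ) + q.1 * u) q.2 := by fun_prop
      exact (DifferentiableAt.comp (q.2) e1 e2).const_mul _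
    exact e0
  have hre : 0 < (α * I + β).re := by
    have e1 : α * I + β = (((d + 1) / Real.sin δ0 : ℝ) : ℂ) -
        I * ((Real.cos δ0 / Real.sin δ0 * QQ y : ℝ) : ℂ) * κ' ^ 2 := by
      rw [hα, hβ]
      push_cast
      have hI : (I : ℂ) * I = -1 := I_mul_I
      linear_combination (-((d + 1 : ℂ)) / (Complex.sin δ0)) * hI
    have e2 : κ' ^ 2 = ((1 - (κ * dbet c0 δ0) ^ 2 : ℝ) : ℂ) + ((2 * (κ * dbet c0 δ0) : ℝ) : ℂ) * I := by
      rw [hκ']
      push_cast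
      linear_combination ((κ : ℂ) * dbet c0 δ0) ^ 2 * I_mul_I
    have e3 : α * I + β = (((d + 1) / Real.sin δ0 +
        (Real.cos δ0 / Real.sin δ0 * QQ y) * (2 * (κ * dbet c0 δ0)) : ℝ) : ℂ) +
        ((-((Real.cos δ0 / Real.sin δ0 * QQ y) * (1 - (κ * dbet c0 δ0) ^ 2)) : ℝ) : ℂ) * I := by
      rw [e1, e2]
      push_cast
      linear_combination (-(Complex.cos δ0 / Complex.sin δ0 * (QQ y : ℂ)) *
        (2 * ((κ : ℂ) * dbet c0 δ0))) * I_mul_I
    rw [e3]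
    simp only [Complex.add_re, Complex.ofReal_re, Complex.mul_re, Complex.I_re, Complex.ofReal_im,
      Complex.I_im, mul_zero, zero_mul, sub_self, add_zero]
    have hdpos : 0 ≤ dbet c0 δ0 := by
      unfold dbet
      apply div_nonneg
      · rw [h.hc]
        linarith [h.cos_lt]
      · positivity
    have hQ : 0 ≤ QQ y := Finset.sum_nonneg fun i _ => sq_nonneg _
    have hc := h.cos_pos
    have e4 : 0 < ((d : ℝ) + 1) / Real.sin δ0 := by positivity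
    have e5 : 0 ≤ (Real.cos δ0 / Real.sin δ0 * QQ y) * (2 * (κ * dbet c0 δ0)) := by positivity
    linarith
  have hIU : I ∈ U := by
    intro h0
    rw [h0] at hre
    simp at hre
  have hfin := tendsto_itd hUo h1 hGc h2 ℓ hIU
  rw [hG, itd_inv] at hfin
  have hlim : Ac * ((-1) ^ ℓ * ℓ.factorial * α ^ ℓ) / (α * I + β) ^ (ℓ + 1) =
      ((2 * κ' ^ d * (1 / (I * (Real.sin δ0 : ℝ))) ^ (d + 1) *
          (-(κ' ^ 2 / (4 * ((Real.sin δ0 : ℝ) : ℂ) ^ 2))) ^ P * ((-1) ^ ℓ * ℓ.factorial *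
            α ^ ℓ)) * V2 y /
          (((d + 1) / Real.sin δ0 : ℝ) -
          I * (Real.cos δ0 / Real.sin δ0 : ℝ) * κ' ^ 2 * QQ y) ^ (ℓ + 1)) := by
    have e1 : α * I + β = ((((d + 1) / Real.sin δ0 : ℝ) : ℂ) -
          I * (Real.cos δ0 / Real.sin δ0 : ℝ) * κ' ^ 2 * QQ y) := by
      rw [hα, hβ]
      push_cast
      linear_combination (-((d + 1 : ℂ)) / (Complex.sin δ0)) * I_mul_I
    rw [e1, hAc]
    ring
  rw [hlim] at hfin
  refine hfin.congr' ?_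
  filter_upwards [self_mem_nhdsWithin] with ε hε
  have e1 := congrFun (itd_affine (fun c => XI d c0 κ ϑ c (fun i => a0 + Real.sqrt ε * y i))
    ((ε : ℂ) / (ε : ℂ) ^ P) ε c0 ℓ) I
  rw [hF]
  simp only
  rw [e1]
  ring

theorem XI_limit {c0 r κ μ C ρ δ0 : ℝ} {K : Set ℂ}
    (hP : KeyPkg c0 r κ μ C ρ K) (hr : r < fe c0) (d ℓ : ℕ) {ϑ : ℝ} (hϑ : ϑ = 0 ∨ ϑ = π)
    (hbal : ∀ t : Fin d → ℝ, ∃ a ∈ Icc (-(fe c0 - r)) (fe c0 - r), bet c0 a = avg c0 (full ϑ t))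
    (hD : DiagRes (d + 1) ϑ c0 δ0) :
    ∃ k0 : ℂ, k0 ≠ 0 ∧ ∀ σ : ℝ, (σ = 1 ∨ σ = -1) → ∀ y : Fin d → ℝ,
      Tendsto (fun ε : ℝ => (ε : ℂ) ^ (ℓ + 1) / (ε : ℂ) ^ (d * (d + 1) / 2) *
          iteratedDeriv ℓ (fun c => XI d c0 κ ϑ c (fun i => σ * δ0 + Real.sqrt ε * y i)) (c0 + ε * I))
        (𝓝[>] 0)
        (𝓝 (k0 * V2 y / (((d + 1) / Real.sin δ0 : ℝ) -
          I * (Real.cos δ0 / Real.sin δ0 : ℝ) * (1 + I * (κ * dbet c0 δ0 : ℝ)) ^ 2 * QQ y) ^ (ℓ + 1))) := by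
  obtain ⟨hδ0, hδ1, hc, hexp, -, -⟩ := hD
  have hdat : ∀ σ : ℝ, (σ = 1 ∨ σ = -1) → Dat c0 δ0 (σ * δ0) := by
    rintro σ (rfl | rfl)
    · exact ⟨hδ0, hδ1, hc, by rw [one_mul], by rw [one_mul]⟩
    · refine ⟨hδ0, hδ1, hc, ?_, ?_⟩
      · rw [neg_one_mul, Real.cos_neg]
      · rw [neg_one_mul, Real.sin_neg]
        ring
  have hd1 := hdat 1 (Or.inl rfl)
  have hs : ((Real.sin δ0 : ℝ) : ℂ) ≠ 0 := by exact_mod_cast hd1.sin_pos.ne'
  have hκ1 : (1 + I * (κ * dbet c0 δ0 : ℝ) : ℂ) ≠ 0 := by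
    intro h0
    have := congrArg Complex.re h0
    simp at this
  have hdn : (((d + 1 : ℕ)) : ℂ) ≠ 0 := by exact_mod_cast Nat.succ_ne_zero d
  refine ⟨2 * (1 + I * (κ * dbet c0 δ0 : ℝ)) ^ d * (1 / (I * (Real.sin δ0 : ℝ))) ^ (d + 1) *
          (-((1 + I * (κ * dbet c0 δ0 : ℝ)) ^ 2 / (4 * ((Real.sin δ0 : ℝ) : ℂ) ^ 2))) ^
            (d * (d + 1) / 2) * ((-1) ^ ℓ * ℓ.factorial *
            (-(I * ((d + 1 : ℕ) : ℂ) / (Real.sin δ0 : ℝ))) ^ ℓ), ?_, fun σ hσ y => ?_⟩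
  rotate_left 1
  · obtain ⟨k, hk⟩ : ∃ k : ℤ, ϑ = (d + 1) * (σ * δ0) + 2 * π * k := by
      have e1 : ∃ k : ℤ, ϑ = (d + 1) * δ0 + 2 * π * k := by
        unfold tau at hexp
        rw [Complex.exp_eq_exp_iff_exists_int] at hexp
        obtain ⟨n, hn⟩ := hexp
        refine ⟨-n, ?_⟩
        have e2 : ((((d + 1 : ℕ) : ℝ) * δ0 : ℝ) : ℂ) = ((ϑ + n * (2 * π) : ℝ) : ℂ) := by
          apply mul_left_cancel₀ I_ne_zero
          push_cast at hn ⊢
          rw [hn]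
          ring
        have e3 := Complex.ofReal_injective e2
        push_cast at e3 ⊢
        linarith
      obtain ⟨k, hk⟩ := e1
      rcases hσ with rfl | rfl
      · exact ⟨k, by rw [one_mul]; exact hk⟩
      · rcases hϑ with rfl | rfl
        · refine ⟨-k, ?_⟩
          push_cast
          linarith
        · refine ⟨1 - k, ?_⟩
          push_cast
          linarith
    have hτ : Complex.exp (I * (((d + 1 : ℕ) : ℝ) * δ0)) = tau ϑ := by
      rw [← hexp]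
      push_cast
      rfl
    exact XI_limit_one hP.κ_pos ℓ (hdat σ hσ) hτ k hk y
  · refine mul_ne_zero (mul_ne_zero (mul_ne_zero (mul_ne_zero two_ne_zero (pow_ne_zero _ hκ1)) ?_)
      ?_) (mul_ne_zero (mul_ne_zero ?_ ?_) ?_)
    · exact pow_ne_zero _ (one_div_ne_zero (mul_ne_zero I_ne_zero hs))
    · apply pow_ne_zero
      apply neg_ne_zero.mpr
      exact div_ne_zero (pow_ne_zero _ hκ1) (mul_ne_zero (by norm_num : (4 : ℂ) ≠ 0) (pow_ne_zero _ hs))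
    · exact pow_ne_zero _ (by norm_num)
    · exact_mod_cast Nat.factorial_ne_zero ℓ
    · apply pow_ne_zero
      apply neg_ne_zero.mpr
      exact div_ne_zero (mul_ne_zero I_ne_zero hdn) hs

end

end IsingNB
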