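import Pool.Agent.Helper98.NB.OmBasic
import Pool.Agent.Helper98.NB.KeyPkg
import Pool.Agent.Helper98.NB.Balance
import Pool.Agent.Helper98.NB.XIBound
import Pool.Agent.Helper98.NB.XIDeriv
import Pool.Agent.Helper98.NB.XILimit
import Pool.Agent.Helper98.NB.Model

/-!
# NB-23b: blow-up of the resonant term

The box is split into two small cubes around the coincidence points and the rest. In the cubes the
angles are rescaled by `sqrt ε` and dominated convergence is applied (`chi_blowup`).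
-/

namespace IsingNB

open Complex Set MeasureTheory Filter Topology
open scoped Real

noncomputable section

/-! ### general lemma -/

theorem bu_continuous_iteratedDeriv {X : Type*} [TopologicalSpace X] (f : X → ℂ → ℂ) (z : ℂ)
    {R : ℝ} (hR : 0 < R)
    (hf : ContinuousOn (Function.uncurry f) (univ ×ˢ Metric.closedBall z R))
    (hd : ∀ x, DifferentiableOn ℂ (f x) (Metric.ball z R)) (ℓ : ℕ) :
    Continuous (fun x => iteratedDeriv ℓ (f x) z) := by
  have hcd : ∀ x, ContDiffAt ℂ ℓ (f x) z := fun x =>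
    ((hd x).contDiffOn Metric.isOpen_ball).contDiffAt
      (Metric.isOpen_ball.mem_nhds (Metric.mem_ball_self hR))
  have hcc : ∀ x, ContinuousOn (f x) (Metric.closedBall z R) := fun x => by
    have : ContinuousOn (fun w => Function.uncurry f (x, w)) (Metric.closedBall z R) :=
      hf.comp (by fun_prop) (fun w hw => ⟨mem_univ _, hw⟩)
    exact this
  rw [continuous_iff_continuousAt]
  intro x0
  rw [ContinuousAt, Metric.tendsto_nhds]
  intro η hη
  have hfac : 0 < (ℓ.factorial : ℝ) := by exact_mod_cast Nat.factorial_pos ℓ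
  set δ : ℝ := η / 2 * R ^ ℓ / ℓ.factorial with hδ
  have hδ0 : 0 < δ := by positivity
  obtain ⟨v, hv, hvk⟩ := (isCompact_closedBall z R).mem_uniformity_of_prod hf (mem_univ x0)
    (Metric.dist_mem_uniformity hδ0)
  rw [nhdsWithin_univ] at hv
  filter_upwards [hv] with x hx
  have h1 : ‖iteratedDeriv ℓ (f x - f x0) z‖ ≤ ℓ.factorial * δ / R ^ ℓ := by
    apply Complex.norm_iteratedDeriv_le_of_forall_mem_sphere_norm_le ℓ hR
    · refine ⟨(hd x).sub (hd x0), ?_⟩
      exact ((hcc x).sub (hcc x0)).mono Metric.closure_ball_subset_closedBall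
    · intro w hw
      have := hvk x hx w (Metric.sphere_subset_closedBall hw)
      simp only [Set.mem_ofPred_eq] at this
      rw [Pi.sub_apply, ← dist_eq_norm]
      exact this.le
  rw [iteratedDeriv_sub (hcd x) (hcd x0)] at h1
  rw [dist_eq_norm]
  refine lt_of_le_of_lt h1 ?_
  rw [hδ]
  field_simp
  linarith

theorem bu_den_pos {c0 : ℝ} (h0 : 0 < c0) (h2 : c0 < 2) (t : ℝ) : 0 < 1 - (c0 - 1) * Real.cos t := by
  have h1 := Real.cos_le_one t
  have h3 := Real.neg_one_le_cos t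
  rcases le_or_gt 0 (c0 - 1) with h | h
  · nlinarith
  · nlinarith

theorem bu_bet_cont {c0 : ℝ} (h0 : 0 < c0) (h2 : c0 < 2) : Continuous (bet c0) := by
  unfold bet
  exact Real.continuous_sin.div (by fun_prop) (fun t => (bu_den_pos h0 h2 t).ne')

theorem bu_dbet_cont {c0 : ℝ} (h0 : 0 < c0) (h2 : c0 < 2) : Continuous (dbet c0) := by
  unfold dbet
  exact Continuous.div (by fun_prop) (by fun_prop) (fun t => (pow_pos (bu_den_pos h0 h2 t) 2).ne')

theorem bu_full_cont {d : ℕ} (ϑ : ℝ) (m : Fin (d + 1)) : Continuous (fun t : Fin d → ℝ => full ϑ t m) := by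
  refine Fin.lastCases ?_ (fun i => ?_) m
  · simp only [full, Fin.snoc_last]; fun_prop
  · simp only [full, Fin.snoc_castSucc]; fun_prop

theorem bu_avg_cont {d : ℕ} {c0 : ℝ} (h0 : 0 < c0) (h2 : c0 < 2) (ϑ : ℝ) :
    Continuous (fun t : Fin d → ℝ => avg c0 (full ϑ t)) := by
  unfold avg
  refine Continuous.div_const (continuous_finsetSum _ fun i _ => ?_) _
  exact (bu_bet_cont h0 h2).comp (bu_full_cont ϑ i)

theorem bu_tor_cont {d : ℕ} {c0 : ℝ} (h0 : 0 < c0) (h2 : c0 < 2) (κ ϑ : ℝ) (m : Fin (d + 1)) :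
    Continuous (fun t : Fin d → ℝ => tor c0 κ ϑ t m) := by
  unfold tor
  refine Continuous.add (Complex.continuous_ofReal.comp (bu_full_cont ϑ m)) ?_
  refine Continuous.mul continuous_const (Complex.continuous_ofReal.comp ?_)
  exact continuous_const.mul (((bu_bet_cont h0 h2).comp (bu_full_cont ϑ m)).sub (bu_avg_cont h0 h2 ϑ))

theorem bu_jac_cont {d : ℕ} {c0 : ℝ} (h0 : 0 < c0) (h2 : c0 < 2) (κ ϑ : ℝ) :
    Continuous (fun t : Fin d → ℝ => jac c0 κ ϑ t) := by
  unfold jac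
  refine Continuous.matrix_det (continuous_matrix fun m k => ?_)
  simp only [Matrix.of_apply]
  have hb := bu_dbet_cont h0 h2
  have hl := bu_full_cont (d := d) ϑ (Fin.last d)
  refine Continuous.sub ?_ ?_
  · by_cases h : m = k
    · simp only [h, if_true]
      refine continuous_const.add (continuous_const.mul (Complex.continuous_ofReal.comp ?_))
      exact continuous_const.mul (hb.comp (by fun_prop))
    · simp only [h, if_false]; exact continuous_const
  · refine continuous_const.mul (Complex.continuous_ofReal.comp (continuous_const.mul ?_))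
    exact ((hb.comp (by fun_prop)).sub (hb.comp hl)).div_const _

/-- the good set of parameters -/
def buGood (d : ℕ) (c0 κ ϑ : ℝ) : Set ((Fin d → ℝ) × ℂ) :=
  {p | (∀ m, p.2 - Complex.cos (tor c0 κ ϑ p.1 m) ∈ ZZ) ∧
    1 - tau ϑ * prodw om p.2 (tor c0 κ ϑ p.1) ≠ 0}

theorem bu_om_cont {d : ℕ} {c0 : ℝ} (h0 : 0 < c0) (h2 : c0 < 2) (κ ϑ : ℝ) (m : Fin (d + 1)) :
    ContinuousOn (fun p : (Fin d → ℝ) × ℂ => om (p.2 - Complex.cos (tor c0 κ ϑ p.1 m)))
      (buGood d c0 κ ϑ) := by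
  refine ContinuousOn.comp (t := ZZ) om_analytic.continuousOn ?_ (fun p hp => hp.1 m)
  have := bu_tor_cont (d := d) h0 h2 κ ϑ m
  exact (continuous_snd.sub (Complex.continuous_cos.comp (this.comp continuous_fst))).continuousOn

theorem bu_XI_cont {d : ℕ} {c0 : ℝ} (h0 : 0 < c0) (h2 : c0 < 2) (κ ϑ : ℝ) :
    ContinuousOn (fun p : (Fin d → ℝ) × ℂ => XI d c0 κ ϑ p.2 p.1) (buGood d c0 κ ϑ) := by
  have ho := fun m => bu_om_cont (d := d) h0 h2 κ ϑ m
  have hp : ContinuousOn (fun p : (Fin d → ℝ) × ℂ => prodw om p.2 (tor c0 κ ϑ p.1))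
      (buGood d c0 κ ϑ) := by
    unfold prodw
    exact continuousOn_finsetProd _ fun m _ => ho m
  have he : ∀ m, Continuous (fun p : (Fin d → ℝ) × ℂ => Complex.exp (I * tor c0 κ ϑ p.1 m)) :=
    fun m => Complex.continuous_exp.comp
      (continuous_const.mul ((bu_tor_cont (d := d) h0 h2 κ ϑ m).comp continuous_fst))
  unfold XI ker pairs HH
  refine ContinuousOn.mul ((bu_jac_cont h0 h2 κ ϑ).comp continuous_fst).continuousOn ?_
  refine ContinuousOn.mul (ContinuousOn.mul ?_ ?_) ?_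
  · refine continuousOn_finsetProd _ fun m _ => ?_
    refine ContinuousOn.div (continuousOn_const.mul (ho m)) (continuousOn_const.sub ((ho m).pow 2)) ?_
    intro p hp
    exact one_sub_om_sq_ne (hp.1 m)
  · refine continuousOn_finsetProd _ fun i _ => continuousOn_finsetProd _ fun k _ => ?_
    refine ContinuousOn.div (ContinuousOn.neg ?_) ?_ ?_
    · exact (((he i).continuousOn.sub (he k).continuousOn).pow 2).mul ((ho i).mul (ho k))
    · exact ((he i).continuousOn.mul (he k).continuousOn).mul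
        ((continuousOn_const.sub ((ho i).mul (ho k))).pow 2)
    · intro p hp
      have h1 := one_sub_om_mul_ne (hp.1 i) (hp.1 k)
      exact mul_ne_zero (mul_ne_zero (Complex.exp_ne_zero _) (Complex.exp_ne_zero _))
        (pow_ne_zero 2 h1)
  · exact ContinuousOn.div (continuousOn_const.add (continuousOn_const.mul hp))
      (continuousOn_const.sub (continuousOn_const.mul hp)) (fun p hp => hp.2)

theorem bu_XI_diff {d : ℕ} {c0 : ℝ} (κ ϑ : ℝ) (t : Fin d → ℝ) (c : ℂ)
    (hc : (t, c) ∈ buGood d c0 κ ϑ) :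
    DifferentiableAt ℂ (fun c => XI d c0 κ ϑ c t) c := by
  have ho : ∀ m, DifferentiableAt ℂ (fun c => om (c - Complex.cos (tor c0 κ ϑ t m))) c := by
    intro m
    have h1 : DifferentiableAt ℂ om (c - Complex.cos (tor c0 κ ϑ t m)) :=
      (om_analytic _ (hc.1 m)).differentiableAt
    exact h1.comp c (differentiableAt_id.sub_const _)
  have hp : DifferentiableAt ℂ (fun c => prodw om c (tor c0 κ ϑ t)) c := by
    unfold prodw
    exact DifferentiableAt.fun_finsetProd fun m _ => ho m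
  unfold XI ker pairs HH
  refine DifferentiableAt.mul (differentiableAt_const _) ?_
  refine DifferentiableAt.mul (DifferentiableAt.mul ?_ ?_) ?_
  · refine DifferentiableAt.fun_finsetProd fun m _ => ?_
    refine DifferentiableAt.div ((differentiableAt_const _).mul (ho m))
      ((differentiableAt_const _).sub ((ho m).pow 2)) ?_
    exact one_sub_om_sq_ne (hc.1 m)
  · refine DifferentiableAt.fun_finsetProd fun i _ => DifferentiableAt.fun_finsetProd fun k _ => ?_
    refine DifferentiableAt.div (DifferentiableAt.neg ?_) ?_ ?_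
    · exact (differentiableAt_const _).mul ((ho i).mul (ho k))
    · exact (differentiableAt_const _).mul
        (((differentiableAt_const _).sub ((ho i).mul (ho k))).pow 2)
    · have h1 := one_sub_om_mul_ne (hc.1 i) (hc.1 k)
      exact mul_ne_zero (mul_ne_zero (Complex.exp_ne_zero _) (Complex.exp_ne_zero _))
        (pow_ne_zero 2 h1)
  · exact DifferentiableAt.div ((differentiableAt_const _).add ((differentiableAt_const _).mul hp))
      ((differentiableAt_const _).sub ((differentiableAt_const _).mul hp)) hc.2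

theorem bu_norm_tau (ϑ : ℝ) : ‖tau ϑ‖ = 1 := by
  unfold tau
  rw [mul_comm]; exact Complex.norm_exp_ofReal_mul_I ϑ

theorem bu_good {c0 r κ μ C ρ : ℝ} {K : Set ℂ}
    (hP : KeyPkg c0 r κ μ C ρ K) (d : ℕ) {ϑ : ℝ}
    (hbal : ∀ t : Fin d → ℝ, ∃ a ∈ Icc (-(fe c0 - r)) (fe c0 - r), bet c0 a = avg c0 (full ϑ t))
    {ε : ℝ} (hε : ε ∈ Ioc 0 ρ) :
    ∃ R > 0, ∀ t : Fin d → ℝ, ∀ c ∈ Metric.closedBall ((c0 : ℂ) + ε * I) R,
      (t, c) ∈ buGood d c0 κ ϑ := by
  have hμ := hP.μ_pos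
  have hC := hP.C_pos
  have hρ := hP.ρ_pos
  refine ⟨min ρ (μ * ε / (2 * C)), ?_, ?_⟩
  · have := hε.1; positivity
  intro t c hc
  obtain ⟨a, ha, hab⟩ := hbal t
  have hε0 := hε.1
  rw [Metric.mem_closedBall, dist_eq_norm] at hc
  have hζ1 : ‖c - (c0 + ε * I)‖ ≤ ρ := hc.trans (min_le_left _ _)
  have hζ2 : ‖c - (c0 + ε * I)‖ ≤ μ * ε / (2 * C) := hc.trans (min_le_right _ _)
  have hcc : ‖c - c0‖ ≤ 2 * ρ := by
    have : c - c0 = (c - (c0 + ε * I)) + ε * I := by ring
    rw [this]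
    refine (norm_add_le _ _).trans ?_
    have : ‖(ε : ℂ) * I‖ = ε := by
      rw [norm_mul, Complex.norm_I, mul_one, Complex.norm_real, Real.norm_of_nonneg hε0.le]
    rw [this]
    linarith [hε.2]
  have hZ : ∀ m, c - Complex.cos (tor c0 κ ϑ t m) ∈ ZZ := by
    intro m
    have := hP.K_sub (hP.mem a ha (full ϑ t m) c hcc)
    have he : tor c0 κ ϑ t m = lam c0 κ a (full ϑ t m) := by
      unfold tor lam; rw [hab]
    rw [he]; exact this
  refine ⟨hZ, ?_⟩
  have hne : prodw om c (tor c0 κ ϑ t) ≠ 0 := by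
    unfold prodw
    exact Finset.prod_ne_zero_iff.2 fun m _ => om_ne_zero _
  have hlog := log_prodw_le hP d ϑ t ha hab (ε := ε) ⟨hε0.le, hε.2⟩ (ζ := c - (c0 + ε * I)) hζ1
  have hcε : (c0 : ℂ) + ε * I + (c - (c0 + ε * I)) = c := by ring
  rw [hcε] at hlog
  have hch : 0 ≤ ∑ i, ch (full ϑ t i) a := Finset.sum_nonneg fun i _ => by unfold ch; positivity
  have hd : (0 : ℝ) < (d : ℝ) + 1 := by positivity
  have h1 : C * (d + 1) * ‖c - (c0 + ε * I)‖ ≤ (d + 1) * (μ * ε / 2) := by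
    have := mul_le_mul_of_nonneg_left hζ2 (mul_pos hC hd).le
    refine this.trans (le_of_eq ?_)
    field_simp
  have h2 : Real.log ‖prodw om c (tor c0 κ ϑ t)‖ < 0 := by
    refine lt_of_le_of_lt hlog ?_
    have h3 : 0 < (d + 1) * (μ * ε / 2) := by positivity
    nlinarith [mul_nonneg hμ.le hch]
  have h3 : ‖prodw om c (tor c0 κ ϑ t)‖ < 1 := by
    by_contra hcon
    exact absurd (Real.log_nonneg (not_lt.1 hcon)) (not_le.2 h2)
  intro h4
  have h5 : tau ϑ * prodw om c (tor c0 κ ϑ t) = 1 := by linear_combination -h4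
  have h6 := congrArg norm h5
  rw [norm_mul, bu_norm_tau, one_mul, norm_one] at h6
  linarith

theorem bu_ch_eq (t a : ℝ) : ch t a = 2 - 2 * Real.cos (t - a) := by
  unfold ch
  rw [mul_comm I, mul_comm I, Complex.exp_mul_I, Complex.exp_mul_I, ← Complex.ofReal_cos,
    ← Complex.ofReal_sin, ← Complex.ofReal_cos, ← Complex.ofReal_sin, ← Complex.normSq_eq_norm_sq,
    Complex.normSq_apply]
  simp only [Complex.sub_re, Complex.add_re, Complex.ofReal_re, Complex.mul_re, Complex.I_re,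
    Complex.ofReal_im, Complex.I_im, Complex.sub_im, Complex.add_im, Complex.mul_im]
  rw [Real.cos_sub]
  nlinarith [Real.sin_sq_add_cos_sq t, Real.sin_sq_add_cos_sq a]

theorem bu_ch_le_four (t a : ℝ) : ch t a ≤ 4 := by
  rw [bu_ch_eq]; linarith [Real.neg_one_le_cos (t - a)]

theorem bu_ch_nonneg (t a : ℝ) : 0 ≤ ch t a := by unfold ch; positivity

theorem bu_ch_cont (a : ℝ) : Continuous (fun t => ch t a) := by
  have : (fun t => ch t a) = fun t => 2 - 2 * Real.cos (t - a) := by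
    funext t; exact bu_ch_eq t a
  rw [this]; fun_prop

theorem bu_ch_congr {t t' a a' : ℝ} (h : Complex.exp (I * t) = Complex.exp (I * t'))
    (h' : Complex.exp (I * a) = Complex.exp (I * a')) : ch t a = ch t' a' := by
  unfold ch; rw [h, h']

theorem bu_ch_le_sq (t a : ℝ) : ch t a ≤ (t - a) ^ 2 := by
  rw [bu_ch_eq]
  have := Real.one_sub_sq_div_two_le_cos (x := t - a)
  linarith

theorem bu_sq_le_ch {t a : ℝ} (h : |t - a| ≤ π) : 4 / π ^ 2 * (t - a) ^ 2 ≤ ch t a := by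
  rw [bu_ch_eq]
  have := Real.cos_le_one_sub_mul_cos_sq h
  have h2 : 4 / π ^ 2 * (t - a) ^ 2 = 2 * (2 / π ^ 2 * (t - a) ^ 2) := by ring
  rw [h2]; linarith

/-- the angles near a coincidence point -/
theorem bu_expT {d : ℕ} {ϑ δ0 σ h : ℝ} (hσ : Complex.exp (I * ((d + 1 : ℕ) * (σ * δ0) : ℝ)) = tau ϑ)
    (y : Fin d → ℝ) (i : Fin (d + 1)) :
    Complex.exp (I * (full ϑ (fun i => σ * δ0 + h * y i) i : ℝ)) =
      Complex.exp (I * ((σ * δ0 + h * full 0 y i : ℝ) : ℂ)) := by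
  refine Fin.lastCases ?_ (fun i => ?_) i
  · simp only [full, Fin.snoc_last]
    have h1 : (ϑ - ∑ i : Fin d, (σ * δ0 + h * y i) : ℝ) =
        ϑ + (-((d + 1 : ℕ) * (σ * δ0))) + (σ * δ0 + h * (0 - ∑ i, y i)) := by
      rw [Finset.sum_add_distrib, Finset.sum_const, Finset.card_univ, Fintype.card_fin,
        ← Finset.mul_sum]
      push_cast
      rw [nsmul_eq_mul]
      ring
    rw [h1, Complex.ofReal_add, Complex.ofReal_add, mul_add, mul_add, Complex.exp_add,
      Complex.exp_add]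
    have h2 : Complex.exp (I * (ϑ : ℂ)) * Complex.exp (I * ((-((d + 1 : ℕ) * (σ * δ0)) : ℝ) : ℂ)) = 1 := by
      have h3 : Complex.exp (I * (ϑ : ℂ)) = tau ϑ := rfl
      rw [h3, ← hσ, ← Complex.exp_add, ← mul_add, ← Complex.ofReal_add]
      simp
    rw [h2, one_mul]
  · simp only [full, Fin.snoc_castSucc]

theorem bu_ch_T {d : ℕ} {ϑ δ0 σ h : ℝ} (hσ : Complex.exp (I * ((d + 1 : ℕ) * (σ * δ0) : ℝ)) = tau ϑ)
    (y : Fin d → ℝ) (i k : Fin (d + 1)) :
    ch (full ϑ (fun i => σ * δ0 + h * y i) i) (full ϑ (fun i => σ * δ0 + h * y i) k) =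
      ch (σ * δ0 + h * full 0 y i) (σ * δ0 + h * full 0 y k) :=
  bu_ch_congr (bu_expT hσ y i) (bu_expT hσ y k)

theorem bu_sum_card (d : ℕ) : ∑ i : Fin (d + 1), (Finset.Ioi i).card = d * (d + 1) / 2 := by
  have : ∀ i : Fin (d + 1), (Finset.Ioi i).card = d - i := by
    intro i; rw [Fin.card_Ioi]; omega
  rw [Finset.sum_congr rfl (fun i _ => this i), Fin.sum_univ_eq_sum_range (fun i => d - i) (d + 1)]
  have h := Finset.sum_range_reflect (fun i => i) (d + 1)
  rw [Finset.sum_range_id] at h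
  rw [show d * (d + 1) / 2 = (d + 1) * (d + 1 - 1) / 2 by rw [mul_comm]; rfl, ← h]
  refine Finset.sum_congr rfl fun i hi => ?_
  omega

theorem bu_V2c_le {d : ℕ} {ϑ δ0 σ h : ℝ}
    (hσ : Complex.exp (I * ((d + 1 : ℕ) * (σ * δ0) : ℝ)) = tau ϑ) (y : Fin d → ℝ) :
    V2c (full ϑ (fun i => σ * δ0 + h * y i)) ≤ (h ^ 2) ^ (d * (d + 1) / 2) * V2 y := by
  unfold V2c V2
  have h1 : (h ^ 2) ^ (d * (d + 1) / 2) = ∏ i : Fin (d + 1), ∏ _k ∈ Finset.Ioi i, h ^ 2 := by
    simp only [Finset.prod_const]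
    rw [Finset.prod_pow_eq_pow_sum, bu_sum_card]
  rw [h1, ← Finset.prod_mul_distrib]
  refine Finset.prod_le_prod (fun i _ => Finset.prod_nonneg fun k _ => bu_ch_nonneg _ _) fun i _ => ?_
  rw [← Finset.prod_mul_distrib]
  refine Finset.prod_le_prod (fun k _ => bu_ch_nonneg _ _) fun k _ => ?_
  rw [bu_ch_T hσ]
  refine (bu_ch_le_sq _ _).trans (le_of_eq ?_)
  ring

theorem bu_V2_nonneg {d : ℕ} (y : Fin d → ℝ) : 0 ≤ V2 y := by
  unfold V2
  exact Finset.prod_nonneg fun i _ => Finset.prod_nonneg fun k _ => sq_nonneg _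

theorem bu_QQ_nonneg {d : ℕ} (y : Fin d → ℝ) : 0 ≤ QQ y := by
  unfold QQ
  exact Finset.sum_nonneg fun i _ => sq_nonneg _

/-- lower bound for `DD` in the small cube -/
theorem bu_DD_ge {d : ℕ} (hd : 1 ≤ d) {ϑ δ0 : ℝ} (hδ : 0 < δ0) (hδ' : δ0 < π / 2) :
    ∃ s > 0, s ≤ δ0 ∧ ∃ cc > 0, ∀ σ h : ℝ, (σ = 1 ∨ σ = -1) →
      Complex.exp (I * ((d + 1 : ℕ) * (σ * δ0) : ℝ)) = tau ϑ → ∀ y : Fin d → ℝ,
      (∀ i, |h * y i| ≤ s) → cc * (h ^ 2 * QQ y) ≤ DD ϑ δ0 (fun i => σ * δ0 + h * y i) := by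
  have hd0 : (0 : ℝ) < d := by exact_mod_cast hd
  set s : ℝ := δ0 / (d + 1) with hs
  have hs0 : 0 < s := by positivity
  have hsδ : s ≤ δ0 := by
    rw [hs, div_le_iff₀ (by positivity)]
    nlinarith
  have hds : d * s ≤ δ0 := by
    rw [hs]
    rw [mul_div_assoc', div_le_iff₀ (by positivity)]
    nlinarith
  -- lower bound for the far chord
  set m : ℝ := 2 - 2 * max (Real.cos δ0) (Real.cos (3 * δ0)) with hm
  have hm0 : 0 < m := by
    have h1 : Real.cos δ0 < 1 := by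
      have := Real.cos_lt_cos_of_nonneg_of_le_pi le_rfl (by linarith [Real.pi_pos]) hδ
      simpa using this
    have h2 : Real.cos (3 * δ0) < 1 := by
      rw [← Real.cos_zero]
      refine lt_of_le_of_ne (by rw [Real.cos_zero]; exact Real.cos_le_one _) ?_
      intro h3
      rw [Real.cos_zero, Real.cos_eq_one_iff_of_lt_of_lt (by linarith [Real.pi_pos])
        (by linarith [Real.pi_pos])] at h3
      linarith
    rw [hm]
    have := max_lt h1 h2
    linarith
  have hQs : ∀ (h : ℝ) (y : Fin d → ℝ), (∀ i, |h * y i| ≤ s) → h ^ 2 * QQ y ≤ (d + 1) * δ0 ^ 2 ∧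
      ∀ i, |h * full 0 y i| ≤ δ0 := by
    intro h y hy
    have h1 : ∀ i, |h * full 0 y i| ≤ δ0 := by
      intro i
      refine Fin.lastCases ?_ (fun i => ?_) i
      · simp only [full, Fin.snoc_last]
        rw [zero_sub, mul_neg, abs_neg, Finset.mul_sum]
        refine (Finset.abs_sum_le_sum_abs _ _).trans ?_
        refine (Finset.sum_le_sum fun i _ => hy i).trans ?_
        rw [Finset.sum_const, Finset.card_univ, Fintype.card_fin, nsmul_eq_mul]
        exact hds
      · simp only [full, Fin.snoc_castSucc]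
        exact (hy i).trans hsδ
    refine ⟨?_, h1⟩
    unfold QQ
    rw [Finset.mul_sum]
    have : ∀ i ∈ (Finset.univ : Finset (Fin (d + 1))), h ^ 2 * full 0 y i ^ 2 ≤ δ0 ^ 2 := by
      intro i _
      rw [← mul_pow]
      exact sq_le_sq' (by linarith [(abs_le.1 (h1 i)).1]) (abs_le.1 (h1 i)).2
    refine (Finset.sum_le_sum this).trans ?_
    rw [Finset.sum_const, Finset.card_univ, Fintype.card_fin, nsmul_eq_mul]
    push_cast; exact le_rfl
  refine ⟨s, hs0, hsδ, min (4 / π ^ 2) (m / ((d + 1) * δ0 ^ 2)), by positivity, ?_⟩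
  intro σ h hσ1 hσ y hy
  obtain ⟨hq, hf⟩ := hQs h y hy
  have hQ := bu_QQ_nonneg y
  -- near sum
  have hnear : 4 / π ^ 2 * (h ^ 2 * QQ y) ≤
      ∑ i, ch (full ϑ (fun i => σ * δ0 + h * y i) i) (σ * δ0) := by
    unfold QQ
    rw [Finset.mul_sum, Finset.mul_sum]
    refine Finset.sum_le_sum fun i _ => ?_
    rw [bu_ch_congr (bu_expT hσ y i) rfl]
    have h1 : |(σ * δ0 + h * full 0 y i) - σ * δ0| ≤ π := by
      rw [add_sub_cancel_left]
      exact (hf i).trans (by linarith [Real.pi_pos])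
    refine le_trans (le_of_eq ?_) (bu_sq_le_ch h1)
    ring
  have hfar : m ≤ ∑ i, ch (full ϑ (fun i => σ * δ0 + h * y i) i) (-(σ * δ0)) := by
    have h0 : m ≤ ch (full ϑ (fun i => σ * δ0 + h * y i) 0) (-(σ * δ0)) := by
      rw [bu_ch_congr (bu_expT hσ y 0) rfl, bu_ch_eq, hm]
      have hx := hf 0
      set x := h * full 0 y 0
      have h3 : Real.cos (σ * δ0 + x - -(σ * δ0)) = Real.cos (2 * δ0 + σ * x) := by
        rcases hσ1 with rfl | rfl
        · congr 1; ring
        · rw [← Real.cos_neg]; congr 1; ring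
      rw [h3]
      have hx' : |σ * x| ≤ δ0 := by
        rcases hσ1 with rfl | rfl
        · simpa using hx
        · simpa using hx
      have hx1 := (abs_le.1 hx').1
      have hx2 := (abs_le.1 hx').2
      have h4 : Real.cos (2 * δ0 + σ * x) ≤ max (Real.cos δ0) (Real.cos (3 * δ0)) := by
        rcases le_or_gt (2 * δ0 + σ * x) π with h5 | h5
        · refine le_max_of_le_left ?_
          exact Real.cos_le_cos_of_nonneg_of_le_pi hδ.le h5 (by linarith)
        · refine le_max_of_le_right ?_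
          have h6 : Real.cos (2 * δ0 + σ * x) = Real.cos (2 * π - (2 * δ0 + σ * x)) := by
            rw [Real.cos_two_pi_sub]
          have h7 : Real.cos (3 * δ0) = Real.cos (2 * π - 3 * δ0) := by
            rw [Real.cos_two_pi_sub]
          rw [h6, h7]
          exact Real.cos_le_cos_of_nonneg_of_le_pi (by linarith) (by linarith) (by linarith)
      linarith
    refine h0.trans ?_
    exact Finset.single_le_sum (f := fun i => ch (full ϑ (fun i => σ * δ0 + h * y i) i) (-(σ * δ0)))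
      (fun i _ => bu_ch_nonneg _ _) (Finset.mem_univ 0)
  have hmin1 : min (4 / π ^ 2) (m / ((d + 1) * δ0 ^ 2)) * (h ^ 2 * QQ y) ≤
      ∑ i, ch (full ϑ (fun i => σ * δ0 + h * y i) i) (σ * δ0) :=
    (mul_le_mul_of_nonneg_right (min_le_left _ _) (by positivity)).trans hnear
  have hmin2 : min (4 / π ^ 2) (m / ((d + 1) * δ0 ^ 2)) * (h ^ 2 * QQ y) ≤
      ∑ i, ch (full ϑ (fun i => σ * δ0 + h * y i) i) (-(σ * δ0)) := by
    refine (mul_le_mul_of_nonneg_right (min_le_right _ _) (by positivity)).trans ?_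
    refine le_trans ?_ hfar
    have h1 : m / ((d + 1) * δ0 ^ 2) * (h ^ 2 * QQ y) ≤ m / ((d + 1) * δ0 ^ 2) * ((d + 1) * δ0 ^ 2) :=
      mul_le_mul_of_nonneg_left hq (by positivity)
    refine h1.trans (le_of_eq ?_)
    field_simp
  unfold DD
  rcases hσ1 with rfl | rfl
  · simp only [one_mul] at hmin1 hmin2 ⊢
    exact le_min hmin1 hmin2
  · simp only [neg_mul, one_mul, neg_neg] at hmin1 hmin2 ⊢
    exact le_min hmin2 hmin1

theorem bu_DD_cont {d : ℕ} (ϑ δ0 : ℝ) : Continuous (fun t : Fin d → ℝ => DD ϑ δ0 t) := by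
  unfold DD
  refine Continuous.min ?_ ?_
  · exact continuous_finsetSum _ fun i _ => (bu_ch_cont _).comp (bu_full_cont ϑ i)
  · exact continuous_finsetSum _ fun i _ => (bu_ch_cont _).comp (bu_full_cont ϑ i)

theorem bu_ch_zero {t a : ℝ} (ht : |t - a| < 2 * π) (h : ch t a = 0) : t = a := by
  rw [bu_ch_eq] at h
  have h1 : Real.cos (t - a) = 1 := by linarith
  have h2 := abs_lt.1 ht
  rw [Real.cos_eq_one_iff_of_lt_of_lt h2.1 h2.2] at h1
  linarith

theorem bu_DD_pos {d : ℕ} {ϑ δ0 : ℝ} (hδ : 0 < δ0) (hδ' : δ0 < π / 2) {t : Fin d → ℝ}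
    (ht : t ∈ box d) (h1 : t ≠ fun _ => δ0) (h2 : t ≠ fun _ => -δ0) : 0 < DD ϑ δ0 t := by
  have key : ∀ σ : ℝ, |σ| < π → (t ≠ fun _ => σ) → 0 < ∑ i, ch (full ϑ t i) σ := by
    intro σ hσ hne
    have hnn : 0 ≤ ∑ i, ch (full ϑ t i) σ := Finset.sum_nonneg fun i _ => bu_ch_nonneg _ _
    refine lt_of_le_of_ne hnn fun h0 => hne ?_
    funext i
    have h3 := (Finset.sum_eq_zero_iff_of_nonneg (fun i _ => bu_ch_nonneg (full ϑ t i) σ)).1 h0.symm
      i.castSucc (Finset.mem_univ _)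
    simp only [full, Fin.snoc_castSucc] at h3
    refine bu_ch_zero ?_ h3
    have h4 := ht.1 i
    have h5 := ht.2 i
    simp only at h4 h5
    have h6 := abs_lt.1 hσ
    rw [abs_lt]
    constructor <;> linarith
  unfold DD
  refine lt_min (key δ0 ?_ h1) (key (-δ0) ?_ h2)
  · rw [abs_of_pos hδ]; linarith [Real.pi_pos]
  · rw [abs_neg, abs_of_pos hδ]; linarith [Real.pi_pos]

/-- the small cubes -/
def buQ (d : ℕ) (s a : ℝ) : Set (Fin d → ℝ) := {t | ∀ i, |t i - a| < s}

theorem bu_isOpen_Q (d : ℕ) (s a : ℝ) : IsOpen (buQ d s a) := by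
  have : buQ d s a = ⋂ i : Fin d, {t | |t i - a| < s} := by
    ext t; simp [buQ]
  rw [this]
  refine isOpen_iInter_of_finite fun i => ?_
  exact isOpen_lt (by fun_prop) continuous_const

theorem bu_cov {d : ℕ} (S : Set (Fin d → ℝ)) (hS : MeasurableSet S) (G : (Fin d → ℝ) → ℂ) (a : ℝ) {h : ℝ}
    (hh : 0 < h) :
    ∫ y : Fin d → ℝ, S.indicator G (fun i => a + h * y i) = ((h : ℂ) ^ d)⁻¹ * ∫ t in S, G t := by
  have h1 := MeasureTheory.Measure.integral_comp_smul (volume : Measure (Fin d → ℝ))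
    (fun x : Fin d → ℝ => S.indicator G (fun i => a + x i)) h
  have h2 : ∫ x : Fin d → ℝ, S.indicator G (fun i => a + x i) = ∫ t, S.indicator G t := by
    have := MeasureTheory.integral_add_left_eq_self (μ := (volume : Measure (Fin d → ℝ)))
      (S.indicator G) (fun _ => a)
    rw [← this]
    rfl
  rw [integral_indicator hS] at h2
  rw [h2] at h1
  have h3 : (fun y : Fin d → ℝ => S.indicator G (fun i => a + h * y i)) =
      fun y : Fin d → ℝ => S.indicator G (fun i => a + (h • y) i) := by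
    funext y; rfl
  rw [h3, h1, Module.finrank_fin_fun, abs_of_pos (by positivity), Complex.real_smul]
  push_cast
  rfl

theorem chi_blowup {c0 δ0 : ℝ} {ϑ : ℝ} (hϑ : ϑ = 0 ∨ ϑ = π) (d : ℕ) (hd : 1 ≤ d)
    (hD : DiagRes (d + 1) ϑ c0 δ0) :
    Tendsto (fun ε : ℝ => ‖iteratedDeriv ((d + 1) ^ 2 / 2) (chi d ϑ) (c0 + ε * I)‖) (𝓝[>] 0) atTop := by
  have hD' := hD
  obtain ⟨hδ, hδ', hc0, hτ, hdiag, hedge⟩ := hD'
  have hπ := Real.pi_pos
  have hcos0 : 0 < Real.cos δ0 := Real.cos_pos_of_mem_Ioo ⟨by linarith, hδ'⟩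
  have hcos1 : Real.cos δ0 < 1 := by
    have := Real.cos_lt_cos_of_nonneg_of_le_pi le_rfl (by linarith) hδ
    simpa using this
  have hsin0 : 0 < Real.sin δ0 := Real.sin_pos_of_pos_of_lt_pi hδ (by linarith)
  have h0 : 0 < c0 := by rw [hc0]; linarith
  have h2 : c0 < 2 := by rw [hc0]; linarith
  obtain ⟨r, hr, hbal⟩ := exists_balance d hϑ h0 h2 hedge
  obtain ⟨κ, μ, C, ρ, K, hP⟩ := exists_keyPkg h0 h2 hr.1 hr.2
  have hρ := hP.ρ_pos
  have hκ := hP.κ_pos
  set ℓ : ℕ := (d + 1) ^ 2 / 2 with hℓ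
  set P : ℕ := d * (d + 1) / 2 with hPdef
  have h2P : 2 * P = d * (d + 1) := by
    rw [hPdef]; exact Nat.mul_div_cancel' (Nat.even_mul_succ_self d).two_dvd
  have hsq : (d + 1) ^ 2 = d * (d + 1) + d + 1 := by ring
  set G : ℝ → (Fin d → ℝ) → ℂ := fun ε t =>
    iteratedDeriv ℓ (fun c => XI d c0 κ ϑ c t) (c0 + ε * I) with hG
  have hGc : ∀ ε ∈ Ioc 0 ρ, Continuous (G ε) := by
    intro ε hε
    obtain ⟨R, hR, hgood⟩ := bu_good hP d hbal hε
    refine bu_continuous_iteratedDeriv (fun t c => XI d c0 κ ϑ c t) _ hR ?_ ?_ ℓ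
    · refine (bu_XI_cont h0 h2 κ ϑ).mono ?_
      rintro ⟨t, c⟩ ⟨_, hc⟩
      exact hgood t c hc
    · intro t c hc
      exact (bu_XI_diff κ ϑ t c (hgood t c (Metric.ball_subset_closedBall hc))).differentiableWithinAt
  obtain ⟨C1, hC1, ε1, hε1, hbd⟩ := XI_deriv_bound hP d ℓ hϑ hbal hD
  obtain ⟨k0, hk0, hlim⟩ := XI_limit hP hr.2 d ℓ hϑ hbal hD
  obtain ⟨s, hs, hsδ, cc, hcc, hDD⟩ := bu_DD_ge (ϑ := ϑ) hd hδ hδ'
  have hexp : ∀ σ : ℝ, (σ = 1 ∨ σ = -1) → Complex.exp (I * ((d + 1 : ℕ) * (σ * δ0) : ℝ)) = tau ϑ := by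
    intro σ hσ
    have hτ1 : Complex.exp (I * ((d + 1 : ℕ) * (δ0 : ℂ))) = tau ϑ := hτ
    rcases hσ with rfl | rfl
    · rw [← hτ1]; congr 1; push_cast; ring
    · have h3 : tau ϑ * tau ϑ = 1 := by
        unfold tau
        rw [← Complex.exp_add]
        rcases hϑ with rfl | rfl
        · simp
        · rw [show I * (π : ℂ) + I * (π : ℂ) = 2 * π * I by ring]
          exact Complex.exp_two_pi_mul_I
      have h4 : Complex.exp (I * ((d + 1 : ℕ) * (-1 * δ0) : ℝ)) * Complex.exp (I * ((d + 1 : ℕ) * (δ0 : ℂ))) = 1 := by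
        rw [← Complex.exp_add]
        have : I * (((d + 1 : ℕ) * (-1 * δ0) : ℝ) : ℂ) + I * ((d + 1 : ℕ) * (δ0 : ℂ)) = 0 := by
          push_cast; ring
        rw [this, Complex.exp_zero]
      rw [hτ1] at h4
      have h5 : tau ϑ ≠ 0 := Complex.exp_ne_zero _
      exact mul_right_cancel₀ h5 (h4.trans h3.symm)
  -- the cubes
  set Q : ℝ → Set (Fin d → ℝ) := fun σ => buQ d s (σ * δ0) with hQ
  have hQo : ∀ σ, IsOpen (Q σ) := fun σ => bu_isOpen_Q d s _
  have hQbox : ∀ σ, (σ = 1 ∨ σ = -1) → Q σ ⊆ box d := by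
    intro σ hσ t ht
    refine ⟨fun i => ?_, fun i => ?_⟩ <;>
    · have h3 := abs_lt.1 (ht i)
      simp only
      rcases hσ with rfl | rfl <;> linarith
  have hdisj : Disjoint (Q 1) (Q (-1)) := by
    rw [Set.disjoint_left]
    intro t ht1 ht2
    have h3 := abs_lt.1 (ht1 ⟨0, hd⟩)
    have h4 := abs_lt.1 (ht2 ⟨0, hd⟩)
    linarith
  set Rest : Set (Fin d → ℝ) := box d \ (Q 1 ∪ Q (-1)) with hRest
  have hboxc : IsCompact (box d) := isCompact_Icc
  have hRc : IsCompact Rest := hboxc.diff ((hQo 1).union (hQo (-1)))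
  obtain ⟨dd, hdd, hddle⟩ := hRc.exists_forall_le' (a := 0) (bu_DD_cont ϑ δ0).continuousOn (by
    intro t ht
    refine bu_DD_pos hδ hδ' ht.1 ?_ ?_
    · rintro rfl
      exact ht.2 (Or.inl fun i => by simpa using hs)
    · rintro rfl
      exact ht.2 (Or.inr fun i => by simpa using hs))
  have hV2c : ∀ t : Fin (d + 1) → ℝ, V2c t ≤ 4 ^ P := by
    intro t
    unfold V2c
    have h1 : (4 : ℝ) ^ P = ∏ i : Fin (d + 1), ∏ _k ∈ Finset.Ioi i, (4 : ℝ) := by
      simp only [Finset.prod_const]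
      rw [Finset.prod_pow_eq_pow_sum, bu_sum_card]
    rw [h1]
    refine Finset.prod_le_prod (fun i _ => Finset.prod_nonneg fun k _ => bu_ch_nonneg _ _) fun i _ => ?_
    exact Finset.prod_le_prod (fun k _ => bu_ch_nonneg _ _) fun k _ => bu_ch_le_four _ _
  -- bound on the rest
  have hrest : ∀ ε ∈ Ioo 0 ε1, ‖∫ t in Rest, G ε t‖ ≤ (C1 * 4 ^ P / dd ^ (ℓ + 1)) * volume.real Rest := by
    intro ε hε
    refine norm_setIntegral_le_of_norm_le_const hRc.measure_lt_top ?_
    intro t ht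
    refine (hbd ε hε t ht.1).trans ?_
    have h3 : dd ≤ ε + DD ϑ δ0 t := by linarith [hddle t ht, hε.1]
    gcongr
    exact hV2c _
  -- scaled functions
  set A : ℝ := (d + 1) / Real.sin δ0 with hA
  have hA0 : 0 < A := by positivity
  set B : ℂ := -(I * (Real.cos δ0 / Real.sin δ0 : ℝ) * (1 + I * (κ * dbet c0 δ0 : ℝ)) ^ 2) with hB
  have hdb : 0 < dbet c0 δ0 := by
    unfold dbet
    have h3 : 0 < Real.cos δ0 - (c0 - 1) := by rw [hc0]; linarith
    have h4 := bu_den_pos h0 h2 δ0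
    positivity
  have hBre : 0 < B.re := by
    have : B.re = 2 * (Real.cos δ0 / Real.sin δ0) * (κ * dbet c0 δ0) := by
      rw [hB]
      generalize Real.cos δ0 / Real.sin δ0 = u
      generalize κ * dbet c0 δ0 = v
      simp [pow_two]
      ring
    rw [this]
    positivity
  obtain ⟨hint, hne⟩ := model_ne_zero (d := d) (k := ℓ + 1) hd (by omega) hA0 hBre
  set I0 : ℂ := ∫ y : Fin d → ℝ, (V2 y : ℂ) / (A + B * QQ y) ^ (ℓ + 1) with hI0
  set F : ℝ → ℝ → (Fin d → ℝ) → ℂ := fun σ ε y =>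
    ((ε : ℂ) ^ (ℓ + 1) / (ε : ℂ) ^ P) * (Q σ).indicator (G ε) (fun i => σ * δ0 + Real.sqrt ε * y i)
    with hF
  set mm : ℝ := min 1 cc with hmm
  have hmm0 : 0 < mm := lt_min one_pos hcc
  have hev : ∀ᶠ ε : ℝ in 𝓝[>] 0, ε ∈ Ioo 0 (min ε1 ρ) := by
    exact Ioo_mem_nhdsGT (lt_min hε1 hρ)
  have hFlim : ∀ σ : ℝ, (σ = 1 ∨ σ = -1) → Tendsto (fun ε => ∫ y, F σ ε y) (𝓝[>] 0) (𝓝 (k0 * I0)) := by
    intro σ hσ
    have hI : k0 * I0 = ∫ y : Fin d → ℝ, k0 * V2 y / (((d + 1) / Real.sin δ0 : ℝ) -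
          I * (Real.cos δ0 / Real.sin δ0 : ℝ) * (1 + I * (κ * dbet c0 δ0 : ℝ)) ^ 2 * QQ y) ^ (ℓ + 1) := by
      rw [hI0, ← integral_const_mul]
      refine integral_congr_ae (Eventually.of_forall fun y => ?_)
      simp only
      rw [mul_div_assoc]
      congr 3
      rw [hB, hA]; ring
    rw [hI]
    refine tendsto_integral_filter_of_dominated_convergence
      (fun y => C1 / mm ^ (ℓ + 1) * (V2 y / (1 + QQ y) ^ (ℓ + 1))) ?_ ?_ (hint.const_mul _) ?_
    · filter_upwards [hev] with ε hε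
      have hc := hGc ε ⟨hε.1, (hε.2.trans_le (min_le_right _ _)).le⟩
      have hm : Measurable ((Q σ).indicator (G ε)) := hc.measurable.indicator (hQo σ).measurableSet
      have hm2 : Measurable (fun y : Fin d → ℝ => (fun i => σ * δ0 + Real.sqrt ε * y i : Fin d → ℝ)) := by
        fun_prop
      exact (measurable_const.mul (hm.comp hm2)).aestronglyMeasurable
    · filter_upwards [hev] with ε hε
      refine Eventually.of_forall fun y => ?_
      have hε0 : 0 < ε := hε.1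
      have hVn := bu_V2_nonneg y
      have hQn := bu_QQ_nonneg y
      by_cases hy : (fun i => σ * δ0 + Real.sqrt ε * y i : Fin d → ℝ) ∈ Q σ
      · have hy' : ∀ i, |Real.sqrt ε * y i| ≤ s := by
          intro i
          have := hy i
          simp only [add_sub_cancel_left] at this
          exact this.le
        have h3 := hbd ε ⟨hε0, hε.2.trans_le (min_le_left _ _)⟩ _ (hQbox σ hσ hy)
        have h4 := hDD σ (Real.sqrt ε) hσ (hexp σ hσ) y hy'
        have h5 := bu_V2c_le (h := Real.sqrt ε) (hexp σ hσ) y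
        rw [Real.sq_sqrt hε0.le] at h4 h5
        have h6 : ε * (mm * (1 + QQ y)) ≤ ε + DD ϑ δ0 (fun i => σ * δ0 + Real.sqrt ε * y i) := by
          have h7 : mm ≤ 1 := min_le_left _ _
          have h8 : mm ≤ cc := min_le_right _ _
          have h9 : ε * (mm * (1 + QQ y)) ≤ ε + cc * (ε * QQ y) := by
            have : ε * (mm * (1 + QQ y)) = ε * mm + mm * (ε * QQ y) := by ring
            rw [this]
            have h10 : 0 ≤ ε * QQ y := by positivity
            nlinarith [mul_le_mul_of_nonneg_right h8 h10]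
          linarith
        have h7 : ‖G ε (fun i => σ * δ0 + Real.sqrt ε * y i)‖ ≤
            C1 * (ε ^ P * V2 y) / (ε * (mm * (1 + QQ y))) ^ (ℓ + 1) := by
          refine h3.trans ?_
          gcongr
        rw [hF]
        simp only
        rw [Set.indicator_of_mem hy, norm_mul, norm_div, norm_pow, norm_pow, Complex.norm_real,
          Real.norm_of_nonneg hε0.le]
        refine (mul_le_mul_of_nonneg_left h7 (by positivity)).trans (le_of_eq ?_)
        have h11 : (0 : ℝ) < 1 + QQ y := by positivity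
        rw [mul_pow, mul_pow]
        field_simp
      · rw [hF]
        simp only
        rw [Set.indicator_of_notMem hy, mul_zero, norm_zero]
        positivity
    · refine Eventually.of_forall fun y => ?_
      refine (hlim σ hσ y).congr' ?_
      have hsq0 : Tendsto (fun ε : ℝ => Real.sqrt ε) (𝓝[>] 0) (𝓝 0) := by
        have := (Real.continuous_sqrt.tendsto 0).mono_left (nhdsWithin_le_nhds (s := Ioi 0))
        simpa using this
      have hevy : ∀ᶠ ε : ℝ in 𝓝[>] 0, ∀ i, |Real.sqrt ε * y i| < s := by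
        rw [eventually_all]
        intro i
        have h3 : Tendsto (fun ε : ℝ => |Real.sqrt ε * y i|) (𝓝[>] 0) (𝓝 |0 * y i|) :=
          (hsq0.mul_const _).abs
        rw [zero_mul, abs_zero] at h3
        exact h3.eventually (gt_mem_nhds hs)
      filter_upwards [hevy] with ε hε
      have hy : (fun i => σ * δ0 + Real.sqrt ε * y i : Fin d → ℝ) ∈ Q σ := by
        intro i
        simp only [add_sub_cancel_left]
        exact hε i
      rw [hF]
      simp only
      rw [Set.indicator_of_mem hy]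
  -- the factor
  set g : ℝ → ℂ := fun ε => ((ε : ℂ) ^ (ℓ + 1) / (ε : ℂ) ^ P) * ((Real.sqrt ε : ℂ) ^ d)⁻¹ with hg
  obtain ⟨q, hq⟩ : ∃ q : ℕ, 2 * (ℓ + 1) = (q + 1) + 2 * P + d := ⟨2 * (ℓ + 1) - 2 * P - d - 1, by omega⟩
  have hgε : ∀ ε : ℝ, 0 < ε → g ε = (Real.sqrt ε : ℂ) ^ (q + 1) := by
    intro ε hε
    have h3 : (ε : ℂ) = (Real.sqrt ε : ℂ) ^ 2 := by
      rw [← Complex.ofReal_pow, Real.sq_sqrt hε.le]
    have h4 : (Real.sqrt ε : ℂ) ≠ 0 := by
      exact_mod_cast (Real.sqrt_pos.2 hε).ne'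
    rw [hg]
    simp only
    rw [h3]
    generalize (Real.sqrt ε : ℂ) = x at h4
    have h5 : (x ^ 2) ^ (ℓ + 1) = x ^ (q + 1) * (x ^ 2) ^ P * x ^ d := by
      rw [← pow_mul, ← pow_mul, ← pow_add, ← pow_add, hq]
    rw [h5]
    field_simp
  have hgnorm : ∀ ε : ℝ, 0 < ε → ‖g ε‖ = (Real.sqrt ε) ^ (q + 1) := by
    intro ε hε
    rw [hgε ε hε, norm_pow, Complex.norm_real, Real.norm_of_nonneg (Real.sqrt_nonneg _)]
  have hsq0 : Tendsto (fun ε : ℝ => Real.sqrt ε) (𝓝[>] 0) (𝓝 0) := by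
    have := (Real.continuous_sqrt.tendsto 0).mono_left (nhdsWithin_le_nhds (s := Ioi 0))
    simpa using this
  have hg0 : Tendsto (fun ε => ‖g ε‖) (𝓝[>] 0) (𝓝 0) := by
    have h3 : Tendsto (fun ε : ℝ => (Real.sqrt ε) ^ (q + 1)) (𝓝[>] 0) (𝓝 (0 ^ (q + 1))) := hsq0.pow _
    rw [zero_pow (by omega)] at h3
    refine h3.congr' ?_
    filter_upwards [self_mem_nhdsWithin] with ε hε
    exact (hgnorm ε hε).symm
  have hginv : Tendsto (fun ε => ‖g ε‖⁻¹) (𝓝[>] 0) atTop := by
    refine Tendsto.inv_tendsto_nhdsGT_zero (tendsto_nhdsWithin_iff.2 ⟨hg0, ?_⟩)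
    filter_upwards [self_mem_nhdsWithin] with ε hε
    rw [mem_Ioi, hgnorm ε hε]
    exact pow_pos (Real.sqrt_pos.2 hε) _
  -- decomposition of the integral
  have hdec : ∀ ε ∈ Ioo 0 (min ε1 ρ), g ε * ∫ t in box d, G ε t =
      (∫ y, F 1 ε y) + (∫ y, F (-1) ε y) + g ε * ∫ t in Rest, G ε t := by
    intro ε hε
    have hε0 : 0 < ε := hε.1
    have hc := hGc ε ⟨hε.1, (hε.2.trans_le (min_le_right _ _)).le⟩
    have hib : IntegrableOn (G ε) (box d) := hc.continuousOn.integrableOn_compact hboxc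
    have hQ1 := hQbox 1 (Or.inl rfl)
    have hQ2 := hQbox (-1) (Or.inr rfl)
    have hU : box d = (Q 1 ∪ Q (-1)) ∪ Rest := by
      rw [hRest, Set.union_sdiff_cancel (union_subset hQ1 hQ2)]
    have hRm : MeasurableSet Rest := hRc.measurableSet
    have hdR : Disjoint (Q 1 ∪ Q (-1)) Rest := Set.disjoint_sdiff_right
    have e1 : ∫ t in box d, G ε t = (∫ t in Q 1, G ε t) + (∫ t in Q (-1), G ε t) + ∫ t in Rest, G ε t := by
      rw [hU, setIntegral_union hdR hRm (hib.mono_set (union_subset hQ1 hQ2))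
        (hib.mono_set Set.sdiff_subset), setIntegral_union hdisj (hQo (-1)).measurableSet
        (hib.mono_set hQ1) (hib.mono_set hQ2)]
    have e2 : ∀ σ, ∫ y, F σ ε y = g ε * ∫ t in Q σ, G ε t := by
      intro σ
      rw [hF]
      simp only
      rw [integral_const_mul, bu_cov (Q σ) (hQo σ).measurableSet (G ε) (σ * δ0) (Real.sqrt_pos.2 hε0)]
      rw [hg]
      ring
    rw [e1, e2, e2]
    ring
  have hlim1 : Tendsto (fun ε => g ε * ∫ t in Rest, G ε t) (𝓝[>] 0) (𝓝 0) := by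
    rw [tendsto_zero_iff_norm_tendsto_zero]
    have h3 : Tendsto (fun ε => ‖g ε‖ * ((C1 * 4 ^ P / dd ^ (ℓ + 1)) * volume.real Rest)) (𝓝[>] 0) (𝓝 0) := by
      simpa using hg0.mul_const ((C1 * 4 ^ P / dd ^ (ℓ + 1)) * volume.real Rest)
    refine tendsto_of_tendsto_of_tendsto_of_le_of_le' tendsto_const_nhds h3
      (Eventually.of_forall fun ε => norm_nonneg _) ?_
    filter_upwards [hev] with ε hε
    rw [norm_mul]
    exact mul_le_mul_of_nonneg_left (hrest ε ⟨hε.1, hε.2.trans_le (min_le_left _ _)⟩) (norm_nonneg _)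
  have hlim2 : Tendsto (fun ε => g ε * ∫ t in box d, G ε t) (𝓝[>] 0) (𝓝 (k0 * I0 + k0 * I0 + 0)) := by
    refine (((hFlim 1 (Or.inl rfl)).add (hFlim (-1) (Or.inr rfl))).add hlim1).congr' ?_
    filter_upwards [hev] with ε hε
    exact (hdec ε hε).symm
  have hLne : k0 * I0 + k0 * I0 + 0 ≠ 0 := by
    rw [add_zero, ← two_mul]
    exact mul_ne_zero two_ne_zero (mul_ne_zero hk0 hne)
  have hL : 0 < ‖k0 * I0 + k0 * I0 + 0‖ := norm_pos_iff.2 hLne
  have hlim3 : Tendsto (fun ε => ‖g ε * ∫ t in box d, G ε t‖ * ‖g ε‖⁻¹) (𝓝[>] 0) atTop :=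
    hlim2.norm.pos_mul_atTop hL hginv
  set cst : ℂ := (1 / ((d + 1).factorial : ℂ)) * (1 / (2 * π)) ^ d with hcst
  have hcst0 : 0 < ‖cst‖ := by
    rw [norm_pos_iff, hcst]
    have h3 : ((d + 1).factorial : ℂ) ≠ 0 := by exact_mod_cast (Nat.factorial_pos _).ne'
    have h4 : (π : ℂ) ≠ 0 := by exact_mod_cast hπ.ne'
    exact mul_ne_zero (one_div_ne_zero h3)
      (pow_ne_zero _ (one_div_ne_zero (mul_ne_zero two_ne_zero h4)))
  refine (hlim3.const_mul_atTop hcst0).congr' ?_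
  filter_upwards [hev] with ε hε
  have hε0 : 0 < ε := hε.1
  have hgp : 0 < ‖g ε‖ := by
    rw [hgnorm ε hε0]; exact pow_pos (Real.sqrt_pos.2 hε0) _
  rw [chi_deriv_eq h0 h2 hP d ℓ hϑ hbal ⟨hε.1, hε.2.trans_le (min_le_right _ _)⟩]
  rw [norm_mul (g ε), norm_mul ((1 / ((d + 1).factorial : ℂ)) * (1 / (2 * π)) ^ d)]
  rw [hcst, hG]
  field_simp

end
end IsingNB
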