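import Pool.Agent.Helper98.NB.Defs

/-!
# Number theory: nonresonance
-/

namespace IsingNB

open Complex Set MeasureTheory Filter Topology
open scoped Real

noncomputable section

theorem nt_ratAlg_eq : (DivisionRing.toRatAlgebra : Algebra ℚ (AlgebraicClosure ℚ)) =
    AlgebraicClosure.instAlgebra ℚ := Subsingleton.elim _ _

theorem nt_isAlgQ : Algebra.IsAlgebraic ℚ (AlgebraicClosure ℚ) := by
  rw [nt_ratAlg_eq]
  exact AlgebraicClosure.isAlgebraic ℚ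

theorem nt_normalQ : Normal ℚ (AlgebraicClosure ℚ) := by
  have := nt_isAlgQ
  have h : IsAlgClosure ℚ (AlgebraicClosure ℚ) := ⟨inferInstance, inferInstance⟩
  exact IsAlgClosure.normal ℚ (AlgebraicClosure ℚ)

/-- Automorphisms acting on roots of unity. -/
theorem nt_exists_conj (N : ℕ) (hN : 0 < N) (t : ℕ) (ht : t.Coprime N) :
    ∃ σ : AlgebraicClosure ℚ ≃ₐ[ℚ] AlgebraicClosure ℚ,
      ∀ z : AlgebraicClosure ℚ, z ^ N = 1 → σ z = z ^ t := by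
  have : NeZero N := ⟨hN.ne'⟩
  have : NeZero (N : AlgebraicClosure ℚ) := ⟨by exact_mod_cast hN.ne'⟩
  obtain ⟨ζ, hζ⟩ := HasEnoughRootsOfUnity.exists_primitiveRoot (AlgebraicClosure ℚ) N
  have hζj : IsPrimitiveRoot (ζ ^ t) N := hζ.pow_of_coprime t ht
  have h : IsConjRoot ℚ (ζ ^ t) ζ := by
    rw [isConjRoot_def, ← Polynomial.cyclotomic_eq_minpoly_rat hζ hN,
      ← Polynomial.cyclotomic_eq_minpoly_rat hζj hN]
  have := nt_normalQ
  obtain ⟨σ, hσ⟩ := h.exists_algEquiv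
  refine ⟨σ, fun z hz => ?_⟩
  obtain ⟨k, _, rfl⟩ := hζ.eq_pow_of_pow_eq_one hz
  rw [map_pow, hσ, ← pow_mul, ← pow_mul, mul_comm]

theorem nt_lift (ι : AlgebraicClosure ℚ →+* ℂ) (N : ℕ) (hN : 0 < N) (x : ℂ) (hx : x ^ N = 1) :
    ∃ y : AlgebraicClosure ℚ, ι y = x ∧ y ^ N = 1 := by
  have : NeZero N := ⟨hN.ne'⟩
  have : NeZero (N : AlgebraicClosure ℚ) := ⟨by exact_mod_cast hN.ne'⟩
  obtain ⟨ζ, hζ⟩ := HasEnoughRootsOfUnity.exists_primitiveRoot (AlgebraicClosure ℚ) N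
  have hζ' : IsPrimitiveRoot (ι ζ) N := hζ.map_of_injective ι.injective
  obtain ⟨k, _, hk⟩ := hζ'.eq_pow_of_pow_eq_one hx
  refine ⟨ζ ^ k, by rw [map_pow, hk], ?_⟩
  rw [← pow_mul, mul_comm, pow_mul, hζ.pow_eq_one, one_pow]

/-- The arithmetic core. -/
theorem nt_core {p : ℕ} (hp : p.Prime) (hp7 : 7 ≤ p) {j : ℕ} (hj : 0 < j) (hjp : ¬ p ∣ j)
    (x y z : ℂ) (hx : x ^ (2 * j) = 1) (hy : y ^ (2 * j) = 1) (hz : z ^ (2 * p) = 1)
    (hz1 : z ^ 2 ≠ 1) (h : x + x⁻¹ + (y + y⁻¹) = 2 * (z + z⁻¹)) : False := by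
  have := nt_isAlgQ
  have ι : AlgebraicClosure ℚ →+* ℂ := by
    have ι' : AlgebraicClosure ℚ →ₐ[ℚ] ℂ := IsAlgClosed.lift
    exact ι'.toRingHom
  obtain ⟨X, hX, hX1⟩ := nt_lift ι (2 * j) (by omega) x hx
  obtain ⟨Y, hY, hY1⟩ := nt_lift ι (2 * j) (by omega) y hy
  obtain ⟨Z, hZ, hZ1⟩ := nt_lift ι (2 * p) (by omega) z hz
  have hrel : X + X⁻¹ + (Y + Y⁻¹) = 2 * (Z + Z⁻¹) := by
    apply ι.injective
    rw [map_add, map_add, map_add, map_inv₀, map_inv₀, map_mul, map_add, map_inv₀, hX, hY, hZ, h,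
      map_ofNat]
  have hZ2 : Z ^ 2 ≠ 1 := by
    intro h1
    apply hz1
    rw [← hZ, ← map_pow, h1, map_one]
  -- the automorphism
  have hp2 : ¬ p ∣ 2 * j := by
    intro hd
    rcases (Nat.Prime.dvd_mul hp).1 hd with h1 | h1
    · have := Nat.le_of_dvd (by norm_num) h1
      omega
    · exact hjp h1
  have hcop : Nat.Coprime (2 * j) p := (Nat.Coprime.symm ((Nat.Prime.coprime_iff_not_dvd hp).2 hp2))
  obtain ⟨t, ht1, ht2⟩ := Nat.chineseRemainder hcop 1 2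
  have hp2' : Nat.Coprime 2 p := by
    rw [Nat.coprime_comm, Nat.Prime.coprime_iff_not_dvd hp]
    intro hd
    have := Nat.le_of_dvd (by norm_num) hd
    omega
  have htc : t.Coprime (2 * j * p) := by
    apply Nat.Coprime.mul_right
    · rw [Nat.Coprime, ht1.gcd_eq, Nat.gcd_one_left]
    · rw [Nat.Coprime, ht2.gcd_eq]; exact hp2'
  have hpow : ∀ (w : AlgebraicClosure ℚ) (N a b : ℕ), w ^ N = 1 → a ≡ b [MOD N] → w ^ a = w ^ b := by
    intro w N a b hw hab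
    rw [pow_eq_pow_mod a hw, pow_eq_pow_mod b hw]
    congr 1
  obtain ⟨σ, hσ⟩ := nt_exists_conj (2 * j * p) (by positivity) t htc
  have hσX : σ X = X := by
    rw [hσ X (by rw [pow_mul, hX1, one_pow]), hpow X (2 * j) t 1 hX1 ht1, pow_one]
  have hσY : σ Y = Y := by
    rw [hσ Y (by rw [pow_mul, hY1, one_pow]), hpow Y (2 * j) t 1 hY1 ht1, pow_one]
  -- `W = Z ^ 2` is a `p`-th root of unity, and `Z = ± W ^ ((p + 1) / 2)`
  obtain ⟨s, hs⟩ : ∃ s, p = 2 * s + 1 := by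
    rcases hp.eq_two_or_odd' with h1 | h1
    · omega
    · exact h1
  set ω : AlgebraicClosure ℚ := Z ^ (p + 1) with hω
  have hωp : ω ^ p = 1 := by
    rw [hω, ← pow_mul]
    have : (p + 1) * p = 2 * p * (s + 1) := by rw [hs]; ring
    rw [this, pow_mul, hZ1, one_pow]
  have hZp2 : (Z ^ p) ^ 2 = 1 := by rw [← pow_mul, mul_comm]; exact hZ1
  have hs0 : Z ^ p ≠ 0 := by
    intro h0
    rw [h0] at hZp2
    norm_num at hZp2
  have hZs : Z = Z ^ p * ω := by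
    rw [hω, ← pow_add]
    have : p + (p + 1) = 2 * p + 1 := by ring
    rw [this, pow_succ, hZ1, one_mul]
  have hsinv : (Z ^ p)⁻¹ = Z ^ p := by
    rw [inv_eq_iff_eq_inv]
    apply eq_inv_of_mul_eq_one_left
    rw [← pow_two, hZp2]
  have hω1 : ω ≠ 1 := by
    intro h1
    apply hZ2
    rw [hZs, h1, mul_one, hZp2]
  have hω0 : ω ≠ 0 := by
    intro h1
    rw [h1, zero_pow hp.ne_zero] at hωp
    exact zero_ne_one hωp
  have hσZ : σ Z = Z ^ p * ω ^ 2 := by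
    rw [hσ Z (by
      have : 2 * j * p = 2 * p * j := by ring
      rw [this, pow_mul, hZ1, one_pow])]
    have h1 : Z ^ t = (Z ^ p) ^ t * ω ^ t := by
      rw [← mul_pow, ← hZs]
    rw [h1, hpow ω p t 2 hωp ht2, hpow (Z ^ p) 2 t 1 hZp2 (ht1.of_dvd (Dvd.intro _ rfl)), pow_one]
  have hrel2 : X + X⁻¹ + (Y + Y⁻¹) = 2 * (Z ^ p * ω ^ 2 + (Z ^ p * ω ^ 2)⁻¹) := by
    have h1 := congrArg σ hrel
    rw [map_add, map_add, map_add, map_inv₀, map_inv₀, map_mul, map_add, map_inv₀, hσX, hσY,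
      hσZ, map_ofNat] at h1
    exact h1
  have h2 : Z ^ p * ω + (Z ^ p * ω)⁻¹ = Z ^ p * ω ^ 2 + (Z ^ p * ω ^ 2)⁻¹ := by
    have h3 : (2 : AlgebraicClosure ℚ) * (Z ^ p * ω + (Z ^ p * ω)⁻¹) =
        2 * (Z ^ p * ω ^ 2 + (Z ^ p * ω ^ 2)⁻¹) := by
      rw [← hrel2, ← hZs, hrel]
    exact mul_left_cancel₀ two_ne_zero h3
  rw [mul_inv, mul_inv, hsinv, ← mul_add, ← mul_add] at h2
  have h3 := mul_left_cancel₀ hs0 h2
  have h4 : (ω ^ 3 - 1) * (ω - 1) = 0 := by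
    field_simp at h3
    linear_combination (-1 : AlgebraicClosure ℚ) * h3
  rcases mul_eq_zero.1 h4 with h5 | h5
  · have h6 : ω ^ 3 = 1 := sub_eq_zero.1 h5
    have h7 : orderOf ω ∣ 3 := orderOf_dvd_of_pow_eq_one h6
    have h8 : orderOf ω ∣ p := orderOf_dvd_of_pow_eq_one hωp
    have h9 : orderOf ω ∣ 1 := by
      have : Nat.gcd 3 p = 1 := by
        have h10 : Nat.Coprime p 3 := by
          rw [Nat.Prime.coprime_iff_not_dvd hp]
          intro hd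
          have := Nat.le_of_dvd (by norm_num) hd
          omega
        exact h10.symm
      rw [← this]
      exact Nat.dvd_gcd h7 h8
    have h10 : orderOf ω = 1 := Nat.dvd_one.1 h9
    exact hω1 (orderOf_eq_one_iff.1 h10)
  · exact hω1 (sub_eq_zero.1 h5)

theorem nt_two_cos (φ : ℝ) : Complex.exp (I * φ) + (Complex.exp (I * φ))⁻¹ =
    2 * ((Real.cos φ : ℝ) : ℂ) := by
  rw [← Complex.exp_neg, Complex.ofReal_cos, Complex.cos]
  have h1 : I * (φ : ℂ) = φ * I := mul_comm _ _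
  have h2 : -(I * (φ : ℂ)) = -φ * I := by ring
  rw [h2, h1]
  ring

theorem nt_tau_sq {ϑ : ℝ} (hϑ : ϑ = 0 ∨ ϑ = π) : tau ϑ ^ 2 = 1 := by
  rw [tau, ← Complex.exp_nat_mul]
  rcases hϑ with h | h
  · rw [h]; simp
  · rw [h]
    have : ((2 : ℕ) : ℂ) * (I * (π : ℝ)) = 2 * π * I := by push_cast; ring
    rw [this, Complex.exp_two_pi_mul_I]

theorem nt_pow_two_mul {ϑ : ℝ} (hϑ : ϑ = 0 ∨ ϑ = π) {j : ℕ} {φ : ℝ}
    (h : Complex.exp (I * (j * φ)) = tau ϑ) : Complex.exp (I * φ) ^ (2 * j) = 1 := by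
  have h1 : Complex.exp (I * φ) ^ j = tau ϑ := by
    rw [← h, ← Complex.exp_nat_mul]
    congr 1
    ring
  rw [mul_comm 2 j, pow_mul, h1, nt_tau_sq hϑ]

theorem nt_z_pow {p m : ℕ} (hp : 0 < p) :
    Complex.exp (I * ((π * m / p : ℝ) : ℂ)) ^ (2 * p) = 1 := by
  rw [← Complex.exp_nat_mul, Complex.exp_eq_one_iff]
  refine ⟨m, ?_⟩
  have : (p : ℂ) ≠ 0 := by exact_mod_cast hp.ne'
  push_cast
  field_simp

theorem nt_z_sq {p m : ℕ} (hm : 0 < m) (hm' : 2 * m < p) :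
    Complex.exp (I * ((π * m / p : ℝ) : ℂ)) ^ 2 ≠ 1 := by
  intro h
  rw [← Complex.exp_nat_mul, Complex.exp_eq_one_iff] at h
  obtain ⟨n, hn⟩ := h
  have hp0 : (p : ℂ) ≠ 0 := by
    have : 0 < p := by omega
    exact_mod_cast this.ne'
  have hπ : (π : ℂ) ≠ 0 := by exact_mod_cast Real.pi_ne_zero
  have h1 : (m : ℂ) = n * p := by
    push_cast at hn
    have h2 : (2 * π * I) * (m : ℂ) = (2 * π * I) * (n * p) := by
      field_simp at hn
      linear_combination (2 * π * I) * hn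
    exact mul_left_cancel₀ (by
      refine mul_ne_zero (mul_ne_zero two_ne_zero hπ) I_ne_zero) h2
  have h2 : (m : ℤ) = n * p := by exact_mod_cast h1
  have hn0 : 0 < n := by
    by_contra hc
    have : n * (p : ℤ) ≤ 0 := mul_nonpos_of_nonpos_of_nonneg (not_lt.1 hc) (by positivity)
    omega
  have : (p : ℤ) ≤ n * p := by nlinarith
  omega

theorem nt_c0_pos {p m : ℕ} (hm : 0 < m) (hm' : 2 * m < p) :
    0 < π * m / p ∧ π * m / p < π / 2 := by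
  have hp : (0 : ℝ) < p := by
    have : 0 < p := by omega
    exact_mod_cast this
  have hm0 : (0 : ℝ) < m := by exact_mod_cast hm
  have hmp : (2 : ℝ) * m < p := by exact_mod_cast hm'
  refine ⟨by positivity, ?_⟩
  rw [div_lt_div_iff₀ hp two_pos]
  have := Real.pi_pos
  nlinarith

theorem nt_cos_fe {p m : ℕ} (hm : 0 < m) (hm' : 2 * m < p) :
    Real.cos (fe (2 * Real.cos (π * m / p))) = 2 * Real.cos (π * m / p) - 1 := by
  obtain ⟨h1, h2⟩ := nt_c0_pos hm hm'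
  have h3 : 0 < Real.cos (π * m / p) := Real.cos_pos_of_mem_Ioo ⟨by linarith, h2⟩
  have h4 := Real.cos_le_one (π * m / p)
  rw [fe, Real.cos_arccos (by linarith) (by linarith)]

theorem nonRes_of_not_dvd {p : ℕ} (hp : p.Prime) (hp7 : 7 ≤ p) {m : ℕ} (hm : 0 < m) (hm' : 2 * m < p)
    {j : ℕ} (hj : 0 < j) (hjp : ¬ p ∣ j) {ϑ : ℝ} (hϑ : ϑ = 0 ∨ ϑ = π) :
    NonRes j ϑ (2 * Real.cos (π * m / p)) := by
  have key : ∀ φ δ : ℝ, Complex.exp (I * φ) ^ (2 * j) = 1 → Complex.exp (I * δ) ^ (2 * j) = 1 →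
      Real.cos φ + Real.cos δ ≠ 2 * Real.cos (π * m / p) := by
    intro φ δ h1 h2 h3
    refine nt_core hp hp7 hj hjp _ _ (Complex.exp (I * ((π * m / p : ℝ) : ℂ))) h1 h2
      (nt_z_pow (by omega)) (nt_z_sq hm hm') ?_
    rw [nt_two_cos, nt_two_cos, nt_two_cos, ← mul_add, ← Complex.ofReal_add, h3]
    push_cast
    ring
  refine ⟨fun φ δ h1 h2 => key φ δ (nt_pow_two_mul hϑ h1) (nt_pow_two_mul hϑ h2), fun h => ?_⟩
  refine key (fe (2 * Real.cos (π * m / p))) 0 (nt_pow_two_mul hϑ h) (by simp) ?_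
  rw [nt_cos_fe hm hm', Real.cos_zero]
  ring

end

end IsingNB
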