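import Pool.Agent.Helper98.NB.NT1

/-!
# Number theory: diagonal resonance
-/

namespace IsingNB

open Complex Set MeasureTheory Filter Topology
open scoped Real

noncomputable section

theorem nt2_sum_range {p : ℕ} [NeZero p] {M : Type*} [AddCommMonoid M] (g : ZMod p → M) :
    ∑ i, g i = ∑ n ∈ Finset.range p, g (n : ZMod p) := by
  refine Finset.sum_nbij' (fun i => i.val) (fun n => (n : ZMod p)) ?_ ?_ ?_ ?_ ?_
  · intro i _; exact Finset.mem_range.2 (ZMod.val_lt i)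
  · intro n _; exact Finset.mem_univ _
  · intro i _; exact ZMod.natCast_zmod_val i
  · intro n hn; exact ZMod.val_cast_of_lt (Finset.mem_range.1 hn)
  · intro i _
    rw [ZMod.natCast_zmod_val i]

theorem nt2_const {p : ℕ} (hp : p.Prime) [NeZero p] {ζ : ℂ} (hζ : IsPrimitiveRoot ζ p)
    (f : ZMod p → ℤ) (h : ∑ i, (f i : ℂ) * ζ ^ (i.val) = 0) : ∀ i j, f i = f j := by
  have : Fact p.Prime := ⟨hp⟩
  set P : Polynomial ℚ := ∑ n ∈ Finset.range p, Polynomial.monomial n ((f (n : ZMod p) : ℤ) : ℚ) with hP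
  have hcoeff : ∀ n < p, P.coeff n = (f (n : ZMod p) : ℤ) := by
    intro n hn
    rw [hP, Polynomial.finsetSum_coeff, Finset.sum_eq_single n]
    · rw [Polynomial.coeff_monomial, if_pos rfl]
    · intro b _ hb
      rw [Polynomial.coeff_monomial, if_neg hb]
    · intro hn'
      exact absurd (Finset.mem_range.2 hn) hn'
  have hdeg : P.natDegree ≤ p - 1 := by
    rw [hP]
    apply Polynomial.natDegree_sum_le_of_forall_le
    intro n hn
    refine (Polynomial.natDegree_monomial_le _).trans ?_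
    have := Finset.mem_range.1 hn
    omega
  have hroot : Polynomial.aeval ζ P = 0 := by
    rw [hP, map_sum, ← h, nt2_sum_range]
    refine Finset.sum_congr rfl fun n hn => ?_
    rw [Polynomial.aeval_monomial, ZMod.val_cast_of_lt (Finset.mem_range.1 hn)]
    simp
  have hdvd : Polynomial.cyclotomic p ℚ ∣ P := by
    rw [Polynomial.cyclotomic_eq_minpoly_rat hζ hp.pos]
    exact minpoly.dvd ℚ ζ hroot
  obtain ⟨R, hR⟩ := hdvd
  have hR' : ∃ c : ℚ, R = Polynomial.C c := by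
    by_cases hR0 : R = 0
    · exact ⟨0, by rw [hR0, Polynomial.C_0]⟩
    · have h1 : P.natDegree = (Polynomial.cyclotomic p ℚ).natDegree + R.natDegree := by
        rw [hR]
        exact Polynomial.natDegree_mul (Polynomial.cyclotomic_ne_zero p ℚ) hR0
      rw [Polynomial.natDegree_cyclotomic, Nat.totient_prime hp] at h1
      have h2 : R.natDegree = 0 := by omega
      exact ⟨R.coeff 0, Polynomial.eq_C_of_natDegree_eq_zero h2⟩
  obtain ⟨c, rfl⟩ := hR'
  have hc : ∀ n < p, P.coeff n = c := by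
    intro n hn
    rw [hR, Polynomial.coeff_mul_C, Polynomial.cyclotomic_prime, Polynomial.finsetSum_coeff,
      Finset.sum_eq_single n]
    · rw [Polynomial.coeff_X_pow, if_pos rfl, one_mul]
    · intro b _ hb
      rw [Polynomial.coeff_X_pow, if_neg (Ne.symm hb)]
    · intro hn'
      exact absurd (Finset.mem_range.2 hn) hn'
  have hfc : ∀ i : ZMod p, ((f i : ℤ) : ℚ) = c := by
    intro i
    have h1 := hcoeff i.val (ZMod.val_lt i)
    rw [hc _ (ZMod.val_lt i), ZMod.natCast_zmod_val] at h1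
    exact h1.symm
  intro i j
  have := (hfc i).trans (hfc j).symm
  exact_mod_cast this

theorem nt2_pow_neg {p : ℕ} [NeZero p] {ζ : ℂ} (hζ : ζ ^ p = 1) (a : ZMod p) :
    ζ ^ a.val * ζ ^ (-a).val = 1 := by
  have h1 := AddChar.map_add_eq_mul (AddChar.zmodChar p hζ) a (-a)
  rw [add_neg_cancel, AddChar.map_zero_eq_one, AddChar.zmodChar_apply, AddChar.zmodChar_apply] at h1
  exact h1.symm

/-- Decomposition of a `2p`-th root of unity. -/
theorem nt2_decomp {p : ℕ} (hp : p.Prime) [NeZero p] (hp2 : p ≠ 2) {ζ : ℂ} (hζ : IsPrimitiveRoot ζ p)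
    (x : ℂ) (hx : x ^ (2 * p) = 1) :
    ∃ (s : ℤ) (a : ZMod p), (s = 1 ∨ s = -1) ∧ x = s * ζ ^ a.val ∧ x⁻¹ = s * ζ ^ (-a).val := by
  have hx2 : (x ^ p) ^ 2 = 1 := by rw [← pow_mul, mul_comm]; exact hx
  obtain ⟨s, hs, hsx⟩ : ∃ s : ℤ, (s = 1 ∨ s = -1) ∧ x ^ p = s := by
    rcases sq_eq_one_iff.1 hx2 with h1 | h1
    · exact ⟨1, Or.inl rfl, by rw [h1]; simp⟩
    · exact ⟨-1, Or.inr rfl, by rw [h1]; simp⟩
  obtain ⟨r, hr⟩ : ∃ r, p = 2 * r + 1 := by
    rcases hp.eq_two_or_odd' with h1 | h1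
    · exact absurd h1 hp2
    · exact h1
  have hω : (x ^ (p + 1)) ^ p = 1 := by
    rw [← pow_mul]
    have : (p + 1) * p = 2 * p * (r + 1) := by rw [hr]; ring
    rw [this, pow_mul, hx, one_pow]
  obtain ⟨n, hn, hn2⟩ := hζ.eq_pow_of_pow_eq_one hω
  have hxs : x = s * ζ ^ n := by
    rw [hn2, ← hsx, ← pow_add]
    have : p + (p + 1) = 2 * p + 1 := by ring
    rw [this, pow_succ, hx, one_mul]
  have hval : ((n : ZMod p)).val = n := ZMod.val_cast_of_lt hn
  have hxa : x = s * ζ ^ ((n : ZMod p)).val := by rw [hval]; exact hxs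
  refine ⟨s, (n : ZMod p), hs, hxa, ?_⟩
  have h1 := nt2_pow_neg hζ.pow_eq_one (n : ZMod p)
  have hss : (s : ℂ) * s = 1 := by
    rcases hs with h | h <;> rw [h] <;> norm_num
  rw [inv_eq_iff_eq_inv]
  refine eq_inv_of_mul_eq_one_left ?_
  rw [hxa]
  linear_combination (s : ℂ) * s * h1 + hss

/-- The arithmetic core of the diagonal case. -/
theorem nt2_core {p : ℕ} (hp : p.Prime) (hp7 : 7 ≤ p)
    (x y z : ℂ) (hx : x ^ (2 * p) = 1) (hy : y ^ (2 * p) = 1) (hz : z ^ (2 * p) = 1)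
    (hz1 : z ^ 2 ≠ 1) (h : x + x⁻¹ + (y + y⁻¹) = 2 * (z + z⁻¹)) :
    x + x⁻¹ = z + z⁻¹ ∧ y + y⁻¹ = z + z⁻¹ := by
  have : NeZero p := ⟨hp.ne_zero⟩
  have hfact : Fact p.Prime := ⟨hp⟩
  have hζ : IsPrimitiveRoot (z ^ 2) p := by
    have h1 : (z ^ 2) ^ p = 1 := by rw [← pow_mul]; exact hz
    have h2 : orderOf (z ^ 2) = p := orderOf_eq_prime h1 hz1
    rw [← h2]
    exact IsPrimitiveRoot.orderOf _
  obtain ⟨s1, a, hs1, hxa, hxa'⟩ := nt2_decomp hp (by omega) hζ x hx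
  obtain ⟨s2, b, hs2, hyb, hyb'⟩ := nt2_decomp hp (by omega) hζ y hy
  obtain ⟨s3, k, hs3, hzk, hzk'⟩ := nt2_decomp hp (by omega) hζ z hz
  set ζ := z ^ 2 with hζdef
  set f : ZMod p → ℤ := fun i => s1 * ((if i = a then 1 else 0) + (if i = -a then 1 else 0)) +
    s2 * ((if i = b then 1 else 0) + (if i = -b then 1 else 0)) -
    2 * s3 * ((if i = k then 1 else 0) + (if i = -k then 1 else 0)) with hf
  have hsum : ∀ c : ZMod p, ∑ i, (((if i = c then 1 else 0 : ℤ)) : ℂ) * ζ ^ i.val = ζ ^ c.val := by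
    intro c
    rw [Finset.sum_eq_single c]
    · simp
    · intro b _ hb
      simp [hb]
    · intro hc
      exact absurd (Finset.mem_univ _) hc
  have hfsum : ∑ i, (f i : ℂ) * ζ ^ i.val = 0 := by
    have h1 : ∑ i, (f i : ℂ) * ζ ^ i.val =
        s1 * (ζ ^ a.val + ζ ^ (-a).val) + s2 * (ζ ^ b.val + ζ ^ (-b).val) -
          2 * s3 * (ζ ^ k.val + ζ ^ (-k).val) := by
      rw [← hsum a, ← hsum (-a), ← hsum b, ← hsum (-b), ← hsum k, ← hsum (-k)]
      simp only [← Finset.sum_add_distrib, Finset.mul_sum, ← Finset.sum_sub_distrib]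
      refine Finset.sum_congr rfl fun i _ => ?_
      simp only [hf]
      push_cast
      ring
    rw [h1]
    have h2 : (x + x⁻¹ + (y + y⁻¹)) - 2 * (z + z⁻¹) = 0 := by rw [h]; ring
    rw [hxa', hyb', hzk'] at h2
    nth_rewrite 1 [hxa] at h2
    nth_rewrite 1 [hyb] at h2
    nth_rewrite 1 [hzk] at h2
    linear_combination h2
  have hconst := nt2_const hp hζ f hfsum
  -- a point outside the support
  have hzero : ∀ i, f i = 0 := by
    obtain ⟨i0, hi0⟩ : ∃ i0 : ZMod p, i0 ∉ ({a, -a, b, -b, k, -k} : Finset (ZMod p)) := by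
      by_contra hcon
      push Not at hcon
      have h1 : (Finset.univ : Finset (ZMod p)) ⊆ {a, -a, b, -b, k, -k} := fun i _ => hcon i
      have h2 := Finset.card_le_card h1
      rw [Finset.card_univ, ZMod.card] at h2
      have h3 := h2.trans Finset.card_le_six
      omega
    simp only [Finset.mem_insert, Finset.mem_singleton, not_or] at hi0
    intro i
    rw [hconst i i0]
    simp [hf, hi0]
  have hkk : k ≠ -k := by
    intro hk
    apply hz1
    have h1 : z = z⁻¹ := by rw [hzk', ← hk]; exact hzk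
    have h0 : z ≠ 0 := by
      intro h0
      rw [h0] at hz
      rw [zero_pow (by omega)] at hz
      exact zero_ne_one hz
    calc z ^ 2 = z * z := pow_two z
      _ = z * z⁻¹ := by nth_rewrite 2 [h1]; rfl
      _ = 1 := mul_inv_cancel₀ h0
  have hk0 := hzero k
  simp only [hf, if_neg hkk, if_true] at hk0
  have hval : ∀ c : ZMod p, (((if k = c then 1 else 0) + (if k = -c then 1 else 0) : ℤ) = 1 ∧
      ζ ^ c.val + ζ ^ (-c).val = ζ ^ k.val + ζ ^ (-k).val) ∨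
      ((if k = c then 1 else 0) + (if k = -c then 1 else 0) : ℤ) = 0 := by
    intro c
    by_cases h1 : k = c
    · have h2 : k ≠ -c := by rw [← h1]; exact hkk
      left
      rw [if_pos h1, if_neg h2, ← h1]
      exact ⟨by norm_num, rfl⟩
    · by_cases h2 : k = -c
      · left
        rw [if_neg h1, if_pos h2]
        refine ⟨by norm_num, ?_⟩
        rw [h2, neg_neg]
        ring
      · right
        rw [if_neg h1, if_neg h2]
        norm_num
  have hfin : (s1 = s3 ∧ ζ ^ a.val + ζ ^ (-a).val = ζ ^ k.val + ζ ^ (-k).val) ∧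
      (s2 = s3 ∧ ζ ^ b.val + ζ ^ (-b).val = ζ ^ k.val + ζ ^ (-k).val) := by
    rcases hval a with ⟨ha1, ha2⟩ | ha1 <;> rcases hval b with ⟨hb1, hb2⟩ | hb1 <;>
      rw [ha1, hb1] at hk0 <;>
      rcases hs1 with h1 | h1 <;> rcases hs2 with h2 | h2 <;> rcases hs3 with h3 | h3 <;>
      rw [h1, h2, h3] at hk0 <;>
      first
        | (exfalso; norm_num at hk0; done)
        | exact ⟨⟨h1.trans h3.symm, ha2⟩, ⟨h2.trans h3.symm, hb2⟩⟩
  obtain ⟨⟨h1, h2⟩, h3, h4⟩ := hfin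
  have hx1 : x + x⁻¹ = s1 * (ζ ^ a.val + ζ ^ (-a).val) := by
    rw [hxa', mul_add, ← hxa]
  have hy1 : y + y⁻¹ = s2 * (ζ ^ b.val + ζ ^ (-b).val) := by
    rw [hyb', mul_add, ← hyb]
  have hz1 : z + z⁻¹ = s3 * (ζ ^ k.val + ζ ^ (-k).val) := by
    rw [hzk', mul_add, ← hzk]
  rw [hx1, hy1, hz1, h1, h2, h3, h4]
  exact ⟨rfl, rfl⟩

theorem nt2_angle {p : ℕ} (hp : p.Prime) (hp7 : 7 ≤ p) {m : ℕ} (hm : 0 < m) (hm' : 2 * m < p)
    {φ δ : ℝ} (hφ : Complex.exp (I * φ) ^ (2 * p) = 1) (hδ : Complex.exp (I * δ) ^ (2 * p) = 1)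
    (h : Real.cos φ + Real.cos δ = 2 * Real.cos (π * m / p)) :
    Real.cos φ = Real.cos (π * m / p) ∧ Real.cos δ = Real.cos (π * m / p) := by
  have h1 := nt2_core hp hp7 _ _ (Complex.exp (I * ((π * m / p : ℝ) : ℂ))) hφ hδ
      (nt_z_pow (by omega)) (nt_z_sq hm hm') (by
        rw [nt_two_cos, nt_two_cos, nt_two_cos, ← mul_add, ← Complex.ofReal_add, h]
        push_cast
        ring)
  rw [nt_two_cos, nt_two_cos, nt_two_cos] at h1
  obtain ⟨h2, h3⟩ := h1
  have h4 := mul_left_cancel₀ (two_ne_zero) h2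
  have h5 := mul_left_cancel₀ (two_ne_zero) h3
  exact ⟨by exact_mod_cast h4, by exact_mod_cast h5⟩

theorem nt2_diag {p : ℕ} (hp : p.Prime) (hp7 : 7 ≤ p) {m : ℕ} (hm : 0 < m) (hm' : 2 * m < p)
    {j : ℕ} {ϑ : ℝ} (hj : ∀ φ : ℝ, Complex.exp (I * (j * φ)) = tau ϑ →
      Complex.exp (I * φ) ^ (2 * p) = 1)
    (h0 : Complex.exp (I * (j * ((π * m / p : ℝ) : ℂ))) = tau ϑ) :
    DiagRes j ϑ (2 * Real.cos (π * m / p)) (π * m / p) := by
  obtain ⟨h1, h2⟩ := nt_c0_pos hm hm'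
  refine ⟨h1, h2, rfl, h0, fun φ δ h3 h4 h5 => nt2_angle hp hp7 hm hm' (hj φ h3) (hj δ h4) h5,
    fun h => ?_⟩
  have h3 := nt2_angle hp hp7 hm hm' (hj _ h) (δ := 0) (by simp) (by
    rw [nt_cos_fe hm hm', Real.cos_zero]
    ring)
  rw [Real.cos_zero] at h3
  have h4 : Real.cos (π * m / p) < Real.cos 0 :=
    Real.cos_lt_cos_of_nonneg_of_le_pi le_rfl (by linarith [Real.pi_pos]) h1
  rw [Real.cos_zero] at h4
  exact h4.ne h3.2.symm

theorem diagRes_odd {p : ℕ} (hp : p.Prime) (hp7 : 7 ≤ p) {m : ℕ} (hm : 0 < m) (hm' : 2 * m < p)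
    {ϑ : ℝ} (hϑ : (ϑ = 0 ∧ Even m) ∨ (ϑ = π ∧ Odd m)) :
    DiagRes p ϑ (2 * Real.cos (π * m / p)) (π * m / p) := by
  have hp0 : (p : ℂ) ≠ 0 := by exact_mod_cast hp.ne_zero
  refine nt2_diag hp hp7 hm hm' (fun φ h => nt_pow_two_mul (by tauto) h) ?_
  have h1 : I * ((p : ℂ) * ((π * m / p : ℝ) : ℂ)) = m * (π * I) := by
    push_cast
    field_simp
  rw [h1, Complex.exp_nat_mul, Complex.exp_pi_mul_I, tau]
  rcases hϑ with ⟨h2, h3⟩ | ⟨h2, h3⟩
  · rw [h2, h3.neg_one_pow]; simp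
  · rw [h2, h3.neg_one_pow, mul_comm, Complex.exp_pi_mul_I]

theorem diagRes_even {p : ℕ} (hp : p.Prime) (hp7 : 7 ≤ p) {m : ℕ} (hm : 0 < m) (hm' : 2 * m < p) :
    DiagRes (2 * p) 0 (2 * Real.cos (π * m / p)) (π * m / p) := by
  have hp0 : (p : ℂ) ≠ 0 := by exact_mod_cast hp.ne_zero
  have ht : tau 0 = 1 := by rw [tau]; simp
  refine nt2_diag hp hp7 hm hm' (fun φ h => ?_) ?_
  · rw [← Complex.exp_nat_mul, ← ht, ← h]
    congr 1
    ring
  · rw [ht, Complex.exp_eq_one_iff]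
    refine ⟨m, ?_⟩
    push_cast
    field_simp

end

end IsingNB
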