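import Pool.Agent.Helper98.NB.KeyPkg
import Pool.Agent.Helper98.NB.Param
import Pool.Agent.Helper98.NB.XIDeriv

/-!
# NB-19: the nonresonant terms are bounded near the point
-/

set_option autoImplicit false

namespace IsingNB

open Complex Set MeasureTheory Filter Topology
open scoped Real

noncomputable section

/-- At the point `c0` itself the denominator does not vanish on the deformed torus. -/
theorem nrt_den_ne {c0 r κ μ C ρ : ℝ} {K : Set ℂ} (h0 : 0 < c0) (h2 : c0 < 2)
    (hr : 0 < r) (hr' : r < fe c0)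
    (hP : KeyPkg c0 r κ μ C ρ K) {d : ℕ} {ϑ : ℝ} (hϑ : ϑ = 0 ∨ ϑ = π)
    (hbal : ∀ t : Fin d → ℝ, ∃ a ∈ Icc (-(fe c0 - r)) (fe c0 - r), bet c0 a = avg c0 (full ϑ t))
    (hN : NonRes (d + 1) ϑ c0) (t : Fin d → ℝ) :
    1 - tau ϑ * prodw om c0 (tor c0 κ ϑ t) ≠ 0 := by
  obtain ⟨a, ha, hab⟩ := hbal t
  have hlog := log_prodw_le hP d ϑ t ha hab (ε := 0) ⟨le_refl _, hP.ρ_pos.le⟩ (ζ := 0)
    (by rw [norm_zero]; exact hP.ρ_pos.le)
  have hc : (c0 : ℂ) + ((0 : ℝ) : ℂ) * I + 0 = c0 := by simp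
  rw [hc, norm_zero, mul_zero, mul_zero, add_zero, add_zero] at hlog
  have hch : ∀ i, 0 ≤ ch (full ϑ t i) a := fun i => by
    unfold ch
    positivity
  have hsum : 0 ≤ ∑ i, ch (full ϑ t i) a := Finset.sum_nonneg fun i _ => hch i
  rcases hsum.lt_or_eq with hpos | hzero
  · have h2 : Real.log ‖prodw om c0 (tor c0 κ ϑ t)‖ < 0 := by
      refine lt_of_le_of_lt hlog ?_
      have := mul_pos hP.μ_pos hpos
      linarith
    have h3 : ‖prodw om c0 (tor c0 κ ϑ t)‖ < 1 :=
      (Real.log_neg_iff (norm_pos_iff.2 (XD.prodw_ne_zero _ _))).1 h2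
    intro h4
    have h5 : tau ϑ * prodw om c0 (tor c0 κ ϑ t) = 1 := (sub_eq_zero.1 h4).symm
    have h6 := congrArg norm h5
    rw [norm_mul, XD.norm_tau, one_mul, norm_one] at h6
    exact absurd h6 h3.ne
  · have hall : ∀ i, ch (full ϑ t i) a = 0 := fun i =>
      (Finset.sum_eq_zero_iff_of_nonneg fun i _ => hch i).1 hzero.symm i (Finset.mem_univ _)
    have hexp : ∀ i, Complex.exp (I * (full ϑ t i : ℝ)) = Complex.exp (I * (a : ℝ)) := by
      intro i
      have := hall i
      unfold ch at this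
      have h3 := pow_eq_zero_iff (two_ne_zero) |>.1 this
      exact sub_eq_zero.1 (norm_eq_zero.1 h3)
    have hcos : ∀ i, Real.cos (full ϑ t i) = Real.cos a := by
      intro i
      have := congrArg Complex.re (hexp i)
      rwa [mul_comm I, mul_comm I, Complex.exp_ofReal_mul_I_re, Complex.exp_ofReal_mul_I_re] at this
    have hsin : ∀ i, Real.sin (full ϑ t i) = Real.sin a := by
      intro i
      have := congrArg Complex.im (hexp i)
      rwa [mul_comm I, mul_comm I, Complex.exp_ofReal_mul_I_im, Complex.exp_ofReal_mul_I_im] at this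
    have htor : ∀ i, tor c0 κ ϑ t i = (full ϑ t i : ℝ) := by
      intro i
      unfold tor
      rw [← hab]
      unfold bet
      rw [hcos i, hsin i]
      simp
    have harg : ∀ i, (c0 : ℂ) - Complex.cos (tor c0 κ ϑ t i) = ((c0 - Real.cos a : ℝ) : ℂ) := by
      intro i
      rw [htor i, ← Complex.ofReal_cos, hcos i]
      push_cast
      rfl
    -- the dual angle
    have hfe : fe c0 ≤ π := Real.arccos_le_pi _
    have habs : |a| < fe c0 := by
      rw [abs_lt]
      constructor
      · linarith [ha.1]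
      · linarith [ha.2]
    have hcosa : c0 - 1 < Real.cos a := by
      have h3 : Real.cos (fe c0) < Real.cos |a| :=
        Real.cos_lt_cos_of_nonneg_of_le_pi (abs_nonneg a) hfe habs
      rw [Real.cos_abs] at h3
      unfold fe at h3
      rwa [Real.cos_arccos (by linarith) (by linarith)] at h3
    have hle := Real.cos_le_one a
    have hdc : Real.cos (del c0 a) = c0 - Real.cos a := by
      unfold del
      exact Real.cos_arccos (by linarith) (by linarith)
    have hd0 : 0 < del c0 a := by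
      unfold del
      exact Real.arccos_pos.2 (by linarith)
    have hdπ : del c0 a < π := by
      unfold del
      refine lt_of_le_of_ne (Real.arccos_le_pi _) fun h => ?_
      rw [Real.arccos_eq_pi] at h
      linarith
    have hprod : prodw om c0 (tor c0 κ ϑ t) = Complex.exp (-(I * (del c0 a : ℝ))) ^ (d + 1) := by
      unfold prodw
      rw [Finset.prod_congr rfl fun i _ => by rw [harg i], Finset.prod_const, Finset.card_univ,
        Fintype.card_fin, ← hdc, om_cos hd0 hdπ]
    have htau2 : tau ϑ * tau ϑ = 1 := by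
      unfold tau
      rcases hϑ with h | h
      · rw [h]; simp
      · rw [h, mul_comm I, Complex.exp_pi_mul_I]; norm_num
    intro hzero'
    have h5 : tau ϑ * Complex.exp (-(I * (del c0 a : ℝ))) ^ (d + 1) = 1 := by
      rw [← hprod]; exact (sub_eq_zero.1 hzero').symm
    have h6 : Complex.exp (I * ((d + 1 : ℕ) * (del c0 a : ℝ))) = tau ϑ := by
      have h7 : Complex.exp (I * ((d + 1 : ℕ) * (del c0 a : ℝ))) *
          Complex.exp (-(I * (del c0 a : ℝ))) ^ (d + 1) = 1 := by
        rw [← Complex.exp_nat_mul, ← Complex.exp_add]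
        rw [show I * ((d + 1 : ℕ) * (del c0 a : ℝ)) + ((d + 1 : ℕ) : ℂ) * (-(I * (del c0 a : ℝ))) =
          (0 : ℂ) by ring, Complex.exp_zero]
      have hne : Complex.exp (-(I * (del c0 a : ℝ))) ^ (d + 1) ≠ 0 :=
        pow_ne_zero _ (Complex.exp_ne_zero _)
      exact mul_right_cancel₀ hne (h7.trans h5.symm)
    have h8 : Complex.exp (I * ((d + 1 : ℕ) * (a : ℝ))) = tau ϑ := by
      have h9 : Complex.exp (I * ((d + 1 : ℕ) * (a : ℝ))) = Complex.exp (I * (a : ℝ)) ^ (d + 1) := by
        rw [← Complex.exp_nat_mul]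
        congr 1
        ring
      rw [h9]
      have h10 : Complex.exp (I * (a : ℝ)) ^ (d + 1) =
          ∏ i, Complex.exp (I * (full ϑ t i : ℝ)) := by
        rw [Finset.prod_congr rfl fun i _ => hexp i, Finset.prod_const, Finset.card_univ,
          Fintype.card_fin]
      rw [h10, ← Complex.exp_sum, ← Finset.mul_sum]
      unfold tau
      congr 2
      rw [Fin.sum_univ_castSucc]
      simp only [full, Fin.snoc_castSucc, Fin.snoc_last]
      push_cast
      ring
    exact hN.1 a (del c0 a) h8 h6 (by rw [hdc]; ring)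

/-- The integral over the deformed torus is holomorphic near a nonresonant point. -/
theorem nrt_chiD_differentiable {c0 r κ μ C ρ : ℝ} {K : Set ℂ} (h0 : 0 < c0) (h2 : c0 < 2)
    (hr : 0 < r) (hr' : r < fe c0)
    (hP : KeyPkg c0 r κ μ C ρ K) {d : ℕ} {ϑ : ℝ} (hϑ : ϑ = 0 ∨ ϑ = π)
    (hbal : ∀ t : Fin d → ℝ, ∃ a ∈ Icc (-(fe c0 - r)) (fe c0 - r), bet c0 a = avg c0 (full ϑ t))
    (hN : NonRes (d + 1) ϑ c0) :
    ∃ δ > 0, DifferentiableOn ℂ (chiD d c0 κ ϑ) (Metric.ball (c0 : ℂ) δ) := by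
  have hρ := hP.ρ_pos
  -- properties of the roots
  have harg : ∀ c ∈ Metric.ball (c0 : ℂ) (2 * ρ), ∀ (t : Fin d → ℝ) (m : Fin (d + 1)),
      c - Complex.cos (tor c0 κ ϑ t m) ∈ ZZ := fun c hc t m => XD.arg_mem hP hbal (by
        rw [Metric.mem_ball, dist_eq_norm] at hc
        exact hc.le) t m
  -- continuity
  have hom : ∀ m : Fin (d + 1), ContinuousOn
      (fun p : ℂ × (Fin d → ℝ) => om (p.1 - Complex.cos (tor c0 κ ϑ p.2 m)))
      (Metric.ball (c0 : ℂ) (2 * ρ) ×ˢ univ) := by
    intro m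
    refine om_analytic.continuousOn.comp ?_ fun p hp => harg p.1 hp.1 p.2 m
    exact (continuous_fst.sub (Complex.continuous_cos.comp
      ((XD.tor_cont h0 h2 κ d ϑ m).comp continuous_snd))).continuousOn
  have hpw : ContinuousOn (fun p : ℂ × (Fin d → ℝ) => prodw om p.1 (tor c0 κ ϑ p.2))
      (Metric.ball (c0 : ℂ) (2 * ρ) ×ˢ univ) := by
    unfold prodw
    exact continuousOn_finsetProd _ fun m _ => hom m
  -- the tube
  have hopen : IsOpen ((Metric.ball (c0 : ℂ) (2 * ρ) ×ˢ (univ : Set (Fin d → ℝ))) ∩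
      (fun p : ℂ × (Fin d → ℝ) => 1 - tau ϑ * prodw om p.1 (tor c0 κ ϑ p.2)) ⁻¹' {0}ᶜ) :=
    ContinuousOn.isOpen_inter_preimage
      (continuousOn_const.sub (continuousOn_const.mul hpw))
      (Metric.isOpen_ball.prod isOpen_univ) isOpen_compl_singleton
  obtain ⟨u, v, hu, hv, hsu, htv, huv⟩ := generalized_tube_lemma
    (isCompact_singleton (x := (c0 : ℂ))) (isCompact_Icc (a := fun _ : Fin d => -π)
      (b := fun _ : Fin d => π)) hopen (by
      rintro ⟨c, t⟩ ⟨hc, ht⟩
      rw [mem_singleton_iff] at hc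
      dsimp only at hc
      subst hc
      exact ⟨⟨Metric.mem_ball_self (by linarith), mem_univ _⟩,
        nrt_den_ne h0 h2 hr hr' hP hϑ hbal hN t⟩)
  obtain ⟨δ, hδ, hball⟩ := Metric.isOpen_iff.1 hu (c0 : ℂ) (hsu rfl)
  have hbox : ∀ c ∈ Metric.ball (c0 : ℂ) δ, ∀ t ∈ box d, c ∈ Metric.ball (c0 : ℂ) (2 * ρ) ∧
      1 - tau ϑ * prodw om c (tor c0 κ ϑ t) ≠ 0 := by
    intro c hc t ht
    have := huv (show ((c, t) : ℂ × (Fin d → ℝ)) ∈ u ×ˢ v from ⟨hball hc, htv ht⟩)
    exact ⟨this.1.1, this.2⟩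
  have hin : ∀ c ∈ Metric.ball (c0 : ℂ) δ, c ∈ Metric.ball (c0 : ℂ) (2 * ρ) := by
    intro c hc
    have hne : (fun _ : Fin d => (0 : ℝ)) ∈ box d :=
      ⟨fun _ => by simpa using Real.pi_pos.le, fun _ => Real.pi_pos.le⟩
    exact (hbox c hc _ hne).1
  refine ⟨δ, hδ, ?_⟩
  have hsub : (Metric.ball (c0 : ℂ) δ ×ˢ box d) ⊆
      (Metric.ball (c0 : ℂ) (2 * ρ) ×ˢ (univ : Set (Fin d → ℝ))) := fun p hp =>
    ⟨hin p.1 hp.1, mem_univ _⟩
  have hom' := fun m => (hom m).mono hsub
  have hpw' := hpw.mono hsub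
  have hcont : ContinuousOn (fun p : ℂ × (Fin d → ℝ) => XI d c0 κ ϑ p.1 p.2)
      (Metric.ball (c0 : ℂ) δ ×ˢ box d) := by
    have htor : ∀ m : Fin (d + 1), Continuous
        (fun p : ℂ × (Fin d → ℝ) => Complex.exp (I * tor c0 κ ϑ p.2 m)) := fun m =>
      Complex.continuous_exp.comp (continuous_const.mul
        ((XD.tor_cont h0 h2 κ d ϑ m).comp continuous_snd))
    unfold XI
    refine ((XD.jac_cont h0 h2 κ d ϑ).comp continuous_snd).continuousOn.mul
      (ContinuousOn.mul ?_ (ContinuousOn.div ?_ ?_ fun p hp => (hbox p.1 hp.1 p.2 hp.2).2))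
    · unfold ker pairs HH
      refine ContinuousOn.mul (continuousOn_finsetProd _ fun m _ => ?_)
        (continuousOn_finsetProd _ fun m _ => continuousOn_finsetProd _ fun k _ => ?_)
      · exact ContinuousOn.div (continuousOn_const.mul (hom' m))
          (continuousOn_const.sub ((hom' m).pow 2)) fun p hp =>
            one_sub_om_sq_ne (harg p.1 (hin _ hp.1) p.2 m)
      · refine ContinuousOn.div ?_ ?_ ?_
        · exact (((((htor m).sub (htor k)).pow 2).continuousOn).mul ((hom' m).mul (hom' k))).neg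
        · exact ((htor m).mul (htor k)).continuousOn.mul
            ((continuousOn_const.sub ((hom' m).mul (hom' k))).pow 2)
        · intro p hp
          exact mul_ne_zero (mul_ne_zero (Complex.exp_ne_zero _) (Complex.exp_ne_zero _))
            (pow_ne_zero 2 (one_sub_om_mul_ne (harg p.1 (hin _ hp.1) p.2 m)
              (harg p.1 (hin _ hp.1) p.2 k)))
    · exact continuousOn_const.add (continuousOn_const.mul hpw')
    · exact continuousOn_const.sub (continuousOn_const.mul hpw')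
  have hdiff : ∀ t ∈ box d, DifferentiableOn ℂ (fun c => XI d c0 κ ϑ c t)
      (Metric.ball (c0 : ℂ) δ) := by
    intro t ht
    have homd : ∀ m : Fin (d + 1), DifferentiableOn ℂ
        (fun c : ℂ => om (c - Complex.cos (tor c0 κ ϑ t m))) (Metric.ball (c0 : ℂ) δ) := by
      intro m
      refine om_analytic.differentiableOn.comp (by fun_prop) fun c hc => harg c (hin c hc) t m
    have hpwd : DifferentiableOn ℂ (fun c : ℂ => prodw om c (tor c0 κ ϑ t))
        (Metric.ball (c0 : ℂ) δ) := by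
      unfold prodw
      exact DifferentiableOn.fun_finsetProd fun m _ => homd m
    unfold XI
    refine (differentiableOn_const _).mul
      (DifferentiableOn.mul ?_ (DifferentiableOn.div ?_ ?_ fun c hc => (hbox c hc t ht).2))
    · unfold ker pairs HH
      refine DifferentiableOn.mul (DifferentiableOn.fun_finsetProd fun m _ => ?_)
        (DifferentiableOn.fun_finsetProd fun m _ => DifferentiableOn.fun_finsetProd fun k _ => ?_)
      · exact DifferentiableOn.div ((differentiableOn_const _).mul (homd m))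
          ((differentiableOn_const _).sub ((homd m).pow 2)) fun c hc =>
            one_sub_om_sq_ne (harg c (hin c hc) t m)
      · refine DifferentiableOn.div ?_ ?_ ?_
        · exact ((differentiableOn_const _).mul ((homd m).mul (homd k))).neg
        · exact (differentiableOn_const _).mul
            (((differentiableOn_const _).sub ((homd m).mul (homd k))).pow 2)
        · intro c hc
          exact mul_ne_zero (mul_ne_zero (Complex.exp_ne_zero _) (Complex.exp_ne_zero _))
            (pow_ne_zero 2 (one_sub_om_mul_ne (harg c (hin c hc) t m) (harg c (hin c hc) t k)))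
    · exact (differentiableOn_const _).add ((differentiableOn_const _).mul hpwd)
    · exact (differentiableOn_const _).sub ((differentiableOn_const _).mul hpwd)
  have hint : DifferentiableOn ℂ (fun c => ∫ t in box d, XI d c0 κ ϑ c t)
      (Metric.ball (c0 : ℂ) δ) :=
    Dfm.differentiableOn_setIntegral (μ := volume) isCompact_Icc Metric.isOpen_ball hcont hdiff
  unfold chiD
  exact (differentiableOn_const _).mul hint

theorem chi_bound_of_nonres {c0 : ℝ} (h0 : 0 < c0) (h2 : c0 < 2) {ϑ : ℝ} (hϑ : ϑ = 0 ∨ ϑ = π)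
    (d ℓ : ℕ) (hN : NonRes (d + 1) ϑ c0) :
    ∃ A ε0 : ℝ, 0 < ε0 ∧ ∀ ε ∈ Ioo (0 : ℝ) ε0, ‖iteratedDeriv ℓ (chi d ϑ) (c0 + ε * I)‖ ≤ A := by
  obtain ⟨r, hr, hbal⟩ := exists_balance d hϑ h0 h2 hN.2
  obtain ⟨κ, μ, C, ρ, K, hP⟩ := exists_keyPkg h0 h2 hr.1 hr.2
  obtain ⟨δ, hδ, hdiff⟩ := nrt_chiD_differentiable h0 h2 hr.1 hr.2 hP hϑ hbal hN
  have hρ := hP.ρ_pos
  have hC := hP.C_pos
  have hμ := hP.μ_pos
  -- continuity of the derivative of the deformed integral
  have han : AnalyticAt ℂ (chiD d c0 κ ϑ) (c0 : ℂ) :=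
    (hdiff.analyticOnNhd Metric.isOpen_ball) _ (Metric.mem_ball_self hδ)
  have hcont : ContinuousAt (iteratedDeriv ℓ (chiD d c0 κ ϑ)) (c0 : ℂ) := by
    rw [iteratedDeriv_eq_iterate]
    exact (han.iterated_deriv ℓ).continuousAt
  obtain ⟨δ', hδ', hb⟩ := Metric.continuousAt_iff.1 hcont 1 one_pos
  refine ⟨‖iteratedDeriv ℓ (chiD d c0 κ ϑ) (c0 : ℂ)‖ + 1, min ρ δ', lt_min hρ hδ', ?_⟩
  intro ε hε
  have hε0 := hε.1
  have hερ : ε < ρ := hε.2.trans_le (min_le_left _ _)
  have hεδ : ε < δ' := hε.2.trans_le (min_le_right _ _)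
  -- the two functions agree near the point
  have hev : chi d ϑ =ᶠ[𝓝 ((c0 : ℂ) + ε * I)] chiD d c0 κ ϑ := by
    have hη : 0 < min ρ (min (μ * ε / (2 * C)) (ε / 2)) :=
      lt_min hρ (lt_min (by positivity) (by positivity))
    filter_upwards [Metric.ball_mem_nhds ((c0 : ℂ) + ε * I) hη] with c hc
    rw [Metric.mem_ball, dist_eq_norm] at hc
    have h1 : ‖c - (c0 + ε * I)‖ ≤ ρ := (hc.trans_le (min_le_left _ _)).le
    have h2' : ‖c - (c0 + ε * I)‖ < μ * ε / (2 * C) :=
      hc.trans_le ((min_le_right _ _).trans (min_le_left _ _))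
    have h3 : ‖c - (c0 + ε * I)‖ < ε / 2 :=
      hc.trans_le ((min_le_right _ _).trans (min_le_right _ _))
    have h4 : C * ‖c - (c0 + ε * I)‖ < μ * ε := by
      have h5 : C * ‖c - (c0 + ε * I)‖ < C * (μ * ε / (2 * C)) := mul_lt_mul_of_pos_left h2' hC
      have h6 : C * (μ * ε / (2 * C)) = μ * ε / 2 := by field_simp
      have h7 : 0 < μ * ε := by positivity
      linarith
    have h8 : 0 < ((c0 : ℂ) + ε * I + (c - (c0 + ε * I))).im := by
      rw [add_sub_cancel]
      have h9 := Complex.abs_im_le_norm (c - (c0 + ε * I))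
      have h10 : (c - (c0 + ε * I)).im = c.im - ε := by simp
      rw [h10] at h9
      have := (abs_le.1 (h9.trans h3.le)).1
      linarith
    have := chi_eq_chiD h0 h2 hP d hϑ hbal (ε := ε) ⟨hε0, hερ.le⟩ h1 h4 h8
    rwa [add_sub_cancel] at this
  rw [hev.iteratedDeriv_eq ℓ]
  have hdist : dist ((c0 : ℂ) + ε * I) c0 < δ' := by
    rw [dist_eq_norm, add_sub_cancel_left, norm_mul, Complex.norm_I, mul_one, Complex.norm_real,
      Real.norm_of_nonneg hε0.le]
    exact hεδ
  have h1 := hb hdist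
  rw [dist_eq_norm] at h1
  have h2' := norm_le_norm_add_norm_sub' (iteratedDeriv ℓ (chiD d c0 κ ϑ) ((c0 : ℂ) + ε * I))
    (iteratedDeriv ℓ (chiD d c0 κ ϑ) (c0 : ℂ))
  linarith

end

end IsingNB
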