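import Pool.Agent.Helper98.NB.OmBasic
import Pool.Agent.Helper98.NB.PairBound

/-!
# Bounds for the integrals over the product contours (NB-15)
-/

set_option autoImplicit false

namespace IsingNB

open Complex Set MeasureTheory Filter Topology
open scoped Real

noncomputable section

namespace FDB

/-! ### compactness -/

theorem exists_K_bound {K : Set ℂ} (hK : IsCompact K) (hsub : K ⊆ ZZ) :
    ∃ B : ℝ, 1 ≤ B ∧ (∀ z ∈ K, ‖2 * om z / (1 - om z ^ 2)‖ ≤ B) ∧ (∀ z ∈ K, ‖om z‖ ≤ B) ∧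
      ∀ z ∈ K, ∀ z' ∈ K, ‖(1 - om z * om z')⁻¹‖ ≤ B := by
  have hom : ContinuousOn om K := (om_analytic.continuousOn).mono hsub
  obtain ⟨B1, hB1⟩ := hK.exists_bound_of_continuousOn (f := fun z => 2 * om z / (1 - om z ^ 2))
    (ContinuousOn.div (continuousOn_const.mul hom) (continuousOn_const.sub (hom.pow 2))
      (fun z hz => one_sub_om_sq_ne (hsub hz)))
  obtain ⟨B2, hB2⟩ := hK.exists_bound_of_continuousOn hom
  obtain ⟨B3, hB3⟩ := (hK.prod hK).exists_bound_of_continuousOn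
    (f := fun p : ℂ × ℂ => (1 - om p.1 * om p.2)⁻¹)
    (ContinuousOn.inv₀ (continuousOn_const.sub
      ((hom.comp continuousOn_fst (fun p hp => hp.1)).mul
        (hom.comp continuousOn_snd (fun p hp => hp.2))))
      (fun p hp => one_sub_om_mul_ne (hsub hp.1) (hsub hp.2)))
  refine ⟨max 1 (max B1 (max B2 B3)), le_max_left _ _, fun z hz => ?_, fun z hz => ?_,
    fun z hz z' hz' => ?_⟩
  · exact (hB1 z hz).trans ((le_max_left _ _).trans (le_max_right _ _))
  · exact (hB2 z hz).trans (((le_max_left _ _).trans (le_max_right _ _)).trans (le_max_right _ _))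
  · exact (hB3 (z, z') ⟨hz, hz'⟩).trans
      (((le_max_right _ _).trans (le_max_right _ _)).trans (le_max_right _ _))

/-! ### the shape function -/

theorem den_ge {c0 : ℝ} (t : ℝ) :
    1 - |c0 - 1| ≤ 1 - (c0 - 1) * Real.cos t := by
  have h1 : (c0 - 1) * Real.cos t ≤ |c0 - 1| := by
    calc (c0 - 1) * Real.cos t ≤ |(c0 - 1) * Real.cos t| := le_abs_self _
      _ = |c0 - 1| * |Real.cos t| := abs_mul _ _
      _ ≤ |c0 - 1| * 1 := mul_le_mul_of_nonneg_left (Real.abs_cos_le_one t) (abs_nonneg _)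
      _ = |c0 - 1| := mul_one _
  linarith

theorem m_pos {c0 : ℝ} (h0 : 0 < c0) (h2 : c0 < 2) : 0 < 1 - |c0 - 1| := by
  have : |c0 - 1| < 1 := abs_lt.2 ⟨by linarith, by linarith⟩
  linarith

theorem abs_sub_le_chord (t a : ℝ) :
    |Real.cos t - Real.cos a| ≤ ‖Complex.exp (I * t) - Complex.exp (I * a)‖ ∧
    |Real.sin t - Real.sin a| ≤ ‖Complex.exp (I * t) - Complex.exp (I * a)‖ := by
  have h1 := Complex.abs_re_le_norm (Complex.exp (I * t) - Complex.exp (I * a))
  have h2 := Complex.abs_im_le_norm (Complex.exp (I * t) - Complex.exp (I * a))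
  rw [Complex.sub_re, mul_comm I (t : ℂ), mul_comm I (a : ℂ), Complex.exp_ofReal_mul_I_re,
    Complex.exp_ofReal_mul_I_re] at h1
  rw [Complex.sub_im, mul_comm I (t : ℂ), mul_comm I (a : ℂ), Complex.exp_ofReal_mul_I_im,
    Complex.exp_ofReal_mul_I_im] at h2
  rw [mul_comm I (t : ℂ), mul_comm I (a : ℂ)]
  exact ⟨h1, h2⟩

theorem bet_sub_le {c0 : ℝ} (h0 : 0 < c0) (h2 : c0 < 2) :
    ∃ L : ℝ, 1 ≤ L ∧ ∀ t a : ℝ,
      |bet c0 t - bet c0 a| ≤ L * ‖Complex.exp (I * t) - Complex.exp (I * a)‖ := by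
  have hm := m_pos h0 h2
  refine ⟨3 / (1 - |c0 - 1|) ^ 2, ?_, fun t a => ?_⟩
  · rw [le_div_iff₀ (pow_pos hm 2)]
    have h3 : 1 - |c0 - 1| ≤ 1 := by linarith [abs_nonneg (c0 - 1)]
    nlinarith
  · obtain ⟨hc, hs⟩ := abs_sub_le_chord t a
    set s := ‖Complex.exp (I * t) - Complex.exp (I * a)‖ with hsdef
    have hs0 : 0 ≤ s := norm_nonneg _
    have ht := den_ge (c0 := c0) t
    have ha := den_ge (c0 := c0) a
    set b := c0 - 1 with hb
    set m := 1 - |b| with hmdef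
    have hb1 : |b| ≤ 1 := by
      have := hm
      rw [hmdef] at this
      linarith
    have hDt : 0 < 1 - b * Real.cos t := by linarith
    have hDa : 0 < 1 - b * Real.cos a := by linarith
    have heq : bet c0 t - bet c0 a =
        ((Real.sin t - Real.sin a) * (1 - b * Real.cos a) +
          Real.sin a * b * (Real.cos t - Real.cos a)) /
        ((1 - b * Real.cos t) * (1 - b * Real.cos a)) := by
      unfold bet
      rw [← hb]
      field_simp
      ring
    have hnum : |(Real.sin t - Real.sin a) * (1 - b * Real.cos a) +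
          Real.sin a * b * (Real.cos t - Real.cos a)| ≤ 3 * s := by
      have h5 : |1 - b * Real.cos a| ≤ 2 := by
        rw [abs_of_pos hDa]
        have h6 : -(b * Real.cos a) ≤ 1 := by
          calc -(b * Real.cos a) ≤ |b * Real.cos a| := neg_le_abs _
            _ = |b| * |Real.cos a| := abs_mul _ _
            _ ≤ 1 * 1 := mul_le_mul hb1 (Real.abs_cos_le_one a) (abs_nonneg _) zero_le_one
            _ = 1 := one_mul _
        linarith
      have h7 : |Real.sin a * b| ≤ 1 := by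
        rw [abs_mul]
        calc |Real.sin a| * |b| ≤ 1 * 1 :=
              mul_le_mul (Real.abs_sin_le_one a) hb1 (abs_nonneg _) zero_le_one
          _ = 1 := one_mul _
      calc |(Real.sin t - Real.sin a) * (1 - b * Real.cos a) +
            Real.sin a * b * (Real.cos t - Real.cos a)|
          ≤ |(Real.sin t - Real.sin a) * (1 - b * Real.cos a)| +
            |Real.sin a * b * (Real.cos t - Real.cos a)| := abs_add_le _ _
        _ = |Real.sin t - Real.sin a| * |1 - b * Real.cos a| +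
            |Real.sin a * b| * |Real.cos t - Real.cos a| := by rw [abs_mul, abs_mul]
        _ ≤ s * 2 + 1 * s := by
            apply add_le_add
            · exact mul_le_mul hs h5 (abs_nonneg _) hs0
            · exact mul_le_mul h7 hc (abs_nonneg _) zero_le_one
        _ = 3 * s := by ring
    rw [heq, abs_div, abs_of_pos (mul_pos hDt hDa), div_le_iff₀ (mul_pos hDt hDa)]
    refine hnum.trans ?_
    have h8 : m ^ 2 ≤ (1 - b * Real.cos t) * (1 - b * Real.cos a) := by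
      rw [pow_two]
      exact mul_le_mul ht ha hm.le hDt.le
    have h9 : 3 * s = 3 / m ^ 2 * s * m ^ 2 := by
      have : m ^ 2 ≠ 0 := (pow_pos hm 2).ne'
      field_simp
    rw [h9]
    apply mul_le_mul_of_nonneg_left h8
    positivity

theorem dbet_le {c0 : ℝ} (h0 : 0 < c0) (h2 : c0 < 2) :
    ∃ D : ℝ, 1 ≤ D ∧ ∀ t : ℝ, |dbet c0 t| ≤ D := by
  have hm := m_pos h0 h2
  refine ⟨2 / (1 - |c0 - 1|) ^ 2, ?_, fun t => ?_⟩
  · rw [le_div_iff₀ (pow_pos hm 2)]
    have h3 : 1 - |c0 - 1| ≤ 1 := by linarith [abs_nonneg (c0 - 1)]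
    nlinarith
  · have ht := den_ge (c0 := c0) t
    have hDt : 0 < 1 - (c0 - 1) * Real.cos t := by linarith
    unfold dbet
    rw [abs_div, abs_of_pos (pow_pos hDt 2)]
    apply div_le_div₀ (by norm_num)
    · have h3 := Real.neg_one_le_cos t
      have h4 := Real.cos_le_one t
      rw [abs_le]
      constructor <;> linarith
    · exact pow_pos hm 2
    · exact pow_le_pow_left₀ hm.le ht 2

/-! ### the points `x` -/

theorem exp_lam (c0 κ a t : ℝ) : Complex.exp (I * lam c0 κ a t) =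
    Complex.exp (I * t) * (Real.exp (-(κ * (bet c0 t - bet c0 a))) : ℝ) := by
  unfold lam
  rw [Complex.ofReal_exp, ← Complex.exp_add]
  congr 1
  have : I * (t + I * (κ * (bet c0 t - bet c0 a) : ℝ)) =
      I * t + (I * I) * (κ * (bet c0 t - bet c0 a) : ℝ) := by ring
  rw [this, Complex.I_mul_I]
  push_cast
  ring

theorem norm_exp_lam (c0 κ a t : ℝ) : ‖Complex.exp (I * lam c0 κ a t)‖ =
    Real.exp (-(κ * (bet c0 t - bet c0 a))) := by
  rw [exp_lam, norm_mul, mul_comm I, Complex.norm_exp_ofReal_mul_I, one_mul, Complex.norm_real,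
    Real.norm_eq_abs, Real.abs_exp]

theorem norm_exp_lam_sub {c0 r κ μ C ρ : ℝ} {K : Set ℂ} (hP : KeyPkg c0 r κ μ C ρ K) {L : ℝ}
    (hL : ∀ t a : ℝ, |bet c0 t - bet c0 a| ≤ L * ‖Complex.exp (I * t) - Complex.exp (I * a)‖)
    (a t : ℝ) :
    ‖Complex.exp (I * lam c0 κ a t) - Complex.exp (I * a)‖ ≤
      (1 + 2 * L) * ‖Complex.exp (I * t) - Complex.exp (I * a)‖ := by
  have h1 : Complex.exp (I * lam c0 κ a t) - Complex.exp (I * a) =
      Complex.exp (I * t) * ((Real.exp (-(κ * (bet c0 t - bet c0 a))) - 1 : ℝ) : ℂ) +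
        (Complex.exp (I * t) - Complex.exp (I * a)) := by
    rw [exp_lam]
    push_cast
    ring
  have h2 : ‖Complex.exp (I * t) * ((Real.exp (-(κ * (bet c0 t - bet c0 a))) - 1 : ℝ) : ℂ)‖ ≤
      2 * L * ‖Complex.exp (I * t) - Complex.exp (I * a)‖ := by
    rw [norm_mul, mul_comm I (t : ℂ), Complex.norm_exp_ofReal_mul_I, one_mul, Complex.norm_real,
      Real.norm_eq_abs]
    have h3 : |-(κ * (bet c0 t - bet c0 a))| ≤ 1 := by
      rw [abs_neg]; exact hP.small t a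
    refine (Real.abs_exp_sub_one_le h3).trans ?_
    rw [abs_neg, abs_mul, abs_of_pos hP.κ_pos]
    have h4 := hL t a
    rw [mul_comm I (t : ℂ)] at h4
    have h5 : κ * |bet c0 t - bet c0 a| ≤ 1 * |bet c0 t - bet c0 a| :=
      mul_le_mul_of_nonneg_right hP.κ_le (abs_nonneg _)
    linarith
  rw [h1]
  refine (norm_add_le _ _).trans ?_
  linarith

theorem ch_nonneg (t a : ℝ) : 0 ≤ ch t a := by
  unfold ch
  positivity

/-! ### the kernel -/

theorem ker_bound {c0 r κ μ C ρ : ℝ} {K : Set ℂ} (h0 : 0 < c0) (h2 : c0 < 2)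
    (hP : KeyPkg c0 r κ μ C ρ K) (r0 : ℕ) :
    ∃ A L : ℝ, 1 ≤ A ∧ 0 ≤ L ∧ ∀ (q : ℕ), ∀ a ∈ Icc (-(fe c0 - r)) (fe c0 - r),
      ∀ c : ℂ, ‖c - c0‖ ≤ 2 * ρ → ∀ t : Fin (r0 + q) → ℝ,
      ‖(∏ i, (1 + I * (κ * dbet c0 (t i) : ℝ))) * ker om c (fun i => lam c0 κ a (t i))‖ ≤
        A ^ (r0 + q) * Real.sqrt (((r0 + q : ℕ) : ℝ) ^ (r0 + q)) *
          (L * ∑ m : Fin r0, ch (t (Fin.castAdd q m)) a) ^
            (∑ i : Fin r0, (Finset.Ioi i).card) := by
  obtain ⟨B, hB1, hBd, hBw, hBi⟩ := exists_K_bound hP.K_compact hP.K_sub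
  obtain ⟨D, hD1, hD⟩ := dbet_le h0 h2
  obtain ⟨Lb, hLb1, hLb⟩ := bet_sub_le h0 h2
  have he1 : 1 ≤ Real.exp 1 := Real.one_le_exp zero_le_one
  have hB0 : 0 ≤ B := by linarith
  have hB' : 1 ≤ 2 * Real.exp 1 * B := by nlinarith
  obtain ⟨A0, hA0, hpb⟩ := pairs_bound (2 * Real.exp 1 * B) hB' r0
  set L1 : ℝ := 2 * (1 + 2 * Lb) ^ 2 * (Real.exp 1 * B) ^ 2 * B ^ 2 with hL1
  have hL10 : 0 ≤ L1 := by positivity
  refine ⟨(1 + D) * B * A0, 2 * L1, ?_, by positivity, fun q a ha c hc t => ?_⟩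
  · have h3 : 1 ≤ (1 + D) * B := by nlinarith
    nlinarith
  set x : Fin (r0 + q) → ℂ := fun i => Complex.exp (I * lam c0 κ a (t i)) with hx
  set w : Fin (r0 + q) → ℂ := fun i => om (c - Complex.cos (lam c0 κ a (t i))) with hw
  have hmem : ∀ i, c - Complex.cos (lam c0 κ a (t i)) ∈ K := fun i => hP.mem a ha (t i) c hc
  have hx0 : ∀ i, x i ≠ 0 := fun i => Complex.exp_ne_zero _
  have hw0 : ∀ i, w i ≠ 0 := fun i => om_ne_zero _
  have hrel : ∀ i, x i + (x i)⁻¹ + w i + (w i)⁻¹ = 2 * c := by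
    intro i
    have h3 : x i + (x i)⁻¹ = 2 * Complex.cos (lam c0 κ a (t i)) := by
      simp only [hx]
      rw [← Complex.exp_neg, Complex.cos]
      have h4 : -(I * lam c0 κ a (t i)) = -lam c0 κ a (t i) * I := by ring
      rw [h4, mul_comm I]
      ring
    have h5 : w i + (w i)⁻¹ = 2 * (c - Complex.cos (lam c0 κ a (t i))) := om_add_inv _
    calc x i + (x i)⁻¹ + w i + (w i)⁻¹ = (x i + (x i)⁻¹) + (w i + (w i)⁻¹) := by ring
      _ = 2 * c := by rw [h3, h5]; ring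
  have hd : ∀ i l, 1 - w i * w l ≠ 0 := fun i l =>
    one_sub_om_mul_ne (hP.K_sub (hmem i)) (hP.K_sub (hmem l))
  have hxn : ∀ i, ‖x i‖ ≤ Real.exp 1 := by
    intro i
    simp only [hx]
    rw [norm_exp_lam]
    apply Real.exp_le_exp.2
    have := abs_le.1 (hP.small (t i) a)
    linarith [this.1]
  have hxi : ∀ i, ‖(x i)⁻¹‖ ≤ Real.exp 1 := by
    intro i
    simp only [hx]
    rw [norm_inv, norm_exp_lam, ← Real.exp_neg]
    apply Real.exp_le_exp.2
    have := abs_le.1 (hP.small (t i) a)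
    linarith [this.2]
  have hwx : ∀ i, ‖w i / x i‖ ≤ Real.exp 1 * B := by
    intro i
    rw [div_eq_mul_inv, norm_mul, mul_comm]
    exact mul_le_mul (hxi i) (hBw _ (hmem i)) (norm_nonneg _) (by positivity)
  have hwx' : ∀ i, ‖w i / x i‖ ≤ 2 * Real.exp 1 * B := by
    intro i
    refine (hwx i).trans ?_
    have : 0 ≤ Real.exp 1 * B := by positivity
    linarith
  have hg : ∀ i l, ‖(x i - x l) / (1 - w i * w l)‖ ≤ 2 * Real.exp 1 * B := by
    intro i l
    rw [div_eq_mul_inv, norm_mul]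
    apply mul_le_mul _ (hBi _ (hmem i) _ (hmem l)) (norm_nonneg _) (by positivity)
    refine (norm_sub_le _ _).trans ?_
    linarith [hxn i, hxn l]
  have h3 := hpb q c x w hx0 hw0 hrel hd hg hwx'
  -- the pair factors of the first points
  have hHH : ∀ i l : Fin (r0 + q), ‖HH (x i) (w i) (x l) (w l)‖ ≤ L1 * (ch (t i) a + ch (t l) a) := by
    intro i l
    have h4 : HH (x i) (w i) (x l) (w l) =
        -((x i - x l) ^ 2 * (w i / x i) * (w l / x l) * ((1 - w i * w l)⁻¹) ^ 2) := by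
      unfold HH
      have e1 := hx0 i
      have e2 := hx0 l
      have e3 := hd i l
      field_simp
    have h5 : ‖x i - x l‖ ^ 2 ≤ 2 * (1 + 2 * Lb) ^ 2 * (ch (t i) a + ch (t l) a) := by
      have h6 := norm_exp_lam_sub hP hLb a (t i)
      have h7 := norm_exp_lam_sub hP hLb a (t l)
      have h8 : ‖x i - x l‖ ≤ ‖x i - Complex.exp (I * a)‖ + ‖x l - Complex.exp (I * a)‖ := by
        have : x i - x l = (x i - Complex.exp (I * a)) - (x l - Complex.exp (I * a)) := by ring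
        rw [this]
        exact norm_sub_le _ _
      have h9 : ‖x i - x l‖ ≤ (1 + 2 * Lb) * ‖Complex.exp (I * (t i)) - Complex.exp (I * a)‖ +
          (1 + 2 * Lb) * ‖Complex.exp (I * (t l)) - Complex.exp (I * a)‖ :=
        h8.trans (add_le_add h6 h7)
      have h10 := pow_le_pow_left₀ (norm_nonneg _) h9 2
      refine h10.trans ?_
      unfold ch
      set u := ‖Complex.exp (I * (t i)) - Complex.exp (I * a)‖
      set v := ‖Complex.exp (I * (t l)) - Complex.exp (I * a)‖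
      have h11 : 2 * (1 + 2 * Lb) ^ 2 * (u ^ 2 + v ^ 2) -
          ((1 + 2 * Lb) * u + (1 + 2 * Lb) * v) ^ 2 = (1 + 2 * Lb) ^ 2 * (u - v) ^ 2 := by ring
      have h12 : 0 ≤ (1 + 2 * Lb) ^ 2 * (u - v) ^ 2 := by positivity
      linarith
    have hchs : 0 ≤ ch (t i) a + ch (t l) a := add_nonneg (ch_nonneg _ _) (ch_nonneg _ _)
    rw [h4, norm_neg, norm_mul, norm_mul, norm_mul, norm_pow, norm_pow]
    calc ‖x i - x l‖ ^ 2 * ‖w i / x i‖ * ‖w l / x l‖ * ‖(1 - w i * w l)⁻¹‖ ^ 2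
        ≤ (2 * (1 + 2 * Lb) ^ 2 * (ch (t i) a + ch (t l) a)) * (Real.exp 1 * B) *
          (Real.exp 1 * B) * B ^ 2 := by
          apply mul_le_mul
          · apply mul_le_mul
            · exact mul_le_mul h5 (hwx i) (norm_nonneg _) (by positivity)
            · exact hwx l
            · exact norm_nonneg _
            · positivity
          · exact pow_le_pow_left₀ (norm_nonneg _) (hBi _ (hmem i) _ (hmem l)) 2
          · positivity
          · positivity
      _ = L1 * (ch (t i) a + ch (t l) a) := by rw [hL1]; ring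
  set S : ℝ := ∑ m : Fin r0, ch (t (Fin.castAdd q m)) a with hS
  have hS0 : 0 ≤ S := Finset.sum_nonneg fun m _ => ch_nonneg _ _
  have hpairs0 : ‖pairs (fun i : Fin r0 => x (Fin.castAdd q i))
      (fun i : Fin r0 => w (Fin.castAdd q i))‖ ≤
      (2 * L1 * S) ^ (∑ i : Fin r0, (Finset.Ioi i).card) := by
    unfold pairs
    rw [norm_prod, ← Finset.prod_pow_eq_pow_sum]
    apply Finset.prod_le_prod (fun i _ => norm_nonneg _)
    intro i _
    rw [norm_prod, ← Finset.prod_const]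
    apply Finset.prod_le_prod (fun k _ => norm_nonneg _)
    intro k _
    refine (hHH _ _).trans ?_
    have h4 : ch (t (Fin.castAdd q i)) a ≤ S :=
      Finset.single_le_sum (f := fun m : Fin r0 => ch (t (Fin.castAdd q m)) a)
        (fun m _ => ch_nonneg _ _) (Finset.mem_univ i)
    have h5 : ch (t (Fin.castAdd q k)) a ≤ S :=
      Finset.single_le_sum (f := fun m : Fin r0 => ch (t (Fin.castAdd q m)) a)
        (fun m _ => ch_nonneg _ _) (Finset.mem_univ k)
    nlinarith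
  have hpairs : ‖pairs x w‖ ≤ A0 ^ (r0 + q) * Real.sqrt (((r0 + q : ℕ) : ℝ) ^ (r0 + q)) *
      (2 * L1 * S) ^ (∑ i : Fin r0, (Finset.Ioi i).card) := by
    have hA00 : 0 ≤ A0 := by linarith
    have hA1 : 1 ≤ A0 ^ (r0 + q) := one_le_pow₀ hA0
    have hj0 : (0 : ℝ) ≤ ((r0 + q : ℕ) : ℝ) ^ (r0 + q) := by positivity
    set p0 := ‖pairs (fun i : Fin r0 => x (Fin.castAdd q i))
      (fun i : Fin r0 => w (Fin.castAdd q i))‖ with hp0
    have h4 : ‖pairs x w‖ ^ 2 ≤
        (A0 ^ (r0 + q) * Real.sqrt (((r0 + q : ℕ) : ℝ) ^ (r0 + q)) * p0) ^ 2 := by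
      refine h3.trans ?_
      rw [mul_pow, mul_pow, Real.sq_sqrt hj0]
      apply mul_le_mul_of_nonneg_right _ (by positivity)
      apply mul_le_mul_of_nonneg_right _ hj0
      nlinarith
    have h5 : ‖pairs x w‖ ≤ A0 ^ (r0 + q) * Real.sqrt (((r0 + q : ℕ) : ℝ) ^ (r0 + q)) * p0 :=
      (pow_le_pow_iff_left₀ (norm_nonneg _) (by positivity) two_ne_zero).1 h4
    refine h5.trans ?_
    exact mul_le_mul_of_nonneg_left hpairs0 (by positivity)
  have hjac : ‖∏ i, (1 + I * (κ * dbet c0 (t i) : ℝ))‖ ≤ (1 + D) ^ (r0 + q) := by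
    rw [norm_prod]
    have h4 : (1 + D) ^ (r0 + q) = ∏ _i : Fin (r0 + q), (1 + D) := by
      rw [Finset.prod_const, Finset.card_univ, Fintype.card_fin]
    rw [h4]
    apply Finset.prod_le_prod (fun i _ => norm_nonneg _)
    intro i _
    refine (norm_add_le _ _).trans ?_
    rw [norm_one, norm_mul, Complex.norm_I, one_mul, Complex.norm_real, Real.norm_eq_abs, abs_mul,
      abs_of_pos hP.κ_pos]
    have h5 : κ * |dbet c0 (t i)| ≤ 1 * D :=
      mul_le_mul hP.κ_le (hD _) (abs_nonneg _) zero_le_one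
    linarith
  have hdens : ‖∏ i, 2 * om (c - Complex.cos (lam c0 κ a (t i))) /
      (1 - om (c - Complex.cos (lam c0 κ a (t i))) ^ 2)‖ ≤ B ^ (r0 + q) := by
    rw [norm_prod]
    have h4 : B ^ (r0 + q) = ∏ _i : Fin (r0 + q), B := by
      rw [Finset.prod_const, Finset.card_univ, Fintype.card_fin]
    rw [h4]
    exact Finset.prod_le_prod (fun i _ => norm_nonneg _) fun i _ => hBd _ (hmem i)
  have hker : ker om c (fun i => lam c0 κ a (t i)) =
      (∏ i, 2 * om (c - Complex.cos (lam c0 κ a (t i))) /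
      (1 - om (c - Complex.cos (lam c0 κ a (t i))) ^ 2)) * pairs x w := rfl
  rw [hker, norm_mul, norm_mul]
  have hA00 : 0 ≤ A0 := by linarith
  calc ‖∏ i, (1 + I * (κ * dbet c0 (t i) : ℝ))‖ *
        (‖∏ i, 2 * om (c - Complex.cos (lam c0 κ a (t i))) /
          (1 - om (c - Complex.cos (lam c0 κ a (t i))) ^ 2)‖ * ‖pairs x w‖)
      ≤ (1 + D) ^ (r0 + q) * (B ^ (r0 + q) *
        (A0 ^ (r0 + q) * Real.sqrt (((r0 + q : ℕ) : ℝ) ^ (r0 + q)) *
          (2 * L1 * S) ^ (∑ i : Fin r0, (Finset.Ioi i).card))) := by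
        apply mul_le_mul hjac _ (by positivity) (by positivity)
        exact mul_le_mul hdens hpairs (norm_nonneg _) (by positivity)
    _ = _ := by
        have h6 : ((1 + D) * B * A0) ^ (r0 + q) =
            (1 + D) ^ (r0 + q) * B ^ (r0 + q) * A0 ^ (r0 + q) := by rw [mul_pow, mul_pow]
        rw [h6]
        ring

/-! ### the exponential factor -/

theorem exp_part {c0 r κ μ C ρ : ℝ} {K : Set ℂ} (hP : KeyPkg c0 r κ μ C ρ K) {j : ℕ} (N M : ℕ)
    {a : ℝ} (ha : a ∈ Icc (-(fe c0 - r)) (fe c0 - r)) (hM : vel c0 a * N = M) {ε : ℝ}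
    (hε : ε ∈ Icc (0 : ℝ) ρ) {ζ : ℂ} (hζ : ‖ζ‖ ≤ ρ) (t : Fin j → ℝ) :
    ‖Complex.exp (I * ((M : ℤ) : ℂ) * ∑ i, lam c0 κ a (t i)) *
      prodw om (c0 + ε * I + ζ) (fun i => lam c0 κ a (t i)) ^ N‖ ≤
      (∏ i, Real.exp (-(μ * N * ch (t i) a))) *
        Real.exp ((j : ℝ) * N * (C * ‖ζ‖ - μ * ε)) := by
  have h1 : Complex.exp (I * ((M : ℤ) : ℂ) * ∑ i, lam c0 κ a (t i)) =
      ∏ i, Complex.exp (I * lam c0 κ a (t i)) ^ M := by
    rw [Finset.mul_sum, Complex.exp_sum]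
    apply Finset.prod_congr rfl
    intro i _
    rw [← Complex.exp_nat_mul]
    congr 1
    push_cast
    ring
  have h2 : prodw om (c0 + ε * I + ζ) (fun i => lam c0 κ a (t i)) ^ N =
      ∏ i, om (c0 + ε * I + ζ - Complex.cos (lam c0 κ a (t i))) ^ N := by
    unfold prodw
    rw [Finset.prod_pow]
  have h3 : Real.exp ((j : ℝ) * N * (C * ‖ζ‖ - μ * ε)) =
      ∏ _i : Fin j, Real.exp (N * (C * ‖ζ‖ - μ * ε)) := by
    rw [Finset.prod_const, Finset.card_univ, Fintype.card_fin, ← Real.exp_nat_mul]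
    congr 1
    ring
  rw [h1, h2, h3, ← Finset.prod_mul_distrib, ← Finset.prod_mul_distrib, norm_prod]
  apply Finset.prod_le_prod (fun i _ => norm_nonneg _)
  intro i _
  have hom : 0 < ‖om (c0 + ε * I + ζ - Complex.cos (lam c0 κ a (t i)))‖ :=
    norm_pos_iff.2 (om_ne_zero _)
  rw [norm_mul, norm_pow, norm_pow, norm_exp_lam, ← Real.exp_nat_mul, ← Real.exp_add]
  have h4 : ‖om (c0 + ε * I + ζ - Complex.cos (lam c0 κ a (t i)))‖ ^ N =
      Real.exp (N * Real.log ‖om (c0 + ε * I + ζ - Complex.cos (lam c0 κ a (t i)))‖) := by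
    rw [Real.exp_nat_mul, Real.exp_log hom]
  rw [h4, ← Real.exp_add]
  apply Real.exp_le_exp.2
  have h5 := hP.ineq a ha (t i) ε hε ζ hζ
  have h6 := mul_le_mul_of_nonneg_left h5 (Nat.cast_nonneg (α := ℝ) N)
  rw [← hM]
  have e1 : vel c0 a * N * -(κ * (bet c0 (t i) - bet c0 a)) +
      N * Real.log ‖om (c0 + ε * I + ζ - Complex.cos (lam c0 κ a (t i)))‖ =
      N * (-vel c0 a * (κ * (bet c0 (t i) - bet c0 a)) +
        Real.log ‖om (c0 + ε * I + ζ - Complex.cos (lam c0 κ a (t i)))‖) := by ring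
  have e2 : -(μ * N * ch (t i) a) + N * (C * ‖ζ‖ - μ * ε) =
      N * (-μ * (ch (t i) a + ε) + C * ‖ζ‖) := by ring
  rw [e1, e2]
  exact h6

/-! ### the integrals -/

theorem ch_eq (t a : ℝ) : ch t a = 2 - 2 * Real.cos (t - a) := by
  unfold ch
  rw [Complex.sq_norm, Complex.normSq_apply, Complex.sub_re, Complex.sub_im, mul_comm I (t : ℂ),
    mul_comm I (a : ℂ), Complex.exp_ofReal_mul_I_re, Complex.exp_ofReal_mul_I_re,
    Complex.exp_ofReal_mul_I_im, Complex.exp_ofReal_mul_I_im, Real.cos_sub]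
  have h1 := Real.sin_sq_add_cos_sq t
  have h2 := Real.sin_sq_add_cos_sq a
  nlinarith

theorem integral_ch_le {μ : ℝ} (hμ : 0 < μ) : ∃ C1 : ℝ, 1 ≤ C1 ∧ ∀ (N : ℕ), 1 ≤ N → ∀ a : ℝ,
    ∫ t in Icc (-π) π, Real.exp (-(μ * N / 2 * ch t a)) ≤ C1 * (N : ℝ) ^ (-(1 / 2) : ℝ) := by
  refine ⟨max 1 (Real.sqrt (π ^ 3 / (2 * μ))), le_max_left _ _, fun N hN a => ?_⟩
  have hN0 : (0 : ℝ) < N := by exact_mod_cast hN
  have hπ := Real.pi_pos
  set k : ℝ := μ * N / 2 with hk
  have hk0 : 0 < k := by positivity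
  have h1 : ∫ t in Icc (-π) π, Real.exp (-(k * ch t a)) =
      ∫ u in (-π)..π, Real.exp (-(k * (2 - 2 * Real.cos u))) := by
    rw [integral_Icc_eq_integral_Ioc, ← intervalIntegral.integral_of_le (by linarith)]
    have h2 : ∀ t : ℝ, Real.exp (-(k * ch t a)) =
        (fun u => Real.exp (-(k * (2 - 2 * Real.cos u)))) (t - a) := by
      intro t
      simp only [ch_eq]
    simp only [h2]
    rw [intervalIntegral.integral_comp_sub_right
      (fun u => Real.exp (-(k * (2 - 2 * Real.cos u))))]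
    have hper : Function.Periodic (fun u => Real.exp (-(k * (2 - 2 * Real.cos u)))) (2 * π) := by
      intro u
      simp only [Real.cos_add_two_pi]
    have h3 := hper.intervalIntegral_add_eq (-π - a) (-π)
    have e1 : -π - a + 2 * π = π - a := by ring
    have e2 : -π + 2 * π = π := by ring
    rw [e1, e2] at h3
    exact h3
  rw [h1]
  have hb : 0 < 4 * k / π ^ 2 := by positivity
  have h4 : ∫ u in (-π)..π, Real.exp (-(k * (2 - 2 * Real.cos u))) ≤
      ∫ u in (-π)..π, Real.exp (-(4 * k / π ^ 2) * u ^ 2) := by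
    apply intervalIntegral.integral_mono_on (by linarith)
    · apply Continuous.intervalIntegrable
      fun_prop
    · apply Continuous.intervalIntegrable
      fun_prop
    · intro u hu
      apply Real.exp_le_exp.2
      have h5 := Real.cos_le_one_sub_mul_cos_sq (x := u) (abs_le.2 hu)
      have h6 : 4 / π ^ 2 * u ^ 2 ≤ 2 - 2 * Real.cos u := by
        have : 4 / π ^ 2 * u ^ 2 = 2 * (2 / π ^ 2 * u ^ 2) := by ring
        rw [this]
        linarith
      have h7 := mul_le_mul_of_nonneg_left h6 hk0.le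
      have h8 : -(4 * k / π ^ 2) * u ^ 2 = -(k * (4 / π ^ 2 * u ^ 2)) := by ring
      rw [h8]
      linarith
  refine h4.trans ?_
  have h5 : ∫ u in (-π)..π, Real.exp (-(4 * k / π ^ 2) * u ^ 2) ≤
      ∫ u, Real.exp (-(4 * k / π ^ 2) * u ^ 2) := by
    rw [intervalIntegral.integral_of_le (by linarith)]
    apply setIntegral_le_integral (integrable_exp_neg_mul_sq hb)
    exact Filter.Eventually.of_forall fun u => (Real.exp_pos _).le
  refine h5.trans ?_
  rw [integral_gaussian]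
  have h6 : π / (4 * k / π ^ 2) = π ^ 3 / (2 * μ) * (N : ℝ)⁻¹ := by
    rw [hk]
    field_simp
    ring
  rw [h6, Real.sqrt_mul (by positivity)]
  have h7 : Real.sqrt ((N : ℝ)⁻¹) = (N : ℝ) ^ (-(1 / 2) : ℝ) := by
    rw [Real.sqrt_inv, Real.sqrt_eq_rpow, ← Real.rpow_neg hN0.le]
  rw [h7]
  exact mul_le_mul_of_nonneg_right (le_max_right _ _) (Real.rpow_nonneg hN0.le _)

theorem box_restrict (d : ℕ) : (volume : Measure (Fin d → ℝ)).restrict (box d) =
    Measure.pi fun _ : Fin d => (volume : Measure ℝ).restrict (Icc (-π) π) := by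
  unfold box
  rw [← Set.pi_univ_Icc, volume_pi, Measure.restrict_pi_pi]

theorem box_integral (r0 q : ℕ) (g : ℝ → ℝ) :
    ∫ t in box (r0 + q), ∏ i : Fin r0, g (t (Fin.castAdd q i)) =
      (∫ s in Icc (-π) π, g s) ^ r0 * (2 * π) ^ q := by
  have h1 : ∀ t : Fin (r0 + q) → ℝ, ∏ i : Fin r0, g (t (Fin.castAdd q i)) =
      ∏ i : Fin (r0 + q), (fun (i : Fin (r0 + q)) (s : ℝ) => if (i : ℕ) < r0 then g s else 1) i (t i) := by
    intro t
    rw [Fin.prod_univ_add]
    have h2 : ∏ i : Fin q, (fun (i : Fin (r0 + q)) (s : ℝ) => if (i : ℕ) < r0 then g s else 1)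
        (Fin.natAdd r0 i) (t (Fin.natAdd r0 i)) = 1 := by
      apply Finset.prod_eq_one
      intro i _
      simp
    rw [h2, mul_one]
    apply Finset.prod_congr rfl
    intro i _
    simp
  have h4 : ∫ t in box (r0 + q), ∏ i : Fin r0, g (t (Fin.castAdd q i)) =
      ∫ t in box (r0 + q), ∏ i : Fin (r0 + q),
        (fun (i : Fin (r0 + q)) (s : ℝ) => if (i : ℕ) < r0 then g s else 1) i (t i) := by
    congr 1
    funext t
    exact h1 t
  rw [h4, box_restrict, integral_fintype_prod_eq_prod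
    (fun (i : Fin (r0 + q)) (s : ℝ) => if (i : ℕ) < r0 then g s else 1), Fin.prod_univ_add]
  congr 1
  · have h3 : ∀ i : Fin r0, (∫ s in Icc (-π) π, if ((Fin.castAdd q i : Fin (r0 + q)) : ℕ) < r0
        then g s else 1) = ∫ s in Icc (-π) π, g s := by
      intro i
      simp
    rw [Finset.prod_congr rfl fun i _ => h3 i, Finset.prod_const, Finset.card_univ,
      Fintype.card_fin]
  · have h3 : ∀ i : Fin q, (∫ s in Icc (-π) π, if ((Fin.natAdd r0 i : Fin (r0 + q)) : ℕ) < r0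
        then g s else 1) = 2 * π := by
      intro i
      have hπ := Real.pi_pos
      have : ¬ (((Fin.natAdd r0 i : Fin (r0 + q)) : ℕ) < r0) := by simp
      simp only [this, if_false]
      rw [setIntegral_const, Real.volume_real_Icc_of_le (by linarith)]
      simp
      ring
    rw [Finset.prod_congr rfl fun i _ => h3 i, Finset.prod_const, Finset.card_univ,
      Fintype.card_fin]

theorem box_compact (d : ℕ) : IsCompact (box d) := by
  unfold box
  exact isCompact_Icc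

theorem num_pairs (r0 : ℕ) : 2 * (∑ i : Fin r0, (Finset.Ioi i).card) + r0 = r0 ^ 2 := by
  have h1 : ∑ i : Fin r0, (Finset.Ioi i).card = ∑ i ∈ Finset.range r0, (r0 - 1 - i) := by
    rw [← Fin.sum_univ_eq_sum_range (fun i => r0 - 1 - i)]
    apply Finset.sum_congr rfl
    intro i _
    rw [Fin.card_Ioi]
  rw [h1, Finset.sum_range_reflect (fun i => i), mul_comm, Finset.sum_range_id_mul_two]
  rcases r0 with _ | n
  · rfl
  · simp only [Nat.add_sub_cancel]
    ring

end FDB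

open FDB

theorem FD_bound {c0 r κ μ C ρ : ℝ} {K : Set ℂ} (h0 : 0 < c0) (h2 : c0 < 2)
    (hP : KeyPkg c0 r κ μ C ρ K) (r0 : ℕ) :
    ∃ A : ℝ, 1 ≤ A ∧ ∀ (q N M : ℕ), 1 ≤ N → ∀ a ∈ Icc (-(fe c0 - r)) (fe c0 - r),
      vel c0 a * N = M → ∀ ε ∈ Icc (0 : ℝ) ρ, ∀ ζ : ℂ, ‖ζ‖ ≤ ρ →
      ‖FD (r0 + q) c0 κ a M N (c0 + ε * I + ζ)‖ ≤
        bd A (r0 + q) * (N : ℝ) ^ (-(r0 : ℝ) ^ 2 / 2) *
          Real.exp (((r0 + q : ℕ) : ℝ) * N * (C * ‖ζ‖ - μ * ε)) := by
  obtain ⟨A1, L, hA1, hL0, hker⟩ := ker_bound h0 h2 hP r0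
  obtain ⟨C1, hC1, hint⟩ := integral_ch_le hP.μ_pos
  set P : ℕ := ∑ i : Fin r0, (Finset.Ioi i).card with hPdef
  have hμ := hP.μ_pos
  set c' : ℝ := (L * (2 / μ)) ^ P * (P.factorial : ℝ) with hc'
  have hc'0 : 0 ≤ c' := by positivity
  set Q0 : ℝ := max 1 c' with hQ0
  have hQ01 : 1 ≤ Q0 := le_max_left _ _
  have hc'Q : c' ≤ Q0 ^ r0 := by
    rcases Nat.eq_zero_or_pos r0 with h | h
    · have hP0 : P = 0 := by
        rw [hPdef]
        subst h
        simp
      rw [hc', hP0, h]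
      simp
    · calc c' ≤ Q0 := le_max_right _ _
        _ = Q0 ^ 1 := (pow_one _).symm
        _ ≤ Q0 ^ r0 := pow_le_pow_right₀ hQ01 h
  refine ⟨A1 * C1 * Q0, ?_, fun q N M hN a ha hM ε hε ζ hζ => ?_⟩
  · have h3 : 1 ≤ A1 * C1 := by nlinarith
    nlinarith
  have hN0 : (0 : ℝ) < N := by exact_mod_cast hN
  have hcn : ‖(c0 + ε * I + ζ : ℂ) - c0‖ ≤ 2 * ρ := by
    have h3 : (c0 + ε * I + ζ : ℂ) - c0 = ε * I + ζ := by ring
    rw [h3]
    refine (norm_add_le _ _).trans ?_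
    rw [norm_mul, Complex.norm_I, mul_one, Complex.norm_real, Real.norm_eq_abs,
      abs_of_nonneg hε.1]
    linarith [hε.2]
  set j : ℕ := r0 + q with hj
  set E : ℝ := Real.exp ((j : ℝ) * N * (C * ‖ζ‖ - μ * ε)) with hE
  set sj : ℝ := Real.sqrt ((j : ℝ) ^ j) with hsj
  have hE0 : 0 < E := Real.exp_pos _
  have hsj0 : 0 ≤ sj := Real.sqrt_nonneg _
  set g : ℝ → ℝ := fun s => Real.exp (-(μ * N / 2 * ch s a)) with hg
  have hgc : Continuous g := by
    rw [hg]
    simp only [ch_eq]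
    fun_prop
  have hg0 : ∀ s, 0 < g s := fun s => Real.exp_pos _
  -- pointwise bound
  have hpt : ∀ t : Fin j → ℝ, ‖(∏ i, (1 + I * (κ * dbet c0 (t i) : ℝ))) *
      (ker om (c0 + ε * I + ζ) (fun i => lam c0 κ a (t i)) *
        Complex.exp (I * ((M : ℤ) : ℂ) * ∑ i, lam c0 κ a (t i)) *
        prodw om (c0 + ε * I + ζ) (fun i => lam c0 κ a (t i)) ^ N)‖ ≤
      (A1 ^ j * sj * E * (c' * ((N : ℝ)⁻¹) ^ P)) * ∏ i : Fin r0, g (t (Fin.castAdd q i)) := by
    intro t
    have h3 := hker q a ha (c0 + ε * I + ζ) hcn t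
    have h4 := exp_part hP N M ha hM hε hζ t
    set S : ℝ := ∑ m : Fin r0, ch (t (Fin.castAdd q m)) a with hS
    have hS0 : 0 ≤ S := Finset.sum_nonneg fun m _ => ch_nonneg _ _
    have h5 : (∏ i, Real.exp (-(μ * N * ch (t i) a))) ≤
        Real.exp (-(μ * N / 2 * S)) * ∏ i : Fin r0, g (t (Fin.castAdd q i)) := by
      have h6 : (∏ i : Fin (r0 + q), Real.exp (-(μ * N * ch (t i) a))) =
          (∏ i : Fin r0, Real.exp (-(μ * N * ch (t (Fin.castAdd q i)) a))) *
          ∏ i : Fin q, Real.exp (-(μ * N * ch (t (Fin.natAdd r0 i)) a)) := Fin.prod_univ_add _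
      have h7 : ∏ i : Fin q, Real.exp (-(μ * N * ch (t (Fin.natAdd r0 i)) a)) ≤ 1 := by
        apply Finset.prod_le_one (fun i _ => (Real.exp_pos _).le)
        intro i _
        apply Real.exp_le_one_iff.2
        have := ch_nonneg (t (Fin.natAdd r0 i)) a
        have h8 : 0 ≤ μ * N * ch (t (Fin.natAdd r0 i)) a := by positivity
        linarith
      have h8 : Real.exp (-(μ * N / 2 * S)) * ∏ i : Fin r0, g (t (Fin.castAdd q i)) =
          ∏ i : Fin r0, Real.exp (-(μ * N * ch (t (Fin.castAdd q i)) a)) := by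
        rw [hS, hg, Finset.mul_sum, ← Finset.sum_neg_distrib, Real.exp_sum,
          ← Finset.prod_mul_distrib]
        apply Finset.prod_congr rfl
        intro i _
        rw [← Real.exp_add]
        congr 1
        ring
      rw [h8]
      calc (∏ i, Real.exp (-(μ * N * ch (t i) a))) =
          (∏ i : Fin r0, Real.exp (-(μ * N * ch (t (Fin.castAdd q i)) a))) *
          ∏ i : Fin q, Real.exp (-(μ * N * ch (t (Fin.natAdd r0 i)) a)) := h6
        _ ≤ (∏ i : Fin r0, Real.exp (-(μ * N * ch (t (Fin.castAdd q i)) a))) * 1 := by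
            apply mul_le_mul_of_nonneg_left h7
            exact Finset.prod_nonneg fun i _ => (Real.exp_pos _).le
        _ = _ := mul_one _
    have h6 : (L * S) ^ P * Real.exp (-(μ * N / 2 * S)) ≤ c' * ((N : ℝ)⁻¹) ^ P := by
      have hy : 0 ≤ μ * N / 2 * S := by positivity
      have h7 := Real.pow_div_factorial_le_exp (μ * N / 2 * S) hy P
      have hfac : (0 : ℝ) < P.factorial := by positivity
      rw [div_le_iff₀ hfac] at h7
      have h8 : (μ * N / 2 * S) ^ P * Real.exp (-(μ * N / 2 * S)) ≤ P.factorial := by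
        calc (μ * N / 2 * S) ^ P * Real.exp (-(μ * N / 2 * S))
            ≤ (Real.exp (μ * N / 2 * S) * P.factorial) * Real.exp (-(μ * N / 2 * S)) :=
              mul_le_mul_of_nonneg_right h7 (Real.exp_pos _).le
          _ = (Real.exp (μ * N / 2 * S) * Real.exp (-(μ * N / 2 * S))) * P.factorial := by ring
          _ = P.factorial := by rw [← Real.exp_add, add_neg_cancel, Real.exp_zero, one_mul]
      have h9 : L * S = (L * (2 / μ) * (N : ℝ)⁻¹) * (μ * N / 2 * S) := by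
        field_simp
      rw [h9, mul_pow, mul_assoc]
      calc (L * (2 / μ) * (N : ℝ)⁻¹) ^ P *
            ((μ * N / 2 * S) ^ P * Real.exp (-(μ * N / 2 * S)))
          ≤ (L * (2 / μ) * (N : ℝ)⁻¹) ^ P * P.factorial :=
            mul_le_mul_of_nonneg_left h8 (by positivity)
        _ = c' * ((N : ℝ)⁻¹) ^ P := by
            rw [hc', mul_pow]
            ring
    have h7 : (∏ i, (1 + I * (κ * dbet c0 (t i) : ℝ))) *
      (ker om (c0 + ε * I + ζ) (fun i => lam c0 κ a (t i)) *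
        Complex.exp (I * ((M : ℤ) : ℂ) * ∑ i, lam c0 κ a (t i)) *
        prodw om (c0 + ε * I + ζ) (fun i => lam c0 κ a (t i)) ^ N) =
      ((∏ i, (1 + I * (κ * dbet c0 (t i) : ℝ))) *
        ker om (c0 + ε * I + ζ) (fun i => lam c0 κ a (t i))) *
      (Complex.exp (I * ((M : ℤ) : ℂ) * ∑ i, lam c0 κ a (t i)) *
        prodw om (c0 + ε * I + ζ) (fun i => lam c0 κ a (t i)) ^ N) := by ring
    rw [h7, norm_mul]
    have hgp : 0 ≤ ∏ i : Fin r0, g (t (Fin.castAdd q i)) :=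
      Finset.prod_nonneg fun i _ => (hg0 _).le
    have hA10 : 0 ≤ A1 := by linarith
    calc ‖(∏ i, (1 + I * (κ * dbet c0 (t i) : ℝ))) *
          ker om (c0 + ε * I + ζ) (fun i => lam c0 κ a (t i))‖ *
        ‖Complex.exp (I * ((M : ℤ) : ℂ) * ∑ i, lam c0 κ a (t i)) *
          prodw om (c0 + ε * I + ζ) (fun i => lam c0 κ a (t i)) ^ N‖
        ≤ (A1 ^ j * sj * (L * S) ^ P) *
          ((∏ i, Real.exp (-(μ * N * ch (t i) a))) * E) :=
          mul_le_mul h3 h4 (norm_nonneg _) (by positivity)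
      _ ≤ (A1 ^ j * sj * (L * S) ^ P) *
          ((Real.exp (-(μ * N / 2 * S)) * ∏ i : Fin r0, g (t (Fin.castAdd q i))) * E) := by
          apply mul_le_mul_of_nonneg_left _ (by positivity)
          exact mul_le_mul_of_nonneg_right h5 hE0.le
      _ = (A1 ^ j * sj * E * ((L * S) ^ P * Real.exp (-(μ * N / 2 * S)))) *
          ∏ i : Fin r0, g (t (Fin.castAdd q i)) := by ring
      _ ≤ (A1 ^ j * sj * E * (c' * ((N : ℝ)⁻¹) ^ P)) * ∏ i : Fin r0, g (t (Fin.castAdd q i)) := by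
          apply mul_le_mul_of_nonneg_right _ hgp
          exact mul_le_mul_of_nonneg_left h6 (by positivity)
  -- integration
  have hInt : Integrable (fun t : Fin j → ℝ =>
      (A1 ^ j * sj * E * (c' * ((N : ℝ)⁻¹) ^ P)) * ∏ i : Fin r0, g (t (Fin.castAdd q i)))
      (volume.restrict (box j)) := by
    apply ContinuousOn.integrableOn_compact (box_compact j)
    apply Continuous.continuousOn
    apply continuous_const.mul
    apply continuous_finsetProd
    intro i _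
    exact hgc.comp (continuous_apply _)
  have hnorm := norm_integral_le_of_norm_le hInt (Filter.Eventually.of_forall hpt)
  rw [integral_const_mul] at hnorm
  have hbox : ∫ t in box j, ∏ i : Fin r0, g (t (Fin.castAdd q i)) =
      (∫ s in Icc (-π) π, g s) ^ r0 * (2 * π) ^ q := box_integral r0 q g
  rw [hbox] at hnorm
  have hg1 := hint N hN a
  have hgi0 : 0 ≤ ∫ s in Icc (-π) π, g s := integral_nonneg fun s => (hg0 s).le
  have hπ := Real.pi_pos
  have hA10 : 0 ≤ A1 := by linarith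
  have hC10 : 0 ≤ C1 := by linarith
  have hQ00 : 0 ≤ Q0 := by linarith
  unfold FD
  rw [norm_mul, norm_mul, norm_pow]
  have hf1 : ‖(1 / (j.factorial : ℂ))‖ = 1 / (j.factorial : ℝ) := by
    rw [norm_div, norm_one, Complex.norm_natCast]
  have hf2 : ‖(1 / (2 * π) : ℂ)‖ = 1 / (2 * π) := by
    rw [norm_div, norm_one, norm_mul, Complex.norm_real, Real.norm_eq_abs, abs_of_pos hπ]
    simp
  rw [hf1, hf2]
  have hrp : (N : ℝ) ^ (-(r0 : ℝ) ^ 2 / 2) = ((N : ℝ)⁻¹) ^ P * ((N : ℝ) ^ (-(1 / 2) : ℝ)) ^ r0 := by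
    rw [← Real.rpow_natCast (((N : ℝ)⁻¹)) P, ← Real.rpow_natCast ((N : ℝ) ^ (-(1 / 2) : ℝ)) r0,
      ← Real.rpow_mul hN0.le, Real.inv_rpow hN0.le, ← Real.rpow_neg hN0.le, ← Real.rpow_add hN0]
    congr 1
    have h3 := num_pairs r0
    rw [← hPdef] at h3
    have h4 : (2 : ℝ) * P + r0 = (r0 : ℝ) ^ 2 := by exact_mod_cast h3
    linarith
  have hpi : (1 / (2 * π)) ^ j * (2 * π) ^ q ≤ 1 := by
    rw [hj, pow_add, mul_assoc, ← mul_pow, one_div, inv_mul_cancel₀ (by positivity), one_pow,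
      mul_one]
    apply pow_le_one₀ (by positivity)
    apply inv_le_one_of_one_le₀
    linarith [Real.pi_gt_three]
  calc 1 / (j.factorial : ℝ) * (1 / (2 * π)) ^ j * _
      ≤ 1 / (j.factorial : ℝ) * (1 / (2 * π)) ^ j *
        ((A1 ^ j * sj * E * (c' * ((N : ℝ)⁻¹) ^ P)) *
          ((∫ s in Icc (-π) π, g s) ^ r0 * (2 * π) ^ q)) :=
        mul_le_mul_of_nonneg_left hnorm (by positivity)
    _ ≤ 1 / (j.factorial : ℝ) * (1 / (2 * π)) ^ j *
        ((A1 ^ j * sj * E * (Q0 ^ r0 * ((N : ℝ)⁻¹) ^ P)) *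
          ((C1 * (N : ℝ) ^ (-(1 / 2) : ℝ)) ^ r0 * (2 * π) ^ q)) := by
        apply mul_le_mul_of_nonneg_left _ (by positivity)
        apply mul_le_mul
        · apply mul_le_mul_of_nonneg_left _ (by positivity)
          exact mul_le_mul_of_nonneg_right hc'Q (by positivity)
        · apply mul_le_mul_of_nonneg_right _ (by positivity)
          exact pow_le_pow_left₀ hgi0 hg1 r0
        · positivity
        · positivity
    _ = (A1 ^ j * Q0 ^ r0 * C1 ^ r0) * sj / (j.factorial : ℝ) *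
        (((N : ℝ)⁻¹) ^ P * ((N : ℝ) ^ (-(1 / 2) : ℝ)) ^ r0) * E *
        ((1 / (2 * π)) ^ j * (2 * π) ^ q) := by
        rw [mul_pow C1]
        ring
    _ ≤ (A1 ^ j * Q0 ^ r0 * C1 ^ r0) * sj / (j.factorial : ℝ) *
        (((N : ℝ)⁻¹) ^ P * ((N : ℝ) ^ (-(1 / 2) : ℝ)) ^ r0) * E * 1 := by
        apply mul_le_mul_of_nonneg_left hpi
        positivity
    _ = (A1 ^ j * Q0 ^ r0 * C1 ^ r0) * sj / (j.factorial : ℝ) *
        (N : ℝ) ^ (-(r0 : ℝ) ^ 2 / 2) * E := by rw [hrp, mul_one]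
    _ ≤ bd (A1 * C1 * Q0) j * (N : ℝ) ^ (-(r0 : ℝ) ^ 2 / 2) * E := by
        apply mul_le_mul_of_nonneg_right _ hE0.le
        apply mul_le_mul_of_nonneg_right _ (Real.rpow_nonneg hN0.le _)
        unfold bd
        apply div_le_div_of_nonneg_right _ (by positivity)
        apply mul_le_mul_of_nonneg_right _ hsj0
        rw [mul_pow, mul_pow]
        have hr0j : r0 ≤ j := Nat.le_add_right _ _
        have e1 : Q0 ^ r0 ≤ Q0 ^ j := pow_le_pow_right₀ hQ01 hr0j
        have e2 : C1 ^ r0 ≤ C1 ^ j := pow_le_pow_right₀ hC1 hr0j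
        calc A1 ^ j * Q0 ^ r0 * C1 ^ r0 ≤ A1 ^ j * Q0 ^ j * C1 ^ j := by
              apply mul_le_mul _ e2 (by positivity) (by positivity)
              exact mul_le_mul_of_nonneg_left e1 (by positivity)
          _ = A1 ^ j * C1 ^ j * Q0 ^ j := by ring

theorem FD_bound_zero {c0 r κ μ C ρ : ℝ} {K : Set ℂ} (h0 : 0 < c0) (h2 : c0 < 2)
    (hP : KeyPkg c0 r κ μ C ρ K) (hr : r < fe c0) :
    ∃ A : ℝ, 1 ≤ A ∧ ∀ (j : ℕ) (c : ℂ), ‖c - c0‖ ≤ 2 * ρ → ‖FD j c0 κ 0 0 0 c‖ ≤ bd A j := by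
  obtain ⟨A1, L, hA1, hL0, hker⟩ := ker_bound h0 h2 hP 0
  refine ⟨A1, hA1, fun j c hc => ?_⟩
  obtain ⟨q, rfl⟩ : ∃ q, j = 0 + q := ⟨j, (zero_add j).symm⟩
  have h0mem : (0 : ℝ) ∈ Icc (-(fe c0 - r)) (fe c0 - r) := ⟨by linarith, by linarith⟩
  have hA10 : 0 ≤ A1 := by linarith
  have hπ := Real.pi_pos
  set sj : ℝ := Real.sqrt (((0 + q : ℕ) : ℝ) ^ (0 + q)) with hsj
  have hsj0 : 0 ≤ sj := Real.sqrt_nonneg _
  have hpt : ∀ t : Fin (0 + q) → ℝ, ‖(∏ i, (1 + I * (κ * dbet c0 (t i) : ℝ))) *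
      (ker om c (fun i => lam c0 κ 0 (t i)) *
        Complex.exp (I * ((0 : ℤ) : ℂ) * ∑ i, lam c0 κ 0 (t i)) *
        prodw om c (fun i => lam c0 κ 0 (t i)) ^ 0)‖ ≤
      (A1 ^ (0 + q) * sj) * ∏ i : Fin 0, (fun _ : ℝ => (1 : ℝ)) (t (Fin.castAdd q i)) := by
    intro t
    have h3 := hker q 0 h0mem c hc t
    simp only [Int.cast_zero, mul_zero, zero_mul, Complex.exp_zero, mul_one, pow_zero]
    simpa [hsj] using h3
  have hInt : Integrable (fun t : Fin (0 + q) → ℝ =>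
      (A1 ^ (0 + q) * sj) * ∏ i : Fin 0, (fun _ : ℝ => (1 : ℝ)) (t (Fin.castAdd q i)))
      (volume.restrict (box (0 + q))) := by
    apply ContinuousOn.integrableOn_compact (box_compact _)
    apply Continuous.continuousOn
    fun_prop
  have hnorm := norm_integral_le_of_norm_le hInt (Filter.Eventually.of_forall hpt)
  rw [integral_const_mul, box_integral 0 q (fun _ => (1 : ℝ)), pow_zero, one_mul] at hnorm
  unfold FD
  rw [norm_mul, norm_mul, norm_pow]
  have hf1 : ‖(1 / ((0 + q).factorial : ℂ))‖ = 1 / ((0 + q).factorial : ℝ) := by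
    rw [norm_div, norm_one, Complex.norm_natCast]
  have hf2 : ‖(1 / (2 * π) : ℂ)‖ = 1 / (2 * π) := by
    rw [norm_div, norm_one, norm_mul, Complex.norm_real, Real.norm_eq_abs, abs_of_pos hπ]
    simp
  rw [hf1, hf2]
  calc 1 / ((0 + q).factorial : ℝ) * (1 / (2 * π)) ^ (0 + q) * _
      ≤ 1 / ((0 + q).factorial : ℝ) * (1 / (2 * π)) ^ (0 + q) *
        ((A1 ^ (0 + q) * sj) * (2 * π) ^ q) := mul_le_mul_of_nonneg_left hnorm (by positivity)
    _ = bd A1 (0 + q) := by
        have h3 : (1 / (2 * π)) ^ (0 + q) * (2 * π) ^ q = 1 := by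
          rw [zero_add, ← mul_pow, one_div, inv_mul_cancel₀ (by positivity), one_pow]
        unfold bd
        rw [← hsj]
        calc _ = (A1 ^ (0 + q) * sj / ((0 + q).factorial : ℝ)) *
              ((1 / (2 * π)) ^ (0 + q) * (2 * π) ^ q) := by ring
          _ = _ := by rw [h3, mul_one]

end

end IsingNB
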