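import Pool.Agent.Helper98.NB.OmBasic
import Pool.Agent.Helper98.NB.WBasic
import Pool.Agent.Helper98.NB.Deform

/-!
# NB-14: product contours

`FF_eq_FD` (deformation of the real torus to the product contours) and `FD_diff`
(analyticity of the deformed integral near `c0`).
-/

namespace IsingNB

open Complex Set MeasureTheory Filter Topology
open scoped Real

noncomputable section

/-- the integrand of the two point function as a function of the complex angles -/
def GG (j : ℕ) (M : ℤ) (N : ℕ) (p : ℂ × (Fin j → ℂ)) : ℂ :=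
  ker om p.1 p.2 * Complex.exp (I * M * ∑ i, p.2 i) * prodw om p.1 p.2 ^ N

/-- the domain of `GG` -/
def GU (j : ℕ) : Set (ℂ × (Fin j → ℂ)) := {p | ∀ m, p.1 - Complex.cos (p.2 m) ∈ ZZ}

theorem isOpen_GU (j : ℕ) : IsOpen (GU j) := by
  have : GU j = ⋂ m : Fin j, (fun p : ℂ × (Fin j → ℂ) => p.1 - Complex.cos (p.2 m)) ⁻¹' ZZ := by
    ext p; simp [GU]
  rw [this]
  refine isOpen_iInter_of_finite fun m => isOpen_ZZ.preimage ?_
  fun_prop

theorem analyticAt_coord {j : ℕ} (i : Fin j) (p : ℂ × (Fin j → ℂ)) :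
    AnalyticAt ℂ (fun p : ℂ × (Fin j → ℂ) => p.2 i) p := by
  have h := ((ContinuousLinearMap.proj (R := ℂ) (φ := fun _ : Fin j => ℂ) i).comp
    (ContinuousLinearMap.snd ℂ ℂ (Fin j → ℂ))).analyticAt p
  exact h

theorem analyticAt_om_coord {j : ℕ} (i : Fin j) {p : ℂ × (Fin j → ℂ)} (hp : p ∈ GU j) :
    AnalyticAt ℂ (fun p : ℂ × (Fin j → ℂ) => om (p.1 - Complex.cos (p.2 i))) p := by
  have h1 : AnalyticAt ℂ (fun p : ℂ × (Fin j → ℂ) => p.1 - Complex.cos (p.2 i)) p := by
    refine AnalyticAt.sub analyticAt_fst ?_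
    have h2 : AnalyticAt ℂ Complex.cos (p.2 i) := Complex.analyticAt_cos
    exact AnalyticAt.fun_comp h2 (analyticAt_coord i p)
  exact AnalyticAt.fun_comp (om_analytic _ (hp i)) h1

theorem analyticAt_exp_coord {j : ℕ} (i : Fin j) (p : ℂ × (Fin j → ℂ)) :
    AnalyticAt ℂ (fun p : ℂ × (Fin j → ℂ) => Complex.exp (I * p.2 i)) p := by
  refine AnalyticAt.fun_comp (g := Complex.exp) (f := fun p : ℂ × (Fin j → ℂ) => I * p.2 i)
    analyticAt_cexp ?_
  exact analyticAt_const.mul (analyticAt_coord i p)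

theorem GG_analytic (j : ℕ) (M : ℤ) (N : ℕ) : AnalyticOnNhd ℂ (GG j M N) (GU j) := by
  intro p hp
  unfold GG ker prodw pairs HH
  refine AnalyticAt.mul (AnalyticAt.mul (AnalyticAt.mul ?_ ?_) ?_) (AnalyticAt.pow ?_ N)
  · refine Finset.analyticAt_fun_prod _ fun i _ => ?_
    refine AnalyticAt.div (analyticAt_const.mul (analyticAt_om_coord i hp))
      (analyticAt_const.sub ((analyticAt_om_coord i hp).pow 2)) ?_
    exact one_sub_om_sq_ne (hp i)
  · refine Finset.analyticAt_fun_prod _ fun i _ => Finset.analyticAt_fun_prod _ fun k _ => ?_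
    refine AnalyticAt.div ?_ ?_ ?_
    · refine AnalyticAt.neg (AnalyticAt.mul (AnalyticAt.pow ?_ 2) ?_)
      · exact (analyticAt_exp_coord i p).sub (analyticAt_exp_coord k p)
      · exact (analyticAt_om_coord i hp).mul (analyticAt_om_coord k hp)
    · refine AnalyticAt.mul ?_ (AnalyticAt.pow ?_ 2)
      · exact (analyticAt_exp_coord i p).mul (analyticAt_exp_coord k p)
      · exact analyticAt_const.sub ((analyticAt_om_coord i hp).mul (analyticAt_om_coord k hp))
    · refine mul_ne_zero (mul_ne_zero (Complex.exp_ne_zero _) (Complex.exp_ne_zero _)) ?_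
      exact pow_ne_zero 2 (one_sub_om_mul_ne (hp i) (hp k))
  · refine AnalyticAt.fun_comp (g := Complex.exp)
      (f := fun p : ℂ × (Fin j → ℂ) => I * M * ∑ i, p.2 i) analyticAt_cexp ?_
    refine analyticAt_const.mul ?_
    exact Finset.analyticAt_fun_sum _ fun i _ => analyticAt_coord i p
  · exact Finset.analyticAt_fun_prod _ fun i _ => analyticAt_om_coord i hp

theorem GG_per (j : ℕ) (M : ℤ) (N : ℕ) (c : ℂ) (z : Fin j → ℂ) (i : Fin j) :
    GG j M N (c, z + Pi.single i (2 * π : ℂ)) = GG j M N (c, z) := by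
  have h1 : ∀ m, Complex.cos ((z + Pi.single i (2 * π : ℂ) : Fin j → ℂ) m) = Complex.cos (z m) := by
    intro m
    by_cases hm : m = i
    · subst hm; simp [Complex.cos_add_two_pi]
    · simp [Pi.single_eq_of_ne hm]
  have h2 : ∀ m, Complex.exp (I * (z + Pi.single i (2 * π : ℂ) : Fin j → ℂ) m) =
      Complex.exp (I * z m) := by
    intro m
    by_cases hm : m = i
    · subst hm
      have : I * ((z + Pi.single m (2 * π : ℂ) : Fin j → ℂ) m) = I * z m + 2 * π * I := by
        simp; ring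
      rw [this, Complex.exp_add, Complex.exp_two_pi_mul_I, mul_one]
    · simp [Pi.single_eq_of_ne hm]
  have h3 : Complex.exp (I * M * ∑ m, (z + Pi.single i (2 * π : ℂ) : Fin j → ℂ) m) =
      Complex.exp (I * M * ∑ m, z m) := by
    have : I * M * ∑ m, (z + Pi.single i (2 * π : ℂ) : Fin j → ℂ) m =
        I * M * ∑ m, z m + M * (2 * π * I) := by
      simp only [Pi.add_apply, Finset.sum_add_distrib, Finset.sum_pi_single', Finset.mem_univ,
        if_true]
      ring
    rw [this, Complex.exp_add, Complex.exp_int_mul_two_pi_mul_I, mul_one]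
  unfold GG ker prodw
  simp only [h1, h2, h3]

/-! ### the contour -/

theorem den_pos {c0 : ℝ} (h0 : 0 < c0) (h2 : c0 < 2) (t : ℝ) : 0 < 1 - (c0 - 1) * Real.cos t := by
  have h1 : |(c0 - 1) * Real.cos t| < 1 := by
    rw [abs_mul]
    have ha : |c0 - 1| < 1 := by rw [abs_lt]; constructor <;> linarith
    have hb : |Real.cos t| ≤ 1 := Real.abs_cos_le_one t
    calc |c0 - 1| * |Real.cos t| ≤ |c0 - 1| * 1 := by gcongr
      _ < 1 := by linarith
  linarith [(abs_lt.mp h1).2]

theorem bet_hasDerivAt {c0 : ℝ} (h0 : 0 < c0) (h2 : c0 < 2) (t : ℝ) :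
    HasDerivAt (bet c0) (dbet c0 t) t := by
  have hd := (den_pos h0 h2 t).ne'
  have h1 : HasDerivAt (fun t => 1 - (c0 - 1) * Real.cos t) (-((c0 - 1) * (-Real.sin t))) t :=
    ((Real.hasDerivAt_cos t).const_mul (c0 - 1)).const_sub 1
  have h := (Real.hasDerivAt_sin t).div h1 hd
  refine (h.congr_deriv ?_)
  unfold dbet
  congr 1
  have := Real.sin_sq_add_cos_sq t
  nlinarith [this]

theorem dbet_continuous {c0 : ℝ} (h0 : 0 < c0) (h2 : c0 < 2) : Continuous (dbet c0) := by
  unfold dbet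
  refine Continuous.div (by fun_prop) (by fun_prop) fun t => ?_
  exact pow_ne_zero 2 (den_pos h0 h2 t).ne'

theorem bet_continuous {c0 : ℝ} (h0 : 0 < c0) (h2 : c0 < 2) : Continuous (bet c0) := by
  unfold bet
  exact Continuous.div (by fun_prop) (by fun_prop) fun t => (den_pos h0 h2 t).ne'

theorem bet_per (c0 t : ℝ) : bet c0 (t + 2 * π) = bet c0 t := by
  unfold bet; rw [Real.sin_add_two_pi, Real.cos_add_two_pi]

/-- the displacement of the product contour -/
def eprod (j : ℕ) (c0 κ a : ℝ) (t : Fin j → ℝ) : Fin j → ℂ := fun m =>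
  I * (κ * (bet c0 (t m) - bet c0 a) : ℝ)

/-- its derivative -/
def Lprod (j : ℕ) (c0 κ : ℝ) (t : Fin j → ℝ) : (Fin j → ℝ) →L[ℝ] (Fin j → ℂ) :=
  ContinuousLinearMap.pi fun m =>
    (ContinuousLinearMap.toSpanSingleton ℝ (I * (κ * dbet c0 (t m) : ℝ) : ℂ)).comp
      (ContinuousLinearMap.proj (R := ℝ) (φ := fun _ : Fin j => ℝ) m)

theorem Lprod_apply (j : ℕ) (c0 κ : ℝ) (t v : Fin j → ℝ) (m : Fin j) :
    Lprod j c0 κ t v m = (v m : ℂ) * (I * (κ * dbet c0 (t m) : ℝ)) := by
  simp [Lprod]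

theorem eprod_hasFDerivAt {j : ℕ} {c0 : ℝ} (h0 : 0 < c0) (h2 : c0 < 2) (κ a : ℝ)
    (t : Fin j → ℝ) : HasFDerivAt (eprod j c0 κ a) (Lprod j c0 κ t) t := by
  rw [hasFDerivAt_pi']
  intro m
  have h1 : HasDerivAt (fun s : ℝ => (I * (κ * (bet c0 s - bet c0 a) : ℝ) : ℂ))
      (I * (κ * dbet c0 (t m) : ℝ)) (t m) := by
    have h3 : HasDerivAt (fun s : ℝ => κ * (bet c0 s - bet c0 a)) (κ * dbet c0 (t m)) (t m) :=
      ((bet_hasDerivAt h0 h2 (t m)).sub_const _).const_mul κ
    exact (h3.ofReal_comp).const_mul I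
  have h4 : HasFDerivAt (fun t : Fin j → ℝ => t m)
      (ContinuousLinearMap.proj (R := ℝ) (φ := fun _ : Fin j => ℝ) m) t :=
    (ContinuousLinearMap.proj (R := ℝ) (φ := fun _ : Fin j => ℝ) m).hasFDerivAt
  have h5 := HasFDerivAt.comp (x := t) (g := fun s : ℝ => (I * (κ * (bet c0 s - bet c0 a) : ℝ) : ℂ))
    (f := fun t : Fin j → ℝ => t m) h1.hasFDerivAt h4
  refine h5.congr_fderiv ?_
  ext v
  simp [Lprod]

theorem Lprod_continuous (j : ℕ) {c0 : ℝ} (h0 : 0 < c0) (h2 : c0 < 2) (κ : ℝ) :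
    Continuous (Lprod j c0 κ) := by
  have h : Continuous (dbet c0) := dbet_continuous h0 h2
  rw [continuous_clm_apply]
  intro v
  rw [continuous_pi_iff]
  intro m
  simp only [Lprod_apply]
  fun_prop

theorem Lprod_det (j : ℕ) (c0 κ : ℝ) (t : Fin j → ℝ) :
    Matrix.det (1 + Matrix.of fun i k => Lprod j c0 κ t (Pi.single k 1) i) =
      ∏ i, (1 + I * (κ * dbet c0 (t i) : ℝ)) := by
  have : (1 + Matrix.of fun i k => Lprod j c0 κ t (Pi.single k 1) i) =
      Matrix.diagonal fun i => (1 + I * (κ * dbet c0 (t i) : ℝ) : ℂ) := by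
    ext i k
    rw [Matrix.add_apply, Matrix.of_apply, Lprod_apply]
    by_cases h : i = k
    · subst h; simp
    · rw [Matrix.one_apply_ne h, Matrix.diagonal_apply_ne _ h, Pi.single_eq_of_ne h]
      simp
  rw [this, Matrix.det_diagonal]

theorem FF_eq_FD {c0 r κ μ C ρ : ℝ} {K : Set ℂ} (h0 : 0 < c0) (h2 : c0 < 2)
    (hP : KeyPkg c0 r κ μ C ρ K) (j : ℕ)
    {a : ℝ} (ha : a ∈ Icc (-(fe c0 - r)) (fe c0 - r)) (M : ℤ) (N : ℕ) {c : ℂ} (hc : 0 < c.im)
    (hc' : ‖c - c0‖ ≤ 2 * ρ) : FF j M N c = FD j c0 κ a M N c := by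
  have key := deform (d := j) {z | (c, z) ∈ GU j}
    ((isOpen_GU j).preimage (by fun_prop : Continuous fun z : Fin j → ℂ => (c, z)))
    (fun z => GG j M N (c, z)) (fun z hz =>
      AnalyticAt.fun_comp (g := GG j M N) (f := fun z : Fin j → ℂ => (c, z))
        (GG_analytic j M N _ hz) (analyticAt_const.prod analyticAt_id))
    (fun z _ i _ => GG_per j M N c z i) (eprod j c0 κ a) (Lprod j c0 κ)
    (eprod_hasFDerivAt h0 h2 κ a) (Lprod_continuous j h0 h2 κ)
    (by
      intro t i
      ext m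
      unfold eprod
      by_cases hm : m = i
      · subst hm; simp [bet_per]
      · simp [Pi.single_eq_of_ne hm])
    (by
      intro s hs t
      show ∀ m, _
      intro m
      have h := hP.path a ha (t m) s hs c hc hc'
      have h3 : (c, cv t + (s : ℂ) • eprod j c0 κ a t).2 m = lam c0 (s * κ) a (t m) := by
        simp only [Pi.add_apply, cv, Pi.smul_apply, eprod, lam, smul_eq_mul]
        push_cast
        ring
      rw [h3]
      exact h)
  have e1 : ∀ t : Fin j → ℝ, cv t + eprod j c0 κ a t = fun i => lam c0 κ a (t i) := by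
    intro t; ext i; simp [cv, eprod, lam]
  unfold FF FD
  congr 1
  have lhs : (fun t : Fin j → ℝ => ker W c (cv t) * Complex.exp (I * M * ∑ i, (t i : ℂ)) *
      prodw W c (cv t) ^ N) = fun t => GG j M N (c, cv t) := by
    ext t
    have hW : ∀ i, W (c - Complex.cos (cv t i)) = om (c - Complex.cos (cv t i)) := by
      intro i
      refine W_eq_om ?_
      have : (Complex.cos (cv t i)).im = 0 := by
        simp only [cv]
        rw [← Complex.ofReal_cos, Complex.ofReal_im]
      rw [Complex.sub_im, this, sub_zero]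
      exact hc
    unfold GG ker prodw
    simp only [hW]
    rfl
  rw [lhs, ← key]
  refine integral_congr_ae (Eventually.of_forall fun t => ?_)
  simp only
  rw [Lprod_det, e1]
  unfold GG
  simp only
  ring

/-! ### analyticity of the deformed integral -/

/-- Integrals of functions which are jointly analytic are analytic in the parameter. -/
theorem differentiableOn_integral_param {j : ℕ} {S : Set (Fin j → ℝ)} (hS : IsCompact S)
    {V : Set ℂ} (hV : IsOpen V) {g g' : ℂ → (Fin j → ℝ) → ℂ}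
    (hg : ContinuousOn (fun p : ℂ × (Fin j → ℝ) => g p.1 p.2) (V ×ˢ S))
    (hg' : ContinuousOn (fun p : ℂ × (Fin j → ℝ) => g' p.1 p.2) (V ×ˢ S))
    (hd : ∀ t ∈ S, ∀ c ∈ V, HasDerivAt (fun c => g c t) (g' c t) c) :
    DifferentiableOn ℂ (fun c => ∫ t in S, g c t) V := by
  intro c1 hc1
  obtain ⟨δ, hδ, hδV⟩ := Metric.isOpen_iff.mp hV c1 hc1
  have hsub : Metric.closedBall c1 (δ / 2) ⊆ V :=
    (Metric.closedBall_subset_ball (by linarith)).trans hδV
  have hcpt : IsCompact (Metric.closedBall c1 (δ / 2) ×ˢ S) :=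
    (isCompact_closedBall c1 (δ / 2)).prod hS
  obtain ⟨B, hB⟩ := hcpt.exists_bound_of_continuousOn (hg'.mono (Set.prod_mono hsub (le_refl S)))
  have hcont : ∀ c ∈ V, ContinuousOn (g c) S := by
    intro c hc
    have : ContinuousOn (fun t : Fin j → ℝ => ((c, t) : ℂ × (Fin j → ℝ))) S := by fun_prop
    exact hg.comp this fun t ht => ⟨hc, ht⟩
  have hcont' : ∀ c ∈ V, ContinuousOn (g' c) S := by
    intro c hc
    have : ContinuousOn (fun t : Fin j → ℝ => ((c, t) : ℂ × (Fin j → ℝ))) S := by fun_prop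
    exact hg'.comp this fun t ht => ⟨hc, ht⟩
  have hmem : Metric.closedBall c1 (δ / 2) ∈ 𝓝 c1 :=
    Metric.closedBall_mem_nhds c1 (by linarith)
  have hSm : MeasurableSet S := hS.measurableSet
  have hres := hasDerivAt_integral_of_dominated_loc_of_deriv_le (μ := volume.restrict S)
    (F := g) (F' := g') (x₀ := c1) (s := Metric.closedBall c1 (δ / 2)) (bound := fun _ => B) hmem
    (by
      filter_upwards [hmem] with c hc
      exact (hcont c (hsub hc)).aestronglyMeasurable hSm)
    ((hcont c1 hc1).integrableOn_compact hS)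
    ((hcont' c1 hc1).aestronglyMeasurable hSm)
    (by
      filter_upwards [ae_restrict_mem hSm] with t ht
      intro c hc
      exact hB (c, t) ⟨hc, ht⟩)
    (integrableOn_const hS.measure_lt_top.ne)
    (by
      filter_upwards [ae_restrict_mem hSm] with t ht
      intro c hc
      exact hd t ht c (hsub hc))
  exact hres.2.differentiableAt.differentiableWithinAt

theorem isCompact_box (j : ℕ) : IsCompact (box j) := isCompact_Icc

theorem FD_diff {c0 r κ μ C ρ : ℝ} {K : Set ℂ} (h0 : 0 < c0) (h2 : c0 < 2)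
    (hP : KeyPkg c0 r κ μ C ρ K) (j : ℕ)
    {a : ℝ} (ha : a ∈ Icc (-(fe c0 - r)) (fe c0 - r)) (M : ℤ) (N : ℕ) :
    DifferentiableOn ℂ (FD j c0 κ a M N) (Metric.ball (c0 : ℂ) (2 * ρ)) := by
  have hbc : Continuous (bet c0) := bet_continuous h0 h2
  have hdbc : Continuous (dbet c0) := dbet_continuous h0 h2
  have hlam : Continuous (fun t : Fin j → ℝ => fun i => lam c0 κ a (t i)) := by
    unfold lam
    fun_prop
  have hmem : ∀ c ∈ Metric.ball (c0 : ℂ) (2 * ρ), ∀ t : Fin j → ℝ,
      (c, fun i => lam c0 κ a (t i)) ∈ GU j := by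
    intro c hc t m
    refine hP.K_sub (hP.mem a ha (t m) c ?_)
    rw [mem_ball_iff_norm] at hc
    exact hc.le
  set J : (Fin j → ℝ) → ℂ := fun t => ∏ i, (1 + I * (κ * dbet c0 (t i) : ℝ)) with hJ
  have hJc : Continuous J := by
    rw [hJ]; fun_prop
  set g : ℂ → (Fin j → ℝ) → ℂ := fun c t => J t * GG j M N (c, fun i => lam c0 κ a (t i)) with hg
  set g' : ℂ → (Fin j → ℝ) → ℂ := fun c t =>
    J t * (fderiv ℂ (GG j M N) (c, fun i => lam c0 κ a (t i))) (1, 0) with hg'
  have hφ : Continuous (fun p : ℂ × (Fin j → ℝ) =>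
      ((p.1, fun i => lam c0 κ a (p.2 i)) : ℂ × (Fin j → ℂ))) := by
    refine Continuous.prodMk continuous_fst ?_
    exact hlam.comp continuous_snd
  have hgc : ContinuousOn (fun p : ℂ × (Fin j → ℝ) => g p.1 p.2)
      (Metric.ball (c0 : ℂ) (2 * ρ) ×ˢ box j) := by
    refine ContinuousOn.mul (hJc.comp continuous_snd).continuousOn ?_
    exact (GG_analytic j M N).continuousOn.comp hφ.continuousOn
      fun p hp => hmem p.1 hp.1 p.2
  have hg'c : ContinuousOn (fun p : ℂ × (Fin j → ℝ) => g' p.1 p.2)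
      (Metric.ball (c0 : ℂ) (2 * ρ) ×ˢ box j) := by
    refine ContinuousOn.mul (hJc.comp continuous_snd).continuousOn ?_
    refine ContinuousOn.clm_apply ?_ continuousOn_const
    exact (GG_analytic j M N).fderiv.continuousOn.comp hφ.continuousOn
      fun p hp => hmem p.1 hp.1 p.2
  have hdiff := differentiableOn_integral_param (isCompact_box j) Metric.isOpen_ball hgc hg'c
    (by
      intro t _ c hc
      refine HasDerivAt.const_mul (J t) ?_
      have h3 : HasFDerivAt (GG j M N)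
          (fderiv ℂ (GG j M N) (c, fun i => lam c0 κ a (t i))) (c, fun i => lam c0 κ a (t i)) :=
        ((GG_analytic j M N) _ (hmem c hc t)).differentiableAt.hasFDerivAt
      have h4 : HasDerivAt (fun c : ℂ => ((c, fun i => lam c0 κ a (t i)) : ℂ × (Fin j → ℂ)))
          ((1, 0) : ℂ × (Fin j → ℂ)) c := by
        exact (hasDerivAt_id c).prodMk (hasDerivAt_const c _)
      exact h3.comp_hasDerivAt c h4)
  have heq : FD j c0 κ a M N = fun c => ((1 / (j.factorial : ℂ)) * (1 / (2 * π)) ^ j) *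
      ∫ t in box j, g c t := by
    ext c
    rfl
  rw [heq]
  exact hdiff.const_mul _

end

end IsingNB
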