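import Pool.Agent.Helper98.NB.WBasic

namespace IsingNB

open Complex Set MeasureTheory Filter Topology
open scoped Real

noncomputable section

/-! ## General lemmas -/

theorem snDiff_prod {E ι : Type*} [NormedAddCommGroup E] [NormedSpace ℂ E] (s : Finset ι)
    (f : ι → E → ℂ) (x : E) (h : ∀ i ∈ s, DifferentiableAt ℂ (f i) x) :
    DifferentiableAt ℂ (fun y => ∏ i ∈ s, f i y) x := by
  classical
  induction s using Finset.induction_on with
  | empty => simp
  | insert a s ha ih =>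
    have h1 : (fun y => ∏ i ∈ insert a s, f i y) = fun y => f a y * ∏ i ∈ s, f i y := by
      funext y
      rw [Finset.prod_insert ha]
    rw [h1]
    exact (h a (Finset.mem_insert_self a s)).mul
      (ih fun i hi => h i (Finset.mem_insert_of_mem hi))

theorem snDiff_div {E : Type*} [NormedAddCommGroup E] [NormedSpace ℂ E] {f g : E → ℂ} {x : E}
    (hf : DifferentiableAt ℂ f x) (hg : DifferentiableAt ℂ g x) (h : g x ≠ 0) :
    DifferentiableAt ℂ (fun y => f y / g y) x := by
  simp only [div_eq_mul_inv]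
  have h1 : DifferentiableAt ℂ (fun y => (g y)⁻¹) x :=
    DifferentiableAt.comp (f := g) x (differentiableAt_inv h) hg
  exact hf.fun_mul h1

/-- A parametric integral over a compact set of a jointly continuous function which is holomorphic in
the parameter is holomorphic. -/
theorem snDiff_integral {E : Type*} [MetricSpace E] [SecondCountableTopology E]
    [MeasurableSpace E] [BorelSpace E] (μ : Measure E) [IsFiniteMeasureOnCompacts μ] {K : Set E}
    (hK : IsCompact K) (hKm : MeasurableSet K) {U : Set ℂ} (hU : IsOpen U) (f : ℂ → E → ℂ)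
    (hc : ContinuousOn (fun p : ℂ × E => f p.1 p.2) (U ×ˢ K))
    (hd : ∀ t ∈ K, DifferentiableOn ℂ (fun c => f c t) U) :
    DifferentiableOn ℂ (fun c => ∫ t in K, f c t ∂μ) U := by
  intro c0 hc0
  obtain ⟨r, hr, hrU⟩ := Metric.isOpen_iff.1 hU c0 hc0
  have hr2 : 0 < r / 2 := by positivity
  have hr4 : 0 < r / 4 := by positivity
  have hball : Metric.closedBall c0 (r / 2) ⊆ U := fun z hz =>
    hrU (Metric.closedBall_subset_ball (by linarith) hz)
  have hcK : ∀ c ∈ U, ContinuousOn (f c) K := by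
    intro c hcU
    have h1 : ContinuousOn (fun t : E => ((c, t) : ℂ × E)) K :=
      (Continuous.prodMk_right c).continuousOn
    exact hc.comp h1 fun t ht => ⟨hcU, ht⟩
  have hmeas : ∀ c ∈ U, AEStronglyMeasurable (f c) (μ.restrict K) := fun c hcU =>
    (hcK c hcU).aestronglyMeasurable hKm
  obtain ⟨B, hB⟩ : ∃ B : ℝ, ∀ p ∈ Metric.closedBall c0 (r / 2) ×ˢ K, ‖f p.1 p.2‖ ≤ B :=
    ((isCompact_closedBall c0 (r / 2)).prod hK).exists_bound_of_continuousOn
      (hc.mono (Set.prod_mono hball subset_rfl))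
  have hmem : ∀ z ∈ Metric.ball c0 (r / 4), Metric.closedBall z (r / 4) ⊆
      Metric.closedBall c0 (r / 2) := by
    intro z hz w hw
    rw [Metric.mem_closedBall] at hw ⊢
    rw [Metric.mem_ball] at hz
    linarith [dist_triangle w z c0]
  have hdA : ∀ t ∈ K, ∀ z ∈ Metric.ball c0 (r / 4),
      HasDerivAt (fun c => f c t) (deriv (fun c => f c t) z) z := by
    intro t ht z hz
    have hzU : z ∈ U := hball (hmem z hz (Metric.mem_closedBall_self hr4.le))
    exact ((hd t ht).differentiableAt (hU.mem_nhds hzU)).hasDerivAt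
  have hDb : ∀ t ∈ K, ∀ z ∈ Metric.ball c0 (r / 4),
      ‖deriv (fun c => f c t) z‖ ≤ B / (r / 4) := by
    intro t ht z hz
    have h2 : DiffContOnCl ℂ (fun c => f c t) (Metric.ball z (r / 4)) := by
      apply DifferentiableOn.diffContOnCl
      rw [closure_ball z hr4.ne']
      exact (hd t ht).mono fun w hw => hball (hmem z hz hw)
    refine norm_deriv_le_of_forall_mem_sphere_norm_le hr4 h2 fun w hw => ?_
    exact hB (w, t) ⟨hmem z hz (Metric.sphere_subset_closedBall hw), ht⟩
  have hb0 : c0 ∈ Metric.ball c0 (r / 4) := Metric.mem_ball_self hr4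
  have hmeas' : AEStronglyMeasurable (fun t => deriv (fun c => f c t) c0) (μ.restrict K) := by
    obtain ⟨h, hh⟩ : ∃ h : ℕ → ℂ, ∀ n, h n = ((r / 8 / ((n : ℝ) + 1) : ℝ) : ℂ) := ⟨_, fun _ => rfl⟩
    have hpos : ∀ n : ℕ, 0 < r / 8 / ((n : ℝ) + 1) := fun n => by positivity
    have hle : ∀ n : ℕ, r / 8 / ((n : ℝ) + 1) ≤ r / 8 := fun n => by
      apply div_le_self (by positivity)
      have : (0 : ℝ) ≤ n := Nat.cast_nonneg n
      linarith
    have hn0 : ∀ n, h n ≠ 0 := fun n => by
      rw [hh]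
      exact_mod_cast (hpos n).ne'
    have hlim : Tendsto h atTop (𝓝[≠] 0) := by
      refine tendsto_nhdsWithin_iff.2 ⟨?_, Eventually.of_forall fun n => hn0 n⟩
      have h3 : Tendsto (fun n : ℕ => r / 8 / ((n : ℝ) + 1)) atTop (𝓝 0) := by
        have h4 := (tendsto_one_div_add_atTop_nhds_zero_nat (𝕜 := ℝ)).const_mul (r / 8)
        rw [mul_zero] at h4
        refine h4.congr fun n => ?_
        ring
      have h5 := (Complex.continuous_ofReal.tendsto 0).comp h3
      rw [Complex.ofReal_zero] at h5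
      exact h5.congr fun n => (hh n).symm
    refine aestronglyMeasurable_of_tendsto_ae atTop
      (f := fun n t => (h n)⁻¹ • (f (c0 + h n) t - f c0 t)) (fun n => ?_) ?_
    · have hin : c0 + h n ∈ U := by
        refine hball ?_
        rw [Metric.mem_closedBall, dist_eq_norm, add_sub_cancel_left]
        rw [hh]
        rw [Complex.norm_real, Real.norm_of_nonneg (hpos n).le]
        linarith [hle n]
      exact ((hmeas _ hin).sub (hmeas _ hc0)).const_smul ((h n)⁻¹)
    · refine (ae_restrict_iff' hKm).2 (Eventually.of_forall fun t ht => ?_)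
      have h6 := (hasDerivAt_iff_tendsto_slope_zero.1 (hdA t ht c0 hb0)).comp hlim
      exact h6
  have hmain := hasDerivAt_integral_of_dominated_loc_of_deriv_le (μ := μ.restrict K)
    (F := f) (F' := fun c t => deriv (fun c => f c t) c) (x₀ := c0)
    (s := Metric.ball c0 (r / 4)) (bound := fun _ => B / (r / 4)) (Metric.ball_mem_nhds c0 hr4)
    ?_ ?_ hmeas' ?_ ?_ ?_
  · exact hmain.2.differentiableAt.differentiableWithinAt
  · filter_upwards [hU.mem_nhds hc0] with c hcU using hmeas c hcU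
  · exact (hcK c0 hc0).integrableOn_compact hK
  · exact (ae_restrict_iff' hKm).2 (Eventually.of_forall fun t ht z hz => hDb t ht z hz)
  · exact integrableOn_const hK.measure_lt_top.ne
  · exact (ae_restrict_iff' hKm).2 (Eventually.of_forall fun t ht z hz => hdA t ht z hz)

/-! ## The kernel -/

theorem snHH_diff {E : Type*} [NormedAddCommGroup E] [NormedSpace ℂ E] (x w x' w' : E → ℂ) (p : E)
    (hx : DifferentiableAt ℂ x p) (hw : DifferentiableAt ℂ w p)
    (hx' : DifferentiableAt ℂ x' p) (hw' : DifferentiableAt ℂ w' p) (h0 : x p ≠ 0) (h0' : x' p ≠ 0)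
    (h1 : 1 - w p * w' p ≠ 0) :
    DifferentiableAt ℂ (fun q => HH (x q) (w q) (x' q) (w' q)) p := by
  unfold HH
  refine snDiff_div ?_ ?_ ?_
  · exact (((hx.fun_sub hx').fun_pow 2).fun_mul (hw.fun_mul hw')).fun_neg
  · exact (hx.fun_mul hx').fun_mul (((hw.fun_mul hw').const_sub 1).fun_pow 2)
  · exact mul_ne_zero (mul_ne_zero h0 h0') (pow_ne_zero 2 h1)

/-- The kernel, the product of the `W`'s are differentiable jointly. -/
theorem snW_diff {j : ℕ} (p : ℂ × (Fin j → ℂ)) (hp : ∀ i, p.1 - Complex.cos (p.2 i) ∉ Seg)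
    (i : Fin j) : DifferentiableAt ℂ (fun q : ℂ × (Fin j → ℂ) => W (q.1 - Complex.cos (q.2 i))) p := by
  have h1 : DifferentiableAt ℂ (fun q : ℂ × (Fin j → ℂ) => q.1 - Complex.cos (q.2 i)) p := by
    fun_prop
  exact (W_analytic _ (hp i)).differentiableAt.comp p h1

theorem snW_mul_ne {u u' : ℂ} (hu : u ∉ Seg) (hu' : u' ∉ Seg) : 1 - W u * W u' ≠ 0 := by
  intro h
  have h1 : ‖W u * W u'‖ < 1 := by
    rw [norm_mul]
    calc ‖W u‖ * ‖W u'‖ ≤ ‖W u‖ * 1 :=
          mul_le_mul_of_nonneg_left (norm_W_lt_one hu').le (norm_nonneg _)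
      _ < 1 := by rw [mul_one]; exact norm_W_lt_one hu
  have h2 : W u * W u' = 1 := (sub_eq_zero.1 h).symm
  rw [h2, norm_one] at h1
  exact lt_irrefl 1 h1

theorem snKer_diff {j : ℕ} (p : ℂ × (Fin j → ℂ)) (hp : ∀ i, p.1 - Complex.cos (p.2 i) ∉ Seg) :
    DifferentiableAt ℂ (fun q : ℂ × (Fin j → ℂ) => ker W q.1 q.2) p := by
  unfold ker
  refine DifferentiableAt.fun_mul (snDiff_prod _ _ _ fun i _ => ?_) ?_
  · refine snDiff_div ((snW_diff p hp i).const_mul 2)
      (((snW_diff p hp i).fun_pow 2).const_sub 1) ?_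
    rw [pow_two]
    exact snW_mul_ne (hp i) (hp i)
  · unfold pairs
    refine snDiff_prod _ _ _ fun i _ => snDiff_prod _ _ _ fun k _ => ?_
    have hE : ∀ i : Fin j, DifferentiableAt ℂ
        (fun q : ℂ × (Fin j → ℂ) => Complex.exp (I * q.2 i)) p := fun i => by fun_prop
    exact snHH_diff _ _ _ _ p (hE i) (snW_diff p hp i) (hE k) (snW_diff p hp k)
      (Complex.exp_ne_zero _) (Complex.exp_ne_zero _) (snW_mul_ne (hp i) (hp k))

theorem snProdw_diff {j : ℕ} (p : ℂ × (Fin j → ℂ)) (hp : ∀ i, p.1 - Complex.cos (p.2 i) ∉ Seg) :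
    DifferentiableAt ℂ (fun q : ℂ × (Fin j → ℂ) => prodw W q.1 q.2) p := by
  unfold prodw
  exact snDiff_prod _ _ _ fun i _ => snW_diff p hp i

theorem snFF_integrand_diff {j : ℕ} (M : ℤ) (N : ℕ) (p : ℂ × (Fin j → ℂ))
    (hp : ∀ i, p.1 - Complex.cos (p.2 i) ∉ Seg) :
    DifferentiableAt ℂ (fun q : ℂ × (Fin j → ℂ) =>
      ker W q.1 q.2 * Complex.exp (I * M * ∑ i, q.2 i) * prodw W q.1 q.2 ^ N) p := by
  refine DifferentiableAt.fun_mul (DifferentiableAt.fun_mul (snKer_diff p hp) ?_)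
    ((snProdw_diff p hp).fun_pow N)
  have h1 : DifferentiableAt ℂ (fun q : ℂ × (Fin j → ℂ) => ∑ i, q.2 i) p := by
    fun_prop
  exact (h1.const_mul (I * M)).cexp

/-! ## The two statements -/

theorem FF_diff (j : ℕ) (M : ℤ) (N : ℕ) : DifferentiableOn ℂ (FF j M N) {c | 0 < c.im} := by
  have hU : IsOpen {c : ℂ | 0 < c.im} := isOpen_lt continuous_const Complex.continuous_im
  have hmem : ∀ c : ℂ, 0 < c.im → ∀ t : Fin j → ℝ, ∀ i, c - Complex.cos (cv t i) ∉ Seg := by
    intro c hc t i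
    exact sub_cos_notMem_Seg (Or.inl hc.ne') (t i)
  have h1 := snDiff_integral (volume : Measure (Fin j → ℝ)) (K := box j) isCompact_Icc
    measurableSet_Icc hU
    (fun c t => ker W c (cv t) * Complex.exp (I * M * ∑ i, (t i : ℂ)) * prodw W c (cv t) ^ N) ?_ ?_
  · unfold FF
    exact h1.const_mul _
  · intro p hp
    have h2 := (snFF_integrand_diff M N (p.1, cv p.2) (hmem p.1 hp.1 p.2)).continuousAt
    have h3 : ContinuousAt (fun q : ℂ × (Fin j → ℝ) => ((q.1, cv q.2) : ℂ × (Fin j → ℂ))) p := by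
      unfold cv
      fun_prop
    exact (ContinuousAt.comp (f := fun q : ℂ × (Fin j → ℝ) => ((q.1, cv q.2) : ℂ × (Fin j → ℂ)))
      h2 h3).continuousWithinAt
  · intro t _ c hc
    have h2 := snFF_integrand_diff M N (c, cv t) (hmem c hc t)
    have h3 : DifferentiableAt ℂ (fun z : ℂ => ((z, cv t) : ℂ × (Fin j → ℂ))) c :=
      differentiableAt_id.prodMk (differentiableAt_const _)
    exact (DifferentiableAt.comp (f := fun z : ℂ => ((z, cv t) : ℂ × (Fin j → ℂ))) c
      h2 h3).differentiableWithinAt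

theorem snHH_inv (x w x' w' : ℂ) (hx : x ≠ 0) (hx' : x' ≠ 0) : HH x⁻¹ w x'⁻¹ w' = HH x w x' w' := by
  unfold HH
  rcases eq_or_ne (1 - w * w') 0 with h | h
  · rw [h]
    simp
  · field_simp
    ring

theorem snKer_neg {j : ℕ} (c : ℂ) (t : Fin j → ℝ) : ker W c (cv (-t)) = ker W c (cv t) := by
  have h1 : ∀ i, cv (-t) i = -(cv t i) := by
    intro i
    simp [cv]
  unfold ker pairs
  simp only [h1, Complex.cos_neg]
  congr 1
  refine Finset.prod_congr rfl fun i _ => Finset.prod_congr rfl fun k _ => ?_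
  rw [mul_neg, mul_neg, Complex.exp_neg, Complex.exp_neg]
  exact snHH_inv _ _ _ _ (Complex.exp_ne_zero _) (Complex.exp_ne_zero _)

theorem snProdw_neg {j : ℕ} (c : ℂ) (t : Fin j → ℝ) : prodw W c (cv (-t)) = prodw W c (cv t) := by
  have h1 : ∀ i, cv (-t) i = -(cv t i) := by
    intro i
    simp [cv]
  unfold prodw
  simp only [h1, Complex.cos_neg]

theorem FF_neg (j : ℕ) (M : ℤ) (N : ℕ) (c : ℂ) : FF j (-M) N c = FF j M N c := by
  unfold FF
  congr 1
  have hmp := Measure.measurePreserving_neg (volume : Measure (Fin j → ℝ))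
  have hbox : (fun t : Fin j → ℝ => -t) ⁻¹' (box j) = box j := by
    ext t
    simp only [box, mem_preimage, mem_Icc, Pi.le_def, Pi.neg_apply]
    constructor
    · rintro ⟨h1, h2⟩
      exact ⟨fun i => by linarith [h2 i], fun i => by linarith [h1 i]⟩
    · rintro ⟨h1, h2⟩
      exact ⟨fun i => by linarith [h2 i], fun i => by linarith [h1 i]⟩
  have h2 := hmp.setIntegral_preimage_emb (MeasurableEquiv.neg (Fin j → ℝ)).measurableEmbedding
    (fun t : Fin j → ℝ => ker W c (cv t) * Complex.exp (I * M * ∑ i, (t i : ℂ)) *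
      prodw W c (cv t) ^ N) (box j)
  have hbox' : (Neg.neg : (Fin j → ℝ) → (Fin j → ℝ)) ⁻¹' (box j) = box j := hbox
  rw [← h2]
  rw [hbox']
  refine setIntegral_congr_fun measurableSet_Icc fun t _ => ?_
  simp only [snKer_neg, snProdw_neg]
  congr 2
  simp only [Pi.neg_apply, Complex.ofReal_neg, Finset.sum_neg_distrib, Int.cast_neg]
  congr 1
  ring

end

end IsingNB
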