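import Pool.Agent.Helper98.NB.Defs
import Pool.Agent.Helper98.NB.OmBasic
import Pool.Agent.Helper98.NB.WBasic
import Pool.Agent.Helper98.NB.Deform
import Pool.Agent.Helper98.NB.SwapNeg

/-!
# NB-12b: symmetry of the form factors under exchange of the lattice directions

Chart of the middle cycle: `swx c z = (1 + e^{iz}) / (c + S)`, `sww c z = (1 + e^{-iz}) / (c + S)`,
`S = swS c z = sqrt (c^2 - (2 + 2 cos z))`. The term `FF j M N c` is the integral of `swF j M N c`
over real `z`, and `swF j M N c (-z) = swF j N M c z`.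
-/

namespace IsingNB

open Complex Set MeasureTheory Filter Topology
open scoped Real

noncomputable section

/-- `e^{-iz}` -/
def swE (z : ℂ) : ℂ := Complex.exp (-(I * z))

/-- the square root of `c^2 - (2 + 2 cos z)` -/
def swS (c z : ℂ) : ℂ := c * (1 - (2 + 2 * Complex.cos z) / c ^ 2) ^ (1 / 2 : ℂ)

/-- the coordinate `x` -/
def swx (c z : ℂ) : ℂ := (1 + Complex.exp (I * z)) / (c + swS c z)

/-- the coordinate `w` -/
def sww (c z : ℂ) : ℂ := (1 + swE z) / (c + swS c z)

/-- the pair factor -/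
def swH (c z z' : ℂ) : ℂ :=
  -((swx c z - swx c z') ^ 2 * (swE z * swE z')) / (1 - sww c z * sww c z') ^ 2

/-- the integrand -/
def swF (j M N : ℕ) (c : ℂ) (z : Fin j → ℂ) : ℂ :=
  ((∏ i, 1 / swS c (z i)) * ∏ i, ∏ k ∈ Finset.Ioi i, swH c (z i) (z k)) *
    ((∏ i, swx c (z i)) ^ M * (∏ i, sww c (z i)) ^ N)

/-- the domain of one angle -/
def swD (c : ℂ) : Set ℂ := {z | ‖2 + 2 * Complex.cos z‖ < ‖c‖ ^ 2 ∧ ‖swE z‖ < 2}

theorem swD_open (c : ℂ) : IsOpen (swD c) := by
  refine IsOpen.inter ?_ ?_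
  · exact isOpen_lt (f := fun z : ℂ => ‖2 + 2 * Complex.cos z‖) (g := fun _ => ‖c‖ ^ 2)
      (by fun_prop) continuous_const
  · exact isOpen_lt (f := fun z : ℂ => ‖swE z‖) (g := fun _ => (2 : ℝ))
      (by unfold swE; fun_prop) continuous_const

theorem swS_sq {c : ℂ} (hc : c ≠ 0) (z : ℂ) : swS c z ^ 2 = c ^ 2 - (2 + 2 * Complex.cos z) := by
  unfold swS
  rw [mul_pow]
  have : ((1 - (2 + 2 * Complex.cos z) / c ^ 2) ^ (1 / 2 : ℂ)) ^ 2 =
      1 - (2 + 2 * Complex.cos z) / c ^ 2 := by
    rw [one_div]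
    exact Complex.cpow_nat_inv_pow _ two_ne_zero
  rw [this]
  field_simp

theorem sw_re_sqrt {a : ℂ} (ha : ‖a‖ < 1) : 0 < ((1 - a) ^ (1 / 2 : ℂ)).re := by
  have h1 : 0 < (1 - a).re := by
    have := Complex.abs_re_le_norm a
    have := le_abs_self a.re
    simp only [Complex.sub_re, Complex.one_re]
    linarith
  have hne : 1 - a ≠ 0 := by
    intro h
    rw [h] at h1
    simp at h1
  rw [Complex.cpow_def_of_ne_zero hne, Complex.exp_re]
  refine mul_pos (Real.exp_pos _) ?_
  have h2 : (Complex.log (1 - a) * (1 / 2)).im = (1 - a).arg / 2 := by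
    rw [show (1 / 2 : ℂ) = ((1 / 2 : ℝ) : ℂ) by push_cast; ring, mul_comm,
      Complex.im_ofReal_mul, Complex.log_im]
    ring
  rw [h2]
  have h3 : |(1 - a).arg| < π / 2 := Complex.abs_arg_lt_pi_div_two_iff.mpr (Or.inl h1)
  have h4 := abs_lt.mp h3
  refine Real.cos_pos_of_mem_Ioo ⟨?_, ?_⟩ <;> linarith [Real.pi_pos]

theorem sw_ratio {c z : ℂ} (hc : 9 ≤ ‖c‖) (hz : z ∈ swD c) :
    ‖(2 + 2 * Complex.cos z) / c ^ 2‖ < 1 := by
  have : (0 : ℝ) < ‖c‖ ^ 2 := by positivity
  rw [norm_div, norm_pow, div_lt_one this]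
  exact hz.1

theorem sw_cadd {c z : ℂ} (hc : 9 ≤ ‖c‖) (hz : z ∈ swD c) : ‖c‖ ≤ ‖c + swS c z‖ := by
  have h1 := sw_re_sqrt (sw_ratio hc hz)
  unfold swS
  set q := (1 - (2 + 2 * Complex.cos z) / c ^ 2) ^ (1 / 2 : ℂ) with hq
  have h2 : c + c * q = c * (1 + q) := by ring
  rw [h2, norm_mul]
  have h3 : 1 ≤ ‖1 + q‖ := by
    refine le_trans ?_ (Complex.re_le_norm _)
    simp only [Complex.add_re, Complex.one_re]
    linarith
  nlinarith [norm_nonneg c]

theorem sw_cadd_ne {c z : ℂ} (hc : 9 ≤ ‖c‖) (hz : z ∈ swD c) : c + swS c z ≠ 0 := by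
  intro h
  have := sw_cadd hc hz
  rw [h, norm_zero] at this
  linarith

theorem swS_ne {c z : ℂ} (hc : 9 ≤ ‖c‖) (hz : z ∈ swD c) : swS c z ≠ 0 := by
  have h1 := sw_re_sqrt (sw_ratio hc hz)
  have hc0 : c ≠ 0 := by
    intro h
    rw [h, norm_zero] at hc
    linarith
  unfold swS
  refine mul_ne_zero hc0 fun h => ?_
  rw [h] at h1
  simp at h1

theorem sww_norm {c z : ℂ} (hc : 9 ≤ ‖c‖) (hz : z ∈ swD c) : ‖sww c z‖ < 1 := by
  have h1 := sw_cadd hc hz
  unfold sww
  rw [norm_div, div_lt_one (by linarith)]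
  refine (norm_add_le _ _).trans_lt ?_
  rw [norm_one]
  have := hz.2
  linarith

theorem sw_one_sub_ne {c z z' : ℂ} (hc : 9 ≤ ‖c‖) (hz : z ∈ swD c) (hz' : z' ∈ swD c) :
    1 - sww c z * sww c z' ≠ 0 := by
  intro h
  have h1 : sww c z * sww c z' = 1 := (sub_eq_zero.mp h).symm
  have h2 : ‖sww c z * sww c z'‖ < 1 := by
    rw [norm_mul]
    have := sww_norm hc hz
    have := sww_norm hc hz'
    nlinarith [norm_nonneg (sww c z), norm_nonneg (sww c z')]
  rw [h1, norm_one] at h2
  exact lt_irrefl _ h2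

/-! ### analyticity -/

theorem swE_analytic (z : ℂ) : AnalyticAt ℂ swE z := by
  have : Differentiable ℂ swE := by
    unfold swE
    fun_prop
  exact this.analyticAt z

theorem swS_analytic {c z : ℂ} (hc : 9 ≤ ‖c‖) (hz : z ∈ swD c) : AnalyticAt ℂ (swS c) z := by
  have hd : DifferentiableOn ℂ (swS c) (swD c) := by
    intro y hy
    refine DifferentiableAt.differentiableWithinAt ?_
    unfold swS
    have h1 : (1 - (2 + 2 * Complex.cos y) / c ^ 2) ∈ slitPlane := by
      left
      have h2 := sw_ratio hc hy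
      have := Complex.abs_re_le_norm ((2 + 2 * Complex.cos y) / c ^ 2)
      have := le_abs_self ((2 + 2 * Complex.cos y) / c ^ 2).re
      simp only [Complex.sub_re, Complex.one_re]
      linarith
    refine DifferentiableAt.const_mul ?_ c
    refine DifferentiableAt.cpow_const ?_ h1
    fun_prop
  exact hd.analyticAt ((swD_open c).mem_nhds hz)

theorem swx_analytic {c z : ℂ} (hc : 9 ≤ ‖c‖) (hz : z ∈ swD c) : AnalyticAt ℂ (swx c) z := by
  have h1 : AnalyticAt ℂ (fun z : ℂ => 1 + Complex.exp (I * z)) z := by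
    have : Differentiable ℂ (fun z : ℂ => 1 + Complex.exp (I * z)) := by fun_prop
    exact this.analyticAt z
  exact h1.div (analyticAt_const.add (swS_analytic hc hz)) (sw_cadd_ne hc hz)

theorem sww_analytic {c z : ℂ} (hc : 9 ≤ ‖c‖) (hz : z ∈ swD c) : AnalyticAt ℂ (sww c) z :=
  (analyticAt_const.add (swE_analytic z)).div (analyticAt_const.add (swS_analytic hc hz))
    (sw_cadd_ne hc hz)

/-- a function of one coordinate -/
theorem sw_coord {j : ℕ} {f : ℂ → ℂ} {z : Fin j → ℂ} (i : Fin j) (hf : AnalyticAt ℂ f (z i)) :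
    AnalyticAt ℂ (fun y : Fin j → ℂ => f (y i)) z := by
  have h1 : AnalyticAt ℂ (fun y : Fin j → ℂ => y i) z :=
    (ContinuousLinearMap.proj (R := ℂ) (φ := fun _ : Fin j => ℂ) i).analyticAt z
  exact AnalyticAt.comp (g := f) (f := fun y : Fin j → ℂ => y i) hf h1

theorem swF_analytic (j M N : ℕ) {c : ℂ} (hc : 9 ≤ ‖c‖) :
    AnalyticOnNhd ℂ (swF j M N c) {z | ∀ i, z i ∈ swD c} := by
  intro z hz
  have hz' : ∀ i, z i ∈ swD c := hz
  unfold swF
  refine AnalyticAt.mul (AnalyticAt.mul ?_ ?_) (AnalyticAt.mul (AnalyticAt.pow ?_ M)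
    (AnalyticAt.pow ?_ N))
  · refine Finset.analyticAt_fun_prod _ fun i _ => ?_
    exact analyticAt_const.div (sw_coord i (swS_analytic hc (hz' i))) (swS_ne hc (hz' i))
  · refine Finset.analyticAt_fun_prod _ fun i _ => ?_
    refine Finset.analyticAt_fun_prod _ fun k _ => ?_
    unfold swH
    refine AnalyticAt.div (AnalyticAt.neg (AnalyticAt.mul (AnalyticAt.pow (AnalyticAt.sub
      (sw_coord i (swx_analytic hc (hz' i))) (sw_coord k (swx_analytic hc (hz' k)))) 2)
      (AnalyticAt.mul (sw_coord i (swE_analytic _)) (sw_coord k (swE_analytic _)))))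
      (AnalyticAt.pow (analyticAt_const.sub (AnalyticAt.mul
      (sw_coord i (sww_analytic hc (hz' i))) (sw_coord k (sww_analytic hc (hz' k))))) 2) ?_
    exact pow_ne_zero 2 (sw_one_sub_ne hc (hz' i) (hz' k))
  · refine Finset.analyticAt_fun_prod _ fun i _ => ?_
    exact sw_coord i (swx_analytic hc (hz' i))
  · refine Finset.analyticAt_fun_prod _ fun i _ => ?_
    exact sw_coord i (sww_analytic hc (hz' i))

/-! ### periodicity -/

theorem swE_per (z : ℂ) : swE (z + 2 * π) = swE z := by
  unfold swE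
  rw [show -(I * (z + 2 * π)) = -(I * z) - 2 * π * I by ring]
  exact Complex.exp_periodic.sub_eq _

theorem sw_exp_per (z : ℂ) : Complex.exp (I * (z + 2 * π)) = Complex.exp (I * z) := by
  rw [show I * (z + 2 * π) = I * z + 2 * π * I by ring]
  exact Complex.exp_periodic _

theorem swS_per (c z : ℂ) : swS c (z + 2 * π) = swS c z := by
  unfold swS
  rw [Complex.cos_add_two_pi]

theorem swx_per (c z : ℂ) : swx c (z + 2 * π) = swx c z := by
  unfold swx
  rw [swS_per, sw_exp_per]

theorem sww_per (c z : ℂ) : sww c (z + 2 * π) = sww c z := by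
  unfold sww
  rw [swS_per, swE_per]

theorem sw_single {j : ℕ} {f : ℂ → ℂ} (hf : ∀ z, f (z + 2 * π) = f z) (z : Fin j → ℂ)
    (i k : Fin j) : f ((z + Pi.single i (2 * π : ℂ) : Fin j → ℂ) k) = f (z k) := by
  rw [Pi.add_apply, Pi.single_apply]
  split_ifs with h
  · exact hf _
  · rw [add_zero]

theorem swF_per (j M N : ℕ) (c : ℂ) (z : Fin j → ℂ) (i : Fin j) :
    swF j M N c (z + Pi.single i (2 * π : ℂ)) = swF j M N c z := by
  unfold swF swH
  simp only [sw_single (swS_per c), sw_single (swx_per c), sw_single (sww_per c),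
    sw_single swE_per]

/-! ### reflection -/

theorem swS_neg (c z : ℂ) : swS c (-z) = swS c z := by
  unfold swS
  rw [Complex.cos_neg]

theorem swx_neg (c z : ℂ) : swx c (-z) = sww c z := by
  unfold swx sww swE
  rw [swS_neg, mul_neg]

theorem sww_neg (c z : ℂ) : sww c (-z) = swx c z := by
  unfold swx sww swE
  rw [swS_neg, mul_neg, neg_neg]

theorem swE_mul (z : ℂ) : Complex.exp (I * z) * swE z = 1 := by
  unfold swE
  rw [← Complex.exp_add, add_neg_cancel, Complex.exp_zero]

theorem sw_quad {c z : ℂ} (hc0 : c ≠ 0) :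
    (1 + Complex.exp (I * z)) ^ 2 = Complex.exp (I * z) * ((c + swS c z) * (c - swS c z)) := by
  have h1 := swS_sq hc0 z
  have h2 : 2 * Complex.cos z = Complex.exp (I * z) + swE z := by
    rw [Complex.two_cos]
    unfold swE
    congr 2 <;> ring
  have h3 := swE_mul z
  rw [h2] at h1
  have h4 : (c + swS c z) * (c - swS c z) = 2 + (Complex.exp (I * z) + swE z) := by
    linear_combination -h1
  rw [h4]
  linear_combination -h3

theorem sw_rel {c z z' : ℂ} (hc : 9 ≤ ‖c‖) (hz : z ∈ swD c) (hz' : z' ∈ swD c) :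
    (swx c z - swx c z') * (1 - swx c z * swx c z') * (swE z * swE z') =
      -((sww c z - sww c z') * (1 - sww c z * sww c z')) := by
  have hc0 : c ≠ 0 := by
    intro h
    rw [h, norm_zero] at hc
    linarith
  have hD := sw_cadd_ne hc hz
  have hD' := sw_cadd_ne hc hz'
  have q := sw_quad (z := z) hc0
  have q' := sw_quad (z := z') hc0
  have e := swE_mul z
  have e' := swE_mul z'
  set E := Complex.exp (I * z) with hE
  set E' := Complex.exp (I * z') with hE'
  have hE0 : E ≠ 0 := Complex.exp_ne_zero _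
  have hE0' : E' ≠ 0 := Complex.exp_ne_zero _
  have f1 : swE z = E⁻¹ := eq_inv_of_mul_eq_one_right e
  have f2 : swE z' = E'⁻¹ := eq_inv_of_mul_eq_one_right e'
  have x1 : swx c z = (1 + E) / (c + swS c z) := rfl
  have x2 : swx c z' = (1 + E') / (c + swS c z') := rfl
  have w1 : sww c z = swx c z * E⁻¹ := by
    rw [x1]
    unfold sww
    rw [f1]
    field_simp
    ring
  have w2 : sww c z' = swx c z' * E'⁻¹ := by
    rw [x2]
    unfold sww
    rw [f2]
    field_simp
    ring
  rw [w1, w2, f1, f2]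
  have g1 : (1 + E) = swx c z * (c + swS c z) := by rw [x1]; field_simp
  have g2 : (1 + E') = swx c z' * (c + swS c z') := by rw [x2]; field_simp
  have k1 : swx c z ^ 2 * (c + swS c z) = E * (c - swS c z) := by
    rw [g1] at q
    have : (c + swS c z) * (swx c z ^ 2 * (c + swS c z)) =
        (c + swS c z) * (E * (c - swS c z)) := by linear_combination q
    exact mul_left_cancel₀ hD this
  have k2 : swx c z' ^ 2 * (c + swS c z') = E' * (c - swS c z') := by
    rw [g2] at q'
    have : (c + swS c z') * (swx c z' ^ 2 * (c + swS c z')) =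
        (c + swS c z') * (E' * (c - swS c z')) := by linear_combination q'
    exact mul_left_cancel₀ hD' this
  set x := swx c z
  set x' := swx c z'
  set D := c + swS c z with hDd
  set D' := c + swS c z' with hDd'
  field_simp
  have h5 : c - swS c z = 2 * c - D := by rw [hDd]; ring
  have h6 : c - swS c z' = 2 * c - D' := by rw [hDd']; ring
  rw [h5] at k1
  rw [h6] at k2
  have h7 : E = x * D - 1 := by linear_combination g1
  have h8 : E' = x' * D' - 1 := by linear_combination g2
  linear_combination (E * E' * x) * g2 - (E * E' * x') * g1 - x ^ 2 * x' * E' * g1 +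
    x * x' ^ 2 * E * g2 - x * x' * E' * k1 + x * x' * E * k2

theorem swH_neg {c z z' : ℂ} (hc : 9 ≤ ‖c‖) (hz : z ∈ swD c) (hz' : z' ∈ swD c)
    (hn : -z ∈ swD c) (hn' : -z' ∈ swD c) : swH c (-z) (-z') = swH c z z' := by
  have h1 := sw_one_sub_ne hc hz hz'
  have h2 := sw_one_sub_ne hc hn hn'
  have hr := sw_rel hc hz hz'
  have e := swE_mul z
  have e' := swE_mul z'
  have n1 : swE (-z) * swE z = 1 := by
    unfold swE
    rw [← Complex.exp_add]
    simp
  have n2 : swE (-z') * swE z' = 1 := by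
    unfold swE
    rw [← Complex.exp_add]
    simp
  unfold swH
  rw [sww_neg, sww_neg, swx_neg, swx_neg] at *
  rw [div_eq_div_iff (pow_ne_zero 2 h2) (pow_ne_zero 2 h1)]
  set x := swx c z
  set x' := swx c z'
  set w := sww c z
  set w' := sww c z'
  set P := swE z * swE z' with hP
  have n3 : (swE (-z) * swE (-z')) * P = 1 := by
    rw [hP]
    linear_combination (swE (-z') * swE z') * n1 + n2
  have hP0 : P ≠ 0 := right_ne_zero_of_mul_eq_one n3
  have n4 : swE (-z) * swE (-z') = P⁻¹ := eq_inv_of_mul_eq_one_left n3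
  rw [n4]
  have hr2 : ((x - x') * (1 - x * x') * P) ^ 2 = ((w - w') * (1 - w * w')) ^ 2 := by
    rw [hr]; ring
  field_simp
  linear_combination hr2

theorem swF_neg (j M N : ℕ) {c : ℂ} (hc : 9 ≤ ‖c‖) {z : Fin j → ℂ} (hz : ∀ i, z i ∈ swD c)
    (hn : ∀ i, -z i ∈ swD c) : swF j M N c (-z) = swF j N M c z := by
  unfold swF
  simp only [Pi.neg_apply, swS_neg, swx_neg, sww_neg]
  have : ∀ i k, swH c (-z i) (-z k) = swH c (z i) (z k) := fun i k =>
    swH_neg hc (hz i) (hz k) (hn i) (hn k)
  simp only [this]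
  ring

/-! ### the contour -/

/-- the shift of the contour -/
def swg (c : ℂ) (x : ℝ) : ℂ := I * Complex.log (W (c - Complex.cos x))

/-- its derivative -/
def swg' (c : ℂ) (x : ℝ) : ℂ := -(I * Complex.sin x / Rt (c - Complex.cos x))

theorem sw_im {c : ℂ} (hi : 1 ≤ c.im) (x : ℝ) : 0 < (c - Complex.cos x).im := by
  rw [Complex.sub_im, ← Complex.ofReal_cos, Complex.ofReal_im]
  linarith

theorem sw_mem_ZZ {u : ℂ} (hu : 0 < u.im) (hr : -1 < u.re) : u ∈ ZZ := ⟨hr, Or.inl hu⟩

theorem Rt_eq_inv (z : ℂ) : Rt z = ((om z)⁻¹ - om z) / 2 := by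
  have h1 := om_add_inv z
  have h2 : om z = z - Rt z := rfl
  linear_combination h2 - (1 / 2 : ℂ) * h1

theorem sw_norm_W {u : ℂ} (hu : 0 < u.im) : ‖W u‖ < 1 := by
  rw [W_eq_om hu]
  exact norm_om_lt_one_of_im hu

theorem sw_W_im {u : ℂ} (hu : 0 < u.im) : (W u).im < 0 := by
  have h1 := W_add_inv u
  have h0 := W_ne_zero u
  have hn := sw_norm_W hu
  have h2 : ((W u).im : ℝ) * (1 - (Complex.normSq (W u))⁻¹) = 2 * u.im := by
    have := congrArg Complex.im h1
    rw [Complex.add_im, Complex.inv_im] at this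
    have h3 : (2 * u).im = 2 * u.im := by simp
    rw [h3] at this
    rw [← this]
    ring
  have h4 : 0 < Complex.normSq (W u) := Complex.normSq_pos.mpr h0
  have h5 : Complex.normSq (W u) < 1 := by
    rw [Complex.normSq_eq_norm_sq]
    nlinarith [norm_nonneg (W u)]
  have h6 : 1 < (Complex.normSq (W u))⁻¹ := (one_lt_inv₀ h4).mpr h5
  by_contra hcon
  rw [not_lt] at hcon
  nlinarith [mul_nonneg hcon (sub_nonneg.mpr h6.le)]

theorem sw_re {c : ℂ} (hr : 1 ≤ c.re) (x : ℝ) : -1 < (c - Complex.cos x).re := by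
  rw [Complex.sub_re, ← Complex.ofReal_cos, Complex.ofReal_re]
  linarith [Real.cos_le_one x]

theorem swg_hasDerivAt {c : ℂ} (hi : 1 ≤ c.im) (hr : 1 ≤ c.re) (x : ℝ) :
    HasDerivAt (swg c) (swg' c x) x := by
  have hx := sw_re hr x
  have hu := sw_im hi x
  have hZ := sw_mem_ZZ hu hx
  have h1 : HasDerivAt W (-(om (c - Complex.cos x)) / Rt (c - Complex.cos x))
      (c - Complex.cos x) := by
    refine (om_hasDerivAt hZ).congr_of_eventuallyEq ?_
    have : ∀ᶠ z : ℂ in 𝓝 (c - Complex.cos x), 0 < z.im :=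
      Complex.continuous_im.continuousAt.eventually (lt_mem_nhds hu)
    filter_upwards [this] with z hz using W_eq_om hz
  have h2 : HasDerivAt (fun y : ℝ => c - Complex.cos y) (Complex.sin x) x := by
    have h3 : HasDerivAt (fun y : ℝ => Complex.cos y) (-Complex.sin x) x := by
      have := (Complex.hasDerivAt_cos (x : ℂ)).comp_ofReal
      exact this
    have := h3.const_sub c
    rwa [neg_neg] at this
  have hs : W (c - Complex.cos x) ∈ slitPlane := Or.inr (sw_W_im hu).ne
  have h4 := ((Complex.hasDerivAt_log hs).comp (c - Complex.cos x) h1).comp_of_eq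
    (h₂ := fun z => Complex.log (W z)) x h2 rfl
  have h5 := h4.const_mul I
  refine h5.congr_deriv ?_
  unfold swg'
  rw [W_eq_om hu]
  have h6 := om_ne_zero (c - Complex.cos x)
  have h7 := Rt_ne_zero hZ
  field_simp

theorem swg_per (c : ℂ) (x : ℝ) : swg c (x + 2 * π) = swg c x := by
  unfold swg
  push_cast
  rw [Complex.cos_add_two_pi]

theorem swg'_cont {c : ℂ} (hi : 1 ≤ c.im) (hr : 1 ≤ c.re) : Continuous (swg' c) := by
  have h1 : Continuous fun x : ℝ => c - Complex.cos x := by fun_prop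
  have h2 : Continuous fun x : ℝ => Rt (c - Complex.cos x) := by
    refine continuous_iff_continuousAt.mpr fun x => ?_
    have hZ := sw_mem_ZZ (sw_im hi x) (sw_re hr x)
    exact ContinuousAt.comp (g := Rt) (f := fun x : ℝ => c - Complex.cos x)
      (Rt_hasDerivAt hZ).continuousAt h1.continuousAt
  unfold swg'
  refine Continuous.neg (Continuous.div (by fun_prop) h2 fun x => ?_)
  exact Rt_ne_zero (sw_mem_ZZ (sw_im hi x) (sw_re hr x))

theorem sw_path {c : ℂ} (hc : 9 ≤ ‖c‖) (hi : 1 ≤ c.im) (x : ℝ) {s : ℝ} (hs : s ∈ Icc (0 : ℝ) 1) :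
    (x : ℂ) + s * swg c x ∈ swD c := by
  have hu := sw_im hi x
  set u := c - Complex.cos x with hud
  have h0 := W_ne_zero u
  have hn := sw_norm_W hu
  have hpos : 0 < ‖W u‖ := norm_pos_iff.mpr h0
  have hL : (Complex.log (W u)).re = Real.log ‖W u‖ := Complex.log_re _
  have hLneg : Real.log ‖W u‖ < 0 := Real.log_neg hpos hn
  have e1 : ‖swE ((x : ℂ) + s * swg c x)‖ = Real.exp (s * Real.log ‖W u‖) := by
    unfold swE swg
    rw [Complex.norm_exp]
    congr 1
    have : -(I * ((x : ℂ) + s * (I * Complex.log (W (c - Complex.cos x))))) =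
        -(x : ℂ) * I + (s : ℂ) * Complex.log (W (c - Complex.cos x)) := by
      linear_combination -((s : ℂ) * Complex.log (W (c - Complex.cos x))) * Complex.I_sq
    rw [this, ← hud, Complex.add_re, Complex.re_ofReal_mul, hL]
    simp
  have e2 : ‖Complex.exp (I * ((x : ℂ) + s * swg c x))‖ = Real.exp (-(s * Real.log ‖W u‖)) := by
    unfold swg
    rw [Complex.norm_exp]
    congr 1
    have : I * ((x : ℂ) + s * (I * Complex.log (W (c - Complex.cos x)))) =
        (x : ℂ) * I + -((s : ℂ) * Complex.log (W (c - Complex.cos x))) := by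
      linear_combination ((s : ℂ) * Complex.log (W (c - Complex.cos x))) * Complex.I_sq
    rw [this, ← hud, Complex.add_re, Complex.neg_re, Complex.re_ofReal_mul x I,
      Complex.re_ofReal_mul s, hL]
    simp
  have b1 : ‖swE ((x : ℂ) + s * swg c x)‖ ≤ 1 := by
    rw [e1, Real.exp_le_one_iff]
    exact mul_nonpos_of_nonneg_of_nonpos hs.1 hLneg.le
  have b2 : ‖Complex.exp (I * ((x : ℂ) + s * swg c x))‖ ≤ ‖W u‖⁻¹ := by
    rw [e2]
    calc Real.exp (-(s * Real.log ‖W u‖)) ≤ Real.exp (-Real.log ‖W u‖) := by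
          refine Real.exp_le_exp.mpr ?_
          nlinarith [hs.2]
      _ = ‖W u‖⁻¹ := by rw [Real.exp_neg, Real.exp_log hpos]
  have b3 : ‖W u‖⁻¹ ≤ 2 * ‖c‖ + 3 := by
    rw [← norm_inv]
    have h1 : (W u)⁻¹ = 2 * u - W u := by
      have := W_add_inv u
      linear_combination this
    rw [h1]
    have h2 : ‖u‖ ≤ ‖c‖ + 1 := by
      rw [hud]
      refine (norm_sub_le _ _).trans ?_
      rw [← Complex.ofReal_cos, Complex.norm_real, Real.norm_eq_abs]
      linarith [Real.abs_cos_le_one x]
    calc ‖2 * u - W u‖ ≤ ‖2 * u‖ + ‖W u‖ := norm_sub_le _ _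
      _ = 2 * ‖u‖ + ‖W u‖ := by rw [norm_mul]; norm_num
      _ ≤ 2 * ‖c‖ + 3 := by linarith
  refine ⟨?_, by linarith⟩
  have h2 : 2 * Complex.cos ((x : ℂ) + s * swg c x) =
      Complex.exp (I * ((x : ℂ) + s * swg c x)) + swE ((x : ℂ) + s * swg c x) := by
    rw [Complex.two_cos]
    unfold swE
    congr 2 <;> ring
  rw [h2]
  calc ‖2 + (Complex.exp (I * ((x : ℂ) + s * swg c x)) + swE ((x : ℂ) + s * swg c x))‖
      ≤ ‖(2 : ℂ)‖ + (‖Complex.exp (I * ((x : ℂ) + s * swg c x))‖ +
        ‖swE ((x : ℂ) + s * swg c x)‖) :=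
        (norm_add_le _ _).trans (add_le_add_right (norm_add_le _ _) _)
    _ ≤ 2 + ((2 * ‖c‖ + 3) + 1) := by
        have : ‖(2 : ℂ)‖ = 2 := by norm_num
        rw [this]
        linarith
    _ < ‖c‖ ^ 2 := by nlinarith

/-- the values at the end of the path -/
theorem sw_end {c : ℂ} (hc : 9 ≤ ‖c‖) (hi : 1 ≤ c.im) (hr : 1 ≤ c.re) (x : ℝ) :
    swE ((x : ℂ) + swg c x) = W (c - Complex.cos x) / Complex.exp (I * x) ∧
    swx c ((x : ℂ) + swg c x) = Complex.exp (I * x) ∧
    sww c ((x : ℂ) + swg c x) = W (c - Complex.cos x) ∧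
    1 / swS c ((x : ℂ) + swg c x) * (1 + swg' c x) =
      2 * W (c - Complex.cos x) / (1 - W (c - Complex.cos x) ^ 2) := by
  have hc0 : c ≠ 0 := by
    intro h
    rw [h, norm_zero] at hc
    linarith
  have hu := sw_im hi x
  have hZ := sw_mem_ZZ hu (sw_re hr x)
  have hD : (x : ℂ) + swg c x ∈ swD c := by
    have := sw_path hc hi x (s := 1) ⟨zero_le_one, le_rfl⟩
    simpa using this
  have hcS := sw_cadd_ne hc hD
  have hSne := swS_ne hc hD
  set z := (x : ℂ) + swg c x with hz
  set u := c - Complex.cos x with hud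
  have h0 := W_ne_zero u
  have hn := sw_norm_W hu
  have hRt : Rt u = ((W u)⁻¹ - W u) / 2 := by rw [W_eq_om hu]; exact Rt_eq_inv u
  have hRne := Rt_ne_zero hZ
  have hinv := W_add_inv u
  set w := W u with hw
  set X := Complex.exp (I * x) with hX
  have hX0 : X ≠ 0 := Complex.exp_ne_zero _
  have hXn : ‖X‖ = 1 := by
    rw [hX, mul_comm]
    exact Complex.norm_exp_ofReal_mul_I x
  have hsin : I * Complex.sin x = (X - X⁻¹) / 2 := by
    rw [Complex.sin, hX, ← Complex.exp_neg]
    rw [show -(I * (x : ℂ)) = -(x : ℂ) * I by ring, show I * (x : ℂ) = (x : ℂ) * I by ring]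
    linear_combination ((Complex.exp (-(x : ℂ) * I) - Complex.exp ((x : ℂ) * I)) / 2) * Complex.I_sq
  have hcos : Complex.cos x = (X + X⁻¹) / 2 := by
    rw [Complex.cos, hX, ← Complex.exp_neg]
    rw [show -(I * (x : ℂ)) = -(x : ℂ) * I by ring, show I * (x : ℂ) = (x : ℂ) * I by ring]
  have hexpz : Complex.exp (I * z) = X / w := by
    rw [hz]
    unfold swg
    rw [← hud, ← hw]
    have : I * ((x : ℂ) + I * Complex.log w) = I * x - Complex.log w := by
      linear_combination (Complex.log w) * Complex.I_sq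
    rw [this, Complex.exp_sub, Complex.exp_log h0]
  have hEz : swE z = w / X := by
    have := swE_mul z
    rw [hexpz] at this
    have h1 : swE z = (X / w)⁻¹ := eq_inv_of_mul_eq_one_right this
    rw [h1, inv_div]
  have hcu : c = (X + X⁻¹) / 2 + (w + w⁻¹) / 2 := by
    have : c = u + Complex.cos x := by rw [hud]; ring
    rw [this, hcos, hinv]
    ring
  -- the square root
  set S0 := Rt u - I * Complex.sin x with hS0
  have hS0a : c + S0 = w⁻¹ + X⁻¹ := by
    rw [hS0, hRt, hsin, hcu]
    ring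
  have hS0b : c - S0 = X + w := by
    rw [hS0, hRt, hsin, hcu]
    ring
  have hsq : S0 ^ 2 = swS c z ^ 2 := by
    rw [swS_sq hc0]
    have h2 : 2 * Complex.cos z = Complex.exp (I * z) + swE z := by
      rw [Complex.two_cos]
      unfold swE
      congr 2 <;> ring
    rw [h2, hexpz, hEz]
    have h3 : c ^ 2 - S0 ^ 2 = (w⁻¹ + X⁻¹) * (X + w) := by
      rw [← hS0a, ← hS0b]; ring
    have h4 : (w⁻¹ + X⁻¹) * (X + w) = 2 + (X / w + w / X) := by
      field_simp
      ring
    rw [h4] at h3
    linear_combination -h3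
  have hS : swS c z = S0 := by
    rcases sq_eq_sq_iff_eq_or_eq_neg.mp hsq with h | h
    · exact h.symm
    · exfalso
      -- real parts of the quotients by c
      have h1 := sw_re_sqrt (sw_ratio hc hD)
      have h2 : swS c z / c = (1 - (2 + 2 * Complex.cos z) / c ^ 2) ^ (1 / 2 : ℂ) := by
        unfold swS
        field_simp
      rw [← h2] at h1
      have h3 : S0 / c = 1 - (X + w) / c := by
        rw [← hS0b]
        field_simp
        ring
      have h4 : 0 < (S0 / c).re := by
        rw [h3]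
        have h5 : ‖(X + w) / c‖ < 1 := by
          rw [norm_div, div_lt_one (by linarith)]
          refine (norm_add_le _ _).trans_lt ?_
          rw [hXn]
          linarith
        have h6 := Complex.abs_re_le_norm ((X + w) / c)
        have h7 := le_abs_self ((X + w) / c).re
        simp only [Complex.sub_re, Complex.one_re]
        linarith
      have h8 : S0 / c = -(swS c z / c) := by rw [h]; ring
      rw [h8, Complex.neg_re] at h4
      linarith
  have hsum : w⁻¹ + X⁻¹ ≠ 0 := by
    rw [← hS0a, ← hS]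
    exact hcS
  refine ⟨hEz, ?_, ?_, ?_⟩
  · unfold swx
    rw [hexpz, hS, hS0a, div_eq_iff hsum]
    field_simp
    ring
  · unfold sww
    rw [hEz, hS, hS0a, div_eq_iff hsum]
    field_simp
  · have h1 : 1 + swg' c x = S0 / Rt u := by
      unfold swg'
      rw [← hud, hS0]
      field_simp
      ring
    rw [h1, hS]
    have h2 : S0 ≠ 0 := by rw [← hS]; exact hSne
    have h3 : 1 - w ^ 2 ≠ 0 := by
      intro h4
      apply hRne
      rw [hRt]
      field_simp
      rw [h4]
      ring
    have h5 : 1 / S0 * (S0 / Rt u) = 1 / Rt u := by field_simp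
    rw [h5, hRt]
    field_simp

/-- the middle integral -/
theorem FF_eq_middle (j M N : ℕ) {c : ℂ} (hc : 9 ≤ ‖c‖) (hi : 1 ≤ c.im) (hr : 1 ≤ c.re) :
    FF j M N c = (1 / (j.factorial : ℂ)) * (1 / (2 * π)) ^ j *
      ∫ t in box j, swF j M N c (cv t) := by
  set e : (Fin j → ℝ) → (Fin j → ℂ) := fun t m => swg c (t m) with he
  set L : (Fin j → ℝ) → (Fin j → ℝ) →L[ℝ] (Fin j → ℂ) := fun t =>
    ContinuousLinearMap.pi fun m =>
      (ContinuousLinearMap.proj (R := ℝ) (φ := fun _ : Fin j => ℝ) m).smulRight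
        (swg' c (t m)) with hLdef
  have hLapp : ∀ t v m, L t v m = (v m : ℂ) * swg' c (t m) := by
    intro t v m
    rw [hLdef]
    simp
  have hL : ∀ t, HasFDerivAt e (L t) t := by
    intro t
    rw [hasFDerivAt_pi']
    intro m
    have h1 := (swg_hasDerivAt hi hr (t m)).hasFDerivAt
    have h2 : HasFDerivAt (fun t : Fin j → ℝ => t m)
        (ContinuousLinearMap.proj (R := ℝ) (φ := fun _ : Fin j => ℝ) m) t :=
      (ContinuousLinearMap.proj (R := ℝ) (φ := fun _ : Fin j => ℝ) m).hasFDerivAt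
    have h3 := h1.comp t h2
    refine h3.congr_fderiv ?_
    ext v
    rw [hLdef]
    simp
  have hLc : Continuous L := by
    rw [continuous_clm_apply]
    intro v
    refine continuous_pi fun m => ?_
    simp only [hLapp]
    exact continuous_const.mul ((swg'_cont hi hr).comp (continuous_apply m))
  have hU : IsOpen {z : Fin j → ℂ | ∀ i, z i ∈ swD c} := by
    have : {z : Fin j → ℂ | ∀ i, z i ∈ swD c} = ⋂ i, (fun z : Fin j → ℂ => z i) ⁻¹' swD c := by
      ext z
      simp
    rw [this]
    exact isOpen_iInter_of_finite fun i => (swD_open c).preimage (continuous_apply i)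
  have key := deform {z : Fin j → ℂ | ∀ i, z i ∈ swD c} hU (swF j M N c)
    (swF_analytic j M N hc) (fun z _ i _ => swF_per j M N c z i) e L hL hLc
    (fun t i => by
      funext m
      rw [he]
      simp only [Pi.add_apply, Pi.single_apply]
      split_ifs with h
      · exact swg_per c (t m)
      · rw [add_zero])
    (fun s hs t i => by
      show cv t i + (s : ℂ) • e t i ∈ swD c
      rw [smul_eq_mul]
      exact sw_path hc hi (t i) hs)
  unfold FF
  rw [← key]
  congr 1
  refine setIntegral_congr_fun ?_ ?_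
  · unfold box
    exact measurableSet_Icc
  · intro t _
    have hdet : Matrix.det (1 + Matrix.of fun i k => L t (Pi.single k 1) i) =
        ∏ i, (1 + swg' c (t i)) := by
      have : (1 + Matrix.of fun i k => L t (Pi.single k 1) i : Matrix (Fin j) (Fin j) ℂ) =
          Matrix.diagonal fun i => 1 + swg' c (t i) := by
        ext i k
        rw [Matrix.add_apply, Matrix.of_apply, hLapp]
        by_cases h : i = k
        · subst h
          simp
        · rw [Matrix.one_apply_ne h, Matrix.diagonal_apply_ne _ h,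
            Pi.single_eq_of_ne h]
          simp
      rw [this, Matrix.det_diagonal]
    simp only
    rw [hdet]
    have hend := fun i => sw_end hc hi hr (t i)
    have hz : ∀ i, (cv t + e t) i = (t i : ℂ) + swg c (t i) := fun i => rfl
    unfold swF ker pairs prodw
    simp only [hz, cv]
    have hHH : ∀ i k, swH c ((t i : ℂ) + swg c (t i)) ((t k : ℂ) + swg c (t k)) =
        HH (Complex.exp (I * (t i : ℂ))) (W (c - Complex.cos (t i)))
          (Complex.exp (I * (t k : ℂ))) (W (c - Complex.cos (t k))) := by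
      intro i k
      unfold swH HH
      rw [(hend i).1, (hend k).1, (hend i).2.1, (hend k).2.1, (hend i).2.2.1, (hend k).2.2.1]
      have a1 := Complex.exp_ne_zero (I * (t i : ℂ))
      have a2 := Complex.exp_ne_zero (I * (t k : ℂ))
      rw [← div_div]
      congr 1
      field_simp
    simp only [hHH, (hend _).2.1, (hend _).2.2.1]
    have hprod : (∏ i, 1 / swS c ((t i : ℂ) + swg c (t i))) * ∏ i, (1 + swg' c (t i)) =
        ∏ i, 2 * W (c - Complex.cos (t i)) / (1 - W (c - Complex.cos (t i)) ^ 2) := by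
      rw [← Finset.prod_mul_distrib]
      exact Finset.prod_congr rfl fun i _ => (hend i).2.2.2
    rw [← hprod]
    have hexp : Complex.exp (I * ((M : ℕ) : ℤ) * ∑ i, (t i : ℂ)) =
        (∏ i, Complex.exp (I * (t i : ℂ))) ^ M := by
      rw [← Complex.exp_sum, ← Complex.exp_nat_mul]
      congr 1
      rw [Finset.mul_sum, Finset.mul_sum]
      refine Finset.sum_congr rfl fun i _ => ?_
      push_cast
      ring
    rw [hexp]
    ring

theorem FF_swap_large (j M N : ℕ) {c : ℂ} (hc : 9 ≤ ‖c‖) (hi : 1 ≤ c.im) (hr : 1 ≤ c.re) :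
    FF j M N c = FF j N M c := by
  rw [FF_eq_middle j M N hc hi hr, FF_eq_middle j N M hc hi hr]
  congr 1
  have hpre : (fun t : Fin j → ℝ => -t) ⁻¹' box j = box j := by
    ext t
    unfold box
    simp only [mem_preimage, mem_Icc, Pi.le_def, Pi.neg_apply]
    constructor
    · rintro ⟨h1, h2⟩
      exact ⟨fun i => by linarith [h2 i], fun i => by linarith [h1 i]⟩
    · rintro ⟨h1, h2⟩
      exact ⟨fun i => by linarith [h2 i], fun i => by linarith [h1 i]⟩
  have h1 := (Measure.measurePreserving_neg (volume : Measure (Fin j → ℝ))).setIntegral_preimage_emb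
    (MeasurableEquiv.neg (Fin j → ℝ)).measurableEmbedding (fun t => swF j M N c (cv t)) (box j)
  have hreal : ∀ x : ℝ, (x : ℂ) ∈ swD c := by
    intro x
    have := sw_path hc hi x (s := 0) ⟨le_rfl, zero_le_one⟩
    simpa using this
  rw [← h1]
  have hpre' : (Neg.neg ⁻¹' box j : Set (Fin j → ℝ)) = box j := hpre
  rw [hpre']
  refine setIntegral_congr_fun ?_ ?_
  · unfold box
    exact measurableSet_Icc
  · intro t _
    simp only
    have : cv (-t) = -cv t := by
      funext i
      simp [cv]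
    rw [this]
    refine swF_neg j M N hc (fun i => hreal (t i)) fun i => ?_
    have := hreal (-(t i))
    push_cast at this
    exact this

theorem FF_swap (j M N : ℕ) {c : ℂ} (hc : 0 < c.im) : FF j M N c = FF j N M c := by
  have hopen : IsOpen {c : ℂ | 0 < c.im} := isOpen_lt continuous_const Complex.continuous_im
  have h1 : AnalyticOnNhd ℂ (FF j M N) {c : ℂ | 0 < c.im} :=
    (FF_diff j M N).analyticOnNhd hopen
  have h2 : AnalyticOnNhd ℂ (FF j N M) {c : ℂ | 0 < c.im} :=
    (FF_diff j N M).analyticOnNhd hopen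
  have hpre : IsPreconnected {c : ℂ | 0 < c.im} := (convex_halfSpace_im_gt 0).isPreconnected
  set z0 : ℂ := 10 + 10 * I with hz0
  have hz0m : z0 ∈ {c : ℂ | 0 < c.im} := by
    show 0 < z0.im
    rw [hz0]
    simp
  have hev : FF j M N =ᶠ[𝓝 z0] FF j N M := by
    have a1 : ∀ᶠ z : ℂ in 𝓝 z0, 9 < z.re := by
      refine Complex.continuous_re.continuousAt.eventually (lt_mem_nhds ?_)
      rw [hz0]
      simp
      norm_num
    have a2 : ∀ᶠ z : ℂ in 𝓝 z0, 1 < z.im := by
      refine Complex.continuous_im.continuousAt.eventually (lt_mem_nhds ?_)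
      rw [hz0]
      simp
    filter_upwards [a1, a2] with z b1 b2
    have b3 : 9 ≤ ‖z‖ := by
      have := Complex.re_le_norm z
      linarith
    exact FF_swap_large j M N b3 b2.le (by linarith)
  exact h1.eqOn_of_preconnected_of_eventuallyEq h2 hpre hz0m hev hc

end

end IsingNB
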