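import Mathlib

/-!
# Termwise differentiation of a series of holomorphic functions (NB-17b)
-/

set_option autoImplicit false

namespace IsingNB

open Complex Set Filter Topology

theorem iteratedDeriv_tsum_of_bound {ι : Type*} [Countable ι] (f : ι → ℂ → ℂ) (z : ℂ) (δ : ℝ) (hδ : 0 < δ)
    (hf : ∀ i, DifferentiableOn ℂ (f i) (Metric.ball z δ)) (u : ι → ℝ) (hu : Summable u)
    (hb : ∀ i, ∀ x ∈ Metric.ball z δ, ‖f i x‖ ≤ u i) (ℓ : ℕ) :
    HasSum (fun i => iteratedDeriv ℓ (f i) z) (iteratedDeriv ℓ (fun x => ∑' i, f i x) z) := by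
  induction ℓ generalizing f δ u with
  | zero =>
    simp only [iteratedDeriv_zero]
    have hs : Summable (fun i => f i z) :=
      Summable.of_norm_bounded hu (fun i => hb i z (Metric.mem_ball_self hδ))
    exact hs.hasSum
  | succ ℓ ih =>
    have hδ2 : 0 < δ / 2 := by linarith
    have hsub : ∀ x ∈ Metric.ball z (δ / 2), Metric.closedBall x (δ / 2) ⊆ Metric.ball z δ := by
      intro x hx y hy
      rw [Metric.mem_ball] at hx ⊢
      rw [Metric.mem_closedBall] at hy
      calc dist y z ≤ dist y x + dist x z := dist_triangle _ _ _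
        _ < δ := by linarith
    have h1 : ∀ i, DifferentiableOn ℂ (deriv (f i)) (Metric.ball z (δ / 2)) := by
      intro i
      exact ((hf i).deriv Metric.isOpen_ball).mono (Metric.ball_subset_ball (by linarith))
    have h2 : ∀ i, ∀ x ∈ Metric.ball z (δ / 2), ‖deriv (f i) x‖ ≤ u i / (δ / 2) := by
      intro i x hx
      apply Complex.norm_deriv_le_of_forall_mem_sphere_norm_le hδ2
      · apply DifferentiableOn.diffContOnCl
        rw [closure_ball x hδ2.ne']
        exact (hf i).mono (hsub x hx)
      · intro y hy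
        exact hb i y (hsub x hx (Metric.sphere_subset_closedBall hy))
    have h3 := ih (fun i => deriv (f i)) (δ / 2) hδ2 h1 (fun i => u i / (δ / 2))
      (hu.div_const _) h2
    have h4 : deriv (fun x => ∑' i, f i x) =ᶠ[𝓝 z] fun x => ∑' i, deriv (f i) x := by
      filter_upwards [Metric.ball_mem_nhds z hδ] with x hx
      exact (hasSum_deriv_of_summable_norm hu hf Metric.isOpen_ball hb hx).tsum_eq.symm
    simp only [iteratedDeriv_succ']
    rw [h4.iteratedDeriv_eq ℓ]
    exact h3

end IsingNB
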