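import Pool.Agent.Helper98.NB.Vel
import Pool.Agent.Helper98.NB.KeyPkg
import Pool.Agent.Helper98.NB.FDeq
import Pool.Agent.Helper98.NB.FDbound
import Pool.Agent.Helper98.NB.SwapNeg
import Pool.Agent.Helper98.NB.Swap
import Pool.Agent.Helper98.NB.Fourier
import Pool.Agent.Helper98.NB.TsumDeriv

/-!
# NB-16b: bounds for the terms with many particles
-/

namespace IsingNB

open Complex Set MeasureTheory Filter Topology
open scoped Real

noncomputable section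

/-- the larger lattice coordinate -/
private def n1 (p : ℤ × ℤ) : ℕ := max p.1.natAbs p.2.natAbs

/-- the smaller lattice coordinate -/
private def m1 (p : ℤ × ℤ) : ℕ := min p.1.natAbs p.2.natAbs

private theorem n1_pos {p : ℤ × ℤ} (hp : p ≠ 0) : 1 ≤ n1 p := by
  by_contra h
  apply hp
  unfold n1 at h
  have h1 : p.1.natAbs = 0 := by omega
  have h2 : p.2.natAbs = 0 := by omega
  exact Prod.ext (Int.natAbs_eq_zero.mp h1) (Int.natAbs_eq_zero.mp h2)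

private theorem m1_le (p : ℤ × ℤ) : m1 p ≤ n1 p := by
  unfold m1 n1
  omega

private theorem summable_n1 {s : ℝ} (hs : s < -2) : Summable fun p : ℤ × ℤ => (n1 p : ℝ) ^ s := by
  have h := EisensteinSeries.summable_one_div_norm_rpow (k := -s) (by linarith)
  rw [← (finTwoArrowEquiv ℤ).symm.summable_iff] at h
  refine h.congr fun p => ?_
  simp [EisensteinSeries.norm_eq_max_natAbs, n1]

private theorem term_eq {c0 r κ μ C ρ : ℝ} {K : Set ℂ} (h0 : 0 < c0) (h2 : c0 < 2)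
    (hr : fe c0 - r = Real.arccos (c0 / 2)) (hP : KeyPkg c0 r κ μ C ρ K) (j : ℕ) {p : ℤ × ℤ}
    (hp : p ≠ 0) :
    ∃ a ∈ Icc (-(fe c0 - r)) (fe c0 - r), vel c0 a * (n1 p : ℕ) = (m1 p : ℕ) ∧
      ∀ c : ℂ, 0 < c.im → ‖c - c0‖ ≤ 2 * ρ →
        FF j p.1 p.2.natAbs c = FD j c0 κ a ((m1 p : ℕ) : ℤ) (n1 p) c := by
  have hn : (0 : ℝ) < n1 p := by exact_mod_cast n1_pos hp
  have hm : (m1 p : ℝ) ≤ n1 p := by exact_mod_cast m1_le p
  obtain ⟨a, ha, hav⟩ := exists_vel (c0 := c0) (θ := (m1 p : ℝ) / n1 p) h0 h2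
    ⟨by positivity, by rw [div_le_one hn]; exact hm⟩
  have ha' : a ∈ Icc (-(fe c0 - r)) (fe c0 - r) := by
    rw [hr]
    exact ⟨ha.1, ha.2.trans (Real.arccos_nonneg _)⟩
  refine ⟨a, ha', ?_, ?_⟩
  · rw [hav]
    field_simp
  · intro c hc hc'
    have e1 : FF j p.1 p.2.natAbs c = FF j (p.1.natAbs : ℤ) p.2.natAbs c := by
      rcases Int.natAbs_eq p.1 with h | h
      · rw [← h]
      · have h' : (p.1.natAbs : ℤ) = - p.1 := by omega
        rw [h', FF_neg]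
    rw [e1, ← FF_eq_FD h0 h2 hP j ha' _ _ hc hc']
    rcases le_total p.1.natAbs p.2.natAbs with h | h
    · have e2 : m1 p = p.1.natAbs := by unfold m1; omega
      have e3 : n1 p = p.2.natAbs := by unfold n1; omega
      rw [e2, e3]
    · have e2 : m1 p = p.2.natAbs := by unfold m1; omega
      have e3 : n1 p = p.1.natAbs := by unfold n1; omega
      rw [e2, e3, FF_swap j _ _ hc]

private theorem norm_tau {ϑ : ℝ} (n : ℤ) : ‖tau ϑ ^ n‖ = 1 := by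
  rw [norm_zpow]
  have : ‖tau ϑ‖ = 1 := by
    unfold tau
    rw [mul_comm]
    exact Complex.norm_exp_ofReal_mul_I ϑ
  rw [this, one_zpow]

private theorem bd_nonneg {A : ℝ} (hA : 0 ≤ A) (j : ℕ) : 0 ≤ bd A j := by
  unfold bd
  positivity

/-- value bound -/
private theorem value_bound {c0 r κ μ C ρ A : ℝ} {K : Set ℂ} (h0 : 0 < c0) (h2 : c0 < 2)
    (hr : fe c0 - r = Real.arccos (c0 / 2)) (hP : KeyPkg c0 r κ μ C ρ K) {j r0 : ℕ}
    (hA : 1 ≤ A)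
    (hB : ∀ N M : ℕ, 1 ≤ N → ∀ a ∈ Icc (-(fe c0 - r)) (fe c0 - r),
      vel c0 a * N = M → ∀ ε ∈ Icc (0 : ℝ) ρ, ∀ ζ : ℂ, ‖ζ‖ ≤ ρ →
      ‖FD j c0 κ a M N (c0 + ε * I + ζ)‖ ≤
        bd A j * (N : ℝ) ^ (-(r0 : ℝ) ^ 2 / 2) * Real.exp ((j : ℝ) * N * (C * ‖ζ‖ - μ * ε)))
    {p : ℤ × ℤ} (hp : p ≠ 0) {ε : ℝ} (hε : ε ∈ Ioo (0 : ℝ) ρ) {ζ : ℂ} (hζ : ‖ζ‖ ≤ ρ)
    (hζ' : C * ‖ζ‖ ≤ μ * ε) (him : 0 < ((c0 : ℂ) + ε * I + ζ).im) :
    ‖FF j p.1 p.2.natAbs (c0 + ε * I + ζ)‖ ≤ bd A j * (n1 p : ℝ) ^ (-(r0 : ℝ) ^ 2 / 2) := by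
  obtain ⟨a, ha, hva, hFF⟩ := term_eq h0 h2 hr hP j hp
  have hc' : ‖(c0 : ℂ) + ε * I + ζ - c0‖ ≤ 2 * ρ := by
    have e1 : (c0 : ℂ) + ε * I + ζ - c0 = ε * I + ζ := by ring
    rw [e1]
    refine (norm_add_le _ _).trans ?_
    have e2 : ‖(ε : ℂ) * I‖ = ε := by
      rw [norm_mul, Complex.norm_I, mul_one, Complex.norm_real, Real.norm_eq_abs,
        abs_of_pos hε.1]
    rw [e2]
    linarith [hε.2]
  rw [hFF _ him hc']
  have h1 := hB (n1 p) (m1 p) (n1_pos hp) a ha hva ε ⟨hε.1.le, hε.2.le⟩ ζ hζ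
  refine h1.trans ?_
  have h3 : Real.exp ((j : ℝ) * (n1 p : ℝ) * (C * ‖ζ‖ - μ * ε)) ≤ 1 := by
    apply Real.exp_le_one_iff.mpr
    apply mul_nonpos_of_nonneg_of_nonpos
    · positivity
    · linarith
  have h4 : 0 ≤ bd A j * (n1 p : ℝ) ^ (-(r0 : ℝ) ^ 2 / 2) :=
    mul_nonneg (bd_nonneg (by linarith) j) (Real.rpow_nonneg (Nat.cast_nonneg _) _)
  exact mul_le_of_le_one_right h4 h3

/-- derivative bound for the nonzero lattice points -/
private theorem deriv_bound {c0 r κ μ C ρ A : ℝ} {K : Set ℂ} (h0 : 0 < c0) (h2 : c0 < 2)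
    (hr : fe c0 - r = Real.arccos (c0 / 2)) (hP : KeyPkg c0 r κ μ C ρ K) {j r0 : ℕ} (ℓ : ℕ)
    (hA : 1 ≤ A)
    (hB : ∀ N M : ℕ, 1 ≤ N → ∀ a ∈ Icc (-(fe c0 - r)) (fe c0 - r),
      vel c0 a * N = M → ∀ ε ∈ Icc (0 : ℝ) ρ, ∀ ζ : ℂ, ‖ζ‖ ≤ ρ →
      ‖FD j c0 κ a M N (c0 + ε * I + ζ)‖ ≤
        bd A j * (N : ℝ) ^ (-(r0 : ℝ) ^ 2 / 2) * Real.exp ((j : ℝ) * N * (C * ‖ζ‖ - μ * ε)))
    {p : ℤ × ℤ} (hp : p ≠ 0) {ε : ℝ} (hε : ε ∈ Ioo (0 : ℝ) (ρ / 2)) {t : ℂ} (ht : ‖t‖ = 1) :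
    ‖iteratedDeriv ℓ (fun c => t * FF j p.1 p.2.natAbs c) (c0 + ε * I)‖ ≤
      ℓ.factorial / (ρ / 2) ^ ℓ * (bd A j * Real.exp (C * ρ) ^ j) *
        (n1 p : ℝ) ^ ((ℓ : ℝ) - (r0 : ℝ) ^ 2 / 2) := by
  obtain ⟨a, ha, hva, hFF⟩ := term_eq h0 h2 hr hP j hp
  have hρ := hP.ρ_pos
  have hn1 : (1 : ℝ) ≤ n1 p := by exact_mod_cast n1_pos hp
  have hn0 : (0 : ℝ) < n1 p := by linarith
  set z : ℂ := c0 + ε * I with hz
  have hzim : 0 < z.im := by
    rw [hz]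
    simp
    exact hε.1
  have hzn : ‖z - c0‖ = ε := by
    have e1 : z - c0 = ε * I := by rw [hz]; ring
    rw [e1, norm_mul, Complex.norm_I, mul_one, Complex.norm_real, Real.norm_eq_abs,
      abs_of_pos hε.1]
  have hev : (fun c => t * FF j p.1 p.2.natAbs c) =ᶠ[𝓝 z]
      (fun c => t * FD j c0 κ a ((m1 p : ℕ) : ℤ) (n1 p) c) := by
    have h1 : ∀ᶠ c : ℂ in 𝓝 z, 0 < c.im :=
      (isOpen_lt continuous_const Complex.continuous_im).mem_nhds hzim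
    have h3 : ∀ᶠ c : ℂ in 𝓝 z, c ∈ Metric.ball (c0 : ℂ) (2 * ρ) := by
      apply Metric.isOpen_ball.mem_nhds
      rw [Metric.mem_ball, dist_eq_norm, hzn]
      linarith [hε.2]
    filter_upwards [h1, h3] with c hc hc'
    rw [Metric.mem_ball, dist_eq_norm] at hc'
    rw [hFF c hc hc'.le]
  rw [hev.iteratedDeriv_eq ℓ]
  set R : ℝ := (ρ / 2) / n1 p with hR
  have hR0 : 0 < R := by positivity
  have hRle : R ≤ ρ / 2 := div_le_self (by positivity) hn1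
  have hsub : Metric.closedBall z R ⊆ Metric.ball (c0 : ℂ) (2 * ρ) := by
    intro c hc
    rw [Metric.mem_closedBall] at hc
    rw [Metric.mem_ball]
    calc dist c c0 ≤ dist c z + dist z c0 := dist_triangle _ _ _
      _ ≤ R + ε := by
        apply add_le_add hc
        rw [dist_eq_norm, hzn]
      _ < 2 * ρ := by linarith [hε.2]
  have hdiff : DifferentiableOn ℂ (fun c => t * FD j c0 κ a ((m1 p : ℕ) : ℤ) (n1 p) c)
      (Metric.ball (c0 : ℂ) (2 * ρ)) :=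
    (FD_diff h0 h2 hP j ha _ _).const_mul t
  have hcl : DiffContOnCl ℂ (fun c => t * FD j c0 κ a ((m1 p : ℕ) : ℤ) (n1 p) c)
      (Metric.ball z R) := by
    apply DifferentiableOn.diffContOnCl
    rw [closure_ball z hR0.ne']
    exact hdiff.mono hsub
  set Mx : ℝ := bd A j * (n1 p : ℝ) ^ (-(r0 : ℝ) ^ 2 / 2) * Real.exp (C * ρ) ^ j with hMx
  have hCb : ∀ c ∈ Metric.sphere z R,
      ‖t * FD j c0 κ a ((m1 p : ℕ) : ℤ) (n1 p) c‖ ≤ Mx := by
    intro c hc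
    rw [mem_sphere_iff_norm] at hc
    have h1 := hB (n1 p) (m1 p) (n1_pos hp) a ha hva ε ⟨hε.1.le, by linarith [hε.2]⟩ (c - z)
      (by rw [hc]; linarith)
    have e1 : (c0 : ℂ) + ε * I + (c - z) = c := by rw [hz]; ring
    rw [e1, hc] at h1
    rw [norm_mul, ht, one_mul]
    refine h1.trans ?_
    rw [hMx]
    apply mul_le_mul_of_nonneg_left _ (mul_nonneg (bd_nonneg (by linarith) j)
      (Real.rpow_nonneg (Nat.cast_nonneg _) _))
    rw [← Real.exp_nat_mul]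
    apply Real.exp_le_exp.mpr
    have e2 : (j : ℝ) * (n1 p : ℝ) * (C * R - μ * ε) ≤ (j : ℝ) * (n1 p : ℝ) * (C * R) := by
      apply mul_le_mul_of_nonneg_left _ (by positivity)
      have := mul_pos hP.μ_pos hε.1
      linarith
    have e3 : (j : ℝ) * (n1 p : ℝ) * (C * R) = (j : ℝ) * (C * (ρ / 2)) := by
      rw [hR]
      field_simp
    rw [e3] at e2
    refine e2.trans (mul_le_mul_of_nonneg_left ?_ (Nat.cast_nonneg _))
    apply mul_le_mul_of_nonneg_left _ hP.C_pos.le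
    linarith
  have h5 := Complex.norm_iteratedDeriv_le_of_forall_mem_sphere_norm_le ℓ hR0 hcl hCb
  refine h5.trans (le_of_eq ?_)
  rw [hMx, hR, div_pow]
  have e4 : (n1 p : ℝ) ^ ((ℓ : ℝ) - (r0 : ℝ) ^ 2 / 2) =
      (n1 p : ℝ) ^ ℓ * (n1 p : ℝ) ^ (-(r0 : ℝ) ^ 2 / 2) := by
    rw [sub_eq_add_neg, Real.rpow_add hn0, Real.rpow_natCast, neg_div]
  rw [e4]
  field_simp

/-- derivative bound for the origin -/
private theorem deriv_bound_zero {c0 r κ μ C ρ A : ℝ} {K : Set ℂ} (h0 : 0 < c0) (h2 : c0 < 2)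
    (hr : r < fe c0) (hP : KeyPkg c0 r κ μ C ρ K) {j : ℕ} (ℓ : ℕ)
    (hB : ∀ c : ℂ, ‖c - c0‖ ≤ 2 * ρ → ‖FD j c0 κ 0 0 0 c‖ ≤ bd A j)
    {ε : ℝ} (hε : ε ∈ Ioo (0 : ℝ) (ρ / 2)) {t : ℂ} (ht : ‖t‖ = 1) :
    (∀ c : ℂ, 0 < c.im → ‖c - c0‖ ≤ 2 * ρ → ‖FF j 0 0 c‖ ≤ bd A j) ∧
    ‖iteratedDeriv ℓ (fun c => t * FF j 0 0 c) (c0 + ε * I)‖ ≤
      ℓ.factorial / (ρ / 2) ^ ℓ * bd A j := by
  have ha : (0 : ℝ) ∈ Icc (-(fe c0 - r)) (fe c0 - r) := ⟨by linarith, by linarith⟩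
  have hFF : ∀ c : ℂ, 0 < c.im → ‖c - c0‖ ≤ 2 * ρ → FF j 0 0 c = FD j c0 κ 0 0 0 c :=
    fun c hc hc' => FF_eq_FD h0 h2 hP j ha 0 0 hc hc'
  refine ⟨fun c hc hc' => by rw [hFF c hc hc']; exact hB c hc', ?_⟩
  have hρ := hP.ρ_pos
  set z : ℂ := c0 + ε * I with hz
  have hzim : 0 < z.im := by
    rw [hz]
    simp
    exact hε.1
  have hzn : ‖z - c0‖ = ε := by
    have e1 : z - c0 = ε * I := by rw [hz]; ring
    rw [e1, norm_mul, Complex.norm_I, mul_one, Complex.norm_real, Real.norm_eq_abs,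
      abs_of_pos hε.1]
  have hev : (fun c => t * FF j 0 0 c) =ᶠ[𝓝 z] (fun c => t * FD j c0 κ 0 0 0 c) := by
    have h1 : ∀ᶠ c : ℂ in 𝓝 z, 0 < c.im :=
      (isOpen_lt continuous_const Complex.continuous_im).mem_nhds hzim
    have h3 : ∀ᶠ c : ℂ in 𝓝 z, c ∈ Metric.ball (c0 : ℂ) (2 * ρ) := by
      apply Metric.isOpen_ball.mem_nhds
      rw [Metric.mem_ball, dist_eq_norm, hzn]
      linarith [hε.2]
    filter_upwards [h1, h3] with c hc hc'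
    rw [Metric.mem_ball, dist_eq_norm] at hc'
    rw [hFF c hc hc'.le]
  rw [hev.iteratedDeriv_eq ℓ]
  have hR0 : 0 < ρ / 2 := by positivity
  have hsub : Metric.closedBall z (ρ / 2) ⊆ Metric.ball (c0 : ℂ) (2 * ρ) := by
    intro c hc
    rw [Metric.mem_closedBall] at hc
    rw [Metric.mem_ball]
    calc dist c c0 ≤ dist c z + dist z c0 := dist_triangle _ _ _
      _ ≤ ρ / 2 + ε := by
        apply add_le_add hc
        rw [dist_eq_norm, hzn]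
      _ < 2 * ρ := by linarith [hε.2]
  have hdiff : DifferentiableOn ℂ (fun c => t * FD j c0 κ 0 0 0 c)
      (Metric.ball (c0 : ℂ) (2 * ρ)) :=
    (FD_diff h0 h2 hP j ha _ _).const_mul t
  have hcl : DiffContOnCl ℂ (fun c => t * FD j c0 κ 0 0 0 c) (Metric.ball z (ρ / 2)) := by
    apply DifferentiableOn.diffContOnCl
    rw [closure_ball z hR0.ne']
    exact hdiff.mono hsub
  have hCb : ∀ c ∈ Metric.sphere z (ρ / 2), ‖t * FD j c0 κ 0 0 0 c‖ ≤ bd A j := by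
    intro c hc
    rw [norm_mul, ht, one_mul]
    apply hB
    have h1 := hsub (Metric.sphere_subset_closedBall hc)
    rw [Metric.mem_ball, dist_eq_norm] at h1
    exact h1.le
  have h5 := Complex.norm_iteratedDeriv_le_of_forall_mem_sphere_norm_le ℓ hR0 hcl hCb
  refine h5.trans (le_of_eq ?_)
  field_simp

theorem tail_bound {c0 : ℝ} (h0 : 0 < c0) (h2 : c0 < 2) {ϑ : ℝ} (hϑ : ϑ = 0 ∨ ϑ = π) (r0 ℓ : ℕ)
    (hr0 : 2 * ℓ + 4 < r0 ^ 2) :
    ∃ A : ℝ, 1 ≤ A ∧ ∃ ε0 > 0, ∀ d : ℕ, r0 ≤ d + 1 → ∀ ε ∈ Ioo (0 : ℝ) ε0,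
      ‖iteratedDeriv ℓ (chi d ϑ) (c0 + ε * I)‖ ≤ bd A (d + 1) := by
  have hlt := arccos_half_lt_fe h0 h2
  have hacp : 0 < Real.arccos (c0 / 2) := Real.arccos_pos.mpr (by linarith)
  obtain ⟨κ, μ, C, ρ, K, hP⟩ := exists_keyPkg (r := fe c0 - Real.arccos (c0 / 2)) h0 h2
    (by linarith) (by linarith)
  have hr : fe c0 - (fe c0 - Real.arccos (c0 / 2)) = Real.arccos (c0 / 2) := by ring
  obtain ⟨A0, hA0, hB0⟩ := FD_bound h0 h2 hP r0
  obtain ⟨A1, hA1, hB1⟩ := FD_bound_zero h0 h2 hP (by linarith)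
  have hρ := hP.ρ_pos
  have hB : ∀ j : ℕ, r0 ≤ j → ∀ N M : ℕ, 1 ≤ N →
      ∀ a ∈ Icc (-(fe c0 - (fe c0 - Real.arccos (c0 / 2))))
        (fe c0 - (fe c0 - Real.arccos (c0 / 2))),
      vel c0 a * N = M → ∀ ε ∈ Icc (0 : ℝ) ρ, ∀ ζ : ℂ, ‖ζ‖ ≤ ρ →
      ‖FD j c0 κ a M N (c0 + ε * I + ζ)‖ ≤
        bd A0 j * (N : ℝ) ^ (-(r0 : ℝ) ^ 2 / 2) * Real.exp ((j : ℝ) * N * (C * ‖ζ‖ - μ * ε)) := by
    intro j hj N M hN a ha hva ε hε ζ hζ
    obtain ⟨q, rfl⟩ := Nat.exists_eq_add_of_le hj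
    exact hB0 q N M hN a ha hva ε hε ζ hζ
  have hr0' : (2 * (ℓ : ℝ) + 4) < (r0 : ℝ) ^ 2 := by exact_mod_cast hr0
  have hS1 : Summable fun p : ℤ × ℤ => (n1 p : ℝ) ^ ((ℓ : ℝ) - (r0 : ℝ) ^ 2 / 2) :=
    summable_n1 (by linarith)
  have hS2 : Summable fun p : ℤ × ℤ => (n1 p : ℝ) ^ (-(r0 : ℝ) ^ 2 / 2) := by
    apply summable_n1
    have : (0 : ℝ) ≤ ℓ := Nat.cast_nonneg _
    linarith
  set S : ℝ := ∑' p : ℤ × ℤ, (n1 p : ℝ) ^ ((ℓ : ℝ) - (r0 : ℝ) ^ 2 / 2) with hS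
  have hS0 : 0 ≤ S := tsum_nonneg fun p => Real.rpow_nonneg (Nat.cast_nonneg _) _
  set L : ℝ := ℓ.factorial / (ρ / 2) ^ ℓ with hL
  have hL0 : 0 ≤ L := by positivity
  set E : ℝ := Real.exp (C * ρ) with hE
  have hE1 : 1 ≤ E := Real.one_le_exp (mul_nonneg hP.C_pos.le hρ.le)
  have hA : (1 : ℝ) ≤ (1 + L * (1 + S)) * ((A0 + A1) * E) := by
    have e1 : (1 : ℝ) ≤ 1 + L * (1 + S) := by
      have := mul_nonneg hL0 (by linarith : (0 : ℝ) ≤ 1 + S)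
      linarith
    have e2 : (1 : ℝ) ≤ (A0 + A1) * E := by
      have : (1 : ℝ) ≤ A0 + A1 := by linarith
      nlinarith
    nlinarith
  refine ⟨(1 + L * (1 + S)) * ((A0 + A1) * E), hA, ρ / 2, by positivity, ?_⟩
  intro d hd ε hε
  set j : ℕ := d + 1 with hj
  have hj1 : 1 ≤ j := by omega
  set z : ℂ := c0 + ε * I with hz
  -- radius
  have hμ := hP.μ_pos
  have hC := hP.C_pos
  set δ : ℝ := min (ε / 2) (min (ρ / 2) (μ * ε / C)) with hδ
  have hδ0 : 0 < δ := by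
    rw [hδ]
    refine lt_min (by linarith [hε.1]) (lt_min (by linarith) (div_pos (mul_pos hμ hε.1) hC))
  have hδ1 : δ ≤ ε / 2 := min_le_left _ _
  have hδ2 : δ ≤ ρ / 2 := (min_le_right _ _).trans (min_le_left _ _)
  have hδ3 : C * δ ≤ μ * ε := by
    have h1 : δ ≤ μ * ε / C := (min_le_right _ _).trans (min_le_right _ _)
    rw [le_div_iff₀ hC] at h1
    linarith
  have hball : ∀ c ∈ Metric.ball z δ, 0 < c.im ∧ ‖c - c0‖ ≤ 2 * ρ := by
    intro c hc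
    rw [Metric.mem_ball, dist_eq_norm] at hc
    constructor
    · have h1 : |(c - z).im| ≤ ‖c - z‖ := Complex.abs_im_le_norm _
      have h3 : (c - z).im = c.im - ε := by
        rw [hz]
        simp
      rw [h3] at h1
      have h4 := (abs_le.mp h1).1
      linarith [hε.1]
    · have e1 : c - c0 = (c - z) + ε * I := by rw [hz]; ring
      rw [e1]
      refine (norm_add_le _ _).trans ?_
      have e2 : ‖(ε : ℂ) * I‖ = ε := by
        rw [norm_mul, Complex.norm_I, mul_one, Complex.norm_real, Real.norm_eq_abs,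
          abs_of_pos hε.1]
      rw [e2]
      linarith [hε.2]
  set f : ℤ × ℤ → ℂ → ℂ := fun p c => tau ϑ ^ (p.1 + p.2) * FF j p.1 p.2.natAbs c with hf
  set u : ℤ × ℤ → ℝ := fun p => (if p = 0 then bd A1 j else 0) +
    bd A0 j * (n1 p : ℝ) ^ (-(r0 : ℝ) ^ 2 / 2) with hu
  have hus : Summable u := by
    refine Summable.add ?_ (hS2.mul_left _)
    exact (hasSum_ite_eq (0 : ℤ × ℤ) (bd A1 j)).summable
  have hzero := fun (t : ℂ) (ht : ‖t‖ = 1) =>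
    deriv_bound_zero (j := j) h0 h2 (by linarith : fe c0 - Real.arccos (c0 / 2) < fe c0) hP ℓ
      (hB1 j) hε ht
  have hFb : ∀ p : ℤ × ℤ, ∀ c ∈ Metric.ball z δ, ‖FF j p.1 p.2.natAbs c‖ ≤ u p := by
    intro p c hc
    by_cases hp : p = 0
    · subst hp
      have h1 := (hzero 1 norm_one).1 c (hball c hc).1 (hball c hc).2
      refine h1.trans ?_
      show bd A1 j ≤ (if (0 : ℤ × ℤ) = 0 then bd A1 j else 0) + _
      rw [if_pos rfl]
      have := mul_nonneg (bd_nonneg (by linarith : (0 : ℝ) ≤ A0) j)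
        (Real.rpow_nonneg (Nat.cast_nonneg (n1 0)) (-(r0 : ℝ) ^ 2 / 2))
      linarith
    · have hc' := hball c hc
      rw [Metric.mem_ball, dist_eq_norm] at hc
      have e1 : c = (c0 : ℂ) + ε * I + (c - z) := by rw [hz]; ring
      have h1 := value_bound h0 h2 hr hP hA0 (hB j hd) hp (ε := ε) (ζ := c - z)
        ⟨hε.1, by linarith [hε.2]⟩ (by linarith)
        ((mul_le_mul_of_nonneg_left hc.le hC.le).trans hδ3) (by rw [← e1]; exact hc'.1)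
      rw [← e1] at h1
      refine h1.trans ?_
      show _ ≤ (if p = 0 then bd A1 j else 0) + _
      rw [if_neg hp, zero_add]
  have hb : ∀ p, ∀ c ∈ Metric.ball z δ, ‖f p c‖ ≤ u p := by
    intro p c hc
    rw [hf]
    simp only
    rw [norm_mul, norm_tau, one_mul]
    exact hFb p c hc
  have hdiff : ∀ p, DifferentiableOn ℂ (f p) (Metric.ball z δ) := by
    intro p
    exact ((FF_diff j p.1 p.2.natAbs).mono (fun c hc => (hball c hc).1)).const_mul _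
  have hsum := iteratedDeriv_tsum_of_bound f z δ hδ0 hdiff u hus hb ℓ
  have hchi : (fun c => ∑' p, f p c) =ᶠ[𝓝 z] chi d ϑ := by
    filter_upwards [Metric.isOpen_ball.mem_nhds (Metric.mem_ball_self hδ0)] with c hc
    exact (chi_hasSum d hϑ (hball c hc).1
      (Summable.of_nonneg_of_le (fun _ => norm_nonneg _) (fun p => hFb p c hc) hus)).tsum_eq
  rw [hchi.iteratedDeriv_eq ℓ] at hsum
  set v : ℤ × ℤ → ℝ := fun p => (if p = 0 then L * bd A1 j else 0) +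
    L * (bd A0 j * E ^ j) * (n1 p : ℝ) ^ ((ℓ : ℝ) - (r0 : ℝ) ^ 2 / 2) with hv
  have hvs : HasSum v (L * bd A1 j + L * (bd A0 j * E ^ j) * S) := by
    refine HasSum.add (hasSum_ite_eq (0 : ℤ × ℤ) (L * bd A1 j)) (hS1.hasSum.mul_left _)
  have hvb : ∀ p, ‖iteratedDeriv ℓ (f p) z‖ ≤ v p := by
    intro p
    by_cases hp : p = 0
    · subst hp
      have h1 := (hzero (tau ϑ ^ ((0 : ℤ × ℤ).1 + (0 : ℤ × ℤ).2)) (norm_tau _)).2
      refine h1.trans ?_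
      show L * bd A1 j ≤ (if (0 : ℤ × ℤ) = 0 then L * bd A1 j else 0) + _
      rw [if_pos rfl]
      have := mul_nonneg (mul_nonneg hL0 (mul_nonneg (bd_nonneg (by linarith : (0 : ℝ) ≤ A0) j)
        (pow_nonneg (by linarith : (0 : ℝ) ≤ E) j)))
        (Real.rpow_nonneg (Nat.cast_nonneg (n1 0)) ((ℓ : ℝ) - (r0 : ℝ) ^ 2 / 2))
      linarith
    · have h1 := deriv_bound h0 h2 hr hP ℓ hA0 (hB j hd) hp hε (norm_tau (ϑ := ϑ) (p.1 + p.2))
      refine h1.trans ?_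
      show _ ≤ (if p = 0 then L * bd A1 j else 0) + _
      rw [if_neg hp, zero_add]
  have hfin := hsum.norm_le_of_bounded hvs hvb
  refine hfin.trans ?_
  -- arithmetic
  have hP1 : (A1 ^ j : ℝ) ≤ (A0 + A1) ^ j := pow_le_pow_left₀ (by linarith) (by linarith) j
  have hP0 : (A0 ^ j : ℝ) ≤ (A0 + A1) ^ j := pow_le_pow_left₀ (by linarith) (by linarith) j
  have hEj : 1 ≤ E ^ j := one_le_pow₀ hE1
  set w : ℝ := Real.sqrt ((j : ℝ) ^ j) / (j.factorial : ℝ) with hw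
  have hw0 : 0 ≤ w := by positivity
  have eb : ∀ x : ℝ, bd x j = x ^ j * w := by
    intro x
    unfold bd
    rw [hw, mul_div_assoc]
  rw [eb, eb, eb]
  have hT : (1 + L * (1 + S)) ≤ (1 + L * (1 + S)) ^ j :=
    le_self_pow₀ (by nlinarith [mul_nonneg hL0 hS0]) (by omega)
  have hAA : 0 ≤ (A0 + A1) ^ j := pow_nonneg (by linarith) j
  have key : L * A1 ^ j + L * (A0 ^ j * E ^ j) * S ≤ ((1 + L * (1 + S)) * ((A0 + A1) * E)) ^ j := by
    calc L * A1 ^ j + L * (A0 ^ j * E ^ j) * S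
        ≤ L * ((A0 + A1) ^ j * E ^ j) + L * ((A0 + A1) ^ j * E ^ j) * S := by
          apply add_le_add
          · apply mul_le_mul_of_nonneg_left _ hL0
            calc A1 ^ j ≤ (A0 + A1) ^ j := hP1
              _ ≤ (A0 + A1) ^ j * E ^ j := le_mul_of_one_le_right hAA hEj
          · apply mul_le_mul_of_nonneg_right _ hS0
            apply mul_le_mul_of_nonneg_left _ hL0
            exact mul_le_mul_of_nonneg_right hP0 (by linarith)
      _ = (L * (1 + S)) * ((A0 + A1) ^ j * E ^ j) := by ring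
      _ ≤ (1 + L * (1 + S)) * ((A0 + A1) ^ j * E ^ j) := by
          apply mul_le_mul_of_nonneg_right (by linarith)
          exact mul_nonneg hAA (by linarith)
      _ ≤ (1 + L * (1 + S)) ^ j * ((A0 + A1) ^ j * E ^ j) := by
          apply mul_le_mul_of_nonneg_right hT
          exact mul_nonneg hAA (by linarith)
      _ = ((1 + L * (1 + S)) * ((A0 + A1) * E)) ^ j := by rw [mul_pow, mul_pow]
  calc L * (A1 ^ j * w) + L * (A0 ^ j * w * E ^ j) * S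
      = (L * A1 ^ j + L * (A0 ^ j * E ^ j) * S) * w := by ring
    _ ≤ ((1 + L * (1 + S)) * ((A0 + A1) * E)) ^ j * w := mul_le_mul_of_nonneg_right key hw0

end

end IsingNB
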