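import Pool.Agent.Helper98.NB.PairBound
import Pool.Agent.Helper98.NB.Tail
import Pool.Agent.Helper98.NB.ChiBasic
import Pool.Agent.Helper98.NB.TsumDeriv
import Pool.Agent.Helper98.NB.NonResTerm
import Pool.Agent.Helper98.NB.Blowup
import Pool.Agent.Helper98.NB.NT1
import Pool.Agent.Helper98.NB.NT2

/-!
# NB-26: no continuation across the special points

If `g` is analytic near `c0` and equal to the sum of the terms in the upper half plane, then its
`l`-th derivative is bounded at `c0 + ε i`. It is the sum of the derivatives of the terms: finitely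
many non-resonant (bounded) terms, one term which blows up, and a tail which is bounded.
-/

namespace IsingNB

open Complex Set MeasureTheory Filter Topology
open scoped Real

noncomputable section

/-- an analytic function has bounded derivatives near a point -/
private lemma bounded_of_analytic {c0 : ℂ} {δ : ℝ} (hδ : 0 < δ) {g : ℂ → ℂ}
    (hg : DifferentiableOn ℂ g (Metric.ball c0 δ)) (ℓ : ℕ) :
    ∃ B ε1 : ℝ, 0 < ε1 ∧ ∀ ε ∈ Ioo (0 : ℝ) ε1, ‖iteratedDeriv ℓ g (c0 + ε * I)‖ ≤ B := by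
  have han : AnalyticAt ℂ g c0 := hg.analyticAt (Metric.ball_mem_nhds c0 hδ)
  have han' : AnalyticAt ℂ (iteratedDeriv ℓ g) c0 := by
    rw [iteratedDeriv_eq_iterate]
    exact han.iterated_deriv ℓ
  have hc : ContinuousAt (iteratedDeriv ℓ g) c0 := han'.continuousAt
  obtain ⟨ε1, hε1, h⟩ := Metric.continuousAt_iff.1 hc 1 one_pos
  refine ⟨‖iteratedDeriv ℓ g c0‖ + 1, ε1, hε1, fun ε hε => ?_⟩
  have hd : dist (c0 + ε * I) c0 < ε1 := by
    rw [dist_eq_norm, add_sub_cancel_left, norm_mul, Complex.norm_I, mul_one, Complex.norm_real,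
      Real.norm_eq_abs, abs_of_pos hε.1]
    exact hε.2
  have h1 := h hd
  rw [dist_eq_norm] at h1
  calc ‖iteratedDeriv ℓ g (c0 + ε * I)‖ =
      ‖iteratedDeriv ℓ g c0 + (iteratedDeriv ℓ g (c0 + ε * I) - iteratedDeriv ℓ g c0)‖ := by
        congr 1; ring
    _ ≤ ‖iteratedDeriv ℓ g c0‖ + ‖iteratedDeriv ℓ g (c0 + ε * I) - iteratedDeriv ℓ g c0‖ :=
        norm_add_le _ _
    _ ≤ ‖iteratedDeriv ℓ g c0‖ + 1 := by linarith

private lemma no_continuation {c0 : ℝ} (h0 : 0 < c0) (h2 : c0 < 2) {ϑ : ℝ}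
    (hϑ : ϑ = 0 ∨ ϑ = π) (e : ℕ → ℕ) (he : Function.Injective e) (k0 : ℕ) (hd : 1 ≤ e k0)
    {δ0 : ℝ} (hD : DiagRes (e k0 + 1) ϑ c0 δ0) (hlow : ∀ k < k0, NonRes (e k + 1) ϑ c0)
    (htail : ∀ k, k0 < k → e k0 + 3 ≤ e k + 1) :
    ¬ ∃ δ > 0, ∃ g : ℂ → ℂ, DifferentiableOn ℂ g (Metric.ball (c0 : ℂ) δ) ∧
      ∀ c ∈ Metric.ball (c0 : ℂ) δ, 0 < c.im → g c = ∑' k : ℕ, chi (e k) ϑ c := by
  classical
  rintro ⟨δ, hδ, g, hg, hgS⟩
  set ℓ : ℕ := (e k0 + 1) ^ 2 / 2 with hℓ
  have hr0 : 2 * ℓ + 4 < (e k0 + 3) ^ 2 := by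
    have h1 : 2 * ℓ ≤ (e k0 + 1) ^ 2 := by rw [hℓ]; omega
    nlinarith
  obtain ⟨B, ε1, hε1, hB⟩ := bounded_of_analytic hδ hg ℓ
  obtain ⟨A, hA, ε2, hε2, hT⟩ := tail_bound h0 h2 hϑ (e k0 + 3) ℓ hr0
  have hN : ∀ k, ∃ A' ε' : ℝ, 0 < ε' ∧ (k < k0 → ∀ ε ∈ Ioo (0 : ℝ) ε',
      ‖iteratedDeriv ℓ (chi (e k) ϑ) (c0 + ε * I)‖ ≤ A') := by
    intro k
    by_cases hk : k < k0
    · obtain ⟨A', ε', h1, h2'⟩ := chi_bound_of_nonres h0 h2 hϑ (e k) ℓ (hlow k hk)
      exact ⟨A', ε', h1, fun _ => h2'⟩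
    · exact ⟨0, 1, one_pos, fun h => absurd h hk⟩
  choose Ak εk hεk hAk using hN
  -- summability of the tail bound
  have hsum : Summable fun k => bd A (e k + 1) := by
    have h1 : Function.Injective fun k => e k + 1 := fun a b hab => he (Nat.succ_injective hab)
    exact (summable_bd A).comp_injective h1
  have hbd0 : ∀ (j : ℕ), 0 ≤ bd A j := by
    intro j
    unfold bd
    positivity
  -- a positive lower bound of the radii
  obtain ⟨ε3, hε3, hε3'⟩ : ∃ ε3 : ℝ, 0 < ε3 ∧ ∀ k < k0, ε3 ≤ εk k := by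
    have : ∀ n : ℕ, ∃ ε3 : ℝ, 0 < ε3 ∧ ∀ k < n, ε3 ≤ εk k := by
      intro n
      induction n with
      | zero => exact ⟨1, one_pos, fun k hk => absurd hk (Nat.not_lt_zero k)⟩
      | succ n ih =>
        obtain ⟨e1, he1, h1⟩ := ih
        refine ⟨min e1 (εk n), lt_min he1 (hεk n), fun k hk => ?_⟩
        rcases Nat.lt_succ_iff_lt_or_eq.1 hk with h | h
        · exact (min_le_left _ _).trans (h1 k h)
        · rw [h]; exact min_le_right _ _
    exact this k0
  -- the value of the resonant term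
  have key : ∀ ε ∈ Ioo (0 : ℝ) (min (min ε1 δ) (min ε2 ε3)),
      ‖iteratedDeriv ℓ (chi (e k0) ϑ) (c0 + ε * I)‖ ≤
        B + ∑ k ∈ Finset.range k0, Ak k + ∑' k, bd A (e k + 1) := by
    intro ε hε
    have hε0 : 0 < ε := hε.1
    have hεa : ε < ε1 := hε.2.trans_le ((min_le_left _ _).trans (min_le_left _ _))
    have hεb : ε < δ := hε.2.trans_le ((min_le_left _ _).trans (min_le_right _ _))
    have hεc : ε < ε2 := hε.2.trans_le ((min_le_right _ _).trans (min_le_left _ _))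
    have hεd : ε < ε3 := hε.2.trans_le ((min_le_right _ _).trans (min_le_right _ _))
    set z : ℂ := c0 + ε * I with hz
    have hzim : z.im = ε := by simp [hz]
    have hzball : z ∈ Metric.ball (c0 : ℂ) δ := by
      rw [Metric.mem_ball, dist_eq_norm, hz, add_sub_cancel_left, norm_mul, Complex.norm_I,
        mul_one, Complex.norm_real, Real.norm_eq_abs, abs_of_pos hε0]
      exact hεb
    -- `g` and the series agree near `z`
    have heq : iteratedDeriv ℓ g z = iteratedDeriv ℓ (fun c => ∑' k : ℕ, chi (e k) ϑ c) z := by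
      apply Filter.EventuallyEq.iteratedDeriv_eq
      have h1 : Metric.ball (c0 : ℂ) δ ∈ 𝓝 z := Metric.isOpen_ball.mem_nhds hzball
      have h2' : {c : ℂ | 0 < c.im} ∈ 𝓝 z := by
        apply (isOpen_lt continuous_const Complex.continuous_im).mem_nhds
        show 0 < z.im
        rw [hzim]; exact hε0
      filter_upwards [h1, h2'] with c hc1 hc2
      exact hgS c hc1 hc2
    -- termwise differentiation
    obtain ⟨δ', hδ', A', hA', hb⟩ := chi_loc_bound ϑ (c1 := z) (Or.inl (by rw [hzim]; exact hε0.ne'))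
    have hsum' : Summable fun k => bd A' (e k + 1) := by
      have h1 : Function.Injective fun k => e k + 1 := fun a b hab => he (Nat.succ_injective hab)
      exact (summable_bd A').comp_injective h1
    have hHS := iteratedDeriv_tsum_of_bound (fun k => chi (e k) ϑ) z (min δ' ε)
      (lt_min hδ' hε0) (fun k => (chi_diff (e k) ϑ).mono (by
        intro c hc
        left
        rw [Metric.mem_ball, dist_eq_norm] at hc
        have h1 : |(c - z).im| ≤ ‖c - z‖ := Complex.abs_im_le_norm _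
        have h3 : ‖c - z‖ < ε := hc.trans_le (min_le_right _ _)
        rw [Complex.sub_im, hzim] at h1
        intro h4
        rw [h4, zero_sub, abs_neg, abs_of_pos hε0] at h1
        linarith)) (fun k => bd A' (e k + 1)) hsum' (fun k x hx => hb (e k) x (by
          rw [Metric.mem_ball] at hx ⊢
          exact hx.trans_le (min_le_left _ _))) ℓ
    have hBz : ‖iteratedDeriv ℓ (fun c => ∑' k : ℕ, chi (e k) ϑ c) z‖ ≤ B := by
      rw [← heq]
      exact hB ε ⟨hε0, hεa⟩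
    -- split the sum
    set f : ℕ → ℂ := fun k => iteratedDeriv ℓ (chi (e k) ϑ) z with hf
    have hfs : Summable f := hHS.summable
    have htsum : ∑' k, f k = iteratedDeriv ℓ (fun c => ∑' k : ℕ, chi (e k) ϑ c) z := hHS.tsum_eq
    have hsplit := hfs.sum_add_tsum_nat_add (k0 + 1)
    rw [Finset.sum_range_succ, htsum] at hsplit
    have htl : ‖∑' k, f (k + (k0 + 1))‖ ≤ ∑' k, bd A (e k + 1) := by
      have hs1 : Summable fun k => bd A (e (k + (k0 + 1)) + 1) :=
        (summable_nat_add_iff (f := fun k => bd A (e k + 1)) (k0 + 1)).2 hsum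
      refine (tsum_of_norm_bounded hs1.hasSum (fun k => ?_)).trans ?_
      · exact hT (e (k + (k0 + 1))) (htail _ (by omega)) ε ⟨hε0, hεc⟩
      · have h1 := hsum.sum_add_tsum_nat_add (k0 + 1)
        have h3 : 0 ≤ ∑ k ∈ Finset.range (k0 + 1), bd A (e k + 1) :=
          Finset.sum_nonneg fun k _ => hbd0 _
        linarith
    have hlo : ‖∑ k ∈ Finset.range k0, f k‖ ≤ ∑ k ∈ Finset.range k0, Ak k := by
      refine norm_sum_le_of_le _ (fun k hk => ?_)
      have hk' := Finset.mem_range.1 hk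
      exact hAk k hk' ε ⟨hε0, hεd.trans_le (hε3' k hk')⟩
    have hval : f k0 = iteratedDeriv ℓ (fun c => ∑' k : ℕ, chi (e k) ϑ c) z -
        ∑ k ∈ Finset.range k0, f k - ∑' k, f (k + (k0 + 1)) := by
      rw [← hsplit]; ring
    have : ‖f k0‖ ≤ ‖iteratedDeriv ℓ (fun c => ∑' k : ℕ, chi (e k) ϑ c) z‖ +
        ‖∑ k ∈ Finset.range k0, f k‖ + ‖∑' k, f (k + (k0 + 1))‖ := by
      rw [hval]
      refine (norm_sub_le _ _).trans ?_
      gcongr
      exact norm_sub_le _ _
    linarith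
  -- contradiction with the blow-up
  have hblow := chi_blowup hϑ (e k0) hd hD
  have h5 := hblow.eventually_gt_atTop (B + ∑ k ∈ Finset.range k0, Ak k + ∑' k, bd A (e k + 1))
  have h6 : Ioo (0 : ℝ) (min (min ε1 δ) (min ε2 ε3)) ∈ 𝓝[>] (0 : ℝ) :=
    Ioo_mem_nhdsGT (lt_min (lt_min hε1 hδ) (lt_min hε2 hε3))
  obtain ⟨ε, hε5, hε6⟩ := (h5.and h6).exists
  exact absurd (key ε hε6) (not_le.2 hε5)

private lemma angle_pos {p : ℕ} {m : ℕ} (hm : 0 < m) (hm' : 2 * m < p) :
    0 < 2 * Real.cos (π * m / p) ∧ 2 * Real.cos (π * m / p) < 2 := by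
  have hp0 : (0 : ℝ) < p := by
    have : 0 < p := by omega
    exact_mod_cast this
  have hm0 : (0 : ℝ) < m := by exact_mod_cast hm
  have hmp : 2 * (m : ℝ) < p := by exact_mod_cast hm'
  have h1 : 0 < π * m / p := by positivity
  have h2 : π * m / p < π / 2 := by
    rw [div_lt_div_iff₀ hp0 two_pos]
    nlinarith [Real.pi_pos]
  constructor
  · have := Real.cos_pos_of_mem_Ioo ⟨by linarith [Real.pi_pos], h2⟩
    linarith
  · have h3 : Real.cos (π * m / p) < Real.cos 0 :=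
      Real.cos_lt_cos_of_nonneg_of_le_pi le_rfl (by linarith [Real.pi_pos]) h1
    rw [Real.cos_zero] at h3
    linarith

theorem Sodd_no_continuation {p : ℕ} (hp : p.Prime) (hp7 : 7 ≤ p) {m : ℕ} (hm : 0 < m) (hm' : 2 * m < p)
    {ϑ : ℝ} (hϑ : (ϑ = 0 ∧ Even m) ∨ (ϑ = π ∧ Odd m)) :
    ¬ ∃ δ > 0, ∃ g : ℂ → ℂ, DifferentiableOn ℂ g (Metric.ball ((2 * Real.cos (π * m / p) : ℝ) : ℂ) δ) ∧
      ∀ c ∈ Metric.ball ((2 * Real.cos (π * m / p) : ℝ) : ℂ) δ, 0 < c.im → g c = Sodd ϑ c := by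
  have hϑ' : ϑ = 0 ∨ ϑ = π := hϑ.imp And.left And.left
  obtain ⟨h0, h2⟩ := angle_pos hm hm'
  obtain ⟨k0, hk0⟩ : ∃ k0, p = 2 * k0 + 1 := hp.odd_of_ne_two (by omega)
  have hDR := diagRes_odd hp hp7 hm hm' hϑ
  have hD : DiagRes (2 * k0 + 1) ϑ (2 * Real.cos (π * m / p)) (π * m / p) := hk0 ▸ hDR
  exact no_continuation h0 h2 hϑ' (fun k => 2 * k) (fun a b hab => by
      simp only at hab; omega) k0 (by omega) hD (fun k hk => by
      refine nonRes_of_not_dvd hp hp7 hm hm' (by omega) (fun hdv => ?_) hϑ'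
      have := Nat.le_of_dvd (by omega) hdv
      omega) (fun k hk => by omega)

theorem Seven_no_continuation {p : ℕ} (hp : p.Prime) (hp7 : 7 ≤ p) {m : ℕ} (hm : 0 < m) (hm' : 2 * m < p) :
    ¬ ∃ δ > 0, ∃ g : ℂ → ℂ, DifferentiableOn ℂ g (Metric.ball ((2 * Real.cos (π * m / p) : ℝ) : ℂ) δ) ∧
      ∀ c ∈ Metric.ball ((2 * Real.cos (π * m / p) : ℝ) : ℂ) δ, 0 < c.im → g c = Seven 0 c := by
  obtain ⟨h0, h2⟩ := angle_pos hm hm'
  obtain ⟨k0, hk0⟩ : ∃ k0, p = 2 * k0 + 1 := hp.odd_of_ne_two (by omega)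
  have hDR := diagRes_even hp hp7 hm hm'
  have hD : DiagRes (2 * (p - 1) + 1 + 1) 0 (2 * Real.cos (π * m / p)) (π * m / p) := by
    have : 2 * (p - 1) + 1 + 1 = 2 * p := by omega
    rw [this]
    exact hDR
  exact no_continuation h0 h2 (Or.inl rfl) (fun k => 2 * k + 1) (fun a b hab => by
      simp only at hab; omega) (p - 1) (by omega) hD (fun k hk => by
      refine nonRes_of_not_dvd hp hp7 hm hm' (by omega) (fun hdv => ?_) (Or.inl rfl)
      obtain ⟨q, hq⟩ := hdv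
      have hq1 : q = 1 := by
        rcases Nat.lt_or_ge q 2 with h | h
        · rcases Nat.eq_zero_or_pos q with h' | h'
          · subst h'; omega
          · omega
        · have h3 : p * 2 ≤ p * q := Nat.mul_le_mul_left p h
          omega
      subst hq1
      omega) (fun k hk => by omega)

end

end IsingNB
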