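import Pool.Agent.Helper98.NB.Defs
import Pool.Agent.Helper98.NB.WBasic
import Pool.Agent.Helper98.NB.RealChange

/-!
# Symmetries of the form factor series: `c ↦ -c` and complex conjugation
-/

namespace IsingNB

open Complex Set MeasureTheory Filter Topology
open scoped Real

noncomputable section

/-- The integrand of `chi`, as a function of arbitrary complex angles. -/
private def Ph (τ : ℂ) {j : ℕ} (c : ℂ) (φ : Fin j → ℂ) : ℂ :=
  ker W c φ * ((1 + τ * prodw W c φ) / (1 - τ * prodw W c φ))

private theorem chi_eq_Ph (d : ℕ) (ϑ : ℝ) (c : ℂ) :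
    chi d ϑ c = (1 / ((d + 1).factorial : ℂ)) * (1 / (2 * π)) ^ d *
      ∫ t in box d, Ph (tau ϑ) c (cv (full ϑ t)) := rfl

/-- `Ph` depends only on the numbers `exp (i φ)` (and `cos φ`). -/
private theorem Ph_congr {j : ℕ} (τ c : ℂ) {φ ψ : Fin j → ℂ}
    (hx : ∀ i, Complex.exp (I * φ i) = Complex.exp (I * ψ i)) : Ph τ c φ = Ph τ c ψ := by
  have hcos : ∀ i, Complex.cos (φ i) = Complex.cos (ψ i) := by
    intro i
    have h1 : ∀ z : ℂ, Complex.cos z = (Complex.exp (I * z) + (Complex.exp (I * z))⁻¹) / 2 := by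
      intro z
      rw [Complex.cos, ← Complex.exp_neg]
      congr 3 <;> ring
    rw [h1, h1, hx]
  unfold Ph ker prodw
  simp only [hx, hcos]

private theorem exp_I_add_pi (z : ℂ) : Complex.exp (I * (z + π)) = -Complex.exp (I * z) := by
  rw [mul_add, Complex.exp_add, mul_comm I (π : ℂ), Complex.exp_pi_mul_I]; ring

/-- Sign change. -/
private theorem Ph_neg {j : ℕ} (τ c : ℂ) {φ ψ : Fin j → ℂ}
    (hx : ∀ i, Complex.exp (I * φ i) = -Complex.exp (I * ψ i))
    (hs : ∀ i, c - Complex.cos (ψ i) ∉ Seg) :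
    Ph τ (-c) φ = (-1) ^ j * Ph ((-1) ^ j * τ) c ψ := by
  have hcos : ∀ i, Complex.cos (φ i) = -Complex.cos (ψ i) := by
    intro i
    have h1 : ∀ z : ℂ, Complex.cos z = (Complex.exp (I * z) + (Complex.exp (I * z))⁻¹) / 2 := by
      intro z
      rw [Complex.cos, ← Complex.exp_neg]
      congr 3 <;> ring
    rw [h1, h1, hx, inv_neg]; ring
  have hW : ∀ i, W (-c - Complex.cos (φ i)) = -W (c - Complex.cos (ψ i)) := by
    intro i
    rw [← W_neg (hs i), hcos i]
    congr 1; ring
  have hprod : prodw W (-c) φ = (-1) ^ j * prodw W c ψ := by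
    unfold prodw
    simp only [hW]
    rw [Finset.prod_neg, Finset.card_univ, Fintype.card_fin]
  have hker : ker W (-c) φ = (-1) ^ j * ker W c ψ := by
    unfold ker
    have h1 : ∀ i, 2 * W (-c - Complex.cos (φ i)) / (1 - W (-c - Complex.cos (φ i)) ^ 2) =
        -(2 * W (c - Complex.cos (ψ i)) / (1 - W (c - Complex.cos (ψ i)) ^ 2)) := by
      intro i
      rw [hW i, neg_sq]; ring
    have h2 : pairs (fun i => Complex.exp (I * φ i)) (fun i => W (-c - Complex.cos (φ i))) =
        pairs (fun i => Complex.exp (I * ψ i)) (fun i => W (c - Complex.cos (ψ i))) := by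
      unfold pairs
      refine Finset.prod_congr rfl fun i _ => Finset.prod_congr rfl fun k _ => ?_
      simp only [hW, hx, HH]
      congr 1
      · ring
      · ring
    rw [h2, Finset.prod_congr rfl fun i _ => h1 i, Finset.prod_neg, Finset.card_univ,
      Fintype.card_fin]
    ring
  unfold Ph
  rw [hker, hprod]
  have : τ * ((-1) ^ j * prodw W c ψ) = (-1) ^ j * τ * prodw W c ψ := by ring
  rw [this]; ring

/-- Conjugation. -/
private theorem Ph_conj {j : ℕ} (τ c : ℂ) (hτ : starRingEnd ℂ τ = τ) {φ ψ : Fin j → ℂ}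
    (hx : ∀ i, Complex.exp (I * φ i) = starRingEnd ℂ (Complex.exp (I * ψ i)))
    (hs : ∀ i, c - Complex.cos (ψ i) ∉ Seg) :
    Ph τ (starRingEnd ℂ c) φ = starRingEnd ℂ (Ph τ c ψ) := by
  have hcos : ∀ i, Complex.cos (φ i) = starRingEnd ℂ (Complex.cos (ψ i)) := by
    intro i
    have h1 : ∀ z : ℂ, Complex.cos z = (Complex.exp (I * z) + (Complex.exp (I * z))⁻¹) / 2 := by
      intro z
      rw [Complex.cos, ← Complex.exp_neg]
      congr 3 <;> ring
    rw [h1, h1, hx, map_div₀, map_add, map_inv₀, map_ofNat]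
  have hW : ∀ i, W (starRingEnd ℂ c - Complex.cos (φ i)) =
      starRingEnd ℂ (W (c - Complex.cos (ψ i))) := by
    intro i
    rw [← W_conj (hs i), hcos i, map_sub]
  unfold Ph ker prodw pairs HH
  simp only [hW, hx, map_mul, map_prod, map_div₀, map_add, map_sub, map_one, map_pow, map_neg, hτ,
    map_ofNat]

private theorem tau_zero : tau 0 = 1 := by simp [tau]
private theorem tau_pi : tau π = -1 := by
  rw [tau, mul_comm, Complex.exp_pi_mul_I]

private theorem full_last {d : ℕ} (ϑ : ℝ) (t : Fin d → ℝ) :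
    full ϑ t (Fin.last d) = ϑ - ∑ i, t i := by simp [full]
private theorem full_castSucc {d : ℕ} (ϑ : ℝ) (t : Fin d → ℝ) (i : Fin d) :
    full ϑ t i.castSucc = t i := by simp [full]

private theorem continuous_full {d : ℕ} (ϑ : ℝ) :
    Continuous (fun t : Fin d → ℝ => full ϑ t) := by
  refine continuous_pi fun i => ?_
  refine Fin.lastCases ?_ (fun k => ?_) i
  · simp only [full_last]; fun_prop
  · simp only [full_castSucc]; fun_prop

private theorem Ph_continuous (d : ℕ) (ϑ : ℝ) (τ : ℂ) (hτ : ‖τ‖ ≤ 1) {c : ℂ}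
    (hc : c.im ≠ 0 ∨ 2 < c.re ∨ c.re < -2) :
    Continuous (fun t : Fin d → ℝ => Ph τ c (cv (full ϑ t))) := by
  have hseg : ∀ (t : Fin d → ℝ) (i : Fin (d + 1)), c - Complex.cos (cv (full ϑ t) i) ∉ Seg := by
    intro t i
    exact sub_cos_notMem_Seg hc _
  have hcv : ∀ i : Fin (d + 1), Continuous (fun t : Fin d → ℝ => cv (full ϑ t) i) := by
    intro i
    exact Complex.continuous_ofReal.comp ((continuous_apply i).comp (continuous_full ϑ))
  have hWc : ∀ i : Fin (d + 1),
      Continuous (fun t : Fin d → ℝ => W (c - Complex.cos (cv (full ϑ t) i))) := by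
    intro i
    rw [continuous_iff_continuousAt]
    intro t
    have h1 : ContinuousAt W (c - Complex.cos (cv (full ϑ t) i)) :=
      (W_analytic _ (hseg t i)).continuousAt
    have h2 : ContinuousAt (fun t : Fin d → ℝ => c - Complex.cos (cv (full ϑ t) i)) t :=
      (continuous_const.sub (Complex.continuous_cos.comp (hcv i))).continuousAt
    exact ContinuousAt.comp (f := fun t : Fin d → ℝ => c - Complex.cos (cv (full ϑ t) i)) h1 h2
  have hWlt : ∀ (t : Fin d → ℝ) (i : Fin (d + 1)), ‖W (c - Complex.cos (cv (full ϑ t) i))‖ < 1 :=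
    fun t i => norm_W_lt_one (hseg t i)
  have hxc : ∀ i : Fin (d + 1),
      Continuous (fun t : Fin d → ℝ => Complex.exp (I * cv (full ϑ t) i)) := by
    intro i
    exact Complex.continuous_exp.comp (continuous_const.mul (hcv i))
  have hne : ∀ a b : ℂ, ‖a‖ < 1 → ‖b‖ < 1 → 1 - a * b ≠ 0 := by
    intro a b ha hb h0
    have h1 : a * b = 1 := (sub_eq_zero.mp h0).symm
    have h2 : ‖a‖ * ‖b‖ = 1 := by rw [← norm_mul, h1, norm_one]
    nlinarith [norm_nonneg a, norm_nonneg b]
  have hpc : Continuous (fun t : Fin d → ℝ => prodw W c (cv (full ϑ t))) := by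
    unfold prodw
    exact continuous_finsetProd _ fun i _ => hWc i
  have hplt : ∀ t : Fin d → ℝ, ‖prodw W c (cv (full ϑ t))‖ < 1 := by
    intro t
    unfold prodw
    rw [norm_prod, Fin.prod_univ_castSucc]
    have h1 : ∏ i : Fin d, ‖W (c - Complex.cos (cv (full ϑ t) i.castSucc))‖ ≤ 1 :=
      Finset.prod_le_one (fun i _ => norm_nonneg _) (fun i _ => (hWlt t _).le)
    have h2 := hWlt t (Fin.last d)
    have h3 : 0 ≤ ∏ i : Fin d, ‖W (c - Complex.cos (cv (full ϑ t) i.castSucc))‖ :=
      Finset.prod_nonneg fun i _ => norm_nonneg _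
    nlinarith [norm_nonneg (W (c - Complex.cos (cv (full ϑ t) (Fin.last d))))]
  unfold Ph
  refine Continuous.mul ?_ (Continuous.div (by fun_prop) (by fun_prop) ?_)
  · unfold ker
    refine Continuous.mul (continuous_finsetProd _ fun i _ => ?_) ?_
    · refine Continuous.div (continuous_const.mul (hWc i)) (continuous_const.sub ((hWc i).pow 2)) ?_
      intro t
      rw [sq]
      exact hne _ _ (hWlt t i) (hWlt t i)
    · unfold pairs
      refine continuous_finsetProd _ fun i _ => continuous_finsetProd _ fun k _ => ?_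
      unfold HH
      refine Continuous.div ?_ ?_ ?_
      · exact ((((hxc i).sub (hxc k)).pow 2).mul ((hWc i).mul (hWc k))).neg
      · exact ((hxc i).mul (hxc k)).mul ((continuous_const.sub ((hWc i).mul (hWc k))).pow 2)
      · intro t
        exact mul_ne_zero (mul_ne_zero (Complex.exp_ne_zero _) (Complex.exp_ne_zero _))
          (pow_ne_zero 2 (hne _ _ (hWlt t i) (hWlt t k)))
  · intro t h0
    have h1 : τ * prodw W c (cv (full ϑ t)) = 1 := (sub_eq_zero.mp h0).symm
    have h2 : ‖τ‖ * ‖prodw W c (cv (full ϑ t))‖ = 1 := by rw [← norm_mul, h1, norm_one]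
    have := hplt t
    nlinarith [norm_nonneg τ, norm_nonneg (prodw W c (cv (full ϑ t)))]

private theorem exp_two_pi (z : ℂ) (n : ℤ) :
    Complex.exp (I * (z + n * (2 * π))) = Complex.exp (I * z) := by
  rw [mul_add, Complex.exp_add]
  have : I * (n * (2 * π)) = n * (2 * π * I) := by ring
  rw [this, Complex.exp_int_mul_two_pi_mul_I, mul_one]

private theorem Ph_periodic (d : ℕ) (ϑ : ℝ) (τ c : ℂ) (t : Fin d → ℝ) (i : Fin d) :
    Ph τ c (cv (full ϑ (t + Pi.single i (2 * π)))) = Ph τ c (cv (full ϑ t)) := by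
  apply Ph_congr
  intro m
  refine Fin.lastCases ?_ (fun k => ?_) m
  · have h : cv (full ϑ (t + Pi.single i (2 * π))) (Fin.last d) =
        cv (full ϑ t) (Fin.last d) + ((-1 : ℤ) : ℂ) * (2 * π) := by
      simp only [cv, full_last, Pi.add_apply, Finset.sum_add_distrib]
      rw [Finset.sum_pi_single']
      push_cast
      simp
      ring
    rw [h, exp_two_pi]
  · by_cases hk : k = i
    · have h : cv (full ϑ (t + Pi.single i (2 * π))) k.castSucc =
          cv (full ϑ t) k.castSucc + ((1 : ℤ) : ℂ) * (2 * π) := by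
        simp only [cv, full_castSucc, Pi.add_apply]
        rw [hk, Pi.single_eq_same]
        push_cast
        ring
      rw [h, exp_two_pi]
    · have h : cv (full ϑ (t + Pi.single i (2 * π))) k.castSucc = cv (full ϑ t) k.castSucc := by
        simp only [cv, full_castSucc, Pi.add_apply]
        rw [Pi.single_eq_of_ne hk, add_zero]
      rw [h]

/-- Integration over the box is invariant under the shift by `π` in all coordinates. -/
private theorem shift_pi {d : ℕ} (F : (Fin d → ℝ) → ℂ) (hF : Continuous F)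
    (hper : ∀ t i, F (t + Pi.single i (2 * π)) = F t) :
    ∫ t in box d, F (t + fun _ => π) = ∫ t in box d, F t := by
  have h := real_change F hF hper (fun _ _ => π) (fun _ => 0)
    (fun t => hasFDerivAt_const _ _) continuous_const (fun _ _ => rfl)
    (fun t => by simp)
  rw [← h]
  refine setIntegral_congr_fun measurableSet_Icc fun t _ => ?_
  have h1 : Matrix.det (1 + Matrix.of fun i k : Fin d =>
      (0 : (Fin d → ℝ) →L[ℝ] (Fin d → ℝ)) (Pi.single k 1) i) = 1 := by
    have : (Matrix.of fun i k : Fin d =>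
      (0 : (Fin d → ℝ) →L[ℝ] (Fin d → ℝ)) (Pi.single k 1) i) = 0 := by
      ext i k; simp
    rw [this, add_zero, Matrix.det_one]
  simp only [h1]
  simp

/-- Integration over the box is invariant under `t ↦ -t`. -/
private theorem neg_box {d : ℕ} (F : (Fin d → ℝ) → ℂ) :
    ∫ t in box d, F (-t) = ∫ t in box d, F t := by
  have hb : MeasurableSet (box d) := measurableSet_Icc
  rw [← integral_indicator hb, ← integral_indicator hb]
  rw [← integral_neg_eq_self (fun t => (box d).indicator F t)]
  congr 1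
  ext t
  have hmem : -t ∈ box d ↔ t ∈ box d := by
    simp only [box, Set.mem_Icc, Pi.le_def, Pi.neg_apply]
    constructor
    · rintro ⟨h1, h2⟩
      exact ⟨fun i => by linarith [h2 i], fun i => by linarith [h1 i]⟩
    · rintro ⟨h1, h2⟩
      exact ⟨fun i => by linarith [h2 i], fun i => by linarith [h1 i]⟩
  by_cases ht : t ∈ box d
  · rw [Set.indicator_of_mem ht, Set.indicator_of_mem (hmem.mpr ht)]
  · rw [Set.indicator_of_notMem ht, Set.indicator_of_notMem (fun h => ht (hmem.mp h))]

private theorem hc_neg {c : ℂ} (hc : c.im ≠ 0 ∨ 2 < c.re ∨ c.re < -2) :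
    (-c).im ≠ 0 ∨ 2 < (-c).re ∨ (-c).re < -2 := by
  rcases hc with h | h | h
  · left; simpa using h
  · right; right; simp; linarith
  · right; left; simp; linarith

theorem chi_neg (d : ℕ) {c : ℂ} (hc : c.im ≠ 0 ∨ 2 < c.re ∨ c.re < -2) :
    (Even d → chi d 0 (-c) = -chi d π c) ∧ (Odd d → chi d 0 (-c) = chi d 0 c) := by
  have key : ∫ t in box d, Ph (tau 0) (-c) (cv (full 0 t)) =
      ∫ t in box d, Ph (tau 0) (-c) (cv (full 0 (t + fun _ => π))) := by
    rw [shift_pi (fun t => Ph (tau 0) (-c) (cv (full 0 t)))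
      (Ph_continuous d 0 (tau 0) (by rw [tau_zero]; simp) (hc_neg hc))
      (fun t i => Ph_periodic d 0 _ _ t i)]
  constructor
  · intro hd
    rw [chi_eq_Ph, chi_eq_Ph, key]
    have h1 : ∀ t : Fin d → ℝ, Ph (tau 0) (-c) (cv (full 0 (t + fun _ => π))) =
        -Ph (tau π) c (cv (full π t)) := by
      intro t
      rw [Ph_neg (tau 0) c (ψ := cv (full π t)) ?_ (fun i => sub_cos_notMem_Seg hc _)]
      · rw [tau_zero, tau_pi, hd.add_one.neg_one_pow, mul_one, neg_one_mul]
      · intro m
        refine Fin.lastCases ?_ (fun k => ?_) m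
        · obtain ⟨k, hk⟩ := hd
          have hk' : (d : ℂ) = k + k := by exact_mod_cast hk
          have h : cv (full 0 (t + fun _ => π)) (Fin.last d) =
              cv (full π t) (Fin.last d) + π + ((-(k + 1) : ℤ) : ℂ) * (2 * π) := by
            simp only [cv, full_last, Pi.add_apply, Finset.sum_add_distrib, Finset.sum_const,
              Finset.card_univ, Fintype.card_fin, nsmul_eq_mul]
            push_cast
            rw [hk']
            ring
          rw [h, exp_two_pi, exp_I_add_pi]
        · have h : cv (full 0 (t + fun _ => π)) k.castSucc = cv (full π t) k.castSucc + π := by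
            simp only [cv, full_castSucc, Pi.add_apply]
            push_cast
            ring
          rw [h, exp_I_add_pi]
    simp only [h1, integral_neg]
    ring
  · intro hd
    rw [chi_eq_Ph, chi_eq_Ph, key]
    have h1 : ∀ t : Fin d → ℝ, Ph (tau 0) (-c) (cv (full 0 (t + fun _ => π))) =
        Ph (tau 0) c (cv (full 0 t)) := by
      intro t
      rw [Ph_neg (tau 0) c (ψ := cv (full 0 t)) ?_ (fun i => sub_cos_notMem_Seg hc _)]
      · rw [hd.add_one.neg_one_pow, one_mul, one_mul]
      · intro m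
        refine Fin.lastCases ?_ (fun k => ?_) m
        · obtain ⟨k, hk⟩ := hd
          have hk' : (d : ℂ) = 2 * k + 1 := by exact_mod_cast hk
          have h : cv (full 0 (t + fun _ => π)) (Fin.last d) =
              cv (full 0 t) (Fin.last d) + π + ((-(k + 1) : ℤ) : ℂ) * (2 * π) := by
            simp only [cv, full_last, Pi.add_apply, Finset.sum_add_distrib, Finset.sum_const,
              Finset.card_univ, Fintype.card_fin, nsmul_eq_mul]
            push_cast
            rw [hk']
            ring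
          rw [h, exp_two_pi, exp_I_add_pi]
        · have h : cv (full 0 (t + fun _ => π)) k.castSucc = cv (full 0 t) k.castSucc + π := by
            simp only [cv, full_castSucc, Pi.add_apply]
            push_cast
            ring
          rw [h, exp_I_add_pi]
    simp only [h1]

theorem chi_conj (d : ℕ) {ϑ : ℝ} (hϑ : ϑ = 0 ∨ ϑ = π) {c : ℂ}
    (hc : c.im ≠ 0 ∨ 2 < c.re ∨ c.re < -2) :
    chi d ϑ (starRingEnd ℂ c) = starRingEnd ℂ (chi d ϑ c) := by
  have hτ : starRingEnd ℂ (tau ϑ) = tau ϑ := by
    rcases hϑ with h | h <;> rw [h]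
    · rw [tau_zero, map_one]
    · rw [tau_pi, map_neg, map_one]
  rw [chi_eq_Ph, chi_eq_Ph, ← neg_box, map_mul, ← integral_conj]
  have h1 : ∀ t : Fin d → ℝ, Ph (tau ϑ) (starRingEnd ℂ c) (cv (full ϑ (-t))) =
      starRingEnd ℂ (Ph (tau ϑ) c (cv (full ϑ t))) := by
    intro t
    refine Ph_conj (tau ϑ) c hτ ?_ (fun i => sub_cos_notMem_Seg hc _)
    intro m
    refine Fin.lastCases ?_ (fun k => ?_) m
    · have h0 : ∀ x : ℝ, starRingEnd ℂ (Complex.exp (I * (x : ℂ))) = Complex.exp (I * ((-x : ℝ) : ℂ)) := by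
        intro x
        rw [← Complex.exp_conj]
        simp
      simp only [cv]
      rw [h0, full_last, full_last]
      rcases hϑ with h | h
      · rw [h]
        congr 3
        simp [Finset.sum_neg_distrib]
      · rw [h]
        have h2 : ((π - ∑ i, (-t) i : ℝ) : ℂ) =
            ((-(π - ∑ i, t i) : ℝ) : ℂ) + ((1 : ℤ) : ℂ) * (2 * π) := by
          simp only [Pi.neg_apply, Finset.sum_neg_distrib]
          push_cast
          ring
        rw [h2, exp_two_pi]
    · simp only [cv, full_castSucc, Pi.neg_apply]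
      rw [← Complex.exp_conj]
      simp
  simp only [h1]
  congr 1
  rw [map_mul, map_div₀, map_one, map_pow, map_div₀, map_one, map_mul, map_ofNat, conj_ofReal,
    map_natCast]

end

end IsingNB
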