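import Pool.Agent.Helper98.NB.FinalGen
import Pool.Agent.Helper98.NB.PairBound
import Pool.Agent.Helper98.NB.ChiBasic
import Pool.Agent.Helper98.NB.Sym
import Pool.Agent.Helper98.NB.MainC

/-!
# NB-28: the natural boundary in the variable `v`
-/

namespace IsingNB

open Complex Set MeasureTheory Filter Topology
open scoped Real

noncomputable section

/-- the high temperature susceptibility series (times kT) -/
def fHT (v : ℂ) : ℂ := v⁻¹ * (1 - v ^ 4) ^ (1 / 4 : ℂ) * Sodd 0 (v + v⁻¹)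

/-- the low temperature susceptibility series (times kT) -/
def fLT (v : ℂ) : ℂ := (1 - (v⁻¹) ^ 4) ^ (1 / 4 : ℂ) * Seven 0 (v + v⁻¹)

/-! ### The sums in the variable `c` -/

theorem differentiableOn_sum_chi (ϑ : ℝ) (e : ℕ → ℕ) (he : Function.Injective e) :
    DifferentiableOn ℂ (fun c => ∑' k : ℕ, chi (e k) ϑ c) Omc := by
  intro c1 hc1
  obtain ⟨δ, hδ, A, hA, hb⟩ := chi_loc_bound ϑ hc1
  have hU : IsOpen (Metric.ball c1 δ ∩ Omc) := Metric.isOpen_ball.inter isOpen_Omc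
  have hsum : Summable (fun k : ℕ => bd A (e k + 1)) :=
    (summable_bd A).comp_injective (i := fun k => e k + 1)
      (fun a b h => he (Nat.succ_injective h))
  have h1 : DifferentiableOn ℂ (fun c => ∑' k : ℕ, chi (e k) ϑ c) (Metric.ball c1 δ ∩ Omc) :=
    differentiableOn_tsum_of_summable_norm hsum
      (fun k => (chi_diff (e k) ϑ).mono Set.inter_subset_right) hU
      (fun k w hw => hb (e k) w hw.1)
  exact (h1.differentiableAt (hU.mem_nhds ⟨Metric.mem_ball_self hδ, hc1⟩)).differentiableWithinAt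

theorem Sodd_differentiableOn : DifferentiableOn ℂ (Sodd 0) Omc :=
  differentiableOn_sum_chi 0 (fun k => 2 * k) (fun a b h => by simpa using h)

theorem Seven_differentiableOn : DifferentiableOn ℂ (Seven 0) Omc :=
  differentiableOn_sum_chi 0 (fun k => 2 * k + 1) (fun a b h => by simpa using h)

theorem Sodd_conj (c : ℂ) (hc : c.im ≠ 0) :
    Sodd 0 (starRingEnd ℂ c) = starRingEnd ℂ (Sodd 0 c) := by
  unfold Sodd
  rw [Complex.conj_tsum]
  exact tsum_congr fun k => chi_conj (2 * k) (Or.inl rfl) (Or.inl hc)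

theorem Seven_conj (c : ℂ) (hc : c.im ≠ 0) :
    Seven 0 (starRingEnd ℂ c) = starRingEnd ℂ (Seven 0 c) := by
  unfold Seven
  rw [Complex.conj_tsum]
  exact tsum_congr fun k => chi_conj (2 * k + 1) (Or.inl rfl) (Or.inl hc)

theorem Sodd_neg (c : ℂ) (hc : c.im ≠ 0) : Sodd 0 (-c) = (-1) * Sodd π c := by
  unfold Sodd
  rw [neg_one_mul, ← tsum_neg]
  exact tsum_congr fun k => (chi_neg (2 * k) (Or.inl hc)).1 (even_two_mul k)

theorem Seven_neg (c : ℂ) (hc : c.im ≠ 0) : Seven 0 (-c) = 1 * Seven 0 c := by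
  unfold Seven
  rw [one_mul]
  exact tsum_congr fun k => (chi_neg (2 * k + 1) (Or.inl hc)).2 (odd_two_mul_add_one k)

theorem noCont_of {S : ℂ → ℂ} {c1 : ℝ}
    (h : ¬ ∃ δ > 0, ∃ g : ℂ → ℂ, DifferentiableOn ℂ g (Metric.ball (c1 : ℂ) δ) ∧
      ∀ c ∈ Metric.ball (c1 : ℂ) δ, 0 < c.im → g c = S c) : NoCont S c1 1 := by
  rintro ⟨δ, hδ, g, hg, hgS⟩
  exact h ⟨δ, hδ, g, hg, fun c hc him => hgS c hc (by rw [one_mul]; exact him)⟩

theorem Sodd_dense (x y : ℝ) (hxy : x < y) (hx : -2 ≤ x) (hy : y ≤ 2) :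
    ∃ c1 ∈ Ioo x y, c1 ≠ 0 ∧ NoCont2 (Sodd 0) c1 := by
  rcases lt_or_ge 0 y with h | h
  · obtain ⟨p, m, hp, hp7, hm, hmp, hme, hc⟩ :=
      exists_special_cos (le_max_right x 0) (max_lt hxy h) hy 0 (by norm_num)
    refine ⟨_, ⟨(le_max_left _ _).trans_lt hc.1, hc.2⟩,
      ((le_max_right x 0).trans_lt hc.1).ne', ?_⟩
    have h1 := noCont_of (Sodd_no_continuation hp hp7 hm hmp
      (Or.inl ⟨rfl, Nat.even_iff.2 hme⟩))
    exact h1.both (Or.inl rfl) Sodd_conj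
  · obtain ⟨p, m, hp, hp7, hm, hmp, hme, hc⟩ :=
      exists_special_cos (x := -y) (y := -x) (by linarith) (by linarith) (by linarith) 1 le_rfl
    refine ⟨-(2 * Real.cos (π * m / p)), ⟨by linarith [hc.2], by linarith [hc.1]⟩, ?_, ?_⟩
    · intro h0
      have := hc.1
      linarith
    · have h1 := noCont_of (Sodd_no_continuation hp hp7 hm hmp
        (Or.inr ⟨rfl, Nat.odd_iff.2 hme⟩))
      have h2 : NoCont (Sodd 0) (-(2 * Real.cos (π * m / p))) (-1) :=
        h1.neg (k := -1) (by norm_num) Sodd_neg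
      exact h2.both (Or.inr rfl) Sodd_conj

theorem Seven_dense (x y : ℝ) (hxy : x < y) (hx : -2 ≤ x) (hy : y ≤ 2) :
    ∃ c1 ∈ Ioo x y, c1 ≠ 0 ∧ NoCont2 (Seven 0) c1 := by
  rcases lt_or_ge 0 y with h | h
  · obtain ⟨p, m, hp, hp7, hm, hmp, hme, hc⟩ :=
      exists_special_cos (le_max_right x 0) (max_lt hxy h) hy 0 (by norm_num)
    refine ⟨_, ⟨(le_max_left _ _).trans_lt hc.1, hc.2⟩,
      ((le_max_right x 0).trans_lt hc.1).ne', ?_⟩
    have h1 := noCont_of (Seven_no_continuation hp hp7 hm hmp)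
    exact h1.both (Or.inl rfl) Seven_conj
  · obtain ⟨p, m, hp, hp7, hm, hmp, hme, hc⟩ :=
      exists_special_cos (x := -y) (y := -x) (by linarith) (by linarith) (by linarith) 1 le_rfl
    refine ⟨-(2 * Real.cos (π * m / p)), ⟨by linarith [hc.2], by linarith [hc.1]⟩, ?_, ?_⟩
    · intro h0
      have := hc.1
      linarith
    · have h1 := noCont_of (Seven_no_continuation hp hp7 hm hmp)
      have h2 : NoCont (Seven 0) (-(2 * Real.cos (π * m / p))) (-1) :=
        h1.neg (k := 1) (by norm_num) Seven_neg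
      exact h2.both (Or.inr rfl) Seven_conj

/-! ### The prefactor -/

theorem pre_analyticAt {v : ℂ} (hv : ‖v‖ ≤ 1) (h4 : v ^ 4 ≠ 1) :
    AnalyticAt ℂ (fun v : ℂ => (1 - v ^ 4) ^ (1 / 4 : ℂ)) v ∧
      (1 - v ^ 4) ^ (1 / 4 : ℂ) ≠ 0 := by
  constructor
  · have h1 : AnalyticAt ℂ (fun v : ℂ => 1 - v ^ 4) v := by fun_prop
    apply h1.cpow analyticAt_const
    apply one_sub_mem_slitPlane _ h4
    rw [norm_pow]
    exact pow_le_one₀ (norm_nonneg v) hv
  · rw [Ne, Complex.cpow_eq_zero_iff]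
    rintro ⟨h, -⟩
    exact h4 (by linear_combination -h)

theorem pow_four_ne_one {v : ℂ} (hv : ‖v‖ < 1) : v ^ 4 ≠ 1 := by
  intro h
  have h1 : ‖v ^ 4‖ = 1 := by rw [h, norm_one]
  rw [norm_pow] at h1
  have h2 : ‖v‖ ^ 4 < 1 := pow_lt_one₀ (norm_nonneg v) hv (by norm_num)
  linarith

theorem fHT_natural_boundary :
    DifferentiableOn ℂ fHT {v | v ≠ 0 ∧ ‖v‖ < 1} ∧
    ∀ v0 : ℂ, ‖v0‖ = 1 → ¬ ∃ δ > 0, ∃ g : ℂ → ℂ, DifferentiableOn ℂ g (Metric.ball v0 δ) ∧
      ∀ v ∈ Metric.ball v0 δ, ‖v‖ < 1 → g v = fHT v := by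
  constructor
  · rintro v ⟨hv0, hv1⟩
    have h1 : DifferentiableAt ℂ (fun v : ℂ => v⁻¹) v := differentiableAt_inv hv0
    have h2 := (pre_analyticAt hv1.le (pow_four_ne_one hv1)).1.differentiableAt
    have hmem := add_inv_mem_Omc hv0 hv1.ne
    have h3 : DifferentiableAt ℂ (Sodd 0) (v + v⁻¹) :=
      Sodd_differentiableOn.differentiableAt (isOpen_Omc.mem_nhds hmem)
    have h4 : DifferentiableAt ℂ (fun v : ℂ => Sodd 0 (v + v⁻¹)) v :=
      DifferentiableAt.comp (g := Sodd 0) (f := fun v : ℂ => v + v⁻¹) v h3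
        (differentiableAt_id.add h1)
    exact ((h1.mul h2).mul h4).differentiableWithinAt
  · intro v0 hv0
    refine no_cont_inside (P := fun v => v⁻¹ * (1 - v ^ 4) ^ (1 / 4 : ℂ)) Sodd_dense ?_ v0 hv0
    intro v hv h4
    have h0 : v ≠ 0 := by
      rintro rfl
      simp at hv
    obtain ⟨h1, h2⟩ := pre_analyticAt hv.le h4
    exact ⟨(analyticAt_inv h0).mul h1, mul_ne_zero (inv_ne_zero h0) h2⟩

theorem fLT_natural_boundary :
    DifferentiableOn ℂ fLT {v | 1 < ‖v‖} ∧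
    ∀ v0 : ℂ, ‖v0‖ = 1 → ¬ ∃ δ > 0, ∃ g : ℂ → ℂ, DifferentiableOn ℂ g (Metric.ball v0 δ) ∧
      ∀ v ∈ Metric.ball v0 δ, 1 < ‖v‖ → g v = fLT v := by
  constructor
  · intro v hv
    have hv1 : 1 < ‖v‖ := hv
    have hv0 : v ≠ 0 := by
      rintro rfl
      rw [norm_zero] at hv1
      linarith
    have h1 : DifferentiableAt ℂ (fun v : ℂ => v⁻¹) v := differentiableAt_inv hv0
    have hi : ‖v⁻¹‖ < 1 := by
      rw [norm_inv]
      exact inv_lt_one_of_one_lt₀ hv1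
    have h2' := (pre_analyticAt hi.le (pow_four_ne_one hi)).1.differentiableAt
    have h2 : DifferentiableAt ℂ (fun v : ℂ => (1 - (v⁻¹) ^ 4) ^ (1 / 4 : ℂ)) v :=
      DifferentiableAt.comp (g := fun v : ℂ => (1 - v ^ 4) ^ (1 / 4 : ℂ))
        (f := fun v : ℂ => v⁻¹) v h2' h1
    have hmem := add_inv_mem_Omc hv0 hv1.ne'
    have h3 : DifferentiableAt ℂ (Seven 0) (v + v⁻¹) :=
      Seven_differentiableOn.differentiableAt (isOpen_Omc.mem_nhds hmem)
    have h4 : DifferentiableAt ℂ (fun v : ℂ => Seven 0 (v + v⁻¹)) v :=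
      DifferentiableAt.comp (g := Seven 0) (f := fun v : ℂ => v + v⁻¹) v h3
        (differentiableAt_id.add h1)
    exact (h2.mul h4).differentiableWithinAt
  · intro v0 hv0
    exact no_cont_outside (P := fun v => (1 - v ^ 4) ^ (1 / 4 : ℂ)) Seven_dense
      (fun v hv h4 => pre_analyticAt hv.le h4) v0 hv0

end

end IsingNB
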