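import Pool.Agent.Helper98.NB.Defs

/-!
# NB-28, part 1: general lemmas for the passage from the variable `c = v + 1/v` to `v`
-/

namespace IsingNB

open Complex Set MeasureTheory Filter Topology
open scoped Real

noncomputable section

/-- `S` has no analytic continuation at the real point `c1` from the side `s` (`s = 1`: from the
upper half plane, `s = -1`: from the lower half plane). -/
def NoCont (S : ℂ → ℂ) (c1 s : ℝ) : Prop :=
  ¬ ∃ δ > 0, ∃ g : ℂ → ℂ, DifferentiableOn ℂ g (Metric.ball (c1 : ℂ) δ) ∧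
      ∀ c ∈ Metric.ball (c1 : ℂ) δ, 0 < s * c.im → g c = S c

/-- `c1` is a singular point of `S` from both sides. -/
def NoCont2 (S : ℂ → ℂ) (c1 : ℝ) : Prop := ∀ s : ℝ, s = 1 ∨ s = -1 → NoCont S c1 s

theorem NoCont.conj {S : ℂ → ℂ} {c1 s : ℝ}
    (hS : ∀ c : ℂ, c.im ≠ 0 → S (starRingEnd ℂ c) = starRingEnd ℂ (S c)) (h : NoCont S c1 s) :
    NoCont S c1 (-s) := by
  rintro ⟨δ, hδ, g, hg, hgS⟩
  have hball : ∀ c : ℂ, c ∈ Metric.ball (c1 : ℂ) δ → starRingEnd ℂ c ∈ Metric.ball (c1 : ℂ) δ := by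
    intro c hc
    rw [Metric.mem_ball, dist_eq_norm] at hc ⊢
    have : starRingEnd ℂ c - (c1 : ℂ) = starRingEnd ℂ (c - c1) := by simp
    rw [this, RCLike.norm_conj]
    exact hc
  refine h ⟨δ, hδ, fun c => starRingEnd ℂ (g (starRingEnd ℂ c)), ?_, ?_⟩
  · intro c hc
    have h1 : DifferentiableAt ℂ g (starRingEnd ℂ c) :=
      (hg _ (hball c hc)).differentiableAt (Metric.isOpen_ball.mem_nhds (hball c hc))
    have h2 := h1.conj_conj
    rw [Complex.conj_conj] at h2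
    exact h2.differentiableWithinAt
  · intro c hc him
    have hne : c.im ≠ 0 := by
      intro h0
      rw [h0, mul_zero] at him
      exact lt_irrefl _ him
    have h1 := hgS _ (hball c hc) (by rw [Complex.conj_im]; linarith)
    simp only
    rw [h1, hS c hne, Complex.conj_conj]

theorem NoCont.both {S : ℂ → ℂ} {c1 s : ℝ} (hs : s = 1 ∨ s = -1)
    (hS : ∀ c : ℂ, c.im ≠ 0 → S (starRingEnd ℂ c) = starRingEnd ℂ (S c)) (h : NoCont S c1 s) :
    NoCont2 S c1 := by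
  have h' := h.conj hS
  rintro s' hs'
  rcases hs with rfl | rfl <;> rcases hs' with rfl | rfl
  · exact h
  · exact h'
  · simpa using h'
  · exact h

theorem NoCont.neg {S T : ℂ → ℂ} {k : ℂ} {c1 s : ℝ} (hk : k ≠ 0)
    (hST : ∀ c : ℂ, c.im ≠ 0 → S (-c) = k * T c) (h : NoCont T c1 s) :
    NoCont S (-c1) (-s) := by
  rintro ⟨δ, hδ, g, hg, hgS⟩
  have hball : ∀ c : ℂ, c ∈ Metric.ball (c1 : ℂ) δ → -c ∈ Metric.ball ((-c1 : ℝ) : ℂ) δ := by
    intro c hc
    rw [Metric.mem_ball, dist_eq_norm] at hc ⊢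
    have : -c - ((-c1 : ℝ) : ℂ) = -(c - c1) := by push_cast; ring
    rw [this, norm_neg]
    exact hc
  refine h ⟨δ, hδ, fun c => k⁻¹ * g (-c), ?_, ?_⟩
  · intro c hc
    have h1 : DifferentiableAt ℂ g (-c) :=
      (hg _ (hball c hc)).differentiableAt (Metric.isOpen_ball.mem_nhds (hball c hc))
    have h2 : DifferentiableAt ℂ (fun c : ℂ => k⁻¹ * g (-c)) c :=
      (DifferentiableAt.comp (g := g) (f := fun c : ℂ => -c) c h1 differentiableAt_id.neg).const_mul _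
    exact h2.differentiableWithinAt
  · intro c hc him
    have hne : c.im ≠ 0 := by
      intro h0
      rw [h0, mul_zero] at him
      exact lt_irrefl _ him
    have h1 := hgS _ (hball c hc) (by rw [Complex.neg_im]; linarith)
    simp only
    rw [h1, hST c hne, inv_mul_cancel_left₀ hk]

/-! ### Density of the special points -/

theorem exists_special {a b : ℝ} (ha : 0 ≤ a) (hab : a < b) (hb : b ≤ π / 2) (ε : ℕ) (hε : ε ≤ 1) :
    ∃ p m : ℕ, p.Prime ∧ 7 ≤ p ∧ 0 < m ∧ 2 * m < p ∧ m % 2 = ε ∧ a < π * m / p ∧ π * m / p < b := by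
  have hπ := Real.pi_pos
  obtain ⟨N, hN⟩ := exists_nat_gt (3 * π / (b - a))
  obtain ⟨p, hp, hpp⟩ := Nat.exists_infinite_primes (max N 7)
  have hpN : N ≤ p := le_trans (le_max_left _ _) hp
  have hp7 : 7 ≤ p := le_trans (le_max_right _ _) hp
  have hba : 0 < b - a := sub_pos.2 hab
  have hp0 : (0 : ℝ) < p := by exact_mod_cast hpp.pos
  have h1 : 3 * π < (b - a) * p := by
    have h2 : 3 * π < (b - a) * N := by
      rw [div_lt_iff₀ hba] at hN
      linarith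
    have h3 : (N : ℝ) ≤ p := by exact_mod_cast hpN
    nlinarith
  set k : ℕ := ⌊a * p / (2 * π)⌋₊ + 1 with hk
  have hk1 : a * p / (2 * π) < k := by
    rw [hk]
    push_cast
    exact Nat.lt_floor_add_one _
  have hk2 : (k : ℝ) ≤ a * p / (2 * π) + 1 := by
    rw [hk]
    push_cast
    have := Nat.floor_le (a := a * p / (2 * π)) (by positivity)
    linarith
  have hk1' : a * p < 2 * π * k := by
    rw [div_lt_iff₀ (by positivity)] at hk1
    linarith
  have hk2' : 2 * π * k ≤ a * p + 2 * π := by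
    have h4 : 2 * π * (a * p / (2 * π)) = a * p := by field_simp
    nlinarith
  have hε' : (ε : ℝ) ≤ 1 := by exact_mod_cast hε
  have hε0 : (0 : ℝ) ≤ ε := by positivity
  have hA : a * p < π * ((2 * k + ε : ℕ) : ℝ) := by
    push_cast
    nlinarith
  have hB : π * ((2 * k + ε : ℕ) : ℝ) < b * p := by
    push_cast
    nlinarith
  refine ⟨p, 2 * k + ε, hpp, hp7, by omega, ?_, by omega, ?_, ?_⟩
  · have h5 : π * ((2 * k + ε : ℕ) : ℝ) < π / 2 * p := lt_of_lt_of_le hB (by nlinarith)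
    have h6 : (2 * ((2 * k + ε : ℕ) : ℝ)) < p := by
      nlinarith
    exact_mod_cast h6
  · rw [lt_div_iff₀ hp0]
    exact hA
  · rw [div_lt_iff₀ hp0]
    exact hB

/-- In the variable `c`. -/
theorem exists_special_cos {x y : ℝ} (hx : 0 ≤ x) (hxy : x < y) (hy : y ≤ 2) (ε : ℕ) (hε : ε ≤ 1) :
    ∃ p m : ℕ, p.Prime ∧ 7 ≤ p ∧ 0 < m ∧ 2 * m < p ∧ m % 2 = ε ∧
      2 * Real.cos (π * m / p) ∈ Ioo x y := by
  have h1 : Real.arccos (y / 2) < Real.arccos (x / 2) := by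
    apply Real.arccos_lt_arccos <;> linarith
  have h2 : Real.arccos (x / 2) ≤ π / 2 := Real.arccos_le_pi_div_two.2 (by linarith)
  obtain ⟨p, m, hp, hp7, hm, hmp, hme, h3, h4⟩ :=
    exists_special (Real.arccos_nonneg _) h1 h2 ε hε
  refine ⟨p, m, hp, hp7, hm, hmp, hme, ?_, ?_⟩
  · have h5 : Real.cos (Real.arccos (x / 2)) < Real.cos (π * m / p) := by
      apply Real.cos_lt_cos_of_nonneg_of_le_pi _ (Real.arccos_le_pi _) h4
      exact (Real.arccos_nonneg _).trans h3.le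
    rw [Real.cos_arccos (by linarith) (by linarith)] at h5
    linarith
  · have h5 : Real.cos (π * m / p) < Real.cos (Real.arccos (y / 2)) := by
      apply Real.cos_lt_cos_of_nonneg_of_le_pi (Real.arccos_nonneg _) _ h3
      exact h4.le.trans (Real.arccos_le_pi _)
    rw [Real.cos_arccos (by linarith) (by linarith)] at h5
    linarith

/-! ### The local inverse of `v ↦ v + 1/v` -/

/-- The branches of the inverse of `v ↦ v + 1/v` near the segment `(-2, 2)`. -/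
def vinv (σ : ℝ) (c : ℂ) : ℂ := (c + I * σ * (4 - c ^ 2) ^ (1 / 2 : ℂ)) / 2

theorem vinv_mul {σ : ℝ} (hσ : σ = 1 ∨ σ = -1) (c : ℂ) : vinv σ c * (c - vinv σ c) = 1 := by
  have h1 : ((4 - c ^ 2) ^ (1 / 2 : ℂ)) ^ 2 = 4 - c ^ 2 := by
    rw [show (1 / 2 : ℂ) = ((2 : ℕ) : ℂ)⁻¹ by norm_num]
    exact Complex.cpow_nat_inv_pow _ two_ne_zero
  have h2 : ((σ : ℝ) : ℂ) ^ 2 = 1 := by
    rcases hσ with rfl | rfl <;> norm_num
  unfold vinv
  have h3 : I ^ 2 = -1 := Complex.I_sq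
  linear_combination (-(1 / 4 : ℂ) * I ^ 2 * (σ : ℂ) ^ 2) * h1 +
    (-(1 / 4 : ℂ) * I ^ 2 * (4 - c ^ 2)) * h2 + (-(1 / 4 : ℂ) * (4 - c ^ 2)) * h3

theorem vinv_ne_zero {σ : ℝ} (hσ : σ = 1 ∨ σ = -1) (c : ℂ) : vinv σ c ≠ 0 := by
  intro h
  have := vinv_mul hσ c
  rw [h, zero_mul] at this
  exact zero_ne_one this

theorem vinv_add_inv {σ : ℝ} (hσ : σ = 1 ∨ σ = -1) (c : ℂ) : vinv σ c + (vinv σ c)⁻¹ = c := by
  have h0 := vinv_ne_zero hσ c
  have h1 := vinv_mul hσ c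
  have h2 : (vinv σ c)⁻¹ = c - vinv σ c := inv_eq_of_mul_eq_one_right h1
  rw [h2]
  ring

theorem vinv_at {θ : ℝ} {σ : ℝ} (hσ : σ = 1 ∨ σ = -1) (hs : 0 < σ * Real.sin θ) :
    vinv σ ((2 * Real.cos θ : ℝ) : ℂ) = Complex.exp (I * θ) := by
  have h1 : (4 - ((2 * Real.cos θ : ℝ) : ℂ) ^ 2) ^ (1 / 2 : ℂ) = ((2 * (σ * Real.sin θ) : ℝ) : ℂ) := by
    have h2 : (4 - ((2 * Real.cos θ : ℝ) : ℂ) ^ 2) = (((2 * (σ * Real.sin θ)) ^ 2 : ℝ) : ℂ) := by
      have h3 : (2 * (σ * Real.sin θ)) ^ 2 = 4 - (2 * Real.cos θ) ^ 2 := by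
        have h4 := Real.sin_sq_add_cos_sq θ
        have h5 : σ ^ 2 = 1 := by rcases hσ with rfl | rfl <;> norm_num
        nlinarith
      rw [h3]
      push_cast
      ring
    rw [h2, show (1 / 2 : ℂ) = ((1 / 2 : ℝ) : ℂ) by push_cast; ring,
      ← Complex.ofReal_cpow (by positivity), ← Real.sqrt_eq_rpow, Real.sqrt_sq (by positivity)]
  have h5 : ((σ : ℝ) : ℂ) ^ 2 = 1 := by rcases hσ with rfl | rfl <;> norm_num
  unfold vinv
  rw [h1, mul_comm I (θ : ℂ), Complex.exp_mul_I]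
  push_cast
  linear_combination (I * Complex.sin θ) * h5

theorem vinv_analyticAt {θ : ℝ} (hs : Real.sin θ ≠ 0) (σ : ℝ) :
    AnalyticAt ℂ (vinv σ) ((2 * Real.cos θ : ℝ) : ℂ) := by
  unfold vinv
  have h1 : AnalyticAt ℂ (fun c : ℂ => 4 - c ^ 2) ((2 * Real.cos θ : ℝ) : ℂ) := by fun_prop
  have h2 : (4 - ((2 * Real.cos θ : ℝ) : ℂ) ^ 2) ∈ slitPlane := by
    have h3 : (4 - ((2 * Real.cos θ : ℝ) : ℂ) ^ 2) = ((4 * Real.sin θ ^ 2 : ℝ) : ℂ) := by
      have h4 : 4 * Real.sin θ ^ 2 = 4 - (2 * Real.cos θ) ^ 2 := by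
        have := Real.sin_sq_add_cos_sq θ
        nlinarith
      rw [h4]
      push_cast
      ring
    rw [h3, Complex.ofReal_mem_slitPlane]
    positivity
  have h3 : AnalyticAt ℂ (fun c : ℂ => (4 - c ^ 2) ^ (1 / 2 : ℂ)) ((2 * Real.cos θ : ℝ) : ℂ) :=
    h1.cpow analyticAt_const h2
  exact (((analyticAt_id).add (analyticAt_const.mul h3)).div_const)

theorem norm_lt_one_of_im {σ : ℝ} {v : ℂ} (hv : 0 < σ * v.im)
    (hc : σ * (v + v⁻¹).im < 0) : ‖v‖ < 1 := by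
  have h0 : v ≠ 0 := by
    rintro rfl
    simp at hv
  have hn : 0 < Complex.normSq v := Complex.normSq_pos.2 h0
  rw [Complex.add_im, Complex.inv_im] at hc
  have h1 : σ * (v.im + -v.im / Complex.normSq v) =
      (σ * v.im) * ((Complex.normSq v - 1) / Complex.normSq v) := by
    field_simp
    ring
  rw [h1] at hc
  have h2 : (Complex.normSq v - 1) / Complex.normSq v < 0 := by
    by_contra h3
    push Not at h3
    have := mul_nonneg hv.le h3
    linarith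
  have h3 : Complex.normSq v < 1 := by
    rw [div_lt_iff₀ hn] at h2
    linarith
  rw [Complex.normSq_eq_norm_sq] at h3
  have h4 := norm_nonneg v
  nlinarith

/-! ### The transfer -/

theorem no_cont_inside {S P : ℂ → ℂ}
    (hS : ∀ x y : ℝ, x < y → -2 ≤ x → y ≤ 2 → ∃ c1 ∈ Ioo x y, c1 ≠ 0 ∧ NoCont2 S c1)
    (hP : ∀ v : ℂ, ‖v‖ = 1 → v ^ 4 ≠ 1 → AnalyticAt ℂ P v ∧ P v ≠ 0) (v0 : ℂ) (hv0 : ‖v0‖ = 1) :
    ¬ ∃ δ > 0, ∃ g : ℂ → ℂ, DifferentiableOn ℂ g (Metric.ball v0 δ) ∧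
      ∀ v ∈ Metric.ball v0 δ, ‖v‖ < 1 → g v = P v * S (v + v⁻¹) := by
  rintro ⟨δ, hδ, g, hg, hgS⟩
  obtain ⟨θ0, hθ0⟩ : ∃ θ0 : ℝ, v0 = Complex.exp (I * θ0) := by
    refine ⟨v0.arg, ?_⟩
    have := Complex.norm_mul_exp_arg_mul_I v0
    rw [hv0] at this
    rw [mul_comm I]
    simpa using this.symm
  -- an arc in the ball
  have hcont : Continuous (fun θ : ℝ => Complex.exp (I * θ)) := by fun_prop
  have hopen : IsOpen ((fun θ : ℝ => Complex.exp (I * θ)) ⁻¹' Metric.ball v0 δ) :=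
    Metric.isOpen_ball.preimage hcont
  have hmem : θ0 ∈ ((fun θ : ℝ => Complex.exp (I * θ)) ⁻¹' Metric.ball v0 δ) := by
    show Complex.exp (I * θ0) ∈ Metric.ball v0 δ
    rw [← hθ0]
    exact Metric.mem_ball_self hδ
  obtain ⟨η, hη, hηs⟩ := Metric.isOpen_iff.1 hopen θ0 hmem
  -- two points of the arc with different cosines
  obtain ⟨θa, θb, ha, hb, hab, hcos⟩ : ∃ θa θb : ℝ, θa ∈ Metric.ball θ0 η ∧ θb ∈ Metric.ball θ0 η ∧
      θa < θb ∧ Real.cos θa ≠ Real.cos θb := by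
    by_contra hcon
    push Not at hcon
    have hbt : ∀ t : ℝ, |t| < η → θ0 + t ∈ Metric.ball θ0 η := fun t ht => by
      rw [Metric.mem_ball, Real.dist_eq]
      simpa using ht
    set t : ℝ := min (η / 2) 1 with ht
    have ht0 : 0 < t := lt_min (by linarith) one_pos
    have htη : t < η := lt_of_le_of_lt (min_le_left _ _) (by linarith)
    have ht1 : t ≤ 1 := min_le_right _ _
    have h1 := hcon (θ0 + 0) (θ0 + t) (hbt 0 (by simpa using hη))
      (hbt t (by rw [abs_of_pos ht0]; exact htη)) (by linarith)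
    have h2 := hcon (θ0 + -t) (θ0 + 0) (hbt (-t) (by rw [abs_neg, abs_of_pos ht0]; exact htη))
      (hbt 0 (by simpa using hη)) (by linarith)
    rw [Real.cos_add, Real.cos_add, Real.cos_zero, Real.sin_zero] at h1
    rw [Real.cos_add, Real.cos_add, Real.cos_neg, Real.sin_neg, Real.cos_zero, Real.sin_zero] at h2
    have hst : 0 < Real.sin t := Real.sin_pos_of_pos_of_lt_pi ht0 (by linarith [Real.pi_gt_three])
    have hct : Real.cos t < 1 := by
      have h3 := Real.sin_sq_add_cos_sq t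
      have h4 : 0 < Real.sin t ^ 2 := by positivity
      nlinarith [Real.cos_le_one t]
    have h5 : Real.sin θ0 * Real.sin t = 0 := by linarith
    have h6 : Real.sin θ0 = 0 := (mul_eq_zero.1 h5).resolve_right hst.ne'
    have h7 : Real.cos θ0 * (1 - Real.cos t) = 0 := by
      rw [h6] at h1
      linarith
    have h8 : Real.cos θ0 = 0 := (mul_eq_zero.1 h7).resolve_right (by linarith)
    have h9 := Real.sin_sq_add_cos_sq θ0
    rw [h6, h8] at h9
    norm_num at h9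
  obtain ⟨x, y, hxy, hx2, hy2, hivt⟩ : ∃ x y : ℝ, x < y ∧ -2 ≤ x ∧ y ≤ 2 ∧
      ∀ c1 ∈ Ioo x y, ∃ θ ∈ Icc θa θb, 2 * Real.cos θ = c1 := by
    have hc : ContinuousOn (fun θ : ℝ => 2 * Real.cos θ) (Icc θa θb) := by fun_prop
    rcases lt_or_gt_of_ne hcos with h | h
    · refine ⟨2 * Real.cos θa, 2 * Real.cos θb, by linarith, by linarith [Real.neg_one_le_cos θa],
        by linarith [Real.cos_le_one θb], fun c1 hc1 => ?_⟩
      obtain ⟨θ, hθ, h1⟩ := intermediate_value_Icc hab.le hc (Ioo_subset_Icc_self hc1)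
      exact ⟨θ, hθ, h1⟩
    · refine ⟨2 * Real.cos θb, 2 * Real.cos θa, by linarith, by linarith [Real.neg_one_le_cos θb],
        by linarith [Real.cos_le_one θa], fun c1 hc1 => ?_⟩
      obtain ⟨θ, hθ, h1⟩ := intermediate_value_Icc' hab.le hc (Ioo_subset_Icc_self hc1)
      exact ⟨θ, hθ, h1⟩
  obtain ⟨c1, hc1, hc10, hno⟩ := hS x y hxy hx2 hy2
  obtain ⟨θ, hθ, hθc⟩ := hivt c1 hc1
  have hθball : θ ∈ Metric.ball θ0 η := by
    rw [Metric.mem_ball, Real.dist_eq, abs_lt] at ha hb ⊢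
    constructor <;> linarith [hθ.1, hθ.2, ha.1, ha.2, hb.1, hb.2]
  have hv1 : Complex.exp (I * θ) ∈ Metric.ball v0 δ := hηs hθball
  have hsin : Real.sin θ ≠ 0 := by
    intro h
    have h1 := Real.sin_sq_add_cos_sq θ
    rw [h] at h1
    have h2 : c1 ^ 2 < 4 := by
      have h3 : -2 < c1 := lt_of_le_of_lt hx2 hc1.1
      have h4 : c1 < 2 := lt_of_lt_of_le hc1.2 hy2
      nlinarith
    rw [← hθc] at h2
    nlinarith
  obtain ⟨σ, hσ, hσs⟩ : ∃ σ : ℝ, (σ = 1 ∨ σ = -1) ∧ 0 < σ * Real.sin θ := by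
    rcases lt_or_gt_of_ne hsin with h | h
    · exact ⟨-1, Or.inr rfl, by linarith⟩
    · exact ⟨1, Or.inl rfl, by linarith⟩
  have hn1 : ‖Complex.exp (I * θ)‖ = 1 := by
    rw [mul_comm]
    exact Complex.norm_exp_ofReal_mul_I θ
  have h4 : Complex.exp (I * θ) ^ 4 ≠ 1 := by
    intro h
    have h5 : (Complex.exp (I * θ) ^ 2 - 1) * (Complex.exp (I * θ) ^ 2 + 1) = 0 := by
      linear_combination h
    have h6 : Complex.exp (I * θ) ^ 2 = Complex.exp (((2 * θ : ℝ) : ℂ) * I) := by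
      rw [← Complex.exp_nat_mul]
      congr 1
      push_cast
      ring
    have him : (Complex.exp (I * θ) ^ 2).im = Real.sin (2 * θ) := by
      rw [h6, Complex.exp_ofReal_mul_I_im]
    have h7 : Real.sin (2 * θ) ≠ 0 := by
      rw [Real.sin_two_mul]
      have : Real.cos θ ≠ 0 := by
        intro h
        rw [h, mul_zero] at hθc
        exact hc10 hθc.symm
      positivity
    rcases mul_eq_zero.1 h5 with h | h
    · have : Complex.exp (I * θ) ^ 2 = 1 := by linear_combination h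
      rw [this, Complex.one_im] at him
      exact h7 him.symm
    · have : Complex.exp (I * θ) ^ 2 = -1 := by linear_combination h
      rw [this, Complex.neg_im, Complex.one_im, neg_zero] at him
      exact h7 him.symm
  obtain ⟨hPa, hP0⟩ := hP _ hn1 h4
  have hva := vinv_analyticAt hsin σ
  have hvat := vinv_at hσ hσs
  rw [hθc] at hva hvat
  -- the function `G`
  have hga : AnalyticAt ℂ g (Complex.exp (I * θ)) :=
    (hg.analyticOnNhd Metric.isOpen_ball) _ hv1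
  have hG1 : AnalyticAt ℂ (fun c => g (vinv σ c)) c1 := by
    apply AnalyticAt.fun_comp _ hva
    rw [hvat]
    exact hga
  have hG2 : AnalyticAt ℂ (fun c => P (vinv σ c)) c1 := by
    apply AnalyticAt.fun_comp _ hva
    rw [hvat]
    exact hPa
  have hG : AnalyticAt ℂ (fun c => g (vinv σ c) / P (vinv σ c)) c1 := by
    apply hG1.fun_div hG2
    rw [hvat]
    exact hP0
  have hcv : ContinuousAt (vinv σ) c1 := hva.continuousAt
  have e1 : ∀ᶠ c in 𝓝 (c1 : ℂ), vinv σ c ∈ Metric.ball v0 δ := by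
    apply hcv.eventually
    rw [hvat]
    exact Metric.isOpen_ball.mem_nhds hv1
  have e2 : ∀ᶠ c in 𝓝 (c1 : ℂ), 0 < σ * (vinv σ c).im := by
    have h5 : ContinuousAt (fun c => σ * (vinv σ c).im) (c1 : ℂ) :=
      continuousAt_const.mul (Complex.continuous_im.continuousAt.comp hcv)
    apply h5.eventually (IsOpen.mem_nhds (isOpen_lt continuous_const continuous_id) _)
    show 0 < σ * (vinv σ c1).im
    rw [hvat, mul_comm I, Complex.exp_ofReal_mul_I_im]
    exact hσs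
  have e3 : ∀ᶠ c in 𝓝 (c1 : ℂ), P (vinv σ c) ≠ 0 := by
    apply hG2.continuousAt.eventually_ne
    show P (vinv σ c1) ≠ 0
    rw [hvat]
    exact hP0
  have e4 := hG.eventually_analyticAt
  obtain ⟨ρ, hρ, hball⟩ := Metric.eventually_nhds_iff_ball.1 (e1.and (e2.and (e3.and e4)))
  have hσ' : -σ = 1 ∨ -σ = -1 := by
    rcases hσ with rfl | rfl
    · right; rfl
    · left; norm_num
  refine hno (-σ) hσ' ⟨ρ, hρ, fun c => g (vinv σ c) / P (vinv σ c), ?_, ?_⟩
  · intro c hc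
    exact (hball c hc).2.2.2.differentiableAt.differentiableWithinAt
  · intro c hc him
    obtain ⟨f1, f2, f3, -⟩ := hball c hc
    have f4 : ‖vinv σ c‖ < 1 := by
      apply norm_lt_one_of_im f2
      rw [vinv_add_inv hσ]
      linarith
    have f5 := hgS _ f1 f4
    rw [vinv_add_inv hσ] at f5
    simp only
    rw [f5, mul_div_cancel_left₀ _ f3]

/-- From outside the unit circle. -/
theorem no_cont_outside {S P : ℂ → ℂ}
    (hS : ∀ x y : ℝ, x < y → -2 ≤ x → y ≤ 2 → ∃ c1 ∈ Ioo x y, c1 ≠ 0 ∧ NoCont2 S c1)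
    (hP : ∀ v : ℂ, ‖v‖ = 1 → v ^ 4 ≠ 1 → AnalyticAt ℂ P v ∧ P v ≠ 0) (v0 : ℂ) (hv0 : ‖v0‖ = 1) :
    ¬ ∃ δ > 0, ∃ g : ℂ → ℂ, DifferentiableOn ℂ g (Metric.ball v0 δ) ∧
      ∀ v ∈ Metric.ball v0 δ, 1 < ‖v‖ → g v = P v⁻¹ * S (v + v⁻¹) := by
  rintro ⟨δ, hδ, g, hg, hgS⟩
  have hv00 : v0 ≠ 0 := by
    rintro rfl
    simp at hv0
  have hi : ‖v0⁻¹‖ = 1 := by rw [norm_inv, hv0, inv_one]
  have hi0 : v0⁻¹ ≠ 0 := inv_ne_zero hv00
  have e1 : ∀ᶠ u in 𝓝 (v0⁻¹), u⁻¹ ∈ Metric.ball v0 δ := by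
    have h1 : ContinuousAt (fun u : ℂ => u⁻¹) v0⁻¹ := continuousAt_inv₀ hi0
    apply h1.eventually
    simp only [inv_inv]
    exact Metric.ball_mem_nhds _ hδ
  have e2 : ∀ᶠ u in 𝓝 (v0⁻¹), u ≠ 0 := continuousAt_id.eventually_ne hi0
  obtain ⟨ρ, hρ, hball⟩ := Metric.eventually_nhds_iff_ball.1 (e1.and e2)
  refine no_cont_inside hS hP v0⁻¹ hi ⟨ρ, hρ, fun u => g u⁻¹, ?_, ?_⟩
  · intro u hu
    obtain ⟨f1, f2⟩ := hball u hu
    have h1 : DifferentiableAt ℂ g u⁻¹ :=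
      (hg _ f1).differentiableAt (Metric.isOpen_ball.mem_nhds f1)
    have h2 : DifferentiableAt ℂ (fun u : ℂ => u⁻¹) u := differentiableAt_inv f2
    exact (DifferentiableAt.comp (g := g) (f := fun u : ℂ => u⁻¹) u h1 h2).differentiableWithinAt
  · intro u hu hu1
    obtain ⟨f1, f2⟩ := hball u hu
    have h1 := hgS _ f1 (by
      rw [norm_inv]
      exact (one_lt_inv₀ (norm_pos_iff.2 f2)).2 hu1)
    rw [inv_inv, add_comm] at h1
    exact h1

/-! ### The domain -/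

/-- The domain of analyticity in the variable `c`. -/
def Omc : Set ℂ := {c | c.im ≠ 0 ∨ 2 < c.re ∨ c.re < -2}

theorem isOpen_Omc : IsOpen Omc := by
  have : Omc = {c : ℂ | c.im ≠ 0} ∪ ({c : ℂ | 2 < c.re} ∪ {c : ℂ | c.re < -2}) := by
    ext c
    simp [Omc]
  rw [this]
  refine IsOpen.union ?_ (IsOpen.union ?_ ?_)
  · exact isOpen_ne_fun Complex.continuous_im continuous_const
  · exact isOpen_lt continuous_const Complex.continuous_re
  · exact isOpen_lt Complex.continuous_re continuous_const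

theorem add_inv_mem_Omc {v : ℂ} (h0 : v ≠ 0) (h1 : ‖v‖ ≠ 1) : v + v⁻¹ ∈ Omc := by
  by_contra h
  have h2 : ¬ ((v + v⁻¹).im ≠ 0 ∨ 2 < (v + v⁻¹).re ∨ (v + v⁻¹).re < -2) := h
  push Not at h2
  obtain ⟨him, hre1, hre2⟩ := h2
  have hn : 0 < Complex.normSq v := Complex.normSq_pos.2 h0
  have hn1 : Complex.normSq v ≠ 1 := by
    rw [Complex.normSq_eq_norm_sq]
    intro h
    apply h1
    have := norm_nonneg v
    nlinarith
  rw [Complex.add_im, Complex.inv_im] at him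
  rw [Complex.add_re, Complex.inv_re] at hre1 hre2
  have h3 : v.im * (Complex.normSq v - 1) = 0 := by
    field_simp at him
    linarith
  have h4 : v.im = 0 := (mul_eq_zero.1 h3).resolve_right (sub_ne_zero.2 hn1)
  have h5 : Complex.normSq v = v.re ^ 2 := by
    rw [Complex.normSq_apply, h4]
    ring
  rw [h5] at hre1 hre2 hn hn1
  have h6 : v.re ≠ 0 := by
    intro h
    rw [h] at hn
    norm_num at hn
  have h7 : v.re + v.re / v.re ^ 2 = v.re + v.re⁻¹ := by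
    field_simp
  rw [h7] at hre1 hre2
  have h8 : v.re * v.re⁻¹ = 1 := mul_inv_cancel₀ h6
  have h9 : (v.re + v.re⁻¹) ^ 2 ≤ 4 := by nlinarith
  have h10 : (v.re - v.re⁻¹) ^ 2 ≤ 0 := by nlinarith
  have h11 : v.re - v.re⁻¹ = 0 := by nlinarith [sq_nonneg (v.re - v.re⁻¹)]
  apply hn1
  rw [sq]
  nth_rewrite 2 [show v.re = v.re⁻¹ by linarith]
  exact h8

theorem one_sub_mem_slitPlane {z : ℂ} (hz : ‖z‖ ≤ 1) (hz1 : z ≠ 1) : 1 - z ∈ slitPlane := by
  rw [Complex.mem_slitPlane_iff]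
  by_contra h
  push Not at h
  obtain ⟨h1, h2⟩ := h
  rw [Complex.sub_re, Complex.one_re] at h1
  rw [Complex.sub_im, Complex.one_im] at h2
  have h3 : z.re ≤ ‖z‖ := Complex.re_le_norm z
  apply hz1
  apply Complex.ext
  · rw [Complex.one_re]
    linarith
  · rw [Complex.one_im]
    linarith

end

end IsingNB
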