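import Pool.Agent.Helper98.NB.Defs

/-!
# NB-16a: the group velocity takes all values in `[0,1]`
-/

namespace IsingNB

open Complex Set
open scoped Real

noncomputable section

theorem exists_vel {c0 θ : ℝ} (h0 : 0 < c0) (h2 : c0 < 2) (hθ : θ ∈ Icc (0 : ℝ) 1) :
    ∃ a ∈ Icc (-(Real.arccos (c0 / 2))) 0, vel c0 a = θ := by
  have hs : ∀ a ∈ Icc (-(Real.arccos (c0 / 2))) 0, Real.sin (del c0 a) ≠ 0 := by
    intro a ha
    have hcos1 : c0 / 2 ≤ Real.cos a := by
      have h1 : Real.cos (Real.arccos (c0 / 2)) = c0 / 2 :=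
        Real.cos_arccos (by linarith) (by linarith)
      rw [← h1, ← Real.cos_neg a]
      apply Real.cos_le_cos_of_nonneg_of_le_pi
      · linarith [ha.2]
      · exact Real.arccos_le_pi _
      · linarith [ha.1]
    have hcos2 : Real.cos a ≤ 1 := Real.cos_le_one a
    unfold del
    rw [Real.sin_arccos]
    apply ne_of_gt
    apply Real.sqrt_pos_of_pos
    have h3 : -1 < c0 - Real.cos a := by linarith
    have h4 : c0 - Real.cos a < 1 := by linarith
    nlinarith
  have hcont : ContinuousOn (vel c0) (Icc (-(Real.arccos (c0 / 2))) 0) := by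
    unfold vel
    apply ContinuousOn.div
    · exact (Real.continuous_sin.neg).continuousOn
    · unfold del
      exact (Real.continuous_sin.comp (Real.continuous_arccos.comp
        (continuous_const.sub Real.continuous_cos))).continuousOn
    · exact hs
  have hle : -(Real.arccos (c0 / 2)) ≤ 0 := by
    linarith [Real.arccos_nonneg (c0 / 2)]
  have h1 := intermediate_value_Icc' hle hcont
  have hv0 : vel c0 0 = 0 := by
    simp [vel]
  have hv1 : vel c0 (-(Real.arccos (c0 / 2))) = 1 := by
    have e1 : Real.cos (Real.arccos (c0 / 2)) = c0 / 2 :=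
      Real.cos_arccos (by linarith) (by linarith)
    have e2 : del c0 (-(Real.arccos (c0 / 2))) = Real.arccos (c0 / 2) := by
      unfold del
      rw [Real.cos_neg, e1]
      congr 1
      ring
    have e3 := hs _ (left_mem_Icc.mpr hle)
    rw [e2] at e3
    unfold vel
    rw [e2, Real.sin_neg, neg_neg]
    exact div_self e3
  rw [hv0, hv1] at h1
  obtain ⟨a, ha, hav⟩ := h1 hθ
  exact ⟨a, ha, hav⟩

theorem arccos_half_lt_fe {c0 : ℝ} (h0 : 0 < c0) (h2 : c0 < 2) :
    Real.arccos (c0 / 2) < fe c0 := by
  unfold fe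
  apply Real.strictAntiOn_arccos
  · exact ⟨by linarith, by linarith⟩
  · exact ⟨by linarith, by linarith⟩
  · linarith

end

end IsingNB
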